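import Pool.Agent.GPA.XDefs

/-!
# The Borel-Cantelli lemma for names of open sets

Let `O k` be measurable families of sets with summable measures. The points which belong to
infinitely many `O k` form a null name, and a finite measure which vanishes on it is small on
almost all `O k`; the least such `k` is a measurable function of the point.
-/

open Set Filter MeasureTheory
open scoped ENNReal Topology

namespace Pool.Agent.GPA

/-- The points which belong to infinitely many of the sets. -/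
def lsup {α : Type} (O : ℕ → Set α) : Set α := ⋂ m : ℕ, ⋃ k : ℕ, O (m + k)

theorem mem_lsup {α : Type} {O : ℕ → Set α} {a : α} : a ∈ lsup O ↔ ∀ m, ∃ k, m ≤ k ∧ a ∈ O k := by
  simp only [lsup, mem_iInter, mem_iUnion]
  refine forall_congr' fun m => ⟨fun ⟨k, hk⟩ => ⟨m + k, by lia, hk⟩, fun ⟨k, hk, h⟩ => ⟨k - m, ?_⟩⟩
  rwa [Nat.add_sub_cancel' hk]

theorem sec_lsup {X Y : Type} (O : ℕ → Set (X × Y)) (x : X) :
    sec (lsup O) x = lsup fun k => sec (O k) x := by
  ext y
  simp only [lsup, sec, mem_preimage, mem_iInter, mem_iUnion]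

theorem measurableSet_lsup {α : Type} [MeasurableSpace α] {O : ℕ → Set α}
    (hO : ∀ k, MeasurableSet (O k)) : MeasurableSet (lsup O) :=
  MeasurableSet.iInter fun _ => MeasurableSet.iUnion fun _ => hO _

/-- The Borel-Cantelli lemma. -/
theorem measure_lsup_eq_zero {Y : Type} [MeasurableSpace Y] {μ : Measure Y} {O : ℕ → Set Y}
    {c : ℕ → ℝ≥0∞} (hc : ∑' k, c k ≠ ∞) (h : ∀ k, μ (O k) ≤ c k) : μ (lsup O) = 0 := by
  have h1 : Tendsto (fun m => ∑' k, c (k + m)) atTop (𝓝 0) := ENNReal.tendsto_sum_nat_add c hc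
  refine le_antisymm (ge_of_tendsto' h1 fun m => ?_) zero_le
  calc μ (lsup O) ≤ μ (⋃ k, O (m + k)) := measure_mono (iInter_subset _ m)
    _ ≤ ∑' k, μ (O (m + k)) := measure_iUnion_le _
    _ ≤ ∑' k, c (k + m) := ENNReal.tsum_le_tsum fun k => by
        rw [add_comm m k]
        exact h _

/-- A finite measure which vanishes on the upper limit is small on the tails. -/
theorem tendsto_measure_tail {Y : Type} [MeasurableSpace Y] {μ : Measure Y} [IsFiniteMeasure μ]
    {O : ℕ → Set Y} (hO : ∀ k, MeasurableSet (O k)) (h : μ (lsup O) = 0) :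
    Tendsto (fun m => μ (⋃ k, O (m + k))) atTop (𝓝 0) := by
  rw [← h]
  refine tendsto_measure_iInter_atTop (fun m => (MeasurableSet.iUnion fun k => hO _).nullMeasurableSet)
    ?_ ⟨0, measure_ne_top _ _⟩
  intro m m' hm
  refine iUnion_subset fun k => ?_
  refine subset_iUnion_of_subset (m' - m + k) ?_
  rw [show m + (m' - m + k) = m' + k by lia]

theorem exists_measure_tail_le {Y : Type} [MeasurableSpace Y] {μ : Measure Y} [IsFiniteMeasure μ]
    {O : ℕ → Set Y} (hO : ∀ k, MeasurableSet (O k)) (h : μ (lsup O) = 0) {δ : ℝ≥0∞} (hδ : δ ≠ 0) :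
    ∃ m, μ (⋃ k, O (m + k)) ≤ δ :=
  (((tendsto_measure_tail hO h).eventually (gt_mem_nhds (pos_iff_ne_zero.2 hδ))).exists).imp
    fun _ h => h.le

variable {K : Type} [LinearOrder K]

/-- The upper limit of a sequence of names of sets with summable measures is a null name. -/
theorem nullName_lsup {j : WithTop K} {O : ℕ → Set (Pt K × YS ℕ)} (hO : ∀ k, MeasurableSet (O k))
    (hd : ∀ k, Det j fun x => sec (O k) x) {c : ℕ → ℝ≥0∞} (hc : ∑' k, c k ≠ ∞)
    (h : ∀ k x, coin ℕ (sec (O k) x) ≤ c k) : NullName j (lsup O) := by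
  refine ⟨measurableSet_lsup hO, fun x y hxy => ?_, fun x => ?_⟩
  · show sec (lsup O) x = sec (lsup O) y
    rw [sec_lsup, sec_lsup]
    congr 1
    funext k
    exact hd k x y hxy
  · rw [sec_lsup]
    exact measure_lsup_eq_zero hc fun k => h k x

/-- A kernel evaluated at the sections of a measurable set. -/
theorem measurable_ker_sec {X Y : Type} [MeasurableSpace X] [MeasurableSpace Y]
    {μ : X → Measure Y} (hμ : ∀ s, MeasurableSet s → Measurable fun x => μ x s)
    (hμf : ∀ x, IsFiniteMeasure (μ x)) {W : Set (X × Y)} (hW : MeasurableSet W) :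
    Measurable fun x => μ x (sec W x) := by
  refine MeasurableSpace.induction_on_inter
    (C := fun W _ => Measurable fun x => μ x (sec W x)) generateFrom_prod.symm isPiSystem_prod
    ?_ ?_ ?_ ?_ W hW
  · simp [sec]
  · rintro _ ⟨s, hs, t, ht, rfl⟩
    have h1 : (fun x => μ x (sec (s ×ˢ t) x)) = s.indicator fun x => μ x t := by
      classical
      funext x
      by_cases hx : x ∈ s
      · rw [indicator_of_mem hx, sec, mk_preimage_prod_right hx]
      · rw [indicator_of_notMem hx, sec, mk_preimage_prod_right_eq_empty hx, measure_empty]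
    rw [h1]
    exact (hμ t ht).indicator hs
  · intro W hW h
    have h1 : (fun x => μ x (sec Wᶜ x)) = fun x => μ x univ - μ x (sec W x) := by
      funext x
      have := hμf x
      rw [sec, preimage_compl, measure_compl (measurable_prodMk_left hW) (measure_ne_top _ _)]
    rw [h1]
    exact (hμ univ MeasurableSet.univ).sub h
  · intro W hdj hW h
    have h1 : (fun x => μ x (sec (⋃ i, W i) x)) = fun x => ∑' i, μ x (sec (W i) x) := by
      funext x
      rw [sec, preimage_iUnion]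
      refine measure_iUnion (fun i i' hii' => ?_) fun i => measurable_prodMk_left (hW i)
      exact (hdj hii').preimage _
    rw [h1]
    exact Measurable.tsum h

/-- The least index such that the measure of the tail is small, as a function of the point. -/
theorem exists_tail_choice {i j : WithTop K} (hij : i ≤ j) {O : ℕ → Set (Pt K × YS ℕ)}
    (hO : ∀ k, MeasurableSet (O k)) (hd : ∀ k, Det j fun x => sec (O k) x)
    {μ : Pt K → Measure (YS ℕ)} (hμ : ∀ s, MeasurableSet s → Measurable fun x => μ x s)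
    (hμd : Det i μ) (hμf : ∀ x, IsFiniteMeasure (μ x)) {δ : ℝ≥0∞} (hδ : δ ≠ 0) :
    ∃ k : Pt K → ℕ, CM k ∧ Det j k ∧ ∀ x, μ x (sec (lsup O) x) = 0 →
      ∀ l, k x ≤ l → μ x (⋃ r, sec (O (l + r)) x) ≤ δ := by
  let U : ℕ → Set (Pt K × YS ℕ) := fun m => ⋃ r, O (m + r)
  have hU : ∀ m, MeasurableSet (U m) := fun m => MeasurableSet.iUnion fun r => hO _
  have hUs : ∀ m x, sec (U m) x = ⋃ r, sec (O (m + r)) x := fun m x => by
    simp only [U, sec, preimage_iUnion]
  have hP : ∀ m, MeasurableSet {x | μ x (sec (U m) x) ≤ δ} := fun m =>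
    measurable_ker_sec hμ hμf (hU m) measurableSet_Iic
  refine ⟨fun x => sInf {m | μ x (sec (U m) x) ≤ δ}, CM.find hP, fun x y hxy => ?_,
    fun x hx l hl => ?_⟩
  · show sInf {m | μ x (sec (U m) x) ≤ δ} = sInf {m | μ y (sec (U m) y) ≤ δ}
    congr 1
    ext m
    have h1 : sec (U m) x = sec (U m) y := by
      rw [hUs, hUs]
      exact iUnion_congr fun r => hd _ x y hxy
    rw [mem_ofPred_eq, mem_ofPred_eq, h1, hμd x y (hxy.mono hij)]
  · have := hμf x
    have h1 : {m | μ x (sec (U m) x) ≤ δ}.Nonempty := by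
      obtain ⟨m, hm⟩ := exists_measure_tail_le (μ := μ x) (O := fun k => sec (O k) x)
        (fun k => measurable_prodMk_left (hO k)) (by rwa [← sec_lsup]) hδ
      exact ⟨m, by rw [mem_ofPred_eq, hUs]; exact hm⟩
    have h2 : μ x (sec (U (sInf {m | μ x (sec (U m) x) ≤ δ})) x) ≤ δ := Nat.sInf_mem h1
    refine le_trans (measure_mono ?_) h2
    rw [hUs]
    refine iUnion_subset fun r => ?_
    refine subset_iUnion_of_subset (l - sInf {m | μ x (sec (U m) x) ≤ δ} + r) ?_
    rw [show sInf {m | μ x (sec (U m) x) ≤ δ} + (l - sInf {m | μ x (sec (U m) x) ≤ δ} + r) = l + r by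
      have : sInf {m | μ x (sec (U m) x) ≤ δ} ≤ l := hl
      lia]

/-! ### The first Borel-Cantelli lemma for functions -/

/-- The first Borel-Cantelli lemma in `N`: a sequence of functions with summable integrals tends to
`0` outside of a null name. -/
theorem borel_cantelli {j : WithTop K} {f : ℕ → Pt K → YS ℕ → ℝ≥0∞}
    (hf : ∀ k, Measurable fun z : Pt K × YS ℕ => f k z.1 z.2) (hd : ∀ k, Det j (f k)) :
    ∃ Z, NullName j Z ∧ ∀ x, (∑' k, ∫⁻ z, f k x z ∂coin ℕ) ≠ ⊤ →
      ∀ z, z ∉ sec Z x → Tendsto (fun k => f k x z) atTop (𝓝 0) := by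
  have h1 : Measurable fun x : Pt K => ∑' k, ∫⁻ z, f k x z ∂coin ℕ :=
    Measurable.tsum fun k => (hf k).lintegral_prod_right
  have h2 : Measurable fun z : Pt K × YS ℕ => ∑' k, f k z.1 z.2 := Measurable.tsum hf
  refine ⟨{z | (∑' k, ∫⁻ y, f k z.1 y ∂coin ℕ) ≠ ⊤ ∧ ∑' k, f k z.1 z.2 = ⊤}, ⟨?_, ?_, ?_⟩, ?_⟩
  · exact ((h1.comp measurable_fst) (measurableSet_singleton ⊤)).compl.inter
      (h2 (measurableSet_singleton ⊤))
  · intro x y hxy
    ext z
    have h3 : ∀ k, f k x = f k y := fun k => hd k x y hxy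
    simp only [sec, mem_preimage, mem_ofPred_eq, h3]
  · intro x
    by_cases hx : (∑' k, ∫⁻ y, f k x y ∂coin ℕ) = ⊤
    · have : sec {z : Pt K × YS ℕ | (∑' k, ∫⁻ y, f k z.1 y ∂coin ℕ) ≠ ⊤ ∧
          ∑' k, f k z.1 z.2 = ⊤} x = ∅ := by
        ext y
        simp [sec, hx]
      rw [this, measure_empty]
    · have h3 : ∫⁻ y, ∑' k, f k x y ∂coin ℕ ≠ ⊤ := by
        have h5 : ∀ k, Measurable (f k x) := fun k => (hf k).comp measurable_prodMk_left
        rw [lintegral_tsum fun k => (h5 k).aemeasurable]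
        exact hx
      have h4 := ae_lt_top (h2.comp measurable_prodMk_left) h3
      refine measure_mono_null ?_ h4
      rintro y ⟨-, hy⟩ hy'
      exact hy'.ne hy
  · intro x hx z hz
    refine ENNReal.tendsto_atTop_zero_of_tsum_ne_top fun h => hz ⟨hx, h⟩

/-! ### The case of equal levels of the extension theorem -/

/-- The open sets of a code. -/
def opn (c : Pt K → ℕ → Set (YS ℕ)) : Set (Pt K × YS ℕ) := {z | ∃ n, z.2 ∈ c z.1 n}

omit [LinearOrder K] in
theorem sec_opn (c : Pt K → ℕ → Set (YS ℕ)) (y : Pt K) : sec (opn c) y = ⋃ n, c y n := by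
  ext z
  simp [sec, opn]

theorem IsCode.measurableSet_opn {j : WithTop K} {a k : ℕ} {c : Pt K → ℕ → Set (YS ℕ)}
    (h : IsCode j a k c) : MeasurableSet (opn c) := by
  have h1 : opn c = ⋃ n, ⋃ v ∈ range fun y => c y n, {y | c y n = v} ×ˢ v := by
    ext ⟨y, z⟩
    simp only [opn, mem_ofPred_eq, mem_iUnion, mem_prod, exists_prop, mem_range]
    constructor
    · rintro ⟨n, hn⟩
      exact ⟨n, c y n, ⟨y, rfl⟩, rfl, hn⟩
    · rintro ⟨n, v, -, rfl, hv⟩
      exact ⟨n, hv⟩
  rw [h1]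
  refine MeasurableSet.iUnion fun n => MeasurableSet.biUnion (h.cm n).1 ?_
  rintro v ⟨y, rfl⟩
  exact ((h.cm n).2 _).prod (h.cyl y n).measurableSet

theorem IsCode.coin_opn_le {j : WithTop K} {a k : ℕ} {c : Pt K → ℕ → Set (YS ℕ)}
    (h : IsCode j a k c) (y : Pt K) : coin ℕ (sec (opn c) y) ≤ a * 2 * 4⁻¹ ^ k := by
  have h1 : ∑' n : ℕ, (4⁻¹ : ℝ≥0∞) ^ n ≤ 2 := by
    rw [ENNReal.tsum_geometric]
    rw [ENNReal.inv_le_iff_inv_le]
    refine ENNReal.le_sub_of_add_le_left (by simp) ?_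
    calc (4⁻¹ : ℝ≥0∞) + 2⁻¹ ≤ 2⁻¹ + 2⁻¹ := by
          gcongr
          norm_num
      _ = 1 := ENNReal.inv_two_add_inv_two
  calc coin ℕ (sec (opn c) y) = coin ℕ (⋃ n, c y n) := by rw [sec_opn]
    _ ≤ ∑' n, coin ℕ (c y n) := measure_iUnion_le _
    _ ≤ ∑' n, (a : ℝ≥0∞) * 4⁻¹ ^ k * 4⁻¹ ^ n := ENNReal.tsum_le_tsum fun n => by
        rw [mul_assoc, ← pow_add]
        exact h.le y n
    _ = a * 4⁻¹ ^ k * ∑' n, (4⁻¹ : ℝ≥0∞) ^ n := ENNReal.tsum_mul_left
    _ ≤ a * 4⁻¹ ^ k * 2 := by gcongr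
    _ = a * 2 * 4⁻¹ ^ k := by ring

theorem IsTask.nullName {j : WithTop K} {u : Task K} (h : IsTask j u) :
    NullName j (lsup fun k => opn (u.2.1 k)) := by
  refine nullName_lsup (fun k => (h k).measurableSet_opn) (fun k x y hxy => ?_)
    (c := fun k => (u.2.2 : ℝ≥0∞) * 2 * 4⁻¹ ^ k) ?_ fun k y => (h k).coin_opn_le y
  · show sec (opn (u.2.1 k)) x = sec (opn (u.2.1 k)) y
    rw [sec_opn, sec_opn, (h k).det x y hxy]
  · rw [ENNReal.tsum_mul_left]
    refine ENNReal.mul_ne_top (ENNReal.mul_ne_top (by simp) (by simp)) ?_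
    rw [ENNReal.tsum_geometric]
    simp only [ne_eq, ENNReal.inv_eq_top, tsub_eq_zero_iff_le, not_le]
    rw [ENNReal.inv_lt_one]
    norm_num

/-- The case `i = j` of the extension theorem. -/
theorem ext_refl {i : WithTop K} : ∀ᶠ N in club, EXT (K := K) N i i := by
  filter_upwards [club_map fun u : Task K => lsup fun k => opn (u.2.1 k)] with N hN u hu hut π hπ δ hδ
  have hπf : ∀ x, IsFiniteMeasure (π x) := fun x => ⟨(hπ.le x).trans_lt ENNReal.one_lt_top⟩
  obtain ⟨k, hk, hkd, hkδ⟩ := exists_tail_choice (le_refl i)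
    (fun k => (hut k).measurableSet_opn) (fun k x y hxy => by
      show sec (opn (u.2.1 k)) x = sec (opn (u.2.1 k)) y
      rw [sec_opn, sec_opn, (hut k).det x y hxy]) hπ.meas hπ.det hπf hδ
  refine ⟨k, Cond.full, hk, hkd, fun y hy hyg hyk _ => ⟨hyg, hyk, hy _, ?_⟩⟩
  refine (measure_mono ?_).trans (hkδ y (hyk _ (hN u hu) hut.nullName) (k y) le_rfl)
  refine subset_iUnion_of_subset 0 ?_
  rw [add_zero, sec_opn]

end Pool.Agent.GPA
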