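import Mathlib

/-!
# The club filter on countable sets of objects

The objects are all elements of all types in `Type`. A property holds for club many countable sets
`N` of objects if it holds for all countable `N` closed under countably many finitary functions.
This replaces countable elementary submodels: `∀ᶠ N in club, P N`. The filter is closed under
countable intersections, and under diagonal intersections (`club_diag`).
-/

open Set Filter

namespace Pool.Agent.GPA

/-- All objects. -/
abbrev Obj : Type 1 := Σ α : Type, α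

/-- The object `u` belongs to `N`. -/
def Has (N : Set Obj) {α : Type} (u : α) : Prop := (⟨α, u⟩ : Obj) ∈ N

/-- `N` is closed under the functions `F n`. -/
def ClosedU (F : ℕ → List Obj → Obj) (N : Set Obj) : Prop :=
  ∀ n l, (∀ u ∈ l, u ∈ N) → F n l ∈ N

/-- The club filter. -/
def club : Filter (Set Obj) where
  sets := {S | ∃ F : ℕ → List Obj → Obj, ∀ N : Set Obj, N.Countable → ClosedU F N → N ∈ S}
  univ_sets := ⟨fun _ _ => ⟨Unit, ()⟩, fun _ _ _ => mem_univ _⟩
  sets_of_superset := by
    rintro S T ⟨F, hF⟩ hST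
    exact ⟨F, fun N h1 h2 => hST (hF N h1 h2)⟩
  inter_sets := by
    rintro S T ⟨F, hF⟩ ⟨G, hG⟩
    refine ⟨fun n => if n % 2 = 0 then F (n / 2) else G (n / 2), fun N h1 h2 => ⟨hF N h1 ?_,
      hG N h1 ?_⟩⟩
    · intro n l hl
      have := h2 (2 * n) l hl
      simpa using this
    · intro n l hl
      have h3 := h2 (2 * n + 1) l hl
      have e1 : (2 * n + 1) % 2 = 1 := by omega
      have e2 : (2 * n + 1) / 2 = n := by omega
      simpa [e1, e2] using h3

theorem eventually_club {P : Set Obj → Prop} : (∀ᶠ N in club, P N) ↔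
    ∃ F : ℕ → List Obj → Obj, ∀ N : Set Obj, N.Countable → ClosedU F N → P N := Iff.rfl

/-- Closure under one function suffices. -/
theorem club_of_fun {P : Set Obj → Prop} (F : List Obj → Obj)
    (h : ∀ N : Set Obj, N.Countable → (∀ l : List Obj, (∀ u ∈ l, u ∈ N) → F l ∈ N) → P N) :
    ∀ᶠ N in club, P N :=
  eventually_club.2 ⟨fun _ => F, fun N h1 h2 => h N h1 fun l hl => h2 0 l hl⟩

theorem club_all_nat {P : ℕ → Set Obj → Prop} (h : ∀ n, ∀ᶠ N in club, P n N) :
    ∀ᶠ N in club, ∀ n, P n N := by
  choose F hF using fun n => eventually_club.1 (h n)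
  refine eventually_club.2 ⟨fun k => F (Nat.unpair k).1 (Nat.unpair k).2, fun N h1 h2 n => ?_⟩
  refine hF n N h1 fun m l hl => ?_
  have := h2 (Nat.pair n m) l hl
  simpa using this

instance : CountableInterFilter club where
  countable_sInter_mem S hS h := by
    rcases S.eq_empty_or_nonempty with h0 | h0
    · rw [h0, sInter_empty]
      exact univ_mem
    · obtain ⟨f, rfl⟩ := hS.exists_eq_range h0
      have h1 : ∀ᶠ N in club, ∀ n, N ∈ f n := club_all_nat fun n => h (f n) ⟨n, rfl⟩
      refine mem_of_superset h1 fun N hN => ?_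
      rintro _ ⟨n, rfl⟩
      exact hN n

/-- The closure of a set under countably many functions. -/
inductive Clo (F : ℕ → List Obj → Obj) (A : Set Obj) : Obj → Prop
  | base (u : Obj) : u ∈ A → Clo F A u
  | step (n : ℕ) (l : List Obj) : (∀ u ∈ l, Clo F A u) → Clo F A (F n l)

/-- The approximations of the closure. -/
def cloN (F : ℕ → List Obj → Obj) (A : Set Obj) : ℕ → Set Obj
  | 0 => A
  | k + 1 => cloN F A k ∪ (fun p : ℕ × List Obj => F p.1 p.2) '' (univ ×ˢ {l | ∀ u ∈ l, u ∈ cloN F A k})

theorem countable_lists {A : Set Obj} (hA : A.Countable) : {l : List Obj | ∀ u ∈ l, u ∈ A}.Countable := by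
  have : Countable A := hA
  have h : {l : List Obj | ∀ u ∈ l, u ∈ A} ⊆ range (fun l : List A => l.map Subtype.val) := by
    intro l hl
    refine ⟨l.attach.map fun u => ⟨u.1, hl u.1 u.2⟩, ?_⟩
    simp
  exact (countable_range _).mono h

/-- Every countable set of objects is contained in a countable set with the property. -/
theorem club_exists {P : Set Obj → Prop} (h : ∀ᶠ N in club, P N) {A : Set Obj}
    (hA : A.Countable) : ∃ N : Set Obj, A ⊆ N ∧ N.Countable ∧ P N := by
  obtain ⟨F, hF⟩ := eventually_club.1 h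
  have hmono : Monotone (cloN F A) := monotone_nat_of_le_succ fun k => subset_union_left
  have hc : ∀ k, (cloN F A k).Countable := by
    intro k
    induction k with
    | zero => exact hA
    | succ k ih =>
      exact ih.union ((countable_univ.prod (countable_lists ih)).image _)
  refine ⟨⋃ k, cloN F A k, fun u hu => mem_iUnion.2 ⟨0, hu⟩, countable_iUnion hc,
    hF _ (countable_iUnion hc) fun n l hl => ?_⟩
  have key : ∀ l : List Obj, (∀ u ∈ l, u ∈ ⋃ k, cloN F A k) → ∃ k, ∀ u ∈ l, u ∈ cloN F A k := by
    intro l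
    induction l with
    | nil => exact fun _ => ⟨0, by simp⟩
    | cons u l ih =>
      intro hl
      obtain ⟨k, hk⟩ := ih fun v hv => hl v (by simp [hv])
      obtain ⟨k', hk'⟩ := mem_iUnion.1 (hl u (by simp))
      refine ⟨max k k', fun v hv => ?_⟩
      rcases List.mem_cons.1 hv with rfl | hv
      · exact hmono (le_max_right _ _) hk'
      · exact hmono (le_max_left _ _) (hk v hv)
  obtain ⟨k, hk⟩ := key l hl
  exact mem_iUnion.2 ⟨k + 1, Or.inr ⟨(n, l), ⟨mem_univ _, hk⟩, rfl⟩⟩

instance : NeBot club := by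
  refine ⟨fun h => ?_⟩
  have : ∀ᶠ _ in club, False := by rw [h]; simp
  obtain ⟨N, -, -, hN⟩ := club_exists this countable_empty
  exact hN

theorem club_exists_of_has {P : Set Obj → Prop} (h : ∀ᶠ N in club, P N) {α : Type} (u : α) :
    ∃ N : Set Obj, Has N u ∧ N.Countable ∧ P N := by
  obtain ⟨N, h1, h2, h3⟩ := club_exists h (countable_singleton (⟨α, u⟩ : Obj))
  exact ⟨N, h1 rfl, h2, h3⟩

theorem club_countable : ∀ᶠ N in club, N.Countable :=
  club_of_fun (fun _ => ⟨Unit, ()⟩) fun _ h _ => h

theorem club_const {α : Type} (u : α) : ∀ᶠ N in club, Has N u :=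
  club_of_fun (fun _ => ⟨α, u⟩) fun _ _ h => h [] (by simp)

/-- Closure under a function of one variable. -/
theorem club_map {α β : Type} (f : α → β) : ∀ᶠ N in club, ∀ u : α, Has N u → Has N (f u) := by
  classical
  refine club_of_fun (fun l => match l with
    | [] => ⟨Unit, ()⟩
    | u :: _ => if h : u.1 = α then ⟨β, f (h ▸ u.2)⟩ else ⟨Unit, ()⟩) fun N _ h u hu => ?_
  have := h [⟨α, u⟩] (by
    intro v hv
    rw [List.mem_singleton.1 hv]
    exact hu)
  simpa [Has] using this

/-- Closure under pairs, for all types. -/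
theorem club_pair : ∀ᶠ N in club, ∀ (α β : Type) (u : α) (v : β), Has N u → Has N v →
    Has N (u, v) := by
  refine club_of_fun (fun l => match l with
    | u :: v :: _ => ⟨u.1 × v.1, (u.2, v.2)⟩
    | _ => ⟨Unit, ()⟩) fun N _ h α β u v hu hv => ?_
  exact h [⟨α, u⟩, ⟨β, v⟩] (by simpa using ⟨hu, hv⟩)

/-- Closure under Skolem functions. -/
theorem club_skolem {α β : Type} (R : α → β → Prop) : ∀ᶠ N in club, ∀ u : α, Has N u →
    (∃ v, R u v) → ∃ v, Has N v ∧ R u v := by
  classical
  by_cases hβ : Nonempty β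
  · obtain ⟨b⟩ := hβ
    filter_upwards [club_map fun u : α => if h : ∃ v, R u v then h.choose else b] with N hN u hu h
    refine ⟨h.choose, ?_, h.choose_spec⟩
    have := hN u hu
    simpa [h] using this
  · refine Eventually.of_forall fun N u _ h => ?_
    exact (hβ ⟨h.choose⟩).elim

theorem club_skolem₂ {α β γ : Type} (R : α → β → γ → Prop) : ∀ᶠ N in club, ∀ (u : α) (v : β),
    Has N u → Has N v → (∃ w, R u v w) → ∃ w, Has N w ∧ R u v w := by
  filter_upwards [club_skolem (fun (u : α × β) w => R u.1 u.2 w), club_pair] with N h1 h2 u v hu hv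
    h
  exact h1 (u, v) (h2 α β u v hu hv) h

theorem club_map₂ {α β γ : Type} (f : α → β → γ) : ∀ᶠ N in club, ∀ (u : α) (v : β),
    Has N u → Has N v → Has N (f u v) := by
  filter_upwards [club_map (fun u : α × β => f u.1 u.2), club_pair] with N h1 h2 u v hu hv
  exact h1 (u, v) (h2 α β u v hu hv)

theorem club_map₃ {α β γ δ : Type} (f : α → β → γ → δ) : ∀ᶠ N in club, ∀ (u : α) (v : β) (w : γ),
    Has N u → Has N v → Has N w → Has N (f u v w) := by
  filter_upwards [club_map (fun u : α × β × γ => f u.1 u.2.1 u.2.2), club_pair] with N h1 h2 u v w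
    hu hv hw
  exact h1 (u, v, w) (h2 α _ u (v, w) hu (h2 β γ v w hv hw))

/-- The rule of the diagonal intersection. -/
theorem club_diag {α : Type} {P : α → Set Obj → Prop} (h : ∀ u, ∀ᶠ N in club, P u N) :
    ∀ᶠ N in club, ∀ u : α, Has N u → P u N := by
  classical
  choose F hF using fun u => eventually_club.1 (h u)
  refine eventually_club.2 ⟨fun n l => match l with
    | [] => ⟨Unit, ()⟩
    | u :: l => if h : u.1 = α then F (h ▸ u.2) n l else ⟨Unit, ()⟩, fun N h1 h2 u hu => ?_⟩
  refine hF u N h1 fun n l hl => ?_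
  have h3 := h2 n (⟨α, u⟩ :: l) (by
    intro v hv
    rcases List.mem_cons.1 hv with rfl | hv
    · exact hu
    · exact hl v hv)
  simpa using h3

theorem club_diag₂ {α β : Type} {P : α → β → Set Obj → Prop} (h : ∀ u v, ∀ᶠ N in club, P u v N) :
    ∀ᶠ N in club, ∀ (u : α) (v : β), Has N u → Has N v → P u v N := by
  filter_upwards [club_diag (fun u : α => club_diag (h u))] with N hN u v hu hv
  exact hN u hu v hv

/-- All elements of a countable type belong to `N`. -/
theorem club_type (α : Type) [Countable α] : ∀ᶠ N in club, ∀ u : α, Has N u :=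
  eventually_countable_forall.2 fun u => club_const u

/-- The values of a sequence belonging to `N` belong to `N`. -/
theorem club_seq (α : Type) : ∀ᶠ N in club, ∀ s : ℕ → α, Has N s → ∀ n, Has N (s n) := by
  filter_upwards [club_map₂ (fun (s : ℕ → α) (n : ℕ) => s n), club_type ℕ] with N h1 h2 s hs n
  exact h1 s n hs (h2 n)

/-- The elements of a countable set belonging to `N` belong to `N`. -/
theorem club_of_mem (α : Type) : ∀ᶠ N in club, ∀ S : Set α, Has N S → S.Countable →
    ∀ u ∈ S, Has N u := by
  filter_upwards [club_skolem (fun (S : Set α) (s : ℕ → α) => S = range s), club_seq α] with N h1 h2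
    S hS hc u hu
  obtain ⟨s, hs, rfl⟩ := h1 S hS (hc.exists_eq_range ⟨u, hu⟩)
  obtain ⟨n, rfl⟩ := hu
  exact h2 s hs n

end Pool.Agent.GPA
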