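import Pool.Agent.GPA.Reg

/-!
# Measurable families of null sets are covered by measurable families of codes
-/

open MeasureTheory Set
open scoped ENNReal

namespace Pool.Agent.GPA

theorem ini_length (y : ℕ → Bool) (m : ℕ) : (ini y m).length = m := by simp [ini]

theorem ini_getElem (y : ℕ → Bool) (m i : ℕ) (h : i < (ini y m).length) :
    (ini y m)[i] = y i := by simp [ini]

theorem ini_eq_iff {x y : ℕ → Bool} {m : ℕ} : ini x m = ini y m ↔ ∀ i < m, x i = y i := by
  constructor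
  · intro h i hi
    have h1 := ini_getElem x m i (by rw [ini_length]; exact hi)
    have h2 := ini_getElem y m i (by rw [ini_length]; exact hi)
    rw [← h1, ← h2]
    simp only [h]
  · intro h
    refine List.ext_getElem (by simp [ini]) fun i h1 _ => ?_
    rw [ini_getElem, ini_getElem]
    exact h i (by rwa [ini_length] at h1)

theorem ini_prefix {y : ℕ → Bool} {k m : ℕ} (h : k ≤ m) : ini y k <+: ini y m := by
  rw [List.prefix_iff_eq_take]
  refine List.ext_getElem (by simp [ini, h]) fun i h1 _ => ?_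
  rw [ini_getElem, List.getElem_take, ini_getElem]

theorem prefix_ini_iff {s : List Bool} {y : ℕ → Bool} {m : ℕ} :
    s <+: ini y m ↔ s.length ≤ m ∧ ini y s.length = s := by
  constructor
  · intro h
    have h1 : s.length ≤ m := by simpa [ini_length] using h.length_le
    refine ⟨h1, ?_⟩
    exact ((List.prefix_of_prefix_length_le h (ini_prefix h1) (by rw [ini_length])).eq_of_length
      (by rw [ini_length])).symm
  · rintro ⟨h, h'⟩
    rw [← h']
    exact ini_prefix h

/-- The set of the points with initial segment `s`. -/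
def cylL (s : List Bool) : Set (ℕ → Bool) := {y | ini y s.length = s}

theorem isCyl_cylL (s : List Bool) : IsCyl (cylL s) := by
  refine ⟨Finset.range s.length, fun x y h => ?_⟩
  have : ini x s.length = ini y s.length := ini_eq_iff.2 fun i hi => h i (by simpa using hi)
  simp only [cylL, mem_ofPred_eq, this]

theorem coin_cylL (s : List Bool) : coin ℕ (cylL s) = 2⁻¹ ^ s.length := by
  have h := coin_cyl (Finset.range s.length) fun i => s.getD i false
  rw [Finset.card_range] at h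
  rw [← h]
  congr 1
  ext x
  simp only [cylL, mem_ofPred_eq, Finset.mem_range]
  constructor
  · intro hx i hi
    have h1 := ini_getElem x s.length i (by rw [ini_length]; exact hi)
    rw [← h1]
    simp only [hx]
    rw [List.getD_eq_getElem _ _ hi]
  · intro hx
    refine List.ext_getElem (by simp [ini]) fun i h1 h2 => ?_
    rw [ini_getElem, hx i h2, List.getD_eq_getElem _ _ h2]

/-- The sequences of length `m` with an initial segment in `u`. -/
def upTo (u : List Bool → Bool) (m : ℕ) : Set (List.Vector Bool m) :=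
  {t | ∃ s : List Bool, u s = true ∧ s <+: t.1}

theorem cylL_disjoint {m : ℕ} {s t : List.Vector Bool m} (h : s ≠ t) :
    Disjoint (cylL s.1) (cylL t.1) := by
  rw [Set.disjoint_left]
  intro y hy hy'
  apply h
  apply Subtype.ext
  have h1 : ini y s.1.length = s.1 := hy
  have h2 : ini y t.1.length = t.1 := hy'
  rw [s.2] at h1
  rw [t.2] at h2
  rw [← h1, ← h2]

theorem coin_upTo (u : List Bool → Bool) (m : ℕ) :
    coin ℕ (⋃ t ∈ upTo u m, cylL t.1) = (upTo u m).ncard * 2⁻¹ ^ m := by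
  classical
  have hf : (upTo u m).Finite := Set.toFinite _
  rw [measure_biUnion hf.countable (fun s _ t _ h => cylL_disjoint h)
    fun t _ => (isCyl_cylL t.1).measurableSet]
  have h1 : ∀ t : upTo u m, coin ℕ (cylL t.1.1) = 2⁻¹ ^ m := fun t => by
    rw [coin_cylL, t.1.2]
  simp_rw [h1]
  rw [ENNReal.tsum_const]
  congr 1
  have h2 : (upTo u m).encard = ((upTo u m).ncard : ℕ∞) := hf.cast_ncard_eq.symm
  rw [ENat.card_coe_set_eq, h2]
  exact ENat.toENNReal_coe _

theorem upTo_sub (u : List Bool → Bool) (m : ℕ) {t : List.Vector Bool m} (ht : t ∈ upTo u m) :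
    cylL t.1 ⊆ {y | ∃ k, u (ini y k) = true} := by
  obtain ⟨s, hs, hst⟩ := ht
  intro y hy
  have h1 : ini y t.1.length = t.1 := hy
  rw [← h1, prefix_ini_iff] at hst
  exact ⟨s.length, by rw [hst.2]; exact hs⟩

/-- A sequence of open sets of measure at most `2⁻ⁿ` is a null code. -/
theorem isNullCode_of_le {u : ℕ → List Bool → Bool}
    (h : ∀ n, coin ℕ {y | ∃ k, u n (ini y k) = true} ≤ 2⁻¹ ^ n) : IsNullCode u := by
  intro n m
  have h1 : coin ℕ (⋃ t ∈ upTo (u n) m, cylL t.1) ≤ 2⁻¹ ^ n := by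
    refine le_trans (measure_mono ?_) (h n)
    exact iUnion₂_subset fun t ht => upTo_sub (u n) m ht
  rw [coin_upTo] at h1
  have h2 : ((upTo (u n) m).ncard * 2 ^ n : ℝ≥0∞) ≤ 2 ^ m := by
    have h3 : (2 : ℝ≥0∞)⁻¹ ^ m * 2 ^ m = 1 := by
      rw [← mul_pow, ENNReal.inv_mul_cancel (by simp) (by simp), one_pow]
    have h4 : (2 : ℝ≥0∞)⁻¹ ^ n * 2 ^ n = 1 := by
      rw [← mul_pow, ENNReal.inv_mul_cancel (by simp) (by simp), one_pow]
    calc ((upTo (u n) m).ncard * 2 ^ n : ℝ≥0∞)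
        = ((upTo (u n) m).ncard * 2⁻¹ ^ m) * (2 ^ m * 2 ^ n) := by
          rw [mul_assoc, ← mul_assoc (2⁻¹ ^ m) (2 ^ m), h3, one_mul]
      _ ≤ 2⁻¹ ^ n * (2 ^ m * 2 ^ n) := by gcongr
      _ = 2 ^ m := by rw [mul_comm (2 ^ m : ℝ≥0∞), ← mul_assoc, h4, one_mul]
  have h5 : (((upTo (u n) m).ncard * 2 ^ n : ℕ) : ℝ≥0∞) ≤ ((2 ^ m : ℕ) : ℝ≥0∞) := by
    push_cast; exact h2
  exact_mod_cast h5

theorem openL_eq (u : List Bool → Bool) :
    {y : ℕ → Bool | ∃ k, u (ini y k) = true} = ⋃ m, ⋃ t ∈ upTo u m, cylL t.1 := by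
  ext y
  simp only [mem_iUnion, mem_ofPred_eq]
  constructor
  · rintro ⟨k, hk⟩
    refine ⟨k, ⟨ini y k, ini_length y k⟩, ⟨ini y k, hk, List.prefix_rfl⟩, ?_⟩
    show ini y (ini y k).length = ini y k
    rw [ini_length]
  · rintro ⟨m, t, ht, hy⟩
    exact upTo_sub u m ht hy

theorem upTo_mono (u : List Bool → Bool) :
    Monotone fun m => ⋃ t ∈ upTo u m, cylL t.1 := by
  intro m m' h y hy
  simp only [mem_iUnion] at hy ⊢
  obtain ⟨t, ⟨s, hs, hst⟩, hy⟩ := hy
  refine ⟨⟨ini y m', ini_length y m'⟩, ⟨s, hs, ?_⟩, ?_⟩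
  · have h1 : ini y t.1.length = t.1 := hy
    rw [t.2] at h1
    rw [← h1] at hst
    exact hst.trans (ini_prefix h)
  · show ini y (ini y m').length = ini y m'
    rw [ini_length]

/-- The open sets of a null code are small. -/
theorem IsNullCode.le {u : ℕ → List Bool → Bool} (h : IsNullCode u) (n : ℕ) :
    coin ℕ {y | ∃ k, u n (ini y k) = true} ≤ 2⁻¹ ^ n := by
  rw [openL_eq, (upTo_mono (u n)).measure_iUnion]
  refine iSup_le fun m => ?_
  rw [coin_upTo]
  have h1 : (((upTo (u n) m).ncard * 2 ^ n : ℕ) : ℝ≥0∞) ≤ ((2 ^ m : ℕ) : ℝ≥0∞) := by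
    exact_mod_cast h n m
  push_cast at h1
  have h3 : (2 : ℝ≥0∞) ^ m * 2⁻¹ ^ m = 1 := by
    rw [← mul_pow, ENNReal.mul_inv_cancel (by simp) (by simp), one_pow]
  have h4 : (2 : ℝ≥0∞) ^ n * 2⁻¹ ^ n = 1 := by
    rw [← mul_pow, ENNReal.mul_inv_cancel (by simp) (by simp), one_pow]
  calc ((upTo (u n) m).ncard * 2⁻¹ ^ m : ℝ≥0∞)
      = ((upTo (u n) m).ncard * 2 ^ n) * 2⁻¹ ^ m * 2⁻¹ ^ n := by
        rw [mul_assoc, mul_assoc, mul_comm (2⁻¹ ^ m : ℝ≥0∞), ← mul_assoc (2 ^ n : ℝ≥0∞), h4,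
          one_mul]
    _ ≤ 2 ^ m * 2⁻¹ ^ m * 2⁻¹ ^ n := by gcongr
    _ = 2⁻¹ ^ n := by rw [h3, one_mul]

theorem IsNullCode.coin_nullOf {u : ℕ → List Bool → Bool} (h : IsNullCode u) :
    coin ℕ (NullOf u) = 0 := by
  refine le_antisymm (ge_of_tendsto' (ENNReal.tendsto_pow_atTop_nhds_zero_of_lt_one
    (r := 2⁻¹) (by simp [ENNReal.inv_lt_one])) fun n => ?_) bot_le
  exact le_trans (measure_mono fun y (hy : y ∈ NullOf u) => hy n) (h.le n)

theorem measurableSet_nullOf {Z : Type*} [MeasurableSpace Z] {c : Z → ℕ → List Bool → Bool}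
    (hc : Measurable c) : MeasurableSet {p : Z × (ℕ → Bool) | p.2 ∈ NullOf (c p.1)} := by
  have h : {p : Z × (ℕ → Bool) | p.2 ∈ NullOf (c p.1)} =
      ⋂ n, ⋃ s : List Bool, {z | c z n s = true} ×ˢ cylL s := by
    ext ⟨z, y⟩
    simp only [NullOf, mem_ofPred_eq, mem_iInter, mem_iUnion, mem_prod, cylL]
    refine forall_congr' fun n => ⟨?_, ?_⟩
    · rintro ⟨m, hm⟩
      exact ⟨ini y m, hm, by rw [ini_length]⟩
    · rintro ⟨s, hs, hs'⟩
      exact ⟨s.length, by rw [hs']; exact hs⟩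
  rw [h]
  refine MeasurableSet.iInter fun n => MeasurableSet.iUnion fun s => ?_
  have h1 : Measurable fun z => c z n s :=
    (measurable_pi_apply s).comp ((measurable_pi_apply n).comp hc)
  exact (h1 (measurableSet_singleton true)).prod (isCyl_cylL s).measurableSet

/-- A measurable family of null sets is covered by a measurable family of null codes. -/
theorem exists_code {Z : Type*} [MeasurableSpace Z] {W : Set (Z × (ℕ → Bool))}
    (hW : MeasurableSet W) : ∃ c : Z → ℕ → List Bool → Bool, Measurable c ∧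
      (∀ z, IsNullCode (c z)) ∧
      ∀ z, coin ℕ (Prod.mk z ⁻¹' W) = 0 → Prod.mk z ⁻¹' W ⊆ NullOf (c z) := by
  classical
  have hε : ∀ n : ℕ, (2⁻¹ : ℝ≥0∞) ^ n ≠ 0 := fun n => by simp
  choose U hU h1 h2 using fun n => exists_openFam hW (hε n)
  choose S hS hp hUS using hU
  let z0 : Set Z := {z | coin ℕ (Prod.mk z ⁻¹' W) = 0}
  have hz0 : MeasurableSet z0 := measurable_measure_prodMk_left hW (measurableSet_singleton 0)
  let A : ℕ → List Bool → Set Z := fun n s => z0 ∩ ⋃ p ∈ {p ∈ S n | cylL s ⊆ p.2}, p.1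
  have hA : ∀ n s, MeasurableSet (A n s) := fun n s =>
    hz0.inter (MeasurableSet.biUnion ((hS n).mono fun p hp => hp.1) fun p h => (hp n p h.1).1)
  let c : Z → ℕ → List Bool → Bool := fun z n s => decide (z ∈ A n s)
  have hc : ∀ z n s, c z n s = true ↔ z ∈ A n s := fun z n s => by simp [c]
  have hopen : ∀ z n, {y | ∃ k, c z n (ini y k) = true} ⊆ Prod.mk z ⁻¹' U n := by
    rintro z n y ⟨k, hk⟩
    obtain ⟨-, h3⟩ := (hc _ _ _).1 hk
    simp only [mem_iUnion, mem_ofPred_eq] at h3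
    obtain ⟨p, ⟨hpS, hp2⟩, hz⟩ := h3
    show (z, y) ∈ U n
    rw [hUS n]
    refine mem_iUnion₂.2 ⟨p, hpS, hz, hp2 ?_⟩
    show ini y (ini y k).length = ini y k
    rw [ini_length]
  refine ⟨c, ?_, fun z => isNullCode_of_le fun n => ?_, fun z hz y hy n => ?_⟩
  · refine measurable_pi_iff.2 fun n => measurable_pi_iff.2 fun s => ?_
    refine measurable_to_bool ?_
    have : (fun z => c z n s) ⁻¹' {true} = A n s := by
      ext z; simp [hc]
    rw [this]
    exact hA n s
  · by_cases hz : z ∈ z0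
    · refine (measure_mono (hopen z n)).trans ?_
      have h3 : Prod.mk z ⁻¹' U n ⊆ Prod.mk z ⁻¹' (U n \ W) ∪ Prod.mk z ⁻¹' W := by
        intro y hy
        by_cases h : (z, y) ∈ W
        · exact Or.inr h
        · exact Or.inl ⟨hy, h⟩
      refine (measure_mono h3).trans ((measure_union_le _ _).trans ?_)
      have h4 : coin ℕ (Prod.mk z ⁻¹' W) = 0 := hz
      rw [h4, add_zero]
      exact h2 n z
    · have : {y | ∃ k, c z n (ini y k) = true} = ∅ := by
        ext y
        simp only [mem_ofPred_eq, mem_empty_iff_false, iff_false, not_exists]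
        exact fun k hk => hz ((hc _ _ _).1 hk).1
      rw [this]; simp
  · have h3 : (z, y) ∈ U n := h1 n hy
    rw [hUS n] at h3
    obtain ⟨p, hpS, hzp, hyp⟩ := mem_iUnion₂.1 h3
    obtain ⟨s, hs⟩ := (hp n p hpS).2
    obtain ⟨m, hm⟩ : ∃ m, ∀ i ∈ s, i < m := ⟨s.sup id + 1, fun i hi =>
      Nat.lt_succ_of_le (Finset.le_sup (f := id) hi)⟩
    refine ⟨m, (hc _ _ _).2 ⟨hz, mem_iUnion₂.2 ⟨p, ⟨hpS, fun x hx => ?_⟩, hzp⟩⟩⟩
    have h4 : ini x (ini y m).length = ini y m := hx
    rw [ini_length] at h4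
    exact (hs x y fun i hi => ini_eq_iff.1 h4 i (hm i hi)).2 hyp

end Pool.Agent.GPA
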