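import Pool.Agent.GPA.Gen

/-!
# The decision property

At every level the covering property implies that all measurable sets are decided and the countable
version of this, if the measurable sets are decided at the lower levels.
-/

open Set Filter

namespace Pool.Agent.GPA

variable {K : Type} [LinearOrder K]

/-! ### Changing the stem at one coordinate -/

theorem mem_pt_upd {p : Cond K} {a : K} {T : MT K} {hs : Det (a : WithTop K) T.s}
    {hW : Det (a : WithTop K) T.W} {j : WithTop K} {y : Pt K} :
    y ∈ pt (p.upd a T hs hW) j ↔ (∀ b : K, (b : WithTop K) < j → b ≠ a → y b ∈ (p.T b).br y) ∧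
      ((a : WithTop K) < j → y a ∈ T.br y) := by
  classical
  have hT : ∀ b, (p.upd a T hs hW).T b = if b = a then T else p.T b := by
    intro b
    show Function.update p.T a T b = _
    by_cases h : b = a
    · subst h
      rw [Function.update_self, if_pos rfl]
    · rw [Function.update_of_ne h, if_neg h]
  constructor
  · intro h
    refine ⟨fun b hb hba => ?_, fun ha => ?_⟩
    · have := h b hb
      rwa [hT, if_neg hba] at this
    · have := h a ha
      rwa [hT, if_pos rfl] at this
  · rintro ⟨h1, h2⟩ b hb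
    rw [hT]
    by_cases h : b = a
    · subst h
      rw [if_pos rfl]
      exact h2 hb
    · rw [if_neg h]
      exact h1 b hb h

/-- Measurable choice of a node. -/
theorem exists_node {R : List ℕ → Pt K → Prop} (hR : ∀ t, MeasurableSet {x | R t x})
    {j : WithTop K} (hd : ∀ t, Det j (R t)) :
    ∃ t : Pt K → List ℕ, CM t ∧ Det j t ∧ ∀ x, (∃ t, R t x) → R (t x) x := by
  classical
  let P : ℕ → Pt K → Prop := fun n x => ∃ t, Encodable.encode t = n ∧ R t x
  have hP : ∀ n, MeasurableSet {x | P n x} := by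
    intro n
    have : {x | P n x} = ⋃ t : List ℕ, {x | Encodable.encode t = n ∧ R t x} := by
      ext x
      simp [P]
    rw [this]
    exact MeasurableSet.iUnion fun t => (MeasurableSet.const _).inter (hR t)
  let F : ℕ → List ℕ := fun n => (Encodable.decode (α := List ℕ) n).getD []
  refine ⟨fun x => F (sInf {n | P n x}), (CM.find hP).map F, ?_, ?_⟩
  · intro x y hxy
    have : {n | P n x} = {n | P n y} := by
      ext n
      simp only [P, mem_ofPred_eq]
      exact exists_congr fun t => and_congr_right fun _ => by rw [hd t x y hxy]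
    show F (sInf {n | P n x}) = F (sInf {n | P n y})
    rw [this]
  · rintro x ⟨t, ht⟩
    have hne : {n | P n x}.Nonempty := ⟨Encodable.encode t, t, rfl, ht⟩
    obtain ⟨t', h1, h2⟩ := Nat.sInf_mem hne
    have h3 : F (sInf {n | P n x}) = t' := by
      show (Encodable.decode (α := List ℕ) (sInf {n | P n x})).getD [] = t'
      rw [← h1, Encodable.encodek]
      rfl
    show R (F (sInf {n | P n x})) x
    rw [h3]
    exact h2

/-- The stem at the coordinate `a` is extended to a node with a given property. -/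
theorem exists_restem {j : WithTop K} {a : K} (ha : (a : WithTop K) < j) (p e : Cond K)
    (he : pt e a ⊆ pt p a) {R : List ℕ → Pt K → Prop} (hR : ∀ t, MeasurableSet {x | R t x})
    (hd : ∀ t, Det (a : WithTop K) (R t)) (hne : ∀ x ∈ pt e a, ∃ t, (p.T a).nd x t ∧ R t x) :
    ∃ e' : Cond K, pt e' j ⊆ pt p j ∧ pt e' a ⊆ pt e a ∧
      ∀ y ∈ pt e' j, ∃ t, R t y ∧ (p.T a).nd y t ∧ y a ∈ br t ((p.T a).W y) := by
  classical
  obtain ⟨t, ht1, ht2, ht3⟩ := exists_node (R := fun t x => (p.T a).nd x t ∧ R t x) (j := a)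
    (fun t => ((p.T a).measurableSet_nd t).inter (hR t)) (by
      intro t x y hxy
      show ((p.T a).nd x t ∧ R t x) = ((p.T a).nd y t ∧ R t y)
      rw [hd t x y hxy, propext (p.nd_congr hxy t)])
  let T : MT K := MT.sel (fun x => (p.T a).restem (t x)) (ht1.map fun t => (p.T a).restem t)
  have hTs : Det (a : WithTop K) T.s := by
    intro x y hxy
    show (if (p.T a).nd x (t x) then t x else (p.T a).s x) =
      (if (p.T a).nd y (t y) then t y else (p.T a).s y)
    rw [ht2 x y hxy, p.ds a x y hxy, propext (p.nd_congr hxy (t y))]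
  have hTW : Det (a : WithTop K) T.W := by
    intro x y hxy
    show (p.T a).W x = (p.T a).W y
    exact p.dW a x y hxy
  have key : ∀ i : WithTop K, (a : WithTop K) ≤ i →
      ∀ y ∈ pt ((Cond.glue a e p).upd a T hTs hTW) i, y ∈ pt e a := by
    intro i hi y hy b hb
    rw [mem_pt_upd] at hy
    have h1 := hy.1 b (hb.trans_le hi) (by
      rintro rfl
      exact lt_irrefl _ hb)
    rwa [Cond.glue, Cond.mix_T_of_lt hb] at h1
  refine ⟨(Cond.glue a e p).upd a T hTs hTW, ?_, fun y hy => key a le_rfl y hy, ?_⟩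
  · intro y hy b hb
    have hya := key j ha.le y hy
    rw [mem_pt_upd] at hy
    rcases lt_trichotomy (b : WithTop K) a with h | h | h
    · exact he hya b h
    · have h' : b = a := WithTop.coe_injective h
      subst h'
      have h1 := hy.2 hb
      have h2 : T.Sub (p.T b) y := (p.T b).restem_sub (t y) y
      exact (sub_iff_br (T.inf y)).1 h2 h1
    · have h1 := hy.1 b hb (by
        rintro rfl
        exact lt_irrefl _ h)
      have h2 : y b ∈ ((Cond.glue a e p).T b).br y := h1
      rw [Cond.glue, Cond.mix_T_of_le h.le] at h2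
      exact h2
  · intro y hy
    have hya := key j ha.le y hy
    rw [mem_pt_upd] at hy
    have h1 := hy.2 ha
    have h3 := ht3 y (hne y hya)
    refine ⟨t y, h3.2, h3.1, ?_⟩
    have h4 : T.s y = t y := (p.T a).restem_s h3.1
    have h5 : y a ∈ br (T.s y) (T.W y) := h1
    rw [h4] at h5
    exact h5

/-- The glued condition. -/
theorem glue_sub {i j : WithTop K} (hij : i ≤ j) {e p : Cond K} (h : pt e i ⊆ pt p i) :
    pt (Cond.glue i e p) j ⊆ pt p j := glue_subset_right hij h

theorem glue_level {i : WithTop K} {e p : Cond K} : pt (Cond.glue i e p) i = pt e i := by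
  ext x
  exact mem_pt_glue_of_le le_rfl

/-- A set of conditions which is dense at the level `i` and depends only on the levels below is
dense at the level `j`. -/
theorem DenseL.up {i j : WithTop K} (hij : i ≤ j) {D : Set (Cond K)} (h : DenseL i D)
    (hD : ∀ e e', pt e i = pt e' i → e ∈ D → e' ∈ D) : DenseL j D := by
  intro p
  obtain ⟨e, he, hep⟩ := h p
  exact ⟨Cond.glue i e p, hD _ _ glue_level.symm he, glue_sub hij hep⟩

/-! ### The sets of points of the conditions are decided -/

/-- A condition with no extension below `p` at the level `j` has an extension disjoint from `p`, if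
the measurable sets are decided at the lower levels. -/
theorem dec_pt {j : WithTop K} (hdec : ∀ a : K, (a : WithTop K) < j → DecL (a : WithTop K))
    (hcov : CovL j) (p : Cond K) : DenseL j {e | pt e j ⊆ pt p j ∨ Disjoint (pt e j) (pt p j)} := by
  classical
  intro r
  -- the points where the tree of `r` is not included in the tree of `p`
  let M : K → Set (Pt K) := fun a => {x | ¬ (r.T a).Sub (p.T a) x}
  have hM : ∀ a, MeasurableSet (M a) := fun a => ((r.T a).measurableSet_sub (p.T a)).compl
  have hMd : ∀ a : K, Det (a : WithTop K) (fun x => x ∈ M a) := by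
    intro a x y hxy
    show (¬ GPA.Sub ((r.T a).s x) ((r.T a).W x) ((p.T a).s x) ((p.T a).W x)) =
      (¬ GPA.Sub ((r.T a).s y) ((r.T a).W y) ((p.T a).s y) ((p.T a).W y))
    rw [r.ds a x y hxy, r.dW a x y hxy, p.ds a x y hxy, p.dW a x y hxy]
  by_cases hA : ∃ a : K, (a : WithTop K) < j ∧ ∃ e : Cond K, pt e a ⊆ pt r a ∧ pt e a ⊆ M a
  · obtain ⟨a, ha, e, her, heM⟩ := hA
    let R : List ℕ → Pt K → Prop := fun t x => ((p.T a).s x).length ≤ t.length ∧ ¬ (p.T a).nd x t
    obtain ⟨e', h1, -, h3⟩ := exists_restem ha r e her (R := R) (fun t => by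
      refine MeasurableSet.inter ?_ ((p.T a).measurableSet_nd t).compl
      exact (p.T a).cms.rel (R := fun s _ => s.length ≤ t.length) fun s => MeasurableSet.const _)
      (by
        intro t x y hxy
        show (((p.T a).s x).length ≤ t.length ∧ ¬ (p.T a).nd x t) =
          (((p.T a).s y).length ≤ t.length ∧ ¬ (p.T a).nd y t)
        rw [p.ds a x y hxy, propext (p.nd_congr hxy t)]) (by
        intro x hx
        have h4 : ¬ GPA.Sub ((r.T a).s x) ((r.T a).W x) ((p.T a).s x) ((p.T a).W x) := heM hx
        rw [sub_iff_br ((r.T a).inf x)] at h4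
        obtain ⟨z, hz1, hz2⟩ := not_subset.1 h4
        rw [mem_br_iff] at hz1 hz2
        push Not at hz2
        obtain ⟨k, hk, hk2⟩ := hz2
        have h5 : ∀ n, k ≤ n → ¬ GPA.nd ((p.T a).s x) ((p.T a).W x) (pre z n) := by
          intro n hn
          induction n, hn using Nat.le_induction with
          | base => exact hk2
          | succ n hn ih =>
            rw [pre_succ, nd_cons_iff (by simpa using hk.trans hn)]
            exact fun h => ih h.1
        refine ⟨pre z (max k ((r.T a).s x).length), hz1 _ (le_max_right _ _), ?_, h5 _ (le_max_left _ _)⟩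
        rw [length_pre]
        exact hk.trans (le_max_left _ _))
    refine ⟨e', Or.inr ?_, h1⟩
    rw [Set.disjoint_left]
    intro y hy hyp
    obtain ⟨t, ⟨h6, h7⟩, -, h8⟩ := h3 y hy
    refine h7 ?_
    have h9 := mem_br_iff.1 (hyp a ha) t.length h6
    rwa [h8.1] at h9
  · push Not at hA
    -- densely `M a` is avoided below `r`
    let S : Set K := {a | p.T a ≠ MT.full ∧ (a : WithTop K) < j}
    have hS : S.Countable := p.supp.mono fun a ha => ha.1
    let D : K → Set (Cond K) := fun a =>
      {e | Disjoint (pt e a) (M a) ∨ Disjoint (pt e a) (pt r a)}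
    have hD : ∀ a : K, (a : WithTop K) < j → DenseL j (D a) := by
      intro a ha
      refine DenseL.up ha.le (i := (a : WithTop K)) ?_ ?_
      · intro e
        obtain ⟨e1, he1, h1⟩ := hdec a ha (pt r a) (measurableSet_pt r a) (by
          intro x y hxy
          exact propext (mem_pt_congr r hxy)) e
        rcases h1 with h1 | h1
        · obtain ⟨e2, he2, h2⟩ := hdec a ha (M a) (hM a) (hMd a) e1
          rcases h2 with h2 | h2
          · exact (hA a ha e2 (he2.trans h1) h2).elim
          · exact ⟨e2, Or.inl h2, he2.trans he1⟩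
        · exact ⟨e1, Or.inr h1, he1⟩
      · intro e e' hee h
        show Disjoint (pt e' a) (M a) ∨ Disjoint (pt e' a) (pt r a)
        rw [← hee]
        exact h
    rcases S.eq_empty_or_nonempty with hS0 | hS0
    · refine ⟨r, Or.inl ?_, Subset.rfl⟩
      intro x _ a ha
      by_cases h : p.T a = MT.full
      · rw [h, br_full]
        exact mem_univ _
      · have : a ∈ S := ⟨h, ha⟩
        rw [hS0] at this
        exact this.elim
    · obtain ⟨f, hf⟩ := hS.exists_eq_range hS0
      have hfS : ∀ n, f n ∈ S := fun n => by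
        rw [hf]
        exact ⟨n, rfl⟩
      obtain ⟨q, hq, C, hC⟩ := hcov (fun n => D (f n)) (fun n => hD (f n) (hfS n).2) r
      refine ⟨q, Or.inl ?_, hq⟩
      intro y hy a ha
      by_cases h : p.T a = MT.full
      · rw [h, br_full]
        exact mem_univ _
      · have haS : a ∈ S := ⟨h, ha⟩
        rw [hf] at haS
        obtain ⟨n, rfl⟩ := haS
        obtain ⟨-, hCD, hCc⟩ := hC n
        obtain ⟨c, hc, hyc⟩ := mem_iUnion₂.1 (hCc hy)
        have hyr : y ∈ pt r j := hq hy
        have hyr' : y ∈ pt r (f n : WithTop K) := pt_anti r ha.le hyr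
        have hyc' : y ∈ pt c (f n : WithTop K) := pt_anti c ha.le hyc
        rcases hCD hc with h1 | h1
        · have h2 : ¬ ¬ (r.T (f n)).Sub (p.T (f n)) y := fun h3 =>
            (Set.disjoint_left.1 h1 hyc') h3
          rw [not_not] at h2
          exact (sub_iff_br ((r.T (f n)).inf y)).1 h2 (hyr (f n) ha)
        · exact (Set.disjoint_left.1 h1 hyc' hyr').elim

/-- The covering property below a condition. -/
theorem cov_below {j : WithTop K} (hdec : ∀ a : K, (a : WithTop K) < j → DecL (a : WithTop K))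
    (hcov : CovL j) {p : Cond K} {D : ℕ → Set (Cond K)}
    (hD : ∀ n, ∀ r, pt r j ⊆ pt p j → ∃ e ∈ D n, pt e j ⊆ pt r j) :
    ∃ e : Cond K, pt e j ⊆ pt p j ∧ ∃ C : ℕ → Set (Cond K), ∀ n, (C n).Countable ∧ C n ⊆ D n ∧
      (∀ c ∈ C n, pt c j ⊆ pt p j) ∧ pt e j ⊆ ⋃ c ∈ C n, pt c j := by
  obtain ⟨e, he, C, hC⟩ := hcov (fun n => {c | (c ∈ D n ∧ pt c j ⊆ pt p j) ∨
    Disjoint (pt c j) (pt p j)}) (fun n r => by
      obtain ⟨e, he, her⟩ := dec_pt hdec hcov p r
      rcases he with he | he
      · obtain ⟨e', he', h⟩ := hD n e he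
        exact ⟨e', Or.inl ⟨he', h.trans he⟩, h.trans her⟩
      · exact ⟨e, Or.inr he, her⟩) p
  refine ⟨e, he, fun n => {c | c ∈ C n ∧ c ∈ D n ∧ pt c j ⊆ pt p j}, fun n => ⟨(hC n).1.mono
    fun c hc => hc.1, fun c hc => hc.2.1, fun c hc => hc.2.2, fun x hx => ?_⟩⟩
  obtain ⟨c, hc, hxc⟩ := mem_iUnion₂.1 ((hC n).2.2 hx)
  rcases (hC n).2.1 hc with h | h
  · exact mem_iUnion₂.2 ⟨c, ⟨hc, h⟩, hxc⟩
  · exact (Set.disjoint_left.1 h hxc (he hx)).elim

/-! ### All measurable sets are decided -/

/-- The point `x` below the level `j`. -/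
noncomputable def rho (j : WithTop K) (x : Pt K) : Pt K := by
  classical
  exact fun a => if (a : WithTop K) < j then x a else fun _ => 0

theorem rho_of_lt {j : WithTop K} (x : Pt K) {a : K} (h : (a : WithTop K) < j) :
    rho j x a = x a := by
  classical
  exact if_pos h

theorem rho_of_not_lt {j : WithTop K} (x : Pt K) {a : K} (h : ¬ (a : WithTop K) < j) :
    rho j x a = fun _ => 0 := by
  classical
  exact if_neg h

theorem agr_rho (j : WithTop K) (x : Pt K) : Agr j (rho j x) x := fun _ hb => rho_of_lt x hb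

theorem rho_congr {j : WithTop K} {x y : Pt K} (h : Agr j x y) : rho j x = rho j y := by
  funext a
  by_cases ha : (a : WithTop K) < j
  · rw [rho_of_lt x ha, rho_of_lt y ha, h a ha]
  · rw [rho_of_not_lt x ha, rho_of_not_lt y ha]

/-- The `σ`-algebra of the sets which are decided at the level `j`. -/
@[instance_reducible] def decMS (j : WithTop K) (hdec : ∀ a : K, (a : WithTop K) < j → DecL (a : WithTop K))
    (hcov : CovL j) : MeasurableSpace (Pt K) where
  MeasurableSet' B := ∀ p : Cond K, ∃ e : Cond K, pt e j ⊆ pt p j ∧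
    (pt e j ⊆ rho j ⁻¹' B ∨ Disjoint (pt e j) (rho j ⁻¹' B))
  measurableSet_empty := fun p => ⟨p, Subset.rfl, Or.inr (by simp)⟩
  measurableSet_compl := fun B hB p => by
    obtain ⟨e, he, h⟩ := hB p
    refine ⟨e, he, h.symm.imp (fun h => ?_) fun h => ?_⟩
    · rw [preimage_compl]
      exact Set.disjoint_left.1 h
    · rw [preimage_compl, Set.disjoint_compl_right_iff_subset]
      exact h
  measurableSet_iUnion := fun f hf p => by
    by_cases h : ∃ n, ∃ e : Cond K, pt e j ⊆ pt p j ∧ pt e j ⊆ rho j ⁻¹' f n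
    · obtain ⟨n, e, he, hef⟩ := h
      exact ⟨e, he, Or.inl fun x hx => mem_iUnion.2 ⟨n, hef hx⟩⟩
    · push Not at h
      obtain ⟨e, he, C, hC⟩ := cov_below hdec hcov (p := p)
        (D := fun n => {c | Disjoint (pt c j) (rho j ⁻¹' f n)}) (fun n r hr => by
          obtain ⟨e, he, h1⟩ := hf n r
          rcases h1 with h1 | h1
          · exact (h n e (he.trans hr) h1).elim
          · exact ⟨e, h1, he⟩)
      refine ⟨e, he, Or.inr ?_⟩
      rw [Set.disjoint_left]
      intro x hx hxf
      obtain ⟨n, hn⟩ := mem_iUnion.1 hxf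
      obtain ⟨c, hc, hxc⟩ := mem_iUnion₂.1 ((hC n).2.2.2 hx)
      exact Set.disjoint_left.1 ((hC n).2.1 hc) hxc hn

/-- The sets which depend on one value are decided. -/
theorem dec_coord {j : WithTop K} (hdec : ∀ a : K, (a : WithTop K) < j → DecL (a : WithTop K))
    {a : K} (ha : (a : WithTop K) < j) (k v : ℕ) (p : Cond K) :
    ∃ e : Cond K, pt e j ⊆ pt p j ∧ ((∀ x ∈ pt e j, x a k = v) ∨ ∀ x ∈ pt e j, x a k ≠ v) := by
  classical
  let R : List ℕ → Pt K → Prop := fun t _ => k < t.length ∧ dig t k = v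
  let M : Set (Pt K) := {x | ∃ t, (p.T a).nd x t ∧ R t x}
  have hM : MeasurableSet M := by
    have : M = ⋃ t : List ℕ, {x | (p.T a).nd x t ∧ R t x} := by
      ext x
      simp [M]
    rw [this]
    exact MeasurableSet.iUnion fun t => ((p.T a).measurableSet_nd t).inter (MeasurableSet.const _)
  obtain ⟨e, he, h⟩ := hdec a ha M hM (by
    intro x y hxy
    show (∃ t, (p.T a).nd x t ∧ R t x) = (∃ t, (p.T a).nd y t ∧ R t y)
    exact propext (exists_congr fun t => and_congr_left fun _ => p.nd_congr hxy t)) p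
  rcases h with h | h
  · obtain ⟨e', h1, -, h3⟩ := exists_restem ha p e he (R := R) (fun t => MeasurableSet.const _)
      (fun t _ _ _ => rfl) (fun x hx => h hx)
    refine ⟨e', h1, Or.inl fun x hx => ?_⟩
    obtain ⟨t, ⟨h4, h5⟩, -, h6⟩ := h3 x hx
    rw [← h5, ← dig_pre (z := x a) h4, h6.1]
  · refine ⟨Cond.glue a e p, glue_sub ha.le he, Or.inr fun x hx hv => ?_⟩
    have hxa : x ∈ pt e a := by
      have := pt_anti _ ha.le hx
      rwa [glue_level] at this
    have hxp := glue_sub ha.le he hx
    have h1 := mem_br_iff.1 (hxp a ha) (max (k + 1) ((p.T a).s x).length) (le_max_right _ _)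
    refine Set.disjoint_left.1 h hxa ⟨_, h1, ?_, ?_⟩
    · rw [length_pre]
      exact lt_of_lt_of_le (Nat.lt_succ_self k) (le_max_left _ _)
    · rw [dig_pre (lt_of_lt_of_le (Nat.lt_succ_self k) (le_max_left _ _)), hv]

theorem decL_of_covL {j : WithTop K}
    (hdec : ∀ a : K, (a : WithTop K) < j → DecL (a : WithTop K)) (hcov : CovL j) : DecL j := by
  intro B hB hd p
  have key : (inferInstance : MeasurableSpace (Pt K)) ≤ decMS j hdec hcov := by
    have h1 : ∀ a : K, ∀ k : ℕ, @Measurable _ _ (decMS j hdec hcov) _ fun x : Pt K => x a k := by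
      intro a k
      refine @measurable_to_countable' _ _ _ _ (decMS j hdec hcov) _ fun v => ?_
      intro p
      by_cases ha : (a : WithTop K) < j
      · obtain ⟨e, he, h⟩ := dec_coord hdec ha k v p
        refine ⟨e, he, h.imp (fun h x hx => ?_) fun h => ?_⟩
        · show rho j x a k = v
          rw [rho_of_lt x ha]
          exact h x hx
        · rw [Set.disjoint_left]
          intro x hx hv
          refine h x hx ?_
          have : rho j x a k = v := hv
          rwa [rho_of_lt x ha] at this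
      · refine ⟨p, Subset.rfl, ?_⟩
        by_cases hv : 0 = v
        · refine Or.inl fun x _ => ?_
          show rho j x a k = v
          rw [rho_of_not_lt x ha]
          exact hv
        · refine Or.inr ?_
          rw [Set.disjoint_left]
          intro x _ h2
          have : rho j x a k = v := h2
          rw [rho_of_not_lt x ha] at this
          exact hv this
    have h2 : @Measurable _ _ (decMS j hdec hcov) _ (fun x : Pt K => x) :=
      @measurable_pi_lambda _ _ _ (decMS j hdec hcov) _ _ fun a =>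
        @measurable_pi_lambda _ _ _ (decMS j hdec hcov) _ _ fun k => h1 a k
    intro B hB
    exact h2 hB
  have hpre : rho j ⁻¹' B = B := by
    ext x
    show (rho j x ∈ B) ↔ x ∈ B
    exact iff_of_eq (hd _ _ (agr_rho j x))
  obtain ⟨e, he, h⟩ := key B hB p
  rw [hpre] at h
  exact ⟨e, he, h⟩

theorem sigL_of_covL [WellFoundedLT K] {j : WithTop K}
    (hdec : ∀ a : K, (a : WithTop K) < j → DecL (a : WithTop K)) (hcov : CovL j) : SigL j := by
  intro B hB hd p hp
  by_contra hcon
  push Not at hcon
  obtain ⟨e, he, C, hC⟩ := cov_below hdec hcov (p := p)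
    (D := fun n => {c | Disjoint (pt c j) (B n)}) (fun n r hr => by
      obtain ⟨e, he, h1⟩ := decL_of_covL hdec hcov (B n) (hB n) (hd n) r
      rcases h1 with h1 | h1
      · exact (hcon n e (he.trans hr) h1).elim
      · exact ⟨e, h1, he⟩)
  obtain ⟨x, hx⟩ := pt_nonempty e j
  obtain ⟨n, hn⟩ := mem_iUnion.1 (hp (he hx))
  obtain ⟨c, hc, hxc⟩ := mem_iUnion₂.1 ((hC n).2.2.2 hx)
  exact Set.disjoint_left.1 ((hC n).2.1 hc) hxc hn

/-! ### The covering property -/

theorem covL_of_gen {i j : WithTop K} (hi : ∀ a : K, ¬ (a : WithTop K) < i)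
    (h : ∀ᶠ N in club, GenExt N i j) : CovL j := by
  intro D hD p
  obtain ⟨N, hN1, hN2, hN3, hN4⟩ := club_exists (h.and (club_skolem fun (D : Set (Cond K)) e => e ∈ D))
    (A := insert (⟨Cond K, p⟩ : Obj) (range fun n => (⟨Set (Cond K), D n⟩ : Obj)))
    ((countable_range _).insert _)
  have hNp : Has N p := hN1 (Or.inl rfl)
  have hND : ∀ n, Has N (D n) := fun n => hN1 (Or.inr ⟨n, rfl⟩)
  have huniv : ∀ e : Cond K, pt e i = univ := fun e => by
    ext x
    simp only [mem_univ, iff_true]
    exact fun a ha => (hi a ha).elim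
  obtain ⟨q, hq⟩ := hN3 univ (fun _ => p) MeasurableSet.univ (fun _ _ _ => rfl) (CM.const p)
    (Det.const i p) (fun _ => hNp) (fun x _ => ⟨fun D' hD' hd' => by
      obtain ⟨e, he, -⟩ := hd' p
      obtain ⟨e', h1, h2⟩ := hN4 D' hD' ⟨e, he⟩
      exact ⟨e', h2, h1, by rw [huniv]; exact mem_univ _⟩, by rw [huniv]; exact mem_univ _⟩)
  have hq' : ∀ y ∈ pt q j, Gen N j y ∧ y ∈ pt p j := fun y hy =>
    hq y (mem_univ _) fun a _ ha => hy a ha
  refine ⟨q, fun y hy => (hq' y hy).2, fun n => {e | e ∈ D n ∧ Has N e}, fun n => ⟨?_,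
    fun e he => he.1, fun y hy => ?_⟩⟩
  · have h1 : {e | e ∈ D n ∧ Has N e} ⊆ (fun e : Cond K => (⟨Cond K, e⟩ : Obj)) ⁻¹' N :=
      fun e he => he.2
    refine Countable.mono h1 (hN2.preimage ?_)
    intro e e' hee
    exact eq_of_heq (Sigma.mk.inj hee).2
  · obtain ⟨e, he, h1, h2⟩ := (hq' y hy).1 (D n) (hND n) (hD n)
    exact mem_iUnion₂.2 ⟨e, ⟨he, h1⟩, h2⟩

end Pool.Agent.GPA
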