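import Pool.Agent.GPA.Frame

/-!
# Densities from the measures of the cylinders

`c : Y → ℕ → Bool` is a sequence of measurable coordinates on a probability space `Y` and
`cylS c σ` is the cylinder of `σ`. A function `w` on finite sequences which is additive and satisfies
`0 ≤ w σ ≤ μ (cylS c σ)` has the density `dens m w (c y)`, where `m σ = μ (cylS c σ)`.
-/

open MeasureTheory Set Filter
open scoped ENNReal NNReal Topology

namespace Pool.Agent.GPA

theorem length_ini (z : ℕ → Bool) (n : ℕ) : (ini z n).length = n := by simp [ini]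

theorem ini_zero (z : ℕ → Bool) : ini z 0 = [] := by simp [ini]

theorem ini_succ (z : ℕ → Bool) (n : ℕ) : ini z (n + 1) = ini z n ++ [z n] := by
  unfold ini
  rw [List.ofFn_succ']
  simp [List.concat_eq_append]

/-- The cylinder. -/
def cylS {Y : Type*} (c : Y → ℕ → Bool) (σ : List Bool) : Set Y := {y | ini (c y) σ.length = σ}

/-- The upper density. -/
noncomputable def dens (m w : List Bool → ℝ) (z : ℕ → Bool) : ℝ :=
  limsup (fun n => w (ini z n) / m (ini z n)) atTop

variable {Y : Type*} {c : Y → ℕ → Bool}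

theorem cylS_nil : cylS c [] = univ := by
  ext y; simp [cylS, ini]

theorem ini_take (z : ℕ → Bool) {m n : ℕ} (h : m ≤ n) : (ini z n).take m = ini z m := by
  induction n, h using Nat.le_induction with
  | base => rw [List.take_of_length_le (by simp [length_ini])]
  | succ n hn ih =>
    rw [ini_succ, List.take_append_of_le_length (by simpa [length_ini] using hn), ih]

theorem ini_eq_of_ini_eq {z z' : ℕ → Bool} {m n : ℕ} (h : m ≤ n) (he : ini z n = ini z' n) :
    ini z m = ini z' m := by
  rw [← ini_take z h, he, ini_take z' h]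

theorem cylS_split (σ : List Bool) :
    cylS c σ = cylS c (σ ++ [false]) ∪ cylS c (σ ++ [true]) := by
  ext y
  simp only [cylS, mem_ofPred_eq, mem_union, List.length_append, List.length_singleton, ini_succ]
  constructor
  · intro h
    cases hb : c y σ.length
    · left; rw [h]
    · right; rw [h]
  · rintro (h | h)
    · exact (List.append_inj' h rfl).1
    · exact (List.append_inj' h rfl).1

theorem cylS_disj (σ : List Bool) :
    Disjoint (cylS c (σ ++ [false])) (cylS c (σ ++ [true])) := by
  rw [Set.disjoint_left]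
  intro y h h'
  simp only [cylS, mem_ofPred_eq, List.length_append, List.length_singleton, ini_succ] at h h'
  have h1 := (List.append_inj' h rfl).2
  have h2 := (List.append_inj' h' rfl).2
  rw [h1] at h2
  simp at h2

theorem cylS_mono {σ τ : List Bool} (h : σ <+: τ) : cylS c τ ⊆ cylS c σ := by
  obtain ⟨ρ, rfl⟩ := h
  intro y hy
  simp only [cylS, mem_ofPred_eq] at hy ⊢
  rw [← ini_take (c y) (show σ.length ≤ (σ ++ ρ).length by simp), hy]
  simp

theorem mem_cylS_ini (y : Y) (n : ℕ) : y ∈ cylS c (ini (c y) n) := by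
  simp [cylS, length_ini]

section meas

variable [MeasurableSpace Y] (hc : Measurable c)

include hc

theorem measurable_ini (n : ℕ) : Measurable[_, ⊤] fun y => ini (c y) n := by
  induction n with
  | zero => simp only [ini_zero]; exact measurable_const
  | succ n ih =>
    simp only [ini_succ]
    have h1 : Measurable fun y => c y n := (measurable_pi_apply n).comp hc
    have h2 : Measurable[_, ⊤] fun y => (ini (c y) n, c y n) := by
      let _ : MeasurableSpace (List Bool) := ⊤
      exact Measurable.mono (ih.prodMk h1) le_rfl (by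
        intro s _
        exact MeasurableSet.of_discrete)
    intro s _
    exact h2 (t := (fun p : List Bool × Bool => p.1 ++ [p.2]) ⁻¹' s) trivial

theorem measurableSet_cylS (σ : List Bool) : MeasurableSet (cylS c σ) :=
  (measurable_ini hc σ.length) (t := {σ}) trivial

/-- The filtration of the initial segments. -/
def iniFil : Filtration ℕ (inferInstance : MeasurableSpace Y) where
  seq n := MeasurableSpace.comap (fun y => ini (c y) n) ⊤
  mono' := by
    intro m n hmn s hs
    obtain ⟨t, -, rfl⟩ := hs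
    refine ⟨(fun l => l.take m) ⁻¹' t, trivial, ?_⟩
    ext y
    simp only [mem_preimage]
    rw [ini_take _ hmn]
  le' n := by
    rintro s ⟨t, -, rfl⟩
    exact measurable_ini hc n trivial

theorem setIntegral_cylS_split {μ : Measure Y} {f : Y → ℝ} (hf : Integrable f μ) (σ : List Bool) :
    ∫ y in cylS c σ, f y ∂μ =
      ∫ y in cylS c (σ ++ [false]), f y ∂μ + ∫ y in cylS c (σ ++ [true]), f y ∂μ := by
  rw [cylS_split, setIntegral_union (cylS_disj σ) (measurableSet_cylS hc _) hf.integrableOn
    hf.integrableOn]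

variable {μ : Measure Y} [IsProbabilityMeasure μ] {w : List Bool → ℝ}

/-- The approximation of index `n` to the density. -/
noncomputable def densN (c : Y → ℕ → Bool) (μ : Measure Y) (w : List Bool → ℝ) (n : ℕ) (y : Y) : ℝ :=
  w (ini (c y) n) / μ.real (cylS c (ini (c y) n))

omit hc in
theorem densN_nonneg (h0 : ∀ σ, 0 ≤ w σ) (n : ℕ) (y : Y) : 0 ≤ densN c μ w n y :=
  div_nonneg (h0 _) measureReal_nonneg

omit hc in
theorem densN_le_one (h1 : ∀ σ, w σ ≤ μ.real (cylS c σ)) (n : ℕ) (y : Y) :
    densN c μ w n y ≤ 1 := div_le_one_of_le₀ (h1 _) measureReal_nonneg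

theorem measurable_densN (n : ℕ) : Measurable[(iniFil hc) n] (densN c μ w n) := by
  intro s _
  exact ⟨(fun l => w l / μ.real (cylS c l)) ⁻¹' s, trivial, rfl⟩

theorem measurable_densN' (n : ℕ) : Measurable (densN c μ w n) :=
  (measurable_densN hc n).mono ((iniFil hc).le n) le_rfl

theorem integrable_densN (h0 : ∀ σ, 0 ≤ w σ) (h1 : ∀ σ, w σ ≤ μ.real (cylS c σ)) (n : ℕ) :
    Integrable (densN c μ w n) μ := by
  refine Integrable.of_bound (measurable_densN' hc n).aestronglyMeasurable 1 (ae_of_all _ fun y => ?_)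
  rw [Real.norm_eq_abs, abs_of_nonneg (densN_nonneg h0 n y)]
  exact densN_le_one h1 n y

theorem setIntegral_densN_self (h0 : ∀ σ, 0 ≤ w σ) (h1 : ∀ σ, w σ ≤ μ.real (cylS c σ))
    (σ : List Bool) : ∫ y in cylS c σ, densN c μ w σ.length y ∂μ = w σ := by
  have h : ∀ y ∈ cylS c σ, densN c μ w σ.length y = w σ / μ.real (cylS c σ) := by
    intro y hy
    unfold densN
    rw [show ini (c y) σ.length = σ from hy]
  rw [setIntegral_congr_fun (measurableSet_cylS hc σ) h, setIntegral_const, smul_eq_mul]
  by_cases hz : μ.real (cylS c σ) = 0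
  · have := h1 σ
    rw [hz] at this ⊢
    rw [zero_mul]
    exact le_antisymm (h0 σ) this
  · field_simp

theorem setIntegral_densN (h0 : ∀ σ, 0 ≤ w σ) (h1 : ∀ σ, w σ ≤ μ.real (cylS c σ))
    (ha : ∀ σ, w σ = w (σ ++ [false]) + w (σ ++ [true])) :
    ∀ (k : ℕ) (σ : List Bool), ∫ y in cylS c σ, densN c μ w (σ.length + k) y ∂μ = w σ := by
  intro k
  induction k with
  | zero => exact fun σ => setIntegral_densN_self hc h0 h1 σ
  | succ k ih =>
    intro σ
    rw [setIntegral_cylS_split hc (integrable_densN hc h0 h1 _)]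
    have e1 := ih (σ ++ [false])
    have e2 := ih (σ ++ [true])
    rw [List.length_append, List.length_singleton] at e1 e2
    rw [show σ.length + (k + 1) = σ.length + 1 + k by ring, e1, e2, ← ha]

/-- A set in the `σ`-algebra of index `n` is a finite union of cylinders. -/
theorem exists_finset_cylS {n : ℕ} {s : Set Y} (hs : MeasurableSet[(iniFil hc) n] s) :
    ∃ F : Finset (List Bool), (∀ σ ∈ F, σ.length = n) ∧ s = ⋃ σ ∈ F, cylS c σ := by
  classical
  obtain ⟨t, -, rfl⟩ := hs
  refine ⟨((List.finite_length_eq Bool n).toFinset).filter (· ∈ t), fun σ h => ?_, ?_⟩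
  · simp only [Finset.mem_filter, Set.Finite.mem_toFinset, mem_ofPred_eq] at h
    exact h.1
  · ext y
    simp only [mem_preimage, mem_iUnion, Finset.mem_filter, Set.Finite.mem_toFinset,
      mem_ofPred_eq, exists_prop]
    constructor
    · intro h
      exact ⟨ini (c y) n, ⟨length_ini _ _, h⟩, mem_cylS_ini y n⟩
    · rintro ⟨σ, ⟨h1, h2⟩, h3⟩
      have h4 : ini (c y) σ.length = σ := h3
      rw [h1] at h4
      rw [h4]
      exact h2

omit hc [MeasurableSpace Y] in
theorem disjoint_cylS {σ τ : List Bool} (hl : σ.length = τ.length) (h : σ ≠ τ) :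
    Disjoint (cylS c σ) (cylS c τ) := by
  rw [Set.disjoint_left]
  intro y h1 h2
  have h1' : ini (c y) σ.length = σ := h1
  have h2' : ini (c y) τ.length = τ := h2
  rw [hl, h2'] at h1'
  exact h h1'.symm

theorem martingale_densN (h0 : ∀ σ, 0 ≤ w σ) (h1 : ∀ σ, w σ ≤ μ.real (cylS c σ))
    (ha : ∀ σ, w σ = w (σ ++ [false]) + w (σ ++ [true])) :
    Martingale (densN c μ w) (iniFil hc) μ := by
  refine martingale_of_setIntegral_eq_succ (fun n => (measurable_densN hc n).stronglyMeasurable)
    (fun n => integrable_densN hc h0 h1 n) fun n s hs => ?_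
  obtain ⟨F, hF, rfl⟩ := exists_finset_cylS hc hs
  have hd : (F : Set (List Bool)).Pairwise (Function.onFun Disjoint fun σ => cylS c σ) := by
    intro σ hσ τ hτ hne
    exact disjoint_cylS (by rw [hF σ hσ, hF τ hτ]) hne
  rw [integral_biUnion_finset F (fun σ _ => measurableSet_cylS hc σ) hd
      (fun σ _ => (integrable_densN hc h0 h1 n).integrableOn),
    integral_biUnion_finset F (fun σ _ => measurableSet_cylS hc σ) hd
      (fun σ _ => (integrable_densN hc h0 h1 (n + 1)).integrableOn)]
  refine Finset.sum_congr rfl fun σ hσ => ?_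
  have e1 := setIntegral_densN hc h0 h1 ha 0 σ
  have e2 := setIntegral_densN hc h0 h1 ha 1 σ
  rw [hF σ hσ] at e1 e2
  rw [add_zero] at e1
  rw [e1, e2]

/-- The upper density is the limit almost everywhere. -/
theorem ae_tendsto_densN (h0 : ∀ σ, 0 ≤ w σ) (h1 : ∀ σ, w σ ≤ μ.real (cylS c σ))
    (ha : ∀ σ, w σ = w (σ ++ [false]) + w (σ ++ [true])) :
    ∀ᵐ y ∂μ, Tendsto (fun n => densN c μ w n y) atTop
      (𝓝 (dens (fun σ => μ.real (cylS c σ)) w (c y))) := by
  have hM := (martingale_densN hc h0 h1 ha).submartingale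
  have hb : ∀ n, eLpNorm (densN c μ w n) 1 μ ≤ (1 : ℝ≥0) := by
    intro n
    refine (eLpNorm_le_of_ae_bound (C := 1) (ae_of_all _ fun y => ?_)).trans ?_
    · rw [Real.norm_eq_abs, abs_of_nonneg (densN_nonneg h0 n y)]
      exact densN_le_one h1 n y
    · simp
  filter_upwards [hM.ae_tendsto_limitProcess hb] with y hy
  have : dens (fun σ => μ.real (cylS c σ)) w (c y) = (iniFil hc).limitProcess (densN c μ w) μ y :=
    hy.limsup_eq
  rw [this]
  exact hy

omit hc in
theorem dens_nonneg {z : ℕ → Bool} {m : List Bool → ℝ} (h0 : ∀ σ, 0 ≤ w σ) (h1 : ∀ σ, w σ ≤ m σ) :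
    0 ≤ dens m w z := by
  refine le_limsup_of_frequently_le (Frequently.of_forall fun n => ?_) ?_
  · exact div_nonneg (h0 _) ((h0 _).trans (h1 _))
  · exact isBoundedUnder_of ⟨1, fun n => div_le_one_of_le₀ (h1 _) ((h0 _).trans (h1 _))⟩

omit hc in
theorem dens_le_one {z : ℕ → Bool} {m : List Bool → ℝ} (h0 : ∀ σ, 0 ≤ w σ) (h1 : ∀ σ, w σ ≤ m σ) :
    dens m w z ≤ 1 := by
  refine limsup_le_of_le ?_ (Eventually.of_forall fun n => ?_)
  · exact isCoboundedUnder_le_of_le atTop (x := 0) fun n =>
      div_nonneg (h0 _) ((h0 _).trans (h1 _))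
  · exact div_le_one_of_le₀ (h1 _) ((h0 _).trans (h1 _))

omit hc in
/-- The density is `1` where the whole measure is taken. -/
theorem dens_eq_one {z : ℕ → Bool} {m : List Bool → ℝ} {n₀ : ℕ}
    (h : ∀ n ≥ n₀, w (ini z n) = m (ini z n)) (hm : ∀ n ≥ n₀, m (ini z n) ≠ 0) :
    dens m w z = 1 := by
  refine Tendsto.limsup_eq ?_
  refine tendsto_const_nhds.congr' ?_
  filter_upwards [eventually_ge_atTop n₀] with n hn
  rw [h n hn, div_self (hm n hn)]

/-- The integral of the density over the cylinders. -/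
theorem setIntegral_dens (h0 : ∀ σ, 0 ≤ w σ) (h1 : ∀ σ, w σ ≤ μ.real (cylS c σ))
    (ha : ∀ σ, w σ = w (σ ++ [false]) + w (σ ++ [true])) (σ : List Bool) :
    ∫ y in cylS c σ, dens (fun σ => μ.real (cylS c σ)) w (c y) ∂μ = w σ := by
  have hlim : Tendsto (fun n => ∫ y in cylS c σ, densN c μ w n y ∂μ) atTop
      (𝓝 (∫ y in cylS c σ, dens (fun σ => μ.real (cylS c σ)) w (c y) ∂μ)) := by
    refine tendsto_integral_of_dominated_convergence (fun _ => 1)
      (fun n => (measurable_densN' hc n).aestronglyMeasurable) (integrable_const _)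
      (fun n => ae_of_all _ fun y => ?_) (ae_restrict_of_ae (ae_tendsto_densN hc h0 h1 ha))
    rw [Real.norm_eq_abs, abs_of_nonneg (densN_nonneg h0 n y)]
    exact densN_le_one h1 n y
  have hc' : Tendsto (fun n => ∫ y in cylS c σ, densN c μ w n y ∂μ) atTop (𝓝 (w σ)) := by
    refine tendsto_const_nhds.congr' ?_
    filter_upwards [eventually_ge_atTop σ.length] with n hn
    obtain ⟨k, rfl⟩ := Nat.exists_eq_add_of_le hn
    exact (setIntegral_densN hc h0 h1 ha k σ).symm
  exact tendsto_nhds_unique hlim hc'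

end meas

/-- Joint measurability. -/
theorem measurable_dens {X : Type*} [MeasurableSpace X] {m : List Bool → ℝ} {w : X → List Bool → ℝ}
    (hw : ∀ σ, Measurable fun x => w x σ) :
    Measurable fun p : X × (ℕ → Bool) => dens m (w p.1) p.2 := by
  refine Measurable.limsup fun n => ?_
  have h1 : Measurable[_, ⊤] fun p : X × (ℕ → Bool) => ini p.2 n :=
    (measurable_ini (c := fun z : ℕ → Bool => z) measurable_id n).comp measurable_snd
  let _ : MeasurableSpace (List Bool) := ⊤
  have : DiscreteMeasurableSpace (List Bool) := ⟨fun _ => trivial⟩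
  have h2 : Measurable fun q : X × List Bool => w q.1 q.2 / m q.2 :=
    measurable_from_prod_countable_left fun σ => (hw σ).div_const (m σ)
  exact h2.comp (measurable_fst.prodMk h1)

theorem measurable_dens' {m : List Bool → ℝ} (a : List Bool → ℝ) :
    Measurable fun z : ℕ → Bool => dens m a z := by
  refine Measurable.limsup fun n => ?_
  have h1 : Measurable[_, ⊤] fun z : ℕ → Bool => ini z n :=
    measurable_ini (c := fun z : ℕ → Bool => z) measurable_id n
  intro s _
  exact h1 (t := (fun l => a l / m l) ⁻¹' s) trivial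

/-! ### Weak convergence -/

/-- The cylinders form a `π`-system generating the Borel sets of the Cantor space. -/
theorem isPiSystem_cyl : IsPiSystem (insert ∅ (range fun σ : List Bool => cylS (fun z : ℕ → Bool => z) σ)) := by
  have key : ∀ σ τ : List Bool, σ.length ≤ τ.length →
      cylS (fun z : ℕ → Bool => z) σ ∩ cylS (fun z : ℕ → Bool => z) τ = ∅ ∨
      cylS (fun z : ℕ → Bool => z) σ ∩ cylS (fun z : ℕ → Bool => z) τ =
        cylS (fun z : ℕ → Bool => z) τ := by
    intro σ τ hl
    rcases Set.eq_empty_or_nonempty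
      (cylS (fun z : ℕ → Bool => z) σ ∩ cylS (fun z : ℕ → Bool => z) τ) with h | ⟨z, h1, h2⟩
    · exact Or.inl h
    · refine Or.inr (inter_eq_self_of_subset_right fun z' h' => ?_)
      have e1 : ini z σ.length = σ := h1
      have e2 : ini z τ.length = τ := h2
      have e3 : ini z' τ.length = τ := h'
      show ini z' σ.length = σ
      rw [← e1, length_ini]
      exact ini_eq_of_ini_eq hl (e3.trans e2.symm)
  rintro s hs t ht -
  rcases hs with rfl | ⟨σ, rfl⟩
  · simp
  rcases ht with rfl | ⟨τ, rfl⟩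
  · simp
  rcases le_total σ.length τ.length with h | h
  · rcases key σ τ h with h1 | h1
    · rw [h1]; exact Or.inl rfl
    · rw [h1]; exact Or.inr ⟨τ, rfl⟩
  · rw [inter_comm]
    rcases key τ σ h with h1 | h1
    · rw [h1]; exact Or.inl rfl
    · rw [h1]; exact Or.inr ⟨σ, rfl⟩

theorem generateFrom_cyl : (inferInstance : MeasurableSpace (ℕ → Bool)) =
    MeasurableSpace.generateFrom
      (insert ∅ (range fun σ : List Bool => cylS (fun z : ℕ → Bool => z) σ)) := by
  apply le_antisymm
  · refine iSup_le fun n => ?_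
    rintro _ ⟨t, -, rfl⟩
    have : (fun z : ℕ → Bool => z n) ⁻¹' t =
        ⋃ σ ∈ {σ : List Bool | σ.length = n}, ⋃ b ∈ t,
          cylS (fun z : ℕ → Bool => z) (σ ++ [b]) := by
      ext z
      simp only [mem_preimage, mem_iUnion, mem_ofPred_eq, exists_prop]
      constructor
      · intro h
        refine ⟨ini z n, length_ini z n, z n, h, ?_⟩
        show ini z (ini z n ++ [z n]).length = _
        rw [List.length_append, length_ini, List.length_singleton, ini_succ]
      · rintro ⟨σ, h1, b, hb, h2⟩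
        have h3 : ini z (σ ++ [b]).length = σ ++ [b] := h2
        rw [List.length_append, List.length_singleton, h1, ini_succ] at h3
        have h4 := (List.append_inj' h3 rfl).2
        simp only [List.cons.injEq, and_true] at h4
        rw [h4]
        exact hb
    rw [this]
    refine MeasurableSet.biUnion (Set.to_countable _) fun σ _ =>
      MeasurableSet.biUnion (Set.to_countable _) fun b _ => ?_
    exact MeasurableSpace.measurableSet_generateFrom (Or.inr ⟨_, rfl⟩)
  · refine MeasurableSpace.generateFrom_le fun s hs => ?_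
    rcases hs with rfl | ⟨σ, rfl⟩
    · exact MeasurableSet.empty
    · exact measurableSet_cylS measurable_id σ

/-- Bounded functions whose integrals over the cylinders converge, converge weakly. -/
theorem tendsto_setIntegral_of_cyl {μ : Measure (ℕ → Bool)} [IsFiniteMeasure μ]
    {u : ℕ → (ℕ → Bool) → ℝ} {v : (ℕ → Bool) → ℝ} (hu : ∀ n, Measurable (u n)) (hv : Measurable v)
    (hub : ∀ n z, |u n z| ≤ 1) (hvb : ∀ z, |v z| ≤ 1)
    (h : ∀ σ : List Bool, Tendsto (fun n => ∫ z in cylS (fun z : ℕ → Bool => z) σ, u n z ∂μ) atTop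
      (𝓝 (∫ z in cylS (fun z : ℕ → Bool => z) σ, v z ∂μ)))
    {E : Set (ℕ → Bool)} (hE : MeasurableSet E) :
    Tendsto (fun n => ∫ z in E, u n z ∂μ) atTop (𝓝 (∫ z in E, v z ∂μ)) := by
  have hui : ∀ n, Integrable (u n) μ := fun n =>
    Integrable.of_bound (hu n).aestronglyMeasurable 1 (ae_of_all _ fun z => hub n z)
  have hvi : Integrable v μ := Integrable.of_bound hv.aestronglyMeasurable 1
    (ae_of_all _ fun z => hvb z)
  have huniv : Tendsto (fun n => ∫ z, u n z ∂μ) atTop (𝓝 (∫ z, v z ∂μ)) := by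
    have := h []
    simpa only [cylS_nil, Measure.restrict_univ] using this
  refine MeasurableSpace.induction_on_inter
    (C := fun E _ => Tendsto (fun n => ∫ z in E, u n z ∂μ) atTop (𝓝 (∫ z in E, v z ∂μ)))
    generateFrom_cyl isPiSystem_cyl ?_ ?_ ?_ ?_ E hE
  · simp
  · rintro t (rfl | ⟨σ, rfl⟩)
    · simp
    · exact h σ
  · intro t ht hh
    have e : ∀ f : (ℕ → Bool) → ℝ, Integrable f μ →
        ∫ z in tᶜ, f z ∂μ = ∫ z, f z ∂μ - ∫ z in t, f z ∂μ := by
      intro f hf
      rw [← integral_add_compl ht hf]; ring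
    rw [e v hvi]
    simp_rw [fun n => e (u n) (hui n)]
    exact huniv.sub hh
  · intro f hd hm hh
    have e : ∀ g : (ℕ → Bool) → ℝ, Integrable g μ →
        ∫ z in ⋃ k, f k, g z ∂μ = ∑' k, ∫ z in f k, g z ∂μ := fun g hg =>
      (hasSum_integral_iUnion hm hd hg.integrableOn).tsum_eq.symm
    rw [e v hvi]
    simp_rw [fun n => e (u n) (hui n)]
    refine tendsto_tsum_of_dominated_convergence (bound := fun k => μ.real (f k)) ?_ hh ?_
    · have h1 := (hasSum_integral_iUnion (μ := μ) (f := fun _ => (1 : ℝ)) hm hd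
        (integrable_const _).integrableOn).summable
      simpa using h1
    · refine Eventually.of_forall fun n k => ?_
      refine (norm_integral_le_of_norm_le_const (C := 1) ?_).trans (by simp [Measure.real])
      exact ae_of_all _ fun z => hub n z

/-- Convergence of the numbers implies weak convergence of the densities. -/
theorem tendsto_setIntegral_dens {μ : Measure (ℕ → Bool)} [IsProbabilityMeasure μ]
    {w : ℕ → List Bool → ℝ} {v : List Bool → ℝ} {m : List Bool → ℝ}
    (hm : ∀ σ, m σ = μ.real (cylS (fun z : ℕ → Bool => z) σ))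
    (hw0 : ∀ n σ, 0 ≤ w n σ) (hw1 : ∀ n σ, w n σ ≤ m σ)
    (hwa : ∀ n σ, w n σ = w n (σ ++ [false]) + w n (σ ++ [true]))
    (hlim : ∀ σ, Tendsto (fun n => w n σ) atTop (𝓝 (v σ)))
    {E : Set (ℕ → Bool)} (hE : MeasurableSet E) :
    Tendsto (fun n => ∫ z in E, dens m (w n) z ∂μ) atTop (𝓝 (∫ z in E, dens m v z ∂μ)) := by
  have hv0 : ∀ σ, 0 ≤ v σ := fun σ => ge_of_tendsto' (hlim σ) fun n => hw0 n σ
  have hv1 : ∀ σ, v σ ≤ m σ := fun σ => le_of_tendsto' (hlim σ) fun n => hw1 n σ
  have hva : ∀ σ, v σ = v (σ ++ [false]) + v (σ ++ [true]) := fun σ =>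
    tendsto_nhds_unique (hlim σ)
      (((hlim _).add (hlim _)).congr fun n => (hwa n σ).symm)
  have hmeas : ∀ a : List Bool → ℝ, Measurable fun z : ℕ → Bool => dens m a z := fun a =>
    measurable_dens' a
  have hm' : m = fun σ => μ.real (cylS (fun z : ℕ → Bool => z) σ) := funext hm
  refine tendsto_setIntegral_of_cyl (fun n => hmeas (w n)) (hmeas v) (fun n z => ?_) (fun z => ?_)
    (fun σ => ?_) hE
  · rw [abs_of_nonneg (dens_nonneg (hw0 n) (hw1 n))]
    exact dens_le_one (hw0 n) (hw1 n)
  · rw [abs_of_nonneg (dens_nonneg hv0 hv1)]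
    exact dens_le_one hv0 hv1
  · have e : ∀ a : List Bool → ℝ, (∀ σ, 0 ≤ a σ) → (∀ σ, a σ ≤ m σ) →
        (∀ σ, a σ = a (σ ++ [false]) + a (σ ++ [true])) →
        ∫ z in cylS (fun z : ℕ → Bool => z) σ, dens m a z ∂μ = a σ := by
      intro a h0 h1 h2
      rw [hm']
      exact setIntegral_dens (c := fun z : ℕ → Bool => z) (μ := μ) (w := a) measurable_id h0
        (fun σ => (h1 σ).trans_eq (hm σ)) h2 σ
    rw [e v hv0 hv1 hva]
    exact (hlim σ).congr fun n => (e (w n) (hw0 n) (hw1 n) (hwa n)).symm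

end Pool.Agent.GPA
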