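import Pool.Agent.GPA.LavSys

/-!
# Preservation of outer measure: from the Cantor space to arbitrary powers

The field `ext` of `LavSys` for the index type `ℕ` implies it for all index types.
-/

open MeasureTheory Set
open scoped ENNReal

namespace Pool.Agent.GPA

/-- A selection of distinct coordinates of a random point is a random point. -/
theorem coin_map_comp {I J : Type} {g : J → I} (hg : Function.Injective g) :
    (coin I).map (fun y => y ∘ g) = coin J := by
  classical
  have hm : Measurable fun y : YS I => y ∘ g :=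
    measurable_pi_iff.2 fun j => measurable_pi_apply (g j)
  refine Measure.eq_infinitePi (μ := fun _ : J => cB) fun s t ht => ?_
  rw [Measure.map_apply hm (.pi s.countable_toSet fun _ _ => ht _)]
  have h : (fun y : YS I => y ∘ g) ⁻¹' (Set.pi s t) =
      Set.pi (s.map ⟨g, hg⟩ : Finset I) (Function.extend g t fun _ => Set.univ) := by
    ext y
    simp only [mem_preimage, Set.mem_pi, Finset.mem_coe, Finset.mem_map,
      Function.Embedding.coeFn_mk, forall_exists_index, and_imp, forall_apply_eq_imp_iff₂,
      Function.comp_apply, hg.extend_apply]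
  rw [h, coin, Measure.infinitePi_pi]
  · rw [Finset.prod_map]
    simp only [Function.Embedding.coeFn_mk, hg.extend_apply]
  · intro i hi
    obtain ⟨j, -, rfl⟩ := Finset.mem_map.1 hi
    simp only [Function.Embedding.coeFn_mk, hg.extend_apply]
    exact ht j

/-- A measurable set depends on countably many coordinates of the second variable. -/
theorem exists_countable_dep {Z I : Type} [MeasurableSpace Z] {W : Set (Z × YS I)}
    (hW : MeasurableSet W) : ∃ L : Set I, L.Countable ∧ ∀ z (y y' : YS I), (∀ i ∈ L, y i = y' i) →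
      ((z, y) ∈ W ↔ (z, y') ∈ W) := by
  let m' : MeasurableSpace (Z × YS I) :=
    { MeasurableSet' := fun W => ∃ L : Set I, L.Countable ∧ ∀ z (y y' : YS I),
        (∀ i ∈ L, y i = y' i) → ((z, y) ∈ W ↔ (z, y') ∈ W)
      measurableSet_empty := ⟨∅, countable_empty, by simp⟩
      measurableSet_compl := by
        rintro W ⟨L, hL, h⟩
        exact ⟨L, hL, fun z y y' hy => not_congr (h z y y' hy)⟩
      measurableSet_iUnion := by
        intro W h
        choose L hL h using h
        refine ⟨⋃ n, L n, countable_iUnion hL, fun z y y' hy => ?_⟩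
        simp only [mem_iUnion]
        exact exists_congr fun n => h n z y y' fun i hi => hy i (mem_iUnion.2 ⟨n, hi⟩) }
  have h1 : (Prod.instMeasurableSpace : MeasurableSpace (Z × YS I)) ≤ m' := by
    refine sup_le ?_ ?_
    · rintro _ ⟨A, -, rfl⟩
      exact ⟨∅, countable_empty, fun z y y' _ => Iff.rfl⟩
    · change (⨆ i, MeasurableSpace.comap (fun y : YS I => y i) _).comap Prod.snd ≤ m'
      rw [MeasurableSpace.comap_iSup]
      refine iSup_le fun i => ?_
      rintro _ ⟨_, ⟨A, -, rfl⟩, rfl⟩
      refine ⟨{i}, countable_singleton i, fun z y y' hy => ?_⟩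
      show y i ∈ A ↔ y' i ∈ A
      rw [hy i rfl]
  exact h1 W hW

/-- The field `ext` of `LavSys` for the index type `I`. -/
def ExtI {K : Type} [LinearOrder K] (P : Set (Set (XS K))) (I : Type) : Prop :=
  ∀ (d : K), ∀ A ∈ P, ∀ W : Set (XS K × YS I), MeasurableSet W →
    (∀ x, coin I (sec W x) = 0) →
    ∃ U ∈ P, MeasurableSet[lev d] U ∧ (∀ x ∈ U, ∃ x' ∈ A, ∀ b < d, x' b = x b) ∧
    ∃ V : Set (XS K × YS I), MeasurableSet[(lev d).prod inferInstance] V ∧
      (∀ x, coin I (sec V x) = 0) ∧
      ∀ U' ∈ P, MeasurableSet[lev d] U' → U' ⊆ U →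
      ∀ μ : XS K → Measure (YS I), (∀ s, MeasurableSet s → Measurable[lev d] fun x => μ x s) →
        (∀ x, μ x Set.univ ≤ 1) → (∀ x ∈ U', μ x (sec V x) = 0) →
        ∀ ε : ℝ≥0∞, ε ≠ 0 → ∃ B ∈ P, B ⊆ U' ∧ B ⊆ A ∧ ∀ x ∈ B, μ x (sec W x) ≤ ε

/-- The map from pairs of points to selected coordinates. -/
def selc {I : Type} (g : ℕ → I ⊕ ℕ) (p : YS I × YS ℕ) : YS ℕ := fun n => Sum.elim p.1 p.2 (g n)

theorem measurable_selc {I : Type} (g : ℕ → I ⊕ ℕ) : Measurable (selc g) := by
  refine measurable_pi_iff.2 fun n => ?_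
  rcases h : g n with i | j
  · have : (fun p : YS I × YS ℕ => selc g p n) = fun p => p.1 i := by
      funext p
      simp [selc, h]
    rw [this]
    exact (measurable_pi_apply i).comp measurable_fst
  · have : (fun p : YS I × YS ℕ => selc g p n) = fun p => p.2 j := by
      funext p
      simp [selc, h]
    rw [this]
    exact (measurable_pi_apply j).comp measurable_snd

theorem map_selc {I : Type} {g : ℕ → I ⊕ ℕ} (hg : Function.Injective g) :
    ((coin I).prod (coin ℕ)).map (selc g) = coin ℕ := by
  have h1 : (coin (I ⊕ ℕ)).map (fun x => ((fun i => x (Sum.inl i)), fun j => x (Sum.inr j))) =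
      (coin I).prod (coin ℕ) := coin_sum I ℕ
  rw [← h1, Measure.map_map (measurable_selc g) (by fun_prop), ← coin_map_comp hg]
  congr 1
  funext x n
  simp only [selc, Function.comp_apply]
  rcases g n with i | j <;> rfl

theorem extI_of_nat {K : Type} [LinearOrder K] {P : Set (Set (XS K))} (h : ExtI P ℕ) (I : Type) :
    ExtI P I := by
  classical
  intro d A hA W hW hW0
  obtain ⟨L, hL, hdep⟩ := exists_countable_dep hW
  -- an injective sequence of coordinates which runs through `L`
  obtain ⟨g, hg, hgL⟩ : ∃ g : ℕ → I ⊕ ℕ, Function.Injective g ∧ ∀ i ∈ L, ∃ n, g n = Sum.inl i := by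
    have : Countable L := hL.to_subtype
    have hd : Nonempty (L ⊕ ℕ ≃ ℕ) := nonempty_equiv_of_countable
    obtain ⟨e⟩ := hd
    refine ⟨fun n => Sum.map (fun i : L => (i : I)) id (e.symm n), ?_, fun i hi => ?_⟩
    · exact (Function.Injective.sumMap Subtype.val_injective Function.injective_id).comp
        e.symm.injective
    · exact ⟨e (Sum.inl ⟨i, hi⟩), by simp⟩
  let ex : YS ℕ → YS I := fun w i => if h : ∃ n, g n = Sum.inl i then w h.choose else false
  have hex : Measurable ex := by
    refine measurable_pi_iff.2 fun i => ?_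
    by_cases h : ∃ n, g n = Sum.inl i
    · simp only [ex, dif_pos h]
      exact measurable_pi_apply _
    · simp only [ex, dif_neg h]
      exact measurable_const
  have hexs : ∀ p : YS I × YS ℕ, ∀ i ∈ L, ex (selc g p) i = p.1 i := by
    intro p i hi
    have h := hgL i hi
    simp only [ex, dif_pos h, selc, h.choose_spec, Sum.elim_inl]
  let W' : Set (XS K × YS ℕ) := {p | (p.1, ex p.2) ∈ W}
  have hW' : MeasurableSet W' :=
    (measurable_fst.prodMk (hex.comp measurable_snd)) hW
  have hWW : ∀ x (p : YS I × YS ℕ), (x, selc g p) ∈ W' ↔ (x, p.1) ∈ W := fun x p =>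
    hdep x _ _ (hexs p)
  have hsec : ∀ x, selc g ⁻¹' (sec W' x) = sec W x ×ˢ Set.univ := by
    intro x
    ext p
    simp only [mem_preimage, mem_prod, mem_univ, and_true]
    exact hWW x p
  have hW'm : ∀ x, MeasurableSet (sec W' x) := fun x => measurable_prodMk_left hW'
  have hWm : ∀ x, MeasurableSet (sec W x) := fun x => measurable_prodMk_left hW
  have hW'0 : ∀ x, coin ℕ (sec W' x) = 0 := by
    intro x
    rw [← map_selc hg, Measure.map_apply (measurable_selc g) (hW'm x), hsec, Measure.prod_prod,
      hW0, zero_mul]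
  obtain ⟨U, hU, hUm, hUA, V', hV'm, hV'0, hmain⟩ := h d A hA W' hW' hW'0
  -- the sections of `V'` over pairs
  have hV2 : MeasurableSet[@Prod.instMeasurableSpace _ _ (@Prod.instMeasurableSpace _ _ (lev d)
      inferInstance) inferInstance]
      {q : (XS K × YS I) × YS ℕ | (q.1.1, selc g (q.1.2, q.2)) ∈ V'} := by
    let _ : MeasurableSpace (XS K) := lev d
    have h1 : Measurable fun q : (XS K × YS I) × YS ℕ => (q.1.1, selc g (q.1.2, q.2)) :=
      (measurable_fst.comp measurable_fst).prodMk ((measurable_selc g).comp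
        ((measurable_snd.comp measurable_fst).prodMk measurable_snd))
    exact h1 hV'm
  let V : Set (XS K × YS I) := {q | coin ℕ {z | (q.1, selc g (q.2, z)) ∈ V'} ≠ 0}
  have hVm : MeasurableSet[(lev d).prod inferInstance] V := by
    let _ : MeasurableSpace (XS K) := lev d
    have h1 : Measurable fun q : XS K × YS I => coin ℕ {z | (q.1, selc g (q.2, z)) ∈ V'} :=
      measurable_measure_prodMk_left hV2
    exact (h1 (measurableSet_singleton 0)).compl
  have hV'sec : ∀ x, MeasurableSet (sec V' x) := by
    intro x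
    let _ : MeasurableSpace (XS K) := lev d
    exact measurable_prodMk_left hV'm
  -- the pushed measures
  have hpush : ∀ (ρ : Measure (YS I)) [SFinite ρ] (s : Set (YS ℕ)), MeasurableSet s →
      (ρ.prod (coin ℕ)).map (selc g) s = ∫⁻ y, coin ℕ {z | selc g (y, z) ∈ s} ∂ρ := by
    intro ρ _ s hs
    rw [Measure.map_apply (measurable_selc g) hs, Measure.prod_apply ((measurable_selc g) hs)]
    rfl
  have hVnull : ∀ (ρ : Measure (YS I)) [SFinite ρ] (x : XS K), ρ (sec V x) = 0 ↔
      (ρ.prod (coin ℕ)).map (selc g) (sec V' x) = 0 := by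
    intro ρ _ x
    have hmz : Measurable fun y => coin ℕ {z | selc g (y, z) ∈ sec V' x} :=
      measurable_measure_prodMk_left ((measurable_selc g) (hV'sec x))
    rw [hpush ρ _ (hV'sec x), lintegral_eq_zero_iff hmz]
    rfl
  refine ⟨U, hU, hUm, hUA, V, hVm, fun x => ?_, ?_⟩
  · rw [hVnull, map_selc hg]
    exact hV'0 x
  · intro U' hU' hU'm hU'U μ hμm hμ1 hμ0 ε hε
    have hfin : ∀ x, IsFiniteMeasure (μ x) := fun x => ⟨(hμ1 x).trans_lt ENNReal.one_lt_top⟩
    obtain ⟨B, hB, hBU, hBA, hBε⟩ := hmain U' hU' hU'm hU'U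
      (fun x => ((μ x).prod (coin ℕ)).map (selc g)) (by
        intro s hs
        let _ : MeasurableSpace (XS K) := lev d
        have h1 : Measurable μ := Measure.measurable_of_measurable_coe μ hμm
        have h2 : Measurable fun y => coin ℕ {z | selc g (y, z) ∈ s} :=
          measurable_measure_prodMk_left ((measurable_selc g) hs)
        have h3 := (Measure.measurable_lintegral h2).comp h1
        have h4 : (fun x => ((μ x).prod (coin ℕ)).map (selc g) s) =
            fun x => ∫⁻ y, coin ℕ {z | selc g (y, z) ∈ s} ∂(μ x) := funext fun x => hpush (μ x) s hs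
        rw [h4]
        exact h3) (by
        intro x
        rw [Measure.map_apply (measurable_selc g) MeasurableSet.univ, preimage_univ, ← univ_prod_univ,
          Measure.prod_prod, measure_univ (μ := coin ℕ), mul_one]
        exact hμ1 x) (fun x hx => (hVnull (μ x) x).1 (hμ0 x hx)) ε hε
    refine ⟨B, hB, hBU, hBA, fun x hx => ?_⟩
    have h1 := hBε x hx
    rwa [Measure.map_apply (measurable_selc g) (hW'm x), hsec, Measure.prod_prod,
      measure_univ (μ := coin ℕ), mul_one] at h1

end Pool.Agent.GPA
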