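import Mathlib

/-!
# The coin tossing measure on `I → Bool`
-/

open MeasureTheory Set
open scoped ENNReal

namespace Pool.Agent.GPA

/-- The fair coin. -/
noncomputable def cB : Measure Bool := (2⁻¹ : ℝ≥0∞) • Measure.count

theorem cB_singleton (b : Bool) : cB {b} = 2⁻¹ := by
  simp [cB]

instance : IsProbabilityMeasure cB := by
  constructor
  rw [cB, Measure.smul_apply, Measure.count_apply MeasurableSet.univ, smul_eq_mul]
  have : (univ : Set Bool).encard = 2 := by
    rw [Set.encard_univ, ENat.card_eq_coe_fintype_card]; simp
  rw [this]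
  exact ENNReal.inv_mul_cancel (by simp) (by simp)

/-- The coin tossing measure. -/
noncomputable def coin (I : Type*) : Measure (I → Bool) := Measure.infinitePi fun _ => cB

instance (I : Type*) : IsProbabilityMeasure (coin I) := by
  unfold coin; infer_instance

theorem coin_cyl {I : Type*} (s : Finset I) (t : I → Bool) :
    coin I {x | ∀ i ∈ s, x i = t i} = 2⁻¹ ^ s.card := by
  have h : {x : I → Bool | ∀ i ∈ s, x i = t i} = Set.pi s fun i => {t i} := by
    ext x; simp
  rw [h, coin, Measure.infinitePi_pi]
  · simp [cB_singleton]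
  · intro i _; exact MeasurableSet.of_discrete

/-- The coordinates split into independent parts. -/
theorem coin_sum (I J : Type*) :
    (coin (I ⊕ J)).map (fun x => ((fun i => x (Sum.inl i)), fun j => x (Sum.inr j))) =
      (coin I).prod (coin J) := by
  classical
  have hm : Measurable (fun x : I ⊕ J → Bool => ((fun i => x (Sum.inl i)), fun j => x (Sum.inr j))) := by
    fun_prop
  have hs : Measurable (fun z : (I → Bool) × (J → Bool) => (Sum.elim z.1 z.2 : I ⊕ J → Bool)) := by
    refine measurable_pi_iff.2 fun k => ?_
    rcases k with i | j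
    · exact (measurable_pi_apply i).comp measurable_fst
    · exact (measurable_pi_apply j).comp measurable_snd
  have key : ((coin I).prod (coin J)).map (fun z => (Sum.elim z.1 z.2 : I ⊕ J → Bool)) =
      coin (I ⊕ J) := by
    refine Measure.eq_infinitePi (μ := fun _ : I ⊕ J => cB) fun s t ht => ?_
    rw [Measure.map_apply hs (.pi s.countable_toSet fun _ _ => ht _)]
    have h : (fun z : (I → Bool) × (J → Bool) => (Sum.elim z.1 z.2 : I ⊕ J → Bool)) ⁻¹'
        (Set.pi s t) = (Set.pi s.toLeft fun i => t (Sum.inl i)) ×ˢ
          (Set.pi s.toRight fun j => t (Sum.inr j)) := by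
      ext z
      simp [Set.mem_pi]
    rw [h, Measure.prod_prod, coin, coin, Measure.infinitePi_pi _ fun i _ => ht _,
      Measure.infinitePi_pi _ fun i _ => ht _]
    rw [← Finset.prod_disjSum s.toLeft s.toRight fun k => cB (t k), Finset.toLeft_disjSum_toRight]
  rw [← key, Measure.map_map hm hs]
  exact Measure.map_id
end Pool.Agent.GPA
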