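import Pool.Agent.GPA.Frame
import Pool.Agent.GPA.Coin

/-!
# The interface between the iteration and the random part

`LavSys` is an abstract version of the countable support iteration of Laver forcing of length `κ`:
a family `P` of sets of points `x : K → ω^ω`, ordered by inclusion. The forcing notion of the
`Frame` is `QQ P`, the measurable sets `D ⊆ X × 2^Λ` whose sections are empty outside of a member of
`P` and of positive measure on it.
-/

open MeasureTheory Cardinal Set
open scoped ENNReal

namespace Pool.Agent.GPA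

/-- A family of nonempty measurable sets with the covering property and the decision property. -/
structure PPos {Z : Type} [MeasurableSpace Z] (P : Set (Set Z)) : Prop where
  meas : ∀ A ∈ P, MeasurableSet A
  ne : ∀ A ∈ P, A.Nonempty
  univ : Set.univ ∈ P
  /-- Every member of `P` is covered, after shrinking, by countably many members of each of
  countably many dense sets. -/
  cover : ∀ D : ℕ → Set (Set Z), (∀ n, D n ⊆ P) → (∀ n, ∀ A ∈ P, ∃ B ∈ D n, B ⊆ A) →
    ∀ A ∈ P, ∃ B ∈ P, B ⊆ A ∧ ∃ C : ℕ → Set (Set Z),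
      ∀ n, (C n).Countable ∧ C n ⊆ D n ∧ B ⊆ ⋃₀ (C n)
  /-- If countably many measurable sets cover a member of `P` then one of them includes a smaller
  member. -/
  dec : ∀ A ∈ P, ∀ E : ℕ → Set Z, (∀ n, MeasurableSet (E n)) → A ⊆ ⋃ n, E n →
    ∃ n, ∃ B ∈ P, B ⊆ A ∧ B ⊆ E n

/-- The space of the points of the iteration. -/
abbrev XS (K : Type) : Type := K → ℕ → ℕ

/-- The space of the random points. -/
abbrev YS (I : Type) : Type := I → Bool

/-- The `σ`-algebra of the coordinates below `d`. -/
@[instance_reducible] def lev {K : Type} [Preorder K] (d : K) : MeasurableSpace (XS K) :=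
  MeasurableSpace.comap (fun (x : XS K) (b : Set.Iio d) => x b) inferInstance

/-- The `σ`-algebra of the coordinates in `L`. -/
@[instance_reducible] def sub {I : Type} (L : Set I) : MeasurableSpace (YS I) :=
  MeasurableSpace.comap (fun (y : YS I) (l : L) => y l) inferInstance

/-- The `σ`-algebra of the coordinates below `d` and in `L`. -/
@[instance_reducible] def bd {K I : Type} [Preorder K] (d : K) (L : Set I) : MeasurableSpace (XS K × YS I) :=
  (lev d).prod (sub L)

/-- The section of `W` at `x`. -/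
abbrev sec {X Y : Type} (W : Set (X × Y)) (x : X) : Set Y := Prod.mk x ⁻¹' W

/-- The iteration. -/
structure LavSys (K : Type) [LinearOrder K] [WellFoundedLT K] where
  mk_K : #K = Order.succ 𝔠
  mk_Iio : ∀ d : K, #(Set.Iio d) ≤ 𝔠
  P : Set (Set (XS K))
  ppos : PPos P
  /-- Among `κ` conditions there are `n` with a common lower bound. -/
  knaster : ∀ p : K → Set (XS K), (∀ i, p i ∈ P) → ∀ n : ℕ,
    ∃ s : Finset K, s.card = n ∧ ∃ B ∈ P, ∀ i ∈ s, B ⊆ p i
  /-- The coordinate `d` eventually dominates every function read from the coordinates below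
  `d`. -/
  dom : ∀ (d : K) (H : XS K → ℕ → ℕ), Measurable[lev d] H → ∀ A ∈ P, ∃ B ∈ P, B ⊆ A ∧
    ∀ x ∈ B, ∃ n₀, ∀ n ≥ n₀, H x n ≤ x d n
  /-- Preservation of outer measure from `d` to the end. The set `U` is the set of the points of a
  master condition below the level `d`, and `V` is the union of the null sets of the model. -/
  ext : ∀ (I : Type) (d : K), ∀ A ∈ P, ∀ W : Set (XS K × YS I), MeasurableSet W →
    (∀ x, coin I (sec W x) = 0) →
    ∃ U ∈ P, MeasurableSet[lev d] U ∧ (∀ x ∈ U, ∃ x' ∈ A, ∀ b < d, x' b = x b) ∧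
    ∃ V : Set (XS K × YS I), MeasurableSet[(lev d).prod inferInstance] V ∧
      (∀ x, coin I (sec V x) = 0) ∧
      ∀ U' ∈ P, MeasurableSet[lev d] U' → U' ⊆ U →
      ∀ μ : XS K → Measure (YS I), (∀ s, MeasurableSet s → Measurable[lev d] fun x => μ x s) →
        (∀ x, μ x Set.univ ≤ 1) → (∀ x ∈ U', μ x (sec V x) = 0) →
        ∀ ε : ℝ≥0∞, ε ≠ 0 → ∃ B ∈ P, B ⊆ U' ∧ B ⊆ A ∧ ∀ x ∈ B, μ x (sec W x) ≤ ε

/-- The measurable subsets of `X × Y` whose sections are empty outside of a member of `P` and not
null on it. -/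
def QQ {X Y : Type} [MeasurableSpace X] [MeasurableSpace Y] (P : Set (Set X)) (ν : Measure Y) :
    Set (Set (X × Y)) :=
  {D | MeasurableSet D ∧ ∃ A ∈ P, ∀ x, (x ∉ A → sec D x = ∅) ∧ (x ∈ A → ν (sec D x) ≠ 0)}

/-- `A` forces `E`: the members of `P` included in `E` are dense below `A`. -/
def Fo {Z : Type} (P : Set (Set Z)) (A E : Set Z) : Prop :=
  ∀ B ∈ P, B ⊆ A → ∃ C ∈ P, C ⊆ B ∧ C ⊆ E

end Pool.Agent.GPA
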