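import Pool.Agent.GPA.Gen

/-!
# The limit step of the extension of generic points
-/

open Set Filter

namespace Pool.Agent.GPA

namespace Lim

/-- A dependent sequence. -/
theorem exists_chain {α : Type*} {P : ℕ → α → Prop} {R : ℕ → α → α → Prop} {s0 : α} (h0 : P 0 s0)
    (h : ∀ n s, P n s → ∃ s', P (n + 1) s' ∧ R n s s') :
    ∃ S : ℕ → α, S 0 = s0 ∧ ∀ n, P n (S n) ∧ R n (S n) (S (n + 1)) := by
  choose! g hg using h
  let S : (n : ℕ) → {s // P n s} := fun n =>
    Nat.rec ⟨s0, h0⟩ (fun n s => ⟨g n s.1, (hg n s.1 s.2).1⟩) n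
  exact ⟨fun n => (S n).1, rfl, fun n => ⟨(S n).2, (hg n (S n).1 (S n).2).2⟩⟩

variable {K : Type} [LinearOrder K]

/-- The dense set used in the choice at a level `k` below `j`. -/
def dd (j : WithTop K) (D : Set (Cond K)) (p : Cond K) (k : K) : Set (Cond K) :=
  {e | (e ∈ D ∧ pt e j ⊆ pt p j) ∨ Disjoint (pt e k) (pt p k)}

variable [WellFoundedLT K]

theorem dd_dense {j : WithTop K} {D : Set (Cond K)} (hD : DenseL j D) (p : Cond K) {k : K}
    (hk : (k : WithTop K) ≤ j) (hdec : DecL (k : WithTop K)) :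
    DenseL (k : WithTop K) (dd j D p k) := by
  intro u
  obtain ⟨v, hv, hv'⟩ := hdec (pt p k) (measurableSet_pt p k)
    (fun x y hxy => propext (mem_pt_congr p hxy)) u
  rcases hv' with h | h
  · obtain ⟨e, he, hep⟩ := hD (Cond.glue k v p)
    refine ⟨e, Or.inl ⟨he, hep.trans (glue_subset_right hk h)⟩, ?_⟩
    refine (pt_subset_mono hk hep).trans fun x hx => hv ?_
    rwa [mem_pt_glue_of_le le_rfl] at hx
  · exact ⟨v, Or.inr h, hv⟩

/-- Refinement of a condition of `N` through a generic point of a lower level. -/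
theorem exists_refine {N : Set Obj} {j : WithTop K} {k : K} (hk : (k : WithTop K) ≤ j)
    (hdec : DecL (k : WithTop K)) {D : Set (Cond K)} {p : Cond K} (hD : DenseL j D)
    (hN : Has N (dd j D p k)) {x : Pt K} (hx : Gen N k x) (hp : x ∈ pt p k) :
    ∃ e, Has N e ∧ e ∈ D ∧ pt e j ⊆ pt p j ∧ x ∈ pt e k := by
  obtain ⟨e, he, heN, hxe⟩ := hx _ hN (dd_dense hD p hk hdec)
  rcases he with he | he
  · exact ⟨e, heN, he.1, he.2, hxe⟩
  · exact (disjoint_left.1 he hxe hp).elim

end Lim

variable {K : Type} [LinearOrder K] [WellFoundedLT K]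

/-- The closure properties of `N` used in the limit step. -/
structure LimN (N : Set Obj) (i j : WithTop K) : Prop where
  cnt : N.Countable
  full : Has N (Cond.full : Cond K)
  top : Has N (univ : Set (Cond K))
  bot : ∃ a : K, (a : WithTop K) = i ∧ Has N a
  up : ∀ a : K, Has N a → (∃ b, a < b ∧ (b : WithTop K) < j) →
    ∃ b, Has N b ∧ a < b ∧ (b : WithTop K) < j
  dd : ∀ (D : Set (Cond K)) (p : Cond K) (k : K), Has N D → Has N p → Has N k →
    Has N (Lim.dd j D p k)
  supp : ∀ p : Cond K, Has N p → ∀ a, p.T a ≠ MT.full → Has N a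
  ext : ∀ a b : K, Has N a → Has N b → i ≤ (a : WithTop K) → a ≤ b → (b : WithTop K) < j →
    GenExt N (a : WithTop K) (b : WithTop K)

omit [WellFoundedLT K] in
theorem club_limN {i j : WithTop K} (hij : i < j)
    (hext : ∀ a b : K, i ≤ (a : WithTop K) → a ≤ b → (b : WithTop K) < j →
      ∀ᶠ N in club, GenExt N (a : WithTop K) (b : WithTop K)) :
    ∀ᶠ N in club, LimN N i j := by
  obtain ⟨i0, rfl⟩ := WithTop.ne_top_iff_exists.1 (hij.trans_le le_top).ne
  have hE : ∀ᶠ N in club, ∀ a b : K, Has N a → Has N b → ((i0 : WithTop K) ≤ (a : WithTop K) →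
      a ≤ b → (b : WithTop K) < j → GenExt N (a : WithTop K) (b : WithTop K)) := by
    refine club_diag₂ fun a b => ?_
    by_cases h : (i0 : WithTop K) ≤ (a : WithTop K) ∧ a ≤ b ∧ (b : WithTop K) < j
    · filter_upwards [hext a b h.1 h.2.1 h.2.2] with N hN _ _ _
      exact hN
    · exact Eventually.of_forall fun N h1 h2 h3 => (h ⟨h1, h2, h3⟩).elim
  filter_upwards [club_countable, club_const (Cond.full : Cond K), club_const (univ : Set (Cond K)),
    club_const i0, club_skolem (fun a b : K => a < b ∧ (b : WithTop K) < j),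
    club_map₃ (Lim.dd (K := K) j), club_map (fun p : Cond K => {a | p.T a ≠ MT.full}),
    club_of_mem K, hE] with N h1 h2 h3 h4 h5 h6 h7 h8 h9
  exact ⟨h1, h2, h3, ⟨i0, rfl, h4⟩, h5, h6, fun p hp a ha => h8 _ (h7 p hp) p.supp a ha,
    fun a b ha hb => h9 a b ha hb⟩

namespace Lim

/-- The data of a stage of the construction. -/
structure St (K : Type) [LinearOrder K] where
  B : Set (Pt K)
  f : Pt K → Cond K
  q : Cond K

/-- The properties of a stage at the level `k`. -/
structure Good (N : Set Obj) (k : K) (s : St K) : Prop where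
  mB : MeasurableSet s.B
  dB : Det (k : WithTop K) (fun x => x ∈ s.B)
  cf : CM s.f
  df : Det (k : WithTop K) s.f
  nf : ∀ x, Has N (s.f x)
  gen : ∀ x ∈ s.B, Gen N (k : WithTop K) x ∧ x ∈ pt (s.f x) k

/-- The relation between two stages. -/
structure Step (j : WithTop K) (D : Set (Cond K)) (k k' : K) (s s' : St K) : Prop where
  sub : ∀ x ∈ s.B, s'.f x ∈ D ∧ pt (s'.f x) j ⊆ pt (s.f x) j
  eq : s'.B = {y | y ∈ s.B ∧ ∀ a : K, k ≤ a → a < k' → y a ∈ (s'.q.T a).br y}

theorem step {N : Set Obj} {i j : WithTop K} (hN : LimN N i j) {k k' : K} (hk : Has N k)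
    (hk' : Has N k') (hik : i ≤ (k : WithTop K)) (hkk : k ≤ k') (hkj : (k' : WithTop K) < j)
    (hdec : DecL (k : WithTop K)) {D : Set (Cond K)} (hD : DenseL j D) (hDN : Has N D)
    {s : St K} (hs : Good N k s) : ∃ s', Good N k' s' ∧ Step j D k k' s s' := by
  have hkj' : (k : WithTop K) ≤ j := (WithTop.coe_le_coe.2 hkk).trans hkj.le
  -- an enumeration of the conditions of `N`
  obtain ⟨e, he⟩ : ∃ e : ℕ → Cond K, {c | Has N c} = range e := by
    have hc : {c : Cond K | Has N c}.Countable := by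
      have hinj : Function.Injective (fun c : Cond K => (⟨Cond K, c⟩ : Obj)) := by
        intro a b hab
        simpa using hab
      exact hN.cnt.preimage hinj
    exact hc.exists_eq_range ⟨_, hN.full⟩
  have heN : ∀ m, Has N (e m) := fun m => by
    have : e m ∈ {c | Has N c} := by rw [he]; exact ⟨m, rfl⟩
    exact this
  let P : ℕ → Pt K → Prop := fun m x => e m ∈ D ∧ pt (e m) j ⊆ pt (s.f x) j ∧ x ∈ pt (e m) k
  have hPm : ∀ m, MeasurableSet {x | P m x} := by
    intro m
    refine hs.cf.rel (R := fun c x => e m ∈ D ∧ pt (e m) j ⊆ pt c j ∧ x ∈ pt (e m) k) fun c => ?_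
    have h1 : {x : Pt K | e m ∈ D ∧ pt (e m) j ⊆ pt c j ∧ x ∈ pt (e m) k} =
        {x | e m ∈ D ∧ pt (e m) j ⊆ pt c j} ∩ pt (e m) k := by
      ext x
      simp only [mem_ofPred_eq, mem_inter_iff, and_assoc]
    rw [h1]
    exact (MeasurableSet.const _).inter (measurableSet_pt _ _)
  let f' : Pt K → Cond K := fun x => e (sInf {m | P m x})
  have hcf : CM f' := (CM.find hPm).map e
  have hdf : Det (k : WithTop K) f' := by
    intro x y hxy
    have h1 : {m | P m x} = {m | P m y} := by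
      ext m
      show (_ ∧ _ ∧ _) ↔ (_ ∧ _ ∧ _)
      rw [hs.df x y hxy, mem_pt_congr (e m) hxy]
    show e _ = e _
    rw [h1]
  have hex : ∀ x ∈ s.B, P (sInf {m | P m x}) x := by
    intro x hx
    obtain ⟨hg, hp⟩ := hs.gen x hx
    obtain ⟨c, hcN, hcD, hcs, hxc⟩ := exists_refine hkj' hdec hD
      (hN.dd D (s.f x) k hDN (hs.nf x) hk) hg hp
    have hc : c ∈ range e := by rw [← he]; exact hcN
    obtain ⟨m, rfl⟩ := hc
    exact Nat.sInf_mem (s := {m | P m x}) ⟨m, hcD, hcs, hxc⟩
  obtain ⟨q, hq⟩ := hN.ext k k' hk hk' hik hkk hkj s.B f' hs.mB hs.dB hcf hdf (fun x => heN _)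
    fun x hx => ⟨(hs.gen x hx).1, (hex x hx).2.2⟩
  have hset : {y : Pt K | ∀ a : K, k ≤ a → a < k' → y a ∈ (q.T a).br y} =
      pt (Cond.glue k Cond.full q) k' := by
    ext y
    rw [mem_pt_glue (WithTop.coe_le_coe.2 hkk)]
    constructor
    · intro h
      refine ⟨fun a _ => ?_, fun a ha ha' => h a (WithTop.coe_le_coe.1 ha) (WithTop.coe_lt_coe.1 ha')⟩
      show y a ∈ (MT.full : MT K).br y
      rw [br_full]
      exact mem_univ _
    · exact fun h a ha ha' => h.2 a (WithTop.coe_le_coe.2 ha) (WithTop.coe_lt_coe.2 ha')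
  have hmem : ∀ y : Pt K, (∀ a : K, k ≤ a → a < k' → y a ∈ (q.T a).br y) ↔
      y ∈ pt (Cond.glue k Cond.full q) k' := fun y => by
    rw [← hset]
    rfl
  refine ⟨⟨{y | y ∈ s.B ∧ ∀ a : K, k ≤ a → a < k' → y a ∈ (q.T a).br y}, f', q⟩,
    ⟨?_, ?_, hcf, hdf.mono (WithTop.coe_le_coe.2 hkk), fun x => heN _, ?_⟩, ⟨?_, rfl⟩⟩
  · have h1 : {y : Pt K | y ∈ s.B ∧ ∀ a : K, k ≤ a → a < k' → y a ∈ (q.T a).br y} =
        s.B ∩ pt (Cond.glue k Cond.full q) k' := by
      ext y
      rw [mem_inter_iff, ← hmem y]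
      rfl
    show MeasurableSet {y : Pt K | y ∈ s.B ∧ ∀ a : K, k ≤ a → a < k' → y a ∈ (q.T a).br y}
    rw [h1]
    exact hs.mB.inter (measurableSet_pt _ _)
  · intro x y hxy
    show (x ∈ s.B ∧ _) = (y ∈ s.B ∧ _)
    have h1 : (x ∈ s.B) = (y ∈ s.B) := hs.dB x y (hxy.mono (WithTop.coe_le_coe.2 hkk))
    rw [h1]
    refine congrArg _ (propext ?_)
    rw [hmem x, hmem y, mem_pt_congr _ hxy]
  · rintro y ⟨hy, hy'⟩
    refine hq y hy fun a ha ha' => hy' a (WithTop.coe_le_coe.1 ha) (WithTop.coe_lt_coe.1 ha')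
  · intro x hx
    exact ⟨(hex x hx).1, (hex x hx).2.1⟩

end Lim

theorem genExt_of_limN {N : Set Obj} {i j : WithTop K}
    (hj : ∀ a : K, (a : WithTop K) < j → ∃ b : K, a < b ∧ (b : WithTop K) < j) (hij : i < j)
    (hdec : ∀ k : K, i ≤ (k : WithTop K) → (k : WithTop K) < j → DecL (k : WithTop K))
    (hN : LimN N i j) : GenExt N i j := by
  classical
  intro B f hB hBd hf hfd hfN hgen
  obtain ⟨i0, rfl, hi0⟩ := hN.bot
  -- the levels of `N` between `i` and `j`
  let A : Type := {a : K // Has N a ∧ i0 ≤ a ∧ (a : WithTop K) < j}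
  have hAc : Countable A := by
    have hinj : Function.Injective (fun c : K => (⟨K, c⟩ : Obj)) := by
      intro a b hab
      simpa using hab
    have : {a : K | Has N a}.Countable := hN.cnt.preimage hinj
    exact (this.mono fun a ha => ha.1 : {a : K | Has N a ∧ i0 ≤ a ∧ (a : WithTop K) < j}.Countable)
  have hAn : Nonempty A := ⟨⟨i0, hi0, le_rfl, hij⟩⟩
  obtain ⟨u, hu⟩ := exists_surjective_nat A
  have hup : ∀ a : A, ∃ b : A, a.1 < b.1 := by
    rintro ⟨a, ha, hia, haj⟩
    obtain ⟨b, hb, hab, hbj⟩ := hN.up a ha (hj a haj)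
    exact ⟨⟨b, hb, hia.trans hab.le, hbj⟩, hab⟩
  choose g hg using hup
  let l : ℕ → A := fun n => Nat.rec ⟨i0, hi0, le_rfl, hij⟩
    (fun n a => g (if a.1 ≤ (u n).1 then u n else a)) n
  have hl0 : (l 0).1 = i0 := rfl
  have hl1 : ∀ n, (l n).1 < (l (n + 1)).1 ∧ (u n).1 < (l (n + 1)).1 := by
    intro n
    have h1 : (l (n + 1)) = g (if (l n).1 ≤ (u n).1 then u n else l n) := rfl
    have h2 := hg (if (l n).1 ≤ (u n).1 then u n else l n)
    rw [← h1] at h2
    by_cases h : (l n).1 ≤ (u n).1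
    · rw [if_pos h] at h2
      exact ⟨h.trans_lt h2, h2⟩
    · rw [if_neg h] at h2
      exact ⟨h2, (not_le.1 h).trans h2⟩
  have hmono : StrictMono fun n => (l n).1 := strictMono_nat_of_lt_succ fun n => (hl1 n).1
  have hcof : ∀ a : K, Has N a → (a : WithTop K) < j → ∃ n, a < (l n).1 := by
    intro a ha haj
    by_cases h : i0 ≤ a
    · obtain ⟨n, hn⟩ := hu ⟨a, ha, h, haj⟩
      refine ⟨n + 1, ?_⟩
      have := (hl1 n).2
      rw [hn] at this
      exact this
    · exact ⟨0, by rw [hl0]; exact not_le.1 h⟩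
  -- the dense sets of `N`
  obtain ⟨D, hD⟩ : ∃ D : ℕ → Set (Cond K), {c | Has N c ∧ DenseL j c} = range D := by
    have hc : {c : Set (Cond K) | Has N c ∧ DenseL j c}.Countable := by
      have hinj : Function.Injective (fun c : Set (Cond K) => (⟨Set (Cond K), c⟩ : Obj)) := by
        intro a b hab
        simpa using hab
      exact (hN.cnt.preimage hinj).mono fun c hc => hc.1
    exact hc.exists_eq_range ⟨univ, hN.top, fun p => ⟨p, mem_univ _, Subset.rfl⟩⟩
  have hDN : ∀ n, Has N (D n) ∧ DenseL j (D n) := fun n => by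
    have : D n ∈ {c | Has N c ∧ DenseL j c} := by rw [hD]; exact ⟨n, rfl⟩
    exact this
  -- the stages
  obtain ⟨S, hS0, hS⟩ := Lim.exists_chain (P := fun n s => Lim.Good N (l n).1 s)
    (R := fun n s s' => Lim.Step j (D n) (l n).1 (l (n + 1)).1 s s')
    (s0 := ⟨B, f, Cond.full⟩) ⟨hB, hBd, hf, hfd, hfN, hgen⟩ (by
      intro n s hs
      exact Lim.step hN (l n).2.1 (l (n + 1)).2.1 (WithTop.coe_le_coe.2 (l n).2.2.1) (hl1 n).1.le
        (l (n + 1)).2.2.2 (hdec _ (WithTop.coe_le_coe.2 (l n).2.2.1) (l n).2.2.2) (hDN n).2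
        (hDN n).1 hs)
  -- the condition
  let T : K → MT K := fun a => if h : ∃ n, (l n).1 ≤ a ∧ a < (l (n + 1)).1 then
    (S (Nat.find h + 1)).q.T a else MT.full
  have hT : ∀ n a, (l n).1 ≤ a → a < (l (n + 1)).1 → T a = (S (n + 1)).q.T a := by
    intro n a h1 h2
    have h : ∃ n, (l n).1 ≤ a ∧ a < (l (n + 1)).1 := ⟨n, h1, h2⟩
    have h3 := Nat.find_spec h
    have h4 : Nat.find h = n := by
      refine le_antisymm (Nat.find_min' h ⟨h1, h2⟩) ?_
      by_contra hlt
      push Not at hlt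
      have h5 : (l (Nat.find h + 1)).1 ≤ (l n).1 := hmono.monotone (Nat.succ_le_of_lt hlt)
      exact absurd (h3.2.trans_le h5) (not_lt.2 h1)
    show (if h : _ then _ else _) = _
    rw [dif_pos h, h4]
  let q : Cond K :=
    { T := T
      ds := fun a => by
        by_cases h : ∃ n, (l n).1 ≤ a ∧ a < (l (n + 1)).1
        · obtain ⟨n, h1, h2⟩ := h
          rw [hT n a h1 h2]
          exact (S (n + 1)).q.ds a
        · have : T a = MT.full := dif_neg h
          rw [this]
          exact Det.const _ _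
      dW := fun a => by
        by_cases h : ∃ n, (l n).1 ≤ a ∧ a < (l (n + 1)).1
        · obtain ⟨n, h1, h2⟩ := h
          rw [hT n a h1 h2]
          exact (S (n + 1)).q.dW a
        · have : T a = MT.full := dif_neg h
          rw [this]
          exact Det.const _ _
      supp := by
        refine (countable_iUnion fun n => (S n).q.supp).mono fun a ha => ?_
        by_cases h : ∃ n, (l n).1 ≤ a ∧ a < (l (n + 1)).1
        · obtain ⟨n, h1, h2⟩ := h
          refine mem_iUnion.2 ⟨n + 1, ?_⟩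
          have ha' : T a ≠ MT.full := ha
          rw [hT n a h1 h2] at ha'
          exact ha'
        · exact (ha (dif_neg h)).elim }
  refine ⟨q, fun y hy hyq => ?_⟩
  have hyB : ∀ n, y ∈ (S n).B := by
    intro n
    induction n with
    | zero => rw [hS0]; exact hy
    | succ n ih =>
      rw [(hS n).2.eq]
      refine ⟨ih, fun a h1 h2 => ?_⟩
      have h3 := hyq a ((WithTop.coe_le_coe.2 (l n).2.2.1).trans (WithTop.coe_le_coe.2 h1))
        ((WithTop.coe_lt_coe.2 h2).trans (l (n + 1)).2.2.2)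
      have h4 : q.T a = (S (n + 1)).q.T a := hT n a h1 h2
      rwa [h4] at h3
  have hanti : ∀ n m, n ≤ m → pt ((S m).f y) j ⊆ pt ((S n).f y) j := by
    intro n m hnm
    induction m, hnm using Nat.le_induction with
    | base => exact Subset.rfl
    | succ m hm ih => exact ((hS m).2.sub y (hyB m)).2.trans ih
  -- the point satisfies all conditions chosen
  have hyp : ∀ n, y ∈ pt ((S n).f y) j := by
    intro n a ha
    by_cases h : ((S n).f y).T a = MT.full
    · rw [h, br_full]
      exact mem_univ _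
    · obtain ⟨m, hm⟩ := hcof a (hN.supp _ ((hS n).1.nf y) a h) ha
      have h1 : y ∈ pt ((S (max n m)).f y) (l (max n m)).1 := ((hS (max n m)).1.gen y (hyB _)).2
      have h2 := pt_subset_mono (l (max n m)).2.2.2.le (hanti n (max n m) (le_max_left _ _)) h1
      exact h2 a (WithTop.coe_lt_coe.2 (hm.trans_le (hmono.monotone (le_max_right n m))))
  refine ⟨fun E hE hEd => ?_, ?_⟩
  · have hE' : E ∈ range D := by rw [← hD]; exact ⟨hE, hEd⟩
    obtain ⟨n, rfl⟩ := hE'
    exact ⟨(S (n + 1)).f y, ((hS n).2.sub y (hyB n)).1, (hS (n + 1)).1.nf y, hyp (n + 1)⟩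
  · have := hyp 0
    rwa [hS0] at this

/-- The limit step of the extension of generic points. -/
theorem genExt_limit {i j : WithTop K}
    (hj : ∀ a : K, (a : WithTop K) < j → ∃ b : K, a < b ∧ (b : WithTop K) < j) (hij : i < j)
    (hdec : ∀ k : K, i ≤ (k : WithTop K) → (k : WithTop K) < j → DecL (k : WithTop K))
    (hext : ∀ a b : K, i ≤ (a : WithTop K) → a ≤ b → (b : WithTop K) < j →
      ∀ᶠ N in club, GenExt N (a : WithTop K) (b : WithTop K)) :
    ∀ᶠ N in club, GenExt N i j := by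
  filter_upwards [club_limN hij hext] with N hN
  exact genExt_of_limN hj hij hdec hN

omit [WellFoundedLT K] in
/-- The extension of generic points from a level to the same level. -/
theorem genExt_self (N : Set Obj) (i : WithTop K) : GenExt N i i :=
  fun _ _ _ _ _ _ _ hgen => ⟨Cond.full, fun y hy _ => hgen y hy⟩

end Pool.Agent.GPA
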