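import Pool.Agent.GPA.FrontDefs

/-!
# The successor step of the extension theorem

For every node `t` we choose a condition `E t x` of `N` with stem `t` at the coordinate `i` which is
covered by countably many members of a dense set; the successors of `t` in the new tree are the
successors of `t` in the tree of `E t x`.
-/

open Set Filter

namespace Pool.Agent.GPA

variable {K : Type} [LinearOrder K]

set_option linter.unusedSectionVars false

/-! ### Composition -/

theorem GenExt.trans {N : Set Obj} {i' i j : WithTop K} (h : i' ≤ i) (h' : i ≤ j)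
    (h1 : GenExt N i' i) (h2 : GenExt N i j) : GenExt N i' j := by
  intro B f hB hBd hf hfd hN hx
  obtain ⟨q₁, hq₁⟩ := h1 B f hB hBd hf hfd hN hx
  have hm : ∀ y, y ∈ pt (Cond.glue i' Cond.full q₁) i ↔ ∀ a : K, i' ≤ (a : WithTop K) →
      (a : WithTop K) < i → y a ∈ (q₁.T a).br y := by
    intro y
    rw [mem_pt_glue h]
    refine and_iff_right ?_
    intro a _
    show y a ∈ (MT.full : MT K).br y
    rw [br_full]
    exact mem_univ _
  obtain ⟨q₂, hq₂⟩ := h2 (B ∩ pt (Cond.glue i' Cond.full q₁) i) f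
    (hB.inter (measurableSet_pt _ _)) (by
      intro x y hxy
      have h3 : (x ∈ B) = (y ∈ B) := hBd x y (hxy.mono h)
      have h4 := mem_pt_congr (Cond.glue i' Cond.full q₁) hxy
      show (x ∈ B ∧ _) = (y ∈ B ∧ _)
      rw [h3]
      exact propext (and_congr_right fun _ => h4)) hf (hfd.mono h) hN (by
      rintro x ⟨hxB, hx1⟩
      exact hq₁ x hxB ((hm x).1 hx1))
  refine ⟨Cond.glue i q₁ q₂, fun y hy hyq => ?_⟩
  refine hq₂ y ⟨hy, (hm y).2 fun a ha ha' => ?_⟩ fun a ha ha' => ?_
  · have := hyq a ha (ha'.trans_le h')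
    rwa [Cond.glue, Cond.mix_T_of_lt ha'] at this
  · have := hyq a (h.trans ha) ha'
    rwa [Cond.glue, Cond.mix_T_of_le ha] at this

/-! ### Measurable choices -/

/-- Composition of measurable choices. -/
theorem CM.comp {α β : Type*} {h : Pt K → α} (hh : CM h) {G : α → Pt K → β}
    (hG : ∀ c, CM (G c)) : CM (fun x => G (h x) x) := by
  refine ⟨(hh.1.biUnion (t := fun c _ => range (G c)) fun c _ => (hG c).1).mono ?_, fun d => ?_⟩
  · rintro _ ⟨x, rfl⟩
    exact mem_iUnion₂.2 ⟨h x, ⟨x, rfl⟩, x, rfl⟩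
  · exact hh.rel (R := fun c x => G c x = d) fun c => (hG c).2 d

section

variable (i : K)

/-- The condition with the stem at the coordinate `i` changed to `t` if `t` is a node. -/
noncomputable def rst (c : Cond K) (t : List ℕ) : Cond K :=
  c.upd i ((c.T i).restem t)
    (by
      classical
      intro x y hxy
      have h1 := c.nd_congr hxy t
      show (if (c.T i).nd x t then t else (c.T i).s x) = (if (c.T i).nd y t then t else (c.T i).s y)
      by_cases h : (c.T i).nd x t
      · rw [if_pos h, if_pos (h1.1 h)]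
      · rw [if_neg h, if_neg fun h' => h (h1.2 h'), c.ds i x y hxy])
    (c.dW i)

theorem rst_T_self (c : Cond K) (t : List ℕ) : (rst i c t).T i = (c.T i).restem t := by
  classical
  show Function.update c.T i _ i = _
  rw [Function.update_self]

theorem rst_T_of_ne (c : Cond K) (t : List ℕ) {a : K} (h : a ≠ i) : (rst i c t).T a = c.T a := by
  classical
  show Function.update c.T i _ a = _
  rw [Function.update_of_ne h]

theorem mem_pt_rst (c : Cond K) (t : List ℕ) {x : Pt K} :
    x ∈ pt (rst i c t) (i : WithTop K) ↔ x ∈ pt c (i : WithTop K) := by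
  refine forall₂_congr fun a ha => ?_
  rw [rst_T_of_ne i c t (WithTop.coe_lt_coe.1 ha).ne]

end

/-- The least index of a good condition. -/
noncomputable def idx (i : K) (cs : ℕ → Cond K) (P : Cond K → Cond K → Prop) (c : Cond K)
    (x : Pt K) : ℕ := sInf {k | P (cs k) c ∧ x ∈ pt (cs k) (i : WithTop K)}

theorem idx_cm (i : K) (cs : ℕ → Cond K) (P : Cond K → Cond K → Prop) (c : Cond K) :
    CM (idx i cs P c) :=
  CM.find fun k => (MeasurableSet.const (P (cs k) c)).inter (measurableSet_pt _ _)

theorem idx_det (i : K) (cs : ℕ → Cond K) (P : Cond K → Cond K → Prop) (c : Cond K) :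
    Det (i : WithTop K) (idx i cs P c) := by
  intro x y hxy
  unfold idx
  congr 1
  ext k
  exact and_congr_right fun _ => mem_pt_congr _ hxy

theorem idx_spec (i : K) (cs : ℕ → Cond K) (P : Cond K → Cond K → Prop) (c : Cond K) {x : Pt K}
    (h : ∃ k, P (cs k) c ∧ x ∈ pt (cs k) (i : WithTop K)) :
    P (cs (idx i cs P c x)) c ∧ x ∈ pt (cs (idx i cs P c x)) (i : WithTop K) :=
  Nat.sInf_mem (s := {k | P (cs k) c ∧ x ∈ pt (cs k) (i : WithTop K)}) h

/-! ### The family of conditions -/

/-- The conditions of the nodes. -/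
noncomputable def EE (i : K) (cs : ℕ → Cond K) (P : ℕ → Cond K → Cond K → Prop)
    (f : Pt K → Cond K) : List ℕ → Pt K → Cond K
  | [], x => cs (idx i cs (P 0) (f x) x)
  | m :: t, x => by
    classical
    exact
    cs (idx i cs (P (t.length + 1))
      (if ((f x).T i).s x = m :: t then f x else rst i (EE i cs P f t x) (m :: t)) x)

section

variable {i : K} {cs : ℕ → Cond K} {P : ℕ → Cond K → Cond K → Prop} {f : Pt K → Cond K}

theorem EE_nil (x : Pt K) : EE i cs P f [] x = cs (idx i cs (P 0) (f x) x) := rfl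

theorem EE_stem {t : List ℕ} {x : Pt K} (h : ((f x).T i).s x = t) :
    EE i cs P f t x = cs (idx i cs (P t.length) (f x) x) := by
  classical
  cases t with
  | nil => rfl
  | cons m t =>
    show cs (idx i cs (P (t.length + 1)) (if _ then _ else _) x) = _
    rw [if_pos h]
    rfl

theorem EE_cons {m : ℕ} {t : List ℕ} {x : Pt K} (h : ((f x).T i).s x ≠ m :: t) :
    EE i cs P f (m :: t) x =
      cs (idx i cs (P (t.length + 1)) (rst i (EE i cs P f t x) (m :: t)) x) := by
  classical
  show cs (idx i cs (P (t.length + 1)) (if _ then _ else _) x) = _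
  rw [if_neg h]

theorem measurableSet_stem (hf : CM f) (t : List ℕ) :
    MeasurableSet {x | ((f x).T i).s x = t} :=
  hf.rel (R := fun c x => (c.T i).s x = t) fun c => (c.T i).ms t

theorem det_stem (hfd : Det (i : WithTop K) f) {x y : Pt K} (hxy : Agr (i : WithTop K) x y) :
    ((f x).T i).s x = ((f y).T i).s y := by
  rw [hfd x y hxy]
  exact (f y).ds i x y hxy

theorem EE_cm (hf : CM f) : ∀ t, CM (EE i cs P f t)
  | [] => (CM.comp hf (G := fun c x => idx i cs (P 0) c x) fun c => idx_cm i cs _ c).map cs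
  | m :: t => by
    classical
    have h1 : CM (fun x => if ((f x).T i).s x = m :: t then f x
        else rst i (EE i cs P f t x) (m :: t)) :=
      CM.ite (measurableSet_stem hf _) hf ((EE_cm hf t).map fun c => rst i c (m :: t))
    exact (CM.comp h1 (G := fun c x => idx i cs (P (t.length + 1)) c x)
      fun c => idx_cm i cs _ c).map cs

theorem EE_det (hfd : Det (i : WithTop K) f) : ∀ t, Det (i : WithTop K) (EE i cs P f t)
  | [] => by
    intro x y hxy
    rw [EE_nil, EE_nil, hfd x y hxy, idx_det i cs (P 0) (f y) x y hxy]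
  | m :: t => by
    intro x y hxy
    by_cases h : ((f x).T i).s x = m :: t
    · rw [EE_stem h, EE_stem ((det_stem hfd hxy).symm.trans h), hfd x y hxy,
        idx_det i cs _ (f y) x y hxy]
    · rw [EE_cons h, EE_cons fun h' => h ((det_stem hfd hxy).trans h'), EE_det hfd t x y hxy,
        idx_det i cs _ _ x y hxy]

theorem EE_has {N : Set Obj} (hcs : ∀ k, Has N (cs k)) : ∀ t x, Has N (EE i cs P f t x)
  | [], _ => hcs _
  | _ :: _, _ => hcs _

/-- The tree of the conditions at the point `x`. -/
def EW (i : K) (E : List ℕ → Pt K → Cond K) (x : Pt K) (t : List ℕ) : Set ℕ := ((E t x).T i).W x t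

/-- The conditions of the nodes of the tree. -/
theorem EE_spec {N : Set Obj} (hcs : ∀ k, Has N (cs k))
    (hrst : ∀ c t, Has N c → Has N (rst i c t)) {x : Pt K}
    (hP : ∀ n e c, P n e c → Pure i e c)
    (hex : ∀ n c, Has N c → x ∈ pt c (i : WithTop K) →
      ∃ k, P n (cs k) c ∧ x ∈ pt (cs k) (i : WithTop K))
    (hfN : Has N (f x)) (hfx : x ∈ pt (f x) (i : WithTop K)) :
    ∀ t, nd (((f x).T i).s x) (EW i (EE i cs P f) x) t →
      x ∈ pt (EE i cs P f t x) (i : WithTop K) ∧ ((EE i cs P f t x).T i).s x = t ∧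
      (∃ c, P t.length (EE i cs P f t x) c) ∧
      (((f x).T i).s x = t → ((EE i cs P f t x).T i).Sub ((f x).T i) x) ∧
      ∀ m t', t = m :: t' → ((f x).T i).s x ≠ t →
        ((EE i cs P f t x).T i).Sub ((EE i cs P f t' x).T i) x := by
  intro t
  induction t with
  | nil =>
    intro h
    have hs : ((f x).T i).s x = [] := h
    obtain ⟨h1, h2⟩ := idx_spec i cs (P 0) (f x) (hex 0 _ hfN hfx)
    obtain ⟨h3, h4⟩ := hP _ _ _ h1 x h2
    refine ⟨h2, h3.trans hs, ⟨_, h1⟩, fun _ => h4, ?_⟩
    intro m t' h5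
    exact absurd h5 (by simp)
  | cons m t ih =>
    intro h
    by_cases hs : ((f x).T i).s x = m :: t
    · obtain ⟨h1, h2⟩ := idx_spec i cs (P (m :: t).length) (f x) (hex _ _ hfN hfx)
      obtain ⟨h3, h4⟩ := hP _ _ _ h1 x h2
      rw [EE_stem hs]
      exact ⟨h2, h3.trans hs, ⟨_, h1⟩, fun _ => h4, fun m' t' _ h5 => absurd hs h5⟩
    · rcases h with h | ⟨h, hm⟩
      · exact absurd h hs
      obtain ⟨i1, i2, -, -, -⟩ := ih h
      have hnd : ((EE i cs P f t x).T i).nd x (m :: t) := by
        have h5 : ((EE i cs P f t x).T i).nd x t := by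
          have := nd_self (((EE i cs P f t x).T i).s x) (((EE i cs P f t x).T i).W x)
          rw [i2] at this
          show nd _ _ t
          rw [i2]
          exact this
        exact nd_cons h5 hm
      have hN := hrst _ (m :: t) (EE_has (i := i) (P := P) (f := f) hcs t x)
      have hx : x ∈ pt (rst i (EE i cs P f t x) (m :: t)) (i : WithTop K) :=
        (mem_pt_rst i _ _).2 i1
      obtain ⟨h1, h2⟩ := idx_spec i cs (P (t.length + 1)) _ (hex _ _ hN hx)
      obtain ⟨h3, h4⟩ := hP _ _ _ h1 x h2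
      rw [rst_T_self] at h3 h4
      rw [EE_cons hs]
      refine ⟨h2, h3.trans (MT.restem_s _ hnd), ⟨_, h1⟩, fun h5 => absurd h5 hs, ?_⟩
      intro m' t' h5 _
      obtain ⟨rfl, rfl⟩ := List.cons.inj h5
      exact h4.trans (MT.restem_sub _ _ x)

end

/-! ### The theorem -/

/-- The simple form of the front lemma. -/
theorem frontD_of {i : K} {j : WithTop K} (h : ∀ D : Set (Cond K), DenseL j D → ∀ e : Cond K,
    ∃ e', pt e' (i : WithTop K) ⊆ pt e (i : WithTop K) ∧
      (∀ x ∈ pt e' (i : WithTop K), (e'.T i).s x = (e.T i).s x ∧ (e'.T i).Sub (e.T i) x) ∧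
      ∃ C : Set (Cond K), C.Countable ∧ C ⊆ D ∧ pt e' j ⊆ ⋃ c ∈ C, pt c j) : FrontD i j := by
  intro D hD c p hpc
  obtain ⟨e, h1, h2, h3⟩ := h D hD (Cond.glue (i : WithTop K) p c)
  refine ⟨e, fun x hx => (mem_pt_glue_of_le le_rfl).1 (h1 hx), fun x hx => ?_, h3⟩
  have h4 : (Cond.glue (i : WithTop K) p c).T i = MT.sel (fun _ => c.T i) (CM.const _) :=
    Cond.mix_T_of_le le_rfl
  have h5 := h2 x hx
  rw [h4] at h5
  exact h5

theorem exists_enum {N : Set Obj} (hN : N.Countable) {α : Type} {S : Set α}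
    (hS : ∀ u ∈ S, Has N u) (hne : S.Nonempty) : ∃ g : ℕ → α, range g = S := by
  have h1 : S.Countable := by
    have h2 : (fun u : α => (⟨α, u⟩ : Obj)) '' S ⊆ N := by
      rintro _ ⟨u, hu, rfl⟩
      exact hS u hu
    refine countable_of_injective_of_countable_image ?_ (hN.mono h2)
    intro u _ v _ huv
    simpa using huv
  obtain ⟨g, hg⟩ := h1.exists_eq_range hne
  exact ⟨g, hg.symm⟩

theorem genExt_suc {i : K} {j : WithTop K} (hj : ∀ b : K, (b : WithTop K) < j ↔ b ≤ i)
    (hdec : DecL (i : WithTop K)) (hF : FrontD i j) :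
    ∀ᶠ N in club, GenExt N (i : WithTop K) j := by
  let DD : Set (Cond K) → Cond K → Set (Cond K) := fun D c =>
    {e | (Pure i e c ∧ CovD j D e) ∨ Disjoint (pt e (i : WithTop K)) (pt c (i : WithTop K))}
  filter_upwards [club_countable, club_map₂ (rst i), club_type (List ℕ), club_map₂ DD,
    club_skolem₂ (fun (D : Set (Cond K)) (e : Cond K) (C : Set (Cond K)) =>
      C.Countable ∧ C ⊆ D ∧ pt e j ⊆ ⋃ c ∈ C, pt c j), club_of_mem (Cond K),
    club_const (Cond.full : Cond K), club_const (univ : Set (Cond K))] with N hNc hrst hlist hDD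
    hC hmem hfull huniv
  intro B f hB hBd hf hfd hN hx
  -- the enumerations
  obtain ⟨cs, hcs⟩ := exists_enum hNc (S := {c : Cond K | Has N c}) (fun _ h => h) ⟨_, hfull⟩
  obtain ⟨g, hg⟩ := exists_enum hNc (S := {D : Set (Cond K) | Has N D ∧ DenseL j D})
    (fun _ h => h.1) ⟨univ, huniv, fun p => ⟨p, mem_univ _, subset_rfl⟩⟩
  have hcsN : ∀ k, Has N (cs k) := fun k => by
    have : cs k ∈ range cs := ⟨k, rfl⟩
    rw [hcs] at this
    exact this
  have hgN : ∀ k, Has N (g k) ∧ DenseL j (g k) := fun k => by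
    have : g k ∈ range g := ⟨k, rfl⟩
    rw [hg] at this
    exact this
  let Ds : ℕ → Set (Cond K) := fun n => g (Nat.unpair n).1
  let P : ℕ → Cond K → Cond K → Prop := fun n e c => Pure i e c ∧ CovD j (Ds n) e
  have hex : ∀ x ∈ B, ∀ n c, Has N c → x ∈ pt c (i : WithTop K) →
      ∃ k, P n (cs k) c ∧ x ∈ pt (cs k) (i : WithTop K) := by
    intro x hxB n c hc hxc
    obtain ⟨e, he, heN, hxe⟩ := (hx x hxB).1 (DD (Ds n) c) (hDD _ _ (hgN _).1 hc) (by
      intro p
      obtain ⟨e, he, h1⟩ := hdec (pt c (i : WithTop K)) (measurableSet_pt _ _)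
        (fun x y hxy => propext (mem_pt_congr c hxy)) p
      rcases h1 with h1 | h1
      · obtain ⟨e', h2, h3, h4⟩ := hF (Ds n) (hgN _).2 c e h1
        exact ⟨e', Or.inl ⟨h3, h4⟩, h2.trans he⟩
      · exact ⟨e, Or.inr h1, he⟩)
    rcases he with he | he
    · have h5 : e ∈ range cs := by rw [hcs]; exact heN
      obtain ⟨k, rfl⟩ := h5
      exact ⟨k, he, hxe⟩
    · exact (disjoint_left.1 he hxe hxc).elim
  let E := EE i cs P f
  -- the new condition
  let T : MT K :=
    { s := fun x => ((f x).T i).s x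
      W := EW i E
      inf := fun x t => ((E t x).T i).inf x t
      ms := measurableSet_stem hf
      mW := fun t m => (EE_cm hf t).rel (R := fun c x => m ∈ (c.T i).W x t)
        fun c => (c.T i).mW t m }
  have hTs : Det (i : WithTop K) T.s := fun x y hxy => det_stem hfd hxy
  have hTW : Det (i : WithTop K) T.W := by
    intro x y hxy
    funext t
    show ((E t x).T i).W x t = ((E t y).T i).W y t
    rw [show E t x = E t y from EE_det hfd t x y hxy, (E t y).dW i x y hxy]
  refine ⟨Cond.full.upd i T hTs hTW, fun y hyB hyq => ?_⟩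
  have hii : (i : WithTop K) < j := (hj i).2 le_rfl
  have hz : y i ∈ br (((f y).T i).s y) (EW i E y) := by
    have h1 := hyq i le_rfl hii
    have h2 : (Cond.full.upd i T hTs hTW).T i = T := by
      classical
      show Function.update (Cond.full : Cond K).T i T i = _
      rw [Function.update_self]
    rwa [h2] at h1
  set s := ((f y).T i).s y with hs
  have hnd := mem_br_iff.1 hz
  have hspec := EE_spec (i := i) (P := P) (f := f) hcsN (fun c t hc => hrst c t hc (hlist t))
    (x := y) (fun n e c h => h.1) (hex y hyB) (hN y) (hx y hyB).2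
  -- inclusions of the trees
  have hsub : ∀ k, s.length ≤ k → ∀ l, k ≤ l →
      ((E (pre (y i) l) y).T i).Sub ((E (pre (y i) k) y).T i) y := by
    intro k hk l hl
    induction l, hl using Nat.le_induction with
    | base => exact Sub.refl _ _
    | succ l hl ih =>
      have h1 := (hspec _ (hnd (l + 1) (by omega))).2.2.2.2 (y i l) (pre (y i) l) rfl (by
        intro h
        have h' : s.length = (y i l :: pre (y i) l).length := congrArg List.length h
        rw [List.length_cons, length_pre] at h'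
        omega)
      exact h1.trans ih
  have hbr : ∀ k, s.length ≤ k → y i ∈ ((E (pre (y i) k) y).T i).br y := by
    intro k hk
    have h1 := (hspec _ (hnd k hk)).2.1
    refine mem_br_iff.2 fun l hl => ?_
    rw [h1, length_pre] at hl
    have h2 := (hspec _ (hnd l (hk.trans hl))).2.1
    have h3 := hsub k hk l hl (pre (y i) l)
    refine h3 ?_
    have h4 := nd_self (((E (pre (y i) l) y).T i).s y) (((E (pre (y i) l) y).T i).W y)
    have h5 : ((E (pre (y i) l) y).T i).s y = pre (y i) l := h2
    rw [h5] at h4 ⊢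
    exact h4
  have hpt : ∀ k, s.length ≤ k → y ∈ pt (E (pre (y i) k) y) j := by
    intro k hk a ha
    rcases ((hj a).1 ha).lt_or_eq with h | rfl
    · exact (hspec _ (hnd k hk)).1 a (WithTop.coe_lt_coe.2 h)
    · exact hbr k hk
  refine ⟨fun D hD hDd => ?_, fun a ha => ?_⟩
  · have h1 : D ∈ range g := by rw [hg]; exact ⟨hD, hDd⟩
    obtain ⟨a, rfl⟩ := h1
    have hk : s.length ≤ Nat.pair a s.length := Nat.right_le_pair _ _
    obtain ⟨c, -, hcov⟩ := (hspec _ (hnd _ hk)).2.2.1
    have h2 : Ds (pre (y i) (Nat.pair a s.length)).length = g a := by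
      show g (Nat.unpair _).1 = _
      rw [length_pre, Nat.unpair_pair]
    rw [h2] at hcov
    obtain ⟨C, hCN, hCc, hCD, hCcov⟩ := hC _ _ hD
      (EE_has (i := i) (P := P) (f := f) hcsN (pre (y i) (Nat.pair a s.length)) y) hcov
    obtain ⟨e, he, hye⟩ := mem_iUnion₂.1 (hCcov (hpt _ hk))
    exact ⟨e, hCD he, hmem C hCN hCc e he, hye⟩
  · rcases ((hj a).1 ha).lt_or_eq with h | rfl
    · exact (hx y hyB).2 a (WithTop.coe_lt_coe.2 h)
    · have h1 : pre (y a) s.length = s := hz.1
      have h2 := hbr s.length le_rfl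
      have h3 := (hspec s (by have := hnd s.length le_rfl; rwa [h1] at this)).2.2.2.1 rfl
      rw [h1] at h2
      exact (sub_iff_br (((E s y).T a).inf y)).1 h3 h2

end Pool.Agent.GPA
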