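import Pool.Agent.GPA.Tool
import Pool.Agent.GPA.Dec
import Pool.Agent.GPA.Suc
import Pool.Agent.GPA.Lim
import Pool.Agent.GPA.LavSys

/-!
# The induction on the levels, and the family of the sets of points
-/

open Set Filter

namespace Pool.Agent.GPA

variable {K : Type} [LinearOrder K]

/-! ### The points which satisfy a condition at the coordinates from `i` to `j` -/

/-- The set of the points which satisfy `q` at the coordinates from `i` to `j`. -/
def ptI (q : Cond K) (i j : WithTop K) : Set (Pt K) :=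
  {x | ∀ a : K, i ≤ (a : WithTop K) → (a : WithTop K) < j → x a ∈ (q.T a).br x}

theorem pt_full (j : WithTop K) : pt (Cond.full : Cond K) j = univ := by
  refine eq_univ_of_forall fun x a _ => ?_
  show x a ∈ (MT.full : MT K).br x
  rw [br_full]
  exact mem_univ _

theorem ptI_eq (q : Cond K) {i j : WithTop K} (hij : i ≤ j) :
    ptI q i j = pt (Cond.glue i Cond.full q) j := by
  ext x
  rw [mem_pt_glue hij, pt_full]
  exact ⟨fun h => ⟨mem_univ _, h⟩, fun h => h.2⟩

theorem measurableSet_ptI (q : Cond K) {i j : WithTop K} (hij : i ≤ j) :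
    MeasurableSet (ptI q i j) := by
  rw [ptI_eq q hij]
  exact measurableSet_pt _ _

theorem det_ptI (q : Cond K) {i j : WithTop K} (hij : i ≤ j) : Det j (fun x => x ∈ ptI q i j) := by
  rw [ptI_eq q hij]
  exact det_pt _ _

/-! ### The induction -/

/-- The statement proved by induction on the level `j`. -/
def Good (j : WithTop K) : Prop :=
  (∀ i ≤ j, ∀ᶠ N in club, GenExt (K := K) N i j) ∧ DecL (K := K) j ∧ SigL (K := K) j ∧ CovL (K := K) j

theorem good_all [WellFoundedLT K]
    (front : ∀ {i : K} {j : WithTop K}, (∀ b : K, (b : WithTop K) < j ↔ b ≤ i) →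
      DecL (K := K) i → SigL (K := K) i → CovL (K := K) i → FrontD i j) (j : WithTop K) :
    Good j := by
  induction j using WellFoundedLT.induction with
  | ind j ih =>
    have hex : ∃ i₀ : WithTop K, i₀ ≤ j ∧ ∀ a : K, ¬ (a : WithTop K) < i₀ := by
      obtain ⟨m, -, hm⟩ := (wellFounded_lt (α := WithTop K)).has_min univ ⟨⊤, mem_univ _⟩
      exact ⟨m, not_lt.1 (hm j (mem_univ _)), fun a => hm a (mem_univ _)⟩
    have hmain : ∀ i ≤ j, ∀ᶠ N in club, GenExt (K := K) N i j := by
      intro i hij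
      rcases hij.eq_or_lt with rfl | hij
      · exact Eventually.of_forall fun N => genExt_self N i
      by_cases hs : ∃ i₀ : K, (i₀ : WithTop K) < j ∧ ∀ b : K, (b : WithTop K) < j → b ≤ i₀
      · obtain ⟨i₀, h1, h2⟩ := hs
        have hj : ∀ b : K, (b : WithTop K) < j ↔ b ≤ i₀ := fun b =>
          ⟨h2 b, fun h => (WithTop.coe_le_coe.2 h).trans_lt h1⟩
        have hi : i ≤ i₀ := by
          induction i using WithTop.recTopCoe with
          | top => exact absurd hij (not_lt.2 le_top)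
          | coe i => exact WithTop.coe_le_coe.2 (h2 i hij)
        obtain ⟨g1, g2, g3, g4⟩ := ih i₀ h1
        filter_upwards [g1 i hi, genExt_suc hj g2 (front hj g2 g3 g4)] with N e1 e2
        exact e1.trans hi h1.le e2
      · push Not at hs
        exact genExt_limit (fun a ha => (hs a ha).imp fun b hb => ⟨hb.2, hb.1⟩) hij
          (fun k _ hk => (ih k hk).2.1) fun a b _ hab hb => (ih b hb).1 a (WithTop.coe_le_coe.2 hab)
    obtain ⟨i₀, h1, h2⟩ := hex
    have hc : CovL (K := K) j := covL_of_gen h2 (hmain i₀ h1)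
    have hdec : ∀ a : K, (a : WithTop K) < j → DecL (K := K) (a : WithTop K) :=
      fun a ha => (ih a ha).2.1
    exact ⟨hmain, decL_of_covL hdec hc, sigL_of_covL hdec hc, hc⟩

/-! ### The family of the sets of points -/

/-- The sets of points of the conditions. -/
def PP (K : Type) [LinearOrder K] : Set (Set (XS K)) := {A | ∃ p : Cond K, pt p ⊤ = A}

theorem det_top {α : Type*} (f : Pt K → α) : Det ⊤ f := fun _ _ h =>
  congrArg f (funext fun a => h a (WithTop.coe_lt_top a))

theorem ppos_PP [WellFoundedLT K] (hC : CovL (K := K) ⊤) (hS : SigL (K := K) ⊤) : PPos (PP K) where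
  meas := by
    rintro _ ⟨p, rfl⟩
    exact measurableSet_pt p ⊤
  ne := by
    rintro _ ⟨p, rfl⟩
    exact pt_nonempty p ⊤
  univ := ⟨Cond.full, pt_full ⊤⟩
  cover := by
    rintro D hD hd _ ⟨p, rfl⟩
    obtain ⟨e, he, C, hC'⟩ := hC (fun n => {c | pt c ⊤ ∈ D n}) (fun n q => by
      obtain ⟨B, hB, hBq⟩ := hd n (pt q ⊤) ⟨q, rfl⟩
      obtain ⟨c, rfl⟩ := hD n hB
      exact ⟨c, hB, hBq⟩) p
    refine ⟨pt e ⊤, ⟨e, rfl⟩, he, fun n => (fun c => pt c ⊤) '' C n, fun n => ?_⟩
    obtain ⟨h1, h2, h3⟩ := hC' n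
    refine ⟨h1.image _, ?_, ?_⟩
    · rintro _ ⟨c, hc, rfl⟩
      exact h2 hc
    · intro x hx
      obtain ⟨c, hc, hxc⟩ := mem_iUnion₂.1 (h3 hx)
      exact ⟨pt c ⊤, ⟨c, hc, rfl⟩, hxc⟩
  dec := by
    rintro _ ⟨p, rfl⟩ E hE hpE
    obtain ⟨n, e, h1, h2⟩ := hS E hE (fun n => det_top _) p hpE
    exact ⟨n, pt e ⊤, ⟨e, rfl⟩, h1, h2⟩

end Pool.Agent.GPA
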