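import Mathlib

/-!
# The interface between the combinatorial core and the model part

A `Frame` is a partial order `Q` of conditions together with a measurable space `Z` of generic
points; `Forces q E` means that `q` forces that the generic point belongs to the measurable set `E`.
Names of reals are measurable functions on `Z`.
-/

open Cardinal

namespace Pool.Agent.GPA

/-- `u` codes a sequence of open subsets of `2^ω`, the `n`-th of measure at most `2⁻ⁿ`: at most
`2^(m - n)` of the sequences of length `m` have an initial segment `s` with `u n s = true`. -/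
def IsNullCode (u : ℕ → List Bool → Bool) : Prop :=
  ∀ n m : ℕ, {t : List.Vector Bool m | ∃ s : List Bool, u n s = true ∧ s <+: t.1}.ncard * 2 ^ n
    ≤ 2 ^ m

/-- The initial segment of length `m` of `y`. -/
def ini (y : ℕ → Bool) (m : ℕ) : List Bool := List.ofFn fun i : Fin m => y i

/-- The null set coded by `u`. -/
def NullOf (u : ℕ → List Bool → Bool) : Set (ℕ → Bool) :=
  {y | ∀ n, ∃ m, u n (ini y m) = true}

/-- A forcing notion with measurable names of reals. -/
structure Frame where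
  Z : Type
  mZ : MeasurableSpace Z
  Q : Type
  pQ : PartialOrder Q
  tQ : OrderTop Q
  Forces : Q → Set Z → Prop
  /-- monotone in the condition -/
  mono : ∀ {q r E}, r ≤ q → Forces q E → Forces r E
  /-- monotone in the set -/
  mono' : ∀ {q E E'}, E ⊆ E' → Forces q E → Forces q E'
  univ : ∀ q, Forces q Set.univ
  empty : ∀ q, ¬ Forces q ∅
  /-- countable intersections -/
  inter : ∀ {q} {E : ℕ → Set Z}, (∀ n, Forces q (E n)) → Forces q (⋂ n, E n)
  /-- local -/
  dense : ∀ {q E}, (∀ r ≤ q, ∃ s ≤ r, Forces s E) → Forces q E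
  /-- every measurable set is decided -/
  dec : ∀ {E}, @MeasurableSet Z mZ E → ∀ q, ∃ r ≤ q, Forces r E ∨ Forces r Eᶜ
  /-- countable unions -/
  union : ∀ {q} {E : ℕ → Set Z}, (∀ n, @MeasurableSet Z mZ (E n)) → Forces q (⋃ n, E n) →
    ∃ r ≤ q, ∃ n, Forces r (E n)
  /-- reading of reals -/
  read : ∀ (S : ℕ → ℕ → Set Q) (q₀ : Q), (∀ n i, IsLowerSet (S n i)) →
    (∀ n i j, i ≠ j → ∀ s ∈ S n i, ∀ t ∈ S n j, ∀ r, r ≤ s → ¬ r ≤ t) →
    (∀ n, ∀ q ≤ q₀, ∃ r ≤ q, ∃ i, r ∈ S n i) →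
    ∀ q ≤ q₀, ∃ r ≤ q, ∃ F : Z → ℕ → ℕ, (@Measurable _ _ mZ _ F) ∧
      ∀ s ≤ r, ∀ n i, s ∈ S n i → Forces s {z | F z n = i}
  κ : Cardinal.{0}
  regular : κ.IsRegular
  aleph0_lt : ℵ₀ < κ
  /-- the chain condition -/
  cc : ∀ A : Set Q, (∀ p ∈ A, ∀ q ∈ A, p ≠ q → ∀ r, r ≤ p → ¬ r ≤ q) → #A < κ
  Lam : Type
  mk_Lam : #Lam = Order.succ (Order.succ κ)
  real : Lam → Z → ℕ → Bool
  real_meas : ∀ i, @Measurable _ _ mZ _ (real i)
  real_ne : ∀ i j, i ≠ j → Forces tQ.top {z | real i z ≠ real j z}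
  /-- `GP(all)` for the Cantor space, in terms of names: `R q F G` means that `q` forces that
  `F` belongs to the section `A_G`. -/
  core : ∀ (R : Q → (Z → ℕ → Bool) → (Z → ℕ → ℕ) → Prop) (p₀ : Q),
    -- `R` is downward closed and local
    (∀ q r F G, r ≤ q → R q F G → R r F G) →
    (∀ q F G, q ≤ p₀ → (∀ r ≤ q, ∃ s ≤ r, R s F G) → R q F G) →
    -- extensional in `F`
    (∀ q F F' G, q ≤ p₀ → (@Measurable _ _ mZ _ F) → (@Measurable _ _ mZ _ F') →
      (@Measurable _ _ mZ _ G) → Forces q {z | F z = F' z} → R q F G → R q F' G) →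
    -- monotone in `G`
    (∀ q F (G G' : Z → ℕ → ℕ), q ≤ p₀ → (@Measurable _ _ mZ _ F) → (@Measurable _ _ mZ _ G) →
      (@Measurable _ _ mZ _ G') → Forces q {z | ∀ n, G z n ≤ G' z n} → R q F G → R q F G') →
    -- all sections are null
    (∀ q G, q ≤ p₀ → (@Measurable _ _ mZ _ G) → ∃ r ≤ q, ∃ c : Z → ℕ → List Bool → Bool,
      (@Measurable _ _ mZ _ c) ∧ (∀ z, IsNullCode (c z)) ∧ ∀ s ≤ r, ∀ F, (@Measurable _ _ mZ _ F) →
        R s F G → Forces s {z | F z ∈ NullOf (c z)}) →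
    -- the union is not null
    (∀ q ≤ p₀, ∀ c : Z → ℕ → List Bool → Bool, (@Measurable _ _ mZ _ c) →
      (∀ z, IsNullCode (c z)) → ∃ r ≤ q, ∃ F G, (@Measurable _ _ mZ _ F) ∧
        (@Measurable _ _ mZ _ G) ∧ R r F G ∧ Forces r {z | F z ∉ NullOf (c z)}) →
    False

end Pool.Agent.GPA
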