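import Pool.Agent.GPA.Coin
import Pool.Agent.GPA.Frame

/-!
# Measurable families of open covers
-/

open MeasureTheory Set
open scoped ENNReal

namespace Pool.Agent.GPA

/-- `B` depends on finitely many coordinates. -/
def IsCyl {I : Type*} (B : Set (I → Bool)) : Prop :=
  ∃ s : Finset I, ∀ x y : I → Bool, (∀ i ∈ s, x i = y i) → (x ∈ B ↔ y ∈ B)

theorem IsCyl.measurableSet {I : Type*} {B : Set (I → Bool)} (h : IsCyl B) : MeasurableSet B := by
  classical
  obtain ⟨s, hs⟩ := h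
  let g : (s → Bool) → I → Bool := fun t i => if h : i ∈ s then t ⟨i, h⟩ else false
  have h1 : B = s.restrict ⁻¹' {t | g t ∈ B} := by
    ext x
    refine hs _ _ fun i hi => ?_
    simp [g, hi]
  rw [h1]
  exact (Finset.measurable_restrict s) (MeasurableSet.of_discrete)

theorem IsCyl.compl {I : Type*} {B : Set (I → Bool)} (h : IsCyl B) : IsCyl Bᶜ := by
  obtain ⟨s, hs⟩ := h
  exact ⟨s, fun x y hxy => not_congr (hs x y hxy)⟩

theorem IsCyl.inter {I : Type*} {B B' : Set (I → Bool)} (h : IsCyl B) (h' : IsCyl B') :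
    IsCyl (B ∩ B') := by
  classical
  obtain ⟨s, hs⟩ := h
  obtain ⟨t, ht⟩ := h'
  exact ⟨s ∪ t, fun x y hxy => and_congr
    (hs x y fun i hi => hxy i (Finset.mem_union_left _ hi))
    (ht x y fun i hi => hxy i (Finset.mem_union_right _ hi))⟩

theorem IsCyl.union {I : Type*} {B B' : Set (I → Bool)} (h : IsCyl B) (h' : IsCyl B') :
    IsCyl (B ∪ B') := by
  have := (h.compl.inter h'.compl).compl
  rwa [← compl_union, compl_compl] at this

theorem isCyl_univ {I : Type*} : IsCyl (univ : Set (I → Bool)) := ⟨∅, fun _ _ _ => Iff.rfl⟩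

theorem isCyl_empty {I : Type*} : IsCyl (∅ : Set (I → Bool)) := ⟨∅, fun _ _ _ => Iff.rfl⟩

theorem isCyl_coord {I : Type*} (i : I) (s : Set Bool) : IsCyl {x : I → Bool | x i ∈ s} :=
  ⟨{i}, fun x y h => by simp [h i (by simp)]⟩

section

variable {Z : Type*} [MeasurableSpace Z] {I : Type*}

/-- `U` is a measurable family of open sets: a countable union of products of a measurable set and
a set which depends on finitely many coordinates. -/
def IsOpenFam (U : Set (Z × (I → Bool))) : Prop :=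
  ∃ S : Set (Set Z × Set (I → Bool)), S.Countable ∧
    (∀ p ∈ S, MeasurableSet p.1 ∧ IsCyl p.2) ∧ U = ⋃ p ∈ S, p.1 ×ˢ p.2

theorem IsOpenFam.measurableSet {U : Set (Z × (I → Bool))} (h : IsOpenFam U) :
    MeasurableSet U := by
  obtain ⟨S, hS, hp, rfl⟩ := h
  exact MeasurableSet.biUnion hS fun p h => (hp p h).1.prod (hp p h).2.measurableSet

theorem isOpenFam_prod {A : Set Z} {B : Set (I → Bool)} (hA : MeasurableSet A) (hB : IsCyl B) :
    IsOpenFam (A ×ˢ B) :=
  ⟨{(A, B)}, countable_singleton _, by simp [hA, hB], by simp⟩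

theorem IsOpenFam.iUnion {ι : Type*} [Countable ι] {U : ι → Set (Z × (I → Bool))}
    (h : ∀ i, IsOpenFam (U i)) : IsOpenFam (⋃ i, U i) := by
  choose S hS hp hU using h
  refine ⟨⋃ i, S i, countable_iUnion hS, fun p h => ?_, ?_⟩
  · obtain ⟨i, hi⟩ := mem_iUnion.1 h
    exact hp i p hi
  · ext z
    simp only [mem_iUnion, hU]
    constructor
    · rintro ⟨i, p, hpi, hz⟩
      exact ⟨p, ⟨i, hpi⟩, hz⟩
    · rintro ⟨p, ⟨i, hpi⟩, hz⟩
      exact ⟨i, p, hpi, hz⟩

theorem IsOpenFam.inter {U V : Set (Z × (I → Bool))} (hU : IsOpenFam U) (hV : IsOpenFam V) :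
    IsOpenFam (U ∩ V) := by
  obtain ⟨S, hS, hp, rfl⟩ := hU
  obtain ⟨T, hT, hq, rfl⟩ := hV
  refine ⟨image2 (fun p q => (p.1 ∩ q.1, p.2 ∩ q.2)) S T, hS.image2 hT _, ?_, ?_⟩
  · rintro _ ⟨p, hpS, q, hqT, rfl⟩
    exact ⟨(hp p hpS).1.inter (hq q hqT).1, (hp p hpS).2.inter (hq q hqT).2⟩
  · ext z
    simp only [mem_inter_iff, mem_iUnion, mem_prod, mem_image2]
    constructor
    · rintro ⟨⟨p, hp', h1, h2⟩, ⟨q, hq', h3, h4⟩⟩
      exact ⟨_, ⟨p, hp', q, hq', rfl⟩, ⟨h1, h3⟩, ⟨h2, h4⟩⟩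
    · rintro ⟨_, ⟨p, hp', q, hq', rfl⟩, ⟨h1, h3⟩, ⟨h2, h4⟩⟩
      exact ⟨⟨p, hp', h1, h2⟩, ⟨q, hq', h3, h4⟩⟩

theorem IsOpenFam.biInter {U : ℕ → Set (Z × (I → Bool))} (h : ∀ i, IsOpenFam (U i)) (N : ℕ) :
    IsOpenFam (⋂ i ∈ Finset.range N, U i) := by
  induction N with
  | zero =>
    simp only [Finset.range_zero, Finset.notMem_empty, iInter_of_empty, iInter_univ]
    rw [← univ_prod_univ]
    exact isOpenFam_prod MeasurableSet.univ isCyl_univ
  | succ N ih =>
    rw [Finset.range_add_one]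
    simp only [Finset.mem_insert, iInter_iInter_eq_or_left]
    exact (h N).inter ih

/-- `W` is between a family of closed sets and a family of open sets which differ little. -/
def Reg (W : Set (Z × (I → Bool))) : Prop :=
  MeasurableSet W ∧ ∀ ε : ℝ≥0∞, ε ≠ 0 → ∃ U V, IsOpenFam U ∧ IsOpenFam V ∧ W ⊆ U ∧ Wᶜ ⊆ V ∧
    ∀ z, coin I (Prod.mk z ⁻¹' (U ∩ V)) ≤ ε

theorem Reg.compl {W : Set (Z × (I → Bool))} (h : Reg W) : Reg Wᶜ := by
  refine ⟨h.1.compl, fun ε hε => ?_⟩
  obtain ⟨U, V, hU, hV, h1, h2, h3⟩ := h.2 ε hε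
  exact ⟨V, U, hV, hU, h2, by rwa [compl_compl], fun z => by rw [inter_comm]; exact h3 z⟩

theorem reg_prod {A : Set Z} {B : Set (I → Bool)} (hA : MeasurableSet A) (hB : IsCyl B) :
    Reg (A ×ˢ B) := by
  refine ⟨hA.prod hB.measurableSet, fun ε _ => ⟨A ×ˢ B, (Aᶜ ×ˢ univ) ∪ (univ ×ˢ Bᶜ),
    isOpenFam_prod hA hB, ?_, Subset.rfl, ?_, fun z => ?_⟩⟩
  · have := IsOpenFam.iUnion (U := fun b : Bool => cond b (Aᶜ ×ˢ univ) (univ ×ˢ Bᶜ))
      (by
        rintro (_ | _)
        · exact isOpenFam_prod MeasurableSet.univ hB.compl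
        · exact isOpenFam_prod hA.compl isCyl_univ)
    rwa [← union_eq_iUnion] at this
  · rintro ⟨a, b⟩ h
    simp only [mem_compl_iff, mem_prod, not_and_or] at h
    rcases h with h | h
    · exact Or.inl ⟨h, trivial⟩
    · exact Or.inr ⟨trivial, h⟩
  · have : Prod.mk z ⁻¹' (A ×ˢ B ∩ (Aᶜ ×ˢ univ ∪ univ ×ˢ Bᶜ)) = ∅ := by
      ext x
      simp only [mem_preimage, mem_inter_iff, mem_prod, mem_union, mem_compl_iff, mem_univ,
        and_true, true_and, mem_empty_iff_false, iff_false]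
      tauto
    rw [this]; simp

theorem Reg.iUnion {W : ℕ → Set (Z × (I → Bool))} (h : ∀ n, Reg (W n)) : Reg (⋃ n, W n) := by
  classical
  refine ⟨MeasurableSet.iUnion fun n => (h n).1, fun ε hε => ?_⟩
  obtain ⟨δ, hδ, hδs⟩ := ENNReal.exists_pos_sum_of_countable' (ENNReal.half_pos hε).ne' ℕ
  choose U V hU hV h1 h2 h3 using fun n => (h n).2 (δ n) (hδ n).ne'
  have hUm : ∀ n, MeasurableSet (U n) := fun n => (hU n).measurableSet
  -- the rest of the union
  let Rs : ℕ → Set (Z × (I → Bool)) := fun N => (⋃ n, U n) \ ⋃ n ∈ Finset.range N, U n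
  have hRm : ∀ N, MeasurableSet (Rs N) := fun N =>
    (MeasurableSet.iUnion hUm).diff (Finset.measurableSet_biUnion _ fun n _ => hUm n)
  have hRz : ∀ N, Measurable fun z => coin I (Prod.mk z ⁻¹' Rs N) := fun N =>
    measurable_measure_prodMk_left (hRm N)
  have hlim : ∀ z, ∃ N, coin I (Prod.mk z ⁻¹' Rs N) ≤ ε / 2 := by
    intro z
    have h4 : Filter.Tendsto (fun N => coin I (Prod.mk z ⁻¹' Rs N)) Filter.atTop
        (nhds (coin I (⋂ N, Prod.mk z ⁻¹' Rs N))) := by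
      refine tendsto_measure_iInter_atTop
        (fun N => (measurable_prodMk_left (hRm N)).nullMeasurableSet) ?_ ⟨0, measure_ne_top _ _⟩
      intro N M hNM x hx
      refine ⟨hx.1, fun hx' => hx.2 ?_⟩
      simp only [Finset.mem_range, mem_iUnion] at hx' ⊢
      obtain ⟨n, hn, hn'⟩ := hx'
      exact ⟨n, lt_of_lt_of_le hn hNM, hn'⟩
    have h5 : (⋂ N, Prod.mk z ⁻¹' Rs N) = ∅ := by
      ext x
      simp only [mem_iInter, mem_empty_iff_false, iff_false, not_forall]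
      by_cases hx : (z, x) ∈ ⋃ n, U n
      · obtain ⟨n, hn⟩ := mem_iUnion.1 hx
        refine ⟨n + 1, fun h6 => h6.2 ?_⟩
        simp only [Finset.mem_range, mem_iUnion]
        exact ⟨n, Nat.lt_succ_self n, hn⟩
      · exact ⟨0, fun h6 => hx h6.1⟩
    rw [h5, measure_empty] at h4
    have h6 := (h4.eventually (ge_mem_nhds (ENNReal.half_pos hε))).exists
    exact h6
  let Nz : Z → ℕ := fun z => Nat.find (hlim z)
  have hNz : ∀ z, coin I (Prod.mk z ⁻¹' Rs (Nz z)) ≤ ε / 2 := fun z => Nat.find_spec (hlim z)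
  have hNm : ∀ N, MeasurableSet {z | Nz z = N} := by
    have : Measurable Nz := measurable_find hlim fun N => measurableSet_le (hRz N) measurable_const
    exact fun N => this (measurableSet_singleton N)
  let Vs : ℕ → Set (Z × (I → Bool)) := fun N =>
    ({z | Nz z = N} ×ˢ univ) ∩ ⋂ n ∈ Finset.range N, V n
  refine ⟨⋃ n, U n, ⋃ N, Vs N, IsOpenFam.iUnion hU, IsOpenFam.iUnion fun N =>
    (isOpenFam_prod (hNm N) isCyl_univ).inter (IsOpenFam.biInter hV N),
    iUnion_mono h1, ?_, fun z => ?_⟩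
  · rintro ⟨z, x⟩ hx
    refine mem_iUnion.2 ⟨Nz z, ⟨rfl, trivial⟩, ?_⟩
    simp only [mem_iInter]
    exact fun n _ => h2 n fun hn => hx (mem_iUnion.2 ⟨n, hn⟩)
  · have hsub : Prod.mk z ⁻¹' ((⋃ n, U n) ∩ ⋃ N, Vs N) ⊆
        (⋃ n, Prod.mk z ⁻¹' (U n ∩ V n)) ∪ Prod.mk z ⁻¹' Rs (Nz z) := by
      rintro x ⟨hx1, hx2⟩
      obtain ⟨N, ⟨hN, -⟩, hx3⟩ := mem_iUnion.1 hx2
      change Nz z = N at hN
      subst hN
      by_cases h7 : ∃ n ∈ Finset.range (Nz z), (z, x) ∈ U n
      · obtain ⟨n, hn, hn'⟩ := h7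
        refine Or.inl (mem_iUnion.2 ⟨n, hn', ?_⟩)
        simp only [mem_iInter] at hx3
        exact hx3 n hn
      · refine Or.inr ⟨hx1, fun h8 => h7 ?_⟩
        simp only [mem_iUnion] at h8
        obtain ⟨n, hn, hn'⟩ := h8
        exact ⟨n, hn, hn'⟩
    calc coin I (Prod.mk z ⁻¹' ((⋃ n, U n) ∩ ⋃ N, Vs N))
        ≤ coin I (⋃ n, Prod.mk z ⁻¹' (U n ∩ V n)) + coin I (Prod.mk z ⁻¹' Rs (Nz z)) :=
          (measure_mono hsub).trans (measure_union_le _ _)
      _ ≤ (∑' n, δ n) + ε / 2 := add_le_add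
          ((measure_iUnion_le _).trans (ENNReal.tsum_le_tsum fun n => h3 n z)) (hNz z)
      _ ≤ ε / 2 + ε / 2 := by gcongr
      _ = ε := ENNReal.add_halves ε

/-- Every measurable set is regular. -/
theorem reg_of_measurableSet {W : Set (Z × (I → Bool))} (hW : MeasurableSet W) : Reg W := by
  let m : MeasurableSpace (Z × (I → Bool)) :=
    { MeasurableSet' := Reg
      measurableSet_empty := by
        have := reg_prod (Z := Z) (I := I) (MeasurableSet.empty) isCyl_univ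
        rwa [empty_prod] at this
      measurableSet_compl := fun _ h => h.compl
      measurableSet_iUnion := fun _ h => Reg.iUnion h }
  have hle : (Prod.instMeasurableSpace : MeasurableSpace (Z × (I → Bool))) ≤ m := by
    refine sup_le ?_ ?_
    · rintro _ ⟨A, hA, rfl⟩
      have := reg_prod hA (isCyl_univ (I := I))
      rwa [prod_univ] at this
    · have h1 : @Measurable _ _ m MeasurableSpace.pi (Prod.snd : Z × (I → Bool) → I → Bool) := by
        refine @measurable_pi_lambda _ _ _ m _ _ fun i => ?_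
        intro s _
        have := reg_prod (MeasurableSet.univ (α := Z)) (isCyl_coord i s)
        rwa [univ_prod] at this
      exact h1.comap_le
  exact hle W hW

/-- A measurable set with small sections is covered by a measurable family of open sets which are
almost as small. -/
theorem exists_openFam {W : Set (Z × (I → Bool))} (hW : MeasurableSet W) {ε : ℝ≥0∞}
    (hε : ε ≠ 0) : ∃ U, IsOpenFam U ∧ W ⊆ U ∧ ∀ z, coin I (Prod.mk z ⁻¹' (U \ W)) ≤ ε := by
  obtain ⟨U, V, hU, hV, h1, h2, h3⟩ := (reg_of_measurableSet hW).2 ε hε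
  refine ⟨U, hU, h1, fun z => le_trans (measure_mono ?_) (h3 z)⟩
  exact fun x hx => ⟨hx.1, h2 hx.2⟩

end

end Pool.Agent.GPA
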