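import Pool.Agent.GPA.FrontDefs
import Pool.Agent.GPA.PFin
import Pool.Agent.GPA.Reg
import Pool.Agent.GPA.Dens
import Pool.Agent.GPA.Dec
import Pool.Agent.GPA.ExtI

/-!
# Block X: the definitions

A null set of the level `j` is given by a code: a sequence of finite unions of cylinders `c y n`,
`n ∈ ℕ`, depending measurably on the coordinates of the point `y` below `j`, of measure at most
`a 4⁻ⁿ`. `EXT N i j` is the extension theorem for null sets: from points of the level `i` which are
generic over `N` to points of the level `j`.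
-/

open MeasureTheory Set Filter Topology
open scoped ENNReal

namespace Pool.Agent.GPA

variable {K : Type} [LinearOrder K]

/-- The theorem of block P. -/
structure BlockP (K : Type) [LinearOrder K] : Prop where
  dec : ∀ j : WithTop K, DecL j
  sig : ∀ j : WithTop K, SigL j
  cov : ∀ j : WithTop K, CovL j
  gen : ∀ i j : WithTop K, i ≤ j → ∀ᶠ N in club, GenExt (K := K) N i j

/-! ### Codes and null names -/

/-- `c` is a sequence of finite unions of cylinders, depending measurably on the coordinates below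
`j`, and the measure of the `n`-th term is at most `a 4 ^ -(k + n)`. -/
structure IsCode (j : WithTop K) (a k : ℕ) (c : Pt K → ℕ → Set (YS ℕ)) : Prop where
  cm : ∀ n, CM fun y => c y n
  det : Det j c
  cyl : ∀ y n, IsCyl (c y n)
  le : ∀ y n, coin ℕ (c y n) ≤ a * 4⁻¹ ^ (k + n)

/-- `W` is a measurable family of null sets depending on the coordinates below `j`. -/
structure NullName (j : WithTop K) (W : Set (Pt K × YS ℕ)) : Prop where
  meas : MeasurableSet W
  det : Det j fun x => sec W x
  null : ∀ x, coin ℕ (sec W x) = 0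

/-- `π` is a measurable family of measures of total mass at most `1` depending on the coordinates
below `i`. -/
structure Ker (i : WithTop K) (π : Pt K → Measure (YS ℕ)) : Prop where
  meas : ∀ s, MeasurableSet s → Measurable fun x => π x s
  det : Det i π
  le : ∀ x, π x univ ≤ 1

/-- The null sets of `N` at the level `i` are null for `π x`. -/
def Kills (N : Set Obj) (i : WithTop K) (π : Pt K → Measure (YS ℕ)) (x : Pt K) : Prop :=
  ∀ W : Set (Pt K × YS ℕ), Has N W → NullName i W → π x (sec W x) = 0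

/-! ### The extension theorem -/

/-- A sequence of conditions `p k`, a sequence of codes `c k` and a number `a`. -/
abbrev Task (K : Type) [LinearOrder K] : Type :=
  (ℕ → Cond K) × (ℕ → Pt K → ℕ → Set (YS ℕ)) × ℕ

/-- `u = (p, c, a)` is a task of the level `j`: the measure of `c k y n` is at most
`a 4 ^ -(k + n)`. -/
def IsTask (j : WithTop K) (u : Task K) : Prop := ∀ k, IsCode j u.2.2 k (u.2.1 k)

/-- **The extension theorem.** If the point `y` of the level `i` is generic over `N` and satisfies
all conditions `p k` of the task up to `i`, and `π y` kills all null sets of `N` of the level `i`,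
then, along the trees of `q` from `i` to `j`, it is generic at the level `j`, satisfies `p (k y)` up
to `j`, and `π y` kills all null sets of `N` of the level `j` and gives mass at most `δ` to the open
set coded by `c (k y)`. -/
def EXT (N : Set Obj) (i j : WithTop K) : Prop :=
  ∀ u : Task K, Has N u → IsTask j u → ∀ π : Pt K → Measure (YS ℕ), Ker i π →
    ∀ δ : ℝ≥0∞, δ ≠ 0 → ∃ (k : Pt K → ℕ) (q : Cond K), CM k ∧ Det i k ∧
      ∀ y, (∀ m, y ∈ pt (u.1 m) i) → Gen N i y → Kills N i π y → y ∈ ptI q i j →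
        Gen N j y ∧ Kills N j π y ∧ y ∈ pt (u.1 (k y)) j ∧ π y (⋃ n, u.2.1 (k y) y n) ≤ δ

/-- The same for a measurable choice of tasks. -/
def EXTF (N : Set Obj) (i j : WithTop K) : Prop :=
  ∀ F : Pt K → Task K, CM F → Det i F → (∀ x, Has N (F x)) → (∀ x, IsTask j (F x)) →
    ∀ π : Pt K → Measure (YS ℕ), Ker i π → ∀ δ : ℝ≥0∞, δ ≠ 0 →
    ∃ (k : Pt K → ℕ) (q : Cond K), CM k ∧ Det i k ∧
      ∀ y, (∀ m, y ∈ pt ((F y).1 m) i) → Gen N i y → Kills N i π y → y ∈ ptI q i j →
        Gen N j y ∧ Kills N j π y ∧ y ∈ pt ((F y).1 (k y)) j ∧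
          π y (⋃ n, (F y).2.1 (k y) y n) ≤ δ

/-! ### Interpretation at a lower level -/

/-- Interpretation of a task of the level `j` at the level `l' ≤ j`, at the points of the level
`l ≤ l'` which are generic over `N`. -/
def INTP (N : Set Obj) (l l' j : WithTop K) : Prop :=
  ∀ u : Task K, Has N u → IsTask j u → ∀ D : Set (Cond K), Has N D → DenseL j D →
    ∀ x, Gen N l x → (∀ k, x ∈ pt (u.1 k) l) →
    ∃ (e : ℕ → Cond K) (r : ℕ → ℕ → Cond K) (d : ℕ → Pt K → ℕ → Set (YS ℕ)),
      Has N e ∧ Has N r ∧ Has N d ∧ IsTask l' ((e, d, u.2.2) : Task K) ∧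
      (∀ k, x ∈ pt (e k) l) ∧
      (∀ k m, pt (r k m) l' = pt (e k) l') ∧
      (∀ k m, pt (r k m) j ⊆ pt (u.1 k) j) ∧
      (∀ k m, CovD j D (r k m)) ∧
      ∀ k m n, n < m → ∀ y ∈ pt (r k m) j, d k y n = u.2.1 k y n

/-! ### Potentials on one Laver tree -/

/-- A potential on the Laver tree `(s, W)` for the open sets `⋃ l, C β l`, `β` a branch: the number
`w t r` is the limit of the measure of the part of the open set inside the cylinder of `r`, as the
branch is chosen generically above the node `t`. -/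
structure Pot (s : List ℕ) (W : List ℕ → Set ℕ) (C : (ℕ → ℕ) → ℕ → Set (YS ℕ))
    (w : List ℕ → List Bool → ℝ) : Prop where
  /-- convergence along the immediate successors -/
  succ : ∀ t, nd s W t → ∀ r, Tendsto (fun m => w (m :: t) r) (atTop ⊓ 𝓟 (W t)) (𝓝 (w t r))
  /-- convergence along the branches -/
  br : ∀ β ∈ GPA.br s W, ∀ r, Tendsto (fun n => w (pre β n) r) atTop
    (𝓝 ((coin ℕ).real ((⋃ l, C β l) ∩ cylS (fun z : ℕ → Bool => z) r)))
  /-- every piece is decided at a node of every branch -/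
  front : ∀ β ∈ GPA.br s W, ∀ l, ∃ n, s.length ≤ n ∧
    ∀ β' ∈ GPA.br s W, pre β' n = pre β n → C β' l = C β l

/-- The branch at the coordinate `i` over `x` gives the point with the coordinate `i` changed. -/
noncomputable def upd (i : K) (x : Pt K) (β : ℕ → ℕ) : Pt K := by
  classical
  exact Function.update x i β

theorem upd_self (i : K) (x : Pt K) (β : ℕ → ℕ) : upd i x β i = β := by
  classical
  unfold upd
  rw [Function.update_self]

theorem agr_upd (i : K) (x : Pt K) (β : ℕ → ℕ) : Agr (i : WithTop K) (upd i x β) x := by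
  classical
  intro b hb
  unfold upd
  rw [Function.update_of_ne (WithTop.coe_lt_coe.1 hb).ne]

theorem upd_eq_self (i : K) (x : Pt K) : upd i x (x i) = x := by
  classical
  unfold upd
  exact Function.update_eq_self i x

/-- The points of the next level. -/
theorem mem_pt_next {i : K} {j : WithTop K} (hj : ∀ b : K, (b : WithTop K) < j ↔ b ≤ i) {e : Cond K}
    {y : Pt K} : y ∈ pt e j ↔ y ∈ pt e (i : WithTop K) ∧ y i ∈ (e.T i).br y := by
  constructor
  · intro h
    exact ⟨fun a ha => h a ((hj a).2 (WithTop.coe_lt_coe.1 ha).le), h i ((hj i).2 le_rfl)⟩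
  · rintro ⟨h1, h2⟩ a ha
    rcases ((hj a).1 ha).lt_or_eq with h | rfl
    · exact h1 a (WithTop.coe_lt_coe.2 h)
    · exact h2

theorem upd_mem_pt_next {i : K} {j : WithTop K} (hj : ∀ b : K, (b : WithTop K) < j ↔ b ≤ i)
    {e : Cond K} {x : Pt K} {β : ℕ → ℕ} : upd i x β ∈ pt e j ↔
      x ∈ pt e (i : WithTop K) ∧ β ∈ (e.T i).br x := by
  rw [mem_pt_next hj, mem_pt_congr e (agr_upd i x β), upd_self, e.br_congr (agr_upd i x β)]

/-- The exceptional null set of the inequality of the integrals, for sequences of functions which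
converge weakly along an infinite set of indices. -/
def SaksL : Prop :=
  ∀ {X : Type} [MeasurableSpace X] {F : ℕ → X → YS ℕ → ℝ} {G : X → YS ℕ → ℝ} {A : X → Set ℕ}
    {C : ℝ}, (∀ m, Measurable fun z : X × YS ℕ => F m z.1 z.2) →
    (Measurable fun z : X × YS ℕ => G z.1 z.2) → (∀ m, MeasurableSet {x | m ∈ A x}) →
    ∃ Z : Set (X × YS ℕ), MeasurableSet Z ∧ (∀ x, coin ℕ (sec Z x) = 0) ∧
      ∀ x, (A x).Infinite → (∀ m ∈ A x, ∀ y, 0 ≤ F m x y ∧ F m x y ≤ C) →
        (∀ y, 0 ≤ G x y ∧ G x y ≤ C) →
        (∀ r : List Bool, Tendsto (fun m => ∫ y in cylS (fun z : ℕ → Bool => z) r, F m x y ∂coin ℕ)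
          (atTop ⊓ 𝓟 (A x)) (𝓝 (∫ y in cylS (fun z : ℕ → Bool => z) r, G x y ∂coin ℕ))) →
        ∀ ν : Measure (YS ℕ), IsFiniteMeasure ν → ν (sec Z x) = 0 → ∀ ε : ℝ, 0 < ε →
          ∀ k : ℕ, ∃ m ∈ A x, k ≤ m ∧ ∫ y, F m x y ∂ν ≤ ∫ y, G x y ∂ν + ε

/-- Existence of potentials in pure extensions: densely below `c₀` at the level `i` there is a pure
extension with potentials for countably many codes, and covered by countably many members of each of
countably many dense sets. Here `j` is the level next to `i`. -/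
def PotL (i : K) (j : WithTop K) : Prop :=
  ∀ (C : ℕ → Pt K → ℕ → Set (YS ℕ)) (D : ℕ → Set (Cond K)),
    (∀ k, ∃ a b, IsCode j a b (C k)) → (∀ k, DenseL j (D k)) →
    ∀ c₀ p : Cond K, pt p (i : WithTop K) ⊆ pt c₀ (i : WithTop K) →
    ∃ e, pt e (i : WithTop K) ⊆ pt p (i : WithTop K) ∧ Pure i e c₀ ∧ (∀ k, CovD j (D k) e) ∧
      ∃ w : ℕ → Pt K → List ℕ → List Bool → ℝ, (∀ k t r, Measurable fun x => w k x t r) ∧
        (∀ k, Det (i : WithTop K) (w k)) ∧
        ∀ x ∈ pt e (i : WithTop K), ∀ k,
          Pot ((e.T i).s x) ((e.T i).W x) (fun β => C k (upd i x β)) (w k x)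

end Pool.Agent.GPA
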