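import Pool.Agent.GPA.CylFun
import Pool.Agent.GPA.XDefs

/-!
# A null name has a code
-/

open MeasureTheory Set Filter Topology
open scoped ENNReal

namespace Pool.Agent.GPA

variable {K : Type} [LinearOrder K]

theorem codes_measurable_rho (j : WithTop K) : Measurable (rho (K := K) j) := by
  refine measurable_pi_iff.2 fun a => ?_
  by_cases ha : (a : WithTop K) < j
  · have : (fun x : Pt K => rho j x a) = fun x => x a := funext fun x => rho_of_lt x ha
    rw [this]
    exact measurable_pi_apply a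
  · have : (fun x : Pt K => rho j x a) = fun _ _ => 0 := funext fun x => rho_of_not_lt x ha
    rw [this]
    exact measurable_const

/-- A null name has a code, with prescribed measures. -/
theorem exists_cm_of_null {j : WithTop K} {W : Set (Pt K × YS ℕ)} (hW : NullName j W)
    {ε : ℕ → ℝ≥0∞} (hε : ∀ k, ε k ≠ 0) :
    ∃ w : Pt K → ℕ → Set (YS ℕ), (∀ n, CM fun y => w y n) ∧ Det j w ∧ (∀ y n, IsCyl (w y n)) ∧
      (∀ y n, coin ℕ (w y n) ≤ ε n) ∧ ∀ y k, sec W y ⊆ ⋃ n, w y (k + n) := by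
  obtain ⟨C, hC, hCm, hCW⟩ := exists_cylFun hW.meas hW.null hε
  refine ⟨fun y n => C n (rho j y), fun n => ⟨?_, fun t => ?_⟩, fun x y h => ?_,
    fun y n => (hC n).cyl _, fun y n => hCm n _, fun y k z hz => ?_⟩
  · exact (hC n).count.mono (by rintro _ ⟨y, rfl⟩; exact mem_range_self _)
  · exact codes_measurable_rho j ((hC n).meas t)
  · funext n
    show C n (rho j x) = C n (rho j y)
    rw [rho_congr h]
  · have h1 : sec W y = sec W (rho j y) := hW.det _ _ (agr_rho j y).symm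
    rw [h1] at hz
    obtain ⟨n, hn, hz'⟩ := hCW (rho j y) z hz k
    refine mem_iUnion.2 ⟨n - k, ?_⟩
    show z ∈ C (k + (n - k)) (rho j y)
    rwa [Nat.add_sub_cancel' hn]

/-- A null name has a code. -/
theorem exists_code_of_null {j : WithTop K} {W : Set (Pt K × YS ℕ)} (hW : NullName j W) :
    ∃ w, IsCode j 1 0 w ∧ ∀ y k, sec W y ⊆ ⋃ n, w y (k + n) := by
  obtain ⟨w, h1, h2, h3, h4, h5⟩ := exists_cm_of_null hW (ε := fun n => 4⁻¹ ^ n)
    (fun n => by simp)
  refine ⟨w, ⟨h1, h2, h3, fun y n => ?_⟩, h5⟩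
  simpa using h4 y n

/-- The null names of `N` have codes in `N`. -/
theorem club_code (j : WithTop K) : ∀ᶠ N in club, ∀ W : Set (Pt K × YS ℕ), Has N W → NullName j W →
    ∃ w : Pt K → ℕ → Set (YS ℕ), Has N w ∧ IsCode j 1 0 w ∧
      ∀ x k, sec W x ⊆ ⋃ n, w x (n + k) := by
  filter_upwards [club_skolem fun (W : Set (Pt K × YS ℕ)) (w : Pt K → ℕ → Set (YS ℕ)) =>
    IsCode j 1 0 w ∧ ∀ x k, sec W x ⊆ ⋃ n, w x (n + k)] with N hN
  intro W hW hW'
  obtain ⟨w, h1, h2⟩ := exists_code_of_null hW'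
  obtain ⟨w', h3, h4, h5⟩ := hN W hW ⟨w, h1, fun x k => by
    simpa only [Nat.add_comm k] using h2 x k⟩
  exact ⟨w', h3, h4, h5⟩

end Pool.Agent.GPA
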