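import Pool.Agent.GPA.Tree

/-!
# Conditions of the iteration

`K` is a well-ordered set, the points are the elements of `K → ℕ → ℕ`. A condition is a family of
Laver trees `T a x`, `a ∈ K`, depending measurably on the point `x`, where `T a x` depends only on
the coordinates of `x` below `a` and is the full tree for all but countably many `a`. The levels
are the elements `j` of `WithTop K`; `pt p j` is the set of the points `x` with
`x a ∈ [T a x]` for all `a < j`, and the conditions are preordered at the level `j` by inclusion of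
these sets.
-/

open Set

namespace Pool.Agent.GPA

/-- The space of points. -/
abbrev Pt (K : Type) := K → ℕ → ℕ

section basic

variable {K : Type} {α β γ : Type*}

/-- A function with countable range on the space of points, all of whose fibres are measurable. -/
def CM (f : Pt K → α) : Prop := (range f).Countable ∧ ∀ c, MeasurableSet {x | f x = c}

theorem CM.const (c : α) : CM (fun _ : Pt K => c) := by
  refine ⟨(countable_singleton c).mono (by rintro _ ⟨x, rfl⟩; rfl), fun d => ?_⟩
  exact MeasurableSet.const _

theorem CM.rel {f : Pt K → α} (hf : CM f) {R : α → Pt K → Prop}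
    (hR : ∀ c, MeasurableSet {x | R c x}) : MeasurableSet {x | R (f x) x} := by
  have : {x | R (f x) x} = ⋃ c ∈ range f, ({x | f x = c} ∩ {x | R c x}) := by
    ext x
    simp only [mem_ofPred_eq, mem_iUnion, mem_inter_iff, exists_prop]
    constructor
    · exact fun h => ⟨f x, ⟨x, rfl⟩, rfl, h⟩
    · rintro ⟨c, -, rfl, h⟩
      exact h
  rw [this]
  exact MeasurableSet.biUnion hf.1 fun c _ => (hf.2 c).inter (hR c)

theorem CM.map {f : Pt K → α} (hf : CM f) (g : α → β) : CM (fun x => g (f x)) := by
  refine ⟨?_, fun c => hf.rel (R := fun a _ => g a = c) fun a => MeasurableSet.const _⟩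
  refine (hf.1.image g).mono ?_
  rintro _ ⟨x, rfl⟩
  exact ⟨f x, ⟨x, rfl⟩, rfl⟩

theorem CM.prod {f : Pt K → α} {g : Pt K → β} (hf : CM f) (hg : CM g) :
    CM (fun x => (f x, g x)) := by
  refine ⟨(hf.1.prod hg.1).mono ?_, fun c => ?_⟩
  · rintro _ ⟨x, rfl⟩
    exact ⟨⟨x, rfl⟩, ⟨x, rfl⟩⟩
  · have : {x | (f x, g x) = c} = {x | f x = c.1} ∩ {x | g x = c.2} := by
      ext x
      simp [Prod.ext_iff]
    rw [this]
    exact (hf.2 _).inter (hg.2 _)

theorem CM.map₂ {f : Pt K → α} {g : Pt K → β} (hf : CM f) (hg : CM g) (h : α → β → γ) :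
    CM (fun x => h (f x) (g x)) := (hf.prod hg).map fun c => h c.1 c.2

/-- A function with values in a countable type. -/
theorem CM.of_countable [Countable α] {f : Pt K → α} (h : ∀ c, MeasurableSet {x | f x = c}) :
    CM f := ⟨(Set.to_countable _), h⟩

theorem CM.ite {P : Pt K → Prop} [DecidablePred P] (hP : MeasurableSet {x | P x}) {f g : Pt K → α}
    (hf : CM f) (hg : CM g) : CM (fun x => if P x then f x else g x) := by
  refine ⟨(hf.1.union hg.1).mono ?_, fun c => ?_⟩
  · rintro _ ⟨x, rfl⟩
    by_cases h : P x
    · simp only [h, if_true]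
      exact Or.inl ⟨x, rfl⟩
    · simp only [h, if_false]
      exact Or.inr ⟨x, rfl⟩
  · have : {x | (if P x then f x else g x) = c} =
        ({x | P x} ∩ {x | f x = c}) ∪ ({x | P x}ᶜ ∩ {x | g x = c}) := by
      ext x
      by_cases h : P x <;> simp [h]
    rw [this]
    exact (hP.inter (hf.2 c)).union (hP.compl.inter (hg.2 c))

/-- The least index with a measurable property. -/
theorem CM.find {P : ℕ → Pt K → Prop} (hP : ∀ n, MeasurableSet {x | P n x}) :
    CM (fun x => sInf {n | P n x}) := by
  classical
  refine CM.of_countable fun c => ?_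
  have : {x | sInf {n | P n x} = c} = ({x | P c x} ∩ ⋂ m ∈ Finset.range c, {x | P m x}ᶜ) ∪
      ({x | c = 0} ∩ ⋂ m, {x | P m x}ᶜ) := by
    ext x
    simp only [mem_ofPred_eq, mem_union, mem_inter_iff, mem_iInter, mem_compl_iff,
      Finset.mem_range]
    constructor
    · rintro rfl
      by_cases h : {n | P n x}.Nonempty
      · exact Or.inl ⟨Nat.sInf_mem h, fun m hm => Nat.notMem_of_lt_sInf hm⟩
      · have h' : ∀ m, ¬ P m x := fun m hm => h ⟨m, hm⟩
        refine Or.inr ⟨?_, h'⟩
        rw [not_nonempty_iff_eq_empty.1 h]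
        exact Nat.sInf_empty
    · rintro (⟨h1, h2⟩ | ⟨rfl, h⟩)
      · refine le_antisymm (Nat.sInf_le h1) ?_
        by_contra hlt
        push Not at hlt
        exact h2 _ hlt (Nat.sInf_mem (s := {n | P n x}) ⟨c, h1⟩)
      · have : {n | P n x} = ∅ := by
          ext n
          simp [h n]
        rw [this]
        exact Nat.sInf_empty
  rw [this]
  refine MeasurableSet.union ((hP c).inter ?_) ((MeasurableSet.const _).inter ?_)
  · exact MeasurableSet.biInter (Set.to_countable _) fun m _ => (hP m).compl
  · exact MeasurableSet.iInter fun m => (hP m).compl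

theorem measurableSet_coord (a : K) (k m : ℕ) : MeasurableSet {x : Pt K | x a k = m} := by
  have h1 : Measurable fun x : Pt K => x a k := (measurable_pi_apply k).comp (measurable_pi_apply a)
  exact h1 (measurableSet_singleton m)

theorem CM.pre (a : K) (k : ℕ) : CM (fun x : Pt K => pre (x a) k) := by
  induction k with
  | zero => exact CM.const _
  | succ k ih =>
    have h1 : CM (fun x : Pt K => x a k) := CM.of_countable fun m => measurableSet_coord a k m
    exact (h1.map₂ ih fun m t => m :: t)

end basic

/-! ### Measurable families of Laver trees -/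

/-- A measurable family of Laver trees. -/
@[ext] structure MT (K : Type) where
  s : Pt K → List ℕ
  W : Pt K → List ℕ → Set ℕ
  inf : ∀ x t, (W x t).Infinite
  ms : ∀ t, MeasurableSet {x | s x = t}
  mW : ∀ t m, MeasurableSet {x | m ∈ W x t}

namespace MT

variable {K : Type}

/-- The constant family with value the full tree. -/
def full : MT K where
  s _ := []
  W _ _ := univ
  inf _ _ := infinite_univ
  ms _ := MeasurableSet.const _
  mW _ _ := MeasurableSet.const _

/-- The set of branches at `x`. -/
def br (T : MT K) (x : Pt K) : Set (ℕ → ℕ) := GPA.br (T.s x) (T.W x)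

/-- The set of nodes above the stem at `x`. -/
def nd (T : MT K) (x : Pt K) (t : List ℕ) : Prop := GPA.nd (T.s x) (T.W x) t

/-- Inclusion of the trees at `x`. -/
def Sub (T T' : MT K) (x : Pt K) : Prop := GPA.Sub (T.s x) (T.W x) (T'.s x) (T'.W x)

theorem cms (T : MT K) : CM T.s := CM.of_countable T.ms

theorem measurableSet_nd (T : MT K) (t : List ℕ) : MeasurableSet {x | T.nd x t} := by
  induction t with
  | nil => exact T.ms []
  | cons m t ih =>
    have : {x | T.nd x (m :: t)} = {x | T.s x = m :: t} ∪ ({x | T.nd x t} ∩ {x | m ∈ T.W x t}) := by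
      ext x
      rfl
    rw [this]
    exact (T.ms _).union (ih.inter (T.mW t m))

theorem measurableSet_br (T : MT K) (a : K) : MeasurableSet {x | x a ∈ T.br x} := by
  have : {x | x a ∈ T.br x} = ⋂ k : ℕ, {x | (T.s x).length ≤ k → T.nd x (pre (x a) k)} := by
    ext x
    simp only [mem_ofPred_eq, mem_iInter]
    exact mem_br_iff
  rw [this]
  refine MeasurableSet.iInter fun k => ?_
  refine (T.cms.prod (CM.pre a k)).rel (R := fun c x => c.1.length ≤ k → T.nd x c.2) fun c => ?_
  exact MeasurableSet.imp (MeasurableSet.const _) (T.measurableSet_nd c.2)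

theorem measurableSet_sub (T T' : MT K) : MeasurableSet {x | T.Sub T' x} := by
  have : {x | T.Sub T' x} = ⋂ t : List ℕ, {x | T.nd x t → T'.nd x t} := by
    ext x
    simp only [mem_ofPred_eq, mem_iInter]
    rfl
  rw [this]
  exact MeasurableSet.iInter fun t =>
    MeasurableSet.imp (T.measurableSet_nd t) (T'.measurableSet_nd t)

/-- A measurable choice among countably many families. -/
def sel (f : Pt K → MT K) (hf : CM f) : MT K where
  s x := (f x).s x
  W x := (f x).W x
  inf x t := (f x).inf x t
  ms t := hf.rel (R := fun T x => T.s x = t) fun T => T.ms t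
  mW t m := hf.rel (R := fun T x => m ∈ T.W x t) fun T => T.mW t m

/-- The family with stem changed to `t` if `t` is a node. -/
noncomputable def restem (T : MT K) (t : List ℕ) : MT K := by
  classical
  exact
  { s := fun x => if T.nd x t then t else T.s x
    W := T.W
    inf := T.inf
    ms := (CM.ite (T.measurableSet_nd t) (CM.const t) T.cms).2
    mW := T.mW }

theorem restem_s (T : MT K) {t : List ℕ} {x : Pt K} (h : T.nd x t) : (T.restem t).s x = t := by
  classical
  show (if T.nd x t then t else T.s x) = t
  rw [if_pos h]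

theorem restem_sub (T : MT K) (t : List ℕ) (x : Pt K) : (T.restem t).Sub T x := by
  classical
  show GPA.Sub (if T.nd x t then t else T.s x) (T.W x) (T.s x) (T.W x)
  by_cases h : T.nd x t
  · rw [if_pos h]
    exact sub_of_nd h
  · rw [if_neg h]
    exact GPA.Sub.refl _ _

end MT

theorem br_full {K : Type} (x : Pt K) : (MT.full : MT K).br x = univ := by
  ext z
  simp [MT.br, MT.full, br]

/-! ### Levels -/

section levels

variable {K : Type} [LinearOrder K] {α β : Type*}

/-- `x` and `y` agree below the level `j`. -/
def Agr (j : WithTop K) (x y : Pt K) : Prop := ∀ b : K, (b : WithTop K) < j → x b = y b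

/-- `f` depends only on the coordinates below `j`. -/
def Det (j : WithTop K) (f : Pt K → α) : Prop := ∀ x y, Agr j x y → f x = f y

theorem Agr.refl (j : WithTop K) (x : Pt K) : Agr j x x := fun _ _ => rfl

theorem Agr.symm {j : WithTop K} {x y : Pt K} (h : Agr j x y) : Agr j y x :=
  fun b hb => (h b hb).symm

theorem Agr.trans {j : WithTop K} {x y z : Pt K} (h : Agr j x y) (h' : Agr j y z) : Agr j x z :=
  fun b hb => (h b hb).trans (h' b hb)

theorem Agr.mono {i j : WithTop K} (hij : i ≤ j) {x y : Pt K} (h : Agr j x y) : Agr i x y :=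
  fun b hb => h b (hb.trans_le hij)

theorem Det.mono {i j : WithTop K} (hij : i ≤ j) {f : Pt K → α} (h : Det i f) : Det j f :=
  fun x y hxy => h x y (hxy.mono hij)

theorem Det.const (j : WithTop K) (c : α) : Det j (fun _ : Pt K => c) := fun _ _ _ => rfl

theorem Det.map {j : WithTop K} {f : Pt K → α} (h : Det j f) (g : α → β) :
    Det j (fun x => g (f x)) := fun x y hxy => congrArg g (h x y hxy)

end levels

/-! ### Conditions -/

/-- A condition. -/
@[ext] structure Cond (K : Type) [LinearOrder K] where
  T : K → MT K
  ds : ∀ a : K, Det (a : WithTop K) (T a).s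
  dW : ∀ a : K, Det (a : WithTop K) (T a).W
  supp : {a | T a ≠ MT.full}.Countable

variable {K : Type} [LinearOrder K]

/-- The points of the condition `p` at the level `j`. -/
def pt (p : Cond K) (j : WithTop K) : Set (Pt K) :=
  {x | ∀ a : K, (a : WithTop K) < j → x a ∈ (p.T a).br x}

theorem pt_anti (p : Cond K) {i j : WithTop K} (h : i ≤ j) : pt p j ⊆ pt p i :=
  fun _ hx a ha => hx a (ha.trans_le h)

theorem Cond.br_congr (p : Cond K) {a : K} {x y : Pt K} (h : Agr (a : WithTop K) x y) :
    (p.T a).br x = (p.T a).br y := by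
  unfold MT.br
  rw [p.ds a x y h, p.dW a x y h]

theorem Cond.nd_congr (p : Cond K) {a : K} {x y : Pt K} (h : Agr (a : WithTop K) x y) (t : List ℕ) :
    (p.T a).nd x t ↔ (p.T a).nd y t := by
  unfold MT.nd
  rw [p.ds a x y h, p.dW a x y h]

theorem mem_pt_congr (p : Cond K) {j : WithTop K} {x y : Pt K} (h : Agr j x y) :
    x ∈ pt p j ↔ y ∈ pt p j := by
  have key : ∀ {x y : Pt K}, Agr j x y → x ∈ pt p j → y ∈ pt p j := by
    intro x y h hx a ha
    have h1 := hx a ha
    rwa [p.br_congr (h.mono ha.le), h a ha] at h1
  exact ⟨key h, key h.symm⟩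

theorem measurableSet_pt (p : Cond K) (j : WithTop K) : MeasurableSet (pt p j) := by
  have : pt p j = ⋂ a ∈ {a | p.T a ≠ MT.full}, {x | (a : WithTop K) < j → x a ∈ (p.T a).br x} := by
    ext x
    simp only [pt, mem_ofPred_eq, mem_iInter]
    constructor
    · exact fun h a _ ha => h a ha
    · intro h a ha
      by_cases h1 : p.T a = MT.full
      · rw [h1, br_full]
        exact mem_univ _
      · exact h a h1 ha
  rw [this]
  refine MeasurableSet.biInter p.supp fun a _ => ?_
  exact MeasurableSet.imp (MeasurableSet.const _) ((p.T a).measurableSet_br a)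

/-- The condition with all trees full. -/
def Cond.full : Cond K where
  T _ := MT.full
  ds _ := fun _ _ _ => rfl
  dW _ := fun _ _ _ => rfl
  supp := by simp

/-- The condition with the tree at the coordinate `a` replaced by `T`. -/
noncomputable def Cond.upd (p : Cond K) (a : K) (T : MT K) (hs : Det (a : WithTop K) T.s)
    (hW : Det (a : WithTop K) T.W) : Cond K := by
  classical
  exact
  { T := Function.update p.T a T
    ds := fun b => by
      by_cases h : b = a
      · subst h; rw [Function.update_self]; exact hs
      · rw [Function.update_of_ne h]; exact p.ds b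
    dW := fun b => by
      by_cases h : b = a
      · subst h; rw [Function.update_self]; exact hW
      · rw [Function.update_of_ne h]; exact p.dW b
    supp := by
      refine ((countable_singleton a).union p.supp).mono fun b hb => ?_
      by_cases h : b = a
      · exact Or.inl h
      · refine Or.inr ?_
        rw [mem_ofPred_eq, Function.update_of_ne h] at hb
        exact hb }

/-- The condition with the trees of `p` below the level `j` and the trees of `f x` from `j` on,
where `f x` is a measurable choice among countably many conditions depending only on the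
coordinates of `x` below `j`. -/
noncomputable def Cond.mix (j : WithTop K) (p : Cond K) (f : Pt K → Cond K) (hf : CM f)
    (hd : Det j f) : Cond K := by
  classical
  exact
  { T := fun a => if (a : WithTop K) < j then p.T a else MT.sel (fun x => (f x).T a) (hf.map fun c => c.T a)
    ds := fun a => by
      by_cases h : (a : WithTop K) < j
      · rw [if_pos h]; exact p.ds a
      · rw [if_neg h]
        intro x y hxy
        show ((f x).T a).s x = ((f y).T a).s y
        rw [hd x y (hxy.mono (not_lt.1 h))]
        exact (f y).ds a x y hxy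
    dW := fun a => by
      by_cases h : (a : WithTop K) < j
      · rw [if_pos h]; exact p.dW a
      · rw [if_neg h]
        intro x y hxy
        show ((f x).T a).W x = ((f y).T a).W y
        rw [hd x y (hxy.mono (not_lt.1 h))]
        exact (f y).dW a x y hxy
    supp := by
      refine (p.supp.union (hf.1.biUnion (t := fun c _ => {a | c.T a ≠ MT.full})
        fun c _ => c.supp)).mono fun a ha => ?_
      by_cases h : (a : WithTop K) < j
      · rw [mem_ofPred_eq, if_pos h] at ha
        exact Or.inl ha
      · rw [mem_ofPred_eq, if_neg h] at ha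
        refine Or.inr ?_
        by_contra hc
        refine ha ?_
        have hc' : ∀ x, (f x).T a = MT.full := by
          intro x
          by_contra hx
          exact hc (mem_iUnion₂.2 ⟨f x, ⟨x, rfl⟩, hx⟩)
        refine MT.ext (funext fun x => ?_) (funext fun x => ?_)
        · show ((f x).T a).s x = _
          rw [hc' x]
        · show ((f x).T a).W x = _
          rw [hc' x] }

theorem Cond.mix_T_of_lt {j : WithTop K} {p : Cond K} {f : Pt K → Cond K} {hf : CM f}
    {hd : Det j f} {a : K} (h : (a : WithTop K) < j) : (Cond.mix j p f hf hd).T a = p.T a := by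
  classical
  show (if (a : WithTop K) < j then p.T a else _) = _
  rw [if_pos h]

theorem Cond.mix_T_of_le {j : WithTop K} {p : Cond K} {f : Pt K → Cond K} {hf : CM f}
    {hd : Det j f} {a : K} (h : j ≤ (a : WithTop K)) :
    (Cond.mix j p f hf hd).T a = MT.sel (fun x => (f x).T a) (hf.map fun c => c.T a) := by
  classical
  show (if (a : WithTop K) < j then p.T a else _) = _
  rw [if_neg (not_lt.2 h)]

theorem mem_pt_mix {i j : WithTop K} {p : Cond K} {f : Pt K → Cond K} {hf : CM f}
    {hd : Det j f} (hji : j ≤ i) {x : Pt K} : x ∈ pt (Cond.mix j p f hf hd) i ↔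
      x ∈ pt p j ∧ ∀ a : K, j ≤ (a : WithTop K) → (a : WithTop K) < i → x a ∈ ((f x).T a).br x := by
  constructor
  · intro h
    refine ⟨fun a ha => ?_, fun a ha ha' => ?_⟩
    · have := h a (ha.trans_le hji)
      rwa [Cond.mix_T_of_lt ha] at this
    · have := h a ha'
      rwa [Cond.mix_T_of_le ha] at this
  · rintro ⟨h1, h2⟩ a ha
    rcases lt_or_ge (a : WithTop K) j with h | h
    · rw [Cond.mix_T_of_lt h]
      exact h1 a h
    · rw [Cond.mix_T_of_le h]
      exact h2 a h ha

theorem mem_pt_mix_of_le {i j : WithTop K} {p : Cond K} {f : Pt K → Cond K} {hf : CM f}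
    {hd : Det j f} (hij : i ≤ j) {x : Pt K} : x ∈ pt (Cond.mix j p f hf hd) i ↔ x ∈ pt p i := by
  refine forall₂_congr fun a ha => ?_
  rw [Cond.mix_T_of_lt (ha.trans_le hij)]

/-- The trees of `p` below `j` and the trees of `q` from `j` on. -/
noncomputable def Cond.glue (j : WithTop K) (p q : Cond K) : Cond K :=
  Cond.mix j p (fun _ => q) (CM.const q) (Det.const j q)

theorem mem_pt_glue {i j : WithTop K} {p q : Cond K} (hji : j ≤ i) {x : Pt K} :
    x ∈ pt (Cond.glue j p q) i ↔
      x ∈ pt p j ∧ ∀ a : K, j ≤ (a : WithTop K) → (a : WithTop K) < i → x a ∈ (q.T a).br x :=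
  mem_pt_mix hji

theorem mem_pt_glue_of_le {i j : WithTop K} {p q : Cond K} (hij : i ≤ j) {x : Pt K} :
    x ∈ pt (Cond.glue j p q) i ↔ x ∈ pt p i := mem_pt_mix_of_le hij

theorem glue_subset_right {i j : WithTop K} {p q : Cond K} (hji : j ≤ i) (h : pt p j ⊆ pt q j) :
    pt (Cond.glue j p q) i ⊆ pt q i := by
  intro x hx a ha
  rw [mem_pt_glue hji] at hx
  rcases lt_or_ge (a : WithTop K) j with h1 | h1
  · exact h hx.1 a h1
  · exact hx.2 a h1 ha

/-! ### Extension of points -/

variable [WellFoundedLT K]

/-- A point which satisfies `p` at the coordinates of an initial segment `S` extends to a point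
which satisfies `p` at all coordinates. -/
theorem exists_ext (p : Cond K) (x : Pt K) (S : Set K) (hS : ∀ a ∈ S, ∀ b < a, b ∈ S)
    (hx : ∀ a ∈ S, x a ∈ (p.T a).br x) :
    ∃ y : Pt K, (∀ a ∈ S, y a = x a) ∧ y ∈ pt p ⊤ := by
  classical
  let F : (a : K) → ((b : K) → b < a → ℕ → ℕ) → ℕ → ℕ := fun a ih =>
    if a ∈ S then x a
    else lb ((p.T a).W fun b => if h : b < a then ih b h else fun _ => 0)
      ((p.T a).s fun b => if h : b < a then ih b h else fun _ => 0)
  let y : Pt K := fun a => (wellFounded_lt (α := K)).fix F a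
  have hy : ∀ a, y a = F a fun b _ => y b := fun a => (wellFounded_lt (α := K)).fix_eq F a
  have hyS : ∀ a ∈ S, y a = x a := by
    intro a ha
    rw [hy a]
    exact if_pos ha
  refine ⟨y, hyS, fun a _ => ?_⟩
  by_cases ha : a ∈ S
  · rw [hyS a ha]
    have h1 : Agr (a : WithTop K) y x := fun b hb => hyS b (hS a ha b (WithTop.coe_lt_coe.1 hb))
    rw [p.br_congr h1]
    exact hx a ha
  · have h1 : Agr (a : WithTop K) (fun b => if h : b < a then y b else fun _ => 0) y := by
      intro b hb
      show (if h : b < a then y b else fun _ => 0) = y b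
      rw [dif_pos (WithTop.coe_lt_coe.1 hb)]
    have h2 : y a = lb ((p.T a).W y) ((p.T a).s y) := by
      rw [hy a]
      show (if a ∈ S then x a else _) = _
      rw [if_neg ha, ← p.dW a _ _ h1, ← p.ds a _ _ h1]
    rw [h2]
    exact lb_mem_br ((p.T a).inf y) _

theorem exists_ext_level (p : Cond K) {j : WithTop K} {x : Pt K} (hx : x ∈ pt p j) :
    ∃ y ∈ pt p ⊤, Agr j y x := by
  obtain ⟨y, h1, h2⟩ := exists_ext p x {a | (a : WithTop K) < j}
    (fun a ha b hb => (WithTop.coe_lt_coe.2 hb).trans ha) hx
  exact ⟨y, h2, h1⟩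

/-- A point of the level `a` extended by a branch at the coordinate `a`. -/
theorem exists_ext_coord (p : Cond K) {a : K} {x : Pt K} (hx : x ∈ pt p a) {z : ℕ → ℕ}
    (hz : z ∈ (p.T a).br x) : ∃ y ∈ pt p ⊤, Agr (a : WithTop K) y x ∧ y a = z := by
  classical
  have h1 : Agr (a : WithTop K) (Function.update x a z) x := by
    intro b hb
    rw [Function.update_of_ne (WithTop.coe_lt_coe.1 hb).ne]
  obtain ⟨y, h2, h3⟩ := exists_ext p (Function.update x a z) {b | b ≤ a}
    (fun b hb c hc => (hc.trans_le hb).le) (by
      intro b hb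
      rcases (show b ≤ a from hb).lt_or_eq with hb | rfl
      · have h4 : Agr (b : WithTop K) (Function.update x a z) x := h1.mono (WithTop.coe_le_coe.2 hb.le)
        rw [p.br_congr h4, Function.update_of_ne hb.ne]
        exact hx b (WithTop.coe_lt_coe.2 hb)
      · rw [p.br_congr h1, Function.update_self]
        exact hz)
  refine ⟨y, h3, fun b hb => ?_, ?_⟩
  · rw [h2 b (WithTop.coe_lt_coe.1 hb).le, h1 b hb]
  · rw [h2 a le_rfl, Function.update_self]

theorem pt_nonempty (p : Cond K) (j : WithTop K) : (pt p j).Nonempty := by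
  obtain ⟨y, -, hy⟩ := exists_ext p (fun _ _ => 0) ∅ (by simp) (by simp)
  exact ⟨y, pt_anti p le_top hy⟩

/-- The order of the level `j` in terms of the trees. -/
theorem pt_subset_iff {p q : Cond K} {j : WithTop K} : pt p j ⊆ pt q j ↔
    ∀ a : K, (a : WithTop K) < j → ∀ x ∈ pt p a, (p.T a).Sub (q.T a) x := by
  constructor
  · intro h a ha x hx
    refine (sub_iff_br ((p.T a).inf x)).2 fun z hz => ?_
    obtain ⟨y, hy, hyx, hya⟩ := exists_ext_coord p hx hz
    have h1 := h (pt_anti p le_top hy) a ha
    rw [q.br_congr hyx, hya] at h1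
    exact h1
  · intro h x hx a ha
    exact (sub_iff_br ((p.T a).inf x)).1 (h a ha x (pt_anti p ha.le hx)) (hx a ha)

theorem pt_subset_mono {p q : Cond K} {i j : WithTop K} (hij : i ≤ j) (h : pt p j ⊆ pt q j) :
    pt p i ⊆ pt q i := by
  rw [pt_subset_iff] at h ⊢
  exact fun a ha => h a (ha.trans_le hij)

end Pool.Agent.GPA
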