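import Pool.Agent.GPA.Code
import Pool.Agent.GPA.LavSys

/-!
# Unions of null codes and Fubini arguments
-/

open MeasureTheory Set
open scoped ENNReal

namespace Pool.Agent.GPA

/-! ### Unions of null codes -/

open Classical in
/-- The union of a sequence of null codes. -/
noncomputable def unionCode (u : ℕ → ℕ → List Bool → Bool) (n : ℕ) (s : List Bool) : Bool :=
  decide (∃ m, u m (n + m + 1) s = true)

theorem measurable_unionCode : Measurable unionCode := by
  refine measurable_pi_iff.2 fun n => measurable_pi_iff.2 fun s => measurable_to_bool ?_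
  have h : (fun u => unionCode u n s) ⁻¹' {true} =
      ⋃ m, {u : ℕ → ℕ → List Bool → Bool | u m (n + m + 1) s = true} := by
    ext u
    simp [unionCode]
  rw [h]
  refine MeasurableSet.iUnion fun m => ?_
  have h1 : Measurable fun u : ℕ → ℕ → List Bool → Bool => u m (n + m + 1) s := by fun_prop
  exact h1 (measurableSet_singleton true)

theorem isNullCode_unionCode {u : ℕ → ℕ → List Bool → Bool} (h : ∀ m, IsNullCode (u m)) :
    IsNullCode (unionCode u) := by
  refine isNullCode_of_le fun n => ?_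
  have h1 : {y | ∃ k, unionCode u n (ini y k) = true} ⊆
      ⋃ m, {y | ∃ k, u m (n + m + 1) (ini y k) = true} := by
    rintro y ⟨k, hk⟩
    simp only [unionCode, decide_eq_true_eq] at hk
    obtain ⟨m, hm⟩ := hk
    exact mem_iUnion.2 ⟨m, k, hm⟩
  refine (measure_mono h1).trans ((measure_iUnion_le _).trans ?_)
  refine (ENNReal.tsum_le_tsum fun m => (h m).le (n + m + 1)).trans (le_of_eq ?_)
  have h2 : ∀ m : ℕ, (2⁻¹ : ℝ≥0∞) ^ (n + m + 1) = 2⁻¹ ^ n * 2⁻¹ ^ (m + 1) := fun m => by
    rw [add_assoc, pow_add]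
  simp_rw [h2]
  rw [ENNReal.tsum_mul_left, ENNReal.tsum_geometric_add_one]
  rw [ENNReal.one_sub_inv_two, inv_inv, ENNReal.inv_mul_cancel (by simp) (by simp), mul_one]

theorem nullOf_unionCode (u : ℕ → ℕ → List Bool → Bool) (m : ℕ) :
    NullOf (u m) ⊆ NullOf (unionCode u) := by
  intro y hy n
  obtain ⟨k, hk⟩ := hy (n + m + 1)
  exact ⟨k, by simp only [unionCode, decide_eq_true_eq]; exact ⟨m, hk⟩⟩

theorem union_code : ∃ f : (ℕ → ℕ → List Bool → Bool) → ℕ → List Bool → Bool, Measurable f ∧
    (∀ u, (∀ m, IsNullCode (u m)) → IsNullCode (f u)) ∧ ∀ u m, NullOf (u m) ⊆ NullOf (f u) :=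
  ⟨unionCode, measurable_unionCode, fun _ h => isNullCode_unionCode h, nullOf_unionCode⟩

/-! ### Splitting the coordinates -/

/-- The point with the coordinates `a` in `L` and `b` outside of `L`. -/
noncomputable def glueY {I : Type*} (L : Set I) (a : L → Bool) (b : (Lᶜ : Set I) → Bool) (i : I) : Bool :=
  open Classical in if h : i ∈ L then a ⟨i, h⟩ else b ⟨i, h⟩

theorem glueY_mem {I : Type*} {L : Set I} (a : L → Bool) (b : (Lᶜ : Set I) → Bool) (i : L) :
    glueY L a b i = a i := by simp [glueY]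

theorem glueY_compl {I : Type*} {L : Set I} (a : L → Bool) (b : (Lᶜ : Set I) → Bool)
    (i : (Lᶜ : Set I)) : glueY L a b i = b i := by
  have h : (i : I) ∉ L := i.2
  simp [glueY, h]

theorem glueY_restrict {I : Type*} {L : Set I} (y : I → Bool) :
    glueY L (fun i => y i) (fun i => y i) = y := by
  funext i
  by_cases h : i ∈ L <;> simp [glueY, h]

theorem measurable_glueY {I : Type*} (L : Set I) :
    Measurable fun p : (L → Bool) × ((Lᶜ : Set I) → Bool) => glueY L p.1 p.2 := by
  refine measurable_pi_iff.2 fun i => ?_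
  by_cases h : i ∈ L
  · simp only [glueY, h, dif_pos]; fun_prop
  · simp only [glueY, h, dif_neg, not_false_eq_true]; fun_prop

theorem coin_glue {I : Type*} (L : Set I) :
    MeasurePreserving (fun p : (L → Bool) × ((Lᶜ : Set I) → Bool) => glueY L p.1 p.2)
      ((coin L).prod (coin (Lᶜ : Set I))) (coin I) := by
  classical
  refine ⟨measurable_glueY L, ?_⟩
  refine Measure.eq_infinitePi (μ := fun _ : I => cB) fun s t ht => ?_
  rw [Measure.map_apply (measurable_glueY L) (.pi s.countable_toSet fun _ _ => ht _)]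
  have h : (fun p : (L → Bool) × ((Lᶜ : Set I) → Bool) => glueY L p.1 p.2) ⁻¹' (Set.pi s t) =
      (Set.pi (s.subtype (· ∈ L)) fun i : L => t i) ×ˢ
        (Set.pi (s.subtype (· ∈ Lᶜ)) fun i : (Lᶜ : Set I) => t i) := by
    ext p
    simp only [mem_preimage, Set.mem_pi, Finset.mem_coe, mem_prod, Finset.mem_subtype]
    constructor
    · intro h
      exact ⟨fun i hi => by rw [← glueY_mem p.1 p.2 i]; exact h _ hi,
        fun i hi => by rw [← glueY_compl p.1 p.2 i]; exact h _ hi⟩
    · rintro ⟨h1, h2⟩ i hi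
      by_cases hL : i ∈ L
      · rw [show i = ((⟨i, hL⟩ : L) : I) from rfl, glueY_mem]; exact h1 ⟨i, hL⟩ hi
      · rw [show i = ((⟨i, hL⟩ : (Lᶜ : Set I)) : I) from rfl, glueY_compl]
        exact h2 ⟨i, hL⟩ hi
  rw [h, Measure.prod_prod, coin, coin, Measure.infinitePi_pi _ fun i _ => ht _,
    Measure.infinitePi_pi _ fun i _ => ht _]
  rw [← Finset.prod_filter_mul_prod_filter_not s (· ∈ L)]
  congr 1
  · exact Finset.prod_subtype_eq_prod_filter (fun i => cB (t i))
  · exact Finset.prod_subtype_eq_prod_filter (p := (· ∈ Lᶜ)) (fun i => cB (t i))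

theorem coin_elim (I J : Type*) :
    MeasurePreserving (fun p : (I → Bool) × (J → Bool) => (Sum.elim p.1 p.2 : I ⊕ J → Bool))
      ((coin I).prod (coin J)) (coin (I ⊕ J)) := by
  have hs : Measurable (fun z : (I → Bool) × (J → Bool) => (Sum.elim z.1 z.2 : I ⊕ J → Bool)) := by
    refine measurable_pi_iff.2 fun k => ?_
    rcases k with i | j
    · exact (measurable_pi_apply i).comp measurable_fst
    · exact (measurable_pi_apply j).comp measurable_snd
  refine ⟨hs, ?_⟩
  rw [← coin_sum, Measure.map_map hs (by fun_prop)]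
  have : ((fun z : (I → Bool) × (J → Bool) => (Sum.elim z.1 z.2 : I ⊕ J → Bool)) ∘
      fun x : I ⊕ J → Bool => ((fun i => x (Sum.inl i)), fun j => x (Sum.inr j))) = id := by
    funext x k
    rcases k with i | j <;> rfl
  rw [this, Measure.map_id]

/-! ### The code of a null set as a set with null sections in the sum -/

theorem code_sum_gen {X I : Type} [MeasurableSpace X] (c : X × YS I → ℕ → List Bool → Bool)
    (hc : Measurable c) (h : ∀ z, IsNullCode (c z)) :
    MeasurableSet {p : X × YS (I ⊕ ℕ) | (fun n => p.2 (.inr n)) ∈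
      NullOf (c (p.1, fun i => p.2 (.inl i)))} ∧
    ∀ x, coin (I ⊕ ℕ) {w | (fun n => w (.inr n)) ∈ NullOf (c (x, fun i => w (.inl i)))} = 0 := by
  have h1 : Measurable fun p : X × YS (I ⊕ ℕ) =>
      (((p.1, fun i => p.2 (.inl i)), fun n => p.2 (.inr n)) : (X × YS I) × YS ℕ) := by
    fun_prop
  have h2 : MeasurableSet {p : X × YS (I ⊕ ℕ) | (fun n => p.2 (.inr n)) ∈
      NullOf (c (p.1, fun i => p.2 (.inl i)))} := h1 (measurableSet_nullOf hc)
  refine ⟨h2, fun x => ?_⟩
  have h3 : MeasurableSet {w : YS (I ⊕ ℕ) | (fun n => w (.inr n)) ∈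
      NullOf (c (x, fun i => w (.inl i)))} := measurable_prodMk_left h2
  rw [← (coin_elim I ℕ).measure_preimage h3.nullMeasurableSet]
  rw [Measure.measure_prod_null ((coin_elim I ℕ).measurable h3)]
  refine Filter.Eventually.of_forall fun y => ?_
  exact (h (x, y)).coin_nullOf

/-! ### The Fubini trick -/

section

variable {X I : Type} [m : MeasurableSpace X]

theorem sat_of_measurable {L : Set I} {D : Set (X × YS I)} (hD : MeasurableSet[m.prod (sub L)] D)
    {x : X} {y y' : YS I} (h : ∀ i ∈ L, y i = y' i) : (x, y) ∈ D ↔ (x, y') ∈ D := by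
  let σ : MeasurableSpace (X × YS I) :=
    { MeasurableSet' := fun D => ∀ x (y y' : YS I), (∀ i ∈ L, y i = y' i) →
        ((x, y) ∈ D ↔ (x, y') ∈ D)
      measurableSet_empty := fun _ _ _ _ => Iff.rfl
      measurableSet_compl := fun D h x y y' hy => not_congr (h x y y' hy)
      measurableSet_iUnion := fun D h x y y' hy => by
        simp only [mem_iUnion]
        exact exists_congr fun n => h n x y y' hy }
  have hle : m.prod (sub L) ≤ σ := by
    refine sup_le ?_ ?_
    · rintro _ ⟨A, -, rfl⟩ x y y' -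
      exact Iff.rfl
    · rintro _ ⟨_, ⟨B, -, rfl⟩, rfl⟩ x y y' hy
      have : (fun l : L => y l) = fun l : L => y' l := funext fun l => hy l l.2
      simp only [mem_preimage, this]
  exact hle D hD x y y' h

theorem sat_of_measurable_fun {L : Set I} {F : X × YS I → ℕ → Bool}
    (hF : Measurable[m.prod (sub L)] F) {x : X} {y y' : YS I} (h : ∀ i ∈ L, y i = y' i) :
    F (x, y) = F (x, y') := by
  funext n
  have h1 : MeasurableSet[m.prod (sub L)] {z | F z n = F (x, y') n} := by
    have h2 : MeasurableSet {v : ℕ → Bool | v n = F (x, y') n} :=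
      (measurable_pi_apply n) (measurableSet_singleton _)
    exact hF h2
  exact (sat_of_measurable h1 h).2 rfl

theorem fub_gen (L : Set I) (V : Set (X × YS (I ⊕ ℕ))) (hV : MeasurableSet V)
    (h0 : ∀ x, coin (I ⊕ ℕ) (sec V x) = 0) :
    ∃ c : X × YS I → ℕ → List Bool → Bool, Measurable[m.prod (sub L)] c ∧
      (∀ z, IsNullCode (c z)) ∧
      ∀ (D : Set (X × YS I)) (F : X × YS I → ℕ → Bool), MeasurableSet[m.prod (sub L)] D →
        Measurable[m.prod (sub L)] F → (∀ z ∈ D, F z ∉ NullOf (c z)) →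
        ∀ x, coin I {y | (x, y) ∈ D ∧ (x, Sum.elim y (F (x, y))) ∈ V} = 0 := by
  -- the points over which the rest section is not null
  let g : (((X × YS L) × YS ℕ) × YS (Lᶜ : Set I)) → X × YS (I ⊕ ℕ) := fun q =>
    (q.1.1.1, Sum.elim (glueY L q.1.1.2 q.2) q.1.2)
  have hg : Measurable g := by
    refine Measurable.prodMk (by fun_prop) ?_
    refine (coin_elim I ℕ).measurable.comp (Measurable.prodMk ?_ (by fun_prop))
    exact (measurable_glueY L).comp
      ((measurable_snd.comp (measurable_fst.comp measurable_fst)).prodMk measurable_snd)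
  let V' : Set ((X × YS L) × YS ℕ) := {q | coin (Lᶜ : Set I) (Prod.mk q ⁻¹' (g ⁻¹' V)) ≠ 0}
  have hV' : MeasurableSet V' :=
    (measurable_measure_prodMk_left (hg hV)) (measurableSet_singleton 0).compl
  obtain ⟨c, hc, hcn, hcov⟩ := exists_code hV'
  have hres : Measurable[m.prod (sub L)] fun z : X × YS I => ((z.1, fun l : L => z.2 l) : X × YS L) := by
    intro B hB
    have h1 : (m.prod (sub L)) = MeasurableSpace.comap
        (fun z : X × YS I => ((z.1, fun l : L => z.2 l) : X × YS L)) inferInstance := by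
      change _ = MeasurableSpace.comap _ (MeasurableSpace.comap _ _ ⊔ MeasurableSpace.comap _ _)
      rw [MeasurableSpace.comap_sup, MeasurableSpace.comap_comp, MeasurableSpace.comap_comp]
      change (MeasurableSpace.comap _ _ ⊔ MeasurableSpace.comap _ (MeasurableSpace.comap _ _)) = _
      rw [MeasurableSpace.comap_comp]
      rfl
    rw [h1]
    exact ⟨B, hB, rfl⟩
  refine ⟨fun z => c (z.1, fun l : L => z.2 l), hc.comp hres, fun z => hcn _, ?_⟩
  intro D F hD hF hDF x
  have hsle : m.prod (sub L) ≤ (Prod.instMeasurableSpace : MeasurableSpace (X × YS I)) := by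
    refine sup_le ?_ ?_
    · exact measurable_fst.comap_le
    · refine (MeasurableSpace.comap_mono ?_).trans measurable_snd.comap_le
      have h1 : Measurable fun (y : YS I) (l : L) => y l := by fun_prop
      exact h1.comap_le
  have hF' : Measurable F := hF.mono hsle le_rfl
  have hD' : MeasurableSet D := hsle D hD
  -- Fubini
  have hmeas : MeasurableSet {y : YS I | (x, y) ∈ D ∧ (x, Sum.elim y (F (x, y))) ∈ V} := by
    have h1 : Measurable fun y : YS I => ((x, Sum.elim y (F (x, y))) : X × YS (I ⊕ ℕ)) := by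
      refine Measurable.prodMk measurable_const ?_
      exact (coin_elim I ℕ).measurable.comp (measurable_id.prodMk (hF'.comp measurable_prodMk_left))
    exact (measurable_prodMk_left hD').inter (h1 hV)
  rw [← (coin_glue L).measure_preimage hmeas.nullMeasurableSet,
    Measure.measure_prod_null ((coin_glue L).measurable hmeas)]
  -- almost all `a`
  have hMP : MeasurePreserving (fun q : ((YS L) × (YS (Lᶜ : Set I))) × YS ℕ =>
      (Sum.elim (glueY L q.1.1 q.1.2) q.2 : I ⊕ ℕ → Bool))
      (((coin L).prod (coin (Lᶜ : Set I))).prod (coin ℕ)) (coin (I ⊕ ℕ)) :=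
    (coin_elim I ℕ).comp ((coin_glue L).prod (MeasurePreserving.id (coin ℕ)))
  have hVx : MeasurableSet (sec V x) := measurable_prodMk_left hV
  have h2 : ∀ᵐ q ∂(((coin L).prod (coin (Lᶜ : Set I))).prod (coin ℕ)),
      (x, Sum.elim (glueY L q.1.1 q.1.2) q.2) ∉ V := by
    have := hMP.measure_preimage hVx.nullMeasurableSet
    rw [h0 x] at this
    exact measure_eq_zero_iff_ae_notMem.1 this
  have h3 := Measure.ae_ae_of_ae_prod (Measure.ae_ae_of_ae_prod h2)
  filter_upwards [h3] with a ha
  have hcomm : ∀ᵐ z ∂(coin ℕ), ∀ᵐ b ∂(coin (Lᶜ : Set I)), (x, Sum.elim (glueY L a b) z) ∉ V := by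
    have hset : MeasurableSet {p : YS (Lᶜ : Set I) × YS ℕ |
        (x, Sum.elim (glueY L a p.1) p.2) ∉ V} := by
      have h4 : Measurable fun p : YS (Lᶜ : Set I) × YS ℕ =>
          ((x, Sum.elim (glueY L a p.1) p.2) : X × YS (I ⊕ ℕ)) := by
        refine Measurable.prodMk measurable_const ?_
        refine (coin_elim I ℕ).measurable.comp (Measurable.prodMk ?_ measurable_snd)
        exact (measurable_glueY L).comp (measurable_const.prodMk measurable_fst)
      exact (h4 hV).compl
    exact (Measure.ae_ae_comm hset).1 ha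
  have hnull : coin ℕ (Prod.mk (x, a) ⁻¹' V') = 0 := by
    rw [measure_eq_zero_iff_ae_notMem]
    filter_upwards [hcomm] with z hz
    intro hz'
    exact hz' (measure_eq_zero_iff_ae_notMem.2 hz)
  have hsub := hcov (x, a) hnull
  by_cases hx : ∃ b, (x, glueY L a b) ∈ D
  · obtain ⟨b₀, hb₀⟩ := hx
    have hsame : ∀ b, ∀ i ∈ L, glueY L a b₀ i = glueY L a b i := fun b i hi => by
      rw [show i = ((⟨i, hi⟩ : L) : I) from rfl, glueY_mem, glueY_mem]
    have hz : F (x, glueY L a b₀) ∉ Prod.mk (x, a) ⁻¹' V' := by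
      intro h5
      have h6 := hDF _ hb₀
      have h7 : (fun l : L => glueY L a b₀ l) = a := funext fun l => glueY_mem a b₀ l
      simp only [h7] at h6
      exact h6 (hsub h5)
    have h8 : coin (Lᶜ : Set I) {b | (x, Sum.elim (glueY L a b) (F (x, glueY L a b₀))) ∈ V} = 0 := by
      by_contra h9
      exact hz h9
    refine measure_mono_null ?_ h8
    rintro b ⟨-, hb⟩
    rw [sat_of_measurable_fun hF (hsame b)]
    exact hb
  · have : Prod.mk a ⁻¹' ((fun p : (L → Bool) × ((Lᶜ : Set I) → Bool) => glueY L p.1 p.2) ⁻¹'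
        {y | (x, y) ∈ D ∧ (x, Sum.elim y (F (x, y))) ∈ V}) = ∅ := by
      ext b
      simp only [mem_preimage, mem_ofPred_eq, mem_empty_iff_false, iff_false]
      exact fun h => hx ⟨b, h.1⟩
    rw [this]
    simp

end

theorem fub {K I : Type} [Preorder K] (d : K) (L : Set I) (V : Set (XS K × YS (I ⊕ ℕ)))
    (hV : MeasurableSet[(lev d).prod inferInstance] V) (h0 : ∀ x, coin (I ⊕ ℕ) (sec V x) = 0) :
    ∃ c : XS K × YS I → ℕ → List Bool → Bool, Measurable[bd d L] c ∧ (∀ z, IsNullCode (c z)) ∧
      ∀ (D : Set (XS K × YS I)) (F : XS K × YS I → ℕ → Bool), MeasurableSet[bd d L] D →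
        Measurable[bd d L] F → (∀ z ∈ D, F z ∉ NullOf (c z)) →
        ∀ x, coin I {y | (x, y) ∈ D ∧ (x, Sum.elim y (F (x, y))) ∈ V} = 0 :=
  @fub_gen (XS K) I (lev d) L V hV h0

/-- The code of a null set as a set with null sections in the sum. -/
theorem code_sum {K I : Type} (c : XS K × YS I → ℕ → List Bool → Bool) (hc : Measurable c)
    (h : ∀ z, IsNullCode (c z)) :
    MeasurableSet {p : XS K × YS (I ⊕ ℕ) | (fun n => p.2 (.inr n)) ∈
      NullOf (c (p.1, fun i => p.2 (.inl i)))} ∧
    ∀ x, coin (I ⊕ ℕ) {w | (fun n => w (.inr n)) ∈ NullOf (c (x, fun i => w (.inl i)))} = 0 :=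
  code_sum_gen c hc h

theorem coin_null {u : ℕ → List Bool → Bool} (hu : IsNullCode u) : coin ℕ (NullOf u) = 0 :=
  hu.coin_nullOf

theorem measurableSet_null {Z : Type} [MeasurableSpace Z] {c : Z → ℕ → List Bool → Bool}
    (hc : Measurable c) : MeasurableSet {p : Z × YS ℕ | p.2 ∈ NullOf (c p.1)} :=
  measurableSet_nullOf hc

theorem reg {Z : Type} [MeasurableSpace Z] (W : Set (Z × YS ℕ)) (hW : MeasurableSet W) :
    ∃ c : Z → ℕ → List Bool → Bool, Measurable c ∧ (∀ z, IsNullCode (c z)) ∧
      ∀ z, coin ℕ (sec W z) = 0 → sec W z ⊆ NullOf (c z) :=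
  exists_code hW

end Pool.Agent.GPA
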