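import Pool.Agent.GPA.RandomPart

/-!
# The chain condition
-/

open MeasureTheory Cardinal Set
open scoped ENNReal

namespace Pool.Agent.GPA

/-- Among more than `n + 1` sets of measure more than `1 / (n + 1)` two have an intersection of
positive measure. -/
theorem exists_inter_pos {Y ι : Type*} [MeasurableSpace Y] (ν : Measure Y) [IsProbabilityMeasure ν]
    (n : ℕ) (s : Finset ι) (hs : s.card = n + 2) (t : ι → Set Y)
    (ht : ∀ i ∈ s, MeasurableSet (t i)) (hpos : ∀ i ∈ s, ((n : ℝ≥0∞) + 1)⁻¹ < ν (t i)) :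
    ∃ i ∈ s, ∃ j ∈ s, i ≠ j ∧ 0 < ν (t i ∩ t j) := by
  by_contra hcon
  push Not at hcon
  have hd : Set.Pairwise (↑s) (Function.onFun (AEDisjoint ν) t) := by
    intro i hi j hj hij
    exact le_antisymm (hcon i hi j hj hij) bot_le
  have h1 := measure_biUnion_finset₀ hd fun i hi => (ht i hi).nullMeasurableSet
  have h2 : ν (⋃ b ∈ s, t b) ≤ 1 := prob_le_one
  have h3 : (1 : ℝ≥0∞) < ∑ i ∈ s, ν (t i) := by
    have h4 : ∑ _i ∈ s, ((n : ℝ≥0∞) + 1)⁻¹ ≤ ∑ i ∈ s, ν (t i) :=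
      Finset.sum_le_sum fun i hi => (hpos i hi).le
    refine lt_of_lt_of_le ?_ h4
    rw [Finset.sum_const, hs, nsmul_eq_mul]
    have h5 : ((n : ℝ≥0∞) + 1) * ((n : ℝ≥0∞) + 1)⁻¹ = 1 :=
      ENNReal.mul_inv_cancel (by positivity) (by finiteness)
    calc (1 : ℝ≥0∞) = ((n : ℝ≥0∞) + 1) * ((n : ℝ≥0∞) + 1)⁻¹ := h5.symm
      _ < (((n + 2 : ℕ) : ℝ≥0∞)) * ((n : ℝ≥0∞) + 1)⁻¹ := by
        refine ENNReal.mul_lt_mul_left ?_ ?_ ?_
        · exact ENNReal.inv_ne_zero.2 (by finiteness)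
        · exact ENNReal.inv_ne_top.2 (by positivity)
        · have : (n : ℝ≥0∞) + 1 = ((n + 1 : ℕ) : ℝ≥0∞) := by push_cast; rfl
          rw [this]
          exact_mod_cast Nat.lt_succ_self (n + 1)
  rw [← h1] at h3
  exact absurd h3 (not_lt.2 h2)

theorem cc {K : Type} [LinearOrder K] [WellFoundedLT K] (S : LavSys K) (I : Type)
    (𝒜 : Set (Set (XS K × YS I))) (h𝒜 : 𝒜 ⊆ QQ S.P (coin I))
    (h : ∀ p ∈ 𝒜, ∀ q ∈ 𝒜, p ≠ q → ∀ r ∈ QQ S.P (coin I), r ⊆ p → ¬ r ⊆ q) :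
    #𝒜 < Order.succ 𝔠 := by
  by_contra hcon
  rw [not_lt, ← S.mk_K] at hcon
  obtain ⟨f⟩ : Nonempty (K ↪ 𝒜) := by simpa [Cardinal.le_def] using hcon
  -- shrink the bases
  have h1 : ∀ k : K, ∃ n : ℕ, ∃ B ∈ S.P, ∀ x ∈ B, ((n : ℝ≥0∞) + 1)⁻¹ < coin I (sec (f k).1 x) := by
    intro k
    obtain ⟨A, hA, -, hpos⟩ := QQ.exists_base (h𝒜 (f k).2)
    obtain ⟨n, B, hB, -, hn⟩ := S.ppos.dec' (ι := ℕ)
      (fun n => {x | ((n : ℝ≥0∞) + 1)⁻¹ < coin I (sec (f k).1 x)})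
      (fun n => measurableSet_lt measurable_const (measurable_sec (h𝒜 (f k).2).1)) hA (by
        intro x hx
        obtain ⟨n, hn⟩ := ENNReal.exists_inv_nat_lt (hpos x hx).ne'
        refine mem_iUnion.2 ⟨n, lt_of_le_of_lt ?_ hn⟩
        exact ENNReal.inv_le_inv.2 le_self_add)
    exact ⟨n, B, hB, fun x hx => hn hx⟩
  choose n B hB hn using h1
  -- make `n` constant
  have hreg : (Order.succ 𝔠).IsRegular := isRegular_succ aleph0_le_continuum
  obtain ⟨N, hN⟩ := Cardinal.infinite_pigeonhole_card n (Order.succ 𝔠) S.mk_K.ge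
    (hreg.aleph0_le) (by
      rw [hreg.cof_ord, mk_nat]
      exact lt_of_lt_of_le aleph0_lt_continuum (Order.le_succ _))
  rw [← S.mk_K] at hN
  obtain ⟨g⟩ : Nonempty (K ↪ n ⁻¹' {N}) := by simpa [Cardinal.le_def] using hN
  obtain ⟨s, hs, C, hC, hCs⟩ := S.knaster (fun k => B (g k).1) (fun k => hB _) (N + 2)
  have hgN : ∀ k, n (g k).1 = N := fun k => (g k).2
  let D : K → Set (XS K × YS I) := fun k => (f (g k).1).1
  have hD : ∀ k, MeasurableSet (D k) := fun k => (h𝒜 (f (g k).1).2).1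
  obtain ⟨⟨⟨i, j⟩, hq⟩, B', hB', -, hpos⟩ := S.ppos.dec' (ι := s.offDiag)
    (fun q => {x | 0 < coin I (sec (D q.1.1 ∩ D q.1.2) x)})
    (fun q => measurableSet_lt measurable_const (measurable_sec ((hD _).inter (hD _)))) hC (by
      intro x hx
      obtain ⟨i, hi, j, hj, hij, hpos⟩ := exists_inter_pos (coin I) N s hs (fun k => sec (D k) x)
        (fun k _ => measurableSet_sec (hD k) x) (fun k hk => by
          have := hn (g k).1 x (hCs k hk hx)
          rwa [hgN] at this)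
      exact mem_iUnion.2 ⟨⟨(i, j), Finset.mem_offDiag.2 ⟨hi, hj, hij⟩⟩, hpos⟩)
  rw [Finset.mem_offDiag] at hq
  have hr := S.ppos.mem_QQ (ν := coin I) ((hD i).inter (hD j)) hB' fun x hx => (hpos hx).ne'
  refine h _ (f (g i).1).2 _ (f (g j).1).2 ?_ _ hr
    (inter_subset_left.trans inter_subset_left) (inter_subset_left.trans inter_subset_right)
  intro heq
  exact hq.2.2 (g.injective (Subtype.ext (f.injective (Subtype.ext heq))))

end Pool.Agent.GPA
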