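import Pool.Agent.GPA.LavSys

/-!
# Supports, counting and closing off for the `σ`-algebras `bd d L`
-/

open MeasureTheory Cardinal Set
open scoped ENNReal

namespace Pool.Agent.GPA

/-! ### The `σ`-algebras `lev d`, `sub L`, `bd d L` -/

section
variable {K I : Type} [Preorder K]

theorem lev_coord {b d : K} (h : b < d) : Measurable[lev d] fun x : XS K => x b := by
  have h1 : Measurable[lev d] fun (x : XS K) (b : Set.Iio d) => x b := comap_measurable _
  exact (measurable_pi_apply (⟨b, h⟩ : Set.Iio d)).comp h1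

theorem ysub_coord {L : Set I} {l : I} (h : l ∈ L) : Measurable[sub L] fun y : YS I => y l := by
  have h1 : Measurable[sub L] fun (y : YS I) (l : L) => y l := comap_measurable _
  exact (measurable_pi_apply (⟨l, h⟩ : L)).comp h1

theorem lev_le_of {d : K} {m : MeasurableSpace (XS K)}
    (h : ∀ b, b < d → Measurable[m] fun x : XS K => x b) : lev d ≤ m := by
  refine Measurable.comap_le ?_
  exact measurable_pi_iff.2 fun b => h b.1 b.2

theorem ysub_le_of {L : Set I} {m : MeasurableSpace (YS I)}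
    (h : ∀ l, l ∈ L → Measurable[m] fun y : YS I => y l) : sub L ≤ m := by
  refine Measurable.comap_le ?_
  exact measurable_pi_iff.2 fun l => h l.1 l.2

theorem bd_fst (d : K) (L : Set I) :
    @Measurable _ _ (bd d L) (lev d) (fun z : XS K × YS I => z.1) := by
  intro s hs
  exact (le_sup_left : MeasurableSpace.comap Prod.fst (lev d) ≤ bd d L) _ ⟨s, hs, rfl⟩

theorem bd_snd (d : K) (L : Set I) :
    @Measurable _ _ (bd d L) (sub L) (fun z : XS K × YS I => z.2) := by
  intro s hs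
  exact (le_sup_right : MeasurableSpace.comap Prod.snd (sub L) ≤ bd d L) _ ⟨s, hs, rfl⟩

theorem bd_le_of {d : K} {L : Set I} {m : MeasurableSpace (XS K × YS I)}
    (h1 : ∀ b, b < d → Measurable[m] fun z : XS K × YS I => z.1 b)
    (h2 : ∀ l, l ∈ L → Measurable[m] fun z : XS K × YS I => z.2 l) : bd d L ≤ m := by
  refine sup_le ?_ ?_
  · refine MeasurableSpace.comap_le_iff_le_map.2 ?_
    refine lev_le_of fun b hb => ?_
    intro s hs
    exact h1 b hb hs
  · refine MeasurableSpace.comap_le_iff_le_map.2 ?_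
    refine ysub_le_of fun l hl => ?_
    intro s hs
    exact h2 l hl hs

theorem bd_coord {b d : K} (h : b < d) (L : Set I) :
    Measurable[bd d L] fun z : XS K × YS I => z.1 b := by
  have h1 := bd_fst d L
  exact (lev_coord h).comp h1

theorem bd_coord' (d : K) {L : Set I} {l : I} (h : l ∈ L) :
    Measurable[bd d L] fun z : XS K × YS I => z.2 l := by
  have h1 := bd_snd d L
  exact (ysub_coord h).comp h1

theorem lev_mono {d e : K} (h : d ≤ e) : lev d ≤ lev e :=
  lev_le_of fun _ hb => lev_coord (hb.trans_le h)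

theorem ysub_mono {L M : Set I} (h : L ⊆ M) : sub L ≤ sub M :=
  ysub_le_of fun _ hl => ysub_coord (h hl)

theorem bd_mono {d e : K} {L M : Set I} (h : d ≤ e) (h' : L ⊆ M) :
    (bd d L : MeasurableSpace (XS K × YS I)) ≤ bd e M :=
  bd_le_of (fun _ hb => bd_coord (hb.trans_le h) M) fun _ hl => bd_coord' e (h' hl)

theorem lev_le_pi (d : K) : lev d ≤ (MeasurableSpace.pi : MeasurableSpace (XS K)) :=
  lev_le_of fun b _ => measurable_pi_apply b

theorem ysub_le (L : Set I) : sub L ≤ (MeasurableSpace.pi : MeasurableSpace (YS I)) :=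
  ysub_le_of fun l _ => measurable_pi_apply l

theorem bd_le (d : K) (L : Set I) :
    (bd d L : MeasurableSpace (XS K × YS I)) ≤ Prod.instMeasurableSpace :=
  bd_le_of (fun b _ => (measurable_pi_apply b).comp measurable_fst)
    fun l _ => (measurable_pi_apply l).comp measurable_snd

end

/-! ### Upper bounds -/

theorem exists_ub_of {K : Type} [LinearOrder K] {c : Cardinal.{0}} (hc : ℵ₀ ≤ c) (hK : c < #K)
    (hI : ∀ d : K, #(Set.Iio d) ≤ c) (s : Set K) (hs : #s ≤ c) : ∃ d : K, ∀ b ∈ s, b < d := by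
  by_contra hn
  push Not at hn
  have hcov : (Set.univ : Set K) ⊆ ⋃ b ∈ s, Set.Iic b := by
    intro d _
    obtain ⟨b, hb, hdb⟩ := hn d
    exact Set.mem_biUnion hb hdb
  have hIic : ∀ b : K, #(Set.Iic b) ≤ c := by
    intro b
    rw [← Set.Iio_insert]
    refine mk_insert_le.trans ?_
    exact add_le_of_le hc (hI b) (one_le_aleph0.trans hc)
  have h1 : #K ≤ c := by
    rw [← mk_univ]
    refine (mk_le_mk_of_subset hcov).trans ?_
    refine (mk_biUnion_le _ _).trans ?_
    refine (mul_le_mul' hs (ciSup_le' fun b : s => hIic b)).trans ?_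
    exact (mul_eq_self hc).le
  exact absurd h1 (not_le.2 hK)

section
variable {K I : Type} [LinearOrder K] [WellFoundedLT K]

omit [WellFoundedLT K] in
theorem exists_ub (hK : #K = Order.succ 𝔠) (hI : ∀ d : K, #(Set.Iio d) ≤ 𝔠) (s : Set K)
    (hs : #s ≤ 𝔠) : ∃ d : K, ∀ b ∈ s, b < d :=
  exists_ub_of aleph0_le_continuum (by rw [hK]; exact Order.lt_succ _) hI s hs

omit [WellFoundedLT K] in
theorem exists_bd (hK : #K = Order.succ 𝔠) (hI : ∀ d : K, #(Set.Iio d) ≤ 𝔠)
    (E : ℕ → Set (XS K × YS I)) (hE : ∀ n, MeasurableSet (E n)) :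
    ∃ (d : K) (L : Set I), L.Countable ∧ ∀ n, MeasurableSet[bd d L] (E n) := by
  have hcnt : ∀ (d : ℕ → K) (L : ℕ → Set I), (∀ n, (L n).Countable) →
      ∃ (e : K) (M : Set I), M.Countable ∧ ∀ n, d n ≤ e ∧ L n ⊆ M := by
    intro d L hL
    obtain ⟨e, he⟩ := exists_ub hK hI (Set.range d)
      ((le_aleph0_iff_set_countable.2 (countable_range d)).trans aleph0_le_continuum)
    exact ⟨e, ⋃ n, L n, countable_iUnion hL, fun n => ⟨(he _ ⟨n, rfl⟩).le, subset_iUnion L n⟩⟩
  let m : MeasurableSpace (XS K × YS I) :=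
    { MeasurableSet' := fun E => ∃ (d : K) (L : Set I), L.Countable ∧ MeasurableSet[bd d L] E
      measurableSet_empty := by
        obtain ⟨d, -⟩ := exists_ub hK hI ∅ (by simp)
        exact ⟨d, ∅, countable_empty, @MeasurableSet.empty _ (bd d ∅)⟩
      measurableSet_compl := by
        rintro E ⟨d, L, hL, h⟩
        exact ⟨d, L, hL, @MeasurableSet.compl _ _ (bd d L) h⟩
      measurableSet_iUnion := by
        intro E hE
        choose d L hL h using hE
        obtain ⟨e, M, hM, hem⟩ := hcnt d L hL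
        exact ⟨e, M, hM, @MeasurableSet.iUnion _ _ (bd e M) _ _ fun n =>
          bd_mono (hem n).1 (hem n).2 _ (h n)⟩ }
  have hm : (Prod.instMeasurableSpace : MeasurableSpace (XS K × YS I)) ≤ m := by
    refine sup_le ?_ ?_
    · refine MeasurableSpace.comap_le_iff_le_map.2 ?_
      refine iSup_le fun b => ?_
      refine MeasurableSpace.comap_le_iff_le_map.2 ?_
      intro s hs
      obtain ⟨d, hd⟩ := exists_ub hK hI {b}
        (by rw [mk_singleton]; exact one_le_aleph0.trans aleph0_le_continuum)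
      exact ⟨d, ∅, countable_empty, bd_coord (hd b rfl) ∅ hs⟩
    · refine MeasurableSpace.comap_le_iff_le_map.2 ?_
      refine iSup_le fun l => ?_
      refine MeasurableSpace.comap_le_iff_le_map.2 ?_
      intro s hs
      obtain ⟨d, -⟩ := exists_ub hK hI ∅ (by simp)
      exact ⟨d, {l}, countable_singleton l, bd_coord' d (Set.mem_singleton l) hs⟩
  have h1 : ∀ n, ∃ (d : K) (L : Set I), L.Countable ∧ MeasurableSet[bd d L] (E n) :=
    fun n => hm _ (hE n)
  choose d L hL h using h1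
  obtain ⟨e, M, hM, hem⟩ := hcnt d L hL
  exact ⟨e, M, hM, fun n => bd_mono (hem n).1 (hem n).2 _ (h n)⟩

omit [WellFoundedLT K] in
/-- There are at most `𝔠` sets in `bd d L`. -/
theorem mk_bd (hI : ∀ d : K, #(Set.Iio d) ≤ 𝔠) (d : K) (L : Set I)
    (hL : #L ≤ 𝔠) : #{E : Set (XS K × YS I) // MeasurableSet[bd d L] E} ≤ 𝔠 := by
  let s : Set (Set (XS K × YS I)) :=
    Set.range (fun p : Set.Iio d × ℕ × ℕ => {z : XS K × YS I | z.1 p.1 p.2.1 = p.2.2}) ∪
      Set.range (fun l : L => {z : XS K × YS I | z.2 l = true})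
  have hs : #s ≤ 𝔠 := by
    refine (mk_union_le _ _).trans ?_
    refine add_le_of_le aleph0_le_continuum ?_ ?_
    · refine mk_range_le.trans ?_
      simp only [mk_prod, lift_id, mk_nat]
      refine mul_le_of_le aleph0_le_continuum (hI d) ?_
      rw [aleph0_mul_aleph0]
      exact aleph0_le_continuum
    · exact mk_range_le.trans hL
  have hle : (bd d L : MeasurableSpace (XS K × YS I)) ≤ MeasurableSpace.generateFrom s := by
    refine bd_le_of (fun b hb => ?_) fun l hl => ?_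
    · refine (@measurable_pi_iff _ _ _ (MeasurableSpace.generateFrom s) _ _).2 fun n => ?_
      refine @measurable_to_countable' _ _ _ _ (MeasurableSpace.generateFrom s) _ fun k => ?_
      exact MeasurableSpace.measurableSet_generateFrom (Or.inl ⟨(⟨b, hb⟩, n, k), rfl⟩)
    · refine @measurable_to_bool _ (MeasurableSpace.generateFrom s) _ ?_
      exact MeasurableSpace.measurableSet_generateFrom (Or.inr ⟨⟨l, hl⟩, rfl⟩)
  refine le_trans ?_ (MeasurableSpace.cardinal_measurableSet_le_continuum hs)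
  exact mk_le_mk_of_subset (s := {E | MeasurableSet[bd d L] E})
    (t := {E | MeasurableSet[MeasurableSpace.generateFrom s] E}) fun E hE => hle E hE

omit [WellFoundedLT K] in
/-- Functions into a countable power of `Bool`. -/
theorem mk_fun (hI : ∀ d : K, #(Set.Iio d) ≤ 𝔠) (ι : Type) [Countable ι] (d : K) (L : Set I)
    (hL : #L ≤ 𝔠) : #{F : XS K × YS I → ι → Bool // Measurable[bd d L] F} ≤ 𝔠 := by
  have h1 : ∀ (F : {F : XS K × YS I → ι → Bool // Measurable[bd d L] F}) (i : ι),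
      MeasurableSet[bd d L] {z | F.1 z i = true} := by
    intro F i
    have h2 : Measurable[bd d L] fun z => F.1 z i := (measurable_pi_apply i).comp F.2
    exact h2 (MeasurableSet.singleton true)
  have h3 : #{F : XS K × YS I → ι → Bool // Measurable[bd d L] F} ≤
      #(ι → {E : Set (XS K × YS I) // MeasurableSet[bd d L] E}) := by
    refine mk_le_of_injective (f := fun F i => ⟨_, h1 F i⟩) ?_
    intro F G hFG
    refine Subtype.ext (funext fun z => funext fun i => ?_)
    have h4 : {z | F.1 z i = true} = {z | G.1 z i = true} :=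
      congrArg Subtype.val (congrFun hFG i)
    have h5 : z ∈ {z | F.1 z i = true} ↔ z ∈ {z | G.1 z i = true} := by rw [h4]
    simp only [Set.mem_ofPred_eq] at h5
    cases hF : F.1 z i <;> cases hG : G.1 z i <;> simp_all
  refine h3.trans ?_
  rw [mk_pi, prod_const, lift_id, lift_id]
  refine (power_le_power_right (mk_bd hI d L hL)).trans ?_
  refine (power_le_power_left continuum_ne_zero (mk_le_aleph0 (α := ι))).trans ?_
  rw [continuum_power_aleph0]

/-- Closing off. The pairs `(d, L)` with `#L ≤ 𝔠` are ordered coordinatewise. -/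
theorem closing (hK : #K = Order.succ 𝔠) (hI : ∀ d : K, #(Set.Iio d) ≤ 𝔠)
    (h : K × Set I → K × Set I) (hh : ∀ t, #t.2 ≤ 𝔠 → #(h t).2 ≤ 𝔠) (t₀ : K × Set I)
    (ht₀ : #t₀.2 ≤ 𝔠) :
    ∃ (W : Type) (g : W → K × Set I) (d : K) (L : Set I), #L ≤ 𝔠 ∧ (∀ w, #(g w).2 ≤ 𝔠) ∧
      (∀ w, (g w).1 < d ∧ (g w).2 ⊆ L) ∧ (∃ w, t₀.1 ≤ (g w).1 ∧ t₀.2 ⊆ (g w).2) ∧
      (∀ w, ∃ w', (h (g w)).1 ≤ (g w').1 ∧ (h (g w)).2 ⊆ (g w').2) ∧
      (∀ w w', ∃ v, (g w).1 ≤ (g v).1 ∧ (g w).2 ⊆ (g v).2 ∧ (g w').1 ≤ (g v).1 ∧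
        (g w').2 ⊆ (g v).2) ∧
      ∀ E : ℕ → Set (XS K × YS I), (∀ n, MeasurableSet[bd d L] (E n)) →
        ∃ w, ∀ n, MeasurableSet[bd (g w).1 (g w).2] (E n) := by
  classical
  let W : Type := (aleph 1 : Cardinal.{0}).ord.ToType
  have hW1 : #W = Order.succ ℵ₀ := by
    rw [show #W = aleph 1 from mk_ord_toType _, ← succ_aleph0]
  have hW : ℵ₀ < #W := by rw [hW1]; exact Order.lt_succ _
  have hWI : ∀ w : W, #(Set.Iio w) ≤ ℵ₀ := by
    intro w
    have h1 : #(Set.Iio w) < #W := mk_Iio_lt w (by simp [W])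
    rw [hW1] at h1
    exact Order.lt_succ_iff.1 h1
  have hWc : #W ≤ 𝔠 := by
    rw [show #W = aleph 1 from mk_ord_toType _]
    exact aleph_one_le_continuum
  have hWub : ∀ s : Set W, s.Countable → ∃ w : W, ∀ v ∈ s, v < w := fun s hs =>
    exists_ub_of le_rfl hW hWI s (le_aleph0_iff_set_countable.2 hs)
  -- upper bounds
  let ub : Set (K × Set I) → K × Set I := fun T =>
    if hT : ∃ d, ∀ t ∈ T, t.1 < d then (hT.choose, ⋃ t ∈ T, t.2) else t₀
  have hub : ∀ T : Set (K × Set I), T.Countable → (∀ t ∈ T, t.1 < (ub T).1) ∧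
      (ub T).2 = ⋃ t ∈ T, t.2 := by
    intro T hT
    have h1 : ∃ d, ∀ t ∈ T, t.1 < d := by
      obtain ⟨d, hd⟩ := exists_ub hK hI (Prod.fst '' T)
        ((le_aleph0_iff_set_countable.2 (hT.image _)).trans aleph0_le_continuum)
      exact ⟨d, fun t ht => hd _ ⟨t, ht, rfl⟩⟩
    simp only [ub, dif_pos h1]
    exact ⟨h1.choose_spec, trivial⟩
  have hg : ∃ g : W → K × Set I, ∀ w, g w = ub ({t₀} ∪ ⋃ v : Set.Iio w, {g v.1, h (g v.1)}) :=
    ⟨(wellFounded_lt (α := W)).fix fun w ih =>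
      ub ({t₀} ∪ ⋃ v : Set.Iio w, {ih v.1 v.2, h (ih v.1 v.2)}), fun w =>
        WellFounded.fix_eq _ _ _⟩
  obtain ⟨g, hg⟩ := hg
  have hT : ∀ w, ({t₀} ∪ ⋃ v : Set.Iio w, ({g v.1, h (g v.1)} : Set (K × Set I))).Countable := by
    intro w
    have : Countable (Set.Iio w) := mk_le_aleph0_iff.1 (hWI w)
    refine (countable_singleton _).union (countable_iUnion fun v => ?_)
    exact (Set.toFinite _).countable
  have hlt : ∀ w, ∀ t ∈ ({t₀} ∪ ⋃ v : Set.Iio w, ({g v.1, h (g v.1)} : Set (K × Set I))),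
      t.1 < (g w).1 ∧ t.2 ⊆ (g w).2 := by
    intro w t ht
    rw [hg w]
    refine ⟨(hub _ (hT w)).1 t ht, ?_⟩
    rw [(hub _ (hT w)).2]
    exact subset_biUnion_of_mem (u := fun t : K × Set I => t.2) ht
  have h0 : ∀ w, t₀.1 < (g w).1 ∧ t₀.2 ⊆ (g w).2 := fun w => hlt w t₀ (Or.inl rfl)
  have h1 : ∀ v w, v < w → (g v).1 < (g w).1 ∧ (g v).2 ⊆ (g w).2 := fun v w hvw =>
    hlt w (g v) (Or.inr (mem_iUnion.2 ⟨⟨v, hvw⟩, Or.inl rfl⟩))
  have h2 : ∀ v w, v < w → (h (g v)).1 < (g w).1 ∧ (h (g v)).2 ⊆ (g w).2 := fun v w hvw =>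
    hlt w (h (g v)) (Or.inr (mem_iUnion.2 ⟨⟨v, hvw⟩, Or.inr rfl⟩))
  have h1' : ∀ v w, v ≤ w → (g v).1 ≤ (g w).1 ∧ (g v).2 ⊆ (g w).2 := by
    intro v w hvw
    rcases hvw.eq_or_lt with rfl | hvw
    · exact ⟨le_rfl, subset_rfl⟩
    · exact ⟨(h1 v w hvw).1.le, (h1 v w hvw).2⟩
  have hcard : ∀ w, #(g w).2 ≤ 𝔠 := by
    intro w
    induction w using WellFoundedLT.induction with
    | ind w ih =>
      rw [hg w, (hub _ (hT w)).2]
      refine (mk_biUnion_le _ _).trans ?_
      refine mul_le_of_le aleph0_le_continuum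
        ((le_aleph0_iff_set_countable.2 (hT w)).trans aleph0_le_continuum) ?_
      have hall : ∀ t ∈ ({t₀} ∪ ⋃ v : Set.Iio w, ({g v.1, h (g v.1)} : Set (K × Set I))),
          #t.2 ≤ 𝔠 := ?_
      · exact ciSup_le' fun t => hall t.1 t.2
      rintro t (ht | ht)
      · rw [Set.mem_singleton_iff] at ht
        subst ht
        exact ht₀
      · obtain ⟨v, ht⟩ := mem_iUnion.1 ht
        rcases ht with ht | ht
        · rw [ht]
          exact ih v.1 v.2
        · rw [Set.mem_singleton_iff] at ht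
          rw [ht]
          exact hh _ (ih v.1 v.2)
  -- the supremum
  have hd : ∃ d : K, ∀ w, (g w).1 < d := by
    obtain ⟨d, hd⟩ := exists_ub hK hI (Set.range fun w => (g w).1) (mk_range_le.trans hWc)
    exact ⟨d, fun w => hd _ ⟨w, rfl⟩⟩
  obtain ⟨d, hd1, hd2⟩ : ∃ d : K, (∀ w, (g w).1 < d) ∧ ∀ b, b < d → ∃ w, b < (g w).1 := by
    refine ⟨wellFounded_lt.min {d : K | ∀ w, (g w).1 < d} hd,
      wellFounded_lt.min_mem {d : K | ∀ w, (g w).1 < d} hd, fun b hb => ?_⟩
    have hb' : b ∉ {d : K | ∀ w, (g w).1 < d} := fun hb' =>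
      wellFounded_lt.not_lt_min {d : K | ∀ w, (g w).1 < d} hb' hb
    simp only [Set.mem_ofPred_eq, not_forall, not_lt] at hb'
    obtain ⟨w, hw⟩ := hb'
    obtain ⟨w', hw'⟩ := hWub {w} (countable_singleton w)
    exact ⟨w', hw.trans_lt (h1 w w' (hw' w rfl)).1⟩
  obtain ⟨w₀, -⟩ := hWub ∅ countable_empty
  refine ⟨W, g, d, ⋃ w, (g w).2, ?_, hcard, fun w => ⟨hd1 w, subset_iUnion (fun w => (g w).2) w⟩,
    ⟨w₀, (h0 w₀).1.le, (h0 w₀).2⟩, ?_, ?_, ?_⟩
  · refine (mk_iUnion_le _).trans ?_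
    exact mul_le_of_le aleph0_le_continuum hWc (ciSup_le' hcard)
  · intro w
    obtain ⟨w', hw'⟩ := hWub {w} (countable_singleton w)
    exact ⟨w', (h2 w w' (hw' w rfl)).1.le, (h2 w w' (hw' w rfl)).2⟩
  · intro w w'
    exact ⟨max w w', (h1' _ _ (le_max_left _ _)).1, (h1' _ _ (le_max_left _ _)).2,
      (h1' _ _ (le_max_right _ _)).1, (h1' _ _ (le_max_right _ _)).2⟩
  · intro E hE
    have hcnt : ∀ w : ℕ → W, ∃ v : W, ∀ n, w n ≤ v := fun w => by
      obtain ⟨v, hv⟩ := hWub (Set.range w) (countable_range w)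
      exact ⟨v, fun n => (hv _ ⟨n, rfl⟩).le⟩
    let m : MeasurableSpace (XS K × YS I) :=
      { MeasurableSet' := fun E => ∃ w : W, MeasurableSet[bd (g w).1 (g w).2] E
        measurableSet_empty := ⟨w₀, @MeasurableSet.empty _ (bd (g w₀).1 (g w₀).2)⟩
        measurableSet_compl := by
          rintro E ⟨w, h⟩
          exact ⟨w, @MeasurableSet.compl _ _ (bd (g w).1 (g w).2) h⟩
        measurableSet_iUnion := by
          intro E hE
          choose w hw using hE
          obtain ⟨v, hv⟩ := hcnt w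
          exact ⟨v, @MeasurableSet.iUnion _ _ (bd (g v).1 (g v).2) _ _ fun n =>
            bd_mono (h1' _ _ (hv n)).1 (h1' _ _ (hv n)).2 _ (hw n)⟩ }
    have hm : (bd d (⋃ w, (g w).2) : MeasurableSpace (XS K × YS I)) ≤ m := by
      refine bd_le_of (fun b hb => ?_) fun l hl => ?_
      · obtain ⟨w, hw⟩ := hd2 b hb
        intro s hs
        exact ⟨w, bd_coord hw _ hs⟩
      · obtain ⟨w, hw⟩ := mem_iUnion.1 hl
        intro s hs
        exact ⟨w, bd_coord' _ hw hs⟩
    have h3 : ∀ n, ∃ w : W, MeasurableSet[bd (g w).1 (g w).2] (E n) := fun n => hm _ (hE n)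
    choose w hw using h3
    obtain ⟨v, hv⟩ := hcnt w
    exact ⟨v, fun n => bd_mono (h1' _ _ (hv n)).1 (h1' _ _ (hv n)).2 _ (hw n)⟩

end

end Pool.Agent.GPA
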