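import Pool.Agent.GPA.RandomPart
import Pool.Agent.GPA.RSup

/-!
# Functions of the extension are dominated
-/

open MeasureTheory Cardinal Set Filter Topology
open scoped ENNReal

namespace Pool.Agent.GPA

/-- A function which bounds `G` up to small measure. -/
theorem exists_bound {X Y : Type} [MeasurableSpace X] [MeasurableSpace Y] (ν : Measure Y)
    [IsFiniteMeasure ν] (G : X × Y → ℕ → ℕ) (hG : Measurable G) (c : ℕ → ℝ≥0∞)
    (hc : ∀ n, c n ≠ 0) :
    ∃ H : X → ℕ → ℕ, Measurable H ∧ ∀ x n, ν {y | H x n < G (x, y) n} ≤ c n := by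
  classical
  have hGn : ∀ n, Measurable fun z => G z n := fun n => (measurable_pi_apply n).comp hG
  have hE : ∀ n k, MeasurableSet {z : X × Y | k < G z n} := fun n k =>
    measurableSet_lt measurable_const (hGn n)
  have hex : ∀ n x, ∃ k, ν (sec {z : X × Y | k < G z n} x) ≤ c n := by
    intro n x
    have ht : Tendsto (fun k => ν (sec {z : X × Y | k < G z n} x)) atTop
        (𝓝 (ν (⋂ k, sec {z : X × Y | k < G z n} x))) := by
      refine tendsto_measure_iInter_atTop
        (fun k => (measurableSet_sec (hE n k) x).nullMeasurableSet) ?_ ⟨0, measure_ne_top _ _⟩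
      intro k l hkl y hy
      exact lt_of_le_of_lt hkl hy
    have h0 : (⋂ k, sec {z : X × Y | k < G z n} x) = ∅ := by
      refine eq_empty_of_forall_notMem fun y hy => ?_
      have h1 : G (x, y) n < G (x, y) n := mem_iInter.1 hy (G (x, y) n)
      exact lt_irrefl _ h1
    rw [h0, measure_empty] at ht
    obtain ⟨k, hk⟩ := (ht.eventually (gt_mem_nhds (pos_iff_ne_zero.2 (hc n)))).exists
    exact ⟨k, hk.le⟩
  refine ⟨fun x n => Nat.find (hex n x), ?_, fun x n => Nat.find_spec (hex n x)⟩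
  refine measurable_pi_iff.2 fun n => measurable_find (hex n) fun k => ?_
  exact measurableSet_le (measurable_sec (hE n k)) measurable_const

theorem bd_le_prod {K I : Type} [Preorder K] (d : K) (L : Set I) :
    (bd d L : MeasurableSpace (XS K × YS I)) ≤ (lev d).prod MeasurableSpace.pi :=
  sup_le_sup le_rfl (MeasurableSpace.comap_mono (ysub_le L))

theorem dom_forced {K : Type} [LinearOrder K] [WellFoundedLT K] (S : LavSys K) (I : Type) (d : K)
    (G : XS K × YS I → ℕ → ℕ) (hG : Measurable[bd d Set.univ] G) :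
    Fo (QQ S.P (coin I)) Set.univ {z | ∃ n₀, ∀ n ≥ n₀, G z n ≤ z.1 d n} := by
  intro D hD _
  obtain ⟨A, hA, -, hpos⟩ := QQ.exists_base hD
  obtain ⟨m, A₁, hA₁, hA₁A, hm⟩ := S.ppos.dec' (ι := ℕ)
    (fun n => {x | ((n : ℝ≥0∞) + 1)⁻¹ < coin I (sec D x)})
    (fun n => measurableSet_lt measurable_const (measurable_sec hD.1)) hA (by
      intro x hx
      obtain ⟨n, hn⟩ := ENNReal.exists_inv_nat_lt (hpos x hx).ne'
      refine mem_iUnion.2 ⟨n, lt_of_le_of_lt ?_ hn⟩
      exact ENNReal.inv_le_inv.2 le_self_add)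
  have hδ : ((m : ℝ≥0∞) + 1)⁻¹ ≠ 0 := ENNReal.inv_ne_zero.2 (by finiteness)
  obtain ⟨c, hc0, hc⟩ := ENNReal.exists_pos_sum_of_countable' hδ ℕ
  have hG1 : Measurable[(lev d).prod MeasurableSpace.pi] G := hG.mono (bd_le_prod d _) le_rfl
  obtain ⟨H, hH, hHG⟩ := @exists_bound (XS K) (YS I) (lev d) _ (coin I) _ G hG1 c
    fun n => (hc0 n).ne'
  obtain ⟨B, hB, hBA, hdom⟩ := S.dom d H hH A₁ hA₁
  have hG2 : Measurable G := hG.mono (bd_le d _) le_rfl
  have hE : MeasurableSet {z : XS K × YS I | ∃ n₀, ∀ n ≥ n₀, G z n ≤ z.1 d n} := by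
    have : {z : XS K × YS I | ∃ n₀, ∀ n ≥ n₀, G z n ≤ z.1 d n} =
        ⋃ n₀, ⋂ n ≥ n₀, {z : XS K × YS I | G z n ≤ z.1 d n} := by
      ext z; simp
    rw [this]
    refine MeasurableSet.iUnion fun n₀ => MeasurableSet.iInter fun n =>
      MeasurableSet.iInter fun _ => ?_
    exact measurableSet_le ((measurable_pi_apply n).comp hG2)
      ((measurable_pi_apply n).comp ((measurable_pi_apply d).comp measurable_fst))
  refine ⟨_, S.ppos.mem_QQ (ν := coin I) (hD.1.inter hE) hB fun x hx h0 => ?_,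
    inter_subset_left.trans inter_subset_left, inter_subset_left.trans inter_subset_right⟩
  obtain ⟨n₀, hn₀⟩ := hdom x hx
  have h1 : sec D x ⊆ sec (D ∩ {z : XS K × YS I | ∃ n₀, ∀ n ≥ n₀, G z n ≤ z.1 d n}) x ∪
      ⋃ n, {y | H x n < G (x, y) n} := by
    intro y hy
    by_cases hy' : ∀ n, G (x, y) n ≤ H x n
    · exact Or.inl ⟨hy, n₀, fun n hn => (hy' n).trans (hn₀ n hn)⟩
    · push Not at hy'
      obtain ⟨n, hn⟩ := hy'
      exact Or.inr (mem_iUnion.2 ⟨n, hn⟩)
  have h2 : coin I (sec D x) ≤ 0 + ∑' n, c n := by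
    refine (measure_mono h1).trans ((measure_union_le _ _).trans (add_le_add h0.le ?_))
    exact (measure_iUnion_le _).trans (ENNReal.tsum_le_tsum fun n => hHG x n)
  rw [zero_add] at h2
  exact absurd (hm (hBA hx)) (not_lt.2 (h2.trans hc.le))

end Pool.Agent.GPA
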