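import Pool.Agent.GPA.PtForce

/-!
# The random part

If `P` is a family of measurable subsets of `X` with the covering and the decision property, then
so is the family `QQ P ν`.
-/

open Set MeasureTheory

namespace Pool.Agent.GPA

theorem mem_sec {X Y : Type} {D : Set (X × Y)} {x : X} {y : Y} : y ∈ sec D x ↔ (x, y) ∈ D :=
  Iff.rfl

theorem sec_mono {X Y : Type} {D E : Set (X × Y)} (h : D ⊆ E) (x : X) : sec D x ⊆ sec E x :=
  fun _ hy => h hy

theorem sec_inter_prod {X Y : Type} {D : Set (X × Y)} {B : Set X} {x : X} (hx : x ∈ B) :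
    sec (D ∩ B ×ˢ univ) x = sec D x := by
  ext y
  simp [hx]

theorem sec_inter_prod_of_notMem {X Y : Type} {D : Set (X × Y)} {B : Set X} {x : X} (hx : x ∉ B) :
    sec (D ∩ B ×ˢ univ) x = ∅ := by
  ext y
  simp [hx]

/-- The base of a smaller condition is smaller. -/
theorem base_subset {X Y : Type} {D E : Set (X × Y)} (h : D ⊆ E) {A B : Set X}
    (hA : ∀ x, x ∈ A ↔ (sec D x).Nonempty) (hB : ∀ x, x ∈ B ↔ (sec E x).Nonempty) : A ⊆ B :=
  fun x hx => (hB x).2 (((hA x).1 hx).mono (sec_mono h x))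

section

variable {X Y : Type} [MeasurableSpace X] [MeasurableSpace Y]

theorem measurableSet_sec {D : Set (X × Y)} (hD : MeasurableSet D) (x : X) :
    MeasurableSet (sec D x) := measurable_prodMk_left hD

theorem measurable_sec {ν : Measure Y} [SFinite ν] {D : Set (X × Y)} (hD : MeasurableSet D) :
    Measurable fun x => ν (sec D x) := measurable_measure_prodMk_left hD

theorem measurable_sec_real {ν : Measure Y} [SFinite ν] {D : Set (X × Y)} (hD : MeasurableSet D) :
    Measurable fun x => ν.real (sec D x) := (measurable_sec hD).ennreal_toReal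

variable {P : Set (Set X)} {ν : Measure Y}

/-- The base of a member of `QQ P ν`. -/
theorem QQ.exists_base {D : Set (X × Y)} (hD : D ∈ QQ P ν) : ∃ A ∈ P,
    (∀ x, x ∈ A ↔ (sec D x).Nonempty) ∧ ∀ x ∈ A, 0 < ν (sec D x) := by
  obtain ⟨-, A, hA, h⟩ := hD
  refine ⟨A, hA, fun x => ⟨fun hx => nonempty_of_measure_ne_zero ((h x).2 hx), fun hx => ?_⟩,
    fun x hx => pos_iff_ne_zero.2 ((h x).2 hx)⟩
  by_contra hxA
  rw [(h x).1 hxA] at hx
  exact not_nonempty_empty hx

/-- A measurable set with positive sections over a condition, restricted to it, is a condition. -/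
theorem PPos.mem_QQ (hP : PPos P) {D : Set (X × Y)} (hD : MeasurableSet D) {B : Set X}
    (hB : B ∈ P) (hpos : ∀ x ∈ B, ν (sec D x) ≠ 0) : D ∩ B ×ˢ Set.univ ∈ QQ P ν := by
  refine ⟨hD.inter ((hP.meas B hB).prod MeasurableSet.univ), B, hB, fun x => ⟨fun hx => ?_,
    fun hx => ?_⟩⟩
  · exact sec_inter_prod_of_notMem hx
  · rw [sec_inter_prod hx]
    exact hpos x hx

/-- Restriction of a condition. -/
theorem PPos.QQ_restrict (hP : PPos P) {D : Set (X × Y)} (hD : D ∈ QQ P ν) {B : Set X}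
    (hB : B ∈ P) (hBD : ∀ x ∈ B, (sec D x).Nonempty) : D ∩ B ×ˢ Set.univ ∈ QQ P ν := by
  obtain ⟨A, -, hA, hpos⟩ := QQ.exists_base hD
  exact hP.mem_QQ hD.1 hB fun x hx => (hpos x ((hA x).2 (hBD x hx))).ne'

/-- The exhaustion lemma: every condition has, over a smaller base, up to null sections a covering
by countably many members of each of countably many sets which are dense below it. -/
theorem PPos.exhaust (hP : PPos P) [IsFiniteMeasure ν] {ι : Type*} [Countable ι]
    {E : Set (X × Y)} (hE : MeasurableSet E) {A : Set X} (hA : A ∈ P) (D : ι → Set (Set (X × Y)))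
    (hD : ∀ i, ∀ r ∈ QQ P ν, r ⊆ E → ∃ s ∈ QQ P ν, s ⊆ r ∧ s ∈ D i) :
    ∃ B ∈ P, B ⊆ A ∧ ∃ C : ι → Set (Set (X × Y)),
      ∀ i, (C i).Countable ∧ C i ⊆ D i ∧ C i ⊆ QQ P ν ∧
        ∀ x ∈ B, ν (sec (E \ ⋃₀ C i) x) = 0 := by
  classical
  -- `Good i a B`: countably many members of `D i` cover measure `> a` over all points of `B`
  let Good : ι → ℚ → Set X → Prop := fun i a B => ∃ C : Set (Set (X × Y)),
    C ⊆ D i ∧ C ⊆ QQ P ν ∧ C.Countable ∧ ∀ x ∈ B, (a : ℝ) < ν.real (sec (E ∩ ⋃₀ C) x)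
  obtain ⟨A', hA', hAA', CC, hCC⟩ := hP.cover' (ι := ι × ℚ) (A₀ := Set.univ)
    (fun j => {B | Good j.1 j.2 B ∨ ∀ B' ∈ P, B' ⊆ B → ¬ Good j.1 j.2 B'}) (by
      intro j B hB _
      by_cases hc : ∃ B' ∈ P, B' ⊆ B ∧ Good j.1 j.2 B'
      · obtain ⟨B', hB', hBB, hg⟩ := hc
        exact ⟨B', hB', hBB, Or.inl hg⟩
      · push Not at hc
        exact ⟨B, hB, subset_rfl, Or.inr hc⟩) hA (subset_univ _)
  -- the union of all chosen countable families
  let f : ι → ℚ → Set X → Set (Set (X × Y)) := fun i a B =>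
    if h : Good i a B then h.choose else ∅
  have hf : ∀ i a B (h : Good i a B), f i a B ⊆ D i ∧ f i a B ⊆ QQ P ν ∧ (f i a B).Countable ∧
      ∀ x ∈ B, (a : ℝ) < ν.real (sec (E ∩ ⋃₀ f i a B) x) := by
    intro i a B h
    have := h.choose_spec
    simpa only [f, dif_pos h] using this
  have hf0 : ∀ i a B, f i a B ⊆ D i ∧ f i a B ⊆ QQ P ν ∧ (f i a B).Countable := by
    intro i a B
    by_cases h : Good i a B
    · exact ⟨(hf i a B h).1, (hf i a B h).2.1, (hf i a B h).2.2.1⟩
    · simp only [f, dif_neg h]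
      exact ⟨empty_subset _, empty_subset _, countable_empty⟩
  let C : ι → Set (Set (X × Y)) := fun i => ⋃ a : ℚ, ⋃ B ∈ CC (i, a), f i a B
  have hCD : ∀ i, C i ⊆ D i := fun i =>
    iUnion_subset fun a => iUnion₂_subset fun B _ => (hf0 i a B).1
  have hCR : ∀ i, C i ⊆ QQ P ν := fun i =>
    iUnion_subset fun a => iUnion₂_subset fun B _ => (hf0 i a B).2.1
  have hCc : ∀ i, (C i).Countable := fun i =>
    countable_iUnion fun a => ((hCC (i, a)).1).biUnion fun B _ => (hf0 i a B).2.2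
  have hCm : ∀ i, MeasurableSet (⋃₀ C i) := fun i =>
    MeasurableSet.sUnion (hCc i) fun c hc => (hCR i hc).1
  obtain ⟨B, hB, hBA, hBd⟩ := hP.avoid (ι := ι) (fun i => {x | 0 < ν (sec (E \ ⋃₀ C i) x)})
    (fun i => measurableSet_lt measurable_const (measurable_sec (hE.diff (hCm i)))) hA' (by
      intro i B hB hBA hBE
      -- the rest is a condition
      have hW := hP.mem_QQ (ν := ν) (hE.diff (hCm i)) hB fun x hx => (hBE hx).ne'
      obtain ⟨d, hd, hdW, hdD⟩ := hD i _ hW (inter_subset_left.trans sdiff_subset)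
      obtain ⟨Ad, hAd, hAd', hdpos⟩ := QQ.exists_base hd
      have hdB : Ad ⊆ B := by
        intro x hx
        obtain ⟨y, hy⟩ := (hAd' x).1 hx
        exact (hdW hy).2.1
      have hdis : ∀ x, Disjoint (sec (E ∩ ⋃₀ C i) x) (sec d x) := by
        intro x
        rw [disjoint_left]
        intro y hy hyd
        exact (hdW hyd).1.2 hy.2
      have hsum : ∀ x, ν.real (sec (E ∩ ⋃₀ insert d (C i)) x)
          = ν.real (sec (E ∩ ⋃₀ C i) x) + ν.real (sec d x) := by
        intro x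
        rw [← measureReal_union (hdis x) (measurableSet_sec hd.1 x)]
        congr 1
        ext y
        simp only [mem_sec, mem_inter_iff, sUnion_insert, mem_union]
        constructor
        · rintro ⟨h1, h2 | h2⟩
          · exact Or.inr h2
          · exact Or.inl ⟨h1, h2⟩
        · rintro (h1 | h1)
          · exact ⟨h1.1, Or.inr h1.2⟩
          · exact ⟨(hdW h1).1.1, Or.inl h1⟩
      have hlt : ∀ x ∈ Ad, ν.real (sec (E ∩ ⋃₀ C i) x)
          < ν.real (sec (E ∩ ⋃₀ insert d (C i)) x) := by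
        intro x hx
        rw [hsum]
        have : 0 < ν.real (sec d x) := by
          rw [Measure.real, ENNReal.toReal_pos_iff]
          exact ⟨hdpos x hx, measure_lt_top _ _⟩
        linarith
      have hm1 : MeasurableSet (E ∩ ⋃₀ C i) := hE.inter (hCm i)
      have hm2 : MeasurableSet (E ∩ ⋃₀ insert d (C i)) := by
        rw [sUnion_insert]
        exact hE.inter (hd.1.union (hCm i))
      obtain ⟨a, B', hB', hB'd, ha⟩ := hP.dec' (ι := ℚ)
        (fun a => {x | ν.real (sec (E ∩ ⋃₀ C i) x) < a} ∩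
          {x | (a : ℝ) < ν.real (sec (E ∩ ⋃₀ insert d (C i)) x)})
        (fun a => (measurableSet_lt (measurable_sec_real hm1) measurable_const).inter
          (measurableSet_lt measurable_const (measurable_sec_real hm2))) hAd (by
          intro x hx
          obtain ⟨a, h1, h2⟩ := exists_rat_btwn (hlt x hx)
          exact mem_iUnion.2 ⟨a, h1, h2⟩)
      obtain ⟨c, hc, B'', hB'', hB''B, hB''c⟩ := hP.dec_sUnion (hCC (i, a)).1
        (fun c hc => hP.meas c ((hCC (i, a)).2.2.1 hc)) hB'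
        (((hB'd.trans hdB).trans hBA).trans (hCC (i, a)).2.2.2)
      rcases (hCC (i, a)).2.1 hc with h1 | h1
      · obtain ⟨x, hx⟩ := hP.ne B'' hB''
        have h2 := (hf i a c h1).2.2.2 x (hB''c hx)
        have h3 : ν.real (sec (E ∩ ⋃₀ f i a c) x) ≤ ν.real (sec (E ∩ ⋃₀ C i) x) := by
          refine measureReal_mono (sec_mono (inter_subset_inter_right _ (sUnion_subset_sUnion ?_)) x)
          exact subset_iUnion_of_subset a (subset_iUnion₂_of_subset c hc subset_rfl)
        have h4 : ν.real (sec (E ∩ ⋃₀ C i) x) < a := (ha (hB''B hx)).1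
        linarith
      · refine h1 B'' hB'' hB''c ⟨insert d (C i), insert_subset hdD (hCD i),
          insert_subset hd (hCR i), (hCc i).insert d, fun x hx => (ha (hB''B hx)).2⟩)
  refine ⟨B, hB, hBA.trans hAA', C, fun i => ⟨hCc i, hCD i, hCR i, fun x hx => ?_⟩⟩
  by_contra hne
  exact disjoint_left.1 (hBd i) hx (pos_iff_ne_zero.2 hne)

/-- The forcing with a random part has the covering and the decision property. -/
theorem PPos.prod (hP : PPos P) [IsFiniteMeasure ν] [NeZero ν] : PPos (QQ P ν) where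
  meas q hq := hq.1
  ne q hq := by
    obtain ⟨A, hA, h, -⟩ := QQ.exists_base hq
    obtain ⟨x, hx⟩ := hP.ne A hA
    obtain ⟨y, hy⟩ := (h x).1 hx
    exact ⟨(x, y), hy⟩
  univ := by
    refine ⟨MeasurableSet.univ, Set.univ, hP.univ, fun x => ⟨fun hx => absurd (mem_univ x) hx,
      fun _ => ?_⟩⟩
    exact (Measure.measure_univ_ne_zero).2 (NeZero.ne ν)
  cover D hDQ hD q hq := by
    obtain ⟨A, hA, hAq, hApos⟩ := QQ.exists_base hq
    obtain ⟨B, hB, hBA, C, hC⟩ := hP.exhaust hq.1 hA D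
      (fun i r hr _ => by
        obtain ⟨s, hs, hsr⟩ := hD i r hr
        exact ⟨s, hDQ i hs, hsr, hs⟩)
    have hCm : ∀ i, MeasurableSet (⋃₀ C i) := fun i =>
      MeasurableSet.sUnion (hC i).1 fun c hc => ((hC i).2.2.1 hc).1
    have hpos : ∀ x ∈ B, ν (sec (q ∩ ⋂ i, ⋃₀ C i) x) ≠ 0 := by
      intro x hx
      have h1 : ν (sec q x) ≤ ν (sec (q ∩ ⋂ i, ⋃₀ C i) x) + ∑' i, ν (sec (q \ ⋃₀ C i) x) := by
        refine (measure_mono ?_).trans ((measure_union_le (sec (q ∩ ⋂ i, ⋃₀ C i) x)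
          (⋃ i, sec (q \ ⋃₀ C i) x)).trans (add_le_add_right (measure_iUnion_le _) _))
        intro y hy
        by_cases h : ∀ i, (x, y) ∈ ⋃₀ C i
        · exact Or.inl ⟨hy, mem_iInter.2 h⟩
        · push Not at h
          obtain ⟨i, hi⟩ := h
          exact Or.inr (mem_iUnion.2 ⟨i, hy, hi⟩)
      rw [ENNReal.tsum_eq_zero.2 fun i => (hC i).2.2.2 x hx, add_zero] at h1
      exact ((hApos x (hBA hx)).trans_le h1).ne'
    exact ⟨_, hP.mem_QQ (hq.1.inter (MeasurableSet.iInter hCm)) hB hpos,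
      inter_subset_left.trans inter_subset_left, C, fun n => ⟨(hC n).1, (hC n).2.1,
        (inter_subset_left.trans inter_subset_right).trans (iInter_subset _ n)⟩⟩
  dec q hq E hE hqE := by
    obtain ⟨A, hA, hAq, hApos⟩ := QQ.exists_base hq
    obtain ⟨n, B, hB, hBq, hn⟩ := hP.dec A hA (fun n => {x | 0 < ν (sec (q ∩ E n) x)})
      (fun n => measurableSet_lt measurable_const (measurable_sec (hq.1.inter (hE n)))) (by
        intro x hx
        by_contra hne
        have h0 : ∀ n, ν (sec (q ∩ E n) x) = 0 := by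
          intro n
          by_contra h
          exact hne (mem_iUnion.2 ⟨n, pos_iff_ne_zero.2 h⟩)
        have h1 : ν (sec q x) ≤ ∑' n, ν (sec (q ∩ E n) x) := by
          refine (measure_mono ?_).trans (measure_iUnion_le _)
          intro y hy
          obtain ⟨n, hn⟩ := mem_iUnion.1 (hqE hy)
          exact mem_iUnion.2 ⟨n, hy, hn⟩
        rw [ENNReal.tsum_eq_zero.2 h0] at h1
        exact absurd (hApos x hx) (not_lt.2 h1))
    exact ⟨n, _, hP.mem_QQ (hq.1.inter (hE n)) hB fun x hx => (hn hx).ne',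
      inter_subset_left.trans inter_subset_left, inter_subset_left.trans inter_subset_right⟩

theorem ppos_qq [IsProbabilityMeasure ν] (hP : PPos P) : PPos (QQ P ν) :=
  haveI : NeZero ν := ⟨IsProbabilityMeasure.ne_zero ν⟩
  hP.prod

/-- Members of dense sets cover, after shrinking the first coordinate only. -/
theorem full_cover [IsProbabilityMeasure ν] (hP : PPos P) (D : ℕ → Set (Set (X × Y)))
    (hDQ : ∀ n, D n ⊆ QQ P ν) {E : Set (X × Y)} (hE : E ∈ QQ P ν)
    (hD : ∀ n, ∀ A ∈ QQ P ν, A ⊆ E → ∃ B ∈ D n, B ⊆ A) {A : Set X}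
    (hA : A ∈ P) (_hAE : ∀ x ∈ A, ν (sec E x) ≠ 0) :
    ∃ B ∈ P, B ⊆ A ∧ ∃ C : ℕ → Set (Set (X × Y)), ∀ n, (C n).Countable ∧ C n ⊆ D n ∧
      ∀ x ∈ B, ν (sec E x \ sec (⋃₀ C n) x) = 0 := by
  obtain ⟨B, hB, hBA, C, hC⟩ := hP.exhaust hE.1 hA D (fun i r hr hrE => by
    obtain ⟨s, hs, hsr⟩ := hD i r hr hrE
    exact ⟨s, hDQ i hs, hsr, hs⟩)
  exact ⟨B, hB, hBA, C, fun n => ⟨(hC n).1, (hC n).2.1, (hC n).2.2.2⟩⟩

/-- Restriction to a smaller first coordinate. -/
theorem qq_restrict [IsProbabilityMeasure ν] (hP : PPos P) {E : Set (X × Y)}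
    (hE : E ∈ QQ P ν) {A : Set X} (hA : A ∈ P) (hAE : ∀ x ∈ A, ν (sec E x) ≠ 0) :
    E ∩ (Prod.fst ⁻¹' A) ∈ QQ P ν := by
  have := hP.mem_QQ hE.1 hA hAE
  rwa [prod_univ] at this

/-- Removing null sections. -/
theorem qq_diff [IsProbabilityMeasure ν] (_hP : PPos P) {E N : Set (X × Y)} (hE : E ∈ QQ P ν)
    (hN : MeasurableSet N) (h0 : ∀ x, ν (sec (E ∩ N) x) = 0) : E \ N ∈ QQ P ν := by
  obtain ⟨hEm, A, hA, h⟩ := hE
  refine ⟨hEm.diff hN, A, hA, fun x => ⟨fun hx => ?_, fun hx h1 => ?_⟩⟩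
  · have := (h x).1 hx
    exact subset_empty_iff.1 ((sec_mono sdiff_subset x).trans_eq this)
  · refine (h x).2 hx (measure_mono_null ?_ (measure_union_null h1 (h0 x)))
    intro y hy
    by_cases hyN : (x, y) ∈ N
    · exact Or.inr ⟨hy, hyN⟩
    · exact Or.inl ⟨hy, hyN⟩

end

end Pool.Agent.GPA
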