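import Pool.Agent.GPA.Fub
import Pool.Agent.GPA.RandomPart

/-!
# The reals of the random part
-/

open MeasureTheory Cardinal Set
open scoped ENNReal

namespace Pool.Agent.GPA

/-- Two injective families of coordinates without common members agree almost nowhere. -/
theorem coin_agree {I : Type} {a b : ℕ → I} (hb : Function.Injective b) (hab : ∀ n m, a n ≠ b m) :
    coin I {y | ∀ n, y (a n) = y (b n)} = 0 := by
  classical
  have hm : MeasurableSet {y : I → Bool | ∀ n, y (a n) = y (b n)} := by
    have : {y : I → Bool | ∀ n, y (a n) = y (b n)} = ⋂ n, {y | y (a n) = y (b n)} := by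
      ext y; simp
    rw [this]
    exact MeasurableSet.iInter fun n =>
      measurableSet_eq_fun (measurable_pi_apply _) (measurable_pi_apply _)
  rw [← (coin_glue (range a)).measure_preimage hm.nullMeasurableSet,
    Measure.measure_prod_null ((coin_glue (range a)).measurable hm)]
  refine Filter.Eventually.of_forall fun x => ?_
  have hbc : ∀ n, b n ∈ (range a)ᶜ := fun n => by
    rintro ⟨m, hm⟩
    exact hab m n hm
  have hle : ∀ N : ℕ, coin ((range a)ᶜ : Set I) (Prod.mk x ⁻¹' ((fun p : ((range a) → Bool) ×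
      (((range a)ᶜ : Set I) → Bool) => glueY (range a) p.1 p.2) ⁻¹'
        {y | ∀ n, y (a n) = y (b n)})) ≤ 2⁻¹ ^ N := by
    intro N
    let t : ((range a)ᶜ : Set I) → Bool := fun i =>
      if h : ∃ n, b n = i then x ⟨a h.choose, mem_range_self _⟩ else false
    have hinj : Function.Injective fun n => (⟨b n, hbc n⟩ : ((range a)ᶜ : Set I)) := fun n m h =>
      hb (congrArg Subtype.val h)
    have h1 := coin_cyl (I := ((range a)ᶜ : Set I))
      ((Finset.range N).map ⟨fun n => ⟨b n, hbc n⟩, hinj⟩) t
    rw [Finset.card_map, Finset.card_range] at h1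
    refine (measure_mono ?_).trans h1.le
    intro y hy
    simp only [mem_ofPred_eq, Finset.mem_map, Finset.mem_range, Function.Embedding.coeFn_mk,
      forall_exists_index, and_imp]
    rintro i n - rfl
    have h2 : glueY (range a) x y (a n) = glueY (range a) x y (b n) := hy n
    have h3 : ∃ m, b m = b n := ⟨n, rfl⟩
    have h4 : h3.choose = n := hb h3.choose_spec
    have h5 : t ⟨b n, hbc n⟩ = x ⟨a n, mem_range_self _⟩ := by
      simp only [t]
      rw [dif_pos h3]
      simp only [h4]
    rw [h5]
    have h6 : glueY (range a) x y (a n) = x ⟨a n, mem_range_self _⟩ :=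
      glueY_mem x y ⟨a n, mem_range_self _⟩
    have h7 : glueY (range a) x y (b n) = y ⟨b n, hbc n⟩ := glueY_compl x y ⟨b n, hbc n⟩
    rw [← h6, h2, h7]
  exact le_antisymm (ge_of_tendsto' (ENNReal.tendsto_pow_atTop_nhds_zero_of_lt_one (by
    rw [ENNReal.inv_lt_one]; exact ENNReal.one_lt_two)) hle) zero_le

section
variable {K : Type} [LinearOrder K] [WellFoundedLT K] (S : LavSys K) (I : Type)

theorem reals (hI : ℵ₀ ≤ #I) : ∃ real : I → XS K × YS I → ℕ → Bool, (∀ i, Measurable (real i)) ∧
    ∀ i j, i ≠ j → Fo (QQ S.P (coin I)) Set.univ {z | real i z ≠ real j z} := by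
  have h1 : #(I × ℕ) = #I := by
    rw [Cardinal.mk_prod, Cardinal.lift_id, Cardinal.mk_nat, Cardinal.lift_aleph0,
      Cardinal.mul_eq_left hI hI Cardinal.aleph0_ne_zero]
  obtain ⟨e⟩ := Cardinal.eq.1 h1
  refine ⟨fun i z n => z.2 (e (i, n)), fun i => by fun_prop, fun i j hij B hB _ => ?_⟩
  have hm : MeasurableSet {z : XS K × YS I | ∀ n, z.2 (e (i, n)) = z.2 (e (j, n))} := by
    have : {z : XS K × YS I | ∀ n, z.2 (e (i, n)) = z.2 (e (j, n))} =
        ⋂ n, {z | z.2 (e (i, n)) = z.2 (e (j, n))} := by
      ext y; simp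
    rw [this]
    exact MeasurableSet.iInter fun n => measurableSet_eq_fun
      ((measurable_pi_apply _).comp measurable_snd) ((measurable_pi_apply _).comp measurable_snd)
  refine ⟨B \ {z | ∀ n, z.2 (e (i, n)) = z.2 (e (j, n))}, qq_diff S.ppos hB hm fun x => ?_,
    sdiff_subset, ?_⟩
  · refine measure_mono_null (fun y hy => ?_)
      (coin_agree (a := fun n => e (i, n)) (b := fun n => e (j, n)) ?_ ?_)
    · exact hy.2
    · intro n m h
      exact (Prod.ext_iff.1 (e.injective h)).2
    · intro n m h
      exact hij (Prod.ext_iff.1 (e.injective h)).1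
  · intro z hz h
    exact hz.2 fun n => congrFun h n

end

end Pool.Agent.GPA
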