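import Pool.Agent.GPA.PtForce
import Pool.Agent.GPA.RandomPart
import Pool.Agent.GPA.RSup
import Pool.Agent.GPA.Code
import Pool.Agent.GPA.Fub
import Pool.Agent.GPA.RDom
import Pool.Agent.GPA.RCc
import Pool.Agent.GPA.RReal

/-!
# The core: `GP(all)` for the Cantor space in terms of names
-/

open MeasureTheory Cardinal Set
open scoped ENNReal

set_option linter.unusedSectionVars false

namespace Pool.Agent.GPA

variable {K : Type} [LinearOrder K] [WellFoundedLT K] {S : LavSys K} {I : Type}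

section

variable {K I : Type} [Preorder K]

theorem prodSpace_mono {X Y : Type} {m m' : MeasurableSpace X} {n n' : MeasurableSpace Y} (h : m ≤ m')
    (h' : n ≤ n') : m.prod n ≤ m'.prod n' :=
  sup_le_sup (MeasurableSpace.comap_mono h) (MeasurableSpace.comap_mono h')

/-- A measurable set of level `d` depends on the coordinates below `d` only. -/
theorem mem_iff_of_lev {d : K} {A : Set (XS K)} (hA : MeasurableSet[lev d] A) {x x' : XS K}
    (h : ∀ b < d, x b = x' b) : x ∈ A ↔ x' ∈ A := by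
  obtain ⟨s, -, rfl⟩ := hA
  have : (fun b : Set.Iio d => x b) = fun b : Set.Iio d => x' b := by
    funext b
    exact h b b.2
  simp only [Set.mem_preimage, this]

end

/-- The coordinate `d` plus a constant. -/
def el {K I : Type} (d : K) (m : ℕ) : XS K × YS I → ℕ → ℕ := fun z n => z.1 d n + m

theorem measurable_el (d : K) (m : ℕ) : Measurable (el d m : XS K × YS I → ℕ → ℕ) := by
  unfold el
  refine measurable_pi_lambda _ fun n => ?_
  have h : Measurable fun z : XS K × YS I => z.1 d n :=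
    (measurable_pi_apply n).comp ((measurable_pi_apply d).comp measurable_fst)
  exact h.add_const m

/-- The hypotheses of the core theorem. -/
structure CoreData (S : LavSys K) (I : Type)
    (R : Set (XS K × YS I) → (XS K × YS I → ℕ → Bool) → (XS K × YS I → ℕ → ℕ) → Prop)
    (p₀ : Set (XS K × YS I)) : Prop where
  mem : p₀ ∈ QQ S.P (coin I)
  down : ∀ q ∈ QQ S.P (coin I), ∀ r ∈ QQ S.P (coin I), ∀ F G, r ⊆ q → R q F G → R r F G
  mono : ∀ q ∈ QQ S.P (coin I), ∀ (F : XS K × YS I → ℕ → Bool) (G G' : XS K × YS I → ℕ → ℕ),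
      q ⊆ p₀ → Measurable F → Measurable G →
      Measurable G' → Fo (QQ S.P (coin I)) q {z | ∀ n, G z n ≤ G' z n} → R q F G → R q F G'
  null : ∀ q ∈ QQ S.P (coin I), ∀ G, q ⊆ p₀ → Measurable G → ∃ r ∈ QQ S.P (coin I), r ⊆ q ∧
      ∃ c : XS K × YS I → ℕ → List Bool → Bool, Measurable c ∧ (∀ z, IsNullCode (c z)) ∧
        ∀ s ∈ QQ S.P (coin I), s ⊆ r → ∀ F, Measurable F → R s F G →
          Fo (QQ S.P (coin I)) s {z | F z ∈ NullOf (c z)}
  big : ∀ q ∈ QQ S.P (coin I), q ⊆ p₀ → ∀ c : XS K × YS I → ℕ → List Bool → Bool,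
      Measurable c → (∀ z, IsNullCode (c z)) → ∃ r ∈ QQ S.P (coin I), r ⊆ q ∧ ∃ F G,
        Measurable F ∧ Measurable G ∧ R r F G ∧
          Fo (QQ S.P (coin I)) r {z | F z ∉ NullOf (c z)}

/-- `F` belongs to the union of the sections at `el d m`, `m ∈ ω`. -/
def Rd (S : LavSys K) (I : Type)
    (R : Set (XS K × YS I) → (XS K × YS I → ℕ → Bool) → (XS K × YS I → ℕ → ℕ) → Prop)
    (d : K) (q : Set (XS K × YS I)) (F : XS K × YS I → ℕ → Bool) : Prop :=
  ∀ r ∈ QQ S.P (coin I), r ⊆ q → ∃ s ∈ QQ S.P (coin I), s ⊆ r ∧ ∃ m, R s F (el d m)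

section

variable {R : Set (XS K × YS I) → (XS K × YS I → ℕ → Bool) → (XS K × YS I → ℕ → ℕ) → Prop}
  {p₀ : Set (XS K × YS I)}

theorem Rd.down {d : K} {q r : Set (XS K × YS I)} {F : XS K × YS I → ℕ → Bool}
    (h : Rd S I R d q F) (hr : r ⊆ q) : Rd S I R d r F :=
  fun s hs hsr => h s hs (hsr.trans hr)

theorem Rd.loc {d : K} {q : Set (XS K × YS I)} {F : XS K × YS I → ℕ → Bool}
    (h : ∀ r ∈ QQ S.P (coin I), r ⊆ q → ∃ s ∈ QQ S.P (coin I), s ⊆ r ∧ Rd S I R d s F) :
    Rd S I R d q F := by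
  intro r hr hrq
  obtain ⟨s, hs, hsr, h1⟩ := h r hr hrq
  obtain ⟨t, ht, hts, h2⟩ := h1 s hs le_rfl
  exact ⟨t, ht, hts.trans hsr, h2⟩

/-- From eventual domination to a section `el d k`. -/
theorem CoreData.push (hC : CoreData S I R p₀) {d : K} {s : Set (XS K × YS I)}
    (hs : s ∈ QQ S.P (coin I)) (hsp : s ⊆ p₀) {F : XS K × YS I → ℕ → Bool}
    {G : XS K × YS I → ℕ → ℕ} (hF : Measurable F) (hG : Measurable G)
    (hGd : Measurable[bd d Set.univ] G) (h : R s F G) :
    ∃ t ∈ QQ S.P (coin I), t ⊆ s ∧ ∃ k, R t F (el d k) := by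
  have hP := ppos_qq (ν := coin I) S.ppos
  obtain ⟨s1, hs1, hs1s, hdom⟩ := dom_forced S I d G hGd s hs (Set.subset_univ _)
  have hcov : s1 ⊆ ⋃ k : ℕ, {z : XS K × YS I | ∀ n, G z n ≤ el d k z n} := by
    intro z hz
    obtain ⟨n₀, hn₀⟩ := hdom hz
    refine Set.mem_iUnion.2 ⟨∑ n ∈ Finset.range n₀, G z n, fun n => ?_⟩
    unfold el
    by_cases hn : n < n₀
    · have : G z n ≤ ∑ n ∈ Finset.range n₀, G z n :=
        Finset.single_le_sum (f := fun n => G z n) (fun i _ => Nat.zero_le _)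
          (Finset.mem_range.2 hn)
      omega
    · have := hn₀ n (not_lt.1 hn)
      omega
  have hmeas : ∀ k : ℕ, MeasurableSet {z : XS K × YS I | ∀ n, G z n ≤ el d k z n} := by
    intro k
    have : {z : XS K × YS I | ∀ n, G z n ≤ el d k z n} = ⋂ n, {z | G z n ≤ el d k z n} := by
      ext z
      simp
    rw [this]
    refine MeasurableSet.iInter fun n => ?_
    exact measurableSet_le ((measurable_pi_apply n).comp hG)
      ((measurable_pi_apply n).comp (measurable_el d k))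
  obtain ⟨k, t, ht, hts, htk⟩ := hP.dec s1 hs1 _ hmeas hcov
  refine ⟨t, ht, hts.trans hs1s, k, ?_⟩
  exact hC.mono t ht F G (el d k) ((hts.trans hs1s).trans hsp) hF hG (measurable_el d k)
    (fo_self htk) (hC.down s hs t ht F G (hts.trans hs1s) h)

theorem measurable_bd_el {b d : K} (hbd : b < d) (m : ℕ) :
    Measurable[bd d Set.univ] (el b m : XS K × YS I → ℕ → ℕ) := by
  unfold el
  refine @measurable_pi_lambda _ _ _ (bd d Set.univ) _ _ fun n => ?_
  have h1 : Measurable[lev d] fun x : XS K => x b := by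
    have : (fun x : XS K => x b) =
        (fun f : Set.Iio d → ℕ → ℕ => f ⟨b, hbd⟩) ∘ fun (x : XS K) (c : Set.Iio d) => x c := rfl
    rw [this]
    exact (measurable_pi_apply _).comp (comap_measurable _)
  have h2 : @Measurable _ _ (bd d Set.univ) (lev d) fun z : XS K × YS I => z.1 :=
    @measurable_fst _ _ (lev d) (sub Set.univ)
  have h3 : Measurable[bd d Set.univ] fun z : XS K × YS I => z.1 b n :=
    (measurable_pi_apply n).comp (h1.comp h2)
  exact (measurable_of_countable fun k : ℕ => k + m).comp h3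

theorem CoreData.rd_mono (hC : CoreData S I R p₀) {b d : K} (hbd : b ≤ d)
    {q : Set (XS K × YS I)} (hqp : q ⊆ p₀)
    {F : XS K × YS I → ℕ → Bool} (hF : Measurable F) (h : Rd S I R b q F) : Rd S I R d q F := by
  rcases hbd.eq_or_lt with rfl | hlt
  · exact h
  · intro r hr hrq
    obtain ⟨s, hs, hsr, m, hm⟩ := h r hr hrq
    obtain ⟨t, ht, hts, k, hk⟩ := hC.push hs ((hsr.trans hrq).trans hqp) hF (measurable_el b m)
      (measurable_bd_el hlt m) hm
    exact ⟨t, ht, hts.trans hsr, k, hk⟩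

/-- Countably many measurable sets describe a function into a power of `ℕ`. -/
theorem exists_lev_nat (S : LavSys K) {G : XS K × YS I → ℕ → ℕ} (hG : Measurable G) :
    ∃ d : K, Measurable[bd d Set.univ] G := by
  obtain ⟨e, he⟩ := exists_surjective_nat (ℕ × ℕ)
  obtain ⟨d, L, -, h⟩ := exists_bd (I := I) S.mk_K S.mk_Iio
    (fun n => {z | G z (e n).1 = (e n).2}) (fun n => by
      exact measurableSet_eq_fun ((measurable_pi_apply _).comp hG) measurable_const)
  refine ⟨d, ?_⟩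
  refine @measurable_pi_lambda _ _ _ (bd d Set.univ) _ _ fun n => ?_
  refine @measurable_to_countable' _ _ _ _ (bd d Set.univ) _ fun k => ?_
  obtain ⟨j, hj⟩ := he (n, k)
  have h1 := h j
  rw [hj] at h1
  exact bd_mono le_rfl (Set.subset_univ L) _ h1

theorem CoreData.rd_of (hC : CoreData S I R p₀) {q : Set (XS K × YS I)}
    (hq : q ∈ QQ S.P (coin I)) (hqp : q ⊆ p₀) {F : XS K × YS I → ℕ → Bool}
    {G : XS K × YS I → ℕ → ℕ} (hF : Measurable F) (hG : Measurable G) (h : R q F G) :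
    ∃ d, Rd S I R d q F := by
  obtain ⟨d, hd⟩ := exists_lev_nat S hG
  refine ⟨d, fun r hr hrq => ?_⟩
  exact hC.push hr (hrq.trans hqp) hF hG hd (hC.down q hq r hr F G hrq h)

/-- The conditions forcing that `F` belongs to some section. -/
def OF (S : LavSys K) (I : Type)
    (R : Set (XS K × YS I) → (XS K × YS I → ℕ → Bool) → (XS K × YS I → ℕ → ℕ) → Prop)
    (p₀ : Set (XS K × YS I)) (F : XS K × YS I → ℕ → Bool) : Set (Set (XS K × YS I)) :=
  {q | q ∈ QQ S.P (coin I) ∧ q ⊆ p₀ ∧ ∃ d, Rd S I R d q F}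

/-- The index of `F`. -/
theorem CoreData.exists_index (hC : CoreData S I R p₀) {F : XS K × YS I → ℕ → Bool}
    (hF : Measurable F) : ∃ a : K, ∀ q ∈ OF S I R p₀ F, Rd S I R a q F := by
  classical
  -- a maximal antichain
  obtain ⟨M, hM⟩ := zorn_subset {M : Set (Set (XS K × YS I)) | M ⊆ OF S I R p₀ F ∧
      ∀ p ∈ M, ∀ q ∈ M, p ≠ q → ∀ r ∈ QQ S.P (coin I), r ⊆ p → ¬ r ⊆ q} (by
    intro c hc hchain
    refine ⟨⋃₀ c, ⟨?_, ?_⟩, fun s hs => Set.subset_sUnion_of_mem hs⟩
    · exact Set.sUnion_subset fun s hs => (hc hs).1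
    · rintro p ⟨s, hs, hps⟩ q ⟨t, ht, hqt⟩ hpq
      rcases hchain.total hs ht with h | h
      · exact (hc ht).2 p (h hps) q hqt hpq
      · exact (hc hs).2 p hps q (h hqt) hpq)
  have hcc := cc S I M (fun q hq => (hM.prop.1 hq).1) hM.prop.2
  have hcard : #M ≤ 𝔠 := Order.lt_succ_iff.1 hcc
  have hne : Nonempty K := by
    obtain ⟨a, -⟩ := exists_ub (K := K) S.mk_K S.mk_Iio ∅ (by simp)
    exact ⟨a⟩
  choose! f hf using fun (q : Set (XS K × YS I)) (hq : q ∈ OF S I R p₀ F) => hq.2.2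
  obtain ⟨a, ha⟩ := exists_ub S.mk_K S.mk_Iio (f '' M) (mk_image_le.trans hcard)
  refine ⟨a, fun q hq => Rd.loc fun r hr hrq => ?_⟩
  have hrO : r ∈ OF S I R p₀ F := ⟨hr, hrq.trans hq.2.1, hq.2.2.imp fun d hd => hd.down hrq⟩
  -- `r` is compatible with a member of the antichain
  have : ∃ p ∈ M, ∃ s ∈ QQ S.P (coin I), s ⊆ p ∧ s ⊆ r := by
    by_contra hno
    push Not at hno
    have hins : insert r M ∈ {M : Set (Set (XS K × YS I)) | M ⊆ OF S I R p₀ F ∧
      ∀ p ∈ M, ∀ q ∈ M, p ≠ q → ∀ r ∈ QQ S.P (coin I), r ⊆ p → ¬ r ⊆ q} := by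
      refine ⟨Set.insert_subset hrO hM.prop.1, ?_⟩
      rintro p (rfl | hp) q (rfl | hq) hpq t ht htp htq
      · exact hpq rfl
      · exact hno q hq t ht htq htp
      · exact hno p hp t ht htp htq
      · exact hM.prop.2 p hp q hq hpq t ht htp htq
    have hrM : r ∈ M := hM.le_of_ge hins (Set.subset_insert r M) (Set.mem_insert r M)
    exact hno r hrM r hr le_rfl le_rfl
  obtain ⟨p, hp, s, hs, hsp, hsr⟩ := this
  have hpO := hM.prop.1 hp
  exact ⟨s, hs, hsr, hC.rd_mono (ha _ (Set.mem_image_of_mem f hp)).le (hsp.trans hpO.2.1) hF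
    ((hf p hpO).down hsp)⟩

end

end Pool.Agent.GPA
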