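import Pool.Agent.GPA.Core

/-!
# The core: one code for a section, and the final contradiction
-/

open MeasureTheory Cardinal Set
open scoped ENNReal

set_option linter.unusedSectionVars false

namespace Pool.Agent.GPA


variable {K : Type} [LinearOrder K] [WellFoundedLT K] {S : LavSys K} {I : Type}
  {R : Set (XS K × YS I) → (XS K × YS I → ℕ → Bool) → (XS K × YS I → ℕ → ℕ) → Prop}
  {p₀ : Set (XS K × YS I)}

/-- The conditions below which the section at `el a m` has a code. -/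
def DC (S : LavSys K) (I : Type)
    (R : Set (XS K × YS I) → (XS K × YS I → ℕ → Bool) → (XS K × YS I → ℕ → ℕ) → Prop)
    (p₀ : Set (XS K × YS I)) (a : K) (m : ℕ) : Set (Set (XS K × YS I)) :=
  {q | q ∈ QQ S.P (coin I) ∧ q ⊆ p₀ ∧ ∃ c : XS K × YS I → ℕ → List Bool → Bool, Measurable c ∧
    (∀ z, IsNullCode (c z)) ∧ ∀ s ∈ QQ S.P (coin I), s ⊆ q → ∀ F, Measurable F →
      R s F (el a m) → Fo (QQ S.P (coin I)) s {z | F z ∈ NullOf (c z)}}

theorem CoreData.exists_code (hC : CoreData S I R p₀) (a : K) {A : Set (XS K)} (hA : A ∈ S.P)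
    (hAp : ∀ x ∈ A, coin I (sec p₀ x) ≠ 0) :
    ∃ B ∈ S.P, B ⊆ A ∧ ∃ c : XS K × YS I → ℕ → List Bool → Bool, Measurable c ∧
      (∀ z, IsNullCode (c z)) ∧ ∀ s ∈ QQ S.P (coin I), s ⊆ p₀ → (∀ z ∈ s, z.1 ∈ B) →
        ∀ F, Measurable F → Rd S I R a s F →
          Fo (QQ S.P (coin I)) s {z | F z ∈ NullOf (c z)} := by
  classical
  have hP := ppos_qq (ν := coin I) S.ppos
  obtain ⟨B, hB, hBA, C, hCo⟩ := full_cover (ν := coin I) S.ppos (fun m => DC S I R p₀ a m)
    (fun m q hq => hq.1) hC.mem (fun m q hq hqp => by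
      obtain ⟨r, hr, hrq, c, hc, hc', h⟩ := hC.null q hq (el a m) hqp (measurable_el a m)
      exact ⟨r, ⟨hr, hrq.trans hqp, c, hc, hc', h⟩, hrq⟩) hA hAp
  obtain ⟨x₀, hx₀⟩ := S.ppos.ne B hB
  -- enumerate the countable sets
  have hne : ∀ m, (C m).Nonempty := by
    intro m
    by_contra hno
    rw [Set.not_nonempty_iff_eq_empty] at hno
    have h := (hCo m).2.2 x₀ hx₀
    rw [hno, Set.sUnion_empty] at h
    refine hAp x₀ (hBA hx₀) ?_
    simpa [sec] using h
  choose e he using fun m => (hCo m).1.exists_eq_range (hne m)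
  have heD : ∀ m k, e m k ∈ DC S I R p₀ a m := fun m k =>
    (hCo m).2.1 (by rw [he m]; exact Set.mem_range_self k)
  choose c hc hc' hcs using fun m k => (heD m k).2.2
  have hem : ∀ m k, MeasurableSet (e m k) := fun m k => hP.meas _ (heD m k).1
  -- the glued codes
  let pr : ℕ → ℕ → XS K × YS I → Prop := fun m k z => z ∈ e m k ∨ z ∉ ⋃ j, e m j
  have hpr : ∀ m z, ∃ k, pr m k z := by
    intro m z
    by_cases h : z ∈ ⋃ j, e m j
    · obtain ⟨k, hk⟩ := Set.mem_iUnion.1 h
      exact ⟨k, Or.inl hk⟩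
    · exact ⟨0, Or.inr h⟩
  have hprm : ∀ m k, MeasurableSet {z | pr m k z} := fun m k =>
    (hem m k).union (MeasurableSet.iUnion fun j => hem m j).compl
  let g : ℕ → XS K × YS I → ℕ → List Bool → Bool := fun m z => c m (Nat.find (hpr m z)) z
  have hg : ∀ m, Measurable (g m) := fun m => Measurable.find (hc m) (hprm m) (hpr m)
  have hg' : ∀ m z, IsNullCode (g m z) := fun m z => hc' m _ z
  obtain ⟨f, hf, hf', hfs⟩ := union_code
  refine ⟨B, hB, hBA, fun z => f fun m => g m z, hf.comp (measurable_pi_lambda _ hg),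
    fun z => hf' _ fun m => hg' m z, ?_⟩
  intro s hs hsp hsB F hF hRd r hr hrs
  obtain ⟨t, ht, htr, m, hm⟩ := hRd r hr hrs
  -- remove the part which is not covered
  have hts : t ⊆ s := htr.trans hrs
  obtain ⟨-, A', hA', hA'x⟩ := id ht
  have ht' : t \ (p₀ \ ⋃₀ C m) ∈ QQ S.P (coin I) := by
    refine qq_diff (ν := coin I) S.ppos ht ((hP.meas _ hC.mem).diff ?_) ?_
    · rw [he m, Set.sUnion_range]
      exact MeasurableSet.iUnion fun j => hem m j
    · intro x
      by_cases hx : x ∈ B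
      · refine measure_mono_null ?_ ((hCo m).2.2 x hx)
        rintro y ⟨-, hy⟩
        exact hy
      · have : sec (t ∩ (p₀ \ ⋃₀ C m)) x = ∅ := by
          ext y
          simp only [Set.mem_preimage, Set.mem_inter_iff, Set.mem_empty_iff_false, iff_false,
            not_and]
          exact fun hy => (hx (hsB _ (hts hy))).elim
        rw [this, measure_empty]
  have hcov : t \ (p₀ \ ⋃₀ C m) ⊆ ⋃ k, {z | z ∈ e m k ∧ Nat.find (hpr m z) = k} := by
    rintro z ⟨hz, hz'⟩
    have h1 : z ∈ ⋃₀ C m := by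
      by_contra h
      exact hz' ⟨hsp (hts hz), h⟩
    rw [he m, Set.sUnion_range] at h1
    refine Set.mem_iUnion.2 ⟨Nat.find (hpr m z), ?_, rfl⟩
    exact (Nat.find_spec (hpr m z)).resolve_right (fun h => h h1)
  have hmeas : ∀ k, MeasurableSet {z | z ∈ e m k ∧ Nat.find (hpr m z) = k} := fun k =>
    (hem m k).inter (measurableSet_eq_fun (measurable_find (hpr m) (hprm m)) measurable_const)
  obtain ⟨k, u, hu, hut, huk⟩ := hP.dec _ ht' _ hmeas hcov
  have hut' : u ⊆ t := hut.trans Set.sdiff_subset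
  have hR : R u F (el a m) := hC.down t ht u hu F _ hut' hm
  have h1 := hcs m k u hu (fun z hz => (huk hz).1) F hF hR
  obtain ⟨v, hv, hvu, hvF⟩ := h1 u hu le_rfl
  refine ⟨v, hv, (hvu.trans hut').trans htr, fun z hz => ?_⟩
  have h2 : F z ∈ NullOf (c m k z) := hvF hz
  have h3 : g m z = c m k z := by
    have := (huk (hvu hz)).2
    simp only [g, this]
  exact hfs _ m (by rw [h3]; exact h2)

end Pool.Agent.GPA
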