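import Pool.Agent.GPA.CoreB

/-!
# The core: the closing off point
-/

open MeasureTheory Cardinal Set
open scoped ENNReal

set_option linter.unusedSectionVars false

namespace Pool.Agent.GPA


/-- Measurability of a function into a power of `Bool`. -/
theorem meas_bool_iff {Z ι : Type} (m : MeasurableSpace Z) (F : Z → ι → Bool) :
    Measurable[m] F ↔ ∀ i, MeasurableSet[m] {z | F z i = true} := by
  constructor
  · intro h i
    exact ((measurable_pi_apply i).comp h) (measurableSet_singleton true)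
  · intro h
    refine @measurable_pi_lambda _ _ _ m _ _ fun i => ?_
    exact measurable_to_bool (h i)

/-- Currying of codes. -/
theorem meas_code_iff {Z : Type} (m : MeasurableSpace Z) (c : Z → ℕ → List Bool → Bool) :
    Measurable[m] c ↔ Measurable[m] fun z (p : ℕ × List Bool) => c z p.1 p.2 := by
  rw [meas_bool_iff]
  constructor
  · intro h p
    exact ((measurable_pi_apply p.2).comp ((measurable_pi_apply p.1).comp h))
      (measurableSet_singleton true)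
  · intro h
    refine @measurable_pi_lambda _ _ _ m _ _ fun i => ?_
    rw [meas_bool_iff]
    intro s
    exact h (i, s)

variable {K : Type} [LinearOrder K] [WellFoundedLT K] {S : LavSys K} {I : Type}
  {R : Set (XS K × YS I) → (XS K × YS I → ℕ → Bool) → (XS K × YS I → ℕ → ℕ) → Prop}
  {p₀ : Set (XS K × YS I)}

theorem CoreData.big' (hC : CoreData S I R p₀) {q : Set (XS K × YS I)}
    (hq : q ∈ QQ S.P (coin I)) (hqp : q ⊆ p₀) {c : XS K × YS I → ℕ → List Bool → Bool}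
    (hc : Measurable c) (hc' : ∀ z, IsNullCode (c z)) :
    ∃ r ∈ QQ S.P (coin I), r ⊆ q ∧ ∃ F : XS K × YS I → ℕ → Bool, Measurable F ∧
      r ∈ OF S I R p₀ F ∧ (∀ z ∈ r, F z ∉ NullOf (c z)) ∧
      ∃ (d : K) (L : Set I), L.Countable ∧ MeasurableSet[bd d L] r ∧ Measurable[bd d L] F := by
  have hP := ppos_qq (ν := coin I) S.ppos
  obtain ⟨r, hr, hrq, F, G, hF, hG, hR, hFo⟩ := hC.big q hq hqp c hc hc'
  obtain ⟨s, hs, hsr, hsF⟩ := hFo r hr le_rfl
  have hsO : s ∈ OF S I R p₀ F := ⟨hs, (hsr.trans hrq).trans hqp,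
    hC.rd_of hs ((hsr.trans hrq).trans hqp) hF hG (hC.down r hr s hs F G hsr hR)⟩
  refine ⟨s, hs, hsr.trans hrq, F, hF, hsO, fun z hz => hsF hz, ?_⟩
  obtain ⟨d, L, hL, h⟩ := exists_bd (I := I) S.mk_K S.mk_Iio
    (fun n => Nat.casesOn n s fun k => {z | F z k = true}) (fun n => by
      cases n with
      | zero => exact hP.meas s hs
      | succ k => exact (meas_bool_iff _ F).1 hF k)
  exact ⟨d, L, hL, h 0, (meas_bool_iff _ F).2 fun k => h (k + 1)⟩

theorem mk_sets (S : LavSys K) (d : K) (L : Set I) (hL : #L ≤ 𝔠) :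
    #{D : Set (XS K × YS I) // MeasurableSet[bd d L] D} ≤ 𝔠 := by
  classical
  refine le_trans ?_ (mk_fun (K := K) (I := I) S.mk_Iio Unit d L hL)
  refine mk_le_of_injective (f := fun D => ⟨fun z _ => decide (z ∈ D.1), ?_⟩) ?_
  · rw [meas_bool_iff]
    intro _
    have : {z : XS K × YS I | decide (z ∈ D.1) = true} = D.1 := by
      ext z
      simp
    rw [this]
    exact D.2
  · intro D D' h
    apply Subtype.ext
    ext z
    have := congrFun (congrFun (congrArg Subtype.val h) z) ()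
    simpa using this

theorem mk_codes (S : LavSys K) (d : K) (L : Set I) (hL : #L ≤ 𝔠) :
    #{c : XS K × YS I → ℕ → List Bool → Bool // Measurable[bd d L] c} ≤ 𝔠 := by
  refine le_trans ?_ (mk_fun (K := K) (I := I) S.mk_Iio (ℕ × List Bool) d L hL)
  refine mk_le_of_injective (f := fun c => ⟨fun z p => c.1 z p.1 p.2,
    (meas_code_iff _ c.1).1 c.2⟩) ?_
  intro c c' h
  apply Subtype.ext
  funext z n s
  exact congrFun (congrFun (congrArg Subtype.val h) z) (n, s)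

/-- One step of the closing off. -/
theorem CoreData.step (hC : CoreData S I R p₀) (t : K × Set I) (ht : #t.2 ≤ 𝔠) :
    ∃ t' : K × Set I, #t'.2 ≤ 𝔠 ∧
      (∀ F : XS K × YS I → ℕ → Bool, Measurable[bd t.1 t.2] F → ∀ q ∈ OF S I R p₀ F,
        Rd S I R t'.1 q F) ∧
      ∀ c : XS K × YS I → ℕ → List Bool → Bool, Measurable[bd t.1 t.2] c →
        (∀ z, IsNullCode (c z)) → ∀ q ∈ QQ S.P (coin I), q ⊆ p₀ → MeasurableSet[bd t.1 t.2] q →
        ∃ r ∈ QQ S.P (coin I), r ⊆ q ∧ MeasurableSet[bd t'.1 t'.2] r ∧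
          ∃ F : XS K × YS I → ℕ → Bool, Measurable[bd t'.1 t'.2] F ∧ r ∈ OF S I R p₀ F ∧
            ∀ z ∈ r, F z ∉ NullOf (c z) := by
  classical
  have hne : Nonempty K := ⟨t.1⟩
  have hle := bd_le (K := K) (I := I) t.1 t.2
  -- the index of a function
  have h1 : ∀ F : {F : XS K × YS I → ℕ → Bool // Measurable[bd t.1 t.2] F}, ∃ a : K,
      ∀ q ∈ OF S I R p₀ F.1, Rd S I R a q F.1 := fun F =>
    hC.exists_index (F.2.mono hle le_rfl)
  choose a ha using h1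
  -- the witnesses
  let J : Type := {c : XS K × YS I → ℕ → List Bool → Bool // Measurable[bd t.1 t.2] c} ×
    {D : Set (XS K × YS I) // MeasurableSet[bd t.1 t.2] D}
  have hJ : #J ≤ 𝔠 := by
    rw [mk_prod, lift_id, lift_id]
    exact (mul_le_mul' (mk_codes S t.1 t.2 ht) (mk_sets S t.1 t.2 ht)).trans
      (by rw [continuum_mul_self])
  have h2 : ∀ j : J, ∃ (d : K) (L : Set I), L.Countable ∧ ((∀ z, IsNullCode (j.1.1 z)) →
      j.2.1 ∈ QQ S.P (coin I) → j.2.1 ⊆ p₀ →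
      ∃ r ∈ QQ S.P (coin I), r ⊆ j.2.1 ∧ MeasurableSet[bd d L] r ∧
          ∃ F : XS K × YS I → ℕ → Bool, Measurable[bd d L] F ∧ r ∈ OF S I R p₀ F ∧
            ∀ z ∈ r, F z ∉ NullOf (j.1.1 z)) := by
    intro j
    by_cases hj : (∀ z, IsNullCode (j.1.1 z)) ∧ j.2.1 ∈ QQ S.P (coin I) ∧ j.2.1 ⊆ p₀
    · obtain ⟨r, hr, hrq, F, -, hrO, hrF, d, L, hL, hrm, hFm⟩ :=
        hC.big' hj.2.1 hj.2.2 (j.1.2.mono hle le_rfl) hj.1
      exact ⟨d, L, hL, fun _ _ _ => ⟨r, hr, hrq, hrm, F, hFm, hrO, hrF⟩⟩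
    · exact ⟨t.1, ∅, Set.countable_empty, fun x y z => (hj ⟨x, y, z⟩).elim⟩
  choose d L hL h2 using h2
  obtain ⟨e, he⟩ := exists_ub S.mk_K S.mk_Iio (Set.range a ∪ Set.range d) (by
    refine (mk_union_le _ _).trans ?_
    refine (add_le_add (mk_range_le.trans (mk_fun (K := K) (I := I) S.mk_Iio ℕ t.1 t.2 ht))
      (mk_range_le.trans hJ)).trans ?_
    rw [continuum_add_self])
  refine ⟨(e, ⋃ j, L j), ?_, ?_, ?_⟩
  · refine (mk_iUnion_le _).trans ?_
    refine (mul_le_mul' hJ (ciSup_le' fun j => (hL j).le_aleph0)).trans ?_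
    rw [continuum_mul_aleph0]
  · intro F hF q hq
    exact hC.rd_mono (he _ (Or.inl ⟨⟨F, hF⟩, rfl⟩)).le hq.2.1 (hF.mono hle le_rfl)
      (ha ⟨F, hF⟩ q hq)
  · intro c hc hc' q hq hqp hqm
    obtain ⟨r, hr, hrq, hrm, F, hFm, hrO, hrF⟩ := h2 (⟨c, hc⟩, ⟨q, hqm⟩) hc' hq hqp
    have hle2 := bd_mono (K := K) (he _ (Or.inr ⟨(⟨c, hc⟩, ⟨q, hqm⟩), rfl⟩)).le
      (Set.subset_iUnion L (⟨c, hc⟩, ⟨q, hqm⟩))
    exact ⟨r, hr, hrq, hle2 _ hrm, F, hFm.mono hle2 le_rfl, hrO, hrF⟩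

/-- The closing off point. -/
theorem CoreData.level (hC : CoreData S I R p₀) :
    ∃ (d : K) (L : Set I), MeasurableSet[bd d L] p₀ ∧
      (∀ F : XS K × YS I → ℕ → Bool, Measurable[bd d L] F → ∀ q ∈ OF S I R p₀ F,
        Rd S I R d q F) ∧
      ∀ c : XS K × YS I → ℕ → List Bool → Bool, Measurable[bd d L] c →
        (∀ z, IsNullCode (c z)) → ∀ q ∈ QQ S.P (coin I), q ⊆ p₀ → MeasurableSet[bd d L] q →
        ∃ r ∈ QQ S.P (coin I), r ⊆ q ∧ MeasurableSet[bd d L] r ∧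
          ∃ F : XS K × YS I → ℕ → Bool, Measurable[bd d L] F ∧ r ∈ OF S I R p₀ F ∧
            ∀ z ∈ r, F z ∉ NullOf (c z) := by
  classical
  have hP := ppos_qq (ν := coin I) S.ppos
  obtain ⟨d₀, L₀, hL₀, hp₀⟩ := exists_bd (I := I) S.mk_K S.mk_Iio (fun _ => p₀)
    (fun _ => hP.meas p₀ hC.mem)
  have hne : Nonempty (K × Set I) := ⟨(d₀, L₀)⟩
  choose! h hh hh1 hh2 using fun (t : K × Set I) (ht : #t.2 ≤ 𝔠) => hC.step t ht
  have hL₀' : #L₀ ≤ 𝔠 := hL₀.le_aleph0.trans aleph0_le_continuum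
  obtain ⟨W, g, d, L, hL, hg, hgd, ⟨w₀, hw₀⟩, hhg, hdir, hmeas⟩ :=
    closing (I := I) S.mk_K S.mk_Iio h hh (d₀, L₀) hL₀'
  have hgle : ∀ w, bd (g w).1 (g w).2 ≤ bd d L := fun w => bd_mono (hgd w).1.le (hgd w).2
  refine ⟨d, L, ?_, ?_, ?_⟩
  · exact hgle w₀ _ (bd_mono hw₀.1 hw₀.2 _ (hp₀ 0))
  · intro F hF q hq
    obtain ⟨w, hw⟩ := hmeas (fun n => {z | F z n = true}) fun n => (meas_bool_iff _ F).1 hF n
    obtain ⟨w', hw', -⟩ := hhg w
    have h1 := hh1 (g w) (hg w) F ((meas_bool_iff _ F).2 hw) q hq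
    exact hC.rd_mono (hw'.trans (hgd w').1.le) hq.2.1 (hF.mono (bd_le d L) le_rfl) h1
  · intro c hc hc' q hq hqp hqm
    obtain ⟨e, he⟩ := exists_surjective_nat (ℕ × List Bool)
    obtain ⟨w, hw⟩ := hmeas (fun n => Nat.casesOn n q
      fun k => {z | c z (e k).1 (e k).2 = true}) (fun n => by
        cases n with
        | zero => exact hqm
        | succ k => exact (meas_bool_iff _ _).1 ((meas_code_iff _ c).1 hc) (e k))
    have hcw : Measurable[bd (g w).1 (g w).2] c := by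
      rw [meas_code_iff, meas_bool_iff]
      intro p
      obtain ⟨k, rfl⟩ := he p
      exact hw (k + 1)
    obtain ⟨r, hr, hrq, hrm, F, hFm, hrO, hrF⟩ :=
      hh2 (g w) (hg w) c hcw hc' q hq hqp (hw 0)
    obtain ⟨w', hw'1, hw'2⟩ := hhg w
    have hle := (bd_mono hw'1 hw'2).trans (hgle w')
    exact ⟨r, hr, hrq, hle _ hrm, F, hFm.mono hle le_rfl, hrO, hrF⟩

end Pool.Agent.GPA
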