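import Pool.Agent.GPA.CoreC

/-!
# The core: the contradiction
-/

open MeasureTheory Cardinal Set
open scoped ENNReal

set_option linter.unusedSectionVars false

namespace Pool.Agent.GPA


section

variable {K I : Type} [Preorder K]

/-- Section measures are measurable at the level `d`. -/
theorem measurable_sec_lev {d : K} {T : Set (XS K × YS I)}
    (hT : MeasurableSet[(lev d).prod inferInstance] T) :
    Measurable[lev d] fun x => coin I (sec T x) :=
  @measurable_measure_prodMk_left _ _ (lev d) _ (coin I) _ _ hT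

theorem bd_le_lev (d : K) (L : Set I) :
    bd d L ≤ (lev d).prod (inferInstance : MeasurableSpace (YS I)) :=
  prodSpace_mono le_rfl (ysub_le L)

/-- A point of `2^I` and a point of `2^ω` together. -/
def joinYS {I : Type} (y : YS I) (w : ℕ → Bool) : YS (I ⊕ ℕ) := Sum.elim y w

theorem measurable_joinYS {X : Type} (m : MeasurableSpace X) {f : X → YS I} {F : X → ℕ → Bool}
    (hf : Measurable[m] f) (hF : Measurable[m] F) : Measurable[m] fun x => joinYS (f x) (F x) := by
  refine @measurable_pi_lambda _ _ _ m _ _ fun i => ?_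
  cases i with
  | inl i => exact (measurable_pi_apply i).comp hf
  | inr n => exact (measurable_pi_apply n).comp hF

/-- The law of the point and of the value of the function `F` on `r`. -/
noncomputable def law (r : Set (XS K × YS I)) (F : XS K × YS I → ℕ → Bool) (x : XS K) :
    Measure (YS (I ⊕ ℕ)) :=
  (coin I (sec r x))⁻¹ • ((coin I).restrict (sec r x)).map fun y => joinYS y (F (x, y))

variable {d : K} {r : Set (XS K × YS I)} {F : XS K × YS I → ℕ → Bool}

theorem measurable_sec_fun (hF : Measurable[(lev d).prod inferInstance] F) (x : XS K) :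
    Measurable fun y => F (x, y) := by
  have h : @Measurable _ _ _ ((lev d).prod inferInstance) fun y : YS I => (x, y) :=
    @measurable_prodMk_left _ _ (lev d) _ x
  exact hF.comp h

theorem law_apply (hr : MeasurableSet[(lev d).prod inferInstance] r)
    (hF : Measurable[(lev d).prod inferInstance] F) (x : XS K) {s : Set (YS (I ⊕ ℕ))}
    (hs : MeasurableSet s) :
    law r F x s = (coin I (sec r x))⁻¹ * coin I (sec {z | z ∈ r ∧ joinYS z.2 (F z) ∈ s} x) := by
  have hj : Measurable fun y => joinYS y (F (x, y)) :=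
    measurable_joinYS _ measurable_id (measurable_sec_fun hF x)
  have hsec : MeasurableSet (sec r x) := @measurable_prodMk_left _ _ (lev d) _ x _ hr
  rw [law, Measure.smul_apply, Measure.map_apply hj hs, smul_eq_mul,
    Measure.restrict_apply (hj hs)]
  congr 2
  ext y
  simp only [Set.mem_inter_iff, Set.mem_preimage, Set.mem_ofPred_eq]
  tauto

theorem measurable_law (hr : MeasurableSet[(lev d).prod inferInstance] r)
    (hF : Measurable[(lev d).prod inferInstance] F) {s : Set (YS (I ⊕ ℕ))}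
    (hs : MeasurableSet s) : Measurable[lev d] fun x => law r F x s := by
  have h : (fun x => law r F x s) = fun x =>
      (coin I (sec r x))⁻¹ * coin I (sec {z | z ∈ r ∧ joinYS z.2 (F z) ∈ s} x) :=
    funext fun x => law_apply hr hF x hs
  rw [h]
  have hm : MeasurableSet[(lev d).prod inferInstance]
      {z : XS K × YS I | z ∈ r ∧ joinYS z.2 (F z) ∈ s} := by
    refine @MeasurableSet.inter _ ((lev d).prod inferInstance) _ _ hr ?_
    exact measurable_joinYS ((lev d).prod inferInstance)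
      (@measurable_snd _ _ (lev d) _) hF hs
  exact (measurable_sec_lev hr).inv.mul (measurable_sec_lev hm)

theorem law_univ (hr : MeasurableSet[(lev d).prod inferInstance] r)
    (hF : Measurable[(lev d).prod inferInstance] F) (x : XS K) : law r F x Set.univ ≤ 1 := by
  rw [law_apply hr hF x MeasurableSet.univ]
  have : {z : XS K × YS I | z ∈ r ∧ joinYS z.2 (F z) ∈ (Set.univ : Set (YS (I ⊕ ℕ)))} = r := by
    ext z
    simp
  rw [this]
  exact ENNReal.inv_mul_le_one _

end

variable {K : Type} [LinearOrder K] [WellFoundedLT K] {S : LavSys K} {I : Type}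
  {R : Set (XS K × YS I) → (XS K × YS I → ℕ → Bool) → (XS K × YS I → ℕ → ℕ) → Prop}
  {p₀ : Set (XS K × YS I)}

/-- The first coordinates of a member of `QQ`. -/
theorem qq_base {P : Set (Set (XS K))} {D : Set (XS K × YS I)} (hD : D ∈ QQ P (coin I)) :
    {x | coin I (sec D x) ≠ 0} ∈ P := by
  obtain ⟨-, A, hA, h⟩ := hD
  have : {x | coin I (sec D x) ≠ 0} = A := by
    ext x
    refine ⟨fun hx => ?_, fun hx => (h x).2 hx⟩
    by_contra hxA
    exact hx (by rw [(h x).1 hxA, measure_empty])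
  rwa [this]

theorem mem_base {P : Set (Set (XS K))} {D : Set (XS K × YS I)} (hD : D ∈ QQ P (coin I))
    {z : XS K × YS I} (hz : z ∈ D) : coin I (sec D z.1) ≠ 0 := by
  obtain ⟨-, A, hA, h⟩ := hD
  by_cases hx : z.1 ∈ A
  · exact (h z.1).2 hx
  · have h1 : z.2 ∈ sec D z.1 := hz
    rw [(h z.1).1 hx] at h1
    exact h1.elim

theorem CoreData.false (hC : CoreData S I R p₀) : False := by
  classical
  have hP := ppos_qq (ν := coin I) S.ppos
  obtain ⟨d, L, hp₀m, hRd, hbig⟩ := hC.level
  have hA₀ := qq_base hC.mem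
  have hA₀m : MeasurableSet[lev d] {x | coin I (sec p₀ x) ≠ 0} :=
    (measurable_sec_lev (bd_le_lev d L _ hp₀m)) (measurableSet_singleton 0).compl
  obtain ⟨A, hA, hAA₀, c, hc, hc', hcode⟩ := hC.exists_code d hA₀ fun x hx => hx
  obtain ⟨hW, hW0⟩ := code_sum c hc hc'
  obtain ⟨U, hU, hUm, hUA, V, hV, hV0, hext⟩ := S.ext (I ⊕ ℕ) d A hA _ hW hW0
  have hUA₀ : ∀ x ∈ U, coin I (sec p₀ x) ≠ 0 := by
    intro x hx
    obtain ⟨x', hx', hxx⟩ := hUA x hx
    exact (mem_iff_of_lev hA₀m hxx).1 (hAA₀ hx')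
  obtain ⟨c', hc'm, hc'n, hfub⟩ := fub d L V hV hV0
  have hq := qq_restrict (ν := coin I) S.ppos hC.mem hU hUA₀
  have hqm : MeasurableSet[bd d L] (p₀ ∩ Prod.fst ⁻¹' U) := by
    refine @MeasurableSet.inter _ (bd d L) _ _ hp₀m ?_
    exact (@measurable_fst _ _ (lev d) (sub L)) hUm
  obtain ⟨r, hr, hrq, hrm, F, hF, hrO, hrF⟩ := hbig c' hc'm hc'n _ hq Set.inter_subset_left hqm
  have hrm' := bd_le_lev d L _ hrm
  have hF' : Measurable[(lev d).prod inferInstance] F := hF.mono (bd_le_lev d L) le_rfl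
  have hFm : Measurable F := hF.mono (bd_le d L) le_rfl
  -- the points of `r`
  have hU' := qq_base hr
  have hU'm : MeasurableSet[lev d] {x | coin I (sec r x) ≠ 0} :=
    (measurable_sec_lev hrm') (measurableSet_singleton 0).compl
  have hU'U : {x | coin I (sec r x) ≠ 0} ⊆ U := by
    intro x hx
    obtain ⟨y, hy⟩ := nonempty_of_measure_ne_zero hx
    exact (hrq hy).2
  have hVm : ∀ x, MeasurableSet (sec V x) := fun x => @measurable_prodMk_left _ _ (lev d) _ x _ hV
  obtain ⟨B, hB, hBU', hBA, hBW⟩ := hext _ hU' hU'm hU'U (law r F)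
    (fun s hs => measurable_law hrm' hF' hs) (law_univ hrm' hF') (fun x hx => by
      rw [law_apply hrm' hF' x (hVm x)]
      have : sec {z : XS K × YS I | z ∈ r ∧ joinYS z.2 (F z) ∈ sec V x} x =
          {y | (x, y) ∈ r ∧ (x, Sum.elim y (F (x, y))) ∈ V} := rfl
      rw [this, hfub r F hrm hF hrF x, mul_zero]) 2⁻¹ (by norm_num)
  have hnull : MeasurableSet {z : XS K × YS I | F z ∈ NullOf (c z)} := by
    have h1 : Measurable fun z : XS K × YS I => (z, F z) := measurable_id.prodMk hFm
    exact h1 (measurableSet_nullOf hc)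
  have hBm := S.ppos.meas B hB
  have hs : (r ∩ Prod.fst ⁻¹' B) \ {z | F z ∈ NullOf (c z)} ∈ QQ S.P (coin I) := by
    refine ⟨((hP.meas r hr).inter (measurable_fst hBm)).diff hnull, B, hB, fun x =>
      ⟨fun hx => ?_, fun hx h0 => ?_⟩⟩
    · refine Set.eq_empty_of_forall_notMem ?_
      rintro y ⟨⟨-, h⟩, -⟩
      exact hx h
    · have hm0 : coin I (sec r x) ≠ 0 := hBU' hx
      have hmt : coin I (sec r x) ≠ ∞ := measure_ne_top _ _
      have h1 := hBW x hx
      have hWx : MeasurableSet (sec {p : XS K × YS (I ⊕ ℕ) | (fun n => p.2 (.inr n)) ∈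
          NullOf (c (p.1, fun i => p.2 (.inl i)))} x) := measurable_prodMk_left hW
      rw [law_apply hrm' hF' x hWx] at h1
      have h2 : sec {z : XS K × YS I | z ∈ r ∧ joinYS z.2 (F z) ∈
          sec {p : XS K × YS (I ⊕ ℕ) | (fun n => p.2 (.inr n)) ∈
          NullOf (c (p.1, fun i => p.2 (.inl i)))} x} x =
          sec r x ∩ {y | F (x, y) ∈ NullOf (c (x, y))} := by
        ext y
        rfl
      rw [h2] at h1
      have h3 : coin I (sec r x ∩ {y | F (x, y) ∈ NullOf (c (x, y))}) ≤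
          coin I (sec r x) * 2⁻¹ := by
        have := mul_le_mul_right h1 (coin I (sec r x))
        rwa [← mul_assoc, ENNReal.mul_inv_cancel hm0 hmt, one_mul] at this
      have h4 : sec r x ⊆ (sec r x ∩ {y | F (x, y) ∈ NullOf (c (x, y))}) ∪
          sec ((r ∩ Prod.fst ⁻¹' B) \ {z | F z ∈ NullOf (c z)}) x := by
        intro y hy
        by_cases hy' : F (x, y) ∈ NullOf (c (x, y))
        · exact Or.inl ⟨hy, hy'⟩
        · exact Or.inr ⟨⟨hy, hx⟩, hy'⟩
      have h5 := (measure_mono (μ := coin I) h4).trans (measure_union_le _ _)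
      rw [h0, add_zero] at h5
      have h6 := h5.trans h3
      have h7 : coin I (sec r x) * 2⁻¹ < coin I (sec r x) := by
        rw [← div_eq_mul_inv]
        exact ENNReal.half_lt_self hm0 hmt
      exact absurd h6 (not_le.2 h7)
  have hsr : (r ∩ Prod.fst ⁻¹' B) \ {z | F z ∈ NullOf (c z)} ⊆ r := fun z hz => hz.1.1
  have hfin := hcode _ hs ((hsr.trans hrq).trans Set.inter_subset_left)
    (fun z hz => hBA hz.1.2) F hFm ((hRd F hF r hrO).down hsr)
  obtain ⟨t, ht, hts, htF⟩ := hfin _ hs le_rfl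
  obtain ⟨z, hz⟩ := hP.ne t ht
  exact (hts hz).2 (htF hz)

theorem core (R : Set (XS K × YS I) → (XS K × YS I → ℕ → Bool) → (XS K × YS I → ℕ → ℕ) → Prop)
    (p₀ : Set (XS K × YS I)) (hp₀ : p₀ ∈ QQ S.P (coin I))
    (down : ∀ q ∈ QQ S.P (coin I), ∀ r ∈ QQ S.P (coin I), ∀ F G, r ⊆ q → R q F G → R r F G)
    (mono : ∀ q ∈ QQ S.P (coin I), ∀ (F : XS K × YS I → ℕ → Bool) (G G' : XS K × YS I → ℕ → ℕ),
      q ⊆ p₀ → Measurable F → Measurable G →
      Measurable G' → Fo (QQ S.P (coin I)) q {z | ∀ n, G z n ≤ G' z n} → R q F G → R q F G')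
    (null : ∀ q ∈ QQ S.P (coin I), ∀ G, q ⊆ p₀ → Measurable G → ∃ r ∈ QQ S.P (coin I), r ⊆ q ∧
      ∃ c : XS K × YS I → ℕ → List Bool → Bool, Measurable c ∧ (∀ z, IsNullCode (c z)) ∧
        ∀ s ∈ QQ S.P (coin I), s ⊆ r → ∀ F, Measurable F → R s F G →
          Fo (QQ S.P (coin I)) s {z | F z ∈ NullOf (c z)})
    (big : ∀ q ∈ QQ S.P (coin I), q ⊆ p₀ → ∀ c : XS K × YS I → ℕ → List Bool → Bool,
      Measurable c → (∀ z, IsNullCode (c z)) → ∃ r ∈ QQ S.P (coin I), r ⊆ q ∧ ∃ F G,
        Measurable F ∧ Measurable G ∧ R r F G ∧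
          Fo (QQ S.P (coin I)) r {z | F z ∉ NullOf (c z)}) : False :=
  CoreData.false ⟨hp₀, down, mono, null, big⟩

end Pool.Agent.GPA
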