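import Pool.Agent.GPA.Reg

/-!
# Null names and sequences of clopen sets
-/

open MeasureTheory Set
open scoped ENNReal

namespace Pool.Agent.GPA

section

variable {Z : Type*} [MeasurableSpace Z] {I : Type*}

/-- A measurable function with countably many values which are clopen sets. -/
structure CylFun (f : Z → Set (I → Bool)) : Prop where
  count : (range f).Countable
  cyl : ∀ z, IsCyl (f z)
  meas : ∀ t, MeasurableSet {z | f z = t}

theorem CylFun.const {B : Set (I → Bool)} (hB : IsCyl B) : CylFun (fun _ : Z => B) where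
  count := (countable_singleton B).mono (by rintro _ ⟨z, rfl⟩; rfl)
  cyl _ := hB
  meas t := by
    by_cases h : B = t <;> simp [h]

theorem CylFun.op {f g : Z → Set (I → Bool)} (hf : CylFun f) (hg : CylFun g)
    (h : Set (I → Bool) → Set (I → Bool) → Set (I → Bool))
    (hh : ∀ a b, IsCyl a → IsCyl b → IsCyl (h a b)) : CylFun (fun z => h (f z) (g z)) where
  count := (hf.count.image2 hg.count h).mono (by
    rintro _ ⟨z, rfl⟩; exact ⟨_, mem_range_self z, _, mem_range_self z, rfl⟩)
  cyl z := hh _ _ (hf.cyl z) (hg.cyl z)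
  meas t := by
    have h1 : {z | h (f z) (g z) = t} = ⋃ a ∈ range f, ⋃ b ∈ range g,
        ({z | f z = a} ∩ {z | g z = b}) ∩ {_z | h a b = t} := by
      ext z
      simp only [mem_ofPred_eq, mem_iUnion, mem_inter_iff, exists_prop]
      constructor
      · intro hz
        exact ⟨f z, mem_range_self z, g z, mem_range_self z, ⟨rfl, rfl⟩, hz⟩
      · rintro ⟨a, -, b, -, ⟨rfl, rfl⟩, hz⟩
        exact hz
    rw [h1]
    refine MeasurableSet.biUnion hf.count fun a _ => MeasurableSet.biUnion hg.count fun b _ => ?_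
    exact ((hf.meas a).inter (hg.meas b)).inter (MeasurableSet.const _)

theorem CylFun.union {f g : Z → Set (I → Bool)} (hf : CylFun f) (hg : CylFun g) :
    CylFun (fun z => f z ∪ g z) :=
  hf.op hg (· ∪ ·) fun _ _ ha hb => ha.union hb

theorem CylFun.diff {f g : Z → Set (I → Bool)} (hf : CylFun f) (hg : CylFun g) :
    CylFun (fun z => f z \ g z) :=
  hf.op hg (· \ ·) fun _ _ ha hb => ha.inter hb.compl

/-- Selection by a measurable function into `ℕ`. -/
theorem CylFun.sel {f : ℕ → Z → Set (I → Bool)} (hf : ∀ m, CylFun (f m)) {m : Z → ℕ}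
    (hm : Measurable m) : CylFun (fun z => f (m z) z) where
  count := (countable_iUnion fun m => (hf m).count).mono (by
    rintro _ ⟨z, rfl⟩; exact mem_iUnion.2 ⟨m z, mem_range_self z⟩)
  cyl z := (hf _).cyl z
  meas t := by
    have h1 : {z | f (m z) z = t} = ⋃ i, (m ⁻¹' {i}) ∩ {z | f i z = t} := by
      ext z
      simp only [mem_ofPred_eq, mem_iUnion, mem_inter_iff, mem_preimage, mem_singleton_iff]
      constructor
      · intro hz
        exact ⟨m z, rfl, hz⟩
      · rintro ⟨i, rfl, hz⟩
        exact hz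
    rw [h1]
    exact MeasurableSet.iUnion fun i => (hm (measurableSet_singleton i)).inter ((hf i).meas t)

theorem CylFun.iUnion_lt {f : ℕ → Z → Set (I → Bool)} (hf : ∀ m, CylFun (f m)) (n : ℕ) :
    CylFun (fun z => ⋃ i < n, f i z) := by
  induction n with
  | zero =>
    have : (fun z : Z => ⋃ i < 0, f i z) = fun _ => ∅ := by ext; simp
    rw [this]
    exact CylFun.const isCyl_empty
  | succ n ih =>
    have : (fun z : Z => ⋃ i < n + 1, f i z) = fun z => (⋃ i < n, f i z) ∪ f n z := by
      funext z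
      rw [biUnion_lt_succ]
    rw [this]
    exact ih.union (hf n)

open Classical in
theorem CylFun.restrict {A : Set Z} (hA : MeasurableSet A) {B : Set (I → Bool)} (hB : IsCyl B) :
    CylFun (fun z : Z => if z ∈ A then B else ∅) := by
  have h := CylFun.sel (Z := Z) (f := fun m _ => if m = 0 then B else ∅) (m := fun z =>
    if z ∈ A then 0 else 1) (fun m => by
      by_cases h : m = 0 <;> simp only [h, if_true, if_false]
      · exact CylFun.const hB
      · exact CylFun.const isCyl_empty) (Measurable.ite hA measurable_const measurable_const)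
  convert h using 2 with z
  by_cases hz : z ∈ A <;> simp [hz]

/-- A measurable family of null sets is covered infinitely often by a measurable sequence of clopen
sets of prescribed measures. -/
theorem exists_cylFun {W : Set (Z × (I → Bool))} (hW : MeasurableSet W)
    (h0 : ∀ z, coin I (Prod.mk z ⁻¹' W) = 0) {ε : ℕ → ℝ≥0∞} (hε : ∀ k, ε k ≠ 0) :
    ∃ C : ℕ → Z → Set (I → Bool), (∀ k, CylFun (C k)) ∧ (∀ k z, coin I (C k z) ≤ ε k) ∧
      ∀ z y, (z, y) ∈ W → ∀ n, ∃ k ≥ n, y ∈ C k z := by
  classical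
  -- the bounds of the pieces
  have hd : ∀ n j : ℕ, ε (n + j) * 2⁻¹ ^ (n + 1) ≠ 0 := fun n j =>
    mul_ne_zero (hε _) (by simp)
  choose U hU h1 h2 using fun n => exists_openFam hW (hd n 0)
  choose S hS hp hUS using hU
  -- enumerate the pairs
  have hen : ∀ n, ∃ q : ℕ → Set Z × Set (I → Bool), (∀ i, MeasurableSet (q i).1 ∧ IsCyl (q i).2) ∧
      U n = ⋃ i, (q i).1 ×ˢ (q i).2 := by
    intro n
    have hne : (insert (∅, ∅) (S n)).Nonempty := ⟨_, mem_insert _ _⟩
    obtain ⟨q, hq⟩ := ((hS n).insert (∅, ∅)).exists_eq_range hne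
    refine ⟨q, fun i => ?_, ?_⟩
    · have : q i ∈ insert (∅, ∅) (S n) := hq ▸ mem_range_self i
      rcases this with h | h
      · rw [h]; exact ⟨MeasurableSet.empty, isCyl_empty⟩
      · exact hp n _ h
    · rw [hUS n]
      ext z
      simp only [mem_iUnion, exists_prop]
      constructor
      · rintro ⟨p, hpS, hz⟩
        have : p ∈ range q := hq ▸ mem_insert_of_mem _ hpS
        obtain ⟨i, rfl⟩ := this
        exact ⟨i, hz⟩
      · rintro ⟨i, hi⟩
        have : q i ∈ insert (∅, ∅) (S n) := hq ▸ mem_range_self i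
        rcases this with h | h
        · rw [h] at hi; simp at hi
        · exact ⟨_, h, hi⟩
  choose q hq hUq using hen
  -- the initial parts
  let F : ℕ → ℕ → Z → Set (I → Bool) := fun n i z => if z ∈ (q n i).1 then (q n i).2 else ∅
  have hF : ∀ n i, CylFun (F n i) := fun n i => CylFun.restrict (hq n i).1 (hq n i).2
  let G : ℕ → ℕ → Z → Set (I → Bool) := fun n m z => ⋃ i < m, F n i z
  have hG : ∀ n m, CylFun (G n m) := fun n m => CylFun.iUnion_lt (hF n) m
  have hUG : ∀ n z, Prod.mk z ⁻¹' U n = ⋃ m, G n m z := by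
    intro n z
    ext y
    rw [hUq]
    simp only [mem_preimage, mem_iUnion, mem_prod, G, F, exists_prop]
    constructor
    · rintro ⟨i, hi, hy⟩
      exact ⟨i + 1, i, Nat.lt_succ_self i, by rw [if_pos hi]; exact hy⟩
    · rintro ⟨m, i, -, hy⟩
      by_cases hi : z ∈ (q n i).1
      · rw [if_pos hi] at hy; exact ⟨i, hi, hy⟩
      · rw [if_neg hi] at hy; exact absurd hy (notMem_empty _)
  have hGmono : ∀ n z, Monotone fun m => G n m z := fun n z m m' hm =>
    biUnion_mono (fun i (hi : i < m) => lt_of_lt_of_le hi hm) fun _ _ => subset_rfl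
  -- the tails
  let R : ℕ → ℕ → Set (Z × (I → Bool)) := fun n m => U n \ {p | p.2 ∈ G n m p.1}
  have hR : ∀ n m, MeasurableSet (R n m) := by
    intro n m
    have hUm : MeasurableSet (U n) := by
      rw [hUq]
      exact MeasurableSet.iUnion fun i => (hq n i).1.prod (hq n i).2.measurableSet
    refine hUm.diff ?_
    have h3 : {p : Z × (I → Bool) | p.2 ∈ G n m p.1} = ⋃ i < m, (q n i).1 ×ˢ (q n i).2 := by
      ext p
      simp only [G, F, mem_ofPred_eq, mem_iUnion, mem_prod, exists_prop]
      refine exists_congr fun i => and_congr_right fun _ => ?_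
      by_cases hi : p.1 ∈ (q n i).1 <;> simp [hi]
    rw [h3]
    exact MeasurableSet.biUnion (to_countable _) fun i _ =>
      (hq n i).1.prod (hq n i).2.measurableSet
  have hRs : ∀ n m z, Prod.mk z ⁻¹' R n m = (Prod.mk z ⁻¹' U n) \ G n m z := fun n m z => rfl
  have htail : ∀ n j z, ∃ m, j ≤ m ∧ coin I (Prod.mk z ⁻¹' R n m) ≤
      ε (n + (j + 1)) * 2⁻¹ ^ (n + 1) := by
    intro n j z
    have h3 : Filter.Tendsto (fun m => coin I (Prod.mk z ⁻¹' R n m)) Filter.atTop (nhds 0) := by
      have h4 : ⋂ m, Prod.mk z ⁻¹' R n m = ∅ := by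
        ext y
        simp only [mem_iInter, mem_empty_iff_false, iff_false, hRs]
        intro hy
        have hy0 := (hy 0).1
        rw [hUG] at hy0
        obtain ⟨m, hm⟩ := mem_iUnion.1 hy0
        exact (hy m).2 hm
      have h5 := tendsto_measure_iInter_atTop (μ := coin I) (s := fun m => Prod.mk z ⁻¹' R n m)
        (fun m => (measurable_prodMk_left (hR n m)).nullMeasurableSet)
        (fun m m' hm => by
          show Prod.mk z ⁻¹' R n m' ⊆ Prod.mk z ⁻¹' R n m
          rw [hRs, hRs]
          exact sdiff_subset_sdiff_right (hGmono n z hm)) ⟨0, measure_ne_top _ _⟩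
      rwa [h4, measure_empty] at h5
    have h6 := (h3.eventually (gt_mem_nhds (pos_iff_ne_zero.2 (hd n (j + 1))))).and
      (Filter.eventually_ge_atTop j)
    obtain ⟨m, hm, hjm⟩ := h6.exists
    exact ⟨m, hjm, hm.le⟩
  let m : ℕ → ℕ → Z → ℕ := fun n j z => Nat.find (htail n j z)
  have hm : ∀ n j, Measurable (m n j) := by
    intro n j
    refine measurable_find (htail n j) fun k => ?_
    have : MeasurableSet {z | coin I (Prod.mk z ⁻¹' R n k) ≤ ε (n + (j + 1)) * 2⁻¹ ^ (n + 1)} :=
      measurableSet_le (measurable_measure_prodMk_left (hR n k)) measurable_const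
    exact (MeasurableSet.const _).inter this
  have hmj : ∀ n j z, j ≤ m n j z := fun n j z => (Nat.find_spec (htail n j z)).1
  have hmt : ∀ n j z, coin I (Prod.mk z ⁻¹' R n (m n j z)) ≤ ε (n + (j + 1)) * 2⁻¹ ^ (n + 1) :=
    fun n j z => (Nat.find_spec (htail n j z)).2
  -- the pieces
  let D : ℕ → ℕ → Z → Set (I → Bool) := fun n j z =>
    match j with
    | 0 => G n (m n 0 z) z
    | j + 1 => G n (m n (j + 1) z) z \ G n (m n j z) z
  have hD : ∀ n j, CylFun (D n j) := by
    intro n j
    cases j with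
    | zero => exact CylFun.sel (hG n) (hm n 0)
    | succ j => exact (CylFun.sel (hG n) (hm n (j + 1))).diff (CylFun.sel (hG n) (hm n j))
  have hDm : ∀ n j z, coin I (D n j z) ≤ ε (n + j) * 2⁻¹ ^ (n + 1) := by
    intro n j z
    have hGU : ∀ m, G n m z ⊆ Prod.mk z ⁻¹' U n := fun m => by
      rw [hUG]; exact subset_iUnion (fun m => G n m z) m
    cases j with
    | zero =>
      refine (measure_mono (hGU _)).trans ?_
      have h3 : Prod.mk z ⁻¹' U n ⊆ Prod.mk z ⁻¹' (U n \ W) ∪ Prod.mk z ⁻¹' W := by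
        intro y hy
        by_cases h : (z, y) ∈ W
        · exact Or.inr h
        · exact Or.inl ⟨hy, h⟩
      refine (measure_mono h3).trans ((measure_union_le _ _).trans ?_)
      rw [h0 z, add_zero]
      exact h2 n z
    | succ j =>
      refine (measure_mono ?_).trans (hmt n j z)
      rw [hRs]
      exact sdiff_subset_sdiff_left (hGU _)
  have hDU : ∀ n z, Prod.mk z ⁻¹' U n ⊆ ⋃ j, D n j z := by
    intro n z y hy
    rw [hUG] at hy
    obtain ⟨k, hk⟩ := mem_iUnion.1 hy
    have h3 : ∃ j, y ∈ G n (m n j z) z := ⟨k, hGmono n z (hmj n k z) hk⟩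
    have h4 := Nat.find_spec h3
    rcases h5 : Nat.find h3 with _ | j
    · rw [h5] at h4
      exact mem_iUnion.2 ⟨0, h4⟩
    · rw [h5] at h4
      refine mem_iUnion.2 ⟨j + 1, h4, fun h6 => ?_⟩
      exact Nat.find_min h3 (by rw [h5]; exact Nat.lt_succ_self j) h6
  -- the sets
  refine ⟨fun k z => ⋃ n < k + 1, D n (k - n) z, fun k => CylFun.iUnion_lt
    (fun n => hD n (k - n)) (k + 1), fun k z => ?_, fun z y hy n => ?_⟩
  · have h3 : (⋃ n < k + 1, D n (k - n) z) = ⋃ n ∈ Finset.range (k + 1), D n (k - n) z := by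
      ext y; simp [Finset.mem_range]
    show coin I (⋃ n < k + 1, D n (k - n) z) ≤ ε k
    rw [h3]
    refine (measure_biUnion_finset_le _ _).trans ?_
    have h4 : ∀ n ∈ Finset.range (k + 1), coin I (D n (k - n) z) ≤ ε k * 2⁻¹ ^ (n + 1) := by
      intro n hn
      have h5 := hDm n (k - n) z
      rwa [Nat.add_sub_cancel' (Nat.lt_succ_iff.1 (Finset.mem_range.1 hn))] at h5
    refine (Finset.sum_le_sum h4).trans ?_
    refine (ENNReal.sum_le_tsum _).trans (le_of_eq ?_)
    rw [ENNReal.tsum_mul_left, ENNReal.tsum_geometric_add_one, ENNReal.one_sub_inv_two, inv_inv,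
      ENNReal.inv_mul_cancel (by simp) (by simp), mul_one]
  · obtain ⟨j, hj⟩ := mem_iUnion.1 (hDU n z (h1 n hy))
    refine ⟨n + j, Nat.le_add_right n j, mem_iUnion₂.2 ⟨n, by omega, ?_⟩⟩
    rwa [Nat.add_sub_cancel_left]

end

end Pool.Agent.GPA
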