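import Pool.Agent.Forc.Defs

/-!
Goldstern's principle for all sets (Cantor space) and the size of the continuum, evaluated in a structure `(M, ∈)`.
The files `Pool.Agent.SigB.Defs` and `Pool.Agent.Forc.Defs` have: `IsZFC`, `IsSub`, `IsOrdPair`,
`Val`, `IsMap`, `IsOmega`, `Injects`, `IsPower`, `IsOmegaOne`, `IsSuccCardinal`, `IsCantor`.
-/

universe u

namespace Pool.Agent.GPA

open Pool.Agent.SigB Pool.Agent.Forc

variable {M : Type u} [Membership M M]

/-- `x n ≤ x' n` for all `n`, for the functions `x` and `x'`. -/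
def LePt (x x' : M) : Prop := ∀ n i i', Val x n i → Val x' n i' → IsSub i i'

/-- `U` is a set of finite sequences of zeros and ones, where `o = ω`. -/
def IsStrings (U o : M) : Prop := ∀ s, s ∈ U → ∃ k c, k ∈ o ∧ IsCantor c k ∧ s ∈ c

/-- The open subset of `2^ω` consisting of the sequences which extend a member of `U` has measure
at most `2⁻ⁿ` for the coin tossing measure: for all `m ∈ ω` at most `2^(m - n)` of the sequences of
length `m` extend a member of `U`, that is, there is an injective function from the set of pairs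
`(t, v)`, where `t ∈ 2^m` extends a member of `U` and `v ∈ 2^n`, to `2^m`. -/
def MeasLe (U n o : M) : Prop :=
  ∀ m c d e : M, m ∈ o → IsCantor c m → IsCantor d n →
    (∀ z, z ∈ e ↔ ∃ t v, t ∈ c ∧ v ∈ d ∧ (∃ s, s ∈ U ∧ IsSub s t) ∧ IsOrdPair z t v) →
    Injects e c

/-- The set of the sequences `z ∈ 2^ω` with `S z` has measure zero for the coin tossing measure:
for all `n ∈ ω` it is covered by an open set of measure at most `2⁻ⁿ`. -/
def IsNull (S : M → Prop) : Prop :=
  ∀ o n : M, IsOmega o → n ∈ o →
    ∃ U : M, IsStrings U o ∧ MeasLe U n o ∧ ∀ z, S z → ∃ s, s ∈ U ∧ IsSub s z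

variable (M) in
/-- Goldstern's principle for all sets and the Cantor space with the coin tossing measure: if
`A ⊆ ω^ω × 2^ω`, all sections `A_x` have measure zero and `x ≤ x'` implies `A_x ⊆ A_x'`, then the
union of all `A_x` has measure zero. -/
def GPCantor : Prop :=
  ∀ o b c A : M, IsOmega o → (∀ f, f ∈ b ↔ IsMap f o o) → IsCantor c o →
    (∀ z, z ∈ A → ∃ x y, x ∈ b ∧ y ∈ c ∧ IsOrdPair z x y) →
    (∀ x, x ∈ b → IsNull fun y => Val A x y) →
    (∀ x x' y, x ∈ b → x' ∈ b → LePt x x' → Val A x y → Val A x' y) →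
    IsNull fun y => ∃ x, Val A x y

variable (M) in
/-- The continuum is greater than `ℵ₂`: there is an injective function from `ω₂` to the power set
of `ω` and none in the other direction. -/
def ContinuumGtAlephTwo : Prop :=
  ∃ o p w₁ w₂ : M, IsOmega o ∧ IsPower p o ∧ IsOmegaOne w₁ ∧ IsSuccCardinal w₂ w₁ ∧
    Injects w₂ p ∧ ¬ Injects p w₂

end Pool.Agent.GPA
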