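import Pool.Agent.GPA.Cond
import Pool.Agent.GPA.LavSys

/-!
# The chain condition

Among `𝔠⁺` conditions there are `n` with a common lower bound. Instead of the lemma on
`Δ`-systems and of the theorem of Fodor we use a closing-off point of uncountable cofinality.
-/

open Set Cardinal MeasureTheory

namespace Pool.Agent.GPA.Delta

/-! ### Well-orders with small initial segments -/

/-- Small subsets are bounded. -/
theorem exists_strict_ub {W : Type} [LinearOrder W] {c : Cardinal.{0}} (hc : ℵ₀ ≤ c) (hW : c < #W)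
    (hI : ∀ w : W, #(Iio w) ≤ c) (s : Set W) (hs : #s ≤ c) : ∃ d, ∀ b ∈ s, b < d := by
  by_contra h
  push Not at h
  have h1 : (univ : Set W) ⊆ ⋃ b : s, Iic (b : W) := by
    intro w _
    obtain ⟨b, hb, hwb⟩ := h w
    exact mem_iUnion.2 ⟨⟨b, hb⟩, hwb⟩
  have h2 : ∀ b : s, #(Iic (b : W)) ≤ c := by
    intro b
    have h3 : Iic (b : W) = insert (b : W) (Iio (b : W)) := by
      ext w
      simp [le_iff_lt_or_eq, or_comm]
    rw [h3]
    refine (mk_insert_le).trans ?_
    exact (add_le_add (hI b) (one_le_aleph0.trans hc)).trans_eq (add_eq_self hc)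
  have h3 : #W ≤ c := by
    rw [← mk_univ]
    calc #(univ : Set W) ≤ #(⋃ b : s, Iic (b : W)) := mk_le_mk_of_subset h1
      _ ≤ #s * ⨆ b : s, #(Iic (b : W)) := mk_iUnion_le _
      _ ≤ c * c := mul_le_mul' hs (ciSup_le' h2)
      _ = c := mul_eq_self hc
  exact absurd hW (not_lt.2 h3)

section

variable {K : Type} [LinearOrder K] [WellFoundedLT K]

omit [WellFoundedLT K] in
theorem exists_ub_K (hK : #K = Order.succ 𝔠) (hI : ∀ d : K, #(Iio d) ≤ 𝔠) (s : Set K)
    (hs : #s ≤ 𝔠) : ∃ d, ∀ b ∈ s, b < d :=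
  exists_strict_ub aleph0_le_continuum (by rw [hK]; exact Order.lt_succ _) hI s hs

/-- A closing-off point of uncountable cofinality. -/
theorem exists_close (hK : #K = Order.succ 𝔠) (hI : ∀ d : K, #(Iio d) ≤ 𝔠) (G : K → K) :
    ∃ δ : K, (∀ e < δ, G e < δ) ∧ ∀ A : Set K, A.Countable → (∀ a ∈ A, a < δ) →
      ∃ e < δ, ∀ a ∈ A, a < e := by
  classical
  let W := (ℵ₁ : Cardinal.{0}).ord.ToType
  have hW : #W = ℵ₁ := mk_ord_toType _
  have hWI : ∀ w : W, #(Iio w) ≤ ℵ₀ := by
    intro w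
    have h1 : #(Iio w) < ℵ₁ := (mk_Iio_lt w (by simp [W])).trans_eq hW
    exact Order.lt_succ_iff.1 (h1.trans_eq succ_aleph0.symm)
  have hW0 : ℵ₀ < #W := by rw [hW]; exact aleph0_lt_aleph_one
  have hc1 : ℵ₁ ≤ 𝔠 := aleph_one_le_continuum
  -- the strict upper bound of the closure of the values at the smaller arguments
  have hub : ∀ S : Set K, #S ≤ 𝔠 → ∃ d, ∀ b ∈ S, b < d := exists_ub_K hK hI
  have hstep : ∀ S : Set K, ∃ d, #S ≤ 𝔠 → ∀ e ∈ S, ∀ a ≤ e, a < d ∧ G a < d := by
    intro S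
    by_cases hS : #S ≤ 𝔠
    · obtain ⟨d0, hd0⟩ := hub S hS
      obtain ⟨d1, hd1⟩ := hub (G '' Iio d0) (mk_image_le.trans (hI d0))
      refine ⟨max d0 d1, fun _ e he a hae => ?_⟩
      have h1 : a < d0 := hae.trans_lt (hd0 e he)
      exact ⟨lt_max_of_lt_left h1, lt_max_of_lt_right (hd1 _ ⟨a, h1, rfl⟩)⟩
    · obtain ⟨d, -⟩ := hub ∅ (by simp)
      exact ⟨d, fun h => absurd h hS⟩
  choose U hU using hstep
  let F : (w : W) → ((v : W) → v < w → K) → K := fun w ih =>
    U {b | ∃ v, ∃ hv : v < w, b = ih v hv}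
  let h : W → K := fun w => (wellFounded_lt (α := W)).fix F w
  have hh : ∀ w, h w = U {b | ∃ v, ∃ _ : v < w, b = h v} := fun w =>
    (wellFounded_lt (α := W)).fix_eq F w
  have hh1 : ∀ v w : W, v < w → ∀ a ≤ h v, a < h w ∧ G a < h w := by
    intro v w hvw a ha
    rw [hh w]
    refine hU {b | ∃ v, ∃ _ : v < w, b = h v} ?_ (h v) ⟨v, hvw, rfl⟩ a ha
    have h1 : {b | ∃ v, ∃ _ : v < w, b = h v} = h '' Iio w := by
      ext b
      constructor
      · rintro ⟨v, hv, rfl⟩
        exact ⟨v, hv, rfl⟩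
      · rintro ⟨v, hv, rfl⟩
        exact ⟨v, hv, rfl⟩
    rw [h1]
    exact (mk_image_le.trans (hWI w)).trans aleph0_le_continuum
  have hex : {d | ∀ w, h w < d}.Nonempty := by
    obtain ⟨d, hd⟩ := hub (range h) (mk_range_le.trans (hW.le.trans hc1))
    exact ⟨d, fun w => hd _ ⟨w, rfl⟩⟩
  obtain ⟨δ, hδ, hmin⟩ := (wellFounded_lt (α := K)).has_min _ hex
  have hcof : ∀ e < δ, ∃ w, e ≤ h w := by
    intro e he
    by_contra hcon
    push Not at hcon
    exact hmin e hcon he
  have hnext : ∀ w : W, ∃ v, w < v := by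
    intro w
    obtain ⟨v, hv⟩ := exists_strict_ub le_rfl hW0 hWI {w} (by simp)
    exact ⟨v, hv w rfl⟩
  refine ⟨δ, fun e he => ?_, fun A hA hAδ => ?_⟩
  · obtain ⟨w, hw⟩ := hcof e he
    obtain ⟨v, hv⟩ := hnext w
    exact ((hh1 w v hv e hw).2).trans (hδ v)
  · have h1 : ∀ a : A, ∃ w, (a : K) ≤ h w := fun a => hcof a (hAδ a a.2)
    choose f hf using h1
    have hA' : Countable A := hA.to_subtype
    obtain ⟨w, hw⟩ := exists_strict_ub le_rfl hW0 hWI (range f) (by
      rw [le_aleph0_iff_set_countable]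
      exact countable_range f)
    refine ⟨h w, hδ w, fun a ha => ?_⟩
    exact (hh1 (f ⟨a, ha⟩) w (hw _ ⟨_, rfl⟩) a (hf ⟨a, ha⟩)).1

end

/-! ### Counting the measurable sets of a level -/

section

variable {K : Type} [LinearOrder K]

/-- A measurable set which is determined by the coordinates below `d` belongs to the `σ`-algebra of
these coordinates. -/
theorem measurableSet_lev {d : K} {S : Set (Pt K)} (hS : MeasurableSet S)
    (hd : ∀ x y, Agr (d : WithTop K) x y → (x ∈ S ↔ y ∈ S)) : MeasurableSet[lev d] S := by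
  classical
  let r : (Iio d → ℕ → ℕ) → Pt K := fun x b => if h : b < d then x ⟨b, h⟩ else fun _ => 0
  have hr : Measurable r := by
    refine measurable_pi_iff.2 fun b => ?_
    by_cases h : b < d
    · have : (fun x : Iio d → ℕ → ℕ => r x b) = fun x => x ⟨b, h⟩ := by
        funext x
        exact dif_pos h
      rw [this]
      exact measurable_pi_apply _
    · have : (fun x : Iio d → ℕ → ℕ => r x b) = fun _ => fun _ => 0 := by
        funext x
        exact dif_neg h
      rw [this]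
      exact measurable_const
  refine ⟨r ⁻¹' S, hr hS, ?_⟩
  ext x
  refine hd _ _ fun b hb => ?_
  exact dif_pos (WithTop.coe_lt_coe.1 hb)

theorem mk_lev {d : K} (hI : #(Iio d) ≤ 𝔠) : #{S : Set (Pt K) | MeasurableSet[lev d] S} ≤ 𝔠 := by
  let g : Iio d × ℕ × ℕ → Set (Pt K) := fun t => {x | x t.1 t.2.1 = t.2.2}
  have h1 : #(range g) ≤ 𝔠 := by
    refine mk_range_le.trans ?_
    have h2 : #(ℕ × ℕ) ≤ 𝔠 := by
      rw [mk_eq_aleph0]
      exact aleph0_le_continuum
    rw [mk_prod, lift_id, lift_id]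
    exact (mul_le_mul' hI h2).trans_eq continuum_mul_self
  have h2 : lev d ≤ MeasurableSpace.generateFrom (range g) := by
    rw [lev, ← measurable_iff_comap_le]
    refine @measurable_pi_lambda _ _ _ (MeasurableSpace.generateFrom (range g)) _ _ fun b => ?_
    refine @measurable_pi_lambda _ _ _ (MeasurableSpace.generateFrom (range g)) _ _ fun n => ?_
    refine @measurable_to_countable' _ _ _ _ (MeasurableSpace.generateFrom (range g)) _ fun m => ?_
    exact MeasurableSpace.measurableSet_generateFrom ⟨(b, n, m), rfl⟩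
  refine (mk_le_mk_of_subset fun S hS => ?_).trans
    (MeasurableSpace.cardinal_measurableSet_le_continuum h1)
  exact h2 S hS

theorem measurableSet_lev_pt (p : Cond K) (d : K) : MeasurableSet[lev d] (pt p d) :=
  measurableSet_lev (measurableSet_pt p d) fun _ _ h => mem_pt_congr p h

end

/-! ### The chain condition -/

section

variable {K : Type} [LinearOrder K] [WellFoundedLT K]

/-- the set of the coordinates at which the tree is not full -/
def sp (p : Cond K) : Set K := {a | p.T a ≠ MT.full}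

omit [WellFoundedLT K] in
theorem mem_br_of_notMem {p : Cond K} {a : K} (h : a ∉ sp p) (x : Pt K) :
    x a ∈ (p.T a).br x := by
  have h1 : p.T a = MT.full := by
    by_contra h2
    exact h h2
  rw [h1, br_full]
  exact mem_univ _

theorem exists_rich (hK : #K = Order.succ 𝔠) (hI : ∀ d : K, #(Iio d) ≤ 𝔠) (p : K → Cond K) :
    ∃ (e : K) (t : Set (Pt K)), ∀ β, ∃ i, β < i ∧ pt (p i) e = t ∧
      ∀ a ∈ sp (p i), e ≤ a → β ≤ a := by
  by_contra hcon
  push Not at hcon
  choose β hβ using hcon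
  have h1 : ∀ e : K, ∃ d, ∀ t, MeasurableSet[lev e] t → β e t < d := by
    intro e
    obtain ⟨d, hd⟩ := exists_ub_K hK hI (β e '' {t | MeasurableSet[lev e] t})
      (mk_image_le.trans (mk_lev (hI e)))
    exact ⟨d, fun t ht => hd _ ⟨t, ht, rfl⟩⟩
  choose G hG using h1
  obtain ⟨δ, hδ, hcof⟩ := exists_close hK hI G
  obtain ⟨e, he, hA⟩ := hcof (sp (p δ) ∩ Iio δ) ((p δ).supp.mono inter_subset_left)
    fun a ha => ha.2
  have h2 : β e (pt (p δ) e) < δ := (hG e _ (measurableSet_lev_pt (p δ) e)).trans (hδ e he)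
  obtain ⟨a, ha, hea, hlt⟩ := hβ e _ δ h2 rfl
  exact absurd (hA a ⟨ha, hlt.trans h2⟩) (not_lt.2 hea)

/-- **The chain condition**: among `𝔠⁺` conditions there are `n` with a common lower bound. -/
theorem cond_knaster (hK : #K = Order.succ 𝔠) (hI : ∀ d : K, #(Iio d) ≤ 𝔠) (p : K → Cond K)
    (n : ℕ) : ∃ s : Finset K, s.card = n ∧ ∃ B : Cond K, ∀ i ∈ s, pt B ⊤ ⊆ pt (p i) ⊤ := by
  classical
  obtain ⟨e, t, hrich⟩ := exists_rich hK hI p
  have hub : ∀ (B : Cond K) (i γ : K), ∃ γ', (∀ a ∈ sp B, a < γ') ∧ i < γ' ∧ γ < γ' := by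
    intro B i γ
    have hB : #(sp B) ≤ 𝔠 := (le_aleph0_iff_set_countable.2 B.supp).trans aleph0_le_continuum
    obtain ⟨d, hd⟩ := exists_ub_K hK hI (sp B) hB
    obtain ⟨d', hd'⟩ := exists_ub_K hK hI {i, γ} (by
      refine le_trans ?_ aleph0_le_continuum
      rw [le_aleph0_iff_set_countable]
      exact (countable_singleton γ).insert i)
    exact ⟨max d d', fun a ha => lt_max_of_lt_left (hd a ha),
      lt_max_of_lt_right (hd' i (by simp)), lt_max_of_lt_right (hd' γ (by simp))⟩
  have key : ∀ n : ℕ, ∃ s : Finset K, s.card = n ∧ ∃ (B : Cond K) (γ : K), pt B e = t ∧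
      (∀ a ∈ sp B, a < γ) ∧ e ≤ γ ∧ (∀ i ∈ s, i ≤ γ) ∧ ∀ i ∈ s, pt B ⊤ ⊆ pt (p i) ⊤ := by
    intro n
    induction n with
    | zero =>
      obtain ⟨i, -, hi, -⟩ := hrich e
      obtain ⟨γ, h1, -, h2⟩ := hub (p i) i e
      exact ⟨∅, rfl, p i, γ, hi, h1, h2.le, by simp, by simp⟩
    | succ n ih =>
      obtain ⟨s, hs, B, γ, hB, hsp, heγ, hsγ, hle⟩ := ih
      obtain ⟨i, hi, hti, hsi⟩ := hrich γ
      set B' := Cond.glue (γ : WithTop K) B (p i) with hB'
      obtain ⟨γ', h1, h2, h3⟩ := hub B' i γ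
      have his : i ∉ s := fun h => absurd (hsγ i h) (not_le.2 hi)
      have hB'e : pt B' e = t := by
        rw [← hB]
        ext x
        exact mem_pt_glue_of_le (WithTop.coe_le_coe.2 heγ)
      have hB'B : pt B' ⊤ ⊆ pt B ⊤ := by
        intro x hx a _
        rw [mem_pt_glue le_top] at hx
        by_cases ha : a < γ
        · exact hx.1 a (WithTop.coe_lt_coe.2 ha)
        · exact mem_br_of_notMem (fun h => ha (hsp a h)) x
      have hB'i : pt B' ⊤ ⊆ pt (p i) ⊤ := by
        intro x hx a _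
        have hx' := hx
        rw [mem_pt_glue le_top] at hx'
        rcases lt_or_ge a γ with ha | ha
        · rcases lt_or_ge a e with hae | hae
          · have h4 : x ∈ pt (p i) e := by
              rw [hti, ← hB'e]
              exact pt_anti B' le_top hx
            exact h4 a (WithTop.coe_lt_coe.2 hae)
          · refine mem_br_of_notMem (p := p i) (fun h => ?_) x
            exact absurd (hsi a h hae) (not_le.2 ha)
        · exact hx'.2 a (WithTop.coe_le_coe.2 ha) (WithTop.coe_lt_top a)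
      refine ⟨insert i s, ?_, B', γ', hB'e, h1, heγ.trans h3.le, ?_, ?_⟩
      · rw [Finset.card_insert_of_notMem his, hs]
      · intro j hj
        rcases Finset.mem_insert.1 hj with rfl | hj
        · exact h2.le
        · exact (hsγ j hj).trans h3.le
      · intro j hj
        rcases Finset.mem_insert.1 hj with rfl | hj
        · exact hB'i
        · exact hB'B.trans (hle j hj)
  obtain ⟨s, hs, B, -, -, -, -, -, h⟩ := key n
  exact ⟨s, hs, B, h⟩

end

end Pool.Agent.GPA.Delta
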