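import Mathlib

/-!
# The density of a dominated set function, jointly measurable
-/

open MeasureTheory Set Filter ProbabilityTheory
open scoped ENNReal Topology

namespace Pool.Agent.GPA

section Content

variable {Y : Type*} [mY : MeasurableSpace Y]

/-- An additive set function on a generating algebra which is dominated by a finite measure extends
to a measure. -/
theorem exists_measure_of_le (m : Measure Y) [IsFiniteMeasure m] {C : Set (Set Y)}
    (hC : IsSetRing C) (hgen : mY = MeasurableSpace.generateFrom C) (ν : Set Y → ℝ≥0∞)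
    (hadd : ∀ s t, s ∈ C → t ∈ C → Disjoint s t → ν (s ∪ t) = ν s + ν t)
    (hle : ∀ s ∈ C, ν s ≤ m s) : ∃ μ : Measure Y, ∀ s ∈ C, μ s = ν s := by
  have h0 : ν ∅ = 0 := by
    have := hle ∅ hC.empty_mem
    simpa using this
  let c : AddContent ℝ≥0∞ C := IsSetRing.addContent_of_union ν hC h0
    (fun {s t} hs ht h => hadd s t hs ht h)
  have hc : ∀ s, c s = ν s := fun s => rfl
  have hmeas : ∀ s ∈ C, MeasurableSet s := fun s hs => by
    rw [hgen]
    exact MeasurableSpace.measurableSet_generateFrom hs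
  have hne : ∀ s ∈ C, c s ≠ ∞ := fun s hs => by
    rw [hc]
    exact ne_top_of_le_ne_top (measure_ne_top m s) (hle s hs)
  have htend : ∀ ⦃s : ℕ → Set Y⦄ (_ : ∀ n, s n ∈ C), Antitone s → (⋂ n, s n) = ∅ →
      Tendsto (fun n ↦ c (s n)) atTop (𝓝 0) := by
    intro s hs hanti hinter
    have h1 : Tendsto (fun n => m (s n)) atTop (𝓝 (m (⋂ n, s n))) :=
      tendsto_measure_iInter_atTop (fun n => (hmeas _ (hs n)).nullMeasurableSet) hanti
        ⟨0, measure_ne_top m _⟩
    rw [hinter, measure_empty] at h1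
    exact tendsto_of_tendsto_of_tendsto_of_le_of_le tendsto_const_nhds h1 (fun n => bot_le)
      fun n => by
        simp only [hc]
        exact hle _ (hs n)
  have hsub : c.IsSigmaSubadditive := isSigmaSubadditive_of_addContent_iUnion_eq_tsum hC
    fun f hf hUf hdisj => addContent_iUnion_eq_sum_of_tendsto_zero hC c hne htend hf hUf hdisj
  exact ⟨c.measure hC.isSetSemiring hgen.le hsub, fun s hs =>
    c.measure_eq hC.isSetSemiring hgen hsub hs⟩

/-- The extension is dominated by the same measure. -/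
theorem exists_measure_le (m : Measure Y) [IsFiniteMeasure m] {C : Set (Set Y)}
    (hC : IsSetRing C) (huniv : univ ∈ C) (hgen : mY = MeasurableSpace.generateFrom C)
    (ν : Set Y → ℝ≥0∞)
    (hadd : ∀ s t, s ∈ C → t ∈ C → Disjoint s t → ν (s ∪ t) = ν s + ν t)
    (hle : ∀ s ∈ C, ν s ≤ m s) : ∃ μ : Measure Y, (∀ s ∈ C, μ s = ν s) ∧ μ ≤ m := by
  have hmeas : ∀ s ∈ C, MeasurableSet s := fun s hs => by
    rw [hgen]
    exact MeasurableSpace.measurableSet_generateFrom hs
  have hpi : IsPiSystem C := fun s hs t ht _ => hC.inter_mem hs ht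
  obtain ⟨μ, hμ⟩ := exists_measure_of_le m hC hgen ν hadd hle
  obtain ⟨μ', hμ'⟩ := exists_measure_of_le m hC hgen (fun s => m s - ν s)
    (fun s t hs ht h => by
      rw [measure_union h (hmeas t ht), hadd s t hs ht h]
      have h1 := hle s hs
      have h2 := hle t ht
      have h3 : ν s ≠ ∞ := ne_top_of_le_ne_top (measure_ne_top m s) h1
      have h4 : ν t ≠ ∞ := ne_top_of_le_ne_top (measure_ne_top m t) h2
      refine (ENNReal.sub_eq_of_eq_add (ENNReal.add_ne_top.2 ⟨h3, h4⟩) ?_)
      calc m s + m t = (m s - ν s + ν s) + (m t - ν t + ν t) := by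
            rw [tsub_add_cancel_of_le h1, tsub_add_cancel_of_le h2]
        _ = _ := by ring)
    (fun s _ => tsub_le_self)
  refine ⟨μ, hμ, ?_⟩
  have hfin : IsFiniteMeasure (μ + μ') := ⟨by
    rw [Measure.add_apply, hμ univ huniv, hμ' univ huniv]
    exact ENNReal.add_lt_top.2 ⟨lt_of_le_of_lt (hle univ huniv) (measure_lt_top m _),
      lt_of_le_of_lt tsub_le_self (measure_lt_top m _)⟩⟩
  have hsum : ∀ s ∈ C, (μ + μ') s = m s := fun s hs => by
    rw [Measure.add_apply, hμ s hs, hμ' s hs, add_tsub_cancel_of_le (hle s hs)]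
  have heq : μ + μ' = m := ext_of_generate_finite C hgen hpi hsum (hsum univ huniv)
  rw [← heq]
  exact Measure.le_add_right le_rfl

end Content

/-- **The density of a dominated set function.** `ν x n` is the value at the set `σ n`; the sets
`σ n` are an algebra which generates the σ-algebra of `Y`. -/
theorem exists_density {X Y : Type*} [MeasurableSpace X] [mY : MeasurableSpace Y] (m : Measure Y)
    [IsFiniteMeasure m] {σ : ℕ → Set Y} (hC : IsSetRing (range σ)) (huniv : univ ∈ range σ)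
    (hgen : mY = MeasurableSpace.generateFrom (range σ)) {ν : X → ℕ → ℝ}
    (hν : ∀ n, Measurable fun x => ν x n) (h0 : ∀ x n, 0 ≤ ν x n)
    (hle : ∀ x n, ν x n ≤ m.real (σ n))
    (hadd : ∀ x n k l, Disjoint (σ k) (σ l) → σ n = σ k ∪ σ l → ν x n = ν x k + ν x l) :
    ∃ u : X → Y → ℝ, Measurable (Function.uncurry u) ∧ (∀ x y, 0 ≤ u x y) ∧
      (∀ x y, u x y ≤ 1) ∧ ∀ x n, ∫ y in σ n, u x y ∂m = ν x n := by
  classical
  have hmeas : ∀ n, MeasurableSet (σ n) := fun n => by
    rw [hgen]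
    exact MeasurableSpace.measurableSet_generateFrom ⟨n, rfl⟩
  have hpi : IsPiSystem (range σ) := fun s hs t ht _ => hC.inter_mem hs ht
  obtain ⟨e, he⟩ : ∃ e, σ e = ∅ := hC.empty_mem
  have hνe : ∀ x, ν x e = 0 := fun x => by
    have h1 := hle x e
    rw [he, measureReal_empty] at h1
    exact le_antisymm h1 (h0 x e)
  have hwell : ∀ x n k, σ n = σ k → ν x n = ν x k := fun x n k h => by
    have h1 := hadd x n k e (by rw [he]; exact disjoint_empty _) (by rw [he, union_empty, h])
    rw [h1, hνe, add_zero]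
  -- the set function
  set N : X → Set Y → ℝ≥0∞ := fun x s => if h : s ∈ range σ then ENNReal.ofReal (ν x h.choose)
    else 0 with hN
  have hNσ : ∀ x n, N x (σ n) = ENNReal.ofReal (ν x n) := fun x n => by
    have h : σ n ∈ range σ := ⟨n, rfl⟩
    simp only [hN, h, dif_pos]
    rw [hwell x _ n h.choose_spec]
  have hex : ∀ x, ∃ μ : Measure Y, (∀ s ∈ range σ, μ s = N x s) ∧ μ ≤ m := fun x =>
    exists_measure_le m hC huniv hgen (N x) (by
      rintro s t ⟨k, rfl⟩ ⟨l, rfl⟩ hd
      obtain ⟨n, hn⟩ := hC.union_mem (⟨k, rfl⟩ : σ k ∈ range σ) ⟨l, rfl⟩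
      rw [← hn, hNσ, hNσ, hNσ, hadd x n k l hd hn, ENNReal.ofReal_add (h0 x k) (h0 x l)]) (by
      rintro s ⟨n, rfl⟩
      rw [hNσ]
      exact ENNReal.ofReal_le_of_le_toReal (hle x n))
  choose μ hμ hμm using hex
  have hfin : ∀ x, IsFiniteMeasure (μ x) := fun x =>
    ⟨lt_of_le_of_lt (hμm x univ) (measure_lt_top m _)⟩
  have hσμ : ∀ x n, μ x (σ n) = ENNReal.ofReal (ν x n) := fun x n => by
    rw [hμ x _ ⟨n, rfl⟩, hNσ]
  have hbasic : ∀ s ∈ range σ, Measurable fun x => μ x s := by
    rintro s ⟨n, rfl⟩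
    simp_rw [hσμ]
    exact (hν n).ennreal_ofReal
  have hmμ : Measurable μ := Measurable.measure_of_isPiSystem hgen hpi hbasic (hbasic _ huniv)
  let κ : Kernel X Y := ⟨μ, hmμ⟩
  have hκ : ∀ x, κ x = μ x := fun x => rfl
  have : IsFiniteKernel κ := ⟨⟨m univ, measure_lt_top m _, fun x => hμm x univ⟩⟩
  let η : Kernel X Y := Kernel.const X m
  have : MeasurableSpace.CountablyGenerated Y := ⟨⟨range σ, countable_range σ, hgen⟩⟩
  refine ⟨fun x y => min (Kernel.rnDeriv κ η x y).toReal 1, ?_, fun x y => ?_, fun x y => ?_,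
    fun x n => ?_⟩
  · exact (Kernel.measurable_rnDeriv κ η).ennreal_toReal.min measurable_const
  · exact le_min ENNReal.toReal_nonneg zero_le_one
  · exact min_le_right _ _
  · have h1 : Kernel.rnDeriv κ η x =ᵐ[m] (μ x).rnDeriv m := Kernel.rnDeriv_eq_rnDeriv_measure
    have h2 : (μ x).rnDeriv m ≤ᵐ[m] 1 := Measure.rnDeriv_le_one_of_le (hμm x)
    have hac : μ x ≪ m := (hμm x).absolutelyContinuous
    have h3 : ∫ y in σ n, min (Kernel.rnDeriv κ η x y).toReal 1 ∂m =
        ∫ y in σ n, ((μ x).rnDeriv m y).toReal ∂m := by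
      refine integral_congr_ae (ae_restrict_of_ae ?_)
      filter_upwards [h1, h2] with y hy1 hy2
      rw [hy1]
      refine min_eq_left ?_
      exact ENNReal.toReal_le_of_le_ofReal zero_le_one (by simpa using hy2)
    rw [h3, Measure.setIntegral_toReal_rnDeriv hac, Measure.real, hσμ,
      ENNReal.toReal_ofReal (h0 x n)]

end Pool.Agent.GPA
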