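import Pool.Agent.GPA.PFin

/-!
# The dominating reals

The coordinate `d` of the points of a condition can be made to dominate every function read from
the coordinates below `d`: thin the tree at the coordinate `d`.
-/

open Set MeasureTheory

namespace Pool.Agent.GPA

variable {K : Type} [LinearOrder K]

/-- A set measurable with respect to the coordinates below `d` depends only on these
coordinates. -/
theorem lev_congr {d : K} {S : Set (XS K)} (hS : MeasurableSet[lev d] S) {x y : XS K}
    (h : Agr (d : WithTop K) x y) : x ∈ S ↔ y ∈ S := by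
  obtain ⟨S', -, rfl⟩ := hS
  have : (fun b : Set.Iio d => x b) = fun b : Set.Iio d => y b :=
    funext fun b => h b (WithTop.coe_lt_coe.2 b.2)
  rw [mem_preimage, mem_preimage, this]

theorem lev_le (d : K) : lev d ≤ (inferInstance : MeasurableSpace (XS K)) := by
  refine Measurable.comap_le ?_
  exact measurable_pi_lambda _ fun b => measurable_pi_apply _

/-- A function into `ℕ → ℕ` measurable with respect to the coordinates below `d` depends only on
these coordinates. -/
theorem det_of_lev {d : K} {H : XS K → ℕ → ℕ} (hH : Measurable[lev d] H) :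
    Det (d : WithTop K) (fun x : Pt K => H x) := by
  intro x y hxy
  have h1 : MeasurableSet[lev d] (H ⁻¹' {H x}) := hH (measurableSet_singleton _)
  have h2 := (lev_congr h1 hxy).1 rfl
  exact h2.symm

/-- The trees `T` thinned so that the branches dominate `H x` above the stem. -/
def MT.above (T : MT K) (H : Pt K → ℕ → ℕ) (hH : ∀ k m, MeasurableSet {x : Pt K | H x k ≤ m}) :
    MT K where
  s := T.s
  W x t := {m | m ∈ T.W x t ∧ H x t.length ≤ m}
  inf x t := by
    have h1 := (T.inf x t).sdiff (finite_Iio (H x t.length))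
    refine h1.mono ?_
    rintro m ⟨hm, hm'⟩
    exact ⟨hm, not_lt.1 hm'⟩
  ms := T.ms
  mW t m := (T.mW t m).inter (hH t.length m)

omit [LinearOrder K] in
theorem MT.above_sub (T : MT K) (H : Pt K → ℕ → ℕ)
    (hH : ∀ k m, MeasurableSet {x : Pt K | H x k ≤ m}) (x : Pt K) : (T.above H hH).Sub T x :=
  sub_of_subset fun _ _ _ hm => hm.1

omit [LinearOrder K] in
theorem MT.above_le {T : MT K} {H : Pt K → ℕ → ℕ}
    {hH : ∀ k m, MeasurableSet {x : Pt K | H x k ≤ m}} {x : Pt K} {z : ℕ → ℕ}
    (hz : z ∈ (T.above H hH).br x) {k : ℕ} (hk : (T.s x).length ≤ k) : H x k ≤ z k := by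
  have h1 := (hz.2 k hk).2
  rwa [length_pre] at h1

/-- The field `dom` of the structure `LavSys` for the family `PP K`. -/
theorem dom_PP (d : K) (H : XS K → ℕ → ℕ) (hH : Measurable[lev d] H) : ∀ A ∈ PP K,
    ∃ B ∈ PP K, B ⊆ A ∧ ∀ x ∈ B, ∃ n₀, ∀ n ≥ n₀, H x n ≤ x d n := by
  classical
  rintro _ ⟨p, rfl⟩
  have hm : ∀ k m, MeasurableSet {x : Pt K | H x k ≤ m} := by
    intro k m
    have h1 : Measurable H := hH.mono (lev_le d) le_rfl
    have h2 : Measurable fun x : Pt K => H x k := (measurable_pi_apply k).comp h1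
    exact measurableSet_le h2 measurable_const
  have hd := det_of_lev hH
  have hW : Det (d : WithTop K) ((p.T d).above H hm).W := by
    intro x y hxy
    have e1 := p.dW d x y hxy
    have e2 : H x = H y := hd x y hxy
    show (fun t => {m | m ∈ (p.T d).W x t ∧ H x t.length ≤ m}) = _
    rw [e1, e2]
    rfl
  let q : Cond K := p.upd d ((p.T d).above H hm) (p.ds d) hW
  have hqd : q.T d = (p.T d).above H hm := Function.update_self _ _ _
  have hqa : ∀ a, a ≠ d → q.T a = p.T a := fun a ha => Function.update_of_ne ha _ _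
  refine ⟨pt q ⊤, ⟨q, rfl⟩, fun x hx a ha => ?_, fun x hx => ?_⟩
  · have h1 := hx a ha
    by_cases h : a = d
    · subst h
      rw [hqd] at h1
      exact (sub_iff_br (((p.T a).above H hm).inf x)).1 ((p.T a).above_sub H hm x) h1
    · rwa [hqa a h] at h1
  · have h1 := hx d (WithTop.coe_lt_top d)
    rw [hqd] at h1
    exact ⟨((p.T d).s x).length, fun n hn => MT.above_le h1 hn⟩

end Pool.Agent.GPA
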