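import Pool.Agent.GPA.Cond

/-!
# Fusion

A measurable family of Laver trees is built from a countable set `S` of states. The node of a state
`σ` is `nod σ`, the state `σ` is valid at the points of `V σ`, and `R σ τ` means that `τ` may follow
`σ`. If every valid state has valid successors at infinitely many immediate successors of its node,
there is a measurable family of Laver trees such that every branch carries a sequence of valid
states.
-/

open Set

namespace Pool.Agent.GPA

namespace Fusion

variable {S : Type} [Countable S]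

omit [Countable S] in
theorem infinite_of_forall_exists_ge {A : Set ℕ} (h : ∀ k : ℕ, ∃ m ∈ A, k ≤ m) : A.Infinite := by
  refine Set.infinite_of_forall_exists_gt fun k => ?_
  obtain ⟨m, h1, h2⟩ := h (k + 1)
  exact ⟨m, h1, h2⟩

/-- An injective function to the natural numbers. -/
noncomputable def code (σ : S) : ℕ := (exists_injective_nat S).choose σ

theorem code_inj {σ τ : S} (h : code σ = code τ) : σ = τ := (exists_injective_nat S).choose_spec h

/-- The element of least code of a set, if there is one. -/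
noncomputable def pick (A : Set S) : Option S := by
  classical
  exact if h : ∃ σ ∈ A, ∀ τ ∈ A, code σ ≤ code τ then some h.choose else none

theorem exists_least {A : Set S} (hA : A.Nonempty) : ∃ σ ∈ A, ∀ τ ∈ A, code σ ≤ code τ := by
  obtain ⟨σ, hσ, h⟩ := exists_minimalFor_of_wellFoundedLT (· ∈ A) (code (S := S)) hA
  refine ⟨σ, hσ, fun τ hτ => ?_⟩
  rcases le_total (code σ) (code τ) with h1 | h1
  · exact h1
  · exact h hτ h1

theorem pick_eq_some {A : Set S} {σ : S} : pick A = some σ ↔ σ ∈ A ∧ ∀ τ ∈ A, code σ ≤ code τ := by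
  classical
  unfold pick
  constructor
  · intro h
    by_cases h1 : ∃ σ ∈ A, ∀ τ ∈ A, code σ ≤ code τ
    · rw [dif_pos h1] at h
      have h2 := h1.choose_spec
      rw [Option.some.inj h] at h2
      exact h2
    · rw [dif_neg h1] at h
      exact absurd h (by simp)
  · intro h
    have h1 : ∃ σ ∈ A, ∀ τ ∈ A, code σ ≤ code τ := ⟨σ, h.1, h.2⟩
    rw [dif_pos h1]
    have h2 := h1.choose_spec
    exact congrArg some (code_inj (le_antisymm (h2.2 σ h.1) (h.2 _ h2.1)))

theorem pick_eq_none {A : Set S} : pick A = none ↔ ∀ σ, σ ∉ A := by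
  constructor
  · intro h σ hσ
    obtain ⟨τ, h1, h2⟩ := exists_least ⟨σ, hσ⟩
    rw [pick_eq_some.2 ⟨h1, h2⟩] at h
    exact absurd h (by simp)
  · intro h
    rcases hp : pick A with _ | σ
    · rfl
    · exact absurd (pick_eq_some.1 hp).1 (h σ)

theorem exists_pick {A : Set S} (hA : A.Nonempty) : ∃ σ, pick A = some σ := by
  obtain ⟨σ, h1, h2⟩ := exists_least hA
  exact ⟨σ, pick_eq_some.2 ⟨h1, h2⟩⟩

variable (nod : S → List ℕ) (Init : S → Prop) (R : S → S → Prop)

/-- The states at the node `t` which may follow `σ`. -/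
def nextSet (G : Set S) (t : List ℕ) : Option S → Set S
  | none => ∅
  | some σ => {τ | R σ τ ∧ nod τ = t ∧ τ ∈ G}

/-- The initial state. -/
noncomputable def init (s : List ℕ) (G : Set S) : Option S := pick {σ | Init σ ∧ nod σ = s ∧ σ ∈ G}

/-- The state at the node `t`. -/
noncomputable def st (s : List ℕ) (G : Set S) : List ℕ → Option S
  | [] => if s = [] then init nod Init s G else none
  | m :: t => if s = m :: t then init nod Init s G else pick (nextSet nod R G (m :: t) (st s G t))

/-- The set of the successors with a valid state. -/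
def W0 (s : List ℕ) (G : Set S) (t : List ℕ) : Set ℕ :=
  {m | (nextSet nod R G (m :: t) (st nod Init R s G t)).Nonempty}

/-- The set of successors. -/
noncomputable def WW (s : List ℕ) (G : Set S) (t : List ℕ) : Set ℕ := by
  classical
  exact if (W0 nod Init R s G t).Infinite then W0 nod Init R s G t else univ

theorem WW_infinite (s : List ℕ) (G : Set S) (t : List ℕ) : (WW nod Init R s G t).Infinite := by
  classical
  unfold WW
  split_ifs with h
  · exact h
  · exact infinite_univ

theorem st_self (s : List ℕ) (G : Set S) : st nod Init R s G s = init nod Init s G := by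
  cases s with
  | nil => rw [st, if_pos rfl]
  | cons m t => rw [st, if_pos rfl]

theorem st_cons {s : List ℕ} {G : Set S} {m : ℕ} {t : List ℕ} (h : s ≠ m :: t) :
    st nod Init R s G (m :: t) = pick (nextSet nod R G (m :: t) (st nod Init R s G t)) := by
  rw [st, if_neg h]

/-- The states along a branch. -/
theorem exists_states {s : List ℕ} {G : Set S} (h0 : ∃ σ, Init σ ∧ nod σ = s ∧ σ ∈ G)
    (h1 : ∀ σ ∈ G, ∀ k : ℕ, ∃ m, k ≤ m ∧ ∃ τ ∈ G, R σ τ ∧ nod τ = m :: nod σ)
    {z : ℕ → ℕ} (hz : z ∈ br s (WW nod Init R s G)) :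
    ∃ σ : ℕ → S, Init (σ 0) ∧ (∀ k, σ k ∈ G) ∧ (∀ k, nod (σ k) = pre z (s.length + k)) ∧
      ∀ k, R (σ k) (σ (k + 1)) := by
  classical
  have hz0 : pre z s.length = s := hz.1
  -- one step
  have hstep : ∀ k (σ : S), σ ∈ G → nod σ = pre z (s.length + k) →
      st nod Init R s G (pre z (s.length + k)) = some σ →
      ∃ τ ∈ G, R σ τ ∧ nod τ = pre z (s.length + (k + 1)) ∧
        st nod Init R s G (pre z (s.length + (k + 1))) = some τ := by
    intro k σ hσ hn hs
    have e1 : pre z (s.length + (k + 1)) = z (s.length + k) :: pre z (s.length + k) := by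
      rw [← Nat.add_assoc, pre_succ]
    have hinf : (W0 nod Init R s G (pre z (s.length + k))).Infinite := by
      refine infinite_of_forall_exists_ge fun k' => ?_
      obtain ⟨m, hm, τ, hτ, hR, hnod⟩ := h1 σ hσ k'
      refine ⟨m, ?_, hm⟩
      show (nextSet nod R G _ _).Nonempty
      rw [hs]
      exact ⟨τ, hR, by rw [hnod, hn], hτ⟩
    have hW : WW nod Init R s G (pre z (s.length + k)) = W0 nod Init R s G (pre z (s.length + k)) := by
      unfold WW
      rw [if_pos hinf]
    have hm := hz.2 (s.length + k) (Nat.le_add_right _ _)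
    rw [hW] at hm
    obtain ⟨τ, hτ⟩ := exists_pick hm
    have h2 := (pick_eq_some.1 hτ).1
    rw [hs] at h2
    have hne : s ≠ z (s.length + k) :: pre z (s.length + k) := by
      intro h
      have := congrArg List.length h
      rw [List.length_cons, length_pre] at this
      omega
    refine ⟨τ, h2.2.2, h2.1, ?_, ?_⟩
    · rw [e1]; exact h2.2.1
    · rw [e1, st_cons nod Init R hne]
      exact hτ
  obtain ⟨σ0, hσ0⟩ := exists_pick (A := {σ | Init σ ∧ nod σ = s ∧ σ ∈ G}) h0
  have hσ0' := (pick_eq_some.1 hσ0).1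
  -- the sequence
  let Q : ℕ → S → Prop := fun k σ => σ ∈ G ∧ nod σ = pre z (s.length + k) ∧
    st nod Init R s G (pre z (s.length + k)) = some σ
  have hQ0 : Q 0 σ0 := by
    refine ⟨hσ0'.2.2, ?_, ?_⟩
    · rw [Nat.add_zero, hz0]; exact hσ0'.2.1
    · rw [Nat.add_zero, hz0, st_self]; exact hσ0
  have hQs : ∀ k σ, Q k σ → ∃ τ, Q (k + 1) τ ∧ R σ τ := by
    rintro k σ ⟨ha, hb, hc⟩
    obtain ⟨τ, t1, t2, t3, t4⟩ := hstep k σ ha hb hc
    exact ⟨τ, ⟨t1, t3, t4⟩, t2⟩
  choose! f hf1 hf2 using hQs
  let g : ℕ → S := fun k => Nat.rec σ0 (fun k σ => f k σ) k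
  have hg : ∀ k, Q k (g k) := by
    intro k
    induction k with
    | zero => exact hQ0
    | succ k ih => exact hf1 k (g k) ih
  exact ⟨g, hσ0'.1, fun k => (hg k).1, fun k => (hg k).2.1, fun k => hf2 k (g k) (hg k)⟩

section measurable

variable {K : Type} {s : Pt K → List ℕ} {V : S → Set (Pt K)}

theorem measurableSet_pick {A : Pt K → Set S} (hA : ∀ σ, MeasurableSet {x | σ ∈ A x})
    (o : Option S) : MeasurableSet {x | pick (A x) = o} := by
  rcases o with _ | σ
  · have : {x | pick (A x) = none} = ⋂ σ, {x | σ ∈ A x}ᶜ := by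
      ext x
      simp only [mem_ofPred_eq, mem_iInter, mem_compl_iff]
      exact pick_eq_none
    rw [this]
    exact MeasurableSet.iInter fun σ => (hA σ).compl
  · have : {x | pick (A x) = some σ} =
        {x | σ ∈ A x} ∩ ⋂ τ : S, {x | τ ∈ A x → code σ ≤ code τ} := by
      ext x
      simp only [mem_ofPred_eq, mem_inter_iff, mem_iInter]
      exact pick_eq_some
    rw [this]
    exact (hA σ).inter (MeasurableSet.iInter fun τ => (hA τ).imp (MeasurableSet.const _))

variable (hs : ∀ t, MeasurableSet {x | s x = t}) (hV : ∀ σ, MeasurableSet (V σ))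

include hs hV

theorem measurableSet_init (o : Option S) :
    MeasurableSet {x : Pt K | init nod Init (s x) {σ | x ∈ V σ} = o} := by
  refine measurableSet_pick (fun σ => ?_) o
  have : {x | σ ∈ {σ | Init σ ∧ nod σ = s x ∧ σ ∈ {σ | x ∈ V σ}}} =
      ({x : Pt K | Init σ} ∩ {x | s x = nod σ}) ∩ V σ := by
    ext x
    simp only [mem_ofPred_eq, mem_inter_iff]
    constructor
    · rintro ⟨h1, h2, h3⟩
      exact ⟨⟨h1, h2.symm⟩, h3⟩
    · rintro ⟨⟨h1, h2⟩, h3⟩
      exact ⟨h1, h2.symm, h3⟩
  rw [this]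
  exact ((MeasurableSet.const _).inter (hs _)).inter (hV σ)

omit hs in
theorem measurableSet_next {o : Pt K → Option S} (ho : ∀ c, MeasurableSet {x | o x = c})
    (t : List ℕ) (τ : S) : MeasurableSet {x : Pt K | τ ∈ nextSet nod R {σ | x ∈ V σ} t (o x)} := by
  have h1 : CM o := CM.of_countable ho
  refine h1.rel (R := fun c x => τ ∈ nextSet nod R {σ | x ∈ V σ} t c) fun c => ?_
  rcases c with _ | σ
  · exact MeasurableSet.const _
  · have : {x : Pt K | τ ∈ nextSet nod R {σ | x ∈ V σ} t (some σ)} =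
        {x : Pt K | R σ τ ∧ nod τ = t} ∩ V τ := by
      ext x
      simp only [nextSet, mem_ofPred_eq, mem_inter_iff]
      tauto
    rw [this]
    exact (MeasurableSet.const _).inter (hV τ)

theorem measurableSet_st (t : List ℕ) : ∀ o : Option S,
    MeasurableSet {x : Pt K | st nod Init R (s x) {σ | x ∈ V σ} t = o} := by
  classical
  induction t with
  | nil =>
    intro o
    have : {x : Pt K | st nod Init R (s x) {σ | x ∈ V σ} [] = o} =
        ({x | s x = []} ∩ {x | init nod Init (s x) {σ | x ∈ V σ} = o}) ∪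
        ({x | s x = []}ᶜ ∩ {x | (none : Option S) = o}) := by
      ext x
      by_cases h : s x = [] <;> simp [st, h]
    rw [this]
    exact ((hs _).inter (measurableSet_init nod Init hs hV o)).union
      ((hs _).compl.inter (MeasurableSet.const _))
  | cons m t ih =>
    intro o
    have : {x : Pt K | st nod Init R (s x) {σ | x ∈ V σ} (m :: t) = o} =
        ({x | s x = m :: t} ∩ {x | init nod Init (s x) {σ | x ∈ V σ} = o}) ∪
        ({x | s x = m :: t}ᶜ ∩ {x | pick (nextSet nod R {σ | x ∈ V σ} (m :: t)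
          (st nod Init R (s x) {σ | x ∈ V σ} t)) = o}) := by
      ext x
      by_cases h : s x = m :: t <;> simp [st, h]
    rw [this]
    exact ((hs _).inter (measurableSet_init nod Init hs hV o)).union
      ((hs _).compl.inter (measurableSet_pick (fun τ => measurableSet_next nod R hV ih _ τ) o))

theorem measurableSet_W0 (t : List ℕ) (m : ℕ) :
    MeasurableSet {x : Pt K | m ∈ W0 nod Init R (s x) {σ | x ∈ V σ} t} := by
  have : {x : Pt K | m ∈ W0 nod Init R (s x) {σ | x ∈ V σ} t} =
      ⋃ τ : S, {x | τ ∈ nextSet nod R {σ | x ∈ V σ} (m :: t)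
        (st nod Init R (s x) {σ | x ∈ V σ} t)} := by
    ext x
    simp only [mem_ofPred_eq, mem_iUnion]
    rfl
  rw [this]
  exact MeasurableSet.iUnion fun τ =>
    measurableSet_next nod R hV (measurableSet_st nod Init R hs hV t) _ τ

theorem measurableSet_WW (t : List ℕ) (m : ℕ) :
    MeasurableSet {x : Pt K | m ∈ WW nod Init R (s x) {σ | x ∈ V σ} t} := by
  classical
  have h1 : {x : Pt K | (W0 nod Init R (s x) {σ | x ∈ V σ} t).Infinite} =
      ⋂ k : ℕ, ⋃ m : ℕ, {x : Pt K | k ≤ m ∧ m ∈ W0 nod Init R (s x) {σ | x ∈ V σ} t} := by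
    ext x
    simp only [mem_ofPred_eq, mem_iInter, mem_iUnion]
    constructor
    · intro h k
      obtain ⟨m, hm, hk⟩ := h.exists_gt k
      exact ⟨m, hk.le, hm⟩
    · intro h
      refine infinite_of_forall_exists_ge fun k => ?_
      obtain ⟨m, hk, hm⟩ := h k
      exact ⟨m, hm, hk⟩
  have h2 : MeasurableSet {x : Pt K | (W0 nod Init R (s x) {σ | x ∈ V σ} t).Infinite} := by
    rw [h1]
    exact MeasurableSet.iInter fun k => MeasurableSet.iUnion fun m =>
      (MeasurableSet.const _).inter (measurableSet_W0 nod Init R hs hV t m)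
  have : {x : Pt K | m ∈ WW nod Init R (s x) {σ | x ∈ V σ} t} =
      ({x | (W0 nod Init R (s x) {σ | x ∈ V σ} t).Infinite} ∩
        {x | m ∈ W0 nod Init R (s x) {σ | x ∈ V σ} t}) ∪
      {x | (W0 nod Init R (s x) {σ | x ∈ V σ} t).Infinite}ᶜ := by
    ext x
    by_cases h : (W0 nod Init R (s x) {σ | x ∈ V σ} t).Infinite <;> simp [WW, h]
  rw [this]
  exact (h2.inter (measurableSet_W0 nod Init R hs hV t m)).union h2.compl

end measurable

end Fusion

open Fusion in
/-- **Fusion.** -/
theorem fusion {K : Type} [LinearOrder K] {S : Type} [Countable S] (a : K) (nod : S → List ℕ)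
    (Init : S → Prop) (R : S → S → Prop) (s : Pt K → List ℕ)
    (hs : ∀ t, MeasurableSet {x | s x = t}) (hsd : Det (a : WithTop K) s) (V : S → Set (Pt K))
    (hV : ∀ σ, MeasurableSet (V σ)) (hVd : ∀ σ, Det (a : WithTop K) fun x => x ∈ V σ) :
    ∃ T : MT K, Det (a : WithTop K) T.s ∧ Det (a : WithTop K) T.W ∧ (∀ x, T.s x = s x) ∧
      ∀ x, (∃ σ, Init σ ∧ nod σ = s x ∧ x ∈ V σ) →
        (∀ σ, x ∈ V σ → ∀ k : ℕ, ∃ m, k ≤ m ∧ ∃ τ, x ∈ V τ ∧ R σ τ ∧ nod τ = m :: nod σ) →
        ∀ z ∈ T.br x, ∃ σ : ℕ → S, Init (σ 0) ∧ (∀ k, x ∈ V (σ k)) ∧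
          (∀ k, nod (σ k) = pre z ((s x).length + k)) ∧ ∀ k, R (σ k) (σ (k + 1)) := by
  refine ⟨{ s := s
            W := fun x => WW nod Init R (s x) {σ | x ∈ V σ}
            inf := fun x t => WW_infinite nod Init R _ _ t
            ms := hs
            mW := fun t m => measurableSet_WW nod Init R hs hV t m }, hsd, ?_, fun _ => rfl, ?_⟩
  · intro x y hxy
    show WW nod Init R (s x) {σ | x ∈ V σ} = WW nod Init R (s y) {σ | y ∈ V σ}
    rw [hsd x y hxy]
    congr 1
    ext σ
    exact iff_of_eq (hVd σ x y hxy)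
  · intro x h0 h1 z hz
    exact exists_states nod Init R (G := {σ | x ∈ V σ}) h0 (fun σ hσ k => by
      obtain ⟨m, hm, τ, h2, h3, h4⟩ := h1 σ hσ k
      exact ⟨m, hm, τ, h2, h3, h4⟩) hz

end Pool.Agent.GPA
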