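import Pool.Agent.GPA.OneOk
import Pool.Agent.GPA.Fusion

/-!
# The one step theorem

From the points of the level `i` to the points of the next level: the trees at the coordinate `i` are
built by a fusion. A state at a node `t` is a condition `e` of `N` with stem `t`, together with a
finite list of open names with potentials, such that the total of the potentials is small.
-/

open MeasureTheory Set Filter Topology
open scoped ENNReal

namespace Pool.Agent.GPA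

variable {K : Type} [LinearOrder K] [WellFoundedLT K] {i : K} {j : WithTop K}

namespace OneF

/-- A state. -/
structure St (i : K) (j : WithTop K) (N : Set Obj) where
  t : List ℕ
  e : {e : Cond K // Has N e}
  L : {L : List (NW K) // Has N L}
  n : ℕ
  k : ℕ
  pot : ∀ cw ∈ L.1, PotN i j e.1 cw
  nm : ∀ cw ∈ L.1, Has N cw.1 ∧ ∃ a k, IsCode j a k cw.1

omit [WellFoundedLT K] in
theorem countable_St {N : Set Obj} (hN : N.Countable) : Countable (St i j N) := by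
  have h1 : Countable {e : Cond K // Has N e} := (has_countable hN (Cond K)).to_subtype
  have h2 : Countable {L : List (NW K) // Has N L} := (has_countable hN (List (NW K))).to_subtype
  refine Function.Injective.countable (f := fun σ : St i j N => (σ.t, σ.e, σ.L, σ.n, σ.k)) ?_
  rintro ⟨t, e, L, n, k, _, _⟩ ⟨t', e', L', n', k', _, _⟩ h
  simp only [Prod.mk.injEq] at h
  obtain ⟨rfl, rfl, rfl, rfl, rfl⟩ := h
  rfl

/-- The budget. -/
noncomputable def bd (δ : ℝ) (n : ℕ) : ℝ := δ * (1 - 2⁻¹ ^ (n + 1))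

theorem bd_succ (δ : ℝ) (n : ℕ) : bd δ (n + 1) = bd δ n + 2 * (δ * 2⁻¹ ^ (n + 3)) := by
  unfold bd
  rw [pow_succ _ (n + 1), pow_succ _ (n + 2), pow_succ _ (n + 1)]
  ring

theorem bd_le {δ : ℝ} (hδ : 0 < δ) (n : ℕ) : bd δ n ≤ δ := by
  unfold bd
  have : (0 : ℝ) < 2⁻¹ ^ (n + 1) := by positivity
  nlinarith

variable {N : Set Obj}

/-- The validity of a state. -/
def V1 (δ : ℝ) (π : Pt K → Measure (YS ℕ)) (σ : St i j N) : Set (Pt K) :=
  {x | x ∈ pt σ.e.1 (i : WithTop K) ∧ (σ.e.1.T i).s x = σ.t ∧ tot σ.L.1 (π x) σ.t x ≤ bd δ σ.n}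

/-- The initial states. -/
def Init (u : Task K) (σ : St i j N) : Prop :=
  σ.n = 0 ∧ pt σ.e.1 j ⊆ pt (u.1 σ.k) j ∧ ∃ w, σ.L.1 = [(u.2.1 σ.k, w)]

/-- The initial state at `x`. -/
noncomputable def ini [Countable (St i j N)] (u : Task K) (δ : ℝ) (π : Pt K → Measure (YS ℕ))
    (x : Pt K) : Option (St i j N) := Fusion.pick {σ | Init u σ ∧ x ∈ V1 δ π σ}

/-- The validity of a state, which includes that an initial state is the chosen one. -/
def VV [Countable (St i j N)] (u : Task K) (δ : ℝ) (π : Pt K → Measure (YS ℕ)) (σ : St i j N) :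
    Set (Pt K) := {x | (σ.n = 0 → ini u δ π x = some σ) ∧ x ∈ V1 δ π σ}

/-- The relation between a state and the next one. -/
def Rel (Dn : ℕ → Set (Cond K)) (cn : ℕ → Pt K → ℕ → Set (YS ℕ)) (σ τ : St i j N) : Prop :=
  τ.n = σ.n + 1 ∧ pt τ.e.1 (i : WithTop K) ⊆ pt σ.e.1 (i : WithTop K) ∧
    (∀ x ∈ pt τ.e.1 (i : WithTop K), (τ.e.1.T i).Sub (σ.e.1.T i) x) ∧
    (∃ (k₀ : ℕ) (w : Wt K),
      τ.L.1 = List.replicate (σ.n + 1) (((fun y n => cn σ.n y (k₀ + n)), w) : NW K) ++ σ.L.1) ∧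
    CovS i j (Dn σ.n) τ.e.1

omit [WellFoundedLT K] in
theorem measurableSet_V1 {π : Pt K → Measure (YS ℕ)} (hπ : Ker (i : WithTop K) π) (δ : ℝ)
    (σ : St i j N) : MeasurableSet (V1 δ π σ) := by
  refine (measurableSet_pt _ _).inter (((σ.e.1.T i).ms σ.t).inter ?_)
  exact (measurable_tot hπ (fun cw h => (σ.pot cw h).meas) σ.t) measurableSet_Iic

omit [WellFoundedLT K] in
theorem det_V1 {π : Pt K → Measure (YS ℕ)} (hπ : Ker (i : WithTop K) π) (δ : ℝ)
    (σ : St i j N) : Det (i : WithTop K) fun x => x ∈ V1 δ π σ := by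
  intro x y h
  refine propext (and_congr (mem_pt_congr _ h) (and_congr ?_ ?_))
  · rw [σ.e.1.ds i x y h]
  · have h1 : tot σ.L.1 (π x) σ.t x = tot σ.L.1 (π y) σ.t y :=
      det_tot hπ (fun cw h => (σ.pot cw h).det) σ.t x y h
    rw [h1]

variable [Countable (St i j N)]

theorem measurableSet_ini {π : Pt K → Measure (YS ℕ)} (hπ : Ker (i : WithTop K) π) (δ : ℝ)
    (u : Task K) (o : Option (St i j N)) : MeasurableSet {x | ini u δ π x = o} :=
  Fusion.measurableSet_pick (fun σ => (MeasurableSet.const (Init u σ)).inter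
    (measurableSet_V1 hπ δ σ)) o

theorem det_ini {π : Pt K → Measure (YS ℕ)} (hπ : Ker (i : WithTop K) π) (δ : ℝ)
    (u : Task K) : Det (i : WithTop K) (ini (i := i) (j := j) (N := N) u δ π) := by
  intro x y h
  unfold ini
  congr 1
  ext σ
  exact and_congr_right fun _ => iff_of_eq (det_V1 hπ δ σ x y h)

theorem measurableSet_VV {π : Pt K → Measure (YS ℕ)} (hπ : Ker (i : WithTop K) π) (δ : ℝ)
    (u : Task K) (σ : St i j N) : MeasurableSet (VV u δ π σ) :=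
  (MeasurableSet.imp (MeasurableSet.const _) (measurableSet_ini hπ δ u _)).inter
    (measurableSet_V1 hπ δ σ)

theorem det_VV {π : Pt K → Measure (YS ℕ)} (hπ : Ker (i : WithTop K) π) (δ : ℝ)
    (u : Task K) (σ : St i j N) : Det (i : WithTop K) fun x => x ∈ VV u δ π σ := by
  intro x y h
  refine propext (and_congr ?_ (iff_of_eq (det_V1 hπ δ σ x y h)))
  rw [det_ini hπ δ u x y h]

/-! ### The existence of the states -/

omit [WellFoundedLT K] [Countable (St i j N)] in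
theorem isCode_tail {a : ℕ} {c : Pt K → ℕ → Set (YS ℕ)} (hc : IsCode j a 0 c) (k : ℕ) :
    IsCode j a k fun y n => c y (k + n) where
  cm n := hc.cm (k + n)
  det x y h := by
    funext n
    exact congrFun (hc.det x y h) (k + n)
  cyl y n := hc.cyl y (k + n)
  le y n := by
    have := hc.le y (k + n)
    rwa [Nat.zero_add] at this

omit [Countable (St i j N)] in
/-- There is an initial state. -/
theorem exists_init (hN : Ok i j N) {u : Task K} (hu : Has N u) (hut : IsTask j u)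
    {π : Pt K → Measure (YS ℕ)} (hπ : Ker (i : WithTop K) π) {δ : ℝ} (hδ : 0 < δ) {x : Pt K}
    (hx : Gen N (i : WithTop K) x) (hk : Kills N (i : WithTop K) π x)
    (hxu : ∀ m, x ∈ pt (u.1 m) (i : WithTop K)) : ∃ σ : St i j N, Init u σ ∧ x ∈ V1 δ π σ := by
  obtain ⟨e, E, w, he, hE, hw, hxe, heE, hEu, hpot⟩ := hN.start u hu hut x hx hxu
  have hfin : IsFiniteMeasure (π x) := ⟨(hπ.le x).trans_lt ENNReal.one_lt_top⟩
  obtain ⟨Z, hZ, hZn, hZt⟩ := hN.tail w (fun k x => ((E k).T i).s x) hw (hN.stems E hE)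
    (fun k => (hpot k).meas) (fun k => (hpot k).det) (fun k t => ((E k).T i).ms t)
    (fun k => (E k).ds i)
  have hnd : ∀ k, ((E k).T i).nd x (((E k).T i).s x) := fun k => nd_self _ _
  have hxE : ∀ k, x ∈ pt (E k) (i : WithTop K) := fun k => heE k hxe
  have hlim := hZt x (fun k z => (hpot k).den_mem (hxE k) (hnd k) z) ⟨2 * u.2.2, fun k => by
    exact integral_den_le (hut k) (hpot k) (hxE k) (hnd k)⟩ (π x) hfin (hk Z hZ hZn)
  obtain ⟨k, hk'⟩ := ((tendsto_order.1 hlim).2 (δ / 2) (by positivity)).exists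
  refine ⟨⟨((E k).T i).s x, ⟨E k, hN.seqE E k hE⟩, ⟨[(u.2.1 k, w k)], hN.ini u w k hu hw⟩, 0, k,
    ?_, ?_⟩, ⟨rfl, hEu k, w k, rfl⟩, hxE k, rfl, ?_⟩
  · intro cw hcw
    rw [List.mem_singleton.1 hcw]
    exact hpot k
  · intro cw hcw
    rw [List.mem_singleton.1 hcw]
    exact ⟨hN.ucode u k hu, u.2.2, k, hut k⟩
  · have h1 : bd δ 0 = δ / 2 := by unfold bd; norm_num; ring
    rw [h1]
    simpa [tot] using hk'.le

/-- The step. -/
theorem exists_step (hj : ∀ b : K, (b : WithTop K) < j ↔ b ≤ i) (hN : Ok i j N)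
    {Dn : ℕ → Set (Cond K)} (hD : ∀ n, Has N (Dn n) ∧ DenseL j (Dn n))
    {cn : ℕ → Pt K → ℕ → Set (YS ℕ)} (hc : ∀ n, Has N (cn n) ∧ IsCode j 1 0 (cn n))
    {u : Task K} {π : Pt K → Measure (YS ℕ)} (hπ : Ker (i : WithTop K) π) {δ : ℝ} (hδ : 0 < δ)
    {x : Pt K} (hx : Gen N (i : WithTop K) x) (hk : Kills N (i : WithTop K) π x)
    {σ : St i j N} (hσ : x ∈ VV u δ π σ) (k : ℕ) :
    ∃ m, k ≤ m ∧ ∃ τ : St i j N, x ∈ VV u δ π τ ∧ Rel Dn cn σ τ ∧ τ.t = m :: σ.t := by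
  obtain ⟨-, hxe, hst, htot⟩ := hσ
  have hfin : IsFiniteMeasure (π x) := ⟨(hπ.le x).trans_lt ENNReal.one_lt_top⟩
  have hnd : (σ.e.1.T i).nd x σ.t := by rw [← hst]; exact nd_self _ _
  obtain ⟨Z, hZ, hZn, hZs⟩ := hN.saks σ.e.1 σ.L.1 σ.t σ.e.2 σ.L.2 (hN.lst _) σ.pot
  have hε : 0 < δ * 2⁻¹ ^ (σ.n + 3) := by positivity
  obtain ⟨m, hm, hkm, hmt⟩ := hZs x hxe hnd (π x) hfin (hk Z hZ hZn) _ hε k
  have hnd' : (σ.e.1.T i).nd x (m :: σ.t) := nd_cons hnd hm
  -- the condition with stem `m :: t`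
  let c : Cond K := Fus.rst i σ.e.1 (m :: σ.t)
  have hcN : Has N c := hN.rst _ _ σ.e.2
  have hcpt : pt c (i : WithTop K) = pt σ.e.1 (i : WithTop K) := Fus.pt_rst i _ _
  have hcT : c.T i = (σ.e.1.T i).restem (m :: σ.t) := Fus.rst_T i _ _
  have hcs : (c.T i).s x = m :: σ.t := by rw [hcT]; exact MT.restem_s _ hnd'
  have hcsub : ∀ x', (c.T i).Sub (σ.e.1.T i) x' := fun x' => by
    rw [hcT]; exact MT.restem_sub _ _ _
  obtain ⟨e', w, he', hw, hxe', hsub, hpure, hcov, hpot⟩ := hN.improve c (cn σ.n) (Dn σ.n) hcN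
    (hc _).1 (hD _).1 (hc _).2 (hD _).2 x hx (by rw [hcpt]; exact hxe)
  have hsub' : pt e' (i : WithTop K) ⊆ pt σ.e.1 (i : WithTop K) := by rw [← hcpt]; exact hsub
  have hSub : ∀ x' ∈ pt e' (i : WithTop K), (e'.T i).Sub (σ.e.1.T i) x' := fun x' hx' =>
    GPA.Sub.trans (hpure x' hx').2 (hcsub x')
  have hs' : (e'.T i).s x = m :: σ.t := (hpure x hxe').1.trans hcs
  have hndm : (e'.T i).nd x (m :: σ.t) := by rw [← hs']; exact nd_self _ _
  -- the tail
  obtain ⟨Z', hZ', hZ'n, hZ't⟩ := hN.tail w (fun _ _ => m :: σ.t) hw (hN.const _)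
    (fun k => (hpot k).meas) (fun k => (hpot k).det) (fun k t => MeasurableSet.const _)
    (fun k => Det.const _ _)
  have hlim := hZ't x (fun k z => (hpot k).den_mem hxe' hndm z) ⟨2 * (1 : ℕ), fun k => by
    exact integral_den_le (isCode_tail (hc σ.n).2 k) (hpot k) hxe' hndm⟩ (π x) hfin
    (hk Z' hZ' hZ'n)
  have hn1 : (0 : ℝ) < (σ.n : ℝ) + 1 := by positivity
  obtain ⟨k₀, hk₀⟩ := ((tendsto_order.1 hlim).2 (δ * 2⁻¹ ^ (σ.n + 3) / ((σ.n : ℝ) + 1))
    (by positivity)).exists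
  refine ⟨m, hkm, ⟨m :: σ.t, ⟨e', he'⟩,
    ⟨List.replicate (σ.n + 1) (((fun y n => cn σ.n y (k₀ + n)), w k₀) : NW K) ++ σ.L.1,
      hN.cons _ _ _ _ _ σ.L.2 (hc _).1 hw⟩, σ.n + 1, σ.k, ?_, ?_⟩, ⟨?_, hxe', hs', ?_⟩,
    ⟨rfl, hsub', hSub, ⟨k₀, w k₀, rfl⟩, hcov⟩, rfl⟩
  · intro cw hcw
    rcases List.mem_append.1 hcw with h | h
    · rw [List.eq_of_mem_replicate h]
      exact hpot k₀
    · exact (σ.pot cw h).mono hj hsub' hSub
  · intro cw hcw
    rcases List.mem_append.1 hcw with h | h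
    · rw [List.eq_of_mem_replicate h]
      exact ⟨hN.tl _ _ (hc _).1, 1, k₀, isCode_tail (hc _).2 k₀⟩
    · exact σ.nm cw h
  · intro h
    exact absurd h (Nat.succ_ne_zero _)
  · show tot (_ ++ _) (π x) (m :: σ.t) x ≤ bd δ (σ.n + 1)
    rw [tot_append, tot_replicate, bd_succ]
    have h1 : ((σ.n + 1 : ℕ) : ℝ) * ∫ z, den (w k₀ x (m :: σ.t)) z ∂π x ≤
        δ * 2⁻¹ ^ (σ.n + 3) := by
      have h2 := hk₀.le
      rw [le_div_iff₀ hn1] at h2
      push_cast
      linarith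
    linarith

/-! ### The branches -/

/-- A set which depends on finitely many coordinates is open. -/
theorem isOpen_of_isCyl {B : Set (YS ℕ)} (h : IsCyl B) : IsOpen B := by
  classical
  obtain ⟨s, hs⟩ := h
  let g : (s → Bool) → ℕ → Bool := fun t i => if h : i ∈ s then t ⟨i, h⟩ else false
  have h1 : B = s.restrict ⁻¹' {t | g t ∈ B} := by
    ext x
    refine hs _ _ fun i hi => ?_
    simp [g, hi]
  rw [h1]
  have h2 : Continuous (s.restrict (π := fun _ : ℕ => Bool)) :=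
    continuous_pi fun k => continuous_apply (k : ℕ)
  exact (isOpen_discrete _).preimage h2

omit [Countable (St i j N)] in
/-- The values of a name are decided densely. -/
theorem dense_dd {f : Pt K → Set (YS ℕ)} (hf : CM f) (hd : Det j f) :
    DenseL j {d : Cond K | ∃ v, ∀ y ∈ pt d j, f y = v} := by
  have : Countable (range f) := hf.1.to_subtype
  have h1 := PotM.dense_const (sigL j) (α := range f) (fun y => ⟨f y, ⟨y, rfl⟩⟩) (fun c => by
    have h2 := hf.2 c.1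
    have h3 : {x : Pt K | (⟨f x, ⟨x, rfl⟩⟩ : range f) = c} = {x | f x = c.1} := by
      ext x
      exact Subtype.ext_iff
    rw [h3]
    exact h2) (fun x y h => Subtype.ext (hd x y h))
  intro p
  obtain ⟨e, ⟨v, hv⟩, he⟩ := h1 p
  exact ⟨e, ⟨v.1, fun y hy => congrArg Subtype.val (hv y hy)⟩, he⟩

/-- The conclusions along a branch. -/
theorem branch (hj : ∀ b : K, (b : WithTop K) < j ↔ b ≤ i) (hN : Ok i j N)
    {Dn : ℕ → Set (Cond K)}
    (hDs : ∀ D, Has N D → DenseL j D → ∃ n, Dn n = D)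
    {cn : ℕ → Pt K → ℕ → Set (YS ℕ)}
    (hcs : ∀ c, Has N c → IsCode j 1 0 c → ∀ m : ℕ, ∃ n, m ≤ n ∧ cn n = c)
    {u : Task K} {π : Pt K → Measure (YS ℕ)} (hπ : Ker (i : WithTop K) π) {δ : ℝ} (hδ : 0 < δ)
    {y : Pt K} {σ : ℕ → St i j N} {l₀ : ℕ} (h0 : Init u (σ 0)) (hV : ∀ k, y ∈ VV u δ π (σ k))
    (ht : ∀ k, (σ k).t = pre (y i) (l₀ + k)) (hR : ∀ k, Rel Dn cn (σ k) (σ (k + 1))) :
    Gen N j y ∧ Kills N j π y ∧ y ∈ pt (u.1 (σ 0).k) j ∧
      π y (⋃ n, u.2.1 (σ 0).k y n) ≤ ENNReal.ofReal δ := by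
  have hfin : IsFiniteMeasure (π y) := ⟨(hπ.le y).trans_lt ENNReal.one_lt_top⟩
  have hn : ∀ k, (σ k).n = k := by
    intro k
    induction k with
    | zero => exact h0.1
    | succ k ih => rw [(hR k).1, ih]
  have hpt : ∀ k, y ∈ pt (σ k).e.1 (i : WithTop K) := fun k => (hV k).2.1
  have hst : ∀ k, ((σ k).e.1.T i).s y = pre (y i) (l₀ + k) := fun k =>
    (hV k).2.2.1.trans (ht k)
  have hsubi : ∀ k l, k ≤ l → pt (σ l).e.1 (i : WithTop K) ⊆ pt (σ k).e.1 (i : WithTop K) := by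
    intro k l hkl
    induction l, hkl using Nat.le_induction with
    | base => exact subset_rfl
    | succ l _ ih => exact (hR l).2.1.trans ih
  have hSub : ∀ k l, k ≤ l → ∀ x ∈ pt (σ l).e.1 (i : WithTop K),
      ((σ l).e.1.T i).Sub ((σ k).e.1.T i) x := by
    intro k l hkl
    induction l, hkl using Nat.le_induction with
    | base => exact fun x _ => GPA.Sub.refl _ _
    | succ l _ ih => exact fun x hx => GPA.Sub.trans ((hR l).2.2.1 x hx) (ih x ((hR l).2.1 hx))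
  have hsubj : ∀ k l, k ≤ l → pt (σ l).e.1 j ⊆ pt (σ k).e.1 j := fun k l hkl =>
    pt_subset_next hj (hsubi k l hkl) (hSub k l hkl)
  -- `y` satisfies all conditions
  have hptj : ∀ k, y ∈ pt (σ k).e.1 j := by
    intro k
    refine (mem_pt_next hj).2 ⟨hpt k, mem_br_iff.2 fun m hm => ?_⟩
    rw [hst k, length_pre] at hm
    obtain ⟨d, rfl⟩ := Nat.exists_eq_add_of_le hm
    have h1 := hSub k (k + d) (Nat.le_add_right _ _) y (hpt (k + d))
    have h2 : ((σ (k + d)).e.1.T i).nd y (pre (y i) (l₀ + k + d)) := by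
      have h3 := nd_self (((σ (k + d)).e.1.T i).s y) (((σ (k + d)).e.1.T i).W y)
      rw [Nat.add_assoc, ← hst (k + d)]
      exact h3
    exact h1 _ h2
  -- the dense sets of `N`
  have hcov : ∀ D, Has N D → DenseL j D → ∃ n₁, ∃ d ∈ D, Has N d ∧ ∀ n₂ ≥ n₁,
      ∀ z ∈ pt (σ n₂).e.1 j, Agr (i : WithTop K) z y → z ∈ pt d j := by
    intro D hDN hDd
    obtain ⟨n, rfl⟩ := hDs D hDN hDd
    have h1 : CovS i j (Dn n) (σ (n + 1)).e.1 := by
      have := (hR n).2.2.2.2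
      rwa [hn n] at this
    obtain ⟨k, d, hd, hdN, hk⟩ := hN.cov _ _ (σ (n + 1)).e.2 hDN h1 y (hptj (n + 1))
    refine ⟨max (n + 1) k, d, hd, hdN, fun n₂ hn₂ z hz hzy => ?_⟩
    refine hk z (hsubj _ _ ((le_max_left _ _).trans hn₂) hz) hzy ?_
    have h2 := ((mem_pt_next hj).1 hz).2.1
    rw [(σ n₂).e.1.ds i z y hzy, hst n₂, length_pre] at h2
    exact pre_eq_mono (((le_max_right _ _).trans hn₂).trans (Nat.le_add_left _ _)) h2
  have hgen : Gen N j y := by
    intro D hDN hDd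
    obtain ⟨n₁, d, hd, hdN, h1⟩ := hcov D hDN hDd
    exact ⟨d, hd, hdN, h1 n₁ le_rfl y (hptj n₁) (Agr.refl _ _)⟩
  -- the measures
  have hlim := lim_branch hj (y := y) (ν := π y) (e := fun n => (σ n).e.1)
    (L := fun n => (σ n).L.1) (l₀ := l₀) (δ := δ) hptj hst (fun n => by
      obtain ⟨k₀, w, h1⟩ := (hR n).2.2.2.1
      exact ⟨_, h1⟩) (fun n => (σ n).pot) (fun n cw hcw l => by
      obtain ⟨-, a, k, h1⟩ := (σ n).nm cw hcw
      exact isOpen_of_isCyl (h1.cyl y l)) (fun n cw hcw l => by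
      obtain ⟨h1, a, k, h2⟩ := (σ n).nm cw hcw
      obtain ⟨n₁, d, ⟨v, hd⟩, -, h3⟩ := hcov _ (hN.dd _ l h1) (dense_dd (h2.cm l)
        fun x x' hx => congrFun (h2.det x x' hx) l)
      refine ⟨n₁, fun n₂ hn₂ z hz hzy => ?_⟩
      rw [hd z (h3 n₂ hn₂ z hz hzy), hd y (h3 n₂ hn₂ y (hptj n₂) (Agr.refl _ _))]) (fun n => by
      have h1 := (hV n).2.2.2
      rw [ht n] at h1
      exact h1.trans (bd_le hδ _))
  refine ⟨hgen, ?_, h0.2.1 (hptj 0), ?_⟩
  · intro W hW hWn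
    obtain ⟨c, hcN, hcc, hcW⟩ := hN.code W hW hWn
    have hbound : ∀ m : ℕ, (m : ℝ≥0∞) * π y (sec W y) ≤ ENNReal.ofReal δ := by
      intro m
      obtain ⟨n, hmn, hcn⟩ := hcs c hcN hcc m
      obtain ⟨k₀, w, h1⟩ := (hR n).2.2.2.1
      have h2 := hlim (n + 1)
      simp only [h1, hn n, hcn, List.map_append, List.sum_append, List.map_replicate,
        List.sum_replicate] at h2
      refine le_trans ?_ (le_self_add.trans h2)
      rw [nsmul_eq_mul]
      refine mul_le_mul' (by exact_mod_cast hmn.trans (Nat.le_succ n)) (measure_mono ?_)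
      exact hcW y k₀
    by_contra hne
    have h3 : Tendsto (fun m : ℕ => (m : ℝ≥0∞) * π y (sec W y)) atTop (𝓝 (⊤ * π y (sec W y))) :=
      ENNReal.Tendsto.mul_const ENNReal.tendsto_nat_nhds_top (Or.inl ENNReal.top_ne_zero)
    rw [ENNReal.top_mul hne] at h3
    have h4 := le_of_tendsto' h3 hbound
    exact ENNReal.ofReal_ne_top (top_le_iff.1 h4)
  · obtain ⟨w, hw⟩ := h0.2.2
    have h1 := hlim 0
    simp only [hw, List.map_cons, List.map_nil, List.sum_cons, List.sum_nil, add_zero] at h1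
    exact h1

/-! ### The theorem -/

omit [Countable (St i j N)] in
theorem ext_of_ok (hj : ∀ b : K, (b : WithTop K) < j ↔ b ≤ i) (hN : Ok i j N) :
    EXT N (i : WithTop K) j := by
  classical
  intro u hu hut π hπ δ hδ
  have hcount : Countable (St i j N) := countable_St hN.cnt
  -- a real number
  have hδ1 : min δ 1 ≠ ⊤ := ne_top_of_le_ne_top ENNReal.one_ne_top (min_le_right _ _)
  have hδ0 : 0 < (min δ 1).toReal :=
    ENNReal.toReal_pos (ne_of_gt (lt_min (pos_iff_ne_zero.2 hδ) one_pos)) hδ1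
  have hδ' : ENNReal.ofReal (min δ 1).toReal ≤ δ := by
    rw [ENNReal.ofReal_toReal hδ1]
    exact min_le_left _ _
  generalize (min δ 1).toReal = δ' at hδ0 hδ'
  -- the enumerations
  obtain ⟨Dn, hDn⟩ : ∃ Dn : ℕ → Set (Cond K), {D | Has N D ∧ DenseL j D} = range Dn :=
    ((has_countable hN.cnt (Set (Cond K))).mono fun _ h => h.1).exists_eq_range
      ⟨Set.univ, hN.univ, fun p => ⟨p, mem_univ _, subset_rfl⟩⟩
  obtain ⟨cn, hcn⟩ : ∃ cn : ℕ → Pt K → ℕ → Set (YS ℕ), {c | Has N c ∧ IsCode j 1 0 c} = range cn :=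
    ((has_countable hN.cnt (Pt K → ℕ → Set (YS ℕ))).mono fun _ h => h.1).exists_eq_range
      ⟨_, hN.triv, ⟨fun n => CM.const _, Det.const _ _, fun _ _ => isCyl_empty, fun _ _ => by
        simp⟩⟩
  have hD : ∀ n, Has N (Dn n) ∧ DenseL j (Dn n) := fun n => by
    have : Dn n ∈ {D | Has N D ∧ DenseL j D} := by rw [hDn]; exact ⟨n, rfl⟩
    exact this
  have hDs : ∀ D, Has N D → DenseL j D → ∃ n, Dn n = D := fun D h1 h2 => by
    have : D ∈ range Dn := by rw [← hDn]; exact ⟨h1, h2⟩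
    exact this
  have hc : ∀ n, Has N (cn (Nat.unpair n).1) ∧ IsCode j 1 0 (cn (Nat.unpair n).1) := fun n => by
    have : cn (Nat.unpair n).1 ∈ {c | Has N c ∧ IsCode j 1 0 c} := by rw [hcn]; exact ⟨_, rfl⟩
    exact this
  have hcs : ∀ c, Has N c → IsCode j 1 0 c → ∀ m : ℕ, ∃ n, m ≤ n ∧ cn (Nat.unpair n).1 = c :=
    fun c h1 h2 m => by
      have : c ∈ range cn := by rw [← hcn]; exact ⟨h1, h2⟩
      obtain ⟨p, hp⟩ := this
      exact ⟨Nat.pair p m, Nat.right_le_pair p m, by rw [Nat.unpair_pair]; exact hp⟩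
  -- the stem and the index
  let σ₀ : Pt K → Option (St i j N) := ini u δ' π
  have hσ₀ : CM σ₀ := CM.of_countable fun c => measurableSet_ini hπ δ' u c
  have hσ₀d : Det (i : WithTop K) σ₀ := det_ini hπ δ' u
  let s : Pt K → List ℕ := fun x => ((σ₀ x).map fun σ => σ.t).getD []
  let k : Pt K → ℕ := fun x => ((σ₀ x).map fun σ => σ.k).getD 0
  have hs : CM s := hσ₀.map fun o => (o.map fun σ => σ.t).getD []
  have hk : CM k := hσ₀.map fun o => (o.map fun σ => σ.k).getD 0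
  obtain ⟨T, hTs, hTW, -, hT⟩ := fusion i (fun σ : St i j N => σ.t) (Init u)
    (Rel Dn fun n => cn (Nat.unpair n).1) s hs.2 (hσ₀d.map fun o => (o.map fun σ => σ.t).getD []) (VV u δ' π)
    (measurableSet_VV hπ δ' u) (det_VV hπ δ' u)
  refine ⟨k, Cond.full.upd i T hTs hTW, hk, hσ₀d.map fun o => (o.map fun σ => σ.k).getD 0, fun y hy hg hkl hq => ?_⟩
  have hyT : y i ∈ T.br y := by
    have := hq i le_rfl ((hj i).2 le_rfl)
    have h1 : (Cond.full.upd i T hTs hTW).T i = T := Function.update_self _ _ _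
    rwa [h1] at this
  -- the initial state
  obtain ⟨σ', hσ'⟩ := exists_init hN hu hut hπ hδ0 hg hkl hy
  obtain ⟨σ₁, hσ₁⟩ := Fusion.exists_pick (A := {σ : St i j N | Init u σ ∧ y ∈ V1 δ' π σ}) ⟨σ', hσ'⟩
  have hσ₁' : σ₀ y = some σ₁ := hσ₁
  have hmem := (Fusion.pick_eq_some.1 hσ₁).1
  have hsy : s y = σ₁.t := by simp [s, hσ₁']
  obtain ⟨σ, h0, hV, ht, hR⟩ := hT y ⟨σ₁, hmem.1, hsy.symm, fun _ => hσ₁, hmem.2⟩
    (fun σ hσ k => exists_step hj hN hD hc hπ hδ0 hg hkl hσ k) (y i) hyT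
  have hσ0 : σ 0 = σ₁ := by
    have h1 : σ₀ y = some (σ 0) := (hV 0).1 h0.1
    rw [hσ₁'] at h1
    exact (Option.some.inj h1).symm
  have hky : k y = (σ 0).k := by simp [k, hσ₁', hσ0]
  obtain ⟨h1, h2, h3, h4⟩ := branch hj hN hDs hcs hπ hδ0 h0 hV ht hR
  rw [hky]
  exact ⟨h1, h2, h3, h4.trans hδ'⟩

end OneF

/-- **The one step theorem.** -/
theorem ext_next (hj : ∀ b : K, (b : WithTop K) < j ↔ b ≤ i) (hS : SaksL) :
    ∀ᶠ N in club, EXT N (i : WithTop K) j :=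
  (OneF.club_ok hj hS).mono fun _ hN => OneF.ext_of_ok hj hN

end Pool.Agent.GPA
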