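import Pool.Agent.GPA.Saks

/-!
# The exceptional null set of the inequality of the integrals
-/

namespace Pool.Agent.GPA

theorem saksL : SaksL := by
  intro X _ F G A C hF hG hA
  exact saks hF hG hA

end Pool.Agent.GPA
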