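import Pool.Agent.GPA.LavX
import Pool.Agent.GPA.One
import Pool.Agent.GPA.SaksL

/-!
# The frame exists
-/

namespace Pool.Agent.GPA

theorem frame_all : Nonempty Frame :=
  exists_frame_of_next fun hj => ext_next hj saksL

end Pool.Agent.GPA
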