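import Pool.Agent.GPA.CoreD

/-!
# The frame of a `LavSys`
-/

open MeasureTheory Cardinal Set
open scoped ENNReal

set_option linter.unusedSectionVars false

namespace Pool.Agent.GPA

variable {K : Type} [LinearOrder K] [WellFoundedLT K]

theorem exists_frame (S : LavSys K) : Nonempty Frame := by
  classical
  obtain ⟨I, hI⟩ : ∃ I : Type, #I = Order.succ (Order.succ (Order.succ 𝔠)) := ⟨_, mk_out _⟩
  have hI0 : ℵ₀ ≤ #I := by
    rw [hI]
    exact aleph0_le_continuum.trans ((Order.le_succ _).trans ((Order.le_succ _).trans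
      (Order.le_succ _)))
  have hP := ppos_qq (ν := coin I) S.ppos
  obtain ⟨real, hrm, hrne⟩ := reals S I hI0
  refine ⟨{
    Z := XS K × YS I
    mZ := inferInstance
    Q := {D : Set (XS K × YS I) // D ∈ QQ S.P (coin I)}
    pQ := inferInstance
    tQ := { top := ⟨Set.univ, hP.univ⟩, le_top := fun q => Set.subset_univ q.1 }
    Forces := fun q E => Fo (QQ S.P (coin I)) q.1 E
    mono := fun h h' => fo_mono h h'
    mono' := fun h h' => fo_mono' h h'
    univ := fun q => fo_self (Set.subset_univ _)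
    empty := ?_
    inter := fun h => fo_inter hP h
    dense := ?_
    dec := ?_
    union := ?_
    read := ?_
    κ := Order.succ 𝔠
    regular := isRegular_succ aleph0_le_continuum
    aleph0_lt := Order.lt_succ_iff.2 aleph0_le_continuum
    cc := ?_
    Lam := I
    mk_Lam := hI
    real := real
    real_meas := hrm
    real_ne := hrne
    core := ?_ }⟩
  · intro q h
    obtain ⟨C, hC, -, hC'⟩ := h q.1 q.2 le_rfl
    obtain ⟨z, hz⟩ := hP.ne C hC
    exact hC' hz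
  · intro q E h
    refine fo_dense fun B hB hBq => ?_
    obtain ⟨s, hs, hsE⟩ := h ⟨B, hB⟩ hBq
    exact ⟨s.1, s.2, hs, hsE⟩
  · intro E hE q
    obtain ⟨B, hB, hBq, h⟩ := fo_dec hP hE q.2
    exact ⟨⟨B, hB⟩, hBq, h.imp fo_self fo_self⟩
  · intro q E hE h
    obtain ⟨n, B, hB, hBq, hBE⟩ := fo_union hP q.2 hE h
    exact ⟨⟨B, hB⟩, hBq, n, fo_self hBE⟩
  · intro T q₀ hlow hinc hd q hq
    obtain ⟨B, hB, hBq, F, hF, h⟩ := fo_read hP (fun n i => Subtype.val '' T n i) q₀.1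
      (by
        rintro n i _ ⟨A, hA, rfl⟩ B hB hBA
        exact ⟨⟨B, hB⟩, hlow n i (show (⟨B, hB⟩ : {D // D ∈ QQ S.P (coin I)}) ≤ A from hBA) hA,
          rfl⟩)
      (by
        rintro n i _ ⟨A, hA, rfl⟩
        exact A.2)
      (by
        rintro n i j hij _ ⟨A, hA, rfl⟩ _ ⟨B, hB, rfl⟩ C hC h1 h2
        exact hinc n i j hij A hA B hB ⟨C, hC⟩ h1 h2)
      (by
        intro n A hA hAq
        obtain ⟨r, hr, i, hi⟩ := hd n ⟨A, hA⟩ hAq
        exact ⟨r.1, r.2, hr, i, r, hi, rfl⟩) q.1 q.2 hq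
    exact ⟨⟨B, hB⟩, hBq, F, hF, fun s hs n i hi => h s.1 s.2 hs n i ⟨s, hi, rfl⟩⟩
  · intro A hA
    have h1 := cc S I (Subtype.val '' A) (by
      rintro _ ⟨q, -, rfl⟩
      exact q.2) (by
      rintro _ ⟨p, hp, rfl⟩ _ ⟨q, hq, rfl⟩ hpq r hr h1 h2
      exact hA p hp q hq (fun h => hpq (congrArg _ h)) ⟨r, hr⟩ h1 h2)
    rwa [mk_image_eq Subtype.val_injective] at h1
  · intro R p₀ down loc ext mono null big
    refine core (S := S) (I := I) (fun D F G => ∃ h : D ∈ QQ S.P (coin I), R ⟨D, h⟩ F G) p₀.1 p₀.2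
      ?_ ?_ ?_ ?_
    · rintro q hq r hr F G hrq ⟨_, h⟩
      exact ⟨hr, down ⟨q, hq⟩ ⟨r, hr⟩ F G hrq h⟩
    · rintro q hq F G G' hqp hF hG hG' hGG ⟨_, h⟩
      exact ⟨hq, mono ⟨q, hq⟩ F G G' hqp hF hG hG' hGG h⟩
    · intro q hq G hqp hG
      obtain ⟨r, hr, c, hc, hc', h⟩ := null ⟨q, hq⟩ G hqp hG
      refine ⟨r.1, r.2, hr, c, hc, hc', ?_⟩
      rintro s hs hsr F hF ⟨_, h1⟩
      exact h ⟨s, hs⟩ hsr F hF h1
    · intro q hq hqp c hc hc'
      obtain ⟨r, hr, F, G, hF, hG, h, h'⟩ := big ⟨q, hq⟩ hqp c hc hc'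
      exact ⟨r.1, r.2, hr, F, G, hF, hG, ⟨r.2, h⟩, h'⟩

end Pool.Agent.GPA
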