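import Pool.Agent.GPA.Tool

/-!
# The front lemma

Pure extensions of a condition at one coordinate `i`: with the stem of the tree at `i` unchanged a
condition has an extension with a given property `Φ`, if the property holds densely and is
preserved by countable glueing and by glueing of the trees above infinitely many successors of a
node. Two instances: covering by countably many members of a dense set, and a function with
finitely many values which becomes a function of the coordinates below `i`.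
-/

open Set Filter

namespace Pool.Agent.GPA

section basic

variable {K : Type}

theorem measurableSet_infinite {M : Pt K → Set ℕ} (hM : ∀ m, MeasurableSet {x | m ∈ M x}) :
    MeasurableSet {x | (M x).Infinite} := by
  have : {x | (M x).Infinite} = ⋂ a : ℕ, ⋃ b : ℕ, ⋃ _ : a ≤ b, {x | b ∈ M x} := by
    ext x
    simp only [mem_iInter, mem_iUnion, exists_prop]
    have h1 : (∃ᶠ m in atTop, m ∈ M x) ↔ Set.Infinite {m | m ∈ M x} :=
      Nat.frequently_atTop_iff_infinite
    have h2 : {m | m ∈ M x} = M x := rfl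
    rw [h2] at h1
    exact h1.symm.trans frequently_atTop
  rw [this]
  exact MeasurableSet.iInter fun a => MeasurableSet.iUnion fun b => MeasurableSet.iUnion fun _ =>
    hM b

theorem MT.Sub.trans {T T' T'' : MT K} {x : Pt K} (h : T.Sub T' x) (h' : T'.Sub T'' x) :
    T.Sub T'' x := GPA.Sub.trans h h'

theorem MT.sub_iff (T T' : MT K) (x : Pt K) : T.Sub T' x ↔ T.br x ⊆ T'.br x :=
  sub_iff_br (T.inf x)

open Classical in
/-- The tree with stem `t` and set `M x` of successors of `t` and the tree `F (m :: t)` above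
`m :: t`. -/
noncomputable def MT.gl (t : List ℕ) (M : Pt K → Set ℕ) (hM : ∀ m, MeasurableSet {x | m ∈ M x})
    (F : List ℕ → MT K) : MT K where
  s _ := t
  W x u := if u = t then (if (M x).Infinite then M x else univ) else
    (F (u.drop (u.length - (t.length + 1)))).W x u
  inf x u := by
    by_cases h : u = t
    · rw [if_pos h]
      by_cases h' : (M x).Infinite
      · rw [if_pos h']; exact h'
      · rw [if_neg h']; exact infinite_univ
    · rw [if_neg h]; exact (F _).inf x u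
  ms u := MeasurableSet.const _
  mW u m := by
    by_cases h : u = t
    · simp only [if_pos h]
      have : {x | m ∈ if (M x).Infinite then M x else univ} =
          ({x | (M x).Infinite} ∩ {x | m ∈ M x}) ∪ {x | (M x).Infinite}ᶜ := by
        ext x
        by_cases h' : (M x).Infinite <;> simp [h']
      rw [this]
      exact ((measurableSet_infinite hM).inter (hM m)).union (measurableSet_infinite hM).compl
    · simp only [if_neg h]
      exact (F _).mW u m

theorem drop_pre (z : ℕ → ℕ) {k l : ℕ} (h : l ≤ k) : (pre z k).drop (k - l) = pre z l := by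
  obtain ⟨n, rfl⟩ := Nat.exists_eq_add_of_le h
  rw [Nat.add_sub_cancel_left]
  clear h
  induction n with
  | zero => rfl
  | succ n ih =>
    show (pre z (l + n + 1)).drop (n + 1) = pre z l
    rw [pre_succ, List.drop_succ_cons]
    exact ih

/-- The branches of the glued tree. -/
theorem MT.gl_br {t : List ℕ} {M : Pt K → Set ℕ} {hM : ∀ m, MeasurableSet {x | m ∈ M x}}
    {F : List ℕ → MT K} {x : Pt K} (hi : (M x).Infinite)
    (hF : ∀ m ∈ M x, (F (m :: t)).s x = m :: t) {z : ℕ → ℕ} (hz : z ∈ (MT.gl t M hM F).br x) :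
    ∃ m ∈ M x, z ∈ (F (m :: t)).br x := by
  classical
  obtain ⟨h1, h2⟩ := hz
  change pre z t.length = t at h1
  change ∀ k, t.length ≤ k → z k ∈ (MT.gl t M hM F).W x (pre z k) at h2
  have h3 : z t.length ∈ M x := by
    have h4 := h2 t.length le_rfl
    rw [h1] at h4
    change z t.length ∈ (if t = t then (if (M x).Infinite then M x else univ) else _) at h4
    rwa [if_pos rfl, if_pos hi] at h4
  have h5 : pre z (t.length + 1) = z t.length :: t := by rw [pre_succ, h1]
  refine ⟨z t.length, h3, ?_, ?_⟩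
  · rw [hF _ h3, List.length_cons, h5]
  · intro k hk
    change ((F (z t.length :: t)).s x).length ≤ k at hk
    rw [hF _ h3, List.length_cons] at hk
    have h6 := h2 k (by omega)
    have hne : pre z k ≠ t := by
      intro h
      have := congrArg List.length h
      rw [length_pre] at this
      omega
    change z k ∈ (if pre z k = t then (if (M x).Infinite then M x else univ) else
      (F ((pre z k).drop ((pre z k).length - (t.length + 1)))).W x (pre z k)) at h6
    rw [if_neg hne, length_pre, drop_pre z hk, h5] at h6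
    exact h6

open Classical in
/-- The tree with the successors restricted to `M x t` at the nodes where infinitely many are
left. -/
noncomputable def MT.thin (T : MT K) (M : Pt K → List ℕ → Set ℕ)
    (hM : ∀ t m, MeasurableSet {x | m ∈ M x t}) : MT K where
  s := T.s
  W x t := if (T.W x t ∩ M x t).Infinite then T.W x t ∩ M x t else T.W x t
  inf x t := by
    by_cases h : (T.W x t ∩ M x t).Infinite
    · rw [if_pos h]; exact h
    · rw [if_neg h]; exact T.inf x t
  ms := T.ms
  mW t m := by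
    have h1 : ∀ m, MeasurableSet {x | m ∈ T.W x t ∩ M x t} := fun m => (T.mW t m).inter (hM t m)
    have h2 := measurableSet_infinite h1
    have : {x | m ∈ if (T.W x t ∩ M x t).Infinite then T.W x t ∩ M x t else T.W x t} =
        ({x | (T.W x t ∩ M x t).Infinite} ∩ {x | m ∈ T.W x t ∩ M x t}) ∪
          ({x | (T.W x t ∩ M x t).Infinite}ᶜ ∩ {x | m ∈ T.W x t}) := by
      ext x
      by_cases h' : (T.W x t ∩ M x t).Infinite
      · simp only [mem_ofPred_eq, if_true, mem_union, mem_inter_iff, mem_compl_iff, h', true_and,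
          not_true, false_and, or_false]
      · simp only [mem_ofPred_eq, if_false, mem_union, mem_inter_iff, mem_compl_iff, h', false_and,
          not_false_iff, true_and, false_or]
    rw [this]
    exact (h2.inter (h1 m)).union (h2.compl.inter (T.mW t m))

theorem MT.thin_sub (T : MT K) (M : Pt K → List ℕ → Set ℕ)
    (hM : ∀ t m, MeasurableSet {x | m ∈ M x t}) (x : Pt K) : (T.thin M hM).Sub T x := by
  classical
  refine sub_of_subset fun t _ => ?_
  show (if (T.W x t ∩ M x t).Infinite then T.W x t ∩ M x t else T.W x t) ⊆ T.W x t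
  by_cases h : (T.W x t ∩ M x t).Infinite
  · rw [if_pos h]; exact inter_subset_left
  · rw [if_neg h]

end basic

variable {K : Type} [LinearOrder K]

/-- The trees depend only on the coordinates below `j`. -/
def DT (j : WithTop K) (T : MT K) : Prop := Det j T.s ∧ Det j T.W

theorem Cond.dt (p : Cond K) (i : K) : DT (i : WithTop K) (p.T i) := ⟨p.ds i, p.dW i⟩

theorem DT.sub {j : WithTop K} {T T' : MT K} (h : DT j T) (h' : DT j T') :
    Det j (fun x => T.Sub T' x) := by
  intro x y hxy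
  show GPA.Sub (T.s x) (T.W x) (T'.s x) (T'.W x) = GPA.Sub (T.s y) (T.W y) (T'.s y) (T'.W y)
  rw [h.1 x y hxy, h.2 x y hxy, h'.1 x y hxy, h'.2 x y hxy]

theorem DT.sel {j : WithTop K} {f : Pt K → MT K} {hf : CM f} (hd : Det j f)
    (h : ∀ x, DT j (f x)) : DT j (MT.sel f hf) := by
  refine ⟨fun x y hxy => ?_, fun x y hxy => ?_⟩
  · show (f x).s x = (f y).s y
    rw [hd x y hxy]
    exact (h y).1 x y hxy
  · show (f x).W x = (f y).W y
    rw [hd x y hxy]
    exact (h y).2 x y hxy

theorem DT.gl {j : WithTop K} {t : List ℕ} {M : Pt K → Set ℕ}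
    {hM : ∀ m, MeasurableSet {x | m ∈ M x}} {F : List ℕ → MT K} (hd : Det j M)
    (hF : ∀ t, DT j (F t)) : DT j (MT.gl t M hM F) := by
  classical
  refine ⟨fun x y _ => rfl, fun x y hxy => funext fun u => ?_⟩
  show (if u = t then (if (M x).Infinite then M x else univ) else
      (F (u.drop (u.length - (t.length + 1)))).W x u) =
    (if u = t then (if (M y).Infinite then M y else univ) else
      (F (u.drop (u.length - (t.length + 1)))).W y u)
  rw [hd x y hxy, (hF _).2 x y hxy]

theorem DT.thin {j : WithTop K} {T : MT K} {M : Pt K → List ℕ → Set ℕ}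
    {hM : ∀ t m, MeasurableSet {x | m ∈ M x t}} (hT : DT j T) (hd : Det j M) :
    DT j (T.thin M hM) := by
  classical
  refine ⟨hT.1, fun x y hxy => funext fun t => ?_⟩
  show (if (T.W x t ∩ M x t).Infinite then T.W x t ∩ M x t else T.W x t) =
    (if (T.W y t ∩ M y t).Infinite then T.W y t ∩ M y t else T.W y t)
  rw [hd x y hxy, hT.2 x y hxy]

/-- The hypotheses of the front lemma for a property `Φ A T` of a set `A` of points and a family
`T` of trees at the coordinate `i`. -/
structure FrontProp (i : K) (Φ : Set (Pt K) → MT K → Prop) : Prop where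
  empty : ∀ T, Φ ∅ T
  /-- countable glueing, and monotonicity in both arguments -/
  sig : ∀ (A : Set (Pt K)) (B : ℕ → Set (Pt K)) (T : ℕ → MT K) (U : MT K),
    (∀ n, MeasurableSet (B n)) → (∀ n, Det (i : WithTop K) (fun x => x ∈ B n)) →
    (∀ n, DT (i : WithTop K) (T n)) → DT (i : WithTop K) U → (∀ n, Φ (B n) (T n)) →
    (∀ x ∈ A, ∃ n, x ∈ B n ∧ U.Sub (T n) x) → Φ A U
  /-- glueing of the trees above the successors of a node `t` -/
  glue : ∀ (A : Set (Pt K)) (t : List ℕ) (M : Pt K → Set ℕ) (T : ℕ → MT K), MeasurableSet A →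
    Det (i : WithTop K) (fun x => x ∈ A) → (∀ m, MeasurableSet {x | m ∈ M x}) →
    Det (i : WithTop K) M → (∀ m, DT (i : WithTop K) (T m)) → (∀ x ∈ A, (M x).Infinite) →
    (∀ x ∈ A, ∀ m ∈ M x, (T m).s x = m :: t) → (∀ m, Φ {x | x ∈ A ∧ m ∈ M x} (T m)) →
    ∃ M' : Pt K → Set ℕ, (∀ m, MeasurableSet {x | m ∈ M' x}) ∧ Det (i : WithTop K) M' ∧
      (∀ x, M' x ⊆ M x) ∧ (∀ x ∈ A, (M' x).Infinite) ∧
      ∀ U : MT K, DT (i : WithTop K) U →
        (∀ x ∈ A, ∀ z ∈ U.br x, ∃ m ∈ M' x, z ∈ (T m).br x) → Φ A U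
  /-- the property holds densely, with a constant stem -/
  start : ∀ (r : Cond K) (T : MT K), DT (i : WithTop K) T → ∃ (d : Cond K) (t : List ℕ) (U : MT K),
    pt d i ⊆ pt r i ∧ DT (i : WithTop K) U ∧ (∀ x ∈ pt d i, U.s x = t ∧ U.Sub T x) ∧
      Φ (pt d i) U

namespace FrontProp

variable {i : K} {Φ : Set (Pt K) → MT K → Prop}

theorem mono (h : FrontProp i Φ) {A B : Set (Pt K)} {T U : MT K} (hB : MeasurableSet B)
    (hB' : Det (i : WithTop K) (fun x => x ∈ B)) (hT : DT (i : WithTop K) T)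
    (hU : DT (i : WithTop K) U) (hΦ : Φ B T) (hAB : A ⊆ B) (hUT : ∀ x ∈ A, U.Sub T x) : Φ A U :=
  h.sig A (fun _ => B) (fun _ => T) U (fun _ => hB) (fun _ => hB') (fun _ => hT) hU
    (fun _ => hΦ) fun x hx => ⟨0, hAB hx, hUT x hx⟩

/-- The version for a countable set of conditions. -/
theorem sig_set (h : FrontProp i Φ) {T : MT K} (hT : DT (i : WithTop K) T) (t : List ℕ)
    (C : Set (Cond K)) (hC : C.Countable)
    (hK : ∀ c ∈ C, ∃ U : MT K, DT (i : WithTop K) U ∧ (∀ x ∈ pt c i, U.s x = t ∧ U.Sub T x) ∧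
      Φ (pt c i) U) :
    ∃ U : MT K, DT (i : WithTop K) U ∧ (∀ x ∈ ⋃ c ∈ C, pt c i, U.s x = t ∧ U.Sub T x) ∧
      Φ (⋃ c ∈ C, pt c i) U := by
  classical
  rcases C.eq_empty_or_nonempty with rfl | hne
  · refine ⟨T, hT, by simp, ?_⟩
    rw [biUnion_empty]
    exact h.empty T
  · obtain ⟨c, hc⟩ := hC.exists_eq_range hne
    have hK' : ∀ n, ∃ U : MT K, DT (i : WithTop K) U ∧
        (∀ x ∈ pt (c n) i, U.s x = t ∧ U.Sub T x) ∧ Φ (pt (c n) i) U :=
      fun n => hK (c n) (hc ▸ ⟨n, rfl⟩)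
    choose U hU1 hU2 hU3 using hK'
    let ν : Pt K → ℕ := fun x => sInf {n | x ∈ pt (c n) i}
    have hν : CM ν := CM.find (P := fun n x => x ∈ pt (c n) i) fun n => measurableSet_pt _ _
    have hνd : Det (i : WithTop K) ν := by
      intro x y hxy
      show sInf {n | x ∈ pt (c n) i} = sInf {n | y ∈ pt (c n) i}
      have : {n | x ∈ pt (c n) i} = {n | y ∈ pt (c n) i} := by
        ext n
        exact mem_pt_congr (c n) hxy
      rw [this]
    have hνm : ∀ x ∈ ⋃ c ∈ C, pt c i, x ∈ pt (c (ν x)) i := by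
      intro x hx
      obtain ⟨c', hc', hx'⟩ := mem_iUnion₂.1 hx
      rw [hc] at hc'
      obtain ⟨n, rfl⟩ := hc'
      exact Nat.sInf_mem (s := {n | x ∈ pt (c n) i}) ⟨n, hx'⟩
    have hDT : DT (i : WithTop K) (MT.sel (fun x => U (ν x)) (hν.map U)) :=
      DT.sel (hνd.map U) fun x => hU1 _
    have hsel : ∀ x, (MT.sel (fun x => U (ν x)) (hν.map U)).Sub (U (ν x)) x := fun x =>
      GPA.Sub.refl _ _
    refine ⟨MT.sel (fun x => U (ν x)) (hν.map U), hDT, fun x hx => ?_, ?_⟩
    · exact hU2 (ν x) x (hνm x hx)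
    · refine h.sig _ (fun n => pt (c n) i) U _ (fun n => measurableSet_pt _ _)
        (fun n => det_pt _ _) hU1 hDT hU3 fun x hx => ⟨ν x, hνm x hx, hsel x⟩

variable [WellFoundedLT K]

/-- **The front lemma.** -/
theorem front (h : FrontProp i Φ) (hdec : DecL (K := K) (i : WithTop K))
    (hsig : SigL (K := K) (i : WithTop K)) (hcov : CovL (K := K) (i : WithTop K)) (e : Cond K)
    (T : MT K) (hT : DT (i : WithTop K) T) : ∃ (e' : Cond K) (U : MT K), pt e' i ⊆ pt e i ∧
      DT (i : WithTop K) U ∧ (∀ x ∈ pt e' i, U.s x = T.s x ∧ U.Sub T x) ∧ Φ (pt e' i) U := by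
  classical
  -- the conditions with a pure extension at `t`
  let K2 : List ℕ → Cond K → Prop := fun t r => ∃ U : MT K, DT (i : WithTop K) U ∧
    (∀ x ∈ pt r i, U.s x = t ∧ U.Sub T x) ∧ Φ (pt r i) U
  have K2mono : ∀ t r r', pt r' (i : WithTop K) ⊆ pt r i → K2 t r → K2 t r' := by
    rintro t r r' hr ⟨U, h1, h2, h3⟩
    exact ⟨U, h1, fun x hx => h2 x (hr hx), h.mono (measurableSet_pt _ _) (det_pt _ _) h1 h1 h3 hr
      fun x _ => GPA.Sub.refl _ _⟩
  let D : List ℕ → Set (Cond K) := fun t => {r | K2 t r ∨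
    ∀ r', pt r' (i : WithTop K) ⊆ pt r i → ¬ K2 t r'}
  have hD : ∀ t, DenseL (i : WithTop K) (D t) := by
    intro t r
    by_cases h1 : ∃ r', pt r' (i : WithTop K) ⊆ pt r i ∧ K2 t r'
    · obtain ⟨r', h1, h2⟩ := h1
      exact ⟨r', Or.inl h2, h1⟩
    · push Not at h1
      exact ⟨r, Or.inr h1, subset_rfl⟩
  obtain ⟨e₁, he₁, C, hC⟩ := hcov (fun n => D ((Encodable.decode n).getD [])) (fun n => hD _) e
  obtain ⟨C', hC'⟩ : ∃ C' : List ℕ → Set (Cond K), ∀ t, (C' t).Countable ∧ C' t ⊆ D t ∧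
      pt e₁ (i : WithTop K) ⊆ ⋃ c ∈ C' t, pt c i := by
    refine ⟨fun t => C (Encodable.encode t), fun t => ?_⟩
    have := hC (Encodable.encode t)
    simpa using this
  -- the good points
  let G : List ℕ → Set (Pt K) := fun t => ⋃ c ∈ {c | c ∈ C' t ∧ K2 t c}, pt c i
  have hGc : ∀ t, {c | c ∈ C' t ∧ K2 t c}.Countable := fun t =>
    (hC' t).1.mono fun c hc => hc.1
  have hGm : ∀ t, MeasurableSet (G t) := fun t =>
    MeasurableSet.biUnion (hGc t) fun c _ => measurableSet_pt c _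
  have hGd : ∀ t, Det (i : WithTop K) (fun x => x ∈ G t) := by
    intro t x y hxy
    refine propext ?_
    simp only [G, mem_iUnion]
    exact exists_congr fun c => exists_congr fun _ => mem_pt_congr c hxy
  have hGT : ∀ t, ∃ U : MT K, DT (i : WithTop K) U ∧ (∀ x ∈ G t, U.s x = t ∧ U.Sub T x) ∧
      Φ (G t) U := fun t => h.sig_set hT t _ (hGc t) fun c hc => hc.2
  choose F hF1 hF2 hF3 using hGT
  -- no condition avoiding `G t` has a pure extension at `t`
  have hbad : ∀ t r, pt r (i : WithTop K) ⊆ pt e₁ i → (∀ x ∈ pt r (i : WithTop K), x ∉ G t) →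
      ¬ K2 t r := by
    intro t r hr hrG hK
    have hne : (C' t).Nonempty := by
      obtain ⟨x, hx⟩ := pt_nonempty e₁ (i : WithTop K)
      obtain ⟨c, hc, -⟩ := mem_iUnion₂.1 ((hC' t).2.2 hx)
      exact ⟨c, hc⟩
    obtain ⟨c, hc⟩ := (hC' t).1.exists_eq_range hne
    obtain ⟨n, r', hr', hrn⟩ := hsig (fun n => pt (c n) i ∩ {x | x ∉ G t})
      (fun n => (measurableSet_pt _ _).inter (hGm t).compl)
      (fun n => (det_pt _ _).and (hGd t).not) r (by
        intro x hx
        obtain ⟨c', hc', hxc⟩ := mem_iUnion₂.1 ((hC' t).2.2 (hr hx))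
        rw [hc] at hc'
        obtain ⟨n, rfl⟩ := hc'
        exact mem_iUnion.2 ⟨n, hxc, hrG x hx⟩)
    have hcn : c n ∈ C' t := hc ▸ ⟨n, rfl⟩
    rcases (hC' t).2.1 hcn with h1 | h1
    · obtain ⟨x, hx⟩ := pt_nonempty r' (i : WithTop K)
      exact (hrn hx).2 (mem_iUnion₂.2 ⟨c n, ⟨hcn, h1⟩, (hrn hx).1⟩)
    · exact h1 r' (hrn.trans inter_subset_left) (K2mono t r r' hr' hK)
  -- the nodes which are bad with infinitely many good successors
  let M : Pt K → List ℕ → Set ℕ := fun x t => {m | m ∈ T.W x t ∧ x ∈ G (m :: t)}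
  have hMm : ∀ t m, MeasurableSet {x | m ∈ M x t} := fun t m => (T.mW t m).inter (hGm _)
  have hMd : Det (i : WithTop K) M := by
    intro x y hxy
    funext t
    show {m | m ∈ T.W x t ∧ x ∈ G (m :: t)} = {m | m ∈ T.W y t ∧ y ∈ G (m :: t)}
    ext m
    have h1 : (x ∈ G (m :: t)) = (y ∈ G (m :: t)) := hGd (m :: t) x y hxy
    simp only [mem_ofPred_eq]
    rw [hT.2 x y hxy, h1]
  let Z : List ℕ → Set (Pt K) := fun t => {x | x ∉ G t ∧ T.nd x t ∧ (M x t).Infinite}
  have hZm : ∀ t, MeasurableSet (Z t) := fun t =>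
    (hGm t).compl.inter ((T.measurableSet_nd t).inter (measurableSet_infinite (hMm t)))
  have hTnd : ∀ t, Det (i : WithTop K) (fun x => T.nd x t) := by
    intro t x y hxy
    show GPA.nd (T.s x) (T.W x) t = GPA.nd (T.s y) (T.W y) t
    rw [hT.1 x y hxy, hT.2 x y hxy]
  have hZd : ∀ t, Det (i : WithTop K) (fun x => x ∈ Z t) := fun t =>
    (hGd t).not.and ((hTnd t).and (hMd.map fun M => (M t).Infinite))
  have hZ : ∀ t r, pt r (i : WithTop K) ⊆ pt e₁ i → ¬ pt r (i : WithTop K) ⊆ Z t := by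
    intro t r hr hrZ
    have hMt : Det (i : WithTop K) (fun x => M x t) := hMd.map fun M => M t
    obtain ⟨M', hM1, hM2, hM3, hM4, hM5⟩ := h.glue (pt r i) t (fun x => M x t)
      (fun m => F (m :: t)) (measurableSet_pt _ _) (det_pt _ _) (hMm t) hMt (fun m => hF1 _)
      (fun x hx => (hrZ hx).2.2) (fun x _ m hm => (hF2 (m :: t) x hm.2).1)
      (fun m => h.mono (hGm _) (hGd _) (hF1 _) (hF1 _) (hF3 (m :: t)) (fun x hx => hx.2.2)
        fun x _ => GPA.Sub.refl _ _)
    have hbr : ∀ x ∈ pt r (i : WithTop K), ∀ z ∈ (MT.gl t M' hM1 F).br x,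
        ∃ m ∈ M' x, z ∈ (F (m :: t)).br x := fun x hx z hz =>
      MT.gl_br (hM4 x hx) (fun m hm => (hF2 (m :: t) x (hM3 x hm).2).1) hz
    have hdt : DT (i : WithTop K) (MT.gl t M' hM1 F) := DT.gl hM2 hF1
    refine hbad t r hr (fun x hx => (hrZ hx).1) ⟨MT.gl t M' hM1 F, hdt, fun x hx => ⟨rfl, ?_⟩,
      hM5 _ hdt hbr⟩
    rw [MT.sub_iff]
    intro z hz
    obtain ⟨m, hm, hzm⟩ := hbr x hx z hz
    exact ((MT.sub_iff _ _ _).1 (hF2 (m :: t) x (hM3 x hm).2).2) hzm
  obtain ⟨e₂, he₂, he₂Z⟩ : ∃ e₂ : Cond K, pt e₂ (i : WithTop K) ⊆ pt e₁ i ∧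
      ∀ x ∈ pt e₂ (i : WithTop K), ∀ t, x ∉ Z t := by
    have hUm : MeasurableSet (⋃ t, Z t) := MeasurableSet.iUnion hZm
    have hUd : Det (i : WithTop K) (fun x => x ∈ ⋃ t, Z t) := by
      intro x y hxy
      refine propext ?_
      simp only [mem_iUnion]
      exact exists_congr fun t => iff_of_eq (hZd t x y hxy)
    obtain ⟨e₂, h1, h2 | h2⟩ := hdec _ hUm hUd e₁
    · exfalso
      obtain ⟨n, r, hr, hrn⟩ := hsig (fun n => Z ((Encodable.decode n).getD []))
        (fun n => hZm _) (fun n => hZd _) e₂ (by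
          intro x hx
          obtain ⟨t, ht⟩ := mem_iUnion.1 (h2 hx)
          exact mem_iUnion.2 ⟨Encodable.encode t, by simpa using ht⟩)
      exact hZ _ r (hr.trans h1) hrn
    · exact ⟨e₂, h1, fun x hx t ht => Set.disjoint_left.1 h2 hx (mem_iUnion.2 ⟨t, ht⟩)⟩
  -- the stem is good
  obtain ⟨e₃, he₃, he₃S⟩ : ∃ e₃ : Cond K, pt e₃ (i : WithTop K) ⊆ pt e₂ i ∧
      ∀ x ∈ pt e₃ (i : WithTop K), x ∈ G (T.s x) := by
    have hSm : MeasurableSet {x | x ∈ G (T.s x)} :=
      T.cms.rel (R := fun t x => x ∈ G t) hGm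
    have hSd : Det (i : WithTop K) (fun x => x ∈ {x | x ∈ G (T.s x)}) := by
      intro x y hxy
      show (x ∈ G (T.s x)) = (y ∈ G (T.s y))
      rw [hT.1 x y hxy]
      exact hGd _ x y hxy
    obtain ⟨e₃, h1, h2 | h2⟩ := hdec _ hSm hSd e₂
    · exact ⟨e₃, h1, h2⟩
    · exfalso
      have hS : ∀ x ∈ pt e₃ (i : WithTop K), x ∉ G (T.s x) := fun x hx hx' =>
        Set.disjoint_left.1 h2 hx hx'
      let B : Pt K → List ℕ → Set ℕ := fun x t => {m | x ∉ G (m :: t)}
      have hBm : ∀ t m, MeasurableSet {x | m ∈ B x t} := fun t m => (hGm _).compl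
      have hBd : Det (i : WithTop K) B := by
        intro x y hxy
        funext t
        ext m
        have h1 : (x ∈ G (m :: t)) = (y ∈ G (m :: t)) := hGd (m :: t) x y hxy
        show (x ∉ G (m :: t)) ↔ (y ∉ G (m :: t))
        rw [h1]
      have hT' : DT (i : WithTop K) (T.thin B hBm) := DT.thin hT hBd
      have hnd : ∀ x ∈ pt e₃ (i : WithTop K), ∀ t, (T.thin B hBm).nd x t → x ∉ G t := by
        intro x hx t
        induction t with
        | nil =>
          intro ht
          have ht' : T.s x = [] := ht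
          have := hS x hx
          rwa [ht'] at this
        | cons m t ih =>
          rintro (ht | ⟨ht, hm⟩)
          · have ht' : T.s x = m :: t := ht
            have := hS x hx
            rwa [ht'] at this
          · have h3 := ih ht
            have h4 : T.nd x t := T.thin_sub B hBm x t ht
            have h5 : ¬ (M x t).Infinite := fun h6 => he₂Z x (h1 hx) t ⟨h3, h4, h6⟩
            have h7 : (T.W x t ∩ B x t).Infinite := by
              have h8 := (T.inf x t).sdiff (not_infinite.1 h5)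
              refine h8.mono fun m hm => ⟨hm.1, fun hm' => hm.2 ⟨hm.1, hm'⟩⟩
            have hm' : m ∈ (if (T.W x t ∩ B x t).Infinite then T.W x t ∩ B x t else T.W x t) := hm
            rw [if_pos h7] at hm'
            exact hm'.2
      obtain ⟨d, t, U, hd, hU1, hU2, hU3⟩ := h.start e₃ (T.thin B hBm) hT'
      refine hbad t d (hd.trans (h1.trans he₂)) (fun x hx => hnd x (hd hx) t ?_)
        ⟨U, hU1, fun x hx => ⟨(hU2 x hx).1, (hU2 x hx).2.trans (T.thin_sub B hBm x)⟩, hU3⟩
      have h3 := (hU2 x hx).2 (U.s x) (nd_self _ _)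
      rwa [(hU2 x hx).1] at h3
  -- the pure extension
  refine ⟨e₃, MT.sel (fun x => F (T.s x)) (T.cms.map F), he₃.trans (he₂.trans he₁), ?_, ?_, ?_⟩
  · exact DT.sel (hT.1.map F) fun x => hF1 _
  · intro x hx
    exact hF2 (T.s x) x (he₃S x hx)
  · refine h.sig _ (fun n => G ((Encodable.decode n).getD []))
      (fun n => F ((Encodable.decode n).getD [])) _ (fun n => hGm _) (fun n => hGd _)
      (fun n => hF1 _) (DT.sel (hT.1.map F) fun x => hF1 _) (fun n => hF3 _) fun x hx => ?_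
    refine ⟨Encodable.encode (T.s x), ?_⟩
    simp only [Encodable.encodek, Option.getD_some]
    exact ⟨he₃S x hx, GPA.Sub.refl _ _⟩

end FrontProp

/-! ### The two instances -/

variable [WellFoundedLT K]

/-- The start of the front lemma for a dense set of the level `j = i + 1`. -/
theorem front_start {i : K} {j : WithTop K} (hj : ∀ b : K, (b : WithTop K) < j ↔ b ≤ i)
    (hsig : SigL (K := K) (i : WithTop K)) {D : Set (Cond K)} (hD : DenseL j D)
    (r : Cond K) (T : MT K) (hT : DT (i : WithTop K) T) :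
    ∃ d₀ ∈ D, ∃ (d : Cond K) (t : List ℕ), pt d i ⊆ pt r i ∧ pt d i ⊆ pt d₀ i ∧
      ∀ x ∈ pt d i, (d₀.T i).s x = t ∧ (d₀.T i).Sub T x := by
  classical
  have hij : (i : WithTop K) ≤ j := ((hj i).2 le_rfl).le
  obtain ⟨d₀, hd₀, hd₁⟩ := hD (r.upd i T hT.1 hT.2)
  have hupd : ∀ a, a ≠ i → (r.upd i T hT.1 hT.2).T a = r.T a := fun a ha =>
    Function.update_of_ne ha _ _
  have hupdi : (r.upd i T hT.1 hT.2).T i = T := Function.update_self _ _ _
  have hpt : pt (r.upd i T hT.1 hT.2) i = pt r i := by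
    ext x
    refine forall₂_congr fun a ha => ?_
    rw [hupd a (WithTop.coe_lt_coe.1 ha).ne]
  have h0 : pt d₀ (i : WithTop K) ⊆ pt r i := hpt ▸ pt_subset_mono hij hd₁
  obtain ⟨n, d, hd2, hd3⟩ := hsig (fun n => pt d₀ i ∩
      {x | (d₀.T i).s x = (Encodable.decode n).getD []})
    (fun n => (measurableSet_pt _ _).inter ((d₀.T i).ms _))
    (fun n => (det_pt _ _).and ((d₀.ds i).map fun t => t = (Encodable.decode n).getD [])) d₀ (by
      intro x hx
      exact mem_iUnion.2 ⟨Encodable.encode ((d₀.T i).s x), hx, by simp⟩)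
  refine ⟨d₀, hd₀, d, (Encodable.decode n).getD [], hd2.trans h0, hd2, fun x hx => ⟨(hd3 hx).2, ?_⟩⟩
  have h1 := pt_subset_iff.1 hd₁ i ((hj i).2 le_rfl) x (hd2 hx)
  rwa [hupdi] at h1

/-- From the front lemma to a condition. -/
theorem FrontProp.cond {i : K} {Φ : Set (Pt K) → MT K → Prop} (h : FrontProp i Φ)
    (hdec : DecL (K := K) (i : WithTop K)) (hsig : SigL (K := K) (i : WithTop K))
    (hcov : CovL (K := K) (i : WithTop K)) (e : Cond K) : ∃ e' : Cond K, pt e' i ⊆ pt e i ∧
      (∀ x ∈ pt e' i, (e'.T i).s x = (e.T i).s x ∧ (e'.T i).Sub (e.T i) x) ∧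
      Φ (pt e' i) (e'.T i) := by
  classical
  obtain ⟨r, U, h1, h2, h3, h4⟩ := h.front hdec hsig hcov e (e.T i) (e.dt i)
  have hupdi : (r.upd i U h2.1 h2.2).T i = U := Function.update_self _ _ _
  have hpt : pt (r.upd i U h2.1 h2.2) i = pt r i := by
    ext x
    refine forall₂_congr fun a ha => ?_
    have : (r.upd i U h2.1 h2.2).T a = r.T a :=
      Function.update_of_ne (WithTop.coe_lt_coe.1 ha).ne _ _
    rw [this]
  refine ⟨r.upd i U h2.1 h2.2, hpt ▸ h1, ?_, ?_⟩
  · rw [hpt, hupdi]; exact h3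
  · rw [hpt, hupdi]; exact h4

omit [WellFoundedLT K] in
theorem mem_pt_succ {i : K} {j : WithTop K} (hj : ∀ b : K, (b : WithTop K) < j ↔ b ≤ i)
    {p : Cond K} {x : Pt K} : x ∈ pt p j ↔ x ∈ pt p i ∧ x i ∈ (p.T i).br x := by
  constructor
  · intro h
    exact ⟨fun a ha => h a ((hj a).2 (WithTop.coe_lt_coe.1 ha).le), h i ((hj i).2 le_rfl)⟩
  · rintro ⟨h1, h2⟩ a ha
    rcases ((hj a).1 ha).lt_or_eq with ha | rfl
    · exact h1 a (WithTop.coe_lt_coe.2 ha)
    · exact h2

theorem frontProp_cover {i : K} {j : WithTop K} (hj : ∀ b : K, (b : WithTop K) < j ↔ b ≤ i)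
    (hsig : SigL (K := K) (i : WithTop K)) {D : Set (Cond K)} (hD : DenseL j D) :
    FrontProp i fun A T => ∃ C : Set (Cond K), C.Countable ∧ C ⊆ D ∧
      ∀ x ∈ A, x i ∈ T.br x → ∃ c ∈ C, x ∈ pt c j where
  empty T := ⟨∅, countable_empty, empty_subset _, by simp⟩
  sig A B T U _ _ _ _ hΦ hx := by
    choose C h1 h2 h3 using hΦ
    refine ⟨⋃ n, C n, countable_iUnion h1, iUnion_subset h2, fun x hxA hxU => ?_⟩
    obtain ⟨n, hn, hn'⟩ := hx x hxA
    obtain ⟨c, hc, hxc⟩ := h3 n x hn ((MT.sub_iff _ _ _).1 hn' hxU)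
    exact ⟨c, mem_iUnion.2 ⟨n, hc⟩, hxc⟩
  glue A t M T _ _ hM hMd _ hMi _ hΦ := by
    choose C h1 h2 h3 using hΦ
    refine ⟨M, hM, hMd, fun x => subset_rfl, hMi, fun U _ hU => ⟨⋃ n, C n, countable_iUnion h1,
      iUnion_subset h2, fun x hxA hxU => ?_⟩⟩
    obtain ⟨m, hm, hm'⟩ := hU x hxA _ hxU
    obtain ⟨c, hc, hxc⟩ := h3 m x ⟨hxA, hm⟩ hm'
    exact ⟨c, mem_iUnion.2 ⟨m, hc⟩, hxc⟩
  start r T hT := by
    obtain ⟨d₀, hd₀, d, t, h1, h2, h3⟩ := front_start hj hsig hD r T hT
    exact ⟨d, t, d₀.T i, h1, d₀.dt i, h3, {d₀}, countable_singleton _, by simpa using hd₀,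
      fun x hx hxi => ⟨d₀, rfl, (mem_pt_succ hj).2 ⟨h2 hx, hxi⟩⟩⟩

/-- **(D)** Pure extension into a countable part of a dense set. -/
theorem front_cover {i : K} {j : WithTop K} (hj : ∀ b : K, (b : WithTop K) < j ↔ b ≤ i)
    (hdec : DecL (K := K) (i : WithTop K)) (hsig : SigL (K := K) (i : WithTop K))
    (hcov : CovL (K := K) (i : WithTop K)) {D : Set (Cond K)} (hD : DenseL j D) (e : Cond K) :
    ∃ e' : Cond K, pt e' i ⊆ pt e i ∧
      (∀ x ∈ pt e' i, (e'.T i).s x = (e.T i).s x ∧ (e'.T i).Sub (e.T i) x) ∧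
      ∃ C : Set (Cond K), C.Countable ∧ C ⊆ D ∧ pt e' j ⊆ ⋃ c ∈ C, pt c j := by
  obtain ⟨e', h1, h2, C, h3, h4, h5⟩ := (frontProp_cover hj hsig hD).cond hdec hsig hcov e
  refine ⟨e', h1, h2, C, h3, h4, fun x hx => ?_⟩
  have h6 := (mem_pt_succ hj).1 hx
  obtain ⟨c, hc, hxc⟩ := h5 x h6.1 h6.2
  exact mem_iUnion₂.2 ⟨c, hc, hxc⟩

theorem frontProp_fin {i : K} {j : WithTop K} (hj : ∀ b : K, (b : WithTop K) < j ↔ b ≤ i)
    (hsig : SigL (K := K) (i : WithTop K)) {n : ℕ} (g : Pt K → Fin n)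
    (hD : DenseL j {d : Cond K | ∃ c, ∀ x ∈ pt d j, g x = c}) :
    FrontProp i fun A T => ∃ g' : Pt K → Fin n, (∀ c, MeasurableSet {x | g' x = c}) ∧
      Det (i : WithTop K) g' ∧ ∀ x ∈ A, x i ∈ T.br x → g x = g' x where
  empty T := ⟨fun _ => g fun _ _ => 0, fun c => MeasurableSet.const _, Det.const _ _, by simp⟩
  sig A B T U hB hBd hT hU hΦ hx := by
    classical
    choose g' h1 h2 h3 using hΦ
    let P : ℕ → Pt K → Prop := fun n x => x ∈ B n ∧ U.Sub (T n) x
    have hPm : ∀ n, MeasurableSet {x | P n x} := fun n => (hB n).inter (U.measurableSet_sub (T n))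
    have hPd : ∀ n, Det (i : WithTop K) (P n) := fun n => (hBd n).and (hU.sub (hT n))
    have hν : CM (fun x => sInf {n | P n x}) := CM.find hPm
    have hνd : Det (i : WithTop K) (fun x => sInf {n | P n x}) := by
      intro x y hxy
      have : {n | P n x} = {n | P n y} := by
        ext n
        exact iff_of_eq (hPd n x y hxy)
      show sInf {n | P n x} = sInf {n | P n y}
      rw [this]
    refine ⟨fun x => g' (sInf {n | P n x}) x, fun c => ?_, fun x y hxy => ?_, fun x hxA hxU => ?_⟩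
    · exact hν.rel (R := fun n x => g' n x = c) fun n => h1 n c
    · show g' (sInf {n | P n x}) x = g' (sInf {n | P n y}) y
      rw [show sInf {n | P n x} = sInf {n | P n y} from hνd x y hxy]
      exact h2 _ x y hxy
    · have h4 : P (sInf {n | P n x}) x := Nat.sInf_mem (s := {n | P n x}) (hx x hxA)
      exact h3 _ x h4.1 ((MT.sub_iff _ _ _).1 h4.2 hxU)
  glue A t M T hA hAd hM hMd hT hMi _ hΦ := by
    classical
    choose g' h1 h2 h3 using hΦ
    let L : ℕ → Pt K → Set ℕ := fun k x => {m | m ∈ M x ∧ (g' m x : ℕ) = k}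
    have hLm : ∀ k m, MeasurableSet {x | m ∈ L k x} := by
      intro k m
      have : {x | m ∈ L k x} = {x | m ∈ M x} ∩ ⋃ c : Fin n, ⋃ _ : (c : ℕ) = k, {x | g' m x = c} := by
        ext x
        simp only [L, mem_ofPred_eq, mem_inter_iff, mem_iUnion, exists_prop]
        constructor
        · rintro ⟨h, h'⟩
          exact ⟨h, _, h', rfl⟩
        · rintro ⟨h, c, h', h''⟩
          exact ⟨h, by rw [h'']; exact h'⟩
      rw [this]
      exact (hM m).inter (MeasurableSet.iUnion fun c => MeasurableSet.iUnion fun _ => h1 m c)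
    have hLd : ∀ k, Det (i : WithTop K) (L k) := by
      intro k x y hxy
      show {m | m ∈ M x ∧ (g' m x : ℕ) = k} = {m | m ∈ M y ∧ (g' m y : ℕ) = k}
      ext m
      simp only [mem_ofPred_eq]
      rw [hMd x y hxy, h2 m x y hxy]
    let κ : Pt K → ℕ := fun x => sInf {k | (L k x).Infinite}
    have hκ : CM κ := CM.find (P := fun k x => (L k x).Infinite) fun k => measurableSet_infinite (hLm k)
    have hκd : Det (i : WithTop K) κ := by
      intro x y hxy
      have : {k | (L k x).Infinite} = {k | (L k y).Infinite} := by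
        ext k
        show (L k x).Infinite ↔ (L k y).Infinite
        rw [hLd k x y hxy]
      show sInf {k | (L k x).Infinite} = sInf {k | (L k y).Infinite}
      rw [this]
    have hκi : ∀ x, (M x).Infinite → (L (κ x) x).Infinite := by
      intro x hx
      refine Nat.sInf_mem (s := {k | (L k x).Infinite}) ?_
      by_contra hne
      have hall : ∀ k, (L k x).Finite := by
        intro k
        by_contra hk
        exact hne ⟨k, hk⟩
      refine hx (((Set.finite_Iio n).biUnion fun k _ => hall k).subset fun m hm => ?_)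
      exact mem_iUnion₂.2 ⟨(g' m x : ℕ), (g' m x).2, hm, rfl⟩
    refine ⟨fun x => L (κ x) x, fun m => ?_, ?_, fun x m hm => hm.1, fun x hx => hκi x (hMi x hx),
      fun U _ hU => ⟨fun x => if h : κ x < n then ⟨κ x, h⟩ else g fun _ _ => 0, fun c => ?_, ?_,
        fun x hxA hxU => ?_⟩⟩
    · exact hκ.rel (R := fun k x => m ∈ L k x) fun k => hLm k m
    · intro x y hxy
      show L (κ x) x = L (κ y) y
      rw [hκd x y hxy, hLd _ x y hxy]
    · exact (hκ.map fun k => if h : k < n then (⟨k, h⟩ : Fin n) else g fun _ _ => 0).2 c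
    · exact hκd.map fun k => if h : k < n then (⟨k, h⟩ : Fin n) else g fun _ _ => 0
    · obtain ⟨m, hm, hm'⟩ := hU x hxA _ hxU
      have h4 : (g' m x : ℕ) = κ x := hm.2
      have h5 : κ x < n := h4 ▸ (g' m x).2
      show g x = if h : κ x < n then ⟨κ x, h⟩ else g fun _ _ => 0
      rw [dif_pos h5, h3 m x ⟨hxA, hm.1⟩ hm']
      exact Fin.ext h4
  start r T hT := by
    obtain ⟨d₀, ⟨c, hc⟩, d, t, h1, h2, h3⟩ := front_start hj hsig hD r T hT
    exact ⟨d, t, d₀.T i, h1, d₀.dt i, h3, fun _ => c, fun _ => MeasurableSet.const _,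
      Det.const _ _, fun x hx hxi => hc x ((mem_pt_succ hj).2 ⟨h2 hx, hxi⟩)⟩

/-- **(G)** Pure decision of a function with finitely many values. -/
theorem front_fin {i : K} {j : WithTop K} (hj : ∀ b : K, (b : WithTop K) < j ↔ b ≤ i)
    (hdec : DecL (K := K) (i : WithTop K)) (hsig : SigL (K := K) (i : WithTop K))
    (hcov : CovL (K := K) (i : WithTop K)) {n : ℕ} (g : Pt K → Fin n)
    (hD : DenseL j {d : Cond K | ∃ c, ∀ x ∈ pt d j, g x = c}) (e : Cond K) :
    ∃ e' : Cond K, pt e' i ⊆ pt e i ∧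
      (∀ x ∈ pt e' i, (e'.T i).s x = (e.T i).s x ∧ (e'.T i).Sub (e.T i) x) ∧
      ∃ g' : Pt K → Fin n, (∀ c, MeasurableSet {x | g' x = c}) ∧ Det (i : WithTop K) g' ∧
        ∀ x ∈ pt e' j, g x = g' x := by
  obtain ⟨e', h1, h2, g', h3, h4, h5⟩ := (frontProp_fin hj hsig g hD).cond hdec hsig hcov e
  refine ⟨e', h1, h2, g', h3, h4, fun x hx => ?_⟩
  have h6 := (mem_pt_succ hj).1 hx
  exact h5 x h6.1 h6.2

end Pool.Agent.GPA
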