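import Pool.Agent.GPA.Gen

/-!
# The front lemma: definitions

`i` is a coordinate and `j` is the next level. `Pure i e c`: at the coordinate `i` the tree of `e`
is included in the tree of `c` and has the same stem. `CovD j D e`: the condition `e` is covered by
countably many members of `D`. `FrontD i j` is the conclusion of the front lemma for dense sets.
-/

open Set

namespace Pool.Agent.GPA

variable {K : Type} [LinearOrder K]

/-- `e` is a pure extension of `c` at the coordinate `i`. -/
def Pure (i : K) (e c : Cond K) : Prop :=
  ∀ x ∈ pt e (i : WithTop K), (e.T i).s x = (c.T i).s x ∧ (e.T i).Sub (c.T i) x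

/-- At the level `j` the condition `e` is covered by countably many members of `D`. -/
def CovD (j : WithTop K) (D : Set (Cond K)) (e : Cond K) : Prop :=
  ∃ C : Set (Cond K), C.Countable ∧ C ⊆ D ∧ pt e j ⊆ ⋃ c ∈ C, pt c j

/-- Densely below `c` at the level `i` there are pure extensions of `c` which are covered by
countably many members of the given dense set. -/
def FrontD (i : K) (j : WithTop K) : Prop :=
  ∀ D : Set (Cond K), DenseL j D → ∀ c p : Cond K, pt p (i : WithTop K) ⊆ pt c (i : WithTop K) →
    ∃ e, pt e (i : WithTop K) ⊆ pt p (i : WithTop K) ∧ Pure i e c ∧ CovD j D e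

end Pool.Agent.GPA
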