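import Pool.Agent.GPA.Front
import Pool.Agent.GPA.FrontDefs

/-!
# The front lemma: open form, and decision by a constant

`CovS i j D e`: every point `y` of `e` at the level `j` has an initial segment of `y i` above which
the condition `e` is included, over `y`, in one member of a countable subset of `D`.
-/

open Set Filter

namespace Pool.Agent.GPA

variable {K : Type} [LinearOrder K]

/-- The open form of `CovD`. -/
def CovS (i : K) (j : WithTop K) (D : Set (Cond K)) (e : Cond K) : Prop :=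
  ∃ C : Set (Cond K), C.Countable ∧ C ⊆ D ∧ ∀ y ∈ pt e j, ∃ k, ∃ d ∈ C, ∀ z ∈ pt e j,
    Agr (i : WithTop K) z y → pre (z i) k = pre (y i) k → z ∈ pt d j

theorem CovS.covD {i : K} {j : WithTop K} {D : Set (Cond K)} {e : Cond K} (h : CovS i j D e) :
    CovD j D e := by
  obtain ⟨C, h1, h2, h3⟩ := h
  refine ⟨C, h1, h2, fun y hy => ?_⟩
  obtain ⟨k, d, hd, h4⟩ := h3 y hy
  exact mem_iUnion₂.2 ⟨d, hd, h4 y hy (Agr.refl _ _) rfl⟩

/-- The conclusion of the front lemma in the open form. -/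
def FrontS (i : K) (j : WithTop K) : Prop :=
  ∀ D : Set (Cond K), DenseL j D → ∀ c p : Cond K, pt p (i : WithTop K) ⊆ pt c (i : WithTop K) →
    ∃ e, pt e (i : WithTop K) ⊆ pt p (i : WithTop K) ∧ Pure i e c ∧ CovS i j D e

theorem pre_eq_mono {z z' : ℕ → ℕ} {k l : ℕ} (h : l ≤ k) (h' : pre z k = pre z' k) :
    pre z l = pre z' l := by
  rw [← drop_pre z h, ← drop_pre z' h, h']

variable [WellFoundedLT K]

/-- From the front lemma to a condition, pure over `c`, below a condition `p`. -/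
theorem FrontProp.cond' {i : K} {Φ : Set (Pt K) → MT K → Prop} (h : FrontProp i Φ)
    (hdec : DecL (K := K) (i : WithTop K)) (hsig : SigL (K := K) (i : WithTop K))
    (hcov : CovL (K := K) (i : WithTop K)) (c p : Cond K) : ∃ e : Cond K,
      pt e (i : WithTop K) ⊆ pt p (i : WithTop K) ∧ Pure i e c ∧ Φ (pt e (i : WithTop K)) (e.T i) := by
  classical
  obtain ⟨r, U, h1, h2, h3, h4⟩ := h.front hdec hsig hcov p (c.T i) (c.dt i)
  have hupdi : (r.upd i U h2.1 h2.2).T i = U := Function.update_self _ _ _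
  have hpt : pt (r.upd i U h2.1 h2.2) i = pt r i := by
    ext x
    refine forall₂_congr fun a ha => ?_
    have : (r.upd i U h2.1 h2.2).T a = r.T a :=
      Function.update_of_ne (WithTop.coe_lt_coe.1 ha).ne _ _
    rw [this]
  refine ⟨r.upd i U h2.1 h2.2, hpt ▸ h1, ?_, ?_⟩
  · intro x hx
    rw [hpt] at hx
    rw [hupdi]
    exact h3 x hx
  · rw [hpt, hupdi]; exact h4

theorem frontProp_open {i : K} {j : WithTop K} (hj : ∀ b : K, (b : WithTop K) < j ↔ b ≤ i)
    (hsig : SigL (K := K) (i : WithTop K)) {D : Set (Cond K)} (hD : DenseL j D) :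
    FrontProp i fun A T => ∃ C : Set (Cond K), C.Countable ∧ C ⊆ D ∧
      ∀ x ∈ A, ∀ z ∈ T.br x, ∃ k, ∃ d ∈ C, x ∈ pt d i ∧
        ∀ z' ∈ T.br x, pre z' k = pre z k → z' ∈ (d.T i).br x where
  empty T := ⟨∅, countable_empty, empty_subset _, by simp⟩
  sig A B T U _ _ _ _ hΦ hx := by
    choose C h1 h2 h3 using hΦ
    refine ⟨⋃ n, C n, countable_iUnion h1, iUnion_subset h2, fun x hxA z hz => ?_⟩
    obtain ⟨n, hn, hn'⟩ := hx x hxA
    have hsub := (MT.sub_iff _ _ _).1 hn'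
    obtain ⟨k, d, hd, hxd, h4⟩ := h3 n x hn z (hsub hz)
    exact ⟨k, d, mem_iUnion.2 ⟨n, hd⟩, hxd, fun z' hz' h5 => h4 z' (hsub hz') h5⟩
  glue A t M T _ _ hM hMd _ hMi hs hΦ := by
    choose C h1 h2 h3 using hΦ
    refine ⟨M, hM, hMd, fun x => subset_rfl, hMi, fun U _ hU => ⟨⋃ n, C n, countable_iUnion h1,
      iUnion_subset h2, fun x hxA z hz => ?_⟩⟩
    have hstem : ∀ m ∈ M x, ∀ w ∈ (T m).br x, pre w (t.length + 1) = m :: t := by
      intro m hm w hw
      have h4 := hw.1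
      rw [hs x hxA m hm, List.length_cons] at h4
      exact h4
    obtain ⟨m, hm, hm'⟩ := hU x hxA z hz
    obtain ⟨k, d, hd, hxd, h4⟩ := h3 m x ⟨hxA, hm⟩ z hm'
    refine ⟨max k (t.length + 1), d, mem_iUnion.2 ⟨m, hd⟩, hxd, fun z' hz' h5 => ?_⟩
    obtain ⟨m', hm₁, hm₂⟩ := hU x hxA z' hz'
    have h6 : m' = m := by
      have h7 := pre_eq_mono (le_max_right k (t.length + 1)) h5
      rw [hstem m' hm₁ z' hm₂, hstem m hm z hm'] at h7
      exact (List.cons.inj h7).1
    subst h6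
    exact h4 z' hm₂ (pre_eq_mono (le_max_left _ _) h5)
  start r T hT := by
    obtain ⟨d₀, hd₀, d, t, h1, h2, h3⟩ := front_start hj hsig hD r T hT
    exact ⟨d, t, d₀.T i, h1, d₀.dt i, h3, {d₀}, countable_singleton _, by simpa using hd₀,
      fun x hx z hz => ⟨0, d₀, rfl, h2 hx, fun z' hz' _ => hz'⟩⟩

/-- **The front lemma, open form.** -/
theorem frontS {i : K} {j : WithTop K} (hj : ∀ b : K, (b : WithTop K) < j ↔ b ≤ i)
    (hdec : DecL (K := K) (i : WithTop K)) (hsig : SigL (K := K) (i : WithTop K))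
    (hcov : CovL (K := K) (i : WithTop K)) : FrontS i j := by
  intro D hD c p _
  obtain ⟨e, h1, h2, C, h3, h4, h5⟩ := (frontProp_open hj hsig hD).cond' hdec hsig hcov c p
  refine ⟨e, h1, h2, C, h3, h4, fun y hy => ?_⟩
  obtain ⟨hy1, hy2⟩ := (mem_pt_succ hj).1 hy
  obtain ⟨k, d, hd, hyd, h6⟩ := h5 y hy1 (y i) hy2
  refine ⟨k, d, hd, fun z hz hzy hpre => ?_⟩
  obtain ⟨hz1, hz2⟩ := (mem_pt_succ hj).1 hz
  refine (mem_pt_succ hj).2 ⟨(mem_pt_congr d hzy).2 hyd, ?_⟩
  rw [d.br_congr hzy]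
  exact h6 (z i) (by rwa [e.br_congr hzy] at hz2) hpre

theorem frontD {i : K} {j : WithTop K} (hj : ∀ b : K, (b : WithTop K) < j ↔ b ≤ i)
    (hdec : DecL (K := K) (i : WithTop K)) (hsig : SigL (K := K) (i : WithTop K))
    (hcov : CovL (K := K) (i : WithTop K)) : FrontD i j := by
  intro D hD c p hp
  obtain ⟨e, h1, h2, h3⟩ := frontS hj hdec hsig hcov D hD c p hp
  exact ⟨e, h1, h2, h3.covD⟩

/-- Pure decision of a function with finitely many values, below a condition `p`. -/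
theorem frontG {i : K} {j : WithTop K} (hj : ∀ b : K, (b : WithTop K) < j ↔ b ≤ i)
    (hdec : DecL (K := K) (i : WithTop K)) (hsig : SigL (K := K) (i : WithTop K))
    (hcov : CovL (K := K) (i : WithTop K)) {n : ℕ} (g : Pt K → Fin n)
    (hD : DenseL j {d : Cond K | ∃ c, ∀ x ∈ pt d j, g x = c}) (c p : Cond K) :
    ∃ e : Cond K, pt e (i : WithTop K) ⊆ pt p (i : WithTop K) ∧ Pure i e c ∧
      ∃ g' : Pt K → Fin n, (∀ v, MeasurableSet {x | g' x = v}) ∧ Det (i : WithTop K) g' ∧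
        ∀ x ∈ pt e j, g x = g' x := by
  obtain ⟨e, h1, h2, g', h3, h4, h5⟩ := (frontProp_fin hj hsig g hD).cond' hdec hsig hcov c p
  refine ⟨e, h1, h2, g', h3, h4, fun x hx => ?_⟩
  have h6 := (mem_pt_succ hj).1 hx
  exact h5 x h6.1 h6.2

/-- The same with a constant value. -/
theorem frontG_const {i : K} {j : WithTop K} (hj : ∀ b : K, (b : WithTop K) < j ↔ b ≤ i)
    (hdec : DecL (K := K) (i : WithTop K)) (hsig : SigL (K := K) (i : WithTop K))
    (hcov : CovL (K := K) (i : WithTop K)) {n : ℕ} (g : Pt K → Fin n)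
    (hD : DenseL j {d : Cond K | ∃ c, ∀ x ∈ pt d j, g x = c}) (c p : Cond K) :
    ∃ e : Cond K, pt e (i : WithTop K) ⊆ pt p (i : WithTop K) ∧ Pure i e c ∧
      ∃ v : Fin n, ∀ x ∈ pt e j, g x = v := by
  obtain ⟨e, h1, h2, g', h3, h4, h5⟩ := frontG hj hdec hsig hcov g hD c p
  have hij : (i : WithTop K) ≤ j := ((hj i).2 le_rfl).le
  have hn : 0 < n := (g' fun _ _ => 0).pos
  obtain ⟨k, r, hr, hrk⟩ := hsig (fun k => {x | (g' x : ℕ) = k})
    (fun k => by
      have : {x | (g' x : ℕ) = k} = ⋃ v : Fin n, ⋃ _ : (v : ℕ) = k, {x | g' x = v} := by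
        ext x
        simp only [mem_ofPred_eq, mem_iUnion, exists_prop]
        constructor
        · intro h
          exact ⟨_, h, rfl⟩
        · rintro ⟨v, h, h'⟩
          rw [h']
          exact h
      rw [this]
      exact MeasurableSet.iUnion fun v => MeasurableSet.iUnion fun _ => h3 v)
    (fun k => h4.map fun v => (v : ℕ) = k) e (fun x _ => mem_iUnion.2 ⟨(g' x : ℕ), rfl⟩)
  -- the trees of `r` below `i` and the tree of `e` at `i`
  have hpt : pt (Cond.glue (i : WithTop K) r e) (i : WithTop K) = pt r (i : WithTop K) := by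
    ext x
    exact mem_pt_glue_of_le le_rfl
  have hT : ∀ x, ((Cond.glue (i : WithTop K) r e).T i).s x = (e.T i).s x ∧
      ((Cond.glue (i : WithTop K) r e).T i).Sub (e.T i) x := by
    intro x
    have h6 : (Cond.glue (i : WithTop K) r e).T i = MT.sel (fun _ => e.T i) ((CM.const e).map fun c => c.T i) :=
      Cond.mix_T_of_le le_rfl
    rw [h6]
    exact ⟨rfl, GPA.Sub.refl _ _⟩
  obtain ⟨x₀, hx₀⟩ := pt_nonempty r (i : WithTop K)
  refine ⟨Cond.glue (i : WithTop K) r e, ?_, ?_, g' x₀, fun x hx => ?_⟩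
  · rw [hpt]; exact hr.trans h1
  · intro x hx
    rw [hpt] at hx
    have h7 := h2 x (hr hx)
    exact ⟨(hT x).1.trans h7.1, (hT x).2.trans h7.2⟩
  · have h8 : x ∈ pt e j := glue_subset_right hij hr hx
    have h9 : x ∈ pt r (i : WithTop K) := by
      have := pt_anti _ hij hx
      rwa [hpt] at this
    rw [h5 x h8]
    exact Fin.ext ((hrk h9).trans (hrk hx₀).symm)

end Pool.Agent.GPA
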