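import Pool.Agent.GPA.FrontS
import Pool.Agent.GPA.XDefs

/-!
# The front lemma in the form of block X
-/

open MeasureTheory Set Filter Topology
open scoped ENNReal

namespace Pool.Agent.GPA

variable {K : Type} [LinearOrder K] [WellFoundedLT K]

/-- The front lemma for dense sets, with open sets: every branch of the pure extension has a node
above which it is included in one member of the countable set `C ⊆ D`. -/
theorem front_open (H : BlockP K) {i : K} {j : WithTop K}
    (hj : ∀ b : K, (b : WithTop K) < j ↔ b ≤ i) {D : Set (Cond K)} (hD : DenseL j D)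
    (c p : Cond K) (hp : pt p (i : WithTop K) ⊆ pt c (i : WithTop K)) :
    ∃ e, pt e (i : WithTop K) ⊆ pt p (i : WithTop K) ∧ Pure i e c ∧
      ∃ C : Set (Cond K), C.Countable ∧ C ⊆ D ∧ ∀ x ∈ pt e (i : WithTop K), ∀ β ∈ (e.T i).br x,
        ∃ n, ((e.T i).s x).length ≤ n ∧ ∃ d ∈ C, ∀ β' ∈ (e.T i).br x, pre β' n = pre β n →
          upd i x β' ∈ pt d j := by
  obtain ⟨e, h1, h2, C, h3, h4, h5⟩ := frontS hj (H.dec i) (H.sig i) (H.cov i) D hD c p hp
  refine ⟨e, h1, h2, C, h3, h4, fun x hx β hβ => ?_⟩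
  obtain ⟨k, d, hd, h6⟩ := h5 (upd i x β) ((upd_mem_pt_next hj).2 ⟨hx, hβ⟩)
  refine ⟨max k ((e.T i).s x).length, le_max_right _ _, d, hd, fun β' hβ' hpre => ?_⟩
  refine h6 (upd i x β') ((upd_mem_pt_next hj).2 ⟨hx, hβ'⟩)
    ((agr_upd i x β').trans (agr_upd i x β).symm) ?_
  rw [upd_self, upd_self]
  exact pre_eq_mono (le_max_left _ _) hpre

/-- Pure decision of a finite partition. -/
theorem pure_dec (H : BlockP K) {i : K} {j : WithTop K}
    (hj : ∀ b : K, (b : WithTop K) < j ↔ b ≤ i) {n : ℕ} (g : Pt K → Fin n)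
    (hg : ∀ v, MeasurableSet {y | g y = v}) (hd : Det j g)
    (c p : Cond K) (_hp : pt p (i : WithTop K) ⊆ pt c (i : WithTop K)) :
    ∃ e, pt e (i : WithTop K) ⊆ pt p (i : WithTop K) ∧ Pure i e c ∧
      ∃ v, ∀ y ∈ pt e j, g y = v := by
  refine frontG_const hj (H.dec i) (H.sig i) (H.cov i) g ?_ c p
  intro r
  obtain ⟨k, e, he, hk⟩ := H.sig j (fun k => {x | (g x : ℕ) = k})
    (fun k => by
      have : {x | (g x : ℕ) = k} = ⋃ v : Fin n, ⋃ _ : (v : ℕ) = k, {x | g x = v} := by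
        ext x
        simp only [mem_ofPred_eq, mem_iUnion, exists_prop]
        constructor
        · intro h
          exact ⟨_, h, rfl⟩
        · rintro ⟨v, h, h'⟩
          rw [h']
          exact h
      rw [this]
      exact MeasurableSet.iUnion fun v => MeasurableSet.iUnion fun _ => hg v)
    (fun k => hd.map fun v => (v : ℕ) = k) r (fun x _ => mem_iUnion.2 ⟨(g x : ℕ), rfl⟩)
  obtain ⟨x₀, hx₀⟩ := pt_nonempty e j
  exact ⟨e, ⟨g x₀, fun x hx => Fin.ext ((hk hx).trans (hk hx₀).symm)⟩, he⟩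

end Pool.Agent.GPA
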