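import Pool.Agent.GPA.Fusion
import Pool.Agent.GPA.Front

/-!
# Fusion with the labelling of the nodes
-/

open Set

namespace Pool.Agent.GPA

namespace Fusion

variable {S : Type} [Countable S]
variable (nod : S → List ℕ) (Init : S → Prop) (R : S → S → Prop)

/-- The labels of the nodes of the fusion. -/
theorem exists_label {s : List ℕ} {G : Set S} (h0 : ∃ σ, Init σ ∧ nod σ = s ∧ σ ∈ G)
    (h1 : ∀ σ ∈ G, ∀ k : ℕ, ∃ m, k ≤ m ∧ ∃ τ ∈ G, R σ τ ∧ nod τ = m :: nod σ) :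
    (∃ σ, st nod Init R s G s = some σ ∧ Init σ) ∧
    ∀ t, nd s (WW nod Init R s G) t → ∃ σ, st nod Init R s G t = some σ ∧ σ ∈ G ∧ nod σ = t ∧
      ∀ m ∈ WW nod Init R s G t, ∃ τ, st nod Init R s G (m :: t) = some τ ∧ τ ∈ G ∧
        nod τ = m :: t ∧ R σ τ := by
  classical
  obtain ⟨σ0, hσ0⟩ := exists_pick (A := {σ | Init σ ∧ nod σ = s ∧ σ ∈ G}) h0
  have hσ0' := (pick_eq_some.1 hσ0).1
  have hst : st nod Init R s G s = some σ0 := by rw [st_self]; exact hσ0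
  -- the successors of a labelled node
  have hstep : ∀ t σ, s.length ≤ t.length → st nod Init R s G t = some σ → σ ∈ G → nod σ = t →
      ∀ m ∈ WW nod Init R s G t, ∃ τ, st nod Init R s G (m :: t) = some τ ∧ τ ∈ G ∧
        nod τ = m :: t ∧ R σ τ := by
    intro t σ hl hs hσ hn m hm
    have hinf : (W0 nod Init R s G t).Infinite := by
      refine infinite_of_forall_exists_ge fun k' => ?_
      obtain ⟨m, hm, τ, hτ, hR, hnod⟩ := h1 σ hσ k'
      refine ⟨m, ?_, hm⟩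
      show (nextSet nod R G _ _).Nonempty
      rw [hs]
      exact ⟨τ, hR, by rw [hnod, hn], hτ⟩
    have hW : WW nod Init R s G t = W0 nod Init R s G t := by
      unfold WW
      rw [if_pos hinf]
    rw [hW] at hm
    obtain ⟨τ, hτ⟩ := exists_pick hm
    have h2 := (pick_eq_some.1 hτ).1
    rw [hs] at h2
    have hne : s ≠ m :: t := by
      intro h
      have := congrArg List.length h
      rw [List.length_cons] at this
      omega
    refine ⟨τ, ?_, h2.2.2, h2.2.1, h2.1⟩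
    rw [st_cons nod Init R hne]
    exact hτ
  refine ⟨⟨σ0, hst, hσ0'.1⟩, fun t => ?_⟩
  induction t with
  | nil =>
    intro ht
    have ht' : s = [] := ht
    have h2 : st nod Init R s G [] = some σ0 := ht' ▸ hst
    refine ⟨σ0, h2, hσ0'.2.2, by rw [hσ0'.2.1, ht'], ?_⟩
    exact hstep [] σ0 (by rw [ht']) h2 hσ0'.2.2 (by rw [hσ0'.2.1, ht'])
  | cons m t ih =>
    rintro (ht | ⟨ht, hm⟩)
    · have h2 : st nod Init R s G (m :: t) = some σ0 := ht ▸ hst
      refine ⟨σ0, h2, hσ0'.2.2, by rw [hσ0'.2.1, ht], ?_⟩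
      exact hstep _ σ0 (by rw [ht]) h2 hσ0'.2.2 (by rw [hσ0'.2.1, ht])
    · obtain ⟨σ, -, -, -, h5⟩ := ih ht
      obtain ⟨τ, h6, h7, h8, -⟩ := h5 m hm
      refine ⟨τ, h6, h7, h8, ?_⟩
      exact hstep _ τ ((ht.length_le).trans (by simp)) h6 h7 h8

end Fusion

open Fusion in
/-- **Fusion with labels.** -/
theorem fusion_lab {K : Type} [LinearOrder K] {S : Type} [Countable S] (a : K) (nod : S → List ℕ)
    (Init : S → Prop) (R : S → S → Prop) (s : Pt K → List ℕ)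
    (hs : ∀ t, MeasurableSet {x | s x = t}) (hsd : Det (a : WithTop K) s) (V : S → Set (Pt K))
    (hV : ∀ σ, MeasurableSet (V σ)) (hVd : ∀ σ, Det (a : WithTop K) fun x => x ∈ V σ) :
    ∃ (T : MT K) (L : List ℕ → Pt K → Option S), DT (a : WithTop K) T ∧ (∀ x, T.s x = s x) ∧
      (∀ t o, MeasurableSet {x | L t x = o}) ∧ (∀ t, Det (a : WithTop K) (L t)) ∧
      ∀ x, (∃ σ, Init σ ∧ nod σ = s x ∧ x ∈ V σ) →
        (∀ σ, x ∈ V σ → ∀ k : ℕ, ∃ m, k ≤ m ∧ ∃ τ, x ∈ V τ ∧ R σ τ ∧ nod τ = m :: nod σ) →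
        (∃ σ, L (s x) x = some σ ∧ Init σ) ∧
        ∀ t, T.nd x t → ∃ σ, L t x = some σ ∧ x ∈ V σ ∧ nod σ = t ∧
          ∀ m ∈ T.W x t, ∃ τ, L (m :: t) x = some τ ∧ x ∈ V τ ∧ nod τ = m :: t ∧ R σ τ := by
  have hcongr : ∀ x y : Pt K, Agr (a : WithTop K) x y → s x = s y ∧ {σ | x ∈ V σ} = {σ | y ∈ V σ} := by
    intro x y hxy
    refine ⟨hsd x y hxy, ?_⟩
    ext σ
    exact iff_of_eq (hVd σ x y hxy)
  refine ⟨{ s := s
            W := fun x => WW nod Init R (s x) {σ | x ∈ V σ}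
            inf := fun x t => WW_infinite nod Init R _ _ t
            ms := hs
            mW := fun t m => measurableSet_WW nod Init R hs hV t m },
    fun t x => st nod Init R (s x) {σ | x ∈ V σ} t, ⟨hsd, ?_⟩, fun _ => rfl,
    fun t o => measurableSet_st nod Init R hs hV t o, ?_, ?_⟩
  · intro x y hxy
    show WW nod Init R (s x) {σ | x ∈ V σ} = WW nod Init R (s y) {σ | y ∈ V σ}
    rw [(hcongr x y hxy).1, (hcongr x y hxy).2]
  · intro t x y hxy
    show st nod Init R (s x) {σ | x ∈ V σ} t = st nod Init R (s y) {σ | y ∈ V σ} t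
    rw [(hcongr x y hxy).1, (hcongr x y hxy).2]
  · intro x h0 h1
    exact exists_label nod Init R (G := {σ | x ∈ V σ}) h0 (fun σ hσ k => by
      obtain ⟨m, hm, τ, h2, h3, h4⟩ := h1 σ hσ k
      exact ⟨m, hm, τ, h2, h3, h4⟩)

end Pool.Agent.GPA
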