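import Pool.Agent.GPA.Tool
import Pool.Agent.GPA.FrontDefs

/-!
# Fusion at one coordinate

If every condition has densely a pure extension with the property `P n`, for every `n`, then every
condition has a pure extension which is labelled: at the node `t` there are labels `L 0 t x`,
`L 1 t x`, ... with decreasing trees of stem `t`, where `L r t x` has the property `P (r + |t|)`,
and all but finitely many children of `t` are below the label `L R t x`.
-/

open Set Filter

namespace Pool.Agent.GPA

namespace Fus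

variable {K : Type} {α β : Type*}

/-- Composition of measurable choices. -/
theorem CM_bind {f : Pt K → α} (hf : CM f) {g : α → Pt K → β} (hg : ∀ c, CM (g c)) :
    CM (fun x => g (f x) x) := by
  refine ⟨?_, fun b => hf.rel (R := fun a x => g a x = b) fun a => (hg a).2 b⟩
  refine (hf.1.biUnion (t := fun a _ => range (g a)) fun a _ => (hg a).1).mono ?_
  rintro _ ⟨x, rfl⟩
  exact mem_iUnion₂.2 ⟨f x, ⟨x, rfl⟩, ⟨x, rfl⟩⟩

variable [LinearOrder K]

theorem Det_bind {i : WithTop K} {f : Pt K → α} (hf : Det i f) {g : α → Pt K → β}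
    (hg : ∀ c, Det i (g c)) : Det i (fun x => g (f x) x) := by
  intro x y h
  show g (f x) x = g (f y) y
  rw [hf x y h]
  exact hg _ x y h

/-- The condition `d` with its tree at the coordinate `i` cut to the node `t`. -/
noncomputable def rst (i : K) (d : Cond K) (t : List ℕ) : Cond K :=
  d.upd i ((d.T i).restem t) (by
    classical
    intro x y h
    show (if (d.T i).nd x t then t else (d.T i).s x) = (if (d.T i).nd y t then t else (d.T i).s y)
    rw [d.ds i x y h]
    by_cases h1 : (d.T i).nd x t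
    · rw [if_pos h1, if_pos ((d.nd_congr h t).1 h1)]
    · rw [if_neg h1, if_neg fun h2 => h1 ((d.nd_congr h t).2 h2)]) (d.dW i)

theorem rst_T (i : K) (d : Cond K) (t : List ℕ) : (rst i d t).T i = (d.T i).restem t := by
  classical
  show Function.update d.T i _ i = _
  rw [Function.update_self]

theorem rst_T_ne (i : K) (d : Cond K) (t : List ℕ) {b : K} (h : b ≠ i) :
    (rst i d t).T b = d.T b := by
  classical
  show Function.update d.T i _ b = _
  rw [Function.update_of_ne h]

theorem pt_rst (i : K) (d : Cond K) (t : List ℕ) :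
    pt (rst i d t) (i : WithTop K) = pt d (i : WithTop K) := by
  ext x
  refine forall₂_congr fun a ha => ?_
  rw [rst_T_ne i d t (WithTop.coe_lt_coe.1 ha).ne]

/-- The first condition in the enumeration `en` which is a pure extension of `d` with the property
`P` at the point `x`. -/
noncomputable def imp (i : K) (P : Cond K → Prop) (en : ℕ → Cond K) (d : Cond K) (x : Pt K) :
    Cond K :=
  en (sInf {k | x ∈ pt (en k) (i : WithTop K) ∧ Pure i (en k) d ∧ P (en k)})

theorem imp_CM (i : K) (P : Cond K → Prop) (en : ℕ → Cond K) (d : Cond K) :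
    CM (imp i P en d) := by
  refine CM.map (CM.find fun n => ?_) en
  exact (measurableSet_pt _ _).inter (MeasurableSet.const _)

theorem imp_Det (i : K) (P : Cond K → Prop) (en : ℕ → Cond K) (d : Cond K) :
    Det (i : WithTop K) (imp i P en d) := by
  intro x y h
  unfold imp
  congr 2
  ext k
  simp only [mem_ofPred_eq]
  rw [mem_pt_congr (en k) h]

/-- The sequence of labels which starts from the label `b x` at a node of length `n`. -/
noncomputable def seq (i : K) (P : ℕ → Cond K → Prop) (en : ℕ → Cond K) (b : Pt K → Cond K)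
    (n : ℕ) : ℕ → Pt K → Cond K
  | 0 => fun x => imp i (P n) en (b x) x
  | r + 1 => fun x => imp i (P (r + 1 + n)) en (seq i P en b n r x) x

/-- The digits of the children. -/
noncomputable def dgs (i : K) (F : ℕ → Pt K → Cond K) (t : List ℕ) : ℕ → Pt K → ℕ
  | 0 => fun x => sInf (((F 0 x).T i).W x t)
  | r + 1 => fun x => sInf {m | m ∈ ((F (r + 1) x).T i).W x t ∧ dgs i F t r x < m}

/-- The index of a child. -/
noncomputable def idx (i : K) (F : ℕ → Pt K → Cond K) (t : List ℕ) (m : ℕ) (x : Pt K) : ℕ :=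
  sInf {r | dgs i F t r x = m}

/-- The labels. -/
noncomputable def lab (i : K) (P : ℕ → Cond K → Prop) (en : ℕ → Cond K) (c : Cond K) :
    List ℕ → ℕ → Pt K → Cond K
  | [] => seq i P en (fun _ => c) 0
  | m :: t => seq i P en (by
      classical
      exact fun x => if (c.T i).s x = m :: t then c else
        rst i (lab i P en c t (idx i (lab i P en c t) t m x) x) (m :: t)) (t.length + 1)

/-- The label at the start. -/
noncomputable def bas (i : K) (P : ℕ → Cond K → Prop) (en : ℕ → Cond K) (c : Cond K) :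
    List ℕ → Pt K → Cond K
  | [] => fun _ => c
  | m :: t => by
      classical
      exact fun x => if (c.T i).s x = m :: t then c else
        rst i (lab i P en c t (idx i (lab i P en c t) t m x) x) (m :: t)

theorem lab_eq (i : K) (P : ℕ → Cond K → Prop) (en : ℕ → Cond K) (c : Cond K) (t : List ℕ) :
    lab i P en c t = seq i P en (bas i P en c t) t.length := by
  cases t with
  | nil => rfl
  | cons m t => rfl

section meas

variable {i : K} {P : ℕ → Cond K → Prop} {en : ℕ → Cond K}

theorem seq_CM {b : Pt K → Cond K} (hb : CM b) (n r : ℕ) : CM (seq i P en b n r) := by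
  induction r with
  | zero => exact CM_bind hb fun d => imp_CM i (P n) en d
  | succ r ih => exact CM_bind ih fun d => imp_CM i (P (r + 1 + n)) en d

theorem seq_Det {b : Pt K → Cond K} (hb : Det (i : WithTop K) b) (n r : ℕ) :
    Det (i : WithTop K) (seq i P en b n r) := by
  induction r with
  | zero => exact Det_bind hb fun d => imp_Det i (P n) en d
  | succ r ih => exact Det_bind ih fun d => imp_Det i (P (r + 1 + n)) en d

theorem dgs_CM {F : ℕ → Pt K → Cond K} (hF : ∀ r, CM (F r)) (t : List ℕ) (r : ℕ) :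
    CM (dgs i F t r) := by
  induction r with
  | zero =>
    refine CM.find (P := fun n x => n ∈ ((F 0 x).T i).W x t) fun n => ?_
    exact (hF 0).rel (R := fun d x => n ∈ (d.T i).W x t) fun d => (d.T i).mW t n
  | succ r ih =>
    refine CM.find (P := fun n x => n ∈ ((F (r + 1) x).T i).W x t ∧ dgs i F t r x < n) fun n => ?_
    refine MeasurableSet.inter ?_ ?_
    · exact (hF (r + 1)).rel (R := fun d x => n ∈ (d.T i).W x t) fun d => (d.T i).mW t n
    · exact ih.rel (R := fun k _ => k < n) fun k => MeasurableSet.const _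

theorem dgs_Det {F : ℕ → Pt K → Cond K} (hF : ∀ r, Det (i : WithTop K) (F r)) (t : List ℕ)
    (r : ℕ) : Det (i : WithTop K) (dgs i F t r) := by
  induction r with
  | zero =>
    intro x y h
    show sInf (((F 0 x).T i).W x t) = sInf (((F 0 y).T i).W y t)
    rw [hF 0 x y h, (F 0 y).dW i x y h]
  | succ r ih =>
    intro x y h
    show sInf {m | m ∈ ((F (r + 1) x).T i).W x t ∧ dgs i F t r x < m} =
      sInf {m | m ∈ ((F (r + 1) y).T i).W y t ∧ dgs i F t r y < m}
    rw [hF (r + 1) x y h, (F (r + 1) y).dW i x y h, ih x y h]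

theorem idx_CM {F : ℕ → Pt K → Cond K} (hF : ∀ r, CM (F r)) (t : List ℕ) (m : ℕ) :
    CM (idx i F t m) := by
  refine CM.find (P := fun r x => dgs i F t r x = m) fun r => ?_
  exact (dgs_CM hF t r).2 m

theorem idx_Det {F : ℕ → Pt K → Cond K} (hF : ∀ r, Det (i : WithTop K) (F r)) (t : List ℕ)
    (m : ℕ) : Det (i : WithTop K) (idx i F t m) := by
  intro x y h
  unfold idx
  congr 1
  ext r
  simp only [mem_ofPred_eq]
  rw [dgs_Det hF t r x y h]

theorem bas_CM_Det (c : Cond K) (t : List ℕ) :
    (CM (bas i P en c t) ∧ Det (i : WithTop K) (bas i P en c t)) ∧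
      ∀ r, CM (lab i P en c t r) ∧ Det (i : WithTop K) (lab i P en c t r) := by
  classical
  have key : ∀ {t}, CM (bas i P en c t) ∧ Det (i : WithTop K) (bas i P en c t) →
      (CM (bas i P en c t) ∧ Det (i : WithTop K) (bas i P en c t)) ∧
      ∀ r, CM (lab i P en c t r) ∧ Det (i : WithTop K) (lab i P en c t r) := by
    intro t h
    refine ⟨h, fun r => ?_⟩
    rw [lab_eq]
    exact ⟨seq_CM h.1 _ r, seq_Det h.2 _ r⟩
  induction t with
  | nil => exact key ⟨CM.const c, Det.const _ c⟩
  | cons m t ih =>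
    obtain ⟨-, ih⟩ := ih
    have h1 : CM (fun x => lab i P en c t (idx i (lab i P en c t) t m x) x) :=
      CM_bind (idx_CM (fun r => (ih r).1) t m) fun r => (ih r).1
    have h2 : Det (i : WithTop K) (fun x => lab i P en c t (idx i (lab i P en c t) t m x) x) :=
      Det_bind (idx_Det (fun r => (ih r).2) t m) fun r => (ih r).2
    refine key ⟨?_, ?_⟩
    · exact CM.ite ((c.T i).ms _) (CM.const c) (h1.map fun d => rst i d (m :: t))
    · intro x y h
      show (if (c.T i).s x = m :: t then c else
          rst i (lab i P en c t (idx i (lab i P en c t) t m x) x) (m :: t)) =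
        (if (c.T i).s y = m :: t then c else
          rst i (lab i P en c t (idx i (lab i P en c t) t m y) y) (m :: t))
      have h3 : lab i P en c t (idx i (lab i P en c t) t m x) x =
        lab i P en c t (idx i (lab i P en c t) t m y) y := h2 x y h
      rw [c.ds i x y h, h3]

end meas

/-- The digits are strictly increasing. -/
theorem dgs_mem_zero (i : K) (F : ℕ → Pt K → Cond K) (t : List ℕ) (x : Pt K) :
    dgs i F t 0 x ∈ ((F 0 x).T i).W x t :=
  Nat.sInf_mem (((F 0 x).T i).inf x t).nonempty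

theorem dgs_mem_succ (i : K) (F : ℕ → Pt K → Cond K) (t : List ℕ) (x : Pt K) (r : ℕ) :
    dgs i F t (r + 1) x ∈ ((F (r + 1) x).T i).W x t ∧ dgs i F t r x < dgs i F t (r + 1) x := by
  have h : {m | m ∈ ((F (r + 1) x).T i).W x t ∧ dgs i F t r x < m}.Nonempty := by
    obtain ⟨m, hm, hlt⟩ := (((F (r + 1) x).T i).inf x t).exists_gt (dgs i F t r x)
    exact ⟨m, hm, hlt⟩
  exact Nat.sInf_mem h

theorem dgs_mem (i : K) (F : ℕ → Pt K → Cond K) (t : List ℕ) (x : Pt K) (r : ℕ) :
    dgs i F t r x ∈ ((F r x).T i).W x t := by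
  cases r with
  | zero => exact dgs_mem_zero i F t x
  | succ r => exact (dgs_mem_succ i F t x r).1

theorem dgs_strictMono (i : K) (F : ℕ → Pt K → Cond K) (t : List ℕ) (x : Pt K) :
    StrictMono fun r => dgs i F t r x :=
  strictMono_nat_of_lt_succ fun r => (dgs_mem_succ i F t x r).2

theorem idx_dgs (i : K) (F : ℕ → Pt K → Cond K) (t : List ℕ) (x : Pt K) (r : ℕ) :
    idx i F t (dgs i F t r x) x = r := by
  have h : (idx i F t (dgs i F t r x) x) ∈ {r' | dgs i F t r' x = dgs i F t r x} :=
    Nat.sInf_mem ⟨r, rfl⟩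
  exact (dgs_strictMono i F t x).injective h

/-- The fused tree. -/
noncomputable def ft (i : K) (P : ℕ → Cond K → Prop) (en : ℕ → Cond K) (c : Cond K) : MT K where
  s := (c.T i).s
  W x t := range fun r => dgs i (lab i P en c t) t r x
  inf x t := infinite_range_of_injective (dgs_strictMono i _ t x).injective
  ms := (c.T i).ms
  mW t m := by
    have : {x | m ∈ range fun r => dgs i (lab i P en c t) t r x} =
        ⋃ r, {x | dgs i (lab i P en c t) t r x = m} := by
      ext x
      simp only [mem_ofPred_eq, mem_iUnion, mem_range]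
    rw [this]
    exact MeasurableSet.iUnion fun r => (dgs_CM (fun r => ((bas_CM_Det c t).2 r).1) t r).2 m

section main

variable {i : K} {P : ℕ → Cond K → Prop} {en : ℕ → Cond K} {c : Cond K} {N : Set Obj}

/-- The properties of `N` which are used. -/
structure NOk (i : K) (P : ℕ → Cond K → Prop) (en : ℕ → Cond K) (c : Cond K) (N : Set Obj) :
    Prop where
  enum : ∀ d : Cond K, Has N d ↔ ∃ k, en k = d
  hc : Has N c
  rst : ∀ (d : Cond K) (t : List ℕ), Has N d → Has N (rst i d t)
  imp : ∀ (n : ℕ) (d : Cond K), Has N d → ∀ x, Gen N (i : WithTop K) x →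
    x ∈ pt d (i : WithTop K) → ∃ e, Has N e ∧ x ∈ pt e (i : WithTop K) ∧ Pure i e d ∧ P n e

theorem imp_spec (hN : NOk i P en c N) (n : ℕ) {d : Cond K} (hd : Has N d) {x : Pt K}
    (hx : Gen N (i : WithTop K) x) (hxd : x ∈ pt d (i : WithTop K)) :
    Has N (imp i (P n) en d x) ∧ x ∈ pt (imp i (P n) en d x) (i : WithTop K) ∧
      ((imp i (P n) en d x).T i).s x = (d.T i).s x ∧
      ((imp i (P n) en d x).T i).Sub (d.T i) x ∧ P n (imp i (P n) en d x) := by
  obtain ⟨e, he, hxe, hp, hPe⟩ := hN.imp n d hd x hx hxd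
  obtain ⟨k, rfl⟩ := (hN.enum e).1 he
  have h : sInf {k | x ∈ pt (en k) (i : WithTop K) ∧ Pure i (en k) d ∧ P n (en k)} ∈
      {k | x ∈ pt (en k) (i : WithTop K) ∧ Pure i (en k) d ∧ P n (en k)} :=
    Nat.sInf_mem ⟨k, hxe, hp, hPe⟩
  obtain ⟨h1, h2, h3⟩ := h
  exact ⟨(hN.enum _).2 ⟨_, rfl⟩, h1, (h2 x h1).1, (h2 x h1).2, h3⟩

/-- The properties of the labels at a node. -/
structure LOk (i : K) (N : Set Obj) (c : Cond K) (t : List ℕ) (x : Pt K) (d : Cond K) : Prop where
  has : Has N d
  mem : x ∈ pt d (i : WithTop K)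
  stem : (d.T i).s x = t
  sub : (d.T i).Sub (c.T i) x

theorem seq_spec (hN : NOk i P en c N) {b : Pt K → Cond K} {t : List ℕ} {x : Pt K}
    (hx : Gen N (i : WithTop K) x) (hb : LOk i N c t x (b x)) (n r : ℕ) :
    LOk i N c t x (seq i P en b n r x) ∧ P (r + n) (seq i P en b n r x) ∧
      ((seq i P en b n r x).T i).Sub ((b x).T i) x := by
  induction r with
  | zero =>
    obtain ⟨h1, h2, h3, h4, h5⟩ := imp_spec hN n hb.has hx hb.mem
    refine ⟨⟨h1, h2, h3.trans hb.stem, h4.trans hb.sub⟩, ?_, h4⟩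
    rw [Nat.zero_add]
    exact h5
  | succ r ih =>
    obtain ⟨ih1, ih2, ih3⟩ := ih
    obtain ⟨h1, h2, h3, h4, h5⟩ := imp_spec hN (r + 1 + n) ih1.has hx ih1.mem
    exact ⟨⟨h1, h2, h3.trans ih1.stem, h4.trans ih1.sub⟩, h5, h4.trans ih3⟩

theorem seq_anti (hN : NOk i P en c N) {b : Pt K → Cond K} {t : List ℕ} {x : Pt K}
    (hx : Gen N (i : WithTop K) x) (hb : LOk i N c t x (b x)) (n : ℕ) {r r' : ℕ} (h : r ≤ r') :
    ((seq i P en b n r' x).T i).Sub ((seq i P en b n r x).T i) x := by
  induction r', h using Nat.le_induction with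
  | base => exact Sub.refl _ _
  | succ r' _ ih =>
    have h1 := (seq_spec hN hx hb n r').1
    exact (imp_spec hN (r' + 1 + n) h1.has hx h1.mem).2.2.2.1.trans ih

/-- The label of a node of the fused tree. -/
theorem bas_spec (hN : NOk i P en c N) {x : Pt K} (hx : Gen N (i : WithTop K) x)
    (hxc : x ∈ pt c (i : WithTop K)) : ∀ t, (ft i P en c).nd x t → LOk i N c t x (bas i P en c t x)
  | [], h => ⟨hN.hc, hxc, h, Sub.refl _ _⟩
  | m :: t, h => by
    classical
    by_cases hs : (c.T i).s x = m :: t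
    · have h1 : bas i P en c (m :: t) x = c := if_pos hs
      rw [h1]
      exact ⟨hN.hc, hxc, hs, Sub.refl _ _⟩
    · rcases h with h | ⟨h, r, hr⟩
      · exact absurd h hs
      have ih := bas_spec hN hx hxc t h
      have h1 : bas i P en c (m :: t) x =
          rst i (lab i P en c t (idx i (lab i P en c t) t m x) x) (m :: t) := if_neg hs
      have hr' : dgs i (lab i P en c t) t r x = m := hr
      have h2 : idx i (lab i P en c t) t m x = r := by
        rw [← hr']
        exact idx_dgs _ _ _ _ _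
      rw [h1, h2]
      have h3 : LOk i N c t x (lab i P en c t r x) := by
        rw [lab_eq]
        exact (seq_spec hN hx ih _ r).1
      have h4 : m ∈ ((lab i P en c t r x).T i).W x t := by
        rw [← hr']
        exact dgs_mem i (lab i P en c t) t x r
      have h5 : ((lab i P en c t r x).T i).nd x (m :: t) := by
        refine nd_cons ?_ h4
        have h6 := nd_self (((lab i P en c t r x).T i).s x) (((lab i P en c t r x).T i).W x)
        rw [h3.stem] at h6
        show GPA.nd (((lab i P en c t r x).T i).s x) (((lab i P en c t r x).T i).W x) t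
        rw [h3.stem]
        exact h6
      refine ⟨hN.rst _ _ h3.has, ?_, ?_, ?_⟩
      · rw [pt_rst]
        exact h3.mem
      · rw [rst_T]
        exact MT.restem_s _ h5
      · rw [rst_T]
        exact (MT.restem_sub _ _ _).trans h3.sub

theorem lab_spec (hN : NOk i P en c N) {x : Pt K} (hx : Gen N (i : WithTop K) x)
    (hxc : x ∈ pt c (i : WithTop K)) {t : List ℕ} (h : (ft i P en c).nd x t) (r : ℕ) :
    LOk i N c t x (lab i P en c t r x) ∧ P (r + t.length) (lab i P en c t r x) := by
  rw [lab_eq]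
  obtain ⟨h1, h2, -⟩ := seq_spec hN hx (bas_spec hN hx hxc t h) t.length r
  exact ⟨h1, h2⟩

theorem lab_anti (hN : NOk i P en c N) {x : Pt K} (hx : Gen N (i : WithTop K) x)
    (hxc : x ∈ pt c (i : WithTop K)) {t : List ℕ} (h : (ft i P en c).nd x t) {r r' : ℕ}
    (hr : r ≤ r') : ((lab i P en c t r' x).T i).Sub ((lab i P en c t r x).T i) x := by
  rw [lab_eq]
  exact seq_anti hN hx (bas_spec hN hx hxc t h) t.length hr

/-- The label of a child is below the label of the node with the index of the child. -/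
theorem lab_child (hN : NOk i P en c N) {x : Pt K} (hx : Gen N (i : WithTop K) x)
    (hxc : x ∈ pt c (i : WithTop K)) {t : List ℕ} (h : (ft i P en c).nd x t) (r r' : ℕ) :
    ((lab i P en c (dgs i (lab i P en c t) t r x :: t) r' x).T i).Sub
      ((lab i P en c t r x).T i) x := by
  classical
  set m := dgs i (lab i P en c t) t r x with hm
  have hnd : (ft i P en c).nd x (m :: t) := nd_cons h ⟨r, hm.symm⟩
  have h1 := (seq_spec hN hx (bas_spec hN hx hxc _ hnd) (m :: t).length r').2.2
  rw [← lab_eq] at h1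
  refine h1.trans ?_
  have hs : (c.T i).s x ≠ m :: t := by
    intro hs
    have h2 : ((c.T i).s x).length ≤ t.length := nd.length_le h
    rw [hs] at h2
    simp at h2
  have h3 : bas i P en c (m :: t) x =
      rst i (lab i P en c t (idx i (lab i P en c t) t m x) x) (m :: t) := if_neg hs
  have h4 : idx i (lab i P en c t) t m x = r := by
    rw [hm]
    exact idx_dgs _ _ _ _ _
  rw [h3, h4, rst_T]
  exact MT.restem_sub _ _ _

/-- The labels above the node `t` are below the first label at `t`. -/
theorem lab_above (hN : NOk i P en c N) {x : Pt K} (hx : Gen N (i : WithTop K) x)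
    (hxc : x ∈ pt c (i : WithTop K)) {t : List ℕ} (h : (ft i P en c).nd x t) :
    ∀ u, GPA.nd t ((ft i P en c).W x) u →
      ∀ r', ((lab i P en c u r' x).T i).Sub ((lab i P en c t 0 x).T i) x
  | [], hu, r' => by
    have : t = [] := hu
    subst this
    exact lab_anti hN hx hxc h (Nat.zero_le _)
  | m :: v, hu, r' => by
    rcases hu with hu | ⟨hv, r, hr⟩
    · subst hu
      exact lab_anti hN hx hxc h (Nat.zero_le _)
    · have hr' : dgs i (lab i P en c v) v r x = m := hr
      have h3 := lab_above hN hx hxc h v hv r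
      have hvn : (ft i P en c).nd x v := nd.trans h hv
      rw [← hr']
      exact (lab_child hN hx hxc hvn r r').trans h3

/-- A label of a node above `t` has the node in its tree. -/
theorem tree_sub (hN : NOk i P en c N) {x : Pt K} (hx : Gen N (i : WithTop K) x)
    (hxc : x ∈ pt c (i : WithTop K)) {t : List ℕ} (h : (ft i P en c).nd x t) :
    GPA.Sub t ((ft i P en c).W x) (((lab i P en c t 0 x).T i).s x)
      (((lab i P en c t 0 x).T i).W x) := by
  intro u hu
  have h1 := lab_above hN hx hxc h u hu 0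
  have h2 := (lab_spec hN hx hxc (nd.trans h hu) 0).1.stem
  refine h1 u ?_
  have h3 := nd_self (((lab i P en c u 0 x).T i).s x) (((lab i P en c u 0 x).T i).W x)
  rw [h2] at h3
  show GPA.nd (((lab i P en c u 0 x).T i).s x) (((lab i P en c u 0 x).T i).W x) u
  rw [h2]
  exact h3

end main

end Fus

variable {K : Type} [LinearOrder K]

/-- Club many `N` have the properties used in the fusion. -/
theorem Fus.club_nok {i : K} (hi : DecL (K := K) (i : WithTop K)) {P : ℕ → Cond K → Prop}
    (hP : ∀ n, ∀ c p : Cond K, pt p (i : WithTop K) ⊆ pt c (i : WithTop K) →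
      ∃ e, pt e (i : WithTop K) ⊆ pt p (i : WithTop K) ∧ Pure i e c ∧ P n e) (c : Cond K) :
    ∀ᶠ N in club, ∃ en : ℕ → Cond K, Fus.NOk i P en c N := by
  filter_upwards [club_const c, club_countable, club_map₂ (fun (d : Cond K) (t : List ℕ) =>
    Fus.rst i d t), club_type (List ℕ), club_type ℕ, gen_reflect hi (fun (u : ℕ × Cond K) e =>
    Pure i e u.2 ∧ P u.1 e), club_pair] with N h1 h2 h3 h4 h5 h6 h7
  have hc : {d : Cond K | Has N d}.Countable := by
    refine (h2.preimage (f := fun D : Cond K => (⟨_, D⟩ : Obj)) ?_)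
    intro D D' h
    exact eq_of_heq (Sigma.mk.inj h).2
  obtain ⟨en, hen⟩ := hc.exists_eq_range ⟨c, h1⟩
  refine ⟨en, fun d => ?_, h1, fun d t hd => h3 d t hd (h4 t), fun n d hd x hx hxd => ?_⟩
  · have : d ∈ {d : Cond K | Has N d} ↔ d ∈ range en := by rw [hen]
    exact this
  · obtain ⟨e, he, hxe, -, hp, hPe⟩ := h6 (n, d) d (h7 _ _ n d (h5 n) hd) hd
      (fun r hr => hP n d r hr) x hx hxd
    exact ⟨e, he, hxe, hp, hPe⟩

/-- **Fusion.** -/
theorem exists_fusion {i : K} (hi : DecL (K := K) (i : WithTop K))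
    (hgen : ∀ᶠ N in club, ∀ p : Cond K, Has N p → ∃ e : Cond K,
      pt e (i : WithTop K) ⊆ pt p (i : WithTop K) ∧ ∀ x ∈ pt e (i : WithTop K), Gen N i x)
    {P : ℕ → Cond K → Prop}
    (hP : ∀ n, ∀ c p : Cond K, pt p (i : WithTop K) ⊆ pt c (i : WithTop K) →
      ∃ e, pt e (i : WithTop K) ⊆ pt p (i : WithTop K) ∧ Pure i e c ∧ P n e)
    {c p : Cond K} (hpc : pt p (i : WithTop K) ⊆ pt c (i : WithTop K)) :
    ∃ e, pt e (i : WithTop K) ⊆ pt p (i : WithTop K) ∧ Pure i e c ∧
      ∃ L : List ℕ → ℕ → Pt K → Cond K, (∀ t r, CM (L t r)) ∧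
        (∀ t r, Det (i : WithTop K) (L t r)) ∧
        ∀ x ∈ pt e (i : WithTop K), ∀ t, (e.T i).nd x t →
          (∀ r, x ∈ pt (L t r x) (i : WithTop K) ∧ ((L t r x).T i).s x = t ∧
            P (r + t.length) (L t r x)) ∧
          GPA.Sub t ((e.T i).W x) t (((L t 0 x).T i).W x) ∧
          (∀ r r', r ≤ r' → ((L t r' x).T i).Sub ((L t r x).T i) x) ∧
          ∀ R, ∃ M, ∀ m ≥ M, m ∈ (e.T i).W x t →
            GPA.Sub (m :: t) ((e.T i).W x) t (((L t R x).T i).W x) := by
  classical
  obtain ⟨N, hNp, hNc, hN1, en, hN⟩ := club_exists_of_has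
    (P := fun N => (∀ p : Cond K, Has N p → ∃ e : Cond K,
      pt e (i : WithTop K) ⊆ pt p (i : WithTop K) ∧ ∀ x ∈ pt e (i : WithTop K), Gen N i x) ∧
      ∃ en : ℕ → Cond K, Fus.NOk i P en c N) (hgen.and (Fus.club_nok hi hP c)) p
  obtain ⟨e₀, he₀, hge⟩ := hN1 p hNp
  let T : MT K := Fus.ft i P en c
  have hTd : Det (i : WithTop K) T.W := by
    intro x y h
    funext t
    show (range fun r => Fus.dgs i (Fus.lab i P en c t) t r x) =
      range fun r => Fus.dgs i (Fus.lab i P en c t) t r y
    congr 1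
    funext r
    exact Fus.dgs_Det (fun r => ((Fus.bas_CM_Det c t).2 r).2) t r x y h
  let e : Cond K := e₀.upd i T (c.ds i) hTd
  have heT : e.T i = T := by
    show Function.update e₀.T i T i = _
    rw [Function.update_self]
  have hept : pt e (i : WithTop K) = pt e₀ (i : WithTop K) := by
    ext x
    refine forall₂_congr fun a ha => ?_
    have : e.T a = e₀.T a := Function.update_of_ne (WithTop.coe_lt_coe.1 ha).ne _ _
    rw [this]
  have hgx : ∀ x ∈ pt e (i : WithTop K), Gen N (i : WithTop K) x ∧ x ∈ pt c (i : WithTop K) := by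
    intro x hx
    rw [hept] at hx
    exact ⟨hge x hx, hpc (he₀ hx)⟩
  refine ⟨e, by rw [hept]; exact he₀, fun x hx => ⟨by rw [heT]; rfl, ?_⟩,
    fun t r => Fus.lab i P en c t r, fun t r => ((Fus.bas_CM_Det c t).2 r).1,
    fun t r => ((Fus.bas_CM_Det c t).2 r).2, fun x hx t ht => ?_⟩
  · obtain ⟨hx1, hx2⟩ := hgx x hx
    rw [heT]
    intro t ht
    have h1 := (Fus.lab_spec hN hx1 hx2 ht 0).1
    refine h1.sub t ?_
    have h3 := nd_self (((Fus.lab i P en c t 0 x).T i).s x) (((Fus.lab i P en c t 0 x).T i).W x)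
    rw [h1.stem] at h3
    show GPA.nd (((Fus.lab i P en c t 0 x).T i).s x) (((Fus.lab i P en c t 0 x).T i).W x) t
    rw [h1.stem]
    exact h3
  · obtain ⟨hx1, hx2⟩ := hgx x hx
    rw [heT] at ht ⊢
    have ht' : (Fus.ft i P en c).nd x t := ht
    have hsub : ∀ {t}, (Fus.ft i P en c).nd x t →
        GPA.Sub t (T.W x) t (((Fus.lab i P en c t 0 x).T i).W x) := by
      intro t ht
      have h := Fus.tree_sub hN hx1 hx2 ht
      rwa [(Fus.lab_spec hN hx1 hx2 ht 0).1.stem] at h
    refine ⟨fun r => ?_, hsub ht', fun r r' hr => Fus.lab_anti hN hx1 hx2 ht' hr, fun R => ?_⟩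
    · obtain ⟨h1, h2⟩ := Fus.lab_spec hN hx1 hx2 ht' r
      exact ⟨h1.mem, h1.stem, h2⟩
    · refine ⟨Fus.dgs i (Fus.lab i P en c t) t R x, fun m hm hmW => ?_⟩
      obtain ⟨r, hr⟩ := hmW
      have hr' : Fus.dgs i (Fus.lab i P en c t) t r x = m := hr
      subst hr'
      have hRr : R ≤ r := (Fus.dgs_strictMono i _ t x).le_iff_le.1 hm
      have hnd : (Fus.ft i P en c).nd x (Fus.dgs i (Fus.lab i P en c t) t r x :: t) :=
        nd_cons ht' ⟨r, rfl⟩
      have h1 := Fus.tree_sub hN hx1 hx2 hnd
      have h2 := (Fus.lab_child hN hx1 hx2 ht' r 0).trans (Fus.lab_anti hN hx1 hx2 ht' hRr)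
      have h3 : GPA.Sub _ _ (((Fus.lab i P en c t R x).T i).s x)
        (((Fus.lab i P en c t R x).T i).W x) := h1.trans h2
      rwa [(Fus.lab_spec hN hx1 hx2 ht' R).1.stem] at h3

end Pool.Agent.GPA
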