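import Pool.Agent.GPA.Cond
import Pool.Agent.GPA.Club

/-!
# Generic points: the definitions of block P

`DenseL j D`: the set `D` of conditions is dense at the level `j`.
`Gen N j x`: the point `x` is generic over `N` at the level `j`.
`GenExt N i j`: the extension of generic points from the level `i` to the level `j`.
`DecL j`, `SigL j`, `CovL j`: the decision property, its countable version and the covering
property at the level `j`.
-/

open Set Filter

namespace Pool.Agent.GPA

variable {K : Type} [LinearOrder K]

/-- The set `D` is dense at the level `j`. -/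
def DenseL (j : WithTop K) (D : Set (Cond K)) : Prop := ∀ p, ∃ e ∈ D, pt e j ⊆ pt p j

/-- The point `x` is generic over `N` at the level `j`. -/
def Gen (N : Set Obj) (j : WithTop K) (x : Pt K) : Prop :=
  ∀ D : Set (Cond K), Has N D → DenseL j D → ∃ e ∈ D, Has N e ∧ x ∈ pt e j

/-- Extension of generic points. If `B` is a measurable set of points which are generic at the level
`i`, and `f` is a measurable choice of conditions in `N` with `x ∈ pt (f x) i` for `x ∈ B`, then
there is a condition `q` such that every point `y ∈ B` which satisfies `q` at the coordinates from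
`i` to `j` is generic at the level `j` and satisfies `f y` up to the level `j`. -/
def GenExt (N : Set Obj) (i j : WithTop K) : Prop :=
  ∀ (B : Set (Pt K)) (f : Pt K → Cond K), MeasurableSet B → Det i (fun x => x ∈ B) → CM f →
    Det i f → (∀ x, Has N (f x)) → (∀ x ∈ B, Gen N i x ∧ x ∈ pt (f x) i) →
    ∃ q : Cond K, ∀ y ∈ B, (∀ a : K, i ≤ (a : WithTop K) → (a : WithTop K) < j →
      y a ∈ (q.T a).br y) → Gen N j y ∧ y ∈ pt (f y) j

/-- Every measurable set depending only on the coordinates below `j` is decided densely. -/
def DecL (j : WithTop K) : Prop :=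
  ∀ B : Set (Pt K), MeasurableSet B → Det j (fun x => x ∈ B) → ∀ p : Cond K,
    ∃ e : Cond K, pt e j ⊆ pt p j ∧ (pt e j ⊆ B ∨ Disjoint (pt e j) B)

/-- If countably many measurable sets cover a condition then one of them includes a condition. -/
def SigL (j : WithTop K) : Prop :=
  ∀ B : ℕ → Set (Pt K), (∀ n, MeasurableSet (B n)) → (∀ n, Det j (fun x => x ∈ B n)) →
    ∀ p : Cond K, pt p j ⊆ ⋃ n, B n → ∃ n, ∃ e : Cond K, pt e j ⊆ pt p j ∧ pt e j ⊆ B n

/-- Every condition is covered, after shrinking, by countably many members of each of countably many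
dense sets. -/
def CovL (j : WithTop K) : Prop :=
  ∀ D : ℕ → Set (Cond K), (∀ n, DenseL j (D n)) → ∀ p : Cond K, ∃ e : Cond K, pt e j ⊆ pt p j ∧
    ∃ C : ℕ → Set (Cond K), ∀ n, (C n).Countable ∧ C n ⊆ D n ∧ pt e j ⊆ ⋃ c ∈ C n, pt c j

end Pool.Agent.GPA
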