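import Pool.Agent.GPA.Read
import Pool.Agent.GPA.XDefs

/-!
# Interpretations

A sequence of names of the level `j` is interpreted at a lower level `l'`: there are conditions
`r m` with the same restriction to the level `l'` which decide the first `m` names. This is done
for countably many sequences at the same time, below a generic point of the level `l`.
-/

open Set Filter MeasureTheory
open scoped ENNReal

namespace Pool.Agent.GPA

variable {K : Type} [LinearOrder K] {E : Type}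

/-- The condition on the top of a list of choices. -/
def tp (p : Cond K) : List (Cond K × E) → Cond K
  | [] => p
  | a :: _ => a.1

/-- A list of choices which decides the names `c 0, c 1, ...`. -/
def OkL (j : WithTop K) (D : Set (Cond K)) (c : ℕ → Pt K → E) (Al : ℕ → E → Prop) (p : Cond K) :
    List (Cond K × E) → Prop
  | [] => True
  | a :: v => a.1 ∈ D ∧ pt a.1 j ⊆ pt (tp p v) j ∧ (∀ y ∈ pt a.1 j, c v.length y = a.2) ∧
      Al v.length a.2 ∧ OkL j D c Al p v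

omit [LinearOrder K] in
theorem length_hist {V : Type} (F : ℕ → Pt K → V) (x : Pt K) (n : ℕ) : (hist F x n).length = n := by
  induction n with
  | zero => rfl
  | succ n ih => exact congrArg Nat.succ ih

theorem OkL.step {j : WithTop K} {D : Set (Cond K)} {c : ℕ → Pt K → E} {Al : ℕ → E → Prop}
    {p : Cond K} {F : ℕ → Pt K → Cond K × E} {x : Pt K} : ∀ {n : ℕ}, OkL j D c Al p (hist F x n) →
    ∀ m < n, (F m x).1 ∈ D ∧ pt (F m x).1 j ⊆ pt p j ∧ (∀ y ∈ pt (F m x).1 j, c m y = (F m x).2) ∧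
      Al m (F m x).2 ∧ ∀ m' ≤ m, pt (F m x).1 j ⊆ pt (F m' x).1 j := by
  intro n
  induction n with
  | zero => exact fun _ m hm => absurd hm (Nat.not_lt_zero m)
  | succ n ih =>
    intro h m hm
    obtain ⟨h1, h2, h3, h4, h5⟩ := h
    rcases Nat.lt_succ_iff_lt_or_eq.1 hm with hm | rfl
    · exact ih h5 m hm
    · rw [length_hist] at h3 h4
      rcases m with _ | m
      · refine ⟨h1, h2, h3, h4, fun m' hm' => ?_⟩
        rw [Nat.le_zero.1 hm']
      · have h6 : pt (F (m + 1) x).1 j ⊆ pt (F m x).1 j := h2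
        obtain ⟨-, h7, -, -, h8⟩ := ih h5 m (Nat.lt_succ_self m)
        refine ⟨h1, h6.trans h7, h3, h4, fun m' hm' => ?_⟩
        rcases Nat.le_succ_iff.1 hm' with hm' | rfl
        · exact h6.trans (h8 m' hm')
        · exact subset_rfl

/-- The interpretation of one sequence of names: the conditions `r m` have the same points as `q`
at the level `l`, and `r m` decides the first `m` names. -/
structure Intp (l j : WithTop K) (D : Set (Cond K)) (Al : ℕ → E → Prop) (p : Cond K)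
    (c : ℕ → Pt K → E) (q : Cond K) (r : ℕ → Cond K) (d : ℕ → Pt K → E) : Prop where
  res : ∀ m, pt (r m) l = pt q l
  sub : ∀ m, pt (r m) j ⊆ pt p j
  cov : ∀ m, CovD j D (r m)
  cm : ∀ n, CM (d n)
  det : ∀ n, Det l (d n)
  al : ∀ n y, Al n (d n y)
  dec : ∀ m n, n < m → ∀ y ∈ pt (r m) j, c n y = d n y

variable [WellFoundedLT K]

/-- The interpretations of a sequence of names exist densely. -/
theorem exists_intp {l j : WithTop K} (hlj : l ≤ j)
    (hG : ∀ i₀ ≤ l, ∀ᶠ N in club, GenExt (K := K) N i₀ l) (hD : DecL (K := K) l)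
    (hS : SigL (K := K) j) {D : Set (Cond K)} (hDd : DenseL j D) {Al : ℕ → E → Prop}
    {p : Cond K} {c : ℕ → Pt K → E} (hc : ∀ n, CM (c n)) (hcd : ∀ n, Det j (c n))
    (hcA : ∀ n y, Al n (c n y)) {q₀ : Cond K} (hq : pt q₀ l ⊆ pt p l) :
    ∃ q : Cond K, pt q l ⊆ pt q₀ l ∧ ∃ (r : ℕ → Cond K) (d : ℕ → Pt K → E),
      Intp l j D Al p c q r d := by
  classical
  -- one more name is decided
  have hone : ∀ (n : ℕ) (r : Cond K), ∃ r' ∈ D, pt r' j ⊆ pt r j ∧ ∃ a, (∀ y ∈ pt r' j, c n y = a) ∧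
      Al n a := by
    intro n r
    obtain ⟨y₀⟩ : Nonempty (Pt K) := inferInstance
    obtain ⟨f, hf'⟩ := (hc n).1.exists_eq_range ⟨_, y₀, rfl⟩
    have hf : ∀ y, ∃ m, f m = c n y := fun y => by
      have : c n y ∈ range f := by rw [← hf']; exact ⟨y, rfl⟩
      exact this
    obtain ⟨m, r₁, h1, h2⟩ := hS (fun m => {y | c n y = f m}) (fun m => (hc n).2 (f m))
      (fun m x y hxy => by
        show (c n x = f m) = (c n y = f m)
        rw [hcd n x y hxy]) r (fun y _ => by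
        obtain ⟨m, hm⟩ := hf y
        exact mem_iUnion.2 ⟨m, hm.symm⟩)
    obtain ⟨r₂, h3, h4⟩ := hDd r₁
    obtain ⟨z, hz⟩ := pt_nonempty r₁ j
    refine ⟨r₂, h3, h4.trans h1, f m, fun y hy => h2 (h4 hy), ?_⟩
    have h5 : c n z = f m := h2 hz
    rw [← h5]
    exact hcA n z
  obtain ⟨e, he, F, hFc, hFd, hF⟩ := dsim hG hD
    (fun (v : List (Cond K × E)) e => OkL j D c Al p v ∧ pt e l ⊆ pt (tp p v) l)
    (by
      rintro v e ⟨hv, hev⟩ e' he'
      obtain ⟨r', h1, h2, a, h3, h4⟩ := hone v.length (Cond.glue l e' (tp p v))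
      have h5 : pt r' j ⊆ pt (tp p v) j := h2.trans (glue_sub hlj (he'.trans hev))
      refine ⟨r', ?_, (r', a), ⟨h1, h5, h3, h4, hv⟩, subset_rfl⟩
      refine (pt_subset_mono hlj h2).trans ?_
      rw [glue_level]) (e₀ := q₀) ⟨trivial, hq⟩
  have hF' : ∀ y ∈ pt e l, ∀ m, (F m y).1 ∈ D ∧ pt (F m y).1 j ⊆ pt p j ∧
      (∀ z ∈ pt (F m y).1 j, c m z = (F m y).2) ∧ Al m (F m y).2 ∧
      (∀ m' ≤ m, pt (F m y).1 j ⊆ pt (F m' y).1 j) ∧ y ∈ pt (F m y).1 l := by
    intro y hy m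
    obtain ⟨e', h1, h2, h3⟩ := hF y hy (m + 1)
    obtain ⟨h4, h5, h6, h7, h8⟩ := h2.step m (Nat.lt_succ_self m)
    exact ⟨h4, h5, h6, h7, h8, h3 h1⟩
  let r : ℕ → Cond K := fun m => Cond.mix l e (fun y => (F m y).1) ((hFc m).map Prod.fst)
    ((hFd m).map Prod.fst)
  let d : ℕ → Pt K → E := fun n y => if y ∈ pt e l then (F n y).2 else c n fun _ _ => 0
  have hr : ∀ m, ∀ y ∈ pt (r m) j, y ∈ pt e l ∧ y ∈ pt (F m y).1 j := by
    intro m y hy
    obtain ⟨h1, h2⟩ := (mem_pt_mix hlj).1 hy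
    refine ⟨h1, fun a ha => ?_⟩
    rcases lt_or_ge (a : WithTop K) l with h | h
    · exact (hF' y h1 m).2.2.2.2.2 a h
    · exact h2 a h ha
  refine ⟨e, he, r, d, ?_, ?_, ?_, ?_, ?_, ?_, ?_⟩
  · intro m
    ext y
    exact mem_pt_mix_of_le le_rfl
  · intro m y hy
    obtain ⟨h1, h2⟩ := hr m y hy
    exact (hF' y h1 m).2.1 h2
  · intro m
    refine ⟨D ∩ range (fun y => (F m y).1), ((hFc m).map Prod.fst).1.mono inter_subset_right,
      inter_subset_left, fun y hy => ?_⟩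
    obtain ⟨h1, h2⟩ := hr m y hy
    exact mem_iUnion₂.2 ⟨_, ⟨(hF' y h1 m).1, y, rfl⟩, h2⟩
  · intro n
    exact CM.ite (measurableSet_pt e l) ((hFc n).map Prod.snd) (CM.const _)
  · intro n x y hxy
    show (if x ∈ pt e l then (F n x).2 else _) = (if y ∈ pt e l then (F n y).2 else _)
    rw [hFd n x y hxy, propext (mem_pt_congr e hxy)]
  · intro n y
    show Al n (if y ∈ pt e l then (F n y).2 else _)
    by_cases h : y ∈ pt e l
    · rw [if_pos h]
      exact (hF' y h n).2.2.2.1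
    · rw [if_neg h]
      exact hcA n _
  · intro m n hnm y hy
    obtain ⟨h1, h2⟩ := hr m y hy
    show c n y = if y ∈ pt e l then (F n y).2 else _
    rw [if_pos h1]
    exact (hF' y h1 n).2.2.1 y ((hF' y h1 m).2.2.2.2.1 n hnm.le h2)

/-- The interpretations of countably many sequences of names exist densely below a lower level. -/
theorem exists_intp_seq {l l' j : WithTop K} (hll : l ≤ l') (hlj : l' ≤ j)
    (hG : ∀ i₀ ≤ l, ∀ᶠ N in club, GenExt (K := K) N i₀ l) (hD : DecL (K := K) l)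
    (hG' : ∀ i₀ ≤ l', ∀ᶠ N in club, GenExt (K := K) N i₀ l') (hD' : DecL (K := K) l')
    (hS : SigL (K := K) j) {D : Set (Cond K)} (hDd : DenseL j D) {Al : ℕ → ℕ → E → Prop}
    {p : ℕ → Cond K} {c : ℕ → ℕ → Pt K → E} (hc : ∀ k n, CM (c k n))
    (hcd : ∀ k n, Det j (c k n)) (hcA : ∀ k n y, Al k n (c k n y)) {e₀ : Cond K}
    (he : ∀ k, pt e₀ l ⊆ pt (p k) l) :
    ∃ e : Cond K, pt e l ⊆ pt e₀ l ∧ ∃ (q : ℕ → Cond K) (r : ℕ → ℕ → Cond K)
      (d : ℕ → ℕ → Pt K → E), (∀ k, pt e l ⊆ pt (q k) l) ∧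
        ∀ k, Intp l' j D (Al k) (p k) (c k) (q k) (r k) (d k) := by
  classical
  obtain ⟨e, he', F, hFc, hFd, hF⟩ := dsim_seq hG hD
    (fun k (a : Cond K × (ℕ → Cond K) × (ℕ → Pt K → E)) e' => pt e' l ⊆ pt a.1 l ∧
      Intp l' j D (Al k) (p k) (c k) a.1 a.2.1 a.2.2) (e₀ := e₀) (by
      intro k e' he'
      obtain ⟨q, h1, r, d, h2⟩ := exists_intp hlj hG' hD' hS hDd (hc k) (hcd k) (hcA k)
        (q₀ := Cond.glue l e' (p k)) (glue_sub hll (he'.trans (he k)))
      refine ⟨q, ?_, (q, r, d), subset_rfl, h2⟩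
      refine (pt_subset_mono hll h1).trans ?_
      rw [glue_level])
  have hF' : ∀ y ∈ pt e l, ∀ k, y ∈ pt (F k y).1 l ∧
      Intp l' j D (Al k) (p k) (c k) (F k y).1 (F k y).2.1 (F k y).2.2 := by
    intro y hy k
    obtain ⟨e', h1, h2, h3⟩ := hF y hy k
    exact ⟨h2 h1, h3⟩
  let q : ℕ → Cond K := fun k => Cond.mix l e (fun y => (F k y).1) ((hFc k).map fun a => a.1)
    ((hFd k).map fun a => a.1)
  let r : ℕ → ℕ → Cond K := fun k m => Cond.mix l e (fun y => (F k y).2.1 m)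
    ((hFc k).map fun a => a.2.1 m) ((hFd k).map fun a => a.2.1 m)
  let d : ℕ → ℕ → Pt K → E := fun k n y => if y ∈ pt e l ∧ CM ((F k y).2.2 n) then
    (F k y).2.2 n y else c k n fun _ _ => 0
  have hq : ∀ k y, y ∈ pt (q k) l' ↔ y ∈ pt e l ∧ y ∈ pt (F k y).1 l' := by
    intro k y
    rw [mem_pt_mix hll]
    refine and_congr_right fun h1 => ⟨fun h2 a ha => ?_, fun h2 a _ ha' => h2 a ha'⟩
    rcases lt_or_ge (a : WithTop K) l with h | h
    · exact (hF' y h1 k).1 a h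
    · exact h2 a h ha
  have hr : ∀ (i : WithTop K), l' ≤ i → ∀ k m y, y ∈ pt (r k m) i ↔
      y ∈ pt e l ∧ y ∈ pt ((F k y).2.1 m) i := by
    intro i hi k m y
    rw [mem_pt_mix (hll.trans hi)]
    refine and_congr_right fun h1 => ⟨fun h2 a ha => ?_, fun h2 a _ ha' => h2 a ha'⟩
    rcases lt_or_ge (a : WithTop K) l with h | h
    · obtain ⟨h3, h4⟩ := hF' y h1 k
      have h5 : pt ((F k y).2.1 m) l = pt (F k y).1 l := by
        have h6 := h4.res m
        exact (pt_subset_mono hll h6.subset).antisymm (pt_subset_mono hll h6.symm.subset)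
      have h7 : y ∈ pt ((F k y).2.1 m) l := by
        rw [h5]
        exact h3
      exact h7 a h
    · exact h2 a h ha
  refine ⟨e, he', q, r, d, fun k y hy => (mem_pt_mix_of_le le_rfl).2 hy, fun k =>
    ⟨?_, ?_, ?_, ?_, ?_, ?_, ?_⟩⟩
  · intro m
    ext y
    rw [hr l' le_rfl, hq]
    refine and_congr_right fun h1 => ?_
    rw [(hF' y h1 k).2.res m]
  · intro m y hy
    obtain ⟨h1, h2⟩ := (hr j hlj k m y).1 hy
    exact (hF' y h1 k).2.sub m h2
  · intro m
    have h0 : ∀ a : Cond K × (ℕ → Cond K) × (ℕ → Pt K → E), ∃ C : Set (Cond K), C.Countable ∧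
        C ⊆ D ∧ (CovD j D (a.2.1 m) → pt (a.2.1 m) j ⊆ ⋃ c ∈ C, pt c j) := by
      intro a
      by_cases h : CovD j D (a.2.1 m)
      · obtain ⟨C, h1, h2, h3⟩ := h
        exact ⟨C, h1, h2, fun _ => h3⟩
      · exact ⟨∅, countable_empty, empty_subset _, fun h' => (h h').elim⟩
    choose C hC1 hC2 hC3 using h0
    refine ⟨⋃ a ∈ range (F k), C a, (hFc k).1.biUnion fun a _ => hC1 a,
      iUnion₂_subset fun a _ => hC2 a, fun y hy => ?_⟩
    obtain ⟨h1, h2⟩ := (hr j hlj k m y).1 hy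
    obtain ⟨s, h3, h4⟩ := mem_iUnion₂.1 (hC3 (F k y) ((hF' y h1 k).2.cov m) h2)
    exact mem_iUnion₂.2 ⟨s, mem_iUnion₂.2 ⟨F k y, ⟨y, rfl⟩, h3⟩, h4⟩
  · intro n
    have h1 : ∀ a : Cond K × (ℕ → Cond K) × (ℕ → Pt K → E),
        CM (fun y => if y ∈ pt e l ∧ CM (a.2.2 n) then a.2.2 n y else c k n fun _ _ => 0) := by
      intro a
      by_cases h : CM (a.2.2 n)
      · exact CM.ite (P := fun y => y ∈ pt e l ∧ CM (a.2.2 n))
          ((measurableSet_pt e l).inter (MeasurableSet.const _)) h (CM.const _)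
      · have h2 : (fun y => if y ∈ pt e l ∧ CM (a.2.2 n) then a.2.2 n y else c k n fun _ _ => 0) =
            fun _ => c k n fun _ _ => 0 := by
          funext y
          rw [if_neg fun h' => h h'.2]
        rw [h2]
        exact CM.const _
    exact CM.bind (hFc k) h1
  · intro n x y hxy
    have h1 : F k x = F k y := hFd k x y (hxy.mono hll)
    show (if x ∈ pt e l ∧ CM ((F k x).2.2 n) then (F k x).2.2 n x else _) =
      (if y ∈ pt e l ∧ CM ((F k y).2.2 n) then (F k y).2.2 n y else _)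
    rw [h1, propext (mem_pt_congr e (hxy.mono hll))]
    by_cases h : y ∈ pt e l ∧ CM ((F k y).2.2 n)
    · rw [if_pos h, if_pos h]
      exact (hF' y h.1 k).2.det n x y hxy
    · rw [if_neg h, if_neg h]
  · intro n y
    show Al k n (if y ∈ pt e l ∧ CM ((F k y).2.2 n) then (F k y).2.2 n y else _)
    by_cases h : y ∈ pt e l ∧ CM ((F k y).2.2 n)
    · rw [if_pos h]
      exact (hF' y h.1 k).2.al n y
    · rw [if_neg h]
      exact hcA k n _
  · intro m n hnm y hy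
    obtain ⟨h1, h2⟩ := (hr j hlj k m y).1 hy
    have h3 := (hF' y h1 k).2
    show c k n y = if y ∈ pt e l ∧ CM ((F k y).2.2 n) then (F k y).2.2 n y else _
    rw [if_pos ⟨h1, h3.cm n⟩]
    exact h3.dec m n hnm y h2

/-- Interpretations in `N` at the generic points of the level `l`: a sequence of conditions `p k`
and of sequences of names `c k` of the level `j` is interpreted at the level `l'`. Here `Al a k n` is
the set of the values allowed for the name of index `n` of the sequence of index `k`, where `a` is a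
parameter. -/
def IntpP (N : Set Obj) (l l' j : WithTop K) {α : Type} (Al : α → ℕ → ℕ → E → Prop) : Prop :=
  ∀ (a : α) (p : ℕ → Cond K) (c : ℕ → Pt K → ℕ → E) (D : Set (Cond K)),
    Has N a → Has N p → Has N c → Has N D → DenseL j D → (∀ k n, CM fun y => c k y n) →
    (∀ k n, Det j fun y => c k y n) → (∀ k y n, Al a k n (c k y n)) →
    ∀ x, Gen N l x → (∀ k, x ∈ pt (p k) l) →
    ∃ (e : ℕ → Cond K) (r : ℕ → ℕ → Cond K) (d : ℕ → Pt K → ℕ → E),
      Has N e ∧ Has N r ∧ Has N d ∧ (∀ k, x ∈ pt (e k) l) ∧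
      (∀ k m, pt (r k m) l' = pt (e k) l') ∧ (∀ k m, pt (r k m) j ⊆ pt (p k) j) ∧
      (∀ k m, CovD j D (r k m)) ∧ (∀ k n, CM fun y => d k y n) ∧
      (∀ k n, Det l' fun y => d k y n) ∧ (∀ k y n, Al a k n (d k y n)) ∧
      ∀ k m n, n < m → ∀ y ∈ pt (r k m) j, c k y n = d k y n

/-- Interpretations exist in `N` for club many `N`. -/
theorem intpP_club {l l' j : WithTop K} (hll : l ≤ l') (hlj : l' ≤ j)
    (hG : ∀ i₀ ≤ l, ∀ᶠ N in club, GenExt (K := K) N i₀ l) (hD : DecL (K := K) l)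
    (hSl : SigL (K := K) l)
    (hG' : ∀ i₀ ≤ l', ∀ᶠ N in club, GenExt (K := K) N i₀ l') (hD' : DecL (K := K) l')
    (hS : SigL (K := K) j) {α : Type} (Al : α → ℕ → ℕ → E → Prop) :
    ∀ᶠ N in club, IntpP N l l' j Al := by
  filter_upwards [gen_inf hD hSl, gen_reflect_wit hD
    (fun (u : α × (ℕ → Cond K) × (ℕ → Pt K → ℕ → E) × Set (Cond K)) (e : Cond K)
      (v : (ℕ → Cond K) × (ℕ → ℕ → Cond K) × (ℕ → Pt K → ℕ → E)) =>
      (∀ k, pt e l ⊆ pt (v.1 k) l) ∧ ∀ k, Intp l' j u.2.2.2 (u.1 |> fun a => Al a k) (u.2.1 k)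
        (fun n y => u.2.2.1 k y n) (v.1 k) (v.2.1 k) (fun n y => v.2.2 k y n)), club_pair,
    club_map (fun v : (ℕ → Cond K) × (ℕ → ℕ → Cond K) × (ℕ → Pt K → ℕ → E) => v.1),
    club_map (fun v : (ℕ → Cond K) × (ℕ → ℕ → Cond K) × (ℕ → Pt K → ℕ → E) => v.2.1),
    club_map (fun v : (ℕ → Cond K) × (ℕ → ℕ → Cond K) × (ℕ → Pt K → ℕ → E) => v.2.2)]
    with N h1 h2 h3 h4 h5 h6 a p c D ha hp hc hDN hDd hcm hcd hcA x hx hxp
  obtain ⟨e₀, he₀N, hxe₀, he₀⟩ := h1 p hp x hx hxp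
  obtain ⟨e, ⟨q, r, d⟩, -, hv, hxe, -, h7, h8⟩ := h2 (a, p, c, D) e₀
    (h3 _ _ _ _ ha (h3 _ _ _ _ hp (h3 _ _ _ _ hc hDN))) he₀N (by
      intro r₀ hr₀
      obtain ⟨e, g1, q, r, d, g2, g3⟩ := exists_intp_seq hll hlj hG hD hG' hD' hS hDd (Al := Al a)
        (p := p) (c := fun k n y => c k y n) (fun k n => hcm k n) (fun k n => hcd k n)
        (fun k n y => hcA k y n) (e₀ := r₀) (fun k => hr₀.trans (he₀ k))
      exact ⟨e, g1, (q, r, fun k y n => d k n y), g2, g3⟩) x hx hxe₀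
  refine ⟨q, r, d, h4 _ hv, h5 _ hv, h6 _ hv, fun k => h7 k hxe, fun k m => (h8 k).res m,
    fun k m => (h8 k).sub m, fun k m => (h8 k).cov m, fun k n => (h8 k).cm n,
    fun k n => (h8 k).det n, fun k y n => (h8 k).al n y, fun k m n hnm y hy => ?_⟩
  exact (h8 k).dec m n hnm y hy

/-- Interpretations at all levels of `N`. -/
theorem intp_all (hA : ∀ j : WithTop K, Good (K := K) j) {α : Type}
    (Al : α → ℕ → ℕ → E → Prop) :
    ∀ᶠ N in club, ∀ l l' j : WithTop K, Has N l → Has N l' → Has N j → l ≤ l' → l' ≤ j →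
      IntpP N l l' j Al := by
  have h : ∀ᶠ N in club, ∀ u : WithTop K × WithTop K × WithTop K, Has N u →
      (u.1 ≤ u.2.1 → u.2.1 ≤ u.2.2 → IntpP N u.1 u.2.1 u.2.2 Al) := by
    refine club_diag fun u => ?_
    by_cases h : u.1 ≤ u.2.1 ∧ u.2.1 ≤ u.2.2
    · filter_upwards [intpP_club h.1 h.2 (hA u.1).1 (hA u.1).2.1 (hA u.1).2.2.1 (hA u.2.1).1
        (hA u.2.1).2.1 (hA u.2.2).2.2.1 Al] with N hN _ _
      exact hN
    · exact Eventually.of_forall fun N h1 h2 => (h ⟨h1, h2⟩).elim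
  filter_upwards [h, club_pair] with N h1 h2 l l' j hl hl' hj
  exact h1 (l, l', j) (h2 _ _ _ _ hl (h2 _ _ _ _ hl' hj))

/-- Interpretation of a task at a lower level. -/
theorem intp (H : BlockP K) {l l' j : WithTop K} (h : l ≤ l') (h' : l' ≤ j) :
    ∀ᶠ N in club, INTP (K := K) N l l' j := by
  filter_upwards [intpP_club h h' (fun i₀ hi => H.gen i₀ l hi) (H.dec l) (H.sig l)
    (fun i₀ hi => H.gen i₀ l' hi) (H.dec l') (H.sig j)
    (fun (a k n : ℕ) (v : Set (YS ℕ)) => IsCyl v ∧ coin ℕ v ≤ a * 4⁻¹ ^ (k + n)),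
    club_map (fun u : Task K => u.1), club_map (fun u : Task K => u.2.1),
    club_map (fun u : Task K => u.2.2)] with N h1 h2 h3 h4 u hu hT D hD hDd x hx hxp
  obtain ⟨e, r, d, h5, h6, h7, h8, h9, h10, h11, h12, h13, h14, h15⟩ := h1 u.2.2 u.1 u.2.1 D
    (h4 u hu) (h2 u hu) (h3 u hu) hD hDd (fun k n => (hT k).cm n)
    (fun k n y z hyz => congrFun ((hT k).det y z hyz) n)
    (fun k y n => ⟨(hT k).cyl y n, (hT k).le y n⟩) x hx hxp
  refine ⟨e, r, d, h5, h6, h7, fun k => ⟨h12 k, fun y z hyz => funext fun n => h13 k n y z hyz,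
    fun y n => (h14 k y n).1, fun y n => (h14 k y n).2⟩, h8, h9, h10, h11, fun k m n hnm y hy => ?_⟩
  exact (h15 k m n hnm y hy).symm

end Pool.Agent.GPA
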