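import Pool.Agent.GPA.Codes
import Pool.Agent.GPA.Intp
import Pool.Agent.GPA.Lim
import Pool.Agent.GPA.Suc

/-!
# The iteration of the extension theorem: composition and limits

The step lemma `Itx.step` extends from the level `l` to the level `l'` the points which satisfy the
conditions of a task of the level `j`, and chooses the index `k` of the task such that the pieces of
the open set of the `k`-th code which are decided at the level `l'` have small mass. The remaining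
pieces, together with the pieces of a code `w` of a null set, form a new task. The composition is
one step, the limit is a sequence of steps.
-/

open MeasureTheory Set Filter Topology
open scoped ENNReal

namespace Pool.Agent.GPA

variable {K : Type} [LinearOrder K]

/-- Every null name of `N` of the level `j` has a code in `N`. -/
def NullCode (N : Set Obj) (j : WithTop K) : Prop :=
  ∀ W : Set (Pt K × YS ℕ), Has N W → NullName j W →
    ∃ w : Pt K → ℕ → Set (YS ℕ), Has N w ∧ IsCode j 1 0 w ∧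
      ∀ x k, sec W x ⊆ ⋃ n, w x (n + k)

namespace Itx

/-- A measurable choice in `N`. -/
theorem choice {N : Set Obj} (hN : N.Countable) {l : WithTop K} {α : Type} {R : α → Pt K → Prop}
    (hR : ∀ v, MeasurableSet {x | R v x}) (hd : ∀ v, Det l (R v)) {v₀ : α} (h₀ : Has N v₀) :
    ∃ f : Pt K → α, CM f ∧ Det l f ∧ (∀ x, Has N (f x)) ∧
      ∀ x, ((∃ v, Has N v ∧ R v x) → R (f x) x) ∧ ((¬ ∃ v, Has N v ∧ R v x) → f x = v₀) := by
  classical
  obtain ⟨s, hs⟩ : ∃ s : ℕ → α, {v | Has N v} = range s := by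
    have hc : {v : α | Has N v}.Countable := by
      have hinj : Function.Injective (fun v : α => (⟨α, v⟩ : Obj)) := by
        intro a b hab
        simpa using hab
      exact hN.preimage hinj
    exact hc.exists_eq_range ⟨v₀, h₀⟩
  have hsN : ∀ n, Has N (s n) := fun n => by
    have : s n ∈ {v | Has N v} := by rw [hs]; exact ⟨n, rfl⟩
    exact this
  have hex : ∀ x, (∃ v, Has N v ∧ R v x) ↔ ∃ n, R (s n) x := by
    intro x
    constructor
    · rintro ⟨v, hv, hR⟩
      have : v ∈ range s := by rw [← hs]; exact hv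
      obtain ⟨n, rfl⟩ := this
      exact ⟨n, hR⟩
    · rintro ⟨n, hn⟩
      exact ⟨s n, hsN n, hn⟩
  have hm : MeasurableSet {x | ∃ n, R (s n) x} := by
    have : {x | ∃ n, R (s n) x} = ⋃ n, {x | R (s n) x} := by
      ext x
      simp
    rw [this]
    exact MeasurableSet.iUnion fun n => hR (s n)
  refine ⟨fun x => if ∃ n, R (s n) x then s (sInf {n | R (s n) x}) else v₀,
    CM.ite hm ((CM.find fun n => hR (s n)).map s) (CM.const v₀), ?_, ?_, ?_⟩
  · intro x y hxy
    have h1 : ∀ n, R (s n) x = R (s n) y := fun n => hd (s n) x y hxy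
    simp only [h1]
  · intro x
    dsimp only
    split
    · exact hsN _
    · exact h₀
  · intro x
    rw [hex]
    refine ⟨fun h => ?_, fun h => ?_⟩
    · dsimp only
      rw [if_pos h]
      exact Nat.sInf_mem (s := {n | R (s n) x}) h
    · dsimp only
      rw [if_neg h]

/-- The interpretation of a task: conditions `e k`, `r k m` and codes `d k`. -/
abbrev Cand (K : Type) [LinearOrder K] : Type :=
  (ℕ → Cond K) × (ℕ → ℕ → Cond K) × (ℕ → Pt K → ℕ → Set (YS ℕ))

/-- The trivial interpretation. -/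
def cand0 : Cand K := (fun _ => Cond.full, fun _ _ => Cond.full, fun _ _ _ => ∅)

theorem isCode_empty (j : WithTop K) (a k : ℕ) : IsCode (K := K) j a k fun _ _ => ∅ where
  cm _ := CM.const _
  det := Det.const _ _
  cyl _ _ := isCyl_empty
  le _ _ := by simp

/-- The task at the lower level. -/
def tk (u : Task K) (v : Cand K) : Task K := (v.1, v.2.2, u.2.2)

/-- The next task. -/
def nxt (w : Pt K → ℕ → Set (YS ℕ)) (u : Task K) (v : Cand K) (k : ℕ) : Task K :=
  (fun m => v.2.1 k (m + 1), fun m y n => u.2.1 k y (n + m + 1) ∪ w y (n + m + 1), u.2.2 + 1)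

theorem isTask_nxt {j : WithTop K} {w : Pt K → ℕ → Set (YS ℕ)} {u : Task K} (hu : IsTask j u)
    (hw : IsCode j 1 0 w) (v : Cand K) (k : ℕ) : IsTask j (nxt w u v k) := by
  intro m
  have h1 := hu k
  refine ⟨fun n => ?_, ?_, fun y n => ?_, fun y n => ?_⟩
  · exact (h1.cm (n + m + 1)).map₂ (hw.cm (n + m + 1)) fun s t => s ∪ t
  · intro x y hxy
    funext n
    show u.2.1 k x (n + m + 1) ∪ w x (n + m + 1) = u.2.1 k y (n + m + 1) ∪ w y (n + m + 1)
    rw [h1.det x y hxy, hw.det x y hxy]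
  · exact (h1.cyl y _).union (hw.cyl y _)
  · show coin ℕ (u.2.1 k y (n + m + 1) ∪ w y (n + m + 1)) ≤ ((u.2.2 + 1 : ℕ) : ℝ≥0∞) * 4⁻¹ ^ (m + n)
    have h2 := h1.le y (n + m + 1)
    have h3 := hw.le y (n + m + 1)
    have h4 : (4⁻¹ : ℝ≥0∞) ≤ 1 := by
      rw [ENNReal.inv_le_one]
      norm_num
    have h5 : (4⁻¹ : ℝ≥0∞) ^ (k + (n + m + 1)) ≤ 4⁻¹ ^ (m + n) :=
      pow_le_pow_right_of_le_one' h4 (by omega)
    have h6 : (4⁻¹ : ℝ≥0∞) ^ (0 + (n + m + 1)) ≤ 4⁻¹ ^ (m + n) :=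
      pow_le_pow_right_of_le_one' h4 (by omega)
    calc coin ℕ (u.2.1 k y (n + m + 1) ∪ w y (n + m + 1))
        ≤ coin ℕ (u.2.1 k y (n + m + 1)) + coin ℕ (w y (n + m + 1)) := measure_union_le _ _
      _ ≤ u.2.2 * 4⁻¹ ^ (m + n) + 1 * 4⁻¹ ^ (m + n) := by
          refine add_le_add (h2.trans ?_) (h3.trans ?_)
          · exact mul_le_mul' le_rfl h5
          · simpa using h6
      _ = ((u.2.2 + 1 : ℕ) : ℝ≥0∞) * 4⁻¹ ^ (m + n) := by
          push_cast
          rw [add_mul]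

/-- `v` interprets the task `u`. -/
structure Valid (l' j : WithTop K) (D : Set (Cond K)) (u : Task K) (v : Cand K) : Prop where
  task : IsTask l' (tk u v)
  eq : ∀ k m, pt (v.2.1 k m) l' = pt (v.1 k) l'
  sub : ∀ k m, pt (v.2.1 k m) j ⊆ pt (u.1 k) j
  cov : ∀ k m, CovD j D (v.2.1 k m)
  dec : ∀ k m n, n < m → ∀ y ∈ pt (v.2.1 k m) j, v.2.2 k y n = u.2.1 k y n

/-- The closure properties of `N`. -/
structure ItN (N : Set Obj) (j : WithTop K) : Prop where
  cnt : N.Countable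
  pair : ∀ (α β : Type) (u : α) (v : β), Has N u → Has N v → Has N (u, v)
  un : Has N (univ : Set (Cond K))
  em : Has N (fun _ _ => ∅ : Pt K → ℕ → Set (YS ℕ))
  c0 : Has N (cand0 : Cand K)
  tk : ∀ (u : Task K) (v : Cand K), Has N u → Has N v → Has N (tk u v)
  nxt : ∀ (w : Pt K → ℕ → Set (YS ℕ)) (u : Task K) (v : Cand K) (k : ℕ), Has N w → Has N u →
    Has N v → Has N (nxt w u v k)
  at' : ∀ (u : Task K) (m : ℕ), Has N u → Has N (u.1 m)
  cov : ∀ (D : Set (Cond K)) (e : Cond K), Has N D → Has N e → CovD j D e →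
    ∃ C : Set (Cond K), (∀ c ∈ C, c ∈ D ∧ Has N c) ∧ pt e j ⊆ ⋃ c ∈ C, pt c j

theorem club_itN (j : WithTop K) : ∀ᶠ N in club, ItN (K := K) N j := by
  filter_upwards [club_countable, club_pair, club_const (univ : Set (Cond K)),
    club_const (fun _ _ => ∅ : Pt K → ℕ → Set (YS ℕ)),
    club_const (cand0 : Cand K), club_map₂ (tk (K := K)),
    club_map₂ (fun (a : (Pt K → ℕ → Set (YS ℕ)) × Task K) (b : Cand K × ℕ) =>
      nxt a.1 a.2 b.1 b.2), club_type ℕ, club_map₂ (fun (u : Task K) (m : ℕ) => u.1 m),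
    club_skolem₂ (fun (D : Set (Cond K)) (e : Cond K) (C : Set (Cond K)) =>
      C.Countable ∧ C ⊆ D ∧ pt e j ⊆ ⋃ c ∈ C, pt c j), club_of_mem (Cond K)]
    with N h1 h2 h3 h3' h4 h5 h6 h7 h8 h9 h10
  refine ⟨h1, h2, h3, h3', h4, h5, ?_, ?_, ?_⟩
  · intro w u v k hw hu hv
    exact h6 (w, u) (v, k) (h2 _ _ w u hw hu) (h2 _ _ v k hv (h7 k))
  · intro u m hu
    exact h8 u m hu (h7 m)
  · intro D e hD he hc
    obtain ⟨C, hC, hC1, hC2, hC3⟩ := h9 D e hD he hc
    exact ⟨C, fun c hc => ⟨hC2 hc, h10 C hC hC1 c hc⟩, hC3⟩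

/-- A measurable family of tasks. -/
structure St (N : Set Obj) (l j : WithTop K) (F : Pt K → Task K) : Prop where
  cm : CM F
  det : Det l F
  has : ∀ x, Has N (F x)
  task : ∀ x, IsTask j (F x)

theorem _root_.Pool.Agent.GPA.Ker.mono {i j : WithTop K} (h : i ≤ j) {π : Pt K → Measure (YS ℕ)} (hπ : Ker i π) :
    Ker j π := ⟨hπ.meas, hπ.det.mono h, hπ.le⟩

/-- The step. -/
theorem step {N : Set Obj} {l l' j : WithTop K} (hN : ItN N j) (hll : l ≤ l')
    (hE : EXTF (K := K) N l l') (hI : INTP (K := K) N l l' j)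
    {D : Set (Cond K)} (hD : DenseL j D) (hDN : Has N D)
    {w : Pt K → ℕ → Set (YS ℕ)} (hw : IsCode j 1 0 w) (hwN : Has N w)
    {π : Pt K → Measure (YS ℕ)} (hπ : Ker l π) {δ : ℝ≥0∞} (hδ : δ ≠ 0)
    {F : Pt K → Task K} (hF : St N l j F) :
    ∃ (k : Pt K → ℕ) (q : Cond K) (F' : Pt K → Task K) (V : Pt K → Set (YS ℕ)),
      CM k ∧ Det l k ∧ St N l' j F' ∧
      ∀ y, (∀ m, y ∈ pt ((F y).1 m) l) → Gen N l y → Kills N l π y → y ∈ ptI q l l' →
        Gen N l' y ∧ Kills N l' π y ∧ (∀ m, y ∈ pt ((F' y).1 m) l') ∧ π y (V y) ≤ δ ∧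
        ∀ m, pt ((F' y).1 m) j ⊆ pt ((F y).1 (k y)) j ∧
          (∀ z ∈ pt ((F' y).1 m) j, ∃ s ∈ D, Has N s ∧ z ∈ pt s j) ∧
          (y ∈ pt ((F' y).1 m) j → (∀ n ≤ m, (F y).2.1 (k y) y n ⊆ V y) ∧
            ∀ n, (F y).2.1 (k y) y (n + m + 1) ⊆ (F' y).2.1 m y n ∧
              w y (n + m + 1) ⊆ (F' y).2.1 m y n) := by
  -- the choice of the interpretation
  obtain ⟨f, hf1, hf2, hf3, hf4⟩ := choice hN.cnt (l := l)
    (R := fun (v : Cand K) x => Valid l' j D (F x) v ∧ ∀ k, x ∈ pt (v.1 k) l)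
    (fun v => by
      refine MeasurableSet.inter (hF.cm.rel (R := fun u _ => Valid l' j D u v)
        fun u => MeasurableSet.const _) ?_
      have : {x | ∀ k, x ∈ pt (v.1 k) l} = ⋂ k, pt (v.1 k) l := by
        ext x
        simp
      show MeasurableSet {x | ∀ k, x ∈ pt (v.1 k) l}
      rw [this]
      exact MeasurableSet.iInter fun k => measurableSet_pt _ _)
    (fun v x y hxy => by
      show (Valid l' j D (F x) v ∧ ∀ k, x ∈ pt (v.1 k) l) =
        (Valid l' j D (F y) v ∧ ∀ k, y ∈ pt (v.1 k) l)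
      rw [hF.det x y hxy]
      exact congrArg _ (propext (forall_congr' fun k => mem_pt_congr _ hxy)))
    (v₀ := cand0) hN.c0
  have hG : CM fun x => tk (F x) (f x) := hF.cm.map₂ hf1 tk
  have hGd : Det l fun x => tk (F x) (f x) := fun x y hxy => by
    show tk (F x) (f x) = tk (F y) (f y)
    rw [hF.det x y hxy, hf2 x y hxy]
  have hGN : ∀ x, Has N (tk (F x) (f x)) := fun x => hN.tk _ _ (hF.has x) (hf3 x)
  have hGt : ∀ x, IsTask l' (tk (F x) (f x)) := by
    intro x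
    by_cases h : ∃ v, Has N v ∧ (Valid l' j D (F x) v ∧ ∀ k, x ∈ pt (v.1 k) l)
    · exact ((hf4 x).1 h).1.task
    · rw [(hf4 x).2 h]
      exact fun k => isCode_empty l' _ k
  obtain ⟨k, q, hk1, hk2, hk3⟩ := hE _ hG hGd hGN hGt π hπ δ hδ
  refine ⟨k, q, fun y => nxt w (F y) (f y) (k y), fun y => ⋃ n, (f y).2.2 (k y) y n, hk1, hk2,
    ⟨?_, ?_, fun x => hN.nxt _ _ _ _ hwN (hF.has x) (hf3 x), fun x =>
      isTask_nxt (hF.task x) hw _ _⟩, ?_⟩
  · exact (hF.cm.prod (hf1.prod hk1)).map fun z => nxt w z.1 z.2.1 z.2.2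
  · intro x y hxy
    have hxy' := hxy.mono hll
    show nxt w (F x) (f x) (k x) = nxt w (F y) (f y) (k y)
    rw [hF.det x y hxy', hf2 x y hxy', hk2 x y hxy']
  · intro y hy hg hkl hyq
    have hex : ∃ v : Cand K, Has N v ∧ (Valid l' j D (F y) v ∧ ∀ k, y ∈ pt (v.1 k) l) := by
      obtain ⟨e, r, d, he, hr, hd, h1, h2, h3, h4, h5, h6⟩ :=
        hI (F y) (hF.has y) (hF.task y) D hDN hD y hg hy
      exact ⟨(e, r, d), hN.pair _ _ _ _ he (hN.pair _ _ _ _ hr hd), ⟨h1, h3, h4, h5, h6⟩, h2⟩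
    obtain ⟨hv, hvl⟩ := (hf4 y).1 hex
    obtain ⟨g1, g2, g3, g4⟩ := hk3 y hvl hg hkl hyq
    refine ⟨g1, g2, fun m => ?_, g4, fun m => ⟨hv.sub _ _, fun z hz => ?_, fun hym => ⟨?_, ?_⟩⟩⟩
    · show y ∈ pt ((f y).2.1 (k y) (m + 1)) l'
      rw [hv.eq]
      exact g3
    · have h1 : Has N ((f y).2.1 (k y) (m + 1)) :=
        hN.at' (nxt w (F y) (f y) (k y)) m (hN.nxt _ _ _ _ hwN (hF.has y) (hf3 y))
      obtain ⟨C, hC, hC'⟩ := hN.cov D _ hDN h1 (hv.cov _ _)
      obtain ⟨s, hs, hzs⟩ := mem_iUnion₂.1 (hC' hz)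
      exact ⟨s, (hC s hs).1, (hC s hs).2, hzs⟩
    · intro n hn
      have h1 := hv.dec (k y) (m + 1) n (by omega) y hym
      rw [← h1]
      exact subset_iUnion (fun n => (f y).2.2 (k y) y n) n
    · exact fun n => ⟨subset_union_left, subset_union_right⟩

/-! ### Choice of tasks, composition -/

/-- The trees of a glued condition. -/
theorem mem_ptI_glue {i l j : WithTop K} (hil : i ≤ l) (hlj : l ≤ j) {q₁ q₂ : Cond K} {y : Pt K}
    (h : y ∈ ptI (Cond.glue l q₁ q₂) i j) : y ∈ ptI q₁ i l ∧ y ∈ ptI q₂ l j := by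
  constructor
  · intro a ha ha'
    have := h a ha (ha'.trans_le hlj)
    rwa [Cond.glue, Cond.mix_T_of_lt ha'] at this
  · intro a ha ha'
    have := h a (hil.trans ha) ha'
    rwa [Cond.glue, Cond.mix_T_of_le ha] at this

theorem mem_ptI_mix {i j : WithTop K} {f : Pt K → Cond K} {hf : CM f} {hd : Det i f} {y : Pt K}
    (h : y ∈ ptI (Cond.mix i Cond.full f hf hd) i j) : y ∈ ptI (f y) i j := by
  intro a ha ha'
  have := h a ha ha'
  rw [Cond.mix_T_of_le ha] at this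
  exact this

theorem extF_of_ext {N : Set Obj} {i j : WithTop K} (h : EXT (K := K) N i j) : EXTF (K := K) N i j := by
  intro F hF hFd hFN hFt π hπ δ hδ
  have h1 : ∀ u : Task K, ∃ (k : Pt K → ℕ) (q : Cond K), CM k ∧ Det i k ∧ (Has N u → IsTask j u →
      ∀ y, (∀ m, y ∈ pt (u.1 m) i) → Gen N i y → Kills N i π y → y ∈ ptI q i j →
        Gen N j y ∧ Kills N j π y ∧ y ∈ pt (u.1 (k y)) j ∧ π y (⋃ n, u.2.1 (k y) y n) ≤ δ) := by
    intro u
    by_cases hu : Has N u ∧ IsTask j u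
    · obtain ⟨k, q, h1, h2, h3⟩ := h u hu.1 hu.2 π hπ δ hδ
      exact ⟨k, q, h1, h2, fun _ _ => h3⟩
    · exact ⟨fun _ => 0, Cond.full, CM.const _, Det.const _ _, fun h1 h2 => (hu ⟨h1, h2⟩).elim⟩
  choose k q hk1 hk2 hk3 using h1
  refine ⟨fun y => k (F y) y, Cond.mix i Cond.full (fun x => q (F x)) (hF.map q) (hFd.map q),
    CM.comp hF hk1, ?_, ?_⟩
  · intro x y hxy
    show k (F x) x = k (F y) y
    rw [hFd x y hxy, hk2 (F y) x y hxy]
  · intro y hy hg hkl hyq
    exact hk3 (F y) (hFN y) (hFt y) y hy hg hkl (mem_ptI_mix hyq)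

theorem ext_comp {N : Set Obj} {i l j : WithTop K} (hN : ItN (K := K) N j) (hil : i ≤ l)
    (hlj : l ≤ j) (h1 : EXT (K := K) N i l) (h2 : EXT (K := K) N l j) (hI : INTP (K := K) N i l j) :
    EXT (K := K) N i j := by
  intro u hu hut π hπ δ hδ
  have hδ2 : δ / 2 ≠ 0 := by
    rw [ne_eq, ENNReal.div_eq_zero_iff]
    simp [hδ]
  obtain ⟨k, q₁, F', V, hk1, hk2, hF', hstep⟩ := step hN hil (extF_of_ext h1) hI
    (D := univ) (fun p => ⟨p, mem_univ _, Subset.rfl⟩) hN.un (isCode_empty j 1 0) hN.em hπ hδ2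
    (F := fun _ => u) ⟨CM.const _, Det.const _ _, fun _ => hu, fun _ => hut⟩
  obtain ⟨m, q₂, hm1, hm2, hext⟩ := extF_of_ext h2 F' hF'.cm hF'.det hF'.has hF'.task π
    (hπ.mono hil) (δ / 2) hδ2
  refine ⟨k, Cond.glue l q₁ q₂, hk1, hk2, fun y hy hg hkl hyq => ?_⟩
  obtain ⟨hy1, hy2⟩ := mem_ptI_glue hil hlj hyq
  obtain ⟨g1, g2, g3, g4, g5⟩ := hstep y hy hg hkl hy1
  obtain ⟨e1, e2, e3, e4⟩ := hext y g3 g1 g2 hy2
  obtain ⟨g6, -, g7⟩ := g5 (m y)
  obtain ⟨g8, g9⟩ := g7 e3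
  refine ⟨e1, e2, g6 e3, ?_⟩
  have hsub : (⋃ n, u.2.1 (k y) y n) ⊆ V y ∪ ⋃ n, (F' y).2.1 (m y) y n := by
    refine iUnion_subset fun n => ?_
    rcases le_or_gt n (m y) with hn | hn
    · exact (g8 n hn).trans subset_union_left
    · obtain ⟨n', rfl⟩ : ∃ n', n = n' + m y + 1 := ⟨n - m y - 1, by omega⟩
      exact ((g9 n').1.trans (subset_iUnion (fun n => (F' y).2.1 (m y) y n) n')).trans
        subset_union_right
  calc π y (⋃ n, u.2.1 (k y) y n) ≤ π y (V y ∪ ⋃ n, (F' y).2.1 (m y) y n) := measure_mono hsub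
    _ ≤ π y (V y) + π y (⋃ n, (F' y).2.1 (m y) y n) := measure_union_le _ _
    _ ≤ δ / 2 + δ / 2 := add_le_add g4 e4
    _ = δ := ENNReal.add_halves δ

/-! ### The limit -/

/-- The closure properties of `N` used in the limit step. -/
structure LimX (N : Set Obj) (i j : WithTop K) : Prop where
  it : ItN (K := K) N j
  bot : ∃ a : K, (a : WithTop K) = i ∧ Has N a
  up : ∀ a : K, Has N a → (∃ b, a < b ∧ (b : WithTop K) < j) →
    ∃ b, Has N b ∧ a < b ∧ (b : WithTop K) < j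
  supp : ∀ p : Cond K, Has N p → ∀ a, p.T a ≠ MT.full → Has N a
  code : NullCode (K := K) N j
  ext : ∀ a b : K, Has N a → Has N b → i ≤ (a : WithTop K) → a ≤ b → (b : WithTop K) < j →
    EXT (K := K) N (a : WithTop K) (b : WithTop K)
  intp : ∀ a b : K, Has N a → Has N b → i ≤ (a : WithTop K) → a ≤ b → (b : WithTop K) < j →
    INTP (K := K) N (a : WithTop K) (b : WithTop K) j

theorem club_limX {i j : WithTop K} (hij : i < j)
    (hcode : ∀ᶠ N in club, NullCode (K := K) N j)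
    (hext : ∀ a b : K, i ≤ (a : WithTop K) → a ≤ b → (b : WithTop K) < j →
      ∀ᶠ N in club, EXT (K := K) N (a : WithTop K) (b : WithTop K))
    (hintp : ∀ a b : K, a ≤ b → (b : WithTop K) < j →
      ∀ᶠ N in club, INTP (K := K) N (a : WithTop K) (b : WithTop K) j) :
    ∀ᶠ N in club, LimX (K := K) N i j := by
  obtain ⟨i0, rfl⟩ := WithTop.ne_top_iff_exists.1 (hij.trans_le le_top).ne
  have hE : ∀ᶠ N in club, ∀ a b : K, Has N a → Has N b → ((i0 : WithTop K) ≤ (a : WithTop K) →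
      a ≤ b → (b : WithTop K) < j → EXT (K := K) N (a : WithTop K) (b : WithTop K)) := by
    refine club_diag₂ fun a b => ?_
    by_cases h : (i0 : WithTop K) ≤ (a : WithTop K) ∧ a ≤ b ∧ (b : WithTop K) < j
    · filter_upwards [hext a b h.1 h.2.1 h.2.2] with N hN _ _ _
      exact hN
    · exact Eventually.of_forall fun N h1 h2 h3 => (h ⟨h1, h2, h3⟩).elim
  have hI : ∀ᶠ N in club, ∀ a b : K, Has N a → Has N b → (a ≤ b → (b : WithTop K) < j →
      INTP (K := K) N (a : WithTop K) (b : WithTop K) j) := by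
    refine club_diag₂ fun a b => ?_
    by_cases h : a ≤ b ∧ (b : WithTop K) < j
    · filter_upwards [hintp a b h.1 h.2] with N hN _ _
      exact hN
    · exact Eventually.of_forall fun N h1 h2 => (h ⟨h1, h2⟩).elim
  filter_upwards [club_itN j, club_const i0, club_skolem (fun a b : K => a < b ∧ (b : WithTop K) < j),
    club_map (fun p : Cond K => {a | p.T a ≠ MT.full}), club_of_mem K, hE, hI, hcode] with N h1 h2 h3
    h4 h5 h6 h7 h8
  exact ⟨h1, ⟨i0, rfl, h2⟩, h3, fun p hp a ha => h5 _ (h4 p hp) p.supp a ha, h8,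
    fun a b ha hb => h6 a b ha hb, fun a b ha hb _ => h7 a b ha hb⟩

/-- A cofinal sequence of levels of `N`. -/
theorem exists_levels {N : Set Obj} {i0 : K} {j : WithTop K} (hN : N.Countable)
    (hi0 : Has N i0) (hij : (i0 : WithTop K) < j)
    (hup : ∀ a : K, Has N a → (a : WithTop K) < j → ∃ b, Has N b ∧ a < b ∧ (b : WithTop K) < j) :
    ∃ l : ℕ → K, l 0 = i0 ∧ StrictMono l ∧ (∀ n, Has N (l n) ∧ (l n : WithTop K) < j) ∧
      ∀ a : K, Has N a → (a : WithTop K) < j → ∃ n, a < l n := by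
  classical
  let A : Type := {a : K // Has N a ∧ i0 ≤ a ∧ (a : WithTop K) < j}
  have hAc : Countable A := by
    have hinj : Function.Injective (fun c : K => (⟨K, c⟩ : Obj)) := by
      intro a b hab
      simpa using hab
    have : {a : K | Has N a}.Countable := hN.preimage hinj
    exact (this.mono fun a ha => ha.1 : {a : K | Has N a ∧ i0 ≤ a ∧ (a : WithTop K) < j}.Countable)
  have hAn : Nonempty A := ⟨⟨i0, hi0, le_rfl, hij⟩⟩
  obtain ⟨u, hu⟩ := exists_surjective_nat A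
  have hup' : ∀ a : A, ∃ b : A, a.1 < b.1 := by
    rintro ⟨a, ha, hia, haj⟩
    obtain ⟨b, hb, hab, hbj⟩ := hup a ha haj
    exact ⟨⟨b, hb, hia.trans hab.le, hbj⟩, hab⟩
  choose g hg using hup'
  let l : ℕ → A := fun n => Nat.rec ⟨i0, hi0, le_rfl, hij⟩
    (fun n a => g (if a.1 ≤ (u n).1 then u n else a)) n
  have hl0 : (l 0).1 = i0 := rfl
  have hl1 : ∀ n, (l n).1 < (l (n + 1)).1 ∧ (u n).1 < (l (n + 1)).1 := by
    intro n
    have h1 : (l (n + 1)) = g (if (l n).1 ≤ (u n).1 then u n else l n) := rfl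
    have h2 := hg (if (l n).1 ≤ (u n).1 then u n else l n)
    rw [← h1] at h2
    by_cases h : (l n).1 ≤ (u n).1
    · rw [if_pos h] at h2
      exact ⟨h.trans_lt h2, h2⟩
    · rw [if_neg h] at h2
      exact ⟨h2, (not_le.1 h).trans h2⟩
  refine ⟨fun n => (l n).1, hl0, strictMono_nat_of_lt_succ fun n => (hl1 n).1,
    fun n => ⟨(l n).2.1, (l n).2.2.2⟩, fun a ha haj => ?_⟩
  by_cases h : i0 ≤ a
  · obtain ⟨n, hn⟩ := hu ⟨a, ha, h, haj⟩
    refine ⟨n + 1, ?_⟩
    have := (hl1 n).2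
    rw [hn] at this
    exact this
  · exact ⟨0, not_le.1 h⟩

/-- A condition with given trees on successive intervals. -/
theorem exists_glue {l : ℕ → K} (hl : StrictMono l) (Q : ℕ → Cond K) :
    ∃ q : Cond K, ∀ n a, l n ≤ a → a < l (n + 1) → q.T a = (Q n).T a := by
  classical
  let T : K → MT K := fun a => if h : ∃ n, l n ≤ a ∧ a < l (n + 1) then
    (Q (Nat.find h)).T a else MT.full
  have hT : ∀ n a, l n ≤ a → a < l (n + 1) → T a = (Q n).T a := by
    intro n a h1 h2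
    have h : ∃ n, l n ≤ a ∧ a < l (n + 1) := ⟨n, h1, h2⟩
    have h3 := Nat.find_spec h
    have h4 : Nat.find h = n := by
      refine le_antisymm (Nat.find_min' h ⟨h1, h2⟩) ?_
      by_contra hlt
      push Not at hlt
      have h5 : l (Nat.find h + 1) ≤ l n := hl.monotone (Nat.succ_le_of_lt hlt)
      exact absurd (h3.2.trans_le h5) (not_lt.2 h1)
    show (if h : _ then _ else _) = _
    rw [dif_pos h, h4]
  have hcase : ∀ a, T a = MT.full ∨ ∃ n, T a = (Q n).T a := by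
    intro a
    by_cases h : ∃ n, l n ≤ a ∧ a < l (n + 1)
    · obtain ⟨n, h1, h2⟩ := h
      exact Or.inr ⟨n, hT n a h1 h2⟩
    · exact Or.inl (dif_neg h)
  refine ⟨⟨T, fun a => ?_, fun a => ?_, ?_⟩, hT⟩
  · rcases hcase a with h | ⟨n, h⟩
    · rw [h]; exact Det.const _ _
    · rw [h]; exact (Q n).ds a
  · rcases hcase a with h | ⟨n, h⟩
    · rw [h]; exact Det.const _ _
    · rw [h]; exact (Q n).dW a
  · refine (countable_iUnion fun n => (Q n).supp).mono fun a ha => ?_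
    rcases hcase a with h | ⟨n, h⟩
    · exact (ha h).elim
    · have ha' : T a ≠ MT.full := ha
      rw [h] at ha'
      exact mem_iUnion.2 ⟨n, ha'⟩

/-- The data of a stage. -/
structure Sx (K : Type) [LinearOrder K] where
  F : Pt K → Task K
  k : Pt K → ℕ
  q : Cond K
  V : Pt K → Set (YS ℕ)

/-- The relation between two stages. -/
structure StepR (N : Set Obj) (l l' j : WithTop K) (D : Set (Cond K)) (w : Pt K → ℕ → Set (YS ℕ))
    (π : Pt K → Measure (YS ℕ)) (δ : ℝ≥0∞) (s s' : Sx K) : Prop where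
  cm : CM s'.k
  det : Det l s'.k
  main : ∀ y, (∀ m, y ∈ pt ((s.F y).1 m) l) → Gen N l y → Kills N l π y → y ∈ ptI s'.q l l' →
        Gen N l' y ∧ Kills N l' π y ∧ (∀ m, y ∈ pt ((s'.F y).1 m) l') ∧ π y (s'.V y) ≤ δ ∧
        ∀ m, pt ((s'.F y).1 m) j ⊆ pt ((s.F y).1 (s'.k y)) j ∧
          (∀ z ∈ pt ((s'.F y).1 m) j, ∃ s ∈ D, Has N s ∧ z ∈ pt s j) ∧
          (y ∈ pt ((s'.F y).1 m) j → (∀ n ≤ m, (s.F y).2.1 (s'.k y) y n ⊆ s'.V y) ∧
            ∀ n, (s.F y).2.1 (s'.k y) y (n + m + 1) ⊆ (s'.F y).2.1 m y n ∧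
              w y (n + m + 1) ⊆ (s'.F y).2.1 m y n)

theorem ext_of_limX [WellFoundedLT K] {N : Set Obj} {i j : WithTop K}
    (hj : ∀ a : K, (a : WithTop K) < j → ∃ b : K, a < b ∧ (b : WithTop K) < j) (hij : i < j)
    (hN : LimX (K := K) N i j) : EXT (K := K) N i j := by
  classical
  intro u hu hut π hπ δ hδ
  obtain ⟨i0, rfl, hi0⟩ := hN.bot
  obtain ⟨l, hl0, hlm, hlN, hcof⟩ := exists_levels hN.it.cnt hi0 hij
    fun a ha haj => hN.up a ha (hj a haj)
  have hil : ∀ n, (i0 : WithTop K) ≤ (l n : WithTop K) := fun n => by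
    rw [← hl0]
    exact WithTop.coe_le_coe.2 (hlm.monotone (Nat.zero_le n))
  -- the dense sets of `N`
  obtain ⟨D, hD⟩ : ∃ D : ℕ → Set (Cond K), {c | Has N c ∧ DenseL j c} = range D := by
    have hc : {c : Set (Cond K) | Has N c ∧ DenseL j c}.Countable := by
      have hinj : Function.Injective (fun c : Set (Cond K) => (⟨Set (Cond K), c⟩ : Obj)) := by
        intro a b hab
        simpa using hab
      exact (hN.it.cnt.preimage hinj).mono fun c hc => hc.1
    exact hc.exists_eq_range ⟨univ, hN.it.un, fun p => ⟨p, mem_univ _, Subset.rfl⟩⟩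
  have hDN : ∀ n, Has N (D n) ∧ DenseL j (D n) := fun n => by
    have : D n ∈ {c | Has N c ∧ DenseL j c} := by rw [hD]; exact ⟨n, rfl⟩
    exact this
  -- the codes of `N`
  obtain ⟨w, hw⟩ : ∃ w : ℕ → (Pt K → ℕ → Set (YS ℕ)), {c | Has N c ∧ IsCode j 1 0 c} = range w := by
    have hc : {c : Pt K → ℕ → Set (YS ℕ) | Has N c ∧ IsCode j 1 0 c}.Countable := by
      have hinj : Function.Injective (fun c : Pt K → ℕ → Set (YS ℕ) =>
          (⟨Pt K → ℕ → Set (YS ℕ), c⟩ : Obj)) := by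
        intro a b hab
        simpa using hab
      exact (hN.it.cnt.preimage hinj).mono fun c hc => hc.1
    exact hc.exists_eq_range ⟨_, hN.it.em, isCode_empty j 1 0⟩
  have hwN : ∀ n, Has N (w n) ∧ IsCode j 1 0 (w n) := fun n => by
    have : w n ∈ {c | Has N c ∧ IsCode j 1 0 c} := by rw [hw]; exact ⟨n, rfl⟩
    exact this
  -- the errors
  obtain ⟨ε, hε0, hε⟩ := ENNReal.exists_pos_sum_of_countable' (ε := min δ 1)
    (by simp [hδ]) ℕ
  have hεδ : ∑' n, ε n ≤ δ := hε.le.trans (min_le_left _ _)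
  have hεt : ∑' n, ε n ≠ ∞ := (hε.trans_le ((min_le_right _ _).trans (by simp))).ne
  -- the stages
  obtain ⟨S, hS0, hS⟩ := Lim.exists_chain (P := fun n (s : Sx K) => St N (l n : WithTop K) j s.F)
    (R := fun n s s' => StepR N (l n : WithTop K) (l (n + 1) : WithTop K) j (D n)
      (w (Nat.unpair n).1) π (ε n) s s')
    (s0 := ⟨fun _ => u, fun _ => 0, Cond.full, fun _ => ∅⟩)
    ⟨CM.const _, Det.const _ _, fun _ => hu, fun _ => hut⟩ (by
      intro n s hs
      have hll : (l n : WithTop K) ≤ (l (n + 1) : WithTop K) :=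
        WithTop.coe_le_coe.2 (hlm.monotone (Nat.le_succ n))
      obtain ⟨k, q, F', V, h1, h2, h3, h4⟩ := step hN.it hll
        (extF_of_ext (hN.ext _ _ (hlN n).1 (hlN (n + 1)).1 (hil n) (hlm.monotone (Nat.le_succ n))
          (hlN (n + 1)).2))
        (hN.intp _ _ (hlN n).1 (hlN (n + 1)).1 (hil n) (hlm.monotone (Nat.le_succ n))
          (hlN (n + 1)).2) (hDN n).2 (hDN n).1 (hwN (Nat.unpair n).1).2 (hwN (Nat.unpair n).1).1
        (hπ.mono (hil n)) (hε0 n).ne' hs
      exact ⟨⟨F', k, q, V⟩, h3, h1, h2, h4⟩)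
  obtain ⟨q, hq⟩ := exists_glue hlm fun n => (S (n + 1)).q
  refine ⟨(S 1).k, q, (hS 0).2.cm, ?_, ?_⟩
  · have := (hS 0).2.det
    rwa [hl0] at this
  intro y hy hg hkl hyq
  have hyqn : ∀ n, y ∈ ptI (S (n + 1)).q (l n) (l (n + 1)) := by
    intro n a ha ha'
    rw [← hq n a (WithTop.coe_le_coe.1 ha) (WithTop.coe_lt_coe.1 ha')]
    exact hyq a ((hil n).trans ha) (ha'.trans (hlN (n + 1)).2)
  have hall : ∀ n, (∀ m, y ∈ pt (((S n).F y).1 m) (l n)) ∧ Gen N (l n : WithTop K) y ∧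
      Kills N (l n : WithTop K) π y := by
    intro n
    induction n with
    | zero =>
      rw [hS0, hl0]
      exact ⟨hy, hg, hkl⟩
    | succ n ih =>
      obtain ⟨h1, h2, h3, -, -⟩ := (hS n).2.main y ih.1 ih.2.1 ih.2.2 (hyqn n)
      exact ⟨h3, h1, h2⟩
  have hmain := fun n => (hS n).2.main y (hall n).1 (hall n).2.1 (hall n).2.2 (hyqn n)
  -- the conditions chosen
  let c : ℕ → Cond K := fun n => ((S n).F y).1 ((S (n + 1)).k y)
  have hcN : ∀ n, Has N (c n) := fun n => hN.it.at' _ _ ((hS n).1.has y)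
  have hc1 : ∀ n, pt (c (n + 1)) j ⊆ pt (c n) j := fun n => ((hmain n).2.2.2.2 _).1
  have hanti : ∀ n m, n ≤ m → pt (c m) j ⊆ pt (c n) j := by
    intro n m hnm
    induction m, hnm using Nat.le_induction with
    | base => exact Subset.rfl
    | succ m hm ih => exact (hc1 m).trans ih
  have hyc : ∀ n, y ∈ pt (c n) j := by
    intro n a ha
    by_cases h : (c n).T a = MT.full
    · rw [h, br_full]
      exact mem_univ _
    · obtain ⟨m, hm⟩ := hcof a (hN.supp _ (hcN n) a h) ha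
      have h1 : y ∈ pt (c (max n m)) (l (max n m)) := (hall _).1 _
      have h2 := pt_subset_mono (hlN (max n m)).2.le (hanti n (max n m) (le_max_left _ _)) h1
      exact h2 a (WithTop.coe_lt_coe.2 (hm.trans_le (hlm.monotone (le_max_right n m))))
  -- the codes
  let C : ℕ → ℕ → Set (YS ℕ) := fun n t => ((S n).F y).2.1 ((S (n + 1)).k y) y t
  have hC1 : ∀ n t, t ≤ (S (n + 2)).k y → C n t ⊆ (S (n + 1)).V y := fun n t ht =>
    (((hmain n).2.2.2.2 ((S (n + 2)).k y)).2.2 (hyc (n + 1))).1 t ht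
  have hC2 : ∀ n t, C n (t + (S (n + 2)).k y + 1) ⊆ C (n + 1) t ∧
      w (Nat.unpair n).1 y (t + (S (n + 2)).k y + 1) ⊆ C (n + 1) t := fun n t =>
    (((hmain n).2.2.2.2 ((S (n + 2)).k y)).2.2 (hyc (n + 1))).2 t
  have hCV : ∀ t n, C n t ⊆ ⋃ m, (S (n + m + 1)).V y := by
    intro t
    induction t using Nat.strong_induction_on with
    | _ t ih =>
      intro n
      rcases le_or_gt t ((S (n + 2)).k y) with h | h
      · exact (hC1 n t h).trans (subset_iUnion (fun m => (S (n + m + 1)).V y) 0)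
      · obtain ⟨t', rfl⟩ : ∃ t', t = t' + (S (n + 2)).k y + 1 := ⟨t - (S (n + 2)).k y - 1, by omega⟩
        refine ((hC2 n t').1.trans (ih t' (by omega) (n + 1))).trans ?_
        refine iUnion_subset fun m => ?_
        have := subset_iUnion (fun m => (S (n + m + 1)).V y) (m + 1)
        rw [show n + 1 + m + 1 = n + (m + 1) + 1 by omega]
        exact this
  have hVε : ∀ n, π y (⋃ m, (S (n + m + 1)).V y) ≤ ∑' m, ε (m + n) := by
    intro n
    refine (measure_iUnion_le _).trans (ENNReal.tsum_le_tsum fun m => ?_)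
    have := (hmain (n + m)).2.2.2.1
    rwa [add_comm n m] at this ⊢
  refine ⟨?_, ?_, ?_, ?_⟩
  · intro E hE hEd
    have hE' : E ∈ range D := by rw [← hD]; exact ⟨hE, hEd⟩
    obtain ⟨n, rfl⟩ := hE'
    obtain ⟨s, hs, hsN, hys⟩ := ((hmain n).2.2.2.2 ((S (n + 2)).k y)).2.1 y (hyc (n + 1))
    exact ⟨s, hs, hsN, hys⟩
  · intro W hW hWn
    obtain ⟨w', hw'N, hw', hww⟩ := hN.code W hW hWn
    have : w' ∈ range w := by rw [← hw]; exact ⟨hw'N, hw'⟩
    obtain ⟨m, rfl⟩ := this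
    have hle : ∀ b : ℕ, π y (sec W y) ≤ ∑' t, ε (t + (Nat.pair m b + 1)) := by
      intro b
      refine le_trans (measure_mono ?_) (hVε (Nat.pair m b + 1))
      refine (hww y ((S (Nat.pair m b + 2)).k y + 1)).trans (iUnion_subset fun t => ?_)
      have h1 := (hC2 (Nat.pair m b) t).2
      rw [Nat.unpair_pair] at h1
      exact (h1.trans (hCV t (Nat.pair m b + 1)))
    have hlim := ENNReal.tendsto_sum_nat_add ε hεt
    have hlim' : Tendsto (fun b => ∑' t, ε (t + (Nat.pair m b + 1))) atTop (𝓝 0) := by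
      refine hlim.comp (tendsto_atTop_mono (fun b => ?_) tendsto_id)
      have := Nat.right_le_pair m b
      simp only [id]
      omega
    exact le_antisymm (ge_of_tendsto' hlim' hle) zero_le
  · have := hyc 0
    have h0 : c 0 = u.1 ((S 1).k y) := by
      show ((S 0).F y).1 ((S 1).k y) = _
      rw [hS0]
    rwa [h0] at this
  · have h0 : ∀ t, C 0 t = u.2.1 ((S 1).k y) y t := by
      intro t
      show ((S 0).F y).2.1 ((S 1).k y) y t = _
      rw [hS0]
    calc π y (⋃ n, u.2.1 ((S 1).k y) y n) ≤ π y (⋃ m, (S (0 + m + 1)).V y) := by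
          refine measure_mono (iUnion_subset fun t => ?_)
          rw [← h0]
          exact hCV t 0
      _ ≤ ∑' m, ε (m + 0) := hVε 0
      _ = ∑' m, ε m := by simp
      _ ≤ δ := hεδ

/-- The limit step of the extension theorem. -/
theorem ext_limit [WellFoundedLT K] {i j : WithTop K}
    (hj : ∀ a : K, (a : WithTop K) < j → ∃ b : K, a < b ∧ (b : WithTop K) < j) (hij : i < j)
    (hcode : ∀ᶠ N in club, NullCode (K := K) N j)
    (hext : ∀ a b : K, i ≤ (a : WithTop K) → a ≤ b → (b : WithTop K) < j →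
      ∀ᶠ N in club, EXT (K := K) N (a : WithTop K) (b : WithTop K))
    (hintp : ∀ a b : K, a ≤ b → (b : WithTop K) < j →
      ∀ᶠ N in club, INTP (K := K) N (a : WithTop K) (b : WithTop K) j) :
    ∀ᶠ N in club, EXT (K := K) N i j := by
  filter_upwards [club_limX hij hcode hext hintp] with N hN
  exact ext_of_limX hj hij hN

end Itx

/-! ### The official forms -/

theorem extF_of_ext {N : Set Obj} (_hN : N.Countable) {i j : WithTop K} (_hij : i ≤ j)
    (h : EXT (K := K) N i j) : EXTF (K := K) N i j :=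
  Itx.extF_of_ext h

/-- Composition. -/
theorem ext_comp [WellFoundedLT K] (_H : BlockP K) {i l j : WithTop K} (h : i ≤ l) (h' : l ≤ j)
    (h1 : ∀ᶠ N in club, EXT (K := K) N i l) (h2 : ∀ᶠ N in club, EXT (K := K) N l j) :
    ∀ᶠ N in club, EXT (K := K) N i j := by
  filter_upwards [h1, h2, intp _H h h', Itx.club_itN j] with N e1 e2 e3 e4
  exact Itx.ext_comp e4 h h' e1 e2 e3

/-- The limit step. -/
theorem ext_limit [WellFoundedLT K] (_H : BlockP K) {i j : WithTop K} (hij : i < j)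
    (hj : ∀ a : K, (a : WithTop K) < j → ∃ b : K, a < b ∧ (b : WithTop K) < j)
    (ih : ∀ l l' : WithTop K, l ≤ l' → l' < j → ∀ᶠ N in club, EXT (K := K) N l l') :
    ∀ᶠ N in club, EXT (K := K) N i j :=
  Itx.ext_limit hj hij (club_code j) (fun _ _ _ hab hb => ih _ _ (WithTop.coe_le_coe.2 hab) hb)
    fun _ _ hab hb => intp _H (WithTop.coe_le_coe.2 hab) hb.le

end Pool.Agent.GPA
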