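import Mathlib

/-!
# The index set of the iteration
-/

open Set Cardinal

namespace Pool.Agent.GPA

/-- A well-ordered set of order type `κ = 𝔠⁺`. -/
abbrev KK : Type := (Order.succ 𝔠).ord.ToType

theorem mk_KK : #KK = Order.succ 𝔠 := by
  rw [KK, Cardinal.mk_toType, Cardinal.card_ord]

theorem mk_Iio_KK (d : KK) : #(Iio d) ≤ 𝔠 := by
  rw [← Order.lt_succ_iff]
  exact Cardinal.mk_Iio_toType_ord_lt d

end Pool.Agent.GPA
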