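import Pool.Agent.GPA.PFin
import Pool.Agent.GPA.Front
import Pool.Agent.GPA.Delta
import Pool.Agent.GPA.Dom
import Pool.Agent.GPA.KK
import Pool.Agent.GPA.ExtI

/-!
# Part A: generic points extend, and every measurable set is decided, at all levels
-/

open Set Filter Cardinal MeasureTheory

namespace Pool.Agent.GPA

variable {K : Type} [LinearOrder K] [WellFoundedLT K]

theorem good (j : WithTop K) : Good j :=
  good_all (fun hj hdec hsig hcov => frontD_of fun _ hD e => front_cover hj hdec hsig hcov hD e) j

theorem genExt_club {i j : WithTop K} (h : i ≤ j) : ∀ᶠ N in club, GenExt (K := K) N i j :=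
  (good j).1 i h

theorem decL (j : WithTop K) : DecL (K := K) j := (good j).2.1

theorem sigL (j : WithTop K) : SigL (K := K) j := (good j).2.2.1

theorem covL (j : WithTop K) : CovL (K := K) j := (good j).2.2.2

theorem frontD_all {i : K} {j : WithTop K} (hj : ∀ b : K, (b : WithTop K) < j ↔ b ≤ i) :
    FrontD (K := K) i j :=
  frontD_of fun _ hD e => front_cover hj (decL (i : WithTop K)) (sigL (i : WithTop K)) (covL (i : WithTop K)) hD e

theorem ppos_PP' : PPos (PP K) := ppos_PP (covL ⊤) (sigL ⊤)

/-- The structure `LavSys` from its field `ext` for the index set `ℕ`. -/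
theorem exists_lavSys (h : ExtI (PP KK) ℕ) : Nonempty (LavSys KK) :=
  ⟨{ mk_K := mk_KK
     mk_Iio := mk_Iio_KK
     P := PP KK
     ppos := ppos_PP'
     knaster := by
       intro p hp n
       choose c hc using hp
       obtain ⟨s, hs, B, hB⟩ := Delta.cond_knaster mk_KK mk_Iio_KK c n
       exact ⟨s, hs, pt B ⊤, ⟨B, rfl⟩, fun i hi => (hB i hi).trans (hc i).subset⟩
     dom := fun d H hH A hA => dom_PP d H hH A hA
     ext := fun I => extI_of_nat h I }⟩

end Pool.Agent.GPA
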