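import Pool.Agent.GPA.PFin
import Pool.Agent.GPA.Dec

/-!
# Countably many dependent choices made densely are read by measurable functions

`master`: below every condition of `N` there is a condition all of whose points are generic.
`dsim`: if a property of a condition and a finite list of choices can always be continued densely,
then densely there are measurable functions which make infinitely many choices.
`gen_inf`: a generic point which satisfies all members of a sequence of conditions of `N` satisfies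
a common lower bound in `N`.
-/

open Set Filter

namespace Pool.Agent.GPA

variable {K : Type} [LinearOrder K]

/-! ### Enumerations -/

theorem has_countable {N : Set Obj} (hN : N.Countable) (α : Type) : {a : α | Has N a}.Countable := by
  refine hN.preimage (f := fun a : α => (⟨α, a⟩ : Obj)) ?_
  intro a b h
  exact eq_of_heq (Sigma.mk.inj h).2

theorem exists_enumH {N : Set Obj} (hN : N.Countable) {α : Type} {a : α} (ha : Has N a) :
    ∃ e : ℕ → α, (∀ m, Has N (e m)) ∧ ∀ b, Has N b → ∃ m, e m = b := by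
  obtain ⟨e, he⟩ := (has_countable hN α).exists_eq_range ⟨a, ha⟩
  refine ⟨e, fun m => ?_, fun b hb => ?_⟩
  · have : e m ∈ {a : α | Has N a} := by rw [he]; exact ⟨m, rfl⟩
    exact this
  · have : b ∈ range e := by rw [← he]; exact hb
    exact this

omit [LinearOrder K] in
/-- A composition of a measurable choice with measurable choices. -/
theorem CM.bind {α β : Type*} {h : Pt K → α} (hh : CM h) {G : α → Pt K → β}
    (hG : ∀ c, CM (G c)) : CM (fun x => G (h x) x) := by
  refine ⟨(hh.1.biUnion (t := fun c _ => range (G c)) fun c _ => (hG c).1).mono ?_, fun d => ?_⟩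
  · rintro _ ⟨x, rfl⟩
    exact mem_iUnion₂.2 ⟨h x, ⟨x, rfl⟩, x, rfl⟩
  · exact hh.rel (R := fun c x => G c x = d) fun c => (hG c).2 d

theorem Det.bind {α β : Type*} {j : WithTop K} {h : Pt K → α} (hh : Det j h) {G : α → Pt K → β}
    (hG : ∀ c, Det j (G c)) : Det j (fun x => G (h x) x) := fun x y hxy => by
  show G (h x) x = G (h y) y
  rw [hh x y hxy]
  exact hG _ x y hxy

theorem Det.find {j : WithTop K} {P : ℕ → Pt K → Prop} (hP : ∀ n, Det j (P n)) :
    Det j (fun x => sInf {n | P n x}) := fun x y hxy => by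
  show sInf {n | P n x} = sInf {n | P n y}
  have : {n | P n x} = {n | P n y} := by
    ext n
    show P n x ↔ P n y
    rw [hP n x y hxy]
  rw [this]

variable [WellFoundedLT K]

/-! ### Master conditions -/

/-- Below every condition of `N` there is a condition all of whose points are generic. -/
theorem master {i : WithTop K} (h : ∀ i₀ ≤ i, ∀ᶠ N in club, GenExt (K := K) N i₀ i) :
    ∀ᶠ N in club, ∀ p : Cond K, Has N p → ∃ q : Cond K, pt q i ⊆ pt p i ∧ ∀ x ∈ pt q i, Gen N i x := by
  obtain ⟨i₀, h1, h2⟩ : ∃ i₀ : WithTop K, i₀ ≤ i ∧ ∀ a : K, ¬ (a : WithTop K) < i₀ := by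
    obtain ⟨m, -, hm⟩ := (wellFounded_lt (α := WithTop K)).has_min univ ⟨⊤, mem_univ _⟩
    exact ⟨m, not_lt.1 (hm i (mem_univ _)), fun a => hm a (mem_univ _)⟩
  filter_upwards [h i₀ h1, club_skolem (fun (D : Set (Cond K)) e => e ∈ D)] with N hN hs p hp
  have hu : ∀ (q : Cond K) (x : Pt K), x ∈ pt q i₀ := fun q x a ha => (h2 a ha).elim
  obtain ⟨q, hq⟩ := hN univ (fun _ => p) MeasurableSet.univ (Det.const _ _) (CM.const _)
    (Det.const _ _) (fun _ => hp) (fun x _ => ⟨fun D hD hd => by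
      obtain ⟨e, he, -⟩ := hd p
      obtain ⟨e', h3, h4⟩ := hs D hD ⟨e, he⟩
      exact ⟨e', h4, h3, hu _ _⟩, hu _ _⟩)
  have hq' : ∀ x ∈ pt q i, Gen N i x ∧ x ∈ pt p i := fun x hx =>
    hq x (mem_univ _) fun a _ ha => hx a ha
  exact ⟨q, fun x hx => (hq' x hx).2, fun x hx => (hq' x hx).1⟩

/-! ### Dependent choices -/

/-- The list of the first `n` choices, the last one first. -/
def hist {V : Type} (F : ℕ → Pt K → V) (x : Pt K) : ℕ → List V
  | 0 => []
  | n + 1 => F n x :: hist F x n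

/-- Countably many dependent choices. -/
theorem dsim {i : WithTop K} (hG : ∀ i₀ ≤ i, ∀ᶠ N in club, GenExt (K := K) N i₀ i)
    (hD : DecL (K := K) i) {V : Type} (Φ : List V → Cond K → Prop)
    (hstep : ∀ v e, Φ v e → ∀ e', pt e' i ⊆ pt e i → ∃ e'', pt e'' i ⊆ pt e' i ∧
      ∃ a, Φ (a :: v) e'') {e₀ : Cond K} (h0 : Φ [] e₀) :
    ∃ e : Cond K, pt e i ⊆ pt e₀ i ∧ ∃ F : ℕ → Pt K → V, (∀ n, CM (F n)) ∧ (∀ n, Det i (F n)) ∧
      ∀ x ∈ pt e i, ∀ n, ∃ e', x ∈ pt e' i ∧ Φ (hist F x n) e' := by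
  classical
  have hV : Nonempty V := by
    obtain ⟨_, _, a, _⟩ := hstep [] e₀ h0 e₀ subset_rfl
    exact ⟨a⟩
  obtain ⟨N, hNs, hNc, hNP⟩ := club_exists
    ((((master hG).and (gen_reflect_wit hD (fun (v : List V) e (a : V) => Φ (a :: v) e))).and
      (club_map₂ (fun (a : V) (v : List V) => a :: v))).and (club_const ([] : List V)))
    (A := {⟨Cond K, e₀⟩, ⟨V, hV.some⟩}) (by simp)
  obtain ⟨⟨⟨h1, h2⟩, h3⟩, h4⟩ := hNP
  have he₀ : Has N e₀ := hNs (by simp)
  have ha₀ : Has N hV.some := hNs (by simp)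
  obtain ⟨ec, hec, hec'⟩ := exists_enumH hNc he₀
  obtain ⟨va, hva, hva'⟩ := exists_enumH hNc ha₀
  obtain ⟨q, hq, hqg⟩ := h1 e₀ he₀
  let R : List V → ℕ → Pt K → Prop := fun v m x =>
    x ∈ pt (ec (Nat.unpair m).1) i ∧ Φ (va (Nat.unpair m).2 :: v) (ec (Nat.unpair m).1)
  have hRm : ∀ v m, MeasurableSet {x | R v m x} := fun v m =>
    (measurableSet_pt _ _).inter (MeasurableSet.const _)
  have hRd : ∀ v m, Det i (R v m) := fun v m => Det.and (det_pt _ _) (Det.const _ _)
  let ix : List V → Pt K → ℕ := fun v x => sInf {m | R v m x}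
  -- the histories
  let H : ℕ → Pt K → List V := fun n => Nat.rec (fun _ => [])
    (fun _ G x => va (Nat.unpair (ix (G x) x)).2 :: G x) n
  have hH0 : ∀ x, H 0 x = [] := fun x => rfl
  have hH1 : ∀ n x, H (n + 1) x = va (Nat.unpair (ix (H n x) x)).2 :: H n x := fun n x => rfl
  have hHc : ∀ n, CM (H n) := by
    intro n
    induction n with
    | zero => exact CM.const _
    | succ n ih =>
      exact (CM.bind ih (G := fun v x => va (Nat.unpair (ix v x)).2 :: v) fun v =>
        ((CM.find (hRm v)).map fun m => va (Nat.unpair m).2 :: v))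
  have hHd : ∀ n, Det i (H n) := by
    intro n
    induction n with
    | zero => exact Det.const _ _
    | succ n ih =>
      exact (Det.bind ih (G := fun v x => va (Nat.unpair (ix v x)).2 :: v) fun v =>
        ((Det.find (hRd v)).map fun m => va (Nat.unpair m).2 :: v))
  let F : ℕ → Pt K → V := fun n x => va (Nat.unpair (ix (H n x) x)).2
  have hF : ∀ x n, hist F x n = H n x := by
    intro x n
    induction n with
    | zero => rfl
    | succ n ih =>
      show F n x :: hist F x n = _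
      rw [ih, hH1]
  refine ⟨q, hq, F, fun n => ?_, fun n => ?_, ?_⟩
  · exact CM.bind (hHc n) (G := fun v x => va (Nat.unpair (ix v x)).2) fun v =>
      (CM.find (hRm v)).map fun m => va (Nat.unpair m).2
  · exact Det.bind (hHd n) (G := fun v x => va (Nat.unpair (ix v x)).2) fun v =>
      (Det.find (hRd v)).map fun m => va (Nat.unpair m).2
  · intro x hx n
    have key : ∀ n, ∃ e, Has N e ∧ Has N (H n x) ∧ x ∈ pt e i ∧ Φ (H n x) e := by
      intro n
      induction n with
      | zero => exact ⟨e₀, he₀, h4, hq hx, h0⟩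
      | succ n ih =>
        obtain ⟨e, heN, hHN, hxe, hΦ⟩ := ih
        obtain ⟨e', a, he'N, haN, hxe', -, hΦ'⟩ := h2 (H n x) e hHN heN
          (fun r hr => hstep _ e hΦ r hr) x (hqg x hx) hxe
        obtain ⟨m₁, rfl⟩ := hec' e' he'N
        obtain ⟨m₂, rfl⟩ := hva' a haN
        have hm : R (H n x) (ix (H n x) x) x := by
          refine Nat.sInf_mem (s := {m | R (H n x) m x}) ⟨Nat.pair m₁ m₂, ?_⟩
          show x ∈ pt (ec (Nat.unpair (Nat.pair m₁ m₂)).1) i ∧ _
          rw [Nat.unpair_pair]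
          exact ⟨hxe', hΦ'⟩
        refine ⟨ec (Nat.unpair (ix (H n x) x)).1, hec _, ?_, hm.1, ?_⟩
        · rw [hH1]
          exact h3 _ _ (hva _) hHN
        · rw [hH1]
          exact hm.2
    obtain ⟨e, -, -, h5, h6⟩ := key n
    rw [hF]
    exact ⟨e, h5, h6⟩

/-- Countably many independent choices. -/
theorem dsim_seq {i : WithTop K} (hG : ∀ i₀ ≤ i, ∀ᶠ N in club, GenExt (K := K) N i₀ i)
    (hD : DecL (K := K) i) {V : Type} (Φ : ℕ → V → Cond K → Prop)
    {e₀ : Cond K} (h : ∀ n e', pt e' i ⊆ pt e₀ i → ∃ e'', pt e'' i ⊆ pt e' i ∧ ∃ a, Φ n a e'') :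
    ∃ e : Cond K, pt e i ⊆ pt e₀ i ∧ ∃ F : ℕ → Pt K → V, (∀ n, CM (F n)) ∧ (∀ n, Det i (F n)) ∧
      ∀ x ∈ pt e i, ∀ n, ∃ e', x ∈ pt e' i ∧ Φ n (F n x) e' := by
  obtain ⟨e, h1, F, h2, h3, h4⟩ := dsim hG hD
    (fun (v : List V) e => pt e i ⊆ pt e₀ i ∧ ∀ a v', v = a :: v' → Φ v'.length a e)
    (fun v e hv e' he' => by
      obtain ⟨e'', h5, a, h6⟩ := h v.length e' (he'.trans hv.1)
      refine ⟨e'', h5, a, (h5.trans he').trans hv.1, ?_⟩
      rintro b v' h7
      obtain ⟨rfl, rfl⟩ := List.cons.inj h7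
      exact h6)
    (e₀ := e₀) ⟨subset_rfl, fun a v' h => by simp at h⟩
  have hl : ∀ x n, (hist F x n).length = n := by
    intro x n
    induction n with
    | zero => rfl
    | succ n ih => exact congrArg Nat.succ ih
  refine ⟨e, h1, F, h2, h3, fun x hx n => ?_⟩
  obtain ⟨e', h5, -, h6⟩ := h4 x hx (n + 1)
  have h7 := h6 _ _ rfl
  rw [hl] at h7
  exact ⟨e', h5, h7⟩

/-! ### Sequences of conditions -/

omit [WellFoundedLT K] in
/-- The conditions which are a common lower bound of a sequence of conditions, or disjoint from a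
member of the sequence, are dense. -/
theorem dense_inf {i : WithTop K} (hD : DecL (K := K) i) (hS : SigL (K := K) i) (p : ℕ → Cond K) :
    DenseL i {e : Cond K | (∀ k, pt e i ⊆ pt (p k) i) ∨ ∃ k, Disjoint (pt e i) (pt (p k) i)} := by
  intro r
  obtain ⟨e, he, he'⟩ := hD (⋂ k, pt (p k) i) (MeasurableSet.iInter fun k => measurableSet_pt _ _)
    (by
      intro x y hxy
      refine propext ?_
      show x ∈ ⋂ k, pt (p k) i ↔ y ∈ ⋂ k, pt (p k) i
      rw [mem_iInter, mem_iInter]
      exact forall_congr' fun k => mem_pt_congr (p k) hxy) r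
  rcases he' with he' | he'
  · exact ⟨e, Or.inl fun k => he'.trans (iInter_subset _ k), he⟩
  · obtain ⟨k, e', h1, h2⟩ := hS (fun k => (pt (p k) i)ᶜ) (fun k => (measurableSet_pt _ _).compl)
      (fun k => (det_pt (p k) i).not) e (by
        intro x hx
        by_contra hc
        refine Set.disjoint_left.1 he' hx (mem_iInter.2 fun k => ?_)
        by_contra hk
        exact hc (mem_iUnion.2 ⟨k, hk⟩))
    exact ⟨e', Or.inr ⟨k, Set.disjoint_left.2 fun x hx => h2 hx⟩, h1.trans he⟩

omit [WellFoundedLT K] in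
/-- A generic point which satisfies all members of a sequence of conditions of `N` satisfies a
common lower bound in `N`. -/
theorem gen_inf {i : WithTop K} (hD : DecL (K := K) i) (hS : SigL (K := K) i) :
    ∀ᶠ N in club, ∀ p : ℕ → Cond K, Has N p → ∀ x, Gen N i x → (∀ k, x ∈ pt (p k) i) →
      ∃ e, Has N e ∧ x ∈ pt e i ∧ ∀ k, pt e i ⊆ pt (p k) i := by
  filter_upwards [club_map (fun p : ℕ → Cond K =>
    {e : Cond K | (∀ k, pt e i ⊆ pt (p k) i) ∨ ∃ k, Disjoint (pt e i) (pt (p k) i)})] with N h1 p hp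
    x hx hxp
  obtain ⟨e, he, heN, hxe⟩ := hx _ (h1 p hp) (dense_inf hD hS p)
  rcases he with he | ⟨k, he⟩
  · exact ⟨e, heN, hxe, he⟩
  · exact (Set.disjoint_left.1 he hxe (hxp k)).elim

end Pool.Agent.GPA
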