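import Pool.Agent.GPA.XDefs
import Pool.Agent.GPA.Read
import Pool.Agent.GPA.PAll

/-!
# Selection lemmas at a level

`select`: countably many choices at one level, made densely, can be made simultaneously below one
condition by measurable functions. `select_tree`: the same for dependent choices along the nodes.
-/

open Set Filter

namespace Pool.Agent.GPA

variable {K : Type} [LinearOrder K] [WellFoundedLT K]

/-- The theorem of block P. -/
theorem blockP (_hF : ∀ {i : K} {j : WithTop K}, (∀ b : K, (b : WithTop K) < j ↔ b ≤ i) →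
    DecL (K := K) i → SigL (K := K) i → CovL (K := K) i → FrontD i j) : BlockP K :=
  ⟨decL, sigL, covL, fun _ _ h => genExt_club h⟩

/-- The theorem of block P. -/
theorem blockP_all : BlockP K := ⟨decL, sigL, covL, fun _ _ h => genExt_club h⟩

/-- Countably many choices at the level `i`, made densely, can be made simultaneously below one
condition, as measurable functions. -/
theorem select {i : WithTop K} (H : BlockP K) {U : Type} [Nonempty U]
    (Φ : ℕ → U → Pt K → Prop) (e₀ : Cond K)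
    (h : ∀ k, ∀ e, pt e i ⊆ pt e₀ i → ∃ e' u, pt e' i ⊆ pt e i ∧ ∀ x ∈ pt e' i, Φ k u x) :
    ∃ e, pt e i ⊆ pt e₀ i ∧ ∃ g : ℕ → Pt K → U, (∀ k, CM (g k)) ∧ (∀ k, Det i (g k)) ∧
      ∀ k, ∀ x ∈ pt e i, Φ k (g k x) x := by
  obtain ⟨e, h1, g, h2, h3, h4⟩ := dsim_seq (fun i₀ hi => H.gen i₀ i hi) (H.dec i)
    (fun k (u : U) e => ∀ x ∈ pt e i, Φ k u x) (e₀ := e₀) (fun k e he => by
      obtain ⟨e', u, h5, h6⟩ := h k e he
      exact ⟨e', h5, u, h6⟩)
  refine ⟨e, h1, g, h2, h3, fun k x hx => ?_⟩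
  obtain ⟨e', h5, h6⟩ := h4 x hx k
  exact h6 x h5

/-- Dependent choices along the nodes, at the level `i`. `V t u x`: the state `u` is valid at the
node `t` over `x`. -/
theorem select_tree {i : WithTop K} (H : BlockP K) {U : Type}
    (V : List ℕ → U → Pt K → Prop) (R : List ℕ → U → U → Pt K → Prop) (e₀ : Cond K) (u₀ : U)
    (h0 : ∀ x ∈ pt e₀ i, V [] u₀ x)
    (h : ∀ m t u e, (∀ x ∈ pt e i, V t u x) → ∃ e' u', pt e' i ⊆ pt e i ∧
      ∀ x ∈ pt e' i, V (m :: t) u' x ∧ R (m :: t) u u' x) :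
    ∃ e, pt e i ⊆ pt e₀ i ∧ ∃ g : List ℕ → Pt K → U, (∀ t, CM (g t)) ∧ (∀ t, Det i (g t)) ∧
      (∀ x, g [] x = u₀) ∧ ∀ x ∈ pt e i, ∀ t, V t (g t x) x ∧
        ∀ m, R (m :: t) (g t x) (g (m :: t) x) x := by
  classical
  let Q : List ℕ × U → Cond K → U → Prop := fun a e u' =>
    ∀ x ∈ pt e i, V a.1 u' x ∧ R a.1 a.2 u' x
  obtain ⟨N, hNs, hNc, hNP⟩ := club_exists
    ((((master fun i₀ hi => H.gen i₀ i hi).and (gen_reflect_wit (H.dec i) Q)).and
      club_pair).and (club_type (List ℕ)))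
    (A := {⟨Cond K, e₀⟩, ⟨U, u₀⟩}) (by simp)
  obtain ⟨⟨⟨h1, h2⟩, h3⟩, h4⟩ := hNP
  have he₀ : Has N e₀ := hNs (by simp)
  have hu₀ : Has N u₀ := hNs (by simp)
  obtain ⟨ec, hec, hec'⟩ := exists_enumH hNc he₀
  obtain ⟨va, hva, hva'⟩ := exists_enumH hNc hu₀
  obtain ⟨q, hq, hqg⟩ := h1 e₀ he₀
  let P : List ℕ × U → ℕ → Pt K → Prop := fun a m x =>
    x ∈ pt (ec (Nat.unpair m).1) i ∧ Q a (ec (Nat.unpair m).1) (va (Nat.unpair m).2)
  have hPm : ∀ a m, MeasurableSet {x | P a m x} := fun a m =>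
    (measurableSet_pt _ _).inter (MeasurableSet.const _)
  have hPd : ∀ a m, Det i (P a m) := fun a m => Det.and (det_pt _ _) (Det.const _ _)
  let ix : List ℕ × U → Pt K → ℕ := fun a x => sInf {m | P a m x}
  let g : List ℕ → Pt K → U := fun t => List.rec (fun _ => u₀)
    (fun m t G x => va (Nat.unpair (ix (m :: t, G x) x)).2) t
  have hg0 : ∀ x, g [] x = u₀ := fun x => rfl
  have hg1 : ∀ m t x, g (m :: t) x = va (Nat.unpair (ix (m :: t, g t x) x)).2 :=
    fun m t x => rfl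
  have hgc : ∀ t, CM (g t) := by
    intro t
    induction t with
    | nil => exact CM.const _
    | cons m t ih =>
      exact CM.bind ih (G := fun u x => va (Nat.unpair (ix (m :: t, u) x)).2) fun u =>
        (CM.find (hPm (m :: t, u))).map fun m => va (Nat.unpair m).2
  have hgd : ∀ t, Det i (g t) := by
    intro t
    induction t with
    | nil => exact Det.const _ _
    | cons m t ih =>
      exact Det.bind ih (G := fun u x => va (Nat.unpair (ix (m :: t, u) x)).2) fun u =>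
        (Det.find (hPd (m :: t, u))).map fun m => va (Nat.unpair m).2
  -- one step
  have hstep : ∀ x ∈ pt q i, ∀ t, (∃ e, Has N e ∧ Has N (g t x) ∧ x ∈ pt e i ∧
      ∀ x' ∈ pt e i, V t (g t x) x') → ∀ m, (∃ e, Has N e ∧ Has N (g (m :: t) x) ∧ x ∈ pt e i ∧
      ∀ x' ∈ pt e i, V (m :: t) (g (m :: t) x) x') ∧ R (m :: t) (g t x) (g (m :: t) x) x := by
    rintro x hx t ⟨e, heN, hgN, hxe, hV⟩ m
    obtain ⟨e', u', he'N, hu'N, hxe', -, hQ⟩ := h2 (m :: t, g t x) e (h3 _ _ _ _ (h4 _) hgN) heN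
      (fun r hr => by
        obtain ⟨e', u', h5, h6⟩ := h m t (g t x) r fun x' hx' => hV x' (hr hx')
        exact ⟨e', h5, u', h6⟩) x (hqg x hx) hxe
    obtain ⟨m₁, rfl⟩ := hec' e' he'N
    obtain ⟨m₂, rfl⟩ := hva' u' hu'N
    have hm : P (m :: t, g t x) (ix (m :: t, g t x) x) x := by
      refine Nat.sInf_mem (s := {n | P (m :: t, g t x) n x}) ⟨Nat.pair m₁ m₂, ?_⟩
      show x ∈ pt (ec (Nat.unpair (Nat.pair m₁ m₂)).1) i ∧ _
      rw [Nat.unpair_pair]
      exact ⟨hxe', hQ⟩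
    rw [hg1]
    exact ⟨⟨_, hec _, hva _, hm.1, fun x' hx' => (hm.2 x' hx').1⟩, (hm.2 x hm.1).2⟩
  have key : ∀ x ∈ pt q i, ∀ t, ∃ e, Has N e ∧ Has N (g t x) ∧ x ∈ pt e i ∧
      ∀ x' ∈ pt e i, V t (g t x) x' := by
    intro x hx t
    induction t with
    | nil => exact ⟨e₀, he₀, hu₀, hq hx, h0⟩
    | cons m t ih => exact (hstep x hx t ih m).1
  refine ⟨q, hq, g, hgc, hgd, hg0, fun x hx t => ?_⟩
  obtain ⟨e, -, -, hxe, hV⟩ := key x hx t
  exact ⟨hV x hxe, fun m => (hstep x hx t (key x hx t) m).2⟩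

end Pool.Agent.GPA
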