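import Pool.Agent.GPA.LavXa
import Pool.Agent.GPA.PAll
import Pool.Agent.GPA.XDefs
import Pool.Agent.GPA.FrameOf
import Pool.Agent.GPA.IterExt
import Pool.Agent.GPA.Borel
import Pool.Agent.GPA.XBase

/-!
# Block X: the frame from the extension theorem
-/

open MeasureTheory Set Filter
open scoped ENNReal

namespace Pool.Agent.GPA

variable {K : Type} [LinearOrder K]

/-! ### The top level -/

theorem isCode_empty (j : WithTop K) (a k : ℕ) : IsCode j a k (fun _ _ => (∅ : Set (YS ℕ))) where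
  cm := fun _ => CM.const _
  det := Det.const _ _
  cyl := fun _ _ => ⟨∅, fun _ _ _ => Iff.rfl⟩
  le := fun _ _ => by rw [measure_empty]; exact zero_le

theorem extTop_of_ext {N : Set Obj} {i : WithTop K}
    (hT : ∀ e : Cond K, Has N e → Has N ((fun _ => e, fun _ _ _ => ∅, 1) : Task K))
    (h : EXT N i ⊤) : ExtTop N i := by
  intro B e he _ _ hB μ hm hd h1 hk ε hε
  obtain ⟨k, q, -, -, hq⟩ := h (fun _ => e, fun _ _ _ => ∅, 1) (hT e he)
    (fun k => isCode_empty ⊤ 1 k) μ ⟨hm, hd, h1⟩ ε hε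
  refine ⟨q, fun y hy hyq => ?_⟩
  obtain ⟨-, h3, h4, -⟩ := hq y (fun _ => (hB y hy).2) (hB y hy).1
    (fun W hW hWn => hk y hy W hW ⟨hWn.meas, hWn.null, hWn.det⟩) hyq
  exact ⟨h4, fun W hW hWn => (h3 W hW (by
    first | exact hWn | exact ⟨hWn.1, hWn.2.2, hWn.2.1⟩)).le.trans zero_le⟩

/-! ### The induction -/

/-- The extension theorem from its four steps. -/
theorem ext_all_of [WellFoundedLT K]
    (hrefl : ∀ i : WithTop K, ∀ᶠ N in club, EXT (K := K) N i i)
    (hnext : ∀ {i : K} {j : WithTop K}, (∀ b : K, (b : WithTop K) < j ↔ b ≤ i) →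
      ∀ᶠ N in club, EXT (K := K) N (i : WithTop K) j)
    (hcomp : ∀ {i l j : WithTop K}, i ≤ l → l ≤ j → (∀ᶠ N in club, EXT (K := K) N i l) →
      (∀ᶠ N in club, EXT (K := K) N l j) → ∀ᶠ N in club, EXT (K := K) N i j)
    (hlim : ∀ {i j : WithTop K}, i < j →
      (∀ a : K, (a : WithTop K) < j → ∃ b : K, a < b ∧ (b : WithTop K) < j) →
      (∀ l l' : WithTop K, l ≤ l' → l' < j → ∀ᶠ N in club, EXT (K := K) N l l') →
      ∀ᶠ N in club, EXT (K := K) N i j) (j : WithTop K) :
    ∀ i ≤ j, ∀ᶠ N in club, EXT (K := K) N i j := by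
  induction j using WellFoundedLT.induction with
  | ind j ih =>
    intro i hij
    rcases hij.eq_or_lt with rfl | hij
    · exact hrefl i
    by_cases hs : ∃ i₀ : K, (i₀ : WithTop K) < j ∧ ∀ b : K, (b : WithTop K) < j → b ≤ i₀
    · obtain ⟨i₀, h1, h2⟩ := hs
      have hj : ∀ b : K, (b : WithTop K) < j ↔ b ≤ i₀ := fun b =>
        ⟨h2 b, fun h => (WithTop.coe_le_coe.2 h).trans_lt h1⟩
      have hi : i ≤ i₀ := by
        induction i using WithTop.recTopCoe with
        | top => exact absurd hij (not_lt.2 le_top)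
        | coe i => exact WithTop.coe_le_coe.2 (h2 i hij)
      exact hcomp hi h1.le (ih i₀ h1 i hi) (hnext hj)
    · push Not at hs
      exact hlim hij (fun a ha => (hs a ha).imp fun b hb => ⟨hb.2, hb.1⟩)
        fun l l' hl hl' => ih l' hl' l hl

/-- The extension theorem from the step to the next level. -/
theorem ext_all_of_next [WellFoundedLT K]
    (hnext : ∀ {i : K} {j : WithTop K}, (∀ b : K, (b : WithTop K) < j ↔ b ≤ i) →
      ∀ᶠ N in club, EXT (K := K) N (i : WithTop K) j) {i j : WithTop K} (hij : i ≤ j) :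
    ∀ᶠ N in club, EXT (K := K) N i j :=
  ext_all_of (fun _ => ext_refl) hnext (fun h h' => ext_comp blockP_all h h')
    (fun h h' => ext_limit blockP_all h h') j i hij

/-- The field `ext` of `LavSys` from Theorem B. -/
theorem extI_of_ext [WellFoundedLT K]
    (h : ∀ i j : WithTop K, i ≤ j → ∀ᶠ N in club, EXT (K := K) N i j) : ExtI (PP K) ℕ := by
  obtain ⟨m, -, hm⟩ := (wellFounded_lt (α := WithTop K)).has_min univ ⟨⊤, mem_univ _⟩
  have hm0 : ∀ a : K, ¬ (a : WithTop K) < m := fun a => hm a (mem_univ _)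
  refine extI_nat hm0 (fun d => genExt_club (not_lt.1 (hm0 d))) fun d => ?_
  filter_upwards [h d ⊤ le_top,
    club_map fun e : Cond K => ((fun _ => e, fun _ _ _ => ∅, 1) : Task K)] with N h1 h2
  exact extTop_of_ext h2 h1

/-- The frame of block M from Theorem B. -/
theorem exists_frame_of_ext
    (h : ∀ i j : WithTop KK, i ≤ j → ∀ᶠ N in club, EXT (K := KK) N i j) : Nonempty Frame :=
  (exists_lavSys (extI_of_ext h)).elim fun S => exists_frame S

/-- The frame of block M from the step to the next level. -/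
theorem exists_frame_of_next
    (hnext : ∀ {i : KK} {j : WithTop KK}, (∀ b : KK, (b : WithTop KK) < j ↔ b ≤ i) →
      ∀ᶠ N in club, EXT (K := KK) N (i : WithTop KK) j) : Nonempty Frame :=
  exists_frame_of_ext fun _ _ h => ext_all_of_next hnext h

end Pool.Agent.GPA
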