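import Pool.Agent.GPA.Dom
import Pool.Agent.GPA.ExtI

/-!
# From the extension of generic points with preservation to the field `ext`

`NullL j W`: `W` is a null name of level `j`. `ExtTop N i`: generic points of level `i` extend to the
top such that the measures which vanish on all null names of `N` of level `i` are small on the null
names of `N` of the top level. The field `ext` of `LavSys` for the family `PP K` follows.
-/

open Set Filter MeasureTheory
open scoped ENNReal

namespace Pool.Agent.GPA

variable {K : Type} [LinearOrder K]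

/-! ### Measurability with respect to a level -/

/-- The point `x` below `d`, and `0` from `d` on. -/
noncomputable def cut (d : K) (x : XS K) : XS K := by
  classical
  exact fun a => if a < d then x a else fun _ => 0

theorem agr_cut (d : K) (x : XS K) : Agr (d : WithTop K) (cut d x) x := by
  classical
  intro b hb
  show (if b < d then x b else _) = x b
  rw [if_pos (WithTop.coe_lt_coe.1 hb)]

theorem measurable_cut (d : K) : Measurable[lev d] (cut d) := by
  classical
  refine (@measurable_pi_iff _ _ _ (lev d) _ _).2 fun a => ?_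
  by_cases ha : a < d
  · have h1 : Measurable[lev d] fun (x : XS K) (b : Set.Iio d) => x b := comap_measurable _
    have h2 : (fun x : XS K => cut d x a) = fun x => x a := by
      funext x
      show (if a < d then x a else _) = x a
      rw [if_pos ha]
    rw [h2]
    exact (measurable_pi_apply (⟨a, ha⟩ : Set.Iio d)).comp h1
  · have h2 : (fun x : XS K => cut d x a) = fun _ => fun _ => 0 := by
      funext x
      show (if a < d then x a else _) = _
      rw [if_neg ha]
    rw [h2]
    exact measurable_const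

/-- A measurable function which depends only on the coordinates below `d` is measurable with respect
to the level `d`. -/
theorem measurable_lev_of_det {α : Type*} [MeasurableSpace α] {d : K} {f : XS K → α}
    (hf : Measurable f) (hd : Det (d : WithTop K) f) : Measurable[lev d] f := by
  have : f = fun x => f (cut d x) := funext fun x => (hd _ _ (agr_cut d x)).symm
  rw [this]
  exact hf.comp (measurable_cut d)

theorem measurableSet_lev_of_det {d : K} {S : Set (XS K)} (hS : MeasurableSet S)
    (hd : Det (d : WithTop K) (fun x => x ∈ S)) : MeasurableSet[lev d] S := by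
  have : S = cut d ⁻¹' S := by
    ext x
    exact (iff_of_eq (hd _ _ (agr_cut d x))).symm
  rw [this]
  exact (measurable_cut d) hS

theorem det_of_measurableSet_lev {d : K} {S : Set (XS K)} (hS : MeasurableSet[lev d] S) :
    Det (d : WithTop K) (fun x => x ∈ S) := fun _ _ h => propext (lev_congr hS h)

/-! ### Null names -/

/-- `W` is a null name of level `j`. -/
def NullL (j : WithTop K) (W : Set (Pt K × YS ℕ)) : Prop :=
  MeasurableSet W ∧ (∀ x, coin ℕ (sec W x) = 0) ∧ Det j (fun x => sec W x)

theorem NullL.measurableSet_prod {d : K} {W : Set (Pt K × YS ℕ)} (h : NullL (d : WithTop K) W) :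
    MeasurableSet[(lev d).prod inferInstance] W := by
  have : W = (fun p : XS K × YS ℕ => (cut d p.1, p.2)) ⁻¹' W := by
    ext ⟨x, y⟩
    exact (iff_of_eq (congrArg (y ∈ ·) (h.2.2 _ _ (agr_cut d x)))).symm
  rw [this]
  have h2 : @Measurable (XS K × YS ℕ) (XS K) ((lev d).prod inferInstance) _
      (cut d ∘ Prod.fst) := @Measurable.comp _ _ _ ((lev d).prod inferInstance) (lev d) _ _ _
        (measurable_cut d) (@measurable_fst _ _ (lev d) _)
  have h3 : @Measurable (XS K × YS ℕ) (YS ℕ) ((lev d).prod inferInstance) _ Prod.snd :=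
    @measurable_snd _ _ (lev d) _
  have h1 := @Measurable.prodMk _ ((lev d).prod inferInstance) _ _ _ _ _ _ h2 h3
  exact h1 h.1

/-- Generic points of level `i` extend to the top, and the measures which vanish on the null names
of `N` of level `i` are small on the null names of `N` of the top level. -/
def ExtTop (N : Set Obj) (i : WithTop K) : Prop :=
  ∀ (B : Set (Pt K)) (e : Cond K), Has N e → MeasurableSet B → Det i (fun x => x ∈ B) →
    (∀ x ∈ B, Gen N i x ∧ x ∈ pt e i) →
    ∀ μ : Pt K → Measure (YS ℕ), (∀ s, MeasurableSet s → Measurable fun x => μ x s) → Det i μ →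
      (∀ x, μ x Set.univ ≤ 1) →
      (∀ x ∈ B, ∀ W : Set (Pt K × YS ℕ), Has N W → NullL i W → μ x (sec W x) = 0) →
      ∀ ε : ℝ≥0∞, ε ≠ 0 → ∃ q : Cond K, ∀ y ∈ B, y ∈ ptI q i ⊤ → y ∈ pt e ⊤ ∧
        ∀ W : Set (Pt K × YS ℕ), Has N W → NullL ⊤ W → μ y (sec W y) ≤ ε

/-- A countable set of objects has countably many elements of every type. -/
theorem countable_has {N : Set Obj} (hN : N.Countable) (α : Type) : {u : α | Has N u}.Countable := by
  refine (hN.preimage_of_injOn (f := fun u : α => (⟨α, u⟩ : Obj)) ?_).mono fun u hu => hu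
  intro u _ v _ huv
  simpa using huv

variable [WellFoundedLT K]

theorem extI_nat {i₀ : WithTop K} (hi₀ : ∀ a : K, ¬ (a : WithTop K) < i₀)
    (hgen : ∀ d : K, ∀ᶠ N in club, GenExt (K := K) N i₀ d)
    (hext : ∀ d : K, ∀ᶠ N in club, ExtTop (K := K) N d) : ExtI (PP K) ℕ := by
  rintro d _ ⟨p, rfl⟩ W hW hW0
  obtain ⟨N, -, -, hNc, ⟨hNp, hNW⟩, hNg, hNe, hNs⟩ := club_exists (P := fun N => N.Countable ∧
      (Has N p ∧ Has N W) ∧ GenExt (K := K) N i₀ d ∧ ExtTop (K := K) N d ∧
      ∀ D : Set (Cond K), Has N D → (∃ c, c ∈ D) → ∃ c, Has N c ∧ c ∈ D)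
    (club_countable.and (((club_const p).and (club_const W)).and ((hgen d).and ((hext d).and
      (club_skolem fun (D : Set (Cond K)) (c : Cond K) => c ∈ D))))) countable_empty
  -- the master condition
  have hi₀d : i₀ ≤ (d : WithTop K) := not_lt.1 (hi₀ d)
  have hpt₀ : ∀ c : Cond K, ∀ x, x ∈ pt c i₀ := fun c x a ha => absurd ha (hi₀ a)
  obtain ⟨q, hq⟩ := hNg Set.univ (fun _ => p) MeasurableSet.univ (fun _ _ _ => rfl) (CM.const p)
    (Det.const _ p) (fun _ => hNp) (fun x _ => ⟨fun D hD hDd => by
      obtain ⟨e, he, -⟩ := hDd Cond.full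
      obtain ⟨c, hc, hcD⟩ := hNs D hD ⟨e, he⟩
      exact ⟨c, hcD, hc, hpt₀ c x⟩, hpt₀ p x⟩)
  have hU : ∀ x, x ∈ pt q d → Gen N d x ∧ x ∈ pt p d := fun x hx =>
    hq x (mem_univ x) fun a _ ha => hx a ha
  have hUPP : ∀ c : Cond K, pt c (d : WithTop K) ∈ PP K := by
    intro c
    refine ⟨Cond.glue d c Cond.full, ?_⟩
    ext x
    rw [mem_pt_glue le_top]
    refine ⟨fun h => h.1, fun h => ⟨h, fun a _ _ => ?_⟩⟩
    show x a ∈ (MT.full : MT K).br x
    rw [br_full]
    exact mem_univ _
  have hcount : {W' : Set (Pt K × YS ℕ) | Has N W' ∧ NullL (d : WithTop K) W'}.Countable :=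
    (countable_has hNc _).mono fun W' h => h.1
  refine ⟨pt q d, hUPP q, measurableSet_lev_of_det (measurableSet_pt q d) (det_pt q d), ?_,
    ⋃₀ {W' | Has N W' ∧ NullL (d : WithTop K) W'}, ?_, ?_, ?_⟩
  · intro x hx
    obtain ⟨y, hy, hyx⟩ := exists_ext_level p (hU x hx).2
    exact ⟨y, hy, fun b hb => hyx b (WithTop.coe_lt_coe.2 hb)⟩
  · exact @MeasurableSet.sUnion _ ((lev d).prod inferInstance) _ hcount
      fun W' h => h.2.measurableSet_prod
  · intro x
    have : sec (⋃₀ {W' | Has N W' ∧ NullL (d : WithTop K) W'}) x =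
        ⋃ W' ∈ {W' : Set (Pt K × YS ℕ) | Has N W' ∧ NullL (d : WithTop K) W'}, sec W' x := by
      ext y
      simp [sec]
    rw [this]
    exact (measure_biUnion_null_iff hcount).2 fun W' h => h.2.2.1 x
  · rintro _ ⟨q', rfl⟩ hU'm hU'U μ hμm hμ1 hμ0 ε hε
    have hμd : Det (d : WithTop K) μ := by
      intro x y hxy
      refine Measure.ext fun s hs => ?_
      have h1 : MeasurableSet[lev d] ((fun x => μ x s) ⁻¹' {μ x s}) :=
        (hμm s hs) (measurableSet_singleton _)
      exact ((lev_congr h1 hxy).1 rfl).symm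
    obtain ⟨q₂, hq₂⟩ := hNe (pt q' ⊤) p hNp (measurableSet_pt q' ⊤)
      (det_of_measurableSet_lev hU'm) (fun x hx => hU x (hU'U hx)) μ
      (fun s hs => (hμm s hs).mono (lev_le d) le_rfl) hμd hμ1 (fun x hx W' hW' hWn => by
        refine measure_mono_null ?_ (hμ0 x hx)
        intro y hy
        exact ⟨W', ⟨hW', hWn⟩, hy⟩) ε hε
    have hB : ∀ y, y ∈ pt (Cond.glue d q' q₂) ⊤ → y ∈ pt q' ⊤ ∧ y ∈ ptI q₂ d ⊤ := by
      intro y hy
      rw [mem_pt_glue le_top] at hy
      refine ⟨?_, hy.2⟩
      obtain ⟨z, hz, hzy⟩ := exists_ext_level q' hy.1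
      exact (lev_congr hU'm hzy).1 hz
    refine ⟨pt (Cond.glue d q' q₂) ⊤, ⟨_, rfl⟩, fun y hy => (hB y hy).1,
      fun y hy => (hq₂ y (hB y hy).1 (hB y hy).2).1, fun y hy => ?_⟩
    exact (hq₂ y (hB y hy).1 (hB y hy).2).2 W hNW ⟨hW, hW0, det_top _⟩

end Pool.Agent.GPA
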