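import Mathlib

/-!
# Lemma A: averages of weakly convergent sequences of functions
-/

open MeasureTheory Set Filter
open scoped ENNReal Topology

namespace Pool.Agent.GPA

section BanachSaks

variable {Y : Type*} [MeasurableSpace Y] {μ : Measure Y} [IsFiniteMeasure μ]

theorem integrable_of_bound {f : Y → ℝ} {C : ℝ} (hf : Measurable f) (hC : ∀ y, |f y| ≤ C) :
    Integrable f μ :=
  Integrable.of_bound hf.aestronglyMeasurable C (Eventually.of_forall hC)

/-- Banach-Saks: averages of a bounded sequence which converges weakly to `0`. -/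
theorem exists_avg_sq {f : ℕ → Y → ℝ} {C : ℝ} (hf : ∀ k, Measurable (f k))
    (hC : ∀ k y, |f k y| ≤ C) (hC0 : 0 ≤ C)
    (hw : ∀ i, Tendsto (fun k => ∫ y, f k y * f i y ∂μ) atTop (𝓝 0)) (j : ℕ) {ε : ℝ}
    (hε : 0 < ε) :
    ∃ s : Finset ℕ, s.Nonempty ∧ (∀ k ∈ s, j ≤ k) ∧
      ∫ y, ((∑ k ∈ s, f k y) / s.card) ^ 2 ∂μ ≤ ε := by
  classical
  have hsum : ∀ s : Finset ℕ, Measurable fun y => ∑ k ∈ s, f k y := fun s =>
    Finset.measurable_sum s fun k _ => hf k
  have hsumb : ∀ (s : Finset ℕ) y, |∑ k ∈ s, f k y| ≤ s.card * C := by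
    intro s y
    refine (Finset.abs_sum_le_sum_abs _ _).trans ?_
    refine (Finset.sum_le_card_nsmul _ _ C fun k _ => hC k y).trans ?_
    rw [nsmul_eq_mul]
  set A : ℝ := C ^ 2 * μ.real univ + 1 with hA
  have hA0 : 0 < A := by positivity
  have key : ∀ n : ℕ, ∃ s : Finset ℕ, s.card = n ∧ (∀ k ∈ s, j ≤ k) ∧
      ∫ y, (∑ k ∈ s, f k y) ^ 2 ∂μ ≤ n * A := by
    intro n
    induction n with
    | zero => exact ⟨∅, rfl, by simp, by simp⟩
    | succ n ih =>
      obtain ⟨s, hs, hsj, hsi⟩ := ih
      have h1 : Tendsto (fun k => ∑ i ∈ s, ∫ y, f k y * f i y ∂μ) atTop (𝓝 0) := by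
        have := tendsto_finsetSum s fun i _ => hw i
        simpa using this
      have h2 : ∀ᶠ k in atTop, ∑ i ∈ s, ∫ y, f k y * f i y ∂μ < 1 / 2 :=
        h1.eventually (Iio_mem_nhds (by norm_num))
      obtain ⟨k, hk1, hk2, hk3⟩ := (h2.and ((eventually_ge_atTop j).and
        (eventually_ge_atTop (s.sup id + 1)))).exists
      have hks : k ∉ s := by
        intro h
        have := Finset.le_sup (f := id) h
        simp only [id] at this
        omega
      refine ⟨insert k s, by rw [Finset.card_insert_of_notMem hks, hs], ?_, ?_⟩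
      · intro i hi
        rcases Finset.mem_insert.1 hi with rfl | hi
        · exact hk2
        · exact hsj i hi
      · have hi1 : Integrable (fun y => (∑ i ∈ s, f i y) ^ 2) μ := by
          refine integrable_of_bound (C := (s.card * C) ^ 2) ((hsum s).pow_const 2) fun y => ?_
          rw [abs_pow]
          exact pow_le_pow_left₀ (abs_nonneg _) (hsumb s y) 2
        have hi2 : Integrable (fun y => f k y ^ 2) μ := by
          refine integrable_of_bound (C := C ^ 2) ((hf k).pow_const 2) fun y => ?_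
          rw [abs_pow]
          exact pow_le_pow_left₀ (abs_nonneg _) (hC k y) 2
        have hi3 : ∀ i, Integrable (fun y => f k y * f i y) μ := by
          intro i
          refine integrable_of_bound (C := C * C) ((hf k).mul (hf i)) fun y => ?_
          rw [abs_mul]
          exact mul_le_mul (hC k y) (hC i y) (abs_nonneg _) hC0
        have hi4 : Integrable (fun y => ∑ i ∈ s, f k y * f i y) μ :=
          integrable_finsetSum _ fun i _ => hi3 i
        have h3 : ∀ y, (∑ i ∈ insert k s, f i y) ^ 2 =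
            (∑ i ∈ s, f i y) ^ 2 + f k y ^ 2 + 2 * ∑ i ∈ s, f k y * f i y := by
          intro y
          rw [Finset.sum_insert hks, ← Finset.mul_sum]
          ring
        have e1 := integral_add (hi1.add hi2) (hi4.const_mul 2)
        have e2 := integral_add hi1 hi2
        simp only [Pi.add_apply] at e1
        simp_rw [h3]
        rw [e1, e2, integral_const_mul, integral_finsetSum _ fun i _ => hi3 i]
        have h4 : ∫ y, f k y ^ 2 ∂μ ≤ C ^ 2 * μ.real univ := by
          have h5 : ∫ y, f k y ^ 2 ∂μ ≤ ∫ _, C ^ 2 ∂μ := by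
            refine integral_mono hi2 (integrable_const _) fun y => ?_
            have := pow_le_pow_left₀ (abs_nonneg _) (hC k y) 2
            rwa [sq_abs] at this
          rw [integral_const, smul_eq_mul, mul_comm] at h5
          exact h5
        push_cast
        nlinarith
  obtain ⟨n, hn⟩ := exists_nat_gt (A / ε)
  have hn0 : 0 < (n : ℝ) := lt_of_le_of_lt (by positivity) hn
  obtain ⟨s, hs, hsj, hsi⟩ := key n
  refine ⟨s, ?_, hsj, ?_⟩
  · rw [← Finset.card_pos, hs]
    exact_mod_cast hn0
  · simp_rw [div_pow]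
    rw [integral_div, hs, div_le_iff₀ (by positivity)]
    refine hsi.trans ?_
    rw [div_lt_iff₀ hε] at hn
    nlinarith

/-- Weak convergence on a generating `π`-system implies weak convergence. -/
theorem weak_of_pi {P : Set (Set Y)} (hgen : ‹MeasurableSpace Y› = MeasurableSpace.generateFrom P)
    (hpi : IsPiSystem P) {u : ℕ → Y → ℝ} {u' : Y → ℝ} {C : ℝ} (hC0 : 0 ≤ C)
    (hu : ∀ k, Measurable (u k)) (hu' : Measurable u') (hC : ∀ k y, |u k y| ≤ C)
    (hC' : ∀ y, |u' y| ≤ C)
    (huniv : Tendsto (fun k => ∫ y, u k y ∂μ) atTop (𝓝 (∫ y, u' y ∂μ)))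
    (hP : ∀ A ∈ P, Tendsto (fun k => ∫ y in A, u k y ∂μ) atTop (𝓝 (∫ y in A, u' y ∂μ)))
    {g : Y → ℝ} (hg : Integrable g μ) :
    Tendsto (fun k => ∫ y, u k y * g y ∂μ) atTop (𝓝 (∫ y, u' y * g y ∂μ)) := by
  have hi : ∀ k, Integrable (u k) μ := fun k => integrable_of_bound (hu k) (hC k)
  have hi' : Integrable u' μ := integrable_of_bound hu' hC'
  -- all measurable sets
  have hset : ∀ A, MeasurableSet A →
      Tendsto (fun k => ∫ y in A, u k y ∂μ) atTop (𝓝 (∫ y in A, u' y ∂μ)) := by
    intro A hA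
    induction A, hA using MeasurableSpace.induction_on_inter hgen hpi with
    | empty => simp
    | basic A hA => exact hP A hA
    | compl A hA ih =>
      have h1 : ∀ v : Y → ℝ, Integrable v μ → ∫ y in Aᶜ, v y ∂μ =
          ∫ y, v y ∂μ - ∫ y in A, v y ∂μ := fun v hv => by
        rw [← integral_add_compl hA hv]
        ring
      rw [h1 u' hi']
      simp_rw [fun k => h1 (u k) (hi k)]
      exact huniv.sub ih
    | iUnion F hd hF ih =>
      have h1 : ∀ v : Y → ℝ, Integrable v μ → ∫ y in ⋃ i, F i, v y ∂μ =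
          ∑' i, ∫ y in F i, v y ∂μ := fun v hv =>
        integral_iUnion hF hd hv.integrableOn
      rw [h1 u' hi']
      simp_rw [fun k => h1 (u k) (hi k)]
      have hsumm : Summable fun i => C * μ.real (F i) := by
        refine Summable.mul_left C ?_
        have h2 : ∑' i, μ (F i) ≠ ∞ := by
          rw [← measure_iUnion hd hF]
          exact measure_ne_top _ _
        exact ENNReal.summable_toReal h2
      refine tendsto_tsum_of_dominated_convergence hsumm ih (Eventually.of_forall fun k i => ?_)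
      refine (norm_integral_le_of_norm_le_const (C := C) ?_).trans (le_of_eq ?_)
      · exact Eventually.of_forall fun y => hC k y
      · simp [Measure.real]
  -- integrable functions
  have hmul : ∀ (v : Y → ℝ), Measurable v → (∀ y, |v y| ≤ C) → ∀ {g : Y → ℝ}, Integrable g μ →
      Integrable (fun y => v y * g y) μ := fun v hv hvC g hg =>
    hg.bdd_mul hv.aestronglyMeasurable (Eventually.of_forall hvC)
  refine Integrable.induction (P := fun g => Tendsto (fun k => ∫ y, u k y * g y ∂μ) atTop
    (𝓝 (∫ y, u' y * g y ∂μ))) ?_ ?_ ?_ ?_ hg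
  · intro c s hs _
    have h1 : ∀ v : Y → ℝ, ∫ y, v y * s.indicator (fun _ => c) y ∂μ =
        c * ∫ y in s, v y ∂μ := fun v => by
      rw [← integral_const_mul, ← integral_indicator hs]
      refine integral_congr_ae (Eventually.of_forall fun y => ?_)
      by_cases hy : y ∈ s
      · simp [hy, mul_comm]
      · simp [hy]
    rw [h1]
    simp_rw [fun k => h1 (u k)]
    exact (hset s hs).const_mul c
  · intro f g _ hf hg ihf ihg
    have h1 : ∀ v : Y → ℝ, Measurable v → (∀ y, |v y| ≤ C) → ∫ y, v y * (f + g) y ∂μ =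
        ∫ y, v y * f y ∂μ + ∫ y, v y * g y ∂μ := fun v hv hvC => by
      rw [← integral_add (hmul v hv hvC hf) (hmul v hv hvC hg)]
      refine integral_congr_ae (Eventually.of_forall fun y => ?_)
      simp [mul_add]
    rw [h1 u' hu' hC']
    simp_rw [fun k => h1 (u k) (hu k) (hC k)]
    exact ihf.add ihg
  · rw [← isSeqClosed_iff_isClosed]
    intro f f' hf hlim
    change Tendsto (fun k => ∫ y, u k y * f' y ∂μ) atTop (𝓝 (∫ y, u' y * f' y ∂μ))
    rw [Metric.tendsto_atTop]
    intro ε hε
    have hd : ∀ᶠ n in atTop, dist (f n) f' < ε / (3 * (C + 1)) :=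
      (Metric.tendsto_nhds.1 hlim) _ (by positivity)
    obtain ⟨n, hn⟩ := hd.exists
    have hfn : Tendsto (fun k => ∫ y, u k y * f n y ∂μ) atTop (𝓝 (∫ y, u' y * f n y ∂μ)) :=
      hf n
    obtain ⟨N, hN⟩ := (Metric.tendsto_atTop.1 hfn) (ε / 3) (by positivity)
    refine ⟨N, fun k hk => ?_⟩
    have h1 : ∀ v : Y → ℝ, Measurable v → (∀ y, |v y| ≤ C) →
        |∫ y, v y * f' y ∂μ - ∫ y, v y * f n y ∂μ| ≤ C * dist (f n) f' := fun v hv hvC => by
      rw [← integral_sub (hmul v hv hvC (L1.integrable_coeFn f'))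
        (hmul v hv hvC (L1.integrable_coeFn (f n)))]
      refine (abs_integral_le_integral_abs).trans ?_
      have h2 : dist (f n) f' = ∫ y, |f n y - f' y| ∂μ := by
        rw [dist_eq_norm, L1.norm_eq_integral_norm]
        refine integral_congr_ae ?_
        filter_upwards [Lp.coeFn_sub (f n) f'] with y hy
        rw [hy, Pi.sub_apply, Real.norm_eq_abs]
      rw [h2, ← integral_const_mul]
      refine integral_mono_of_nonneg (Eventually.of_forall fun y => abs_nonneg _)
        (((L1.integrable_coeFn (f n)).sub (L1.integrable_coeFn f')).abs.const_mul C)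
        (Eventually.of_forall fun y => ?_)
      change |v y * f' y - v y * f n y| ≤ C * |f n y - f' y|
      rw [← mul_sub, abs_mul, abs_sub_comm (f' y)]
      exact mul_le_mul_of_nonneg_right (hvC y) (abs_nonneg _)
    have h3 := h1 (u k) (hu k) (hC k)
    have h4 := h1 u' hu' hC'
    have h5 := hN k hk
    rw [Real.dist_eq] at h5 ⊢
    have h6 : C * dist (f n) f' ≤ ε / 3 := by
      have h7 : C * dist (f n) f' ≤ (C + 1) * (ε / (3 * (C + 1))) :=
        mul_le_mul (by linarith) hn.le dist_nonneg (by linarith)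
      refine h7.trans (le_of_eq ?_)
      field_simp
    rw [abs_le] at h3 h4
    rw [abs_lt] at h5 ⊢
    constructor <;> linarith [h3.1, h3.2, h4.1, h4.2, h5.1, h5.2]
  · intro f g hfg _ ih
    have h1 : ∀ v : Y → ℝ, ∫ y, v y * g y ∂μ = ∫ y, v y * f y ∂μ := fun v => by
      refine integral_congr_ae ?_
      filter_upwards [hfg] with y hy
      rw [hy]
    simp_rw [h1]
    exact ih

/-! ### Series -/

section Series

variable {u : ℕ → ℕ → Y → ℝ} {u' : ℕ → Y → ℝ}

/-- (A1) averages of the partial sums -/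
theorem lemA_avg (hu : ∀ l k, Measurable (u l k)) (hu' : ∀ l, Measurable (u' l))
    (h0 : ∀ l k y, 0 ≤ u l k y) (h1 : ∀ l k y, u l k y ≤ 1) (h0' : ∀ l y, 0 ≤ u' l y)
    (h1' : ∀ l y, u' l y ≤ 1)
    (hw : ∀ l (g : Y → ℝ), Integrable g μ →
      Tendsto (fun k => ∫ y, u l k y * g y ∂μ) atTop (𝓝 (∫ y, u' l y * g y ∂μ)))
    (j L : ℕ) {ε : ℝ} (hε : 0 < ε) :
    ∃ s : Finset ℕ, s.Nonempty ∧ (∀ k ∈ s, j ≤ k) ∧
      ∫ y, ((∑ k ∈ s, ∑ l ∈ Finset.range L, u l k y) / s.card -
        ∑ l ∈ Finset.range L, u' l y) ^ 2 ∂μ ≤ ε := by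
  set f : ℕ → Y → ℝ := fun k y => ∑ l ∈ Finset.range L, (u l k y - u' l y) with hf
  have hfm : ∀ k, Measurable (f k) := fun k =>
    Finset.measurable_sum _ fun l _ => (hu l k).sub (hu' l)
  have hfb : ∀ k y, |f k y| ≤ L := by
    intro k y
    refine (Finset.abs_sum_le_sum_abs _ _).trans ?_
    refine (Finset.sum_le_card_nsmul _ _ 1 fun l _ => ?_).trans (by simp)
    rw [abs_le]
    constructor <;> linarith [h0 l k y, h1 l k y, h0' l y, h1' l y]
  have hwf : ∀ i, Tendsto (fun k => ∫ y, f k y * f i y ∂μ) atTop (𝓝 0) := by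
    intro i
    have hint : Integrable (f i) μ := integrable_of_bound (hfm i) (hfb i)
    have h2 : ∀ k, ∫ y, f k y * f i y ∂μ = ∑ l ∈ Finset.range L,
        (∫ y, u l k y * f i y ∂μ - ∫ y, u' l y * f i y ∂μ) := by
      intro k
      have hb : ∀ l, Integrable (fun y => u l k y * f i y) μ := fun l =>
        hint.bdd_mul (c := 1) (hu l k).aestronglyMeasurable (Eventually.of_forall fun y => by
          rw [Real.norm_eq_abs, abs_of_nonneg (h0 l k y)]
          exact h1 l k y)
      have hb' : ∀ l, Integrable (fun y => u' l y * f i y) μ := fun l =>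
        hint.bdd_mul (c := 1) (hu' l).aestronglyMeasurable (Eventually.of_forall fun y => by
          rw [Real.norm_eq_abs, abs_of_nonneg (h0' l y)]
          exact h1' l y)
      have e1 : ∀ l, ∫ y, u l k y * f i y ∂μ - ∫ y, u' l y * f i y ∂μ =
          ∫ y, (u l k y * f i y - u' l y * f i y) ∂μ := fun l => (integral_sub (hb l) (hb' l)).symm
      simp_rw [e1]
      have e2 := integral_finsetSum (μ := μ) (Finset.range L)
        (f := fun l y => u l k y * f i y - u' l y * f i y) fun l _ => (hb l).sub (hb' l)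
      rw [← e2]
      refine integral_congr_ae (Eventually.of_forall fun y => ?_)
      simp only [hf, Finset.sum_mul, sub_mul]
    simp_rw [h2]
    have h3 : Tendsto (fun k => ∑ l ∈ Finset.range L,
        (∫ y, u l k y * f i y ∂μ - ∫ y, u' l y * f i y ∂μ)) atTop
        (𝓝 (∑ l ∈ Finset.range L, (∫ y, u' l y * f i y ∂μ - ∫ y, u' l y * f i y ∂μ))) :=
      tendsto_finsetSum _ fun l _ => (hw l (f i) hint).sub_const _
    simpa using h3
  obtain ⟨s, hs, hsj, hsi⟩ := exists_avg_sq hfm hfb (Nat.cast_nonneg L) hwf j hε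
  refine ⟨s, hs, hsj, le_of_eq_of_le ?_ hsi⟩
  refine integral_congr_ae (Eventually.of_forall fun y => ?_)
  have hc : (s.card : ℝ) ≠ 0 := by
    have := Finset.card_pos.2 hs
    positivity
  have h4 : ∑ k ∈ s, f k y = ∑ k ∈ s, ∑ l ∈ Finset.range L, u l k y -
      s.card * ∑ l ∈ Finset.range L, u' l y := by
    simp only [hf, Finset.sum_sub_distrib, Finset.sum_const, nsmul_eq_mul]
  simp only [h4]
  congr 1
  field_simp

end Series

end BanachSaks

end Pool.Agent.GPA
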