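import Pool.Agent.GPA.MName

/-!
# Block M, part 8: absoluteness of the order of `ω^ω` and of null sets
-/

set_option linter.unusedSectionVars false

namespace Pool.Agent.GPA

open Pool.Agent.SigB Pool.Agent.Frc Pool.Agent.Forc

/-- The set where `f z ≤ f' z`. -/
def leE (F : Frame) (f f' : NF F) : Set F.Z := {z | ∀ n, f.1 z n ≤ f'.1 z n}

/-- The set where `f z` belongs to the null set coded by `c z`. -/
def nuE (F : Frame) (f : NB F) (c : NC F) : Set F.Z := {z | f.1 z ∈ NullOf (c.1 z)}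

theorem measurableSet_leE_n (F : Frame) (f f' : NF F) (n : ℕ) :
    MeasurableSet {z : F.Z | f.1 z n ≤ f'.1 z n} :=
  measurableSet_le ((measurable_pi_apply n).comp f.2) ((measurable_pi_apply n).comp f'.2)

theorem measurableSet_leE (F : Frame) (f f' : NF F) : MeasurableSet (leE F f f') := by
  have h : leE F f f' = ⋂ n, {z : F.Z | f.1 z n ≤ f'.1 z n} := by
    ext z
    simp only [Set.mem_iInter]
    rfl
  rw [h]
  exact MeasurableSet.iInter fun n => measurableSet_leE_n F f f' n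

theorem measurableSet_iniE (F : Frame) (f : NB F) (m : ℕ) (s : List Bool) :
    MeasurableSet {z : F.Z | ini (f.1 z) m = s} := by
  have h1 : Measurable fun (z : F.Z) (i : Fin m) => f.1 z i :=
    measurable_pi_lambda _ fun i => (measurable_pi_apply (i : ℕ)).comp f.2
  exact h1 (Set.to_countable {w : Fin m → Bool | List.ofFn w = s}).measurableSet

theorem measurableSet_nuE_nm (F : Frame) (f : NB F) (c : NC F) (n m : ℕ) :
    MeasurableSet {z : F.Z | c.1 z n (ini (f.1 z) m) = true} := by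
  have h : {z : F.Z | c.1 z n (ini (f.1 z) m) = true} =
      ⋃ s : List Bool, {z | ini (f.1 z) m = s} ∩ {z | c.1 z n s = true} := by
    ext z
    simp
  rw [h]
  refine MeasurableSet.iUnion fun s => (measurableSet_iniE F f m s).inter ?_
  have h2 : Measurable fun z : F.Z => c.1 z n s :=
    (measurable_pi_apply s).comp ((measurable_pi_apply n).comp c.2.1)
  exact h2 (measurableSet_singleton true)

theorem measurableSet_nuE_n (F : Frame) (f : NB F) (c : NC F) (n : ℕ) :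
    MeasurableSet {z : F.Z | ∃ m, c.1 z n (ini (f.1 z) m) = true} := by
  have h : {z : F.Z | ∃ m, c.1 z n (ini (f.1 z) m) = true} =
      ⋃ m, {z | c.1 z n (ini (f.1 z) m) = true} := by
    ext z
    simp
  rw [h]
  exact MeasurableSet.iUnion fun m => measurableSet_nuE_nm F f c n m

theorem measurableSet_nuE (F : Frame) (f : NB F) (c : NC F) : MeasurableSet (nuE F f c) := by
  have h : nuE F f c = ⋂ n, {z : F.Z | ∃ m, c.1 z n (ini (f.1 z) m) = true} := by
    ext z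
    simp only [Set.mem_iInter]
    rfl
  rw [h]
  exact MeasurableSet.iInter fun n => measurableSet_nuE_n F f c n

section

variable {F : Frame} {M N : Type 1} [Membership M M] [IsZFC M] [Membership N N] [IsZFC N]
  {g : Gn F M N}

variable (F) in
/-- The parameters of this file (the writer adds what is needed). -/
noncomputable def parAbs : List V :=
  parName F ++ [cd {w : F.Q × (NF F × NF F) | w.1 ∈ decS F (leE F w.2.1 w.2.2)},
    cd {w : F.Q × (NB F × NC F) | w.1 ∈ decS F (nuE F w.2.1 w.2.2)},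
    cd {w : F.Q × (NF F × NF F) | ∃ n, F.Forces w.1 {z | w.2.1.1 z n ≤ w.2.2.1 z n}ᶜ},
    cd {w : F.Q × (NB F × NC F) | ∃ n, F.Forces w.1
      {z | ∃ m, w.2.2.1 z n (ini (w.2.1.1 z) m) = true}ᶜ},
    cd {w : F.Q × ((NB F × NC F) × ℕ) | w.1 ∈ decS F
      {z | ∃ m, w.2.1.2.1 z w.2.2 (ini (w.2.1.1.1 z) m) = true}},
    cd {w : F.Q × ((NB F × NC F) × ℕ) | ∃ m, F.Forces w.1
      {z | w.2.1.2.1 z w.2.2 (ini (w.2.1.1.1 z) m) = true}}]

variable (hp : g.Has (parAbs F))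

include hp

theorem Gn.has_parName : g.Has (parName F) := fun a ha => hp a (by simp [parAbs, ha])

theorem Gn.tr_le_n {f f' : NF F} (hf : InM g.j f) (hf' : InM g.j f') (n : ℕ) :
    g.Tr {z | f.1 z n ≤ f'.1 z n} ↔ ext (g.yF f) n ≤ ext (g.yF f') n := by
  have hn := Gn.has_parName hp
  have h1 := (Gn.ext_yF hn hf (n := n)).1 rfl
  have h2 := (Gn.ext_yF hn hf' (n := n)).1 rfl
  constructor
  · intro h
    obtain ⟨z, ⟨hz1, hz2⟩, hz3⟩ := ((h.inter h1).inter h2).nonempty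
    have e1 : f.1 z n = ext (g.yF f) n := hz2
    have e2 : f'.1 z n = ext (g.yF f') n := hz3
    have e3 : f.1 z n ≤ f'.1 z n := hz1
    omega
  · intro h
    refine (h1.inter h2).mono ?_
    rintro z ⟨hz1, hz2⟩
    have e1 : f.1 z n = ext (g.yF f) n := hz1
    have e2 : f'.1 z n = ext (g.yF f') n := hz2
    show f.1 z n ≤ f'.1 z n
    omega

theorem Gn.tr_le {f f' : NF F} (hf : InM g.j f) (hf' : InM g.j f') :
    g.Tr (leE F f f') ↔ ∀ n, ext (g.yF f) n ≤ ext (g.yF f') n := by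
  have hb : InM g.j (f, f') := (inM_pair g.sub).2 ⟨hf, hf'⟩
  have hE : leE F f f' = ⋂ n, {z : F.Z | f.1 z n ≤ f'.1 z n} := by
    ext z
    simp only [Set.mem_iInter]
    rfl
  have h1 : InM g.j {q : F.Q | ∃ n, F.Forces q {z | f.1 z n ≤ f'.1 z n}ᶜ} :=
    inM_sec g.sub (r := {w : F.Q × (NF F × NF F) |
      ∃ n, F.Forces w.1 {z | w.2.1.1 z n ≤ w.2.2.1 z n}ᶜ}) (hp _ (by simp [parAbs])) hb
  have h2 : InM g.j (decS F (leE F f f')) :=
    inM_sec g.sub (r := {w : F.Q × (NF F × NF F) | w.1 ∈ decS F (leE F w.2.1 w.2.2)})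
      (hp _ (by simp [parAbs])) hb
  rw [hE] at h2 ⊢
  rw [Gn.tr_iInter (fun n => measurableSet_leE_n F f f' n) h1 h2]
  exact forall_congr' fun n => Gn.tr_le_n hp hf hf' n

theorem Gn.tr_null_n {f : NB F} {c : NC F} (hf : InM g.j f) (hc : InM g.j c) (n : ℕ) :
    g.Tr {z | ∃ m, c.1 z n (ini (f.1 z) m) = true} ↔
      ∃ m, exC (g.uC c) n (ini (ext2 (g.xB f)) m) = true := by
  have hn := Gn.has_parName hp
  have hb : InM g.j ((f, c), n) :=
    (inM_pair g.sub).2 ⟨(inM_pair g.sub).2 ⟨hf, hc⟩, inM_nat g.sub n⟩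
  constructor
  · intro h
    have h1 : InM g.j {q : F.Q | ∃ m, F.Forces q {z | c.1 z n (ini (f.1 z) m) = true}} :=
      inM_sec g.sub (r := {w : F.Q × ((NB F × NC F) × ℕ) | ∃ m, F.Forces w.1
        {z | w.2.1.2.1 z w.2.2 (ini (w.2.1.1.1 z) m) = true}}) (hp _ (by simp [parAbs])) hb
    have hE : {z : F.Z | ∃ m, c.1 z n (ini (f.1 z) m) = true} =
        ⋃ m, {z | c.1 z n (ini (f.1 z) m) = true} := by
      ext z
      simp
    rw [hE] at h
    obtain ⟨m, hm⟩ := Gn.tr_iUnion (fun m => measurableSet_nuE_nm F f c n m) h1 h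
    refine ⟨m, (Gn.exC_uC hn hc).2 ?_⟩
    have h2 := (Gn.ini_xB hn hf (m := m)).1 rfl
    refine (hm.inter h2).mono ?_
    rintro z ⟨hz1, hz2⟩
    have e1 : c.1 z n (ini (f.1 z) m) = true := hz1
    have e2 : ini (f.1 z) m = ini (ext2 (g.xB f)) m := hz2
    show c.1 z n (ini (ext2 (g.xB f)) m) = true
    rw [← e2]
    exact e1
  · rintro ⟨m, hm⟩
    have h1 := (Gn.exC_uC hn hc).1 hm
    have h2 := (Gn.ini_xB hn hf (m := m)).1 rfl
    refine (h1.inter h2).mono ?_
    rintro z ⟨hz1, hz2⟩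
    have e1 : c.1 z n (ini (ext2 (g.xB f)) m) = true := hz1
    have e2 : ini (f.1 z) m = ini (ext2 (g.xB f)) m := hz2
    refine ⟨m, ?_⟩
    rw [e2]
    exact e1

theorem Gn.tr_null {f : NB F} {c : NC F} (hf : InM g.j f) (hc : InM g.j c) :
    g.Tr (nuE F f c) ↔ ext2 (g.xB f) ∈ NullOf (exC (g.uC c)) := by
  have hb : InM g.j (f, c) := (inM_pair g.sub).2 ⟨hf, hc⟩
  have hE : nuE F f c = ⋂ n, {z : F.Z | ∃ m, c.1 z n (ini (f.1 z) m) = true} := by
    ext z
    simp only [Set.mem_iInter]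
    rfl
  have h1 : InM g.j {q : F.Q | ∃ n, F.Forces q {z | ∃ m, c.1 z n (ini (f.1 z) m) = true}ᶜ} :=
    inM_sec g.sub (r := {w : F.Q × (NB F × NC F) | ∃ n, F.Forces w.1
      {z | ∃ m, w.2.2.1 z n (ini (w.2.1.1 z) m) = true}ᶜ}) (hp _ (by simp [parAbs])) hb
  have h2 : InM g.j (decS F (nuE F f c)) :=
    inM_sec g.sub (r := {w : F.Q × (NB F × NC F) | w.1 ∈ decS F (nuE F w.2.1 w.2.2)})
      (hp _ (by simp [parAbs])) hb
  rw [hE] at h2 ⊢
  rw [Gn.tr_iInter (fun n => measurableSet_nuE_n F f c n) h1 h2]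
  exact forall_congr' fun n => Gn.tr_null_n hp hf hc n

theorem Gn.tr_not_null {f : NB F} {c : NC F} (hf : InM g.j f) (hc : InM g.j c) :
    g.Tr (nuE F f c)ᶜ ↔ ext2 (g.xB f) ∉ NullOf (exC (g.uC c)) := by
  have hb : InM g.j (f, c) := (inM_pair g.sub).2 ⟨hf, hc⟩
  have h2 : InM g.j (decS F (nuE F f c)) :=
    inM_sec g.sub (r := {w : F.Q × (NB F × NC F) | w.1 ∈ decS F (nuE F w.2.1 w.2.2)})
      (hp _ (by simp [parAbs])) hb
  rw [Gn.tr_compl (measurableSet_nuE F f c) h2, Gn.tr_null hp hf hc]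

theorem Gn.xB_congr {f f' : NB F} (hf : InM g.j f) (hf' : InM g.j f')
    (h : g.Tr {z | f.1 z = f'.1 z}) : g.xB f = g.xB f' := by
  have hn := Gn.has_parName hp
  have ho : Om N := by first | exact g.om_N | exact Gn.om_N
  refine fs_ext2 ho (Gn.xB_mem hn hf) (Gn.xB_mem hn hf') fun n => ?_
  have h1 := (Gn.ext2_xB hn hf' (n := n)).1 rfl
  refine (Gn.ext2_xB hn hf).2 ((h.inter h1).mono ?_)
  rintro z ⟨hz1, hz2⟩
  have e1 : f.1 z = f'.1 z := hz1
  have e2 : f'.1 z n = ext2 (g.xB f') n := hz2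
  show f.1 z n = ext2 (g.xB f') n
  rw [e1]
  exact e2

end

end Pool.Agent.GPA
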