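import Pool.Agent.GPA.Frame
import Pool.Agent.GPA.Defs
import Pool.Agent.Forc.Tr
import Pool.Agent.Forc.CardB

/-!
# Block M, cardinals: the chain condition, and the lemma inside a model
-/

set_option linter.unusedSectionVars false

open Cardinal

namespace Pool.Agent.GPA

open Pool.Agent.SigB Pool.Agent.Forc

/-- The chain condition: a set of regular size at least `κ` is not covered by a smaller set.
(For each `k` take `r k ≤ q₀` and `a k` with `r k ∈ S k (a k)`; one `a` is taken at least `κ` times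
since `#K` is regular; the `r k` with `a k = a` form an antichain.) -/
theorem Frame.no_small_cover (F : Frame) {K A : Type} (hK : (#K).IsRegular) (hκ : F.κ ≤ #K)
    (hA : #A < #K) (S : K → A → Set F.Q) (q₀ : F.Q)
    (hl : ∀ k a r s, F.pQ.le s r → r ∈ S k a → s ∈ S k a)
    (hi : ∀ r, F.pQ.le r q₀ → ∀ a k k', r ∈ S k a → r ∈ S k' a → k = k')
    (hd : ∀ k, ∀ r, F.pQ.le r q₀ → ∃ s, F.pQ.le s r ∧ ∃ a, s ∈ S k a) : False := by
  let _ := F.pQ
  choose r hr a ha using fun k => hd k q₀ (le_refl q₀)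
  obtain ⟨b, hb⟩ := Cardinal.infinite_pigeonhole a hK.aleph0_le (by rwa [hK.cof_ord])
  have key : ∀ k ∈ a ⁻¹' {b}, ∀ k' ∈ a ⁻¹' {b}, ∀ t, t ≤ r k → t ≤ r k' → k = k' := by
    intro k hk k' hk' t h1 h2
    refine hi t (h1.trans (hr k)) b k k' (hl k b (r k) t h1 ?_) (hl k' b (r k') t h2 ?_)
    · have := ha k
      rwa [show a k = b from hk] at this
    · have := ha k'
      rwa [show a k' = b from hk'] at this
  have hinj : Set.InjOn r (a ⁻¹' {b}) := fun k hk k' hk' h =>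
    key k hk k' hk' (r k) le_rfl (le_of_eq h)
  have hc := F.cc (r '' (a ⁻¹' {b})) (by
    rintro _ ⟨k, hk, rfl⟩ _ ⟨k', hk', rfl⟩ hne t h1 h2
    exact hne (congrArg r (key k hk k' hk' t h1 h2)))
  rw [Cardinal.mk_image_eq_of_injOn _ _ hinj, hb] at hc
  exact absurd hκ (not_le.2 hc)

section

variable {N : Type 1} [Membership N N] [IsZFC N]

/-- Any two sets are comparable. -/
theorem le_or_le (A B : N) : Le A B ∨ Le B A := by
  obtain ⟨α, hα, h1, h2⟩ := exists_ord A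
  obtain ⟨β, hβ, h3, h4⟩ := exists_ord B
  rcases hα.sb_total hβ with h | h
  · exact Or.inl (h1.trans ((Le.of_sb h).trans h4))
  · exact Or.inr (h3.trans ((Le.of_sb h).trans h2))

/-- The next cardinal is at most every larger one. -/
theorem succ_le {a th A : N} (hth : SigB.Ord th)
    (hmem : ∀ b : N, SigB.Ord b → (b ∈ th ↔ Le b a)) (hA : ¬ Le A a) : Le th A := by
  obtain ⟨α, hα, h1, h2⟩ := exists_ord A
  have h3 : α ∉ th := fun h => hA (h1.trans ((hmem α hα).1 h))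
  rcases hα.tri hth with h | h | h
  · exact absurd h h3
  · rw [← h]
    exact h2
  · exact (Le.of_sb (hα.sb h)).trans h2

/-- The lemma inside a model: `w₁ ≤ k₀` and `w₂ ≤ k₁ < k₂ ≤ p`. -/
theorem continuumGt_of {k₀ k₁ k₂ : N}
    (h0 : ¬ Le k₀ (om : N)) (h1 : ¬ Le k₁ k₀) (h2 : ¬ Le k₂ k₁) (h3 : Le k₂ (pw (om : N))) :
    ContinuumGtAlephTwo N := by
  obtain ⟨w₁, ho₁, hm₁, hb₁, hn₁, -⟩ := exists_succ (a := (om : N)) om_ord (Sb.refl _)
  obtain ⟨w₂, ho₂, hm₂, hb₂, hn₂, -⟩ := exists_succ ho₁ (ho₁.sb hm₁)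
  have h4 : Le w₁ k₀ := succ_le ho₁ hb₁ h0
  have h5 : Le w₂ k₁ := succ_le ho₂ hb₂ fun h => h1 (h.trans h4)
  have h6 : Le k₁ k₂ := (le_or_le k₁ k₂).resolve_right h2
  refine ⟨om, pw om, w₁, w₂, isOmega_iff.2 rfl, isPower_iff.2 rfl, isOmegaOne_iff.2
    ⟨ho₁, fun h => ?_, fun x hx => (hb₁ x (ho₁.mem hx)).1 hx⟩,
    isSuccCardinal_iff.2 ⟨isCardinal_iff.2 ⟨ho₂, hn₂⟩, hm₂,
      fun x hx => (hb₂ x (ho₂.mem hx)).1 hx⟩, injects_iff.2 (h5.trans (h6.trans h3)),
    fun h => ?_⟩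
  · exact hn₁ w₁ ((hb₁ w₁ ho₁).2 h) (Le.refl _)
  · exact h2 (h3.trans ((injects_iff.1 h).trans h5))

end

end Pool.Agent.GPA
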