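import Pool.Agent.GPA.MGen
import Pool.Agent.Frc.Col
import Pool.Agent.Frc.Cover
import Pool.Agent.Forc.CardB

/-!
# Block M: cardinals of the extension
-/

set_option linter.unusedSectionVars false

namespace Pool.Agent.GPA

open Pool.Agent.SigB Pool.Agent.Frc Pool.Agent.Forc Cardinal

/-! ### Counting -/

/-- Values which are decided by conditions are bounded. -/
theorem counting {Q : Type} [PartialOrder Q] {κ κ' : Cardinal.{0}}
    (cc : ∀ A : Set Q, (∀ p ∈ A, ∀ q ∈ A, p ≠ q → ∀ r, r ≤ p → ¬ r ≤ q) → #A < κ)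
    (hκ : κ ≤ κ') (hr : κ'.IsRegular) {b : Ordinal.{0}} (hb : b < κ'.ord)
    (S : Q → Ordinal.{0} → Ordinal.{0} → Prop)
    (hS : ∀ p q r a c c', S p a c → S q a c' → r ≤ p → r ≤ q → c = c') :
    ∃ d < κ'.ord, ∀ p a c, a < b → c < κ'.ord → S p a c → c < d := by
  classical
  have hκ0 : (0 : Ordinal) < κ'.ord := by
    rw [Cardinal.lt_ord]
    simpa using hr.pos
  -- one value of the first argument
  have h1 : ∀ a : Ordinal, ∃ d < κ'.ord, ∀ p c, c < κ'.ord → S p a c → c < d := by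
    intro a
    let C : Set Ordinal := {c | c < κ'.ord ∧ ∃ p, S p a c}
    have hC : ∀ c : C, ∃ p, S p a c := fun c => c.2.2
    choose P hP using hC
    let A : Set Q := Set.range P
    have hA : #A < κ := by
      refine cc A ?_
      rintro _ ⟨c, rfl⟩ _ ⟨c', rfl⟩ hne r hr hr'
      exact hne (by rw [Subtype.ext (hS _ _ r a _ _ (hP c) (hP c') hr hr')])
    have hA' : ∀ q : A, ∃ c : C, P c = q := fun q => q.2
    choose g hg using hA'
    refine ⟨⨆ q : A, ((g q : C) : Ordinal) + 1,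
      Ordinal.iSup_add_one_lt_of_lt_cof (by rw [hr.cof_ord]; exact hA.trans_le hκ)
        fun q => (g q).2.1, fun p c hc hp => ?_⟩
    have h2 : ((g ⟨P ⟨c, hc, p, hp⟩, ⟨_, rfl⟩⟩ : C) : Ordinal) = c := by
      have h3 := hg ⟨P ⟨c, hc, p, hp⟩, ⟨_, rfl⟩⟩
      have h4 := hP (g ⟨P ⟨c, hc, p, hp⟩, ⟨_, rfl⟩⟩)
      rw [h3] at h4
      exact hS _ _ (P ⟨c, hc, p, hp⟩) a _ _ h4 (hP ⟨c, hc, p, hp⟩) le_rfl le_rfl
    have h4 := Ordinal.lt_iSup_add_one (fun q : A => ((g q : C) : Ordinal))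
      ⟨P ⟨c, hc, p, hp⟩, ⟨_, rfl⟩⟩
    rwa [h2] at h4
  choose d hd hd' using h1
  refine ⟨⨆ a : Set.Iio b, d a, ?_, fun p a c ha hc hp => ?_⟩
  · have h2 : Cardinal.lift.{0} #(Set.Iio b) < (Ordinal.lift.{1} κ'.ord).cof := by
      rw [Cardinal.lift_id', Cardinal.mk_Iio_ordinal, ← Ordinal.lift_cof, hr.cof_ord,
        Cardinal.lift_lt]
      exact Cardinal.lt_ord.1 hb
    exact Ordinal.lift_iSup_lt_of_lt_cof h2 fun a => hd a
  · refine (hd' a p c hc hp).trans_le ?_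
    exact Ordinal.le_iSup (fun a : Set.Iio b => d a) ⟨a, ha⟩

/-! ### Ordinals of the universe -/

theorem mem_toZ {o : Ordinal.{0}} {x : V} : x ∈ o.toZFSet ↔ ∃ a < o, a.toZFSet = x :=
  Ordinal.mem_toZFSet_iff

theorem ord_toZ (o : Ordinal.{0}) : SigB.Ord (o.toZFSet : V) := by
  have h : ∀ o : Ordinal.{0}, SigB.Tr (o.toZFSet : V) := by
    intro o y hy z hz
    obtain ⟨a, ha, rfl⟩ := mem_toZ.1 hy
    obtain ⟨c, hc, rfl⟩ := mem_toZ.1 hz
    exact mem_toZ.2 ⟨c, hc.trans ha, rfl⟩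
  refine ⟨h o, fun y hy => ?_⟩
  obtain ⟨a, ha, rfl⟩ := mem_toZ.1 hy
  exact h a

theorem om_mem_toZ {κ : Cardinal.{0}} (hκ : ℵ₀ < κ) : (SigB.om : V) ∈ κ.ord.toZFSet := by
  by_contra hn
  have h1 : Sb (κ.ord.toZFSet : V) SigB.om := (Ord.not_mem_iff om_ord (ord_toZ _)).1 hn
  have h2 : ∀ a : Set.Iio κ.ord, ∃ n : ℕ, (a.1.toZFSet : V) = nt V n := fun a =>
    om_V _ (h1 _ (mem_toZ.2 ⟨a.1, a.2, rfl⟩))
  choose g hg using h2
  have h3 : Function.Injective g := by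
    intro a a' h
    have h4 : (a.1.toZFSet : V) = a'.1.toZFSet := by rw [hg, hg, h]
    exact Subtype.ext (Ordinal.toZFSet_injective h4)
  have h5 : #(Set.Iio κ.ord) ≤ ℵ₀ := by
    have := Cardinal.mk_le_aleph0_iff.2 h3.countable
    exact this
  rw [Cardinal.mk_Iio_ordinal, Cardinal.card_ord, ← Cardinal.lift_aleph0.{1, 0},
    Cardinal.lift_le] at h5
  exact absurd h5 (not_le.2 hκ)

/-! ### Cardinals of the extension -/

section

variable {M : Type 1} [Membership M M] [IsZFC M] {j : M → V} {N : Type 1} [Membership N N]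
  [IsZFC N] {P le one : M} {G : M → Prop} {val : M → N}

/-- Functions from a smaller ordinal to the copy of a regular cardinal are bounded. -/
theorem bounded (hj : ElSub M j) (hE : Ext P le one G val) {Q : Type} [PartialOrder Q] [Cod Q]
    (hP : j P = cd (Set.univ : Set Q)) (hle : j le = cd {a : Q × Q | a.1 ≤ a.2})
    {κ κ' : Cardinal.{0}}
    (cc : ∀ A : Set Q, (∀ p ∈ A, ∀ q ∈ A, p ≠ q → ∀ r, r ≤ p → ¬ r ≤ q) → #A < κ)
    (hκ : κ ≤ κ') (hr : κ'.IsRegular) {k : M} (hk : j k = κ'.ord.toZFSet) {β : M} (hβ : β ∈ k)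
    {f : N} (hf : f ∈ fs (val (ck one β)) (val (ck one k))) :
    ∃ δ, δ ∈ k ∧ ∀ α, α ∈ β → ap f (val (ck one α)) ∈ val (ck one δ) := by
  obtain ⟨hf1, hf2⟩ := mem_fs.1 hf
  have hPO := hE.po
  obtain ⟨F, hF, hFP, hFm, hFd, hFt⟩ := hE.forcing2 (R := fun x y => op x y ∈ f)
    (by simp (maxDischargeDepth := 50))
  have hF' : ∀ {n : ℕ} {s t r : (Fin n → M) → M}, DT s → DT t → DT r →
      Dfn fun v => F (s v) (t v) (r v) := fun hs ht hr => dfn3 hF hs ht hr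
  have huniq : ∀ x y y' : N, op x y ∈ f → op x y' ∈ f → y = y' := by
    intro x y y' h h'
    obtain ⟨x', hx', y'', he⟩ := hf1.1 _ h
    obtain ⟨rfl, rfl⟩ := op_inj.1 he
    rw [← (hf1.op_mem_iff hx').1 h, ← (hf1.op_mem_iff hx').1 h']
  -- a condition which forces that `f` is a function
  let U : M → Prop := fun q => ∀ r, op r q ∈ le → ∀ α γ γ', F r (ck one α) (ck one γ) →
    F r (ck one α) (ck one γ') → γ = γ'
  have hU : Dfn (fun w : Fin 1 → M => U (w 0)) := by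
    simp (maxDischargeDepth := 50) [U, hF']
  have hU' : ∀ {n : ℕ} {s : (Fin n → M) → M}, DT s → Dfn fun v => U (s v) :=
    fun hs => dfn1 hU hs
  obtain ⟨p₀, hp₀, hUp⟩ : ∃ p, G p ∧ U p := by
    obtain ⟨p, hp, h1⟩ := hE.gen.below hPO (p := one)
      (Q := fun q => U q ∨ ∃ α γ γ', γ ≠ γ' ∧ F q (ck one α) (ck one γ) ∧
        F q (ck one α) (ck one γ')) (by simp (maxDischargeDepth := 50) [hU', hF']) hE.gen.one (by
        intro q hq
        by_cases h : U q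
        · exact ⟨q, hPO.refl _ (hPO.sub _ _ hq).1, Or.inl h⟩
        · simp only [U] at h
          push Not at h
          obtain ⟨r, hr, α, γ, γ', h1, h2, h3⟩ := h
          exact ⟨r, hr, Or.inr ⟨α, γ, γ', h3, h1, h2⟩⟩)
    rcases h1 with h1 | ⟨α, γ, γ', hne, h1, h2⟩
    · exact ⟨p, hp, h1⟩
    · exact absurd (hE.cv_inj.1 (huniq _ _ _ ((hFt _ _).2 ⟨p, hp, h1⟩)
        ((hFt _ _).2 ⟨p, hp, h2⟩))) hne
  let T : M := sp (pd (pd P β) k) fun z => ∃ p α γ, z = op (op p α) γ ∧ op p p₀ ∈ le ∧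
    F p (ck one α) (ck one γ)
  have hT : ∀ p α γ, op (op p α) γ ∈ T ↔ (p ∈ P ∧ α ∈ β ∧ γ ∈ k) ∧ op p p₀ ∈ le ∧
      F p (ck one α) (ck one γ) := by
    intro p α γ
    show _ ∈ sp _ _ ↔ _
    rw [mem_sp (by simp (maxDischargeDepth := 50) [hF'])]
    constructor
    · rintro ⟨h1, p', α', γ', he, h2, h3⟩
      obtain ⟨h4, rfl⟩ := op_inj.1 he
      obtain ⟨rfl, rfl⟩ := op_inj.1 h4
      obtain ⟨u, hu, γ', hγ, he⟩ := mem_pd.1 h1
      obtain ⟨rfl, rfl⟩ := op_inj.1 he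
      obtain ⟨p', hp', α', hα', he⟩ := mem_pd.1 hu
      obtain ⟨rfl, rfl⟩ := op_inj.1 he
      exact ⟨⟨hp', hα', hγ⟩, h2, h3⟩
    · rintro ⟨⟨h1, h2, h3⟩, h4, h5⟩
      exact ⟨mem_pd.2 ⟨_, mem_pd.2 ⟨_, h1, _, h2, rfl⟩, _, h3, rfl⟩, p, α, γ, rfl, h4, h5⟩
  -- transfer to the universe
  have e1 : ∀ p q r α γ γ' u v, IsOrdPair u p α → IsOrdPair v q α → Val (j T) u γ →
      Val (j T) v γ' → Val (j le) r p → Val (j le) r q → γ = γ' := by
    refine (hj.el2 (P₀ := fun T le => ∀ p q r α γ γ' u v, IsOrdPair u p α → IsOrdPair v q α →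
      Val T u γ → Val T v γ' → Val le r p → Val le r q → γ = γ')
      (P := fun T le => ∀ p q r α γ γ' u v, IsOrdPair u p α → IsOrdPair v q α →
      Val T u γ → Val T v γ' → Val le r p → Val le r q → γ = γ')
      (by simp (maxDischargeDepth := 50)) T le).1 ?_
    intro p q r α γ γ' u v hu hv h1 h2 h3 h4
    rw [isOrdPair_iff] at hu hv
    subst hu hv
    rw [val_iff] at h1 h2 h3 h4
    obtain ⟨-, h5, h6⟩ := (hT _ _ _).1 h1
    obtain ⟨-, h7, h8⟩ := (hT _ _ _).1 h2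
    exact hUp r (hPO.trans _ _ _ h3 h5) α γ γ' (hFm _ _ _ _ h6 h3) (hFm _ _ _ _ h8 h4)
  have e2 : ∀ u p α γ, IsOrdPair u p α → Val (j T) u γ → p ∈ j P ∧ α ∈ j β ∧ γ ∈ j k := by
    refine (hj.el4 (P₀ := fun T P β k => ∀ u p α γ, IsOrdPair u p α → Val T u γ →
        p ∈ P ∧ α ∈ β ∧ γ ∈ k)
      (P := fun T P β k => ∀ u p α γ, IsOrdPair u p α → Val T u γ → p ∈ P ∧ α ∈ β ∧ γ ∈ k)
      (by simp (maxDischargeDepth := 50)) T P β k).1 ?_
    intro u p α γ hu h1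
    rw [isOrdPair_iff] at hu
    subst hu
    rw [val_iff] at h1
    exact ((hT _ _ _).1 h1).1
  -- counting in the universe
  have hβ' : j β ∈ κ'.ord.toZFSet := by rw [← hk]; exact hj.mem.2 hβ
  obtain ⟨b, hb, hbβ⟩ := mem_toZ.1 hβ'
  obtain ⟨d, hd, hd'⟩ := counting cc hκ hr hb
    (fun q a c => op (op (cd q) a.toZFSet) c.toZFSet ∈ j T) (by
      intro p q r a c c' h1 h2 h3 h4
      refine Ordinal.toZFSet_injective (e1 (cd p) (cd q) (cd r) a.toZFSet _ _ _ _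
        (isOrdPair_iff.2 rfl) (isOrdPair_iff.2 rfl) (val_iff.2 h1) (val_iff.2 h2)
        (val_iff.2 ?_) (val_iff.2 ?_))
      · rw [hle, ← cd_pair]
        exact cd_mem_cd.2 h3
      · rw [hle, ← cd_pair]
        exact cd_mem_cd.2 h4)
  obtain ⟨δ, hδ, hδ'⟩ : ∃ δ, δ ∈ k ∧ ∀ u p α γ, IsOrdPair u p α → Val T u γ → γ ∈ δ := by
    refine (hj.el2 (P₀ := fun k T => ∃ δ, δ ∈ k ∧ ∀ u p α γ, IsOrdPair u p α →
        Val T u γ → γ ∈ δ)
      (P := fun k T => ∃ δ, δ ∈ k ∧ ∀ u p α γ, IsOrdPair u p α → Val T u γ → γ ∈ δ)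
      (by simp (maxDischargeDepth := 50)) k T).2 ?_
    refine ⟨d.toZFSet, by rw [hk]; exact mem_toZ.2 ⟨d, hd, rfl⟩, ?_⟩
    intro u p α γ hu h1
    obtain ⟨h2, h3, h4⟩ := e2 u p α γ hu h1
    rw [isOrdPair_iff] at hu
    subst hu
    rw [val_iff] at h1
    rw [hP, mem_cd_set] at h2
    obtain ⟨q, -, rfl⟩ := h2
    rw [← hbβ] at h3
    obtain ⟨a, ha, rfl⟩ := mem_toZ.1 h3
    rw [hk] at h4
    obtain ⟨c, hc, rfl⟩ := mem_toZ.1 h4
    exact mem_toZ.2 ⟨c, hd' q a c ha hc h1, rfl⟩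
  refine ⟨δ, hδ, fun α hα => ?_⟩
  have hα' : val (ck one α) ∈ val (ck one β) := hE.cv_mem.2 hα
  obtain ⟨γ, hγ, he⟩ := hE.mem_cv.1 (hf2 _ hα')
  rw [he, hE.cv_mem]
  obtain ⟨p, hp, h1⟩ := (hFt _ _).1 ((hf1.op_mem_iff hα').2 he)
  obtain ⟨s, hs, hsp, hsp'⟩ := hE.gen.dir p p₀ hp hp₀
  exact hδ' _ s α γ (isOrdPair_iff.2 rfl) (val_iff.2 ((hT _ _ _).2
    ⟨⟨hE.gen.mem _ hs, hα, hγ⟩, hsp', hFm _ _ _ _ h1 hsp⟩))

/-- The copies of the regular cardinals above `κ` are cardinals. -/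
theorem card_copy (hj : ElSub M j) (hE : Ext P le one G val) {Q : Type} [PartialOrder Q] [Cod Q]
    (hP : j P = cd (Set.univ : Set Q)) (hle : j le = cd {a : Q × Q | a.1 ≤ a.2})
    {κ κ' : Cardinal.{0}}
    (cc : ∀ A : Set Q, (∀ p ∈ A, ∀ q ∈ A, p ≠ q → ∀ r, r ≤ p → ¬ r ≤ q) → #A < κ)
    (hκ : κ ≤ κ') (hr : κ'.IsRegular) {k : M} (hk : j k = κ'.ord.toZFSet) :
    SigB.Ord (val (ck one k)) ∧ ∀ y, y ∈ val (ck one k) → ¬ Le (val (ck one k)) y := by
  have hok : SigB.Ord k := (hj.ord k).1 (by rw [hk]; exact ord_toZ _)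
  refine ⟨hE.cv_ord.2 hok, fun y hy => ?_⟩
  obtain ⟨β, hβ, rfl⟩ := hE.mem_cv.1 hy
  rintro ⟨g, hg, hgi⟩
  obtain ⟨hg1, hg2⟩ := mem_fs.1 hg
  have hem : (SigB.em : N) ∈ val (ck one k) :=
    (hE.cv_ord.2 hok).em_mem fun h => by
      rw [h] at hy; exact not_mem_em _ hy
  obtain ⟨f, hf, hff⟩ := choice' (a := val (ck one β)) (b := val (ck one k))
    (P := fun x ξ => op ξ x ∈ g ∨ ∀ η, η ∈ val (ck one k) → op η x ∉ g)
    (by simp (maxDischargeDepth := 50)) (by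
      intro x hx
      by_cases h : ∃ η, η ∈ val (ck one k) ∧ op η x ∈ g
      · obtain ⟨η, hη, h⟩ := h
        exact ⟨η, hη, Or.inl h⟩
      · push Not at h
        exact ⟨_, hem, Or.inr h⟩)
  obtain ⟨δ, hδ, hδ'⟩ := bounded hj hE hP hle cc hκ hr hk hβ hf
  have h1 : val (ck one δ) ∈ val (ck one k) := hE.cv_mem.2 hδ
  have h2 : ap g (val (ck one δ)) ∈ val (ck one β) := hg2 _ h1
  obtain ⟨α, hα, he⟩ := hE.mem_cv.1 h2
  have h3 := hff _ h2
  have h4 : ap f (ap g (val (ck one δ))) = val (ck one δ) := by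
    rcases h3 with h3 | h3
    · have h5 := (mem_fs.1 hf).2 _ h2
      exact hgi _ _ h5 h1 ((hg1.op_mem_iff h5).1 h3)
    · exact absurd ((hg1.op_mem_iff h1).2 rfl) (h3 _ h1)
  have h5 := hδ' α hα
  rw [← he, h4] at h5
  exact not_mem_self _ h5

/-! ### The reals of a frame -/

/-- Two different reals of the frame are separated densely. -/
theorem Frame.separate (F : Frame) {i i' : F.Lam} (hi : i ≠ i') (q : F.Q) :
    ∃ r, F.pQ.le r q ∧ ∃ n,
      (F.Forces r {z | F.real i z n = true} ∧ F.Forces r {z | F.real i' z n = false}) ∨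
      (F.Forces r {z | F.real i' z n = true} ∧ F.Forces r {z | F.real i z n = false}) := by
  let _ := F.mZ
  let _ := F.pQ
  let _ := F.tQ
  have hm : ∀ i n, Measurable fun z => F.real i z n := fun i n =>
    (measurable_pi_apply n).comp (F.real_meas i)
  have h1 : F.Forces q (⋃ n, {z | F.real i z n ≠ F.real i' z n}) := by
    refine F.mono' (fun z hz => ?_) (F.mono (le_top : q ≤ ⊤) (F.real_ne i i' hi))
    obtain ⟨n, hn⟩ := Function.ne_iff.1 hz
    exact Set.mem_iUnion.2 ⟨n, hn⟩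
  obtain ⟨r, hr, n, h2⟩ := F.union (fun n =>
    (measurableSet_eq_fun (hm i n) (hm i' n)).compl) h1
  obtain ⟨s, hs, h3⟩ := F.dec (E := {z | F.real i z n = true})
    (measurableSet_eq_fun (hm i n) measurable_const) r
  refine ⟨s, hs.trans hr, n, ?_⟩
  have h4 := F.mono hs h2
  rcases h3 with h3 | h3
  · refine Or.inl ⟨h3, F.mono' (fun z hz => ?_) (F.inter2 h3 h4)⟩
    have h5 : F.real i z n = true := hz.1
    have h6 : F.real i z n ≠ F.real i' z n := hz.2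
    rw [h5] at h6
    show F.real i' z n = false
    cases h7 : F.real i' z n
    · rfl
    · exact absurd h7.symm h6
  · refine Or.inr ⟨F.mono' (fun z hz => ?_) (F.inter2 h3 h4), F.mono' (fun z hz => ?_) h3⟩
    · have h5 : ¬ F.real i z n = true := hz.1
      have h6 : F.real i z n ≠ F.real i' z n := hz.2
      show F.real i' z n = true
      cases h7 : F.real i' z n
      · cases h8 : F.real i z n
        · rw [h7, h8] at h6; exact absurd rfl h6
        · exact absurd h8 h5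
      · rfl
    · have h5 : ¬ F.real i z n = true := hz
      show F.real i z n = false
      cases h8 : F.real i z n
      · rfl
      · exact absurd h8 h5

/-- The reals of the frame inject the copy of `κ'` into the power set of `ω`. -/
theorem le_pw (hj : ElSub M j) (hE : Ext P le one G val) (F : Frame) [Cod F.Q]
    (hP : j P = cd (Set.univ : Set F.Q)) (hle : j le = cd {a : F.Q × F.Q | F.pQ.le a.1 a.2})
    {κ' : Cardinal.{0}} {k t : M} (hk : j k = κ'.ord.toZFSet) (e : Ordinal.{0} → F.Lam)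
    (he : ∀ a b, a < κ'.ord → b < κ'.ord → e a = e b → a = b)
    (ht : ∀ a n q, a < κ'.ord → (op (op a.toZFSet (nt V n)) (cd q) ∈ j t ↔
      F.Forces q {z | F.real (e a) z n = true})) :
    Le (val (ck one k)) (pw (SigB.om : N)) := by
  have hPO := hE.po
  have hle' : ∀ {x : V} {q : F.Q}, op x (cd q) ∈ j le → ∃ r : F.Q, x = cd r ∧ F.pQ.le r q := by
    intro x q h
    rw [hle, mem_cd_set] at h
    obtain ⟨a, ha, h⟩ := h
    obtain ⟨h1, h2⟩ := op_inj.1 h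
    rw [cd_inj] at h2
    subst h2
    exact ⟨a.1, h1, ha⟩
  -- density
  have hd : ∀ o ξ η q : M, IsOmega o → ξ ∈ k → η ∈ k → ξ ≠ η → q ∈ P → ∃ r, Val le r q ∧
      ∃ n, n ∈ o ∧ ((∃ u, IsOrdPair u ξ n ∧ Val t u r ∧ ∀ s p v, Val le s r → Val le s p →
        IsOrdPair v η n → ¬ Val t v p) ∨ (∃ u, IsOrdPair u η n ∧ Val t u r ∧
        ∀ s p v, Val le s r → Val le s p → IsOrdPair v ξ n → ¬ Val t v p)) := by
    refine (hj.el4 (P₀ := fun t le k P => ∀ o ξ η q, IsOmega o → ξ ∈ k → η ∈ k → ξ ≠ η →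
        q ∈ P → ∃ r, Val le r q ∧ ∃ n, n ∈ o ∧ ((∃ u, IsOrdPair u ξ n ∧ Val t u r ∧
        ∀ s p v, Val le s r → Val le s p → IsOrdPair v η n → ¬ Val t v p) ∨
        (∃ u, IsOrdPair u η n ∧ Val t u r ∧
        ∀ s p v, Val le s r → Val le s p → IsOrdPair v ξ n → ¬ Val t v p)))
      (P := fun t le k P => ∀ o ξ η q : V, IsOmega o → ξ ∈ k → η ∈ k → ξ ≠ η →
        q ∈ P → ∃ r, Val le r q ∧ ∃ n, n ∈ o ∧ ((∃ u, IsOrdPair u ξ n ∧ Val t u r ∧
        ∀ s p v, Val le s r → Val le s p → IsOrdPair v η n → ¬ Val t v p) ∨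
        (∃ u, IsOrdPair u η n ∧ Val t u r ∧
        ∀ s p v, Val le s r → Val le s p → IsOrdPair v ξ n → ¬ Val t v p)))
      (by simp (maxDischargeDepth := 50)) t le k P).2 ?_
    intro o ξ η q ho hξ hη hne hq
    rw [isOmega_iff] at ho
    subst ho
    rw [hk] at hξ hη
    obtain ⟨a, ha, rfl⟩ := mem_toZ.1 hξ
    obtain ⟨b, hb, rfl⟩ := mem_toZ.1 hη
    rw [hP, mem_cd_set] at hq
    obtain ⟨q, -, rfl⟩ := hq
    have hab : e a ≠ e b := fun h => hne (by rw [he a b ha hb h])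
    obtain ⟨r, hr, n, h⟩ := F.separate hab q
    have hincomp : ∀ {c : Ordinal.{0}}, c < κ'.ord →
        F.Forces r {z | F.real (e c) z n = false} → ∀ s p v : V, Val (j le) s (cd r) →
        Val (j le) s p → IsOrdPair v c.toZFSet (nt V n) → ¬ Val (j t) v p := by
      intro c hc hf s p v h1 h2 h3 h4
      rw [isOrdPair_iff] at h3
      subst h3
      rw [val_iff] at h1 h2 h4
      obtain ⟨s, rfl, hs⟩ := hle' h1
      have h5 : ∃ p' : F.Q, p = cd p' := by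
        rw [hle, mem_cd_set] at h2
        obtain ⟨a, -, h⟩ := h2
        exact ⟨a.2, (op_inj.1 h).2⟩
      obtain ⟨p, rfl⟩ := h5
      obtain ⟨s', hs', hsp⟩ := hle' h2
      rw [cd_inj] at hs'
      subst hs'
      have h6 := F.mono hsp ((ht c n p hc).1 h4)
      have h7 := F.mono hs hf
      refine F.empty s (F.mono' (fun z hz => ?_) (F.inter2 h6 h7))
      have h8 : F.real (e c) z n = true := hz.1
      have h9 : F.real (e c) z n = false := hz.2
      rw [h8] at h9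
      exact absurd h9 (by decide)
    refine ⟨cd r, val_iff.2 ?_, nt V n, nt_mem_om n, ?_⟩
    · rw [hle, ← cd_pair]
      exact cd_mem_cd.2 hr
    · rcases h with ⟨h1, h2⟩ | ⟨h1, h2⟩
      · exact Or.inl ⟨_, isOrdPair_iff.2 rfl, val_iff.2 ((ht a n r ha).2 h1), hincomp hb h2⟩
      · exact Or.inr ⟨_, isOrdPair_iff.2 rfl, val_iff.2 ((ht b n r hb).2 h1), hincomp ha h2⟩
  -- the map
  obtain ⟨g, hg⟩ : ∃ g : N, ∀ z, z ∈ g ↔ ∃ p, G p ∧ z = val (ck one p) :=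
    ⟨_, fun _ => hE.mem_gname⟩
  let τ : N := val (ck one t)
  have hXd : ∀ {n : ℕ} {s r : (Fin n → N) → N}, DT s → DT r →
      Dfn fun v => ∃ p, p ∈ g ∧ op (op (s v) (r v)) p ∈ τ := by
    intro n s r hs hr
    exact dfn2 (R := fun x n => ∃ p, p ∈ g ∧ op (op x n) p ∈ τ)
      (by simp (maxDischargeDepth := 50)) hs hr
  let X : N → N := fun x => sp SigB.om fun n => ∃ p, p ∈ g ∧ op (op x n) p ∈ τ
  have hX : ∀ ξ n, ξ ∈ k → n ∈ (SigB.om : M) → (val (ck one n) ∈ X (val (ck one ξ)) ↔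
      ∃ p, G p ∧ op (op ξ n) p ∈ t) := by
    intro ξ n hξ hn
    show _ ∈ sp _ _ ↔ _
    rw [mem_sp (by simp (maxDischargeDepth := 50))]
    constructor
    · rintro ⟨-, p, hp, h⟩
      obtain ⟨p', hp', rfl⟩ := (hg _).1 hp
      rw [← hE.cv_op, ← hE.cv_op, hE.cv_mem] at h
      exact ⟨p', hp', h⟩
    · rintro ⟨p, hp, h⟩
      refine ⟨by rw [← hE.cv_om]; exact hE.cv_mem.2 hn, _, (hg _).2 ⟨p, hp, rfl⟩, ?_⟩
      rw [← hE.cv_op, ← hE.cv_op, hE.cv_mem]
      exact h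
  have hsep : ∀ ξ η, ξ ∈ k → η ∈ k → ξ ≠ η →
      ¬ X (val (ck one ξ)) = X (val (ck one η)) := by
    intro ξ η hξ hη hne heq
    obtain ⟨r, hr, n, hn, h⟩ := hE.gen.below hPO (p := one) (Q := fun r => ∃ n,
        n ∈ (SigB.om : M) ∧ ((op (op ξ n) r ∈ t ∧ ∀ s p, op s r ∈ le → op s p ∈ le →
          op (op η n) p ∉ t) ∨ (op (op η n) r ∈ t ∧ ∀ s p, op s r ∈ le → op s p ∈ le →
          op (op ξ n) p ∉ t))) (by simp (maxDischargeDepth := 50)) hE.gen.one (by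
      intro q hq
      obtain ⟨r, hr, n, hn, h⟩ := hd _ ξ η q (isOmega_iff.2 rfl) hξ hη hne (hPO.sub _ _ hq).1
      rw [val_iff] at hr
      refine ⟨r, hr, n, hn, ?_⟩
      rcases h with ⟨u, hu, h1, h2⟩ | ⟨u, hu, h1, h2⟩
      · rw [isOrdPair_iff] at hu
        subst hu
        exact Or.inl ⟨val_iff.1 h1, fun s p hs hp h3 => h2 s p _ (val_iff.2 hs) (val_iff.2 hp)
          (isOrdPair_iff.2 rfl) (val_iff.2 h3)⟩
      · rw [isOrdPair_iff] at hu
        subst hu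
        exact Or.inr ⟨val_iff.1 h1, fun s p hs hp h3 => h2 s p _ (val_iff.2 hs) (val_iff.2 hp)
          (isOrdPair_iff.2 rfl) (val_iff.2 h3)⟩)
    rcases h with ⟨h1, h2⟩ | ⟨h1, h2⟩
    · have h3 := (hX ξ n hξ hn).2 ⟨r, hr, h1⟩
      rw [heq] at h3
      obtain ⟨p, hp, h4⟩ := (hX η n hη hn).1 h3
      obtain ⟨s, -, hs, hs'⟩ := hE.gen.dir r p hr hp
      exact h2 s p hs hs' h4
    · have h3 := (hX η n hη hn).2 ⟨r, hr, h1⟩
      rw [← heq] at h3
      obtain ⟨p, hp, h4⟩ := (hX ξ n hξ hn).1 h3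
      obtain ⟨s, -, hs, hs'⟩ := hE.gen.dir r p hr hp
      exact h2 s p hs hs' h4
  refine Le.mk (F := X) ?_ ?_ ?_
  · show DT fun w : Fin 1 → N => sp SigB.om fun n => ∃ p, p ∈ g ∧ op (op (w 0) n) p ∈ τ
    simp (maxDischargeDepth := 50)
  · intro x hx
    rw [mem_pw]
    intro z hz
    exact ((mem_sp (by simp (maxDischargeDepth := 50))).1 hz).1
  · intro x y hx hy h
    obtain ⟨ξ, hξ, rfl⟩ := hE.mem_cv.1 hx
    obtain ⟨η, hη, rfl⟩ := hE.mem_cv.1 hy
    by_contra hne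
    exact hsep ξ η hξ hη (fun h => hne (by rw [h])) h

/-- The continuum of the extension is greater than `ℵ₂`. -/
theorem continuumGt (hj : ElSub M j) (hE : Ext P le one G val) (F : Frame) [Cod F.Q]
    (hP : j P = cd (Set.univ : Set F.Q)) (hle : j le = cd {a : F.Q × F.Q | F.pQ.le a.1 a.2})
    {k₀ k₁ k₂ t : M} (hk₀ : j k₀ = F.κ.ord.toZFSet)
    (hk₁ : j k₁ = (Order.succ F.κ).ord.toZFSet)
    (hk₂ : j k₂ = (Order.succ (Order.succ F.κ)).ord.toZFSet) (e : Ordinal.{0} → F.Lam)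
    (he : ∀ a b, a < (Order.succ (Order.succ F.κ)).ord → b < (Order.succ (Order.succ F.κ)).ord →
      e a = e b → a = b)
    (ht : ∀ a n q, a < (Order.succ (Order.succ F.κ)).ord →
      (op (op a.toZFSet (nt V n)) (cd q) ∈ j t ↔ F.Forces q {z | F.real (e a) z n = true})) :
    ContinuumGtAlephTwo N := by
  let _ := F.pQ
  have hcc := F.cc
  have hr₀ := F.regular
  have hr₁ : (Order.succ F.κ).IsRegular := Cardinal.isRegular_succ hr₀.aleph0_le
  have hr₂ : (Order.succ (Order.succ F.κ)).IsRegular := Cardinal.isRegular_succ hr₁.aleph0_le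
  have hl₁ : F.κ < Order.succ F.κ := Order.lt_succ _
  have hl₂ : Order.succ F.κ < Order.succ (Order.succ F.κ) := Order.lt_succ _
  obtain ⟨ho₀, hc₀⟩ := card_copy hj hE hP hle hcc le_rfl hr₀ hk₀
  obtain ⟨ho₁, hc₁⟩ := card_copy hj hE hP hle hcc hl₁.le hr₁ hk₁
  obtain ⟨ho₂, hc₂⟩ := card_copy hj hE hP hle hcc (hl₁.trans hl₂).le hr₂ hk₂
  have hm₀ : val (ck one k₀) ∈ val (ck one k₁) := by
    rw [hE.cv_mem, ← hj.mem, hk₀, hk₁, mem_toZ]
    exact ⟨_, Cardinal.ord_lt_ord.2 hl₁, rfl⟩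
  have hm₁ : val (ck one k₁) ∈ val (ck one k₂) := by
    rw [hE.cv_mem, ← hj.mem, hk₁, hk₂, mem_toZ]
    exact ⟨_, Cardinal.ord_lt_ord.2 hl₂, rfl⟩
  have hom : (SigB.om : N) ∈ val (ck one k₀) := by
    rw [← hE.cv_om, hE.cv_mem, ← hj.mem, hj.om, hk₀]
    exact om_mem_toZ F.aleph0_lt
  obtain ⟨w₁, hw₁, hw₁n, hw₁l⟩ := Ord.exists_least (P := fun y : N => ¬ Le y SigB.om)
    (by simp (maxDischargeDepth := 50)) ho₀ (hc₀ _ hom)
  have hs₁ : Sb w₁ (val (ck one k₀)) := (Ord.not_mem_iff ho₀ hw₁).1 fun h =>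
    absurd (hc₀ _ hom) (hw₁l _ h)
  have hk₁w : ¬ Le (val (ck one k₁)) w₁ := fun h => hc₁ _ hm₀ (h.mono_right hs₁)
  obtain ⟨w₂, hw₂, hw₂n, hw₂l⟩ := Ord.exists_least (P := fun y : N => ¬ Le y w₁)
    (by simp (maxDischargeDepth := 50)) ho₁ hk₁w
  have hs₂ : Sb w₂ (val (ck one k₁)) := (Ord.not_mem_iff ho₁ hw₂).1 fun h =>
    hw₂l _ h hk₁w
  have hle₂ := le_pw hj hE F hP hle hk₂ e he ht
  refine ⟨SigB.om, pw SigB.om, w₁, w₂, isOmega_iff.2 rfl, isPower_iff.2 rfl,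
    isOmegaOne_iff.2 ⟨hw₁, hw₁n, fun x hx => not_not.1 (hw₁l x hx)⟩,
    isSuccCardinal_iff.2 ⟨isCardinal_iff.2 ⟨hw₂, fun y hy h => hw₂n
      (h.trans (not_not.1 (hw₂l y hy)))⟩, ?_, fun x hx => not_not.1 (hw₂l x hx)⟩,
    injects_iff.2 ?_, fun h => ?_⟩
  · rcases hw₁.tri hw₂ with h | h | h
    · exact h
    · exact absurd (h ▸ Le.refl w₁) hw₂n
    · exact absurd (Le.of_sb (hw₁.sb h)) hw₂n
  · exact ((Le.of_sb hs₂).mono_right (ho₂.sb hm₁)).trans hle₂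
  · exact hc₂ _ hm₁ ((hle₂.trans (injects_iff.1 h)).mono_right hs₂)

/-- An enumeration of the reals of the frame. -/
theorem exists_enumM (F : Frame) : ∃ e : Ordinal.{0} → F.Lam,
    ∀ a b, a < (Order.succ (Order.succ F.κ)).ord → b < (Order.succ (Order.succ F.κ)).ord →
      e a = e b → a = b := by
  classical
  have h1 : Cardinal.lift.{0} #(Set.Iio (Order.succ (Order.succ F.κ)).ord) ≤
      Cardinal.lift.{1} #F.Lam := by
    rw [Cardinal.lift_id', Cardinal.mk_Iio_ordinal, Cardinal.card_ord, F.mk_Lam]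
  obtain ⟨f⟩ := Cardinal.lift_mk_le'.1 h1
  have h0 : (0 : Ordinal) < (Order.succ (Order.succ F.κ)).ord := by
    rw [Cardinal.lt_ord]
    simp
  refine ⟨fun a => if h : a < (Order.succ (Order.succ F.κ)).ord then f ⟨a, h⟩ else f ⟨0, h0⟩,
    fun a b ha hb h => ?_⟩
  simp only [dif_pos ha, dif_pos hb] at h
  exact congrArg Subtype.val (f.injective h)

end

/-! ### The theorem for generic extensions by a frame -/

/-- The enumeration of the reals. -/
noncomputable def enum (F : Frame) : Ordinal.{0} → F.Lam := (exists_enumM F).choose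

/-- The relation `q` forces that the value at `n` of the `a`-th real is `true`. -/
noncomputable def realS (F : Frame) : V :=
  ZFSet.range (fun w : {w : Set.Iio (Order.succ (Order.succ F.κ)).ord × (ℕ × F.Q) //
    F.Forces w.2.2 {z | F.real (enum F w.1.1) z w.2.1 = true}} =>
      (SigB.op (SigB.op w.1.1.1.toZFSet (nt V w.1.2.1)) (cd w.1.2.2) : V))

theorem mem_realS (F : Frame) {a : Ordinal.{0}} (ha : a < (Order.succ (Order.succ F.κ)).ord)
    (n : ℕ) (q : F.Q) : SigB.op (SigB.op a.toZFSet (nt V n)) (cd q) ∈ realS F ↔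
      F.Forces q {z | F.real (enum F a) z n = true} := by
  unfold realS
  rw [ZFSet.mem_range]
  constructor
  · rintro ⟨⟨⟨⟨a', ha'⟩, n', q'⟩, h⟩, he⟩
    obtain ⟨h1, h2⟩ := op_inj.1 he
    obtain ⟨h3, h4⟩ := op_inj.1 h1
    have h5 := Ordinal.toZFSet_injective h3
    have h6 := nt_inj h4
    rw [cd_inj] at h2
    subst h2
    subst h6
    simp only at h5
    subst h5
    exact h
  · intro h
    exact ⟨⟨⟨⟨a, ha⟩, n, q⟩, h⟩, rfl⟩

/-- The parameters. -/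
noncomputable def parC (F : Frame) : List V :=
  [F.κ.ord.toZFSet, (Order.succ F.κ).ord.toZFSet, (Order.succ (Order.succ F.κ)).ord.toZFSet,
    realS F]

/-- The continuum of the extension by a frame is greater than `ℵ₂`. -/
theorem Gn.continuum {F : Frame} {M N : Type 1} [Membership M M] [IsZFC M] [Membership N N]
    [IsZFC N] (g : Gn F M N) (h : g.Has (parC F)) : ContinuumGtAlephTwo N := by
  obtain ⟨k₀, hk₀⟩ := h _ (List.mem_cons_self)
  obtain ⟨k₁, hk₁⟩ := h _ (List.mem_cons_of_mem _ List.mem_cons_self)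
  obtain ⟨k₂, hk₂⟩ := h _ (List.mem_cons_of_mem _ (List.mem_cons_of_mem _ List.mem_cons_self))
  obtain ⟨t, ht⟩ := h (realS F) (List.mem_cons_of_mem _ (List.mem_cons_of_mem _
    (List.mem_cons_of_mem _ List.mem_cons_self)))
  exact continuumGt g.sub g.ex F g.jP g.jle hk₀ hk₁ hk₂ (enum F) (exists_enumM F).choose_spec
    (fun a n q ha => by rw [ht]; exact mem_realS F ha n q)

end Pool.Agent.GPA
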