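import Pool.Agent.GPA.MNat

/-!
# Block M, part 4: coding of types in the universe
-/

set_option linter.unusedSectionVars false

namespace Pool.Agent.GPA

open Pool.Agent.SigB Pool.Agent.Frc Pool.Agent.Forc

/-- Codes of the elements of a type in the universe. -/
class Cod (α : Type) where
  cd : α → V
  inj : Function.Injective cd

export Cod (cd)

theorem exists_cod (α : Type) : ∃ f : α → V, Function.Injective f := by
  refine ⟨fun a => (Ordinal.typein (WellOrderingRel (α := α)) a).toZFSet, fun a b h => ?_⟩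
  exact Ordinal.typein_injective _ (Ordinal.toZFSet_injective h)

/-- An arbitrary coding. -/
noncomputable def Cod.any (α : Type) : Cod α := ⟨(exists_cod α).choose, (exists_cod α).choose_spec⟩

noncomputable instance : Cod ℕ := ⟨nt V, fun _ _ h => nt_inj h⟩

noncomputable instance : Cod (List Bool) := ⟨st V, fun _ _ h => st_inj h⟩

section

variable {α β γ : Type} [Cod α] [Cod β] [Cod γ]

theorem cd_inj {a b : α} : cd a = cd b ↔ a = b := Cod.inj.eq_iff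

noncomputable instance : Cod (α × β) where
  cd a := SigB.op (cd a.1) (cd a.2)
  inj a b h := by
    have := SigB.op_inj.1 h
    exact Prod.ext (Cod.inj this.1) (Cod.inj this.2)

theorem cd_pair (a : α) (b : β) : cd (a, b) = SigB.op (cd a) (cd b) := rfl

theorem cd_set_aux {s : Set α} {x : V} :
    x ∈ ZFSet.range (fun a : s => cd a.1) ↔ ∃ a ∈ s, x = cd a := by
  rw [ZFSet.mem_range]
  constructor
  · rintro ⟨a, rfl⟩
    exact ⟨a.1, a.2, rfl⟩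
  · rintro ⟨a, ha, rfl⟩
    exact ⟨⟨a, ha⟩, rfl⟩

noncomputable instance : Cod (Set α) where
  cd s := ZFSet.range (fun a : s => cd a.1)
  inj s t h := by
    have h2 : ZFSet.range (fun a : s => cd a.1) = ZFSet.range (fun a : t => cd a.1) := h
    ext a
    constructor
    · intro ha
      have h1 : cd a ∈ ZFSet.range (fun a : t => cd a.1) := h2 ▸ cd_set_aux.2 ⟨a, ha, rfl⟩
      obtain ⟨b, hb, hab⟩ := cd_set_aux.1 h1
      rwa [Cod.inj hab]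
    · intro ha
      have h1 : cd a ∈ ZFSet.range (fun a : s => cd a.1) := h2 ▸ cd_set_aux.2 ⟨a, ha, rfl⟩
      obtain ⟨b, hb, hab⟩ := cd_set_aux.1 h1
      rwa [Cod.inj hab]

theorem mem_cd_set {s : Set α} {x : V} : x ∈ cd s ↔ ∃ a ∈ s, x = cd a := cd_set_aux

theorem cd_mem_cd {s : Set α} {a : α} : cd a ∈ cd s ↔ a ∈ s := by
  rw [mem_cd_set]
  constructor
  · rintro ⟨b, hb, hab⟩
    rwa [Cod.inj hab]
  · intro ha
    exact ⟨a, ha, rfl⟩

end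

/-! ### Objects which belong to `M` -/

section

variable {M : Type 1} [Membership M M] (j : M → V)

/-- The code of `a` belongs to `M`. -/
def InM {α : Type} [Cod α] (a : α) : Prop := ∃ m, j m = cd a

variable {j} {α β γ : Type} [Cod α] [Cod β] [Cod γ] [IsZFC M]

omit [IsZFC M] in
theorem pd_ren {n m : ℕ} {P₀ : (Fin n → M) → Prop} {P : (Fin n → V) → Prop} (h : PD j P₀ P)
    (g : Fin n → Fin m) : PD j (fun w : Fin m → M => P₀ fun i => w (g i))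
      (fun w : Fin m → V => P fun i => w (g i)) := by
  obtain ⟨φ, h1, h2⟩ := h
  exact (PD.sat φ g).congr (fun v => (h1 _).symm) fun v => (h2 _).symm

/-- The set of `M` given by a property of `V` with two parameters. -/
theorem ElSub.cmp2 (h : ElSub M j) {P₀ : M → M → M → Prop} {P : V → V → V → Prop}
    (hP : PD j (fun v : Fin 3 → M => P₀ (v 0) (v 1) (v 2))
      (fun v : Fin 3 → V => P (v 0) (v 1) (v 2))) {a b : M} {t : V}
    (ht : ∀ x, x ∈ t ↔ P x (j a) (j b)) : ∃ s : M, j s = t := by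
  have h4 : PD j (fun w : Fin 4 → M => w 0 ∈ w 1 ↔ P₀ (w 0) (w 2) (w 3))
      (fun w : Fin 4 → V => w 0 ∈ w 1 ↔ P (w 0) (w 2) (w 3)) :=
    (PD.mem 0 1).iff (pd_ren hP ![0, 2, 3])
  have h3 : PD j (fun w : Fin 3 → M => ∀ x, x ∈ w 0 ↔ P₀ x (w 1) (w 2))
      (fun w : Fin 3 → V => ∀ x, x ∈ w 0 ↔ P x (w 1) (w 2)) :=
    PD.all (P₀ := fun (w : Fin 3 → M) x => x ∈ w 0 ↔ P₀ x (w 1) (w 2))
      (P := fun (w : Fin 3 → V) x => x ∈ w 0 ↔ P x (w 1) (w 2)) h4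
  have h1 : ∃ s : M, ∀ x, x ∈ s ↔ P₀ x a b :=
    (h.el2 (P₀ := fun a b => ∃ s : M, ∀ x, x ∈ s ↔ P₀ x a b)
      (P := fun a b => ∃ s : V, ∀ x, x ∈ s ↔ P x a b)
      (PD.ex (P₀ := fun (v : Fin 2 → M) s => ∀ x, x ∈ s ↔ P₀ x (v 0) (v 1))
      (P := fun (v : Fin 2 → V) s => ∀ x, x ∈ s ↔ P x (v 0) (v 1)) h3) a b).2 ⟨t, ht⟩
  obtain ⟨s, hs⟩ := h1
  have h2 := (h.el3 (P₀ := fun s a b => ∀ x, x ∈ s ↔ P₀ x a b)
    (P := fun s a b => ∀ x, x ∈ s ↔ P x a b) h3 s a b).1 hs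
  exact ⟨s, ext' fun x => (h2 x).trans (ht x).symm⟩

theorem inM_pair (h : ElSub M j) {a : α} {b : β} : InM j (a, b) ↔ InM j a ∧ InM j b := by
  constructor
  · rintro ⟨m, hm⟩
    rw [cd_pair] at hm
    obtain ⟨x, y, hxy⟩ := (h.el1 (P₀ := fun m => ∃ x y, IsOrdPair m x y)
      (P := fun m => ∃ x y, IsOrdPair m x y) (by simp (maxDischargeDepth := 50)) m).2
      ⟨cd a, cd b, isOrdPair_iff.2 hm⟩
    rw [isOrdPair_iff.1 hxy, h.op] at hm
    obtain ⟨h1, h2⟩ := SigB.op_inj.1 hm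
    exact ⟨⟨x, h1⟩, ⟨y, h2⟩⟩
  · rintro ⟨⟨x, hx⟩, ⟨y, hy⟩⟩
    exact ⟨SigB.op x y, by rw [h.op, hx, hy, cd_pair]⟩

theorem inM_nat (h : ElSub M j) (n : ℕ) : InM j n :=
  ⟨nt M n, h.finHom.nt n⟩

theorem inM_str (h : ElSub M j) (s : List Bool) : InM j s :=
  ⟨st M s, h.finHom.st s⟩

theorem inM_univ_nat (h : ElSub M j) : InM j (Set.univ : Set ℕ) := by
  refine ⟨SigB.om, ?_⟩
  rw [h.om]
  refine ext' fun x => ?_
  rw [mem_cd_set]
  constructor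
  · intro hx
    obtain ⟨n, hn⟩ := om_V x hx
    exact ⟨n, trivial, hn⟩
  · rintro ⟨n, -, rfl⟩
    exact nt_mem_om n

theorem inM_univ_str (h : ElSub M j) : InM j (Set.univ : Set (List Bool)) := by
  refine h.cmp2 (P₀ := fun x o t => ∃ n, n ∈ o ∧ IsMap x n t)
    (P := fun x o t => ∃ n, n ∈ o ∧ IsMap x n t) (by simp (maxDischargeDepth := 50))
    (a := SigB.om) (b := nt M 2) fun x => ?_
  rw [h.om, h.finHom.nt, mem_cd_set]
  constructor
  · rintro ⟨s, -, rfl⟩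
    refine ⟨nt V s.length, nt_mem_om _, ?_⟩
    have h1 : st V s ∈ fs (nt V s.length) (nt V 2) := mem_fs_nt.2 ⟨s, rfl, rfl⟩
    exact isMap_iff.2 h1
  · rintro ⟨n, hn, hx⟩
    obtain ⟨m, rfl⟩ := om_V n hn
    obtain ⟨s, -, hs⟩ := mem_fs_nt.1 (isMap_iff.1 hx)
    exact ⟨s, trivial, hs⟩

theorem inM_univ_prod (h : ElSub M j) (ha : InM j (Set.univ : Set α))
    (hb : InM j (Set.univ : Set β)) : InM j (Set.univ : Set (α × β)) := by
  obtain ⟨A, hA⟩ := ha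
  obtain ⟨B, hB⟩ := hb
  refine h.cmp2 (P₀ := fun z A B => ∃ x, x ∈ A ∧ ∃ y, y ∈ B ∧ IsOrdPair z x y)
    (P := fun z A B => ∃ x, x ∈ A ∧ ∃ y, y ∈ B ∧ IsOrdPair z x y)
    (by simp (maxDischargeDepth := 50)) (a := A) (b := B) fun z => ?_
  rw [hA, hB, mem_cd_set]
  constructor
  · rintro ⟨a, -, rfl⟩
    exact ⟨cd a.1, cd_mem_cd.2 trivial, cd a.2, cd_mem_cd.2 trivial, isOrdPair_iff.2 rfl⟩
  · rintro ⟨x, hx, y, hy, hz⟩
    obtain ⟨a, -, rfl⟩ := mem_cd_set.1 hx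
    obtain ⟨b, -, rfl⟩ := mem_cd_set.1 hy
    exact ⟨(a, b), trivial, isOrdPair_iff.1 hz⟩

/-- Witnesses in `M`. -/
theorem inM_wit (h : ElSub M j) {r : Set (α × β)} (hr : InM j r) {a : α} (ha : InM j a)
    (hb : ∃ b, (a, b) ∈ r) : ∃ b, InM j b ∧ (a, b) ∈ r := by
  obtain ⟨R, hR⟩ := hr
  obtain ⟨A, hA⟩ := ha
  obtain ⟨b, hb⟩ := hb
  obtain ⟨B, hB⟩ := h.wit (R := R) (a := A) ⟨cd b, by
    rw [hR, hA, ← cd_pair]
    exact cd_mem_cd.2 hb⟩
  have h1 : SigB.op (j A) (j B) ∈ j R := by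
    rw [← h.op]
    exact h.mem.2 hB
  rw [hR, hA] at h1
  obtain ⟨p, hp, hpe⟩ := mem_cd_set.1 h1
  obtain ⟨h2, h3⟩ := SigB.op_inj.1 hpe
  have h4 : a = p.1 := Cod.inj h2
  refine ⟨p.2, ⟨B, h3⟩, ?_⟩
  rw [h4]
  exact hp

theorem inM_wit1 (h : ElSub M j) {r : Set α} (hr : InM j r) (hb : ∃ a, a ∈ r) :
    ∃ a, InM j a ∧ a ∈ r := by
  obtain ⟨R, hR⟩ := hr
  obtain ⟨a, ha⟩ := hb
  obtain ⟨B, hB⟩ := h.wit1 (R := R) ⟨cd a, by
    rw [hR]
    exact cd_mem_cd.2 ha⟩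
  have h1 : j B ∈ j R := h.mem.2 hB
  rw [hR] at h1
  obtain ⟨p, hp, hpe⟩ := mem_cd_set.1 h1
  exact ⟨p, ⟨B, hpe⟩, hp⟩

theorem inM_sec (h : ElSub M j) {r : Set (α × β)} (hr : InM j r) {b : β} (hb : InM j b) :
    InM j {a | (a, b) ∈ r} := by
  obtain ⟨R, hR⟩ := hr
  obtain ⟨B, hB⟩ := hb
  refine h.cmp2 (P₀ := fun x R B => Val R x B) (P := fun x R B => Val R x B)
    (by simp (maxDischargeDepth := 50)) (a := R) (b := B) fun x => ?_
  rw [hR, hB, mem_cd_set, val_iff]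
  constructor
  · rintro ⟨a, ha, rfl⟩
    exact (cd_mem_cd (a := (a, b))).2 ha
  · intro hx
    obtain ⟨p, hp, hpe⟩ := mem_cd_set.1 hx
    obtain ⟨h2, h3⟩ := SigB.op_inj.1 hpe
    have h4 : b = p.2 := Cod.inj h3
    refine ⟨p.1, ?_, h2⟩
    show (p.1, b) ∈ r
    rw [h4]
    exact hp

theorem inM_sec' (h : ElSub M j) {r : Set (α × β)} (hr : InM j r) {a : α} (ha : InM j a) :
    InM j {b | (a, b) ∈ r} := by
  obtain ⟨R, hR⟩ := hr
  obtain ⟨A, hA⟩ := ha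
  refine h.cmp2 (P₀ := fun x R A => Val R A x) (P := fun x R A => Val R A x)
    (by simp (maxDischargeDepth := 50)) (a := R) (b := A) fun x => ?_
  rw [hR, hA, mem_cd_set, val_iff]
  constructor
  · rintro ⟨b, hb, rfl⟩
    exact (cd_mem_cd (a := (a, b))).2 hb
  · intro hx
    obtain ⟨p, hp, hpe⟩ := mem_cd_set.1 hx
    obtain ⟨h2, h3⟩ := SigB.op_inj.1 hpe
    have h4 : a = p.1 := Cod.inj h2
    refine ⟨p.2, ?_, h3⟩
    show (a, p.2) ∈ r
    rw [h4]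
    exact hp

theorem inM_proj (h : ElSub M j) {r : Set (α × β)} (hr : InM j r) :
    InM j {a | ∃ b, (a, b) ∈ r} := by
  obtain ⟨R, hR⟩ := hr
  refine h.cmp2 (P₀ := fun x R _ => ∃ y, Val R x y) (P := fun x R _ => ∃ y, Val R x y)
    (by simp (maxDischargeDepth := 50)) (a := R) (b := R) fun x => ?_
  rw [hR, mem_cd_set]
  constructor
  · rintro ⟨a, ⟨b, hb⟩, rfl⟩
    exact ⟨cd b, val_iff.2 (cd_mem_cd.2 hb)⟩
  · rintro ⟨y, hy⟩
    obtain ⟨p, hp, hpe⟩ := mem_cd_set.1 (val_iff.1 hy)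
    obtain ⟨h2, h3⟩ := SigB.op_inj.1 hpe
    exact ⟨p.1, ⟨p.2, hp⟩, h2⟩

theorem inM_union (h : ElSub M j) {r s : Set α} (hr : InM j r) (hs : InM j s) :
    InM j (r ∪ s) := by
  obtain ⟨R, hR⟩ := hr
  obtain ⟨S, hS⟩ := hs
  refine ⟨SigB.un R S, ?_⟩
  rw [h.un, hR, hS]
  refine ext' fun x => ?_
  rw [mem_un, mem_cd_set, mem_cd_set, mem_cd_set]
  constructor
  · rintro (⟨a, ha, rfl⟩ | ⟨a, ha, rfl⟩)
    · exact ⟨a, Or.inl ha, rfl⟩
    · exact ⟨a, Or.inr ha, rfl⟩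
  · rintro ⟨a, ha | ha, rfl⟩
    · exact Or.inl ⟨a, ha, rfl⟩
    · exact Or.inr ⟨a, ha, rfl⟩

theorem inM_inter (h : ElSub M j) {r s : Set α} (hr : InM j r) (hs : InM j s) :
    InM j (r ∩ s) := by
  obtain ⟨R, hR⟩ := hr
  obtain ⟨S, hS⟩ := hs
  refine h.cmp2 (P₀ := fun x R S => x ∈ R ∧ x ∈ S) (P := fun x R S => x ∈ R ∧ x ∈ S)
    (by simp (maxDischargeDepth := 50)) (a := R) (b := S) fun x => ?_
  rw [hR, hS, mem_cd_set]
  constructor
  · rintro ⟨a, ha, rfl⟩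
    exact ⟨cd_mem_cd.2 ha.1, cd_mem_cd.2 ha.2⟩
  · rintro ⟨h1, h2⟩
    obtain ⟨a, ha, rfl⟩ := mem_cd_set.1 h1
    exact ⟨a, ⟨ha, cd_mem_cd.1 h2⟩, rfl⟩

theorem inM_diff (h : ElSub M j) {r s : Set α} (hr : InM j r) (hs : InM j s) :
    InM j (r \ s) := by
  obtain ⟨R, hR⟩ := hr
  obtain ⟨S, hS⟩ := hs
  refine h.cmp2 (P₀ := fun x R S => x ∈ R ∧ ¬ x ∈ S) (P := fun x R S => x ∈ R ∧ ¬ x ∈ S)
    (by simp (maxDischargeDepth := 50)) (a := R) (b := S) fun x => ?_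
  rw [hR, hS, mem_cd_set]
  constructor
  · rintro ⟨a, ha, rfl⟩
    exact ⟨cd_mem_cd.2 ha.1, fun h3 => ha.2 (cd_mem_cd.1 h3)⟩
  · rintro ⟨h1, h2⟩
    obtain ⟨a, ha, rfl⟩ := mem_cd_set.1 h1
    exact ⟨a, ⟨ha, fun h3 => h2 (cd_mem_cd.2 h3)⟩, rfl⟩

/-- Subsets of `α` which are given by an element of `M`. -/
theorem inM_of_mem (h : ElSub M j) {m : M} (hm : ∀ x, x ∈ j m → ∃ a : α, x = cd a) :
    InM j {a : α | cd a ∈ j m} := by
  refine ⟨m, ext' fun x => ?_⟩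
  rw [mem_cd_set]
  constructor
  · intro hx
    obtain ⟨a, rfl⟩ := hm x hx
    exact ⟨a, hx, rfl⟩
  · rintro ⟨a, ha, rfl⟩
    exact ha

/-- A set given by a definable predicate of `M` on codes: the set of all `a` (also outside of `M`)
in the set of `M` which is given by separation. -/
theorem exists_inM_of_dfn (h : ElSub M j) {A : Set α} (hA : InM j A) {Q : M → Prop}
    (hQ : Dfn fun w : Fin 1 → M => Q (w 0)) :
    ∃ s : Set α, InM j s ∧ s ⊆ A ∧ ∀ (a : α) (m : M), j m = cd a → (a ∈ s ↔ a ∈ A ∧ Q m) := by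
  obtain ⟨A₀, hA₀⟩ := hA
  have hs : ∀ x, x ∈ j (sp A₀ Q) → x ∈ j A₀ := (h.el2 (P₀ := IsSub) (P := IsSub)
    (PD.isSub 0 1) (sp A₀ Q) A₀).1 fun x hx => ((mem_sp hQ).1 hx).1
  have hA : ∀ {a : α}, cd a ∈ j A₀ ↔ a ∈ A := fun {a} => by rw [hA₀, cd_mem_cd]
  refine ⟨{a : α | cd a ∈ j (sp A₀ Q)}, inM_of_mem h fun x hx => ?_, fun a ha => ?_, ?_⟩
  · have h1 := hs x hx
    rw [hA₀] at h1
    obtain ⟨a, -, ha⟩ := mem_cd_set.1 h1
    exact ⟨a, ha⟩
  · exact hA.1 (hs _ ha)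
  · intro a m hm
    show cd a ∈ j (sp A₀ Q) ↔ _
    rw [← hm, h.mem, mem_sp hQ, ← h.mem, hm, hA]

end

/-! ### Hereditarily finite codes, which make sense in every model -/

/-- The type `I` has codes in every model, which are preserved by the maps `f` with `FinHom f`. -/
class HC (I : Type) [Cod I] where
  c : (K : Type 1) → [Membership K K] → [IsZFC K] → I → K
  cV : ∀ i, c V i = cd i
  inj : ∀ (K : Type 1) [Membership K K] [IsZFC K], Function.Injective (c K)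
  hom : ∀ {K K' : Type 1} [Membership K K] [IsZFC K] [Membership K' K'] [IsZFC K'] {f : K → K'},
    FinHom f → ∀ i, f (c K i) = c K' i

noncomputable instance : HC ℕ where
  c K _ _ n := nt K n
  cV _ := rfl
  inj K _ _ _ _ h := nt_inj h
  hom h n := h.nt n

noncomputable instance : HC (List Bool) where
  c K _ _ s := st K s
  cV _ := rfl
  inj K _ _ _ _ h := st_inj h
  hom h s := h.st s

noncomputable instance {I J : Type} [Cod I] [Cod J] [HC I] [HC J] : HC (I × J) where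
  c K _ _ a := SigB.op (HC.c K a.1) (HC.c K a.2)
  cV a := by rw [cd_pair, HC.cV, HC.cV]
  inj K _ _ a b h := by
    have := SigB.op_inj.1 h
    exact Prod.ext (HC.inj K this.1) (HC.inj K this.2)
  hom h a := by rw [h.op, HC.hom h, HC.hom h]

end Pool.Agent.GPA
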