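import Pool.Agent.Forc.Loew
import Pool.Agent.Forc.Tr
import Pool.Agent.SigB.ZF

/-!
# Block M, part 1: countable elementary submodels of the universe
-/

set_option linter.unusedSectionVars false

namespace Pool.Agent.GPA

open Pool.Agent.SigB Pool.Agent.Frc Pool.Agent.Forc

/-- The universe. -/
abbrev V := ZFSet.{0}

/-- A countable set which contains a given countable set and is closed under witnesses. -/
theorem exists_full_of {A : Set V} (hA : A.Countable) :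
    ∃ S : Set V, S.Countable ∧ A ⊆ S ∧ Full S := by
  classical
  let st : ℕ → {S : Set V // S.Countable} := fun k =>
    Nat.rec ⟨A, hA⟩
      (fun _ S => ⟨(exists_stepL S.1 S.2).choose, (exists_stepL S.1 S.2).choose_spec.1⟩) k
  have hst : ∀ k, st (k + 1) = ⟨(exists_stepL (st k).1 (st k).2).choose,
    (exists_stepL (st k).1 (st k).2).choose_spec.1⟩ := fun k => rfl
  have hmono : ∀ k, (st k).1 ⊆ (st (k + 1)).1 := by
    intro k
    rw [hst k]
    exact (exists_stepL (st k).1 (st k).2).choose_spec.2.1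
  have hm : ∀ {k j : ℕ}, k ≤ j → (st k).1 ⊆ (st j).1 := by
    intro k j h
    induction h with
    | refl => exact subset_rfl
    | step _ ih => exact ih.trans (hmono _)
  refine ⟨⋃ k, (st k).1, Set.countable_iUnion fun k => (st k).2,
    fun x hx => Set.mem_iUnion.2 ⟨0, hx⟩, fun n φ v h => ?_⟩
  obtain ⟨k₁, h₁⟩ := exists_chain_lift hmono φ
  have h₂ : ∃ k₂, ∀ i, (v i : V) ∈ (st k₂).1 := by
    have h3 : ∀ i, ∃ k, (v i : V) ∈ (st k).1 := fun i => Set.mem_iUnion.1 (v i).2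
    choose g hg using h3
    exact ⟨Finset.univ.sup g, fun i => hm (Finset.le_sup (Finset.mem_univ i)) (hg i)⟩
  obtain ⟨k₂, h₂⟩ := h₂
  obtain ⟨φ', hφ⟩ := h₁ (max k₁ k₂) (le_max_left _ _)
  let v' : Fin n → (st (max k₁ k₂)).1 := fun i => ⟨v i, hm (le_max_right _ _) (h₂ i)⟩
  have hφ2 : mapP Subtype.val φ = mapP (Subtype.val : (st (max k₁ k₂)).1 → V) φ' := by
    rw [← hφ, mapP_mapP]
  have h3 := (exists_stepL (st (max k₁ k₂)).1 (st (max k₁ k₂)).2).choose_spec.2.2 n φ' v' (by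
    rw [← hφ2]; exact h)
  obtain ⟨x, hx, hx'⟩ := h3
  refine ⟨x, Set.mem_iUnion.2 ⟨max k₁ k₂ + 1, ?_⟩, ?_⟩
  · rw [hst]; exact hx
  · rw [hφ2]; exact hx'

/-- `M` is a countable elementary submodel of the universe, `j` is the inclusion. -/
structure ElSub (M : Type 1) [Membership M M] (j : M → V) : Prop where
  inj : Function.Injective j
  cnt : Countable M
  elem : ∀ {n : ℕ} {P₀ : (Fin n → M) → Prop} {P : (Fin n → V) → Prop}, PD j P₀ P →
    ∀ v, P₀ v ↔ P fun i => j (v i)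

/-- There is a countable elementary submodel containing a given countable set. -/
theorem exists_sub {A : Set V} (hA : A.Countable) :
    ∃ (M : Type 1) (_ : Membership M M) (j : M → V), ElSub M j ∧ ∀ a ∈ A, ∃ m, j m = a := by
  obtain ⟨S, hc, hAS, hS⟩ := exists_full_of hA
  let inst : Membership S S := subMem S
  exact ⟨S, inst, Subtype.val, ⟨Subtype.val_injective, hc.to_subtype, fun h v => hS.iff h v⟩,
    fun a ha => ⟨⟨a, hAS ha⟩, rfl⟩⟩

section

variable {M : Type 1} [Membership M M] {j : M → V}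

theorem ElSub.mem (h : ElSub M j) {x y : M} : j x ∈ j y ↔ x ∈ y :=
  (h.elem (PD.mem (j := j) (n := 2) 0 1) ![x, y]).symm

theorem ElSub.zfc (h : ElSub M j) : IsZFC M :=
  transferZ (M := V) (M₀ := M) (j := j) fun {_ _} hp => h.elem hp Fin.elim0

theorem ElSub.el1 (h : ElSub M j) {P₀ : M → Prop} {P : V → Prop}
    (hP : PD j (fun v : Fin 1 → M => P₀ (v 0)) (fun v : Fin 1 → V => P (v 0))) (x : M) :
    P₀ x ↔ P (j x) := h.elem hP ![x]

theorem ElSub.el2 (h : ElSub M j) {P₀ : M → M → Prop} {P : V → V → Prop}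
    (hP : PD j (fun v : Fin 2 → M => P₀ (v 0) (v 1)) (fun v : Fin 2 → V => P (v 0) (v 1)))
    (x y : M) : P₀ x y ↔ P (j x) (j y) := h.elem hP ![x, y]

theorem ElSub.el3 (h : ElSub M j) {P₀ : M → M → M → Prop} {P : V → V → V → Prop}
    (hP : PD j (fun v : Fin 3 → M => P₀ (v 0) (v 1) (v 2))
      (fun v : Fin 3 → V => P (v 0) (v 1) (v 2)))
    (x y z : M) : P₀ x y z ↔ P (j x) (j y) (j z) := h.elem hP ![x, y, z]

theorem ElSub.el4 (h : ElSub M j) {P₀ : M → M → M → M → Prop} {P : V → V → V → V → Prop}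
    (hP : PD j (fun v : Fin 4 → M => P₀ (v 0) (v 1) (v 2) (v 3))
      (fun v : Fin 4 → V => P (v 0) (v 1) (v 2) (v 3)))
    (x y z w : M) : P₀ x y z w ↔ P (j x) (j y) (j z) (j w) := h.elem hP ![x, y, z, w]

variable [IsZFC M]

theorem ElSub.em (h : ElSub M j) : j (SigB.em : M) = (SigB.em : V) := by
  have h1 := (h.el1 (P₀ := fun x => ∀ z, z ∉ x) (P := fun x => ∀ z, z ∉ x)
    (by simp (maxDischargeDepth := 50)) SigB.em).1 not_mem_em
  exact ext' fun z => ⟨fun hz => (h1 z hz).elim, fun hz => (not_mem_em z hz).elim⟩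

theorem ElSub.pr (h : ElSub M j) (x y : M) : j (SigB.pr x y) = SigB.pr (j x) (j y) :=
  isPair_iff.1 ((h.el3 (P₀ := IsPair) (P := IsPair) (PD.isPair 0 1 2) _ x y).1
    (isPair_iff.2 rfl))

theorem ElSub.op (h : ElSub M j) (x y : M) : j (SigB.op x y) = SigB.op (j x) (j y) :=
  isOrdPair_iff.1 ((h.el3 (P₀ := IsOrdPair) (P := IsOrdPair) (PD.isOrdPair 0 1 2) _ x y).1
    (isOrdPair_iff.2 rfl))

theorem ElSub.un (h : ElSub M j) (x y : M) : j (SigB.un x y) = SigB.un (j x) (j y) := by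
  have h1 := (h.el3 (P₀ := fun z x y => ∀ w, w ∈ z ↔ w ∈ x ∨ w ∈ y)
    (P := fun z x y => ∀ w, w ∈ z ↔ w ∈ x ∨ w ∈ y)
    (by simp (maxDischargeDepth := 50)) (SigB.un x y) x y).1 (fun w => mem_un)
  exact ext' fun z => (h1 z).trans mem_un.symm

theorem ElSub.sc (h : ElSub M j) (x : M) : j (SigB.sc x) = SigB.sc (j x) := by
  have h1 : SigB.sc x = SigB.un x (SigB.pr x x) := rfl
  have h2 : SigB.sc (j x) = SigB.un (j x) (SigB.pr (j x) (j x)) := rfl
  rw [h1, h2, h.un, h.pr]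

theorem ElSub.om (h : ElSub M j) : j (SigB.om : M) = (SigB.om : V) :=
  isOmega_iff.1 ((h.el1 (P₀ := IsOmega) (P := IsOmega) (PD.isOmega 0) SigB.om).1
    (isOmega_iff.2 rfl))

theorem ElSub.ord (h : ElSub M j) (x : M) : SigB.Ord (j x) ↔ SigB.Ord x :=
  (h.el1 (P₀ := IsOrdinal) (P := IsOrdinal) (PD.isOrdinal 0) x).symm

/-- Witnesses: if some pair `(a, y)` belongs to `R` then there is such a `y` in `M`. -/
theorem ElSub.wit (h : ElSub M j) {R a : M} (hy : ∃ y, SigB.op (j a) y ∈ j R) :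
    ∃ b, SigB.op a b ∈ R := by
  obtain ⟨y, hy⟩ := hy
  obtain ⟨b, hb⟩ := (h.el2 (P₀ := fun R a => ∃ y, Val R a y) (P := fun R a => ∃ y, Val R a y)
    (by simp (maxDischargeDepth := 50)) R a).2 ⟨y, val_iff.2 hy⟩
  exact ⟨b, val_iff.1 hb⟩

/-- Elements: a nonempty set of `M` has an element in `M`. -/
theorem ElSub.wit1 (h : ElSub M j) {R : M} (hy : ∃ y, y ∈ j R) : ∃ b, b ∈ R :=
  (h.el1 (P₀ := fun R => ∃ y, y ∈ R) (P := fun R => ∃ y, y ∈ R)
    (by simp (maxDischargeDepth := 50)) R).2 hy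

/-- Sections of relations. -/
theorem ElSub.sec (h : ElSub M j) (R b : M) :
    ∃ s : M, ∀ x, x ∈ j s ↔ SigB.op x (j b) ∈ j R := by
  have h1 : ∃ s : M, ∀ x, x ∈ s ↔ Val R x b := by
    refine (h.el2 (P₀ := fun R b => ∃ s : M, ∀ x, x ∈ s ↔ Val R x b)
      (P := fun R b => ∃ s : V, ∀ x, x ∈ s ↔ Val R x b) (by simp (maxDischargeDepth := 50)) R b).2
      ?_
    have hd : Dfn (fun w : Fin 1 → V => SigB.op (w 0) (j b) ∈ j R) := by
      simp (maxDischargeDepth := 50)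
    refine ⟨sp (sU (sU (j R))) fun x => SigB.op x (j b) ∈ j R, fun x => ?_⟩
    rw [mem_sp hd, val_iff]
    refine ⟨fun h => h.2, fun hx => ⟨?_, hx⟩⟩
    have hy : SigB.pr x x ∈ SigB.op x (j b) := mem_pr.2 (Or.inl rfl)
    exact mem_sU.2 ⟨_, mem_sU.2 ⟨_, hx, hy⟩, mem_pr.2 (Or.inl rfl)⟩
  obtain ⟨s, hs⟩ := h1
  have h2 := (h.el3 (P₀ := fun s R b => ∀ x, x ∈ s ↔ Val R x b)
    (P := fun s R b => ∀ x, x ∈ s ↔ Val R x b) (by simp (maxDischargeDepth := 50)) s R b).1 hs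
  exact ⟨s, fun x => (h2 x).trans val_iff⟩

end

end Pool.Agent.GPA
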