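import Pool.Agent.GPA.MGP
import Pool.Agent.GPA.MCardN

/-!
# Block M, part 12: the model
-/

namespace Pool.Agent.GPA

open Pool.Agent.SigB Pool.Agent.Frc Pool.Agent.Forc

/-- From a frame to a model of Goldstern's principle with a large continuum; all natural numbers
of the model are standard. -/
theorem Frame.model' (F : Frame) : ∃ (N : Type 1) (_ : Membership N N) (_ : IsZFC N), Om N ∧
    GPCantor N ∧ ContinuumGtAlephTwo N := by
  obtain ⟨M, N, i1, i2, i3, i4, g, hg⟩ := exists_gn F
    (A := {a | a ∈ parVio F ++ parC F}) (List.finite_toSet _).countable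
  exact ⟨N, i3, i4, g.om_N, Gn.gpCantor (fun a ha => hg a (List.mem_append_left _ ha)),
    g.continuum fun a ha => hg a (List.mem_append_right _ ha)⟩

/-- From a frame to a model of Goldstern's principle with a large continuum. -/
theorem Frame.model (F : Frame) : ∃ (N : Type 1) (_ : Membership N N), IsZFC N ∧ GPCantor N ∧
    ContinuumGtAlephTwo N := by
  obtain ⟨N, i, h1, -, h2, h3⟩ := F.model'
  exact ⟨N, i, h1, h2, h3⟩

end Pool.Agent.GPA
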