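import Pool.Agent.GPA.MRead
import Pool.Agent.GPA.MAbs

/-!
# Block M, part 11: Goldstern's principle for all sets in the extension
-/

set_option linter.unusedSectionVars false

namespace Pool.Agent.GPA

open Pool.Agent.SigB Pool.Agent.Frc Pool.Agent.Forc

/-- Pairs of names. -/
abbrev Nm (F : Frame) : Type := NB F × NF F

/-- Conditions with pairs of names. -/
abbrev RTr (F : Frame) : Type := F.Q × Nm F

/-- The conditions `s` with `(s, a) ∈ r` are dense below `q`. -/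
def Rel {F : Frame} (r : Set (RTr F)) (q : F.Q) (a : Nm F) : Prop :=
  ∀ q' ≤ q, ∃ s ≤ q', (s, a) ∈ r

theorem Rel.mono {F : Frame} {r : Set (RTr F)} {q s : F.Q} {a : Nm F} (h : Rel r q a)
    (hs : s ≤ q) : Rel r s a := fun q' hq' => h q' (hq'.trans hs)

theorem Rel.of_dense {F : Frame} {r : Set (RTr F)} {q : F.Q} {a : Nm F}
    (h : ∀ q' ≤ q, ∃ s ≤ q', Rel r s a) : Rel r q a := fun q' hq' => by
  obtain ⟨s, hs, h1⟩ := h q' hq'
  obtain ⟨t, ht, h2⟩ := h1 s le_rfl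
  exact ⟨t, ht.trans hs, h2⟩

/-- The set where `f` and `f'` agree. -/
def eqE (F : Frame) (f f' : NB F) : Set F.Z := {z | f.1 z = f'.1 z}

/-- Failure of extensionality. -/
def V1 (F : Frame) (r : Set (RTr F)) (q : F.Q) (a : (NB F × NB F) × NF F) : Prop :=
  F.Forces q (eqE F a.1.1 a.1.2) ∧ Rel r q (a.1.1, a.2) ∧ ∀ s ≤ q, ¬ Rel r s (a.1.2, a.2)

/-- Failure of monotonicity. -/
def V2 (F : Frame) (r : Set (RTr F)) (q : F.Q) (a : NB F × (NF F × NF F)) : Prop :=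
  F.Forces q (leE F a.2.1 a.2.2) ∧ Rel r q (a.1, a.2.1) ∧ ∀ s ≤ q, ¬ Rel r s (a.1, a.2.2)

/-- A section which is not null. -/
def V3 (F : Frame) (r : Set (RTr F)) (q : F.Q) (h : NF F) : Prop :=
  ∀ r' ≤ q, ∀ c : NC F, ∃ s ≤ r', ∃ f, Rel r s (f, h) ∧ ¬ F.Forces s (nuE F f c)

/-- The union is contained in the null set coded by `c`. -/
def V4 (F : Frame) (r : Set (RTr F)) (q : F.Q) (c : NC F) : Prop :=
  ∀ r' ≤ q, ∀ a : Nm F, Rel r r' a → ¬ F.Forces r' (nuE F a.1 c)ᶜ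

/-- Names outside of a null set. -/
def V5 (F : Frame) (r : Set (RTr F)) (h : NF F) (c : NC F) (q : F.Q) (f : NB F) : Prop :=
  Rel r q (f, h) ∧ F.Forces q (nuE F f c)ᶜ

/-- The set of witnesses for `W`, and the set of conditions which decide whether there are
witnesses, for `W : Set (RTr F) → F.Q → B → Prop`. -/
noncomputable def parV (F : Frame) {B : Type} [Cod B] (W : Set (RTr F) → F.Q → B → Prop) : List V :=
  [cd {w : (Set (RTr F) × F.Q) × B | W w.1.1 w.1.2 w.2},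
    cd {w : F.Q × Set (RTr F) | (∃ b, W w.2 w.1 b) ∨ ∀ s ≤ w.1, ∀ b, ¬ W w.2 s b}]

/-- The parameters of this file. -/
noncomputable def parVio (F : Frame) : List V :=
  parRead F ++ parAbs F ++ parV F (V1 F) ++ parV F (V2 F) ++ parV F (V3 F) ++ parV F (V4 F) ++
    [cd (Set.univ : Set (RTr F)),
      cd {w : F.Q × (Set (RTr F) × Nm F) | Rel w.2.1 w.1 w.2.2 ∨ ∀ s ≤ w.1, (s, w.2.2) ∉ w.2.1},
      cd {w : F.Q × ((Set (RTr F) × NF F) × NC F) | ∃ f, V5 F w.2.1.1 w.2.1.2 w.2.2 w.1 f},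
      cd {w : (((Set (RTr F) × NF F) × NC F) × F.Q) × NB F |
        V5 F w.1.1.1.1 w.1.1.1.2 w.1.1.2 w.1.2 w.2}]

section

variable {F : Frame} {M N : Type 1} [Membership M M] [IsZFC M] [Membership N N] [IsZFC N]
  {g : Gn F M N}

/-- If there are no witnesses in the filter and in `M` then some condition in the filter has no
extension with witnesses. -/
theorem Gn.no_wit {B : Type} [Cod B] {W : Set (RTr F) → F.Q → B → Prop} (hp : g.Has (parV F W))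
    {r : Set (RTr F)} (hr : InM g.j r) (h : ∀ q b, g.GQ q → InM g.j b → ¬ W r q b) :
    ∃ q, g.GQ q ∧ ∀ s ≤ q, ∀ b, ¬ W r s b := by
  have h1 : InM g.j {w : (Set (RTr F) × F.Q) × B | W w.1.1 w.1.2 w.2} := hp _ (by simp [parV])
  have h2 : InM g.j {w : F.Q × Set (RTr F) | (∃ b, W w.2 w.1 b) ∨ ∀ s ≤ w.1, ∀ b, ¬ W w.2 s b} :=
    hp _ (by simp [parV])
  obtain ⟨q, -, hq, hq2⟩ := Gn.gen (g := g) (inM_sec g.sub h2 hr) g.top_GQ (by
    intro q _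
    by_cases h3 : ∃ s ≤ q, ∃ b, W r s b
    · obtain ⟨s, hs, hb⟩ := h3
      exact ⟨s, hs, Or.inl hb⟩
    · push Not at h3
      exact ⟨q, le_rfl, Or.inr h3⟩)
  rcases hq2 with h3 | h3
  · obtain ⟨b, hb, h4⟩ := inM_wit g.sub h1 (a := (r, q)) ((inM_pair g.sub).2
      ⟨hr, Gn.inM_of_GQ hq⟩) h3
    exact absurd h4 (h q b hq hb)
  · exact ⟨q, hq, h3⟩


/-- The relation `r` describes the set `A` of the extension. -/
structure Gn.Desc (g : Gn F M N) (A : N) (r : Set (RTr F)) : Prop where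
  inM : InM g.j r
  mono : ∀ q s a, g.GQ s → s ≤ q → InM g.j q → InM g.j a → (q, a) ∈ r → (s, a) ∈ r
  iff : ∀ a, InM g.j a → (SigB.op (g.yF a.2) (g.xB a.1) ∈ A ↔ ∃ q, g.GQ q ∧ (q, a) ∈ r)

theorem Gn.exists_desc (hp : g.Has (parVio F)) (A : N) : ∃ r, g.Desc A r := by
  obtain ⟨Fo, hF, hFP, hFm, hFd, hFt⟩ := g.ex.forcing2
    (R := fun x y => SigB.op (g.tm (EF F) x) (g.tm (EB F) y) ∈ A)
    (by simp (maxDischargeDepth := 50))
  have hF' : ∀ {n : ℕ} {s t r : (Fin n → M) → M}, DT s → DT t → DT r →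
      Dfn fun v => Fo (s v) (t v) (r v) := fun hs ht hr => dfn3 hF hs ht hr
  have hU : InM g.j (Set.univ : Set (RTr F)) := hp _ (by simp [parVio])
  obtain ⟨r, hr, -, hrs⟩ := exists_inM_of_dfn g.sub hU
    (Q := fun m => ∃ q f h, m = SigB.op q (SigB.op f h) ∧ Fo q (ck g.one h) (ck g.one f))
    (by simp (maxDischargeDepth := 50) [hF'])
  have key : ∀ q f h, InM g.j q → InM g.j f → InM g.j h → ∀ mq mf mh, g.j mq = cd q →
      g.j mf = cd f → g.j mh = cd h →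
      (((q, (f, h)) : RTr F) ∈ r ↔ Fo mq (ck g.one mh) (ck g.one mf)) := by
    intro q f h hq hf hh mq mf mh h1 h2 h3
    rw [hrs (q, (f, h)) (SigB.op mq (SigB.op mf mh)) (by
      rw [g.sub.op, g.sub.op, h1, h2, h3, cd_pair, cd_pair])]
    constructor
    · rintro ⟨-, q', f', h', he, h4⟩
      have e1 := SigB.op_inj.1 he
      have e2 := SigB.op_inj.1 e1.2
      rw [e1.1, e2.1, e2.2]
      exact h4
    · exact fun h4 => ⟨Set.mem_univ _, _, _, _, rfl, h4⟩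
  refine ⟨r, hr, ?_, ?_⟩
  · rintro q s ⟨f, h⟩ hs hsq hq ha h1
    obtain ⟨hf, hh⟩ := (inM_pair g.sub).1 ha
    obtain ⟨mq, hmq⟩ := id hq
    obtain ⟨ms, hms, hG⟩ := id hs
    obtain ⟨mf, hmf⟩ := id hf
    obtain ⟨mh, hmh⟩ := id hh
    rw [key q f h hq hf hh mq mf mh hmq hmf hmh] at h1
    rw [key s f h ⟨ms, hms⟩ hf hh ms mf mh hms hmf hmh]
    refine hFm _ _ _ _ h1 ?_
    rw [← g.sub.mem, g.sub.op, hms, hmq, g.jle, ← cd_pair, cd_mem_cd]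
    exact hsq
  · rintro ⟨f, h⟩ ha
    obtain ⟨hf, hh⟩ := (inM_pair g.sub).1 ha
    have h1 := hFt (ck g.one (g.pre (cd h))) (ck g.one (g.pre (cd f)))
    have h2 : SigB.op (g.yF h) (g.xB f) ∈ A ↔ ∃ p, g.G p ∧ Fo p (ck g.one (g.pre (cd h)))
      (ck g.one (g.pre (cd f))) := h1
    show SigB.op (g.yF h) (g.xB f) ∈ A ↔ _
    rw [h2]
    constructor
    · rintro ⟨p, hp, h3⟩
      obtain ⟨q, hq, hq2⟩ := Gn.exists_of_G hp
      exact ⟨q, hq2, (key q f h ⟨p, hq⟩ hf hh p _ _ hq (Gn.pre_spec hf) (Gn.pre_spec hh)).2 h3⟩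
    · rintro ⟨q, ⟨p, hq, hG⟩, h3⟩
      exact ⟨p, hG, (key q f h ⟨p, hq⟩ hf hh p _ _ hq (Gn.pre_spec hf) (Gn.pre_spec hh)).1 h3⟩

theorem Gn.Desc.iff_rel {A : N} {r : Set (RTr F)} (hd : g.Desc A r) (hp : g.Has (parVio F))
    {a : Nm F} (ha : InM g.j a) :
    SigB.op (g.yF a.2) (g.xB a.1) ∈ A ↔ ∃ q, g.GQ q ∧ Rel r q a := by
  rw [hd.iff a ha]
  constructor
  · rintro ⟨q, hq, hqa⟩
    have h1 : InM g.j {w : F.Q × (Set (RTr F) × Nm F) | Rel w.2.1 w.1 w.2.2 ∨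
        ∀ s ≤ w.1, (s, w.2.2) ∉ w.2.1} := hp _ (by simp [parVio])
    obtain ⟨s, -, hs, hs2⟩ := Gn.gen (g := g) (inM_sec g.sub h1 (b := (r, a))
      ((inM_pair g.sub).2 ⟨hd.inM, ha⟩)) g.top_GQ (by
        intro q _
        by_cases h3 : ∃ s ≤ q, ∀ t ≤ s, (t, a) ∉ r
        · obtain ⟨s, hs, hb⟩ := h3
          exact ⟨s, hs, Or.inr hb⟩
        · push Not at h3
          exact ⟨q, le_rfl, Or.inl h3⟩)
    rcases hs2 with h3 | h3
    · exact ⟨s, hs, h3⟩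
    · obtain ⟨t, ht, htq, hts⟩ := Gn.GQ_dir hq hs
      exact absurd (hd.mono q t a ht htq (Gn.inM_of_GQ hq) ha hqa) (h3 t hts)
  · rintro ⟨q, hq, hqa⟩
    obtain ⟨s, -, hs, hs2⟩ := Gn.gen (g := g) (inM_sec g.sub hd.inM ha) hq hqa
    exact ⟨s, hs, hs2⟩


/-- Equality of the values. -/
theorem Gn.Desc.noV1 {A : N} {r : Set (RTr F)} (hd : g.Desc A r) (hp : g.Has (parVio F)) :
    ∃ q, g.GQ q ∧ ∀ s ≤ q, ∀ b, ¬ V1 F r s b := by
  have hV : g.Has (parV F (V1 F)) := fun a ha => hp a (by simp [parVio, ha])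
  have hA : g.Has (parAbs F) := fun a ha => hp a (by simp [parVio, ha])
  refine Gn.no_wit hV hd.inM ?_
  rintro q ⟨⟨f, f'⟩, h⟩ hq hb ⟨h1, h2, h3⟩
  obtain ⟨hff, hh⟩ := (inM_pair g.sub).1 hb
  obtain ⟨hf, hf'⟩ := (inM_pair g.sub).1 hff
  have h4 : g.xB f = g.xB f' := Gn.xB_congr hA hf hf' ⟨q, hq, h1⟩
  have h5 := (hd.iff_rel hp (a := (f, h)) ((inM_pair g.sub).2 ⟨hf, hh⟩)).2 ⟨q, hq, h2⟩
  have h6 : SigB.op (g.yF h) (g.xB f') ∈ A := by rw [← h4]; exact h5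
  obtain ⟨q', hq', h7⟩ := (hd.iff_rel hp (a := (f', h)) ((inM_pair g.sub).2 ⟨hf', hh⟩)).1 h6
  obtain ⟨t, ht, htq, htq'⟩ := Gn.GQ_dir hq hq'
  exact h3 t htq (h7.mono htq')

/-- Monotonicity. -/
theorem Gn.Desc.noV2 {A : N} {r : Set (RTr F)} (hd : g.Desc A r) (hp : g.Has (parVio F))
    (hm : ∀ x x' y : N, x ∈ fs (om : N) om → x' ∈ fs (om : N) om → LePt x x' →
      SigB.op x y ∈ A → SigB.op x' y ∈ A) :
    ∃ q, g.GQ q ∧ ∀ s ≤ q, ∀ b, ¬ V2 F r s b := by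
  have hV : g.Has (parV F (V2 F)) := fun a ha => hp a (by simp [parVio, ha])
  have hA : g.Has (parAbs F) := fun a ha => hp a (by simp [parVio, ha])
  have hN : g.Has (parName F) := fun a ha => hA a (by simp [parAbs, ha])
  refine Gn.no_wit hV hd.inM ?_
  rintro q ⟨f, h, h'⟩ hq hb ⟨h1, h2, h3⟩
  obtain ⟨hf, hhh⟩ := (inM_pair g.sub).1 hb
  obtain ⟨hh, hh'⟩ := (inM_pair g.sub).1 hhh
  have h4 := (Gn.tr_le hA hh hh').1 ⟨q, hq, h1⟩
  have hy := Gn.yF_mem hN hh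
  have hy' := Gn.yF_mem hN hh'
  have h5 : LePt (g.yF h) (g.yF h') := (lePt_iff g.om_N hy hy').2 h4
  have h6 := (hd.iff_rel hp (a := (f, h)) ((inM_pair g.sub).2 ⟨hf, hh⟩)).2 ⟨q, hq, h2⟩
  obtain ⟨q', hq', h7⟩ := (hd.iff_rel hp (a := (f, h')) ((inM_pair g.sub).2 ⟨hf, hh'⟩)).1
    (hm _ _ _ hy hy' h5 h6)
  obtain ⟨t, ht, htq, htq'⟩ := Gn.GQ_dir hq hq'
  exact h3 t htq (h7.mono htq')

/-- Sections are null. -/
theorem Gn.Desc.noV3 {A : N} {r : Set (RTr F)} (hd : g.Desc A r) (hp : g.Has (parVio F))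
    (hn : ∀ x : N, x ∈ fs (om : N) om → IsNull fun y => SigB.op x y ∈ A) :
    ∃ q, g.GQ q ∧ ∀ s ≤ q, ∀ b, ¬ V3 F r s b := by
  have hV : g.Has (parV F (V3 F)) := fun a ha => hp a (by simp [parVio, ha])
  have hA : g.Has (parAbs F) := fun a ha => hp a (by simp [parVio, ha])
  have hR : g.Has (parRead F) := fun a ha => hp a (by simp [parVio, ha])
  have hN : g.Has (parName F) := fun a ha => hA a (by simp [parAbs, ha])
  refine Gn.no_wit hV hd.inM ?_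
  intro q h hq hh h1
  obtain ⟨u, -, hu, hus⟩ := exists_ncode g.om_N (S := fun y => SigB.op (g.yF h) y ∈ A)
    (by simp (maxDischargeDepth := 50)) (hn _ (Gn.yF_mem hN hh))
  obtain ⟨c, hc, hcu⟩ := Gn.read_NC hR hu
  have h2 : InM g.j {w : F.Q × ((Set (RTr F) × NF F) × NC F) |
    ∃ f, V5 F w.2.1.1 w.2.1.2 w.2.2 w.1 f} := hp _ (by simp [parVio])
  have h3 : InM g.j {w : (((Set (RTr F) × NF F) × NC F) × F.Q) × NB F |
        V5 F w.1.1.1.1 w.1.1.1.2 w.1.1.2 w.1.2 w.2} := hp _ (by simp [parVio])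
  have hb : InM g.j ((r, h), c) := (inM_pair g.sub).2 ⟨(inM_pair g.sub).2 ⟨hd.inM, hh⟩, hc⟩
  obtain ⟨s, -, hs, hs2⟩ := Gn.gen (g := g) (inM_sec g.sub h2 hb) hq (by
    intro r' hr'
    obtain ⟨s, hs, f, hf, hf2⟩ := h1 r' hr' c
    have h4 : ∃ t ≤ s, ∀ t' ≤ t, ¬ F.Forces t' (nuE F f c) := by
      by_contra hno
      push Not at hno
      exact hf2 (F.dense hno)
    obtain ⟨t, ht, ht2⟩ := h4
    obtain ⟨t', ht', h5⟩ := F.dec (measurableSet_nuE F f c) t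
    rcases h5 with h5 | h5
    · exact absurd h5 (ht2 t' ht')
    · exact ⟨t', (ht'.trans ht).trans hs, f, hf.mono (ht'.trans ht), h5⟩)
  obtain ⟨f, hf, h6⟩ := inM_wit g.sub h3 (a := (((r, h), c), s)) ((inM_pair g.sub).2
    ⟨hb, Gn.inM_of_GQ hs⟩) hs2
  have h7 := (hd.iff_rel hp (a := (f, h)) ((inM_pair g.sub).2 ⟨hf, hh⟩)).2 ⟨s, hs, h6.1⟩
  have h8 := (Gn.tr_not_null hA hf hc).1 ⟨s, hs, h6.2⟩
  have h9 : exC (g.uC c) = exC u := funext fun n => funext fun s => hcu n s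
  rw [h9] at h8
  exact h8 (hus _ (Gn.xB_mem hN hf) h7)

/-- The union is not null. -/
theorem Gn.Desc.noV4 {A : N} {r : Set (RTr F)} (hd : g.Desc A r) (hp : g.Has (parVio F))
    (hA2 : ∀ x y : N, SigB.op x y ∈ A → x ∈ fs (om : N) om ∧ y ∈ fs (om : N) (nt N 2))
    (hn : ¬ IsNull fun y => ∃ x : N, SigB.op x y ∈ A) :
    ∃ q, g.GQ q ∧ ∀ s ≤ q, ∀ b, ¬ V4 F r s b := by
  have hV : g.Has (parV F (V4 F)) := fun a ha => hp a (by simp [parVio, ha])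
  have hA : g.Has (parAbs F) := fun a ha => hp a (by simp [parVio, ha])
  have hR : g.Has (parRead F) := fun a ha => hp a (by simp [parVio, ha])
  have hN : g.Has (parName F) := fun a ha => hA a (by simp [parAbs, ha])
  refine Gn.no_wit hV hd.inM ?_
  intro q c hq hc h1
  refine hn (isNull_of_code g.om_N (g.uC c) (Gn.isNullCode_uC hN hc) ?_)
  rintro y ⟨x, hxy⟩
  obtain ⟨hx, hy⟩ := hA2 x y hxy
  refine ⟨hy, ?_⟩
  obtain ⟨f, hf, rfl⟩ := Gn.read_NB hR hy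
  obtain ⟨h, hh, rfl⟩ := Gn.read_NF hR hx
  by_contra h2
  obtain ⟨q1, hq1, h3⟩ := (hd.iff_rel hp (a := (f, h)) ((inM_pair g.sub).2 ⟨hf, hh⟩)).1 hxy
  obtain ⟨q2, hq2, h4⟩ := (Gn.tr_not_null hA hf hc).2 h2
  obtain ⟨t, ht, ht1, ht2⟩ := Gn.GQ_dir hq1 hq2
  obtain ⟨t', -, ht3, ht4⟩ := Gn.GQ_dir hq ht
  exact h1 t' ht3 (f, h) (h3.mono (ht4.trans ht1)) (F.mono (ht4.trans ht2) h4)

/-- Goldstern's principle for all sets holds in the extension. -/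
theorem Gn.gpCantor (hp : g.Has (parVio F)) : GPCantor N := by
  intro o b c A ho hb hc hA1 hA2 hA3
  rw [isOmega_iff] at ho
  subst ho
  rw [isCantor_iff] at hc
  subst hc
  have hb' : b = fs (om : N) om := ext' fun z => (hb z).trans isMap_iff
  subst hb'
  by_contra hn
  obtain ⟨r, hd⟩ := Gn.exists_desc hp A
  have hAmem : ∀ x y : N, SigB.op x y ∈ A → x ∈ fs (om : N) om ∧ y ∈ fs (om : N) (nt N 2) := by
    intro x y hxy
    obtain ⟨x', y', hx, hy, he⟩ := hA1 _ hxy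
    rw [isOrdPair_iff] at he
    obtain ⟨rfl, rfl⟩ := SigB.op_inj.1 he
    exact ⟨hx, hy⟩
  obtain ⟨q1, hq1, hv1⟩ := hd.noV1 hp
  obtain ⟨q2, hq2, hv2⟩ := hd.noV2 hp (fun x x' y hx hx' hl hxy => by
    have := hA3 x x' y hx hx' hl (val_iff.2 hxy)
    exact val_iff.1 this)
  obtain ⟨q3, hq3, hv3⟩ := hd.noV3 hp (fun x hx => by
    have := hA2 x hx
    simpa only [val_iff] using this)
  obtain ⟨q4, hq4, hv4⟩ := hd.noV4 hp hAmem (by
    simpa only [val_iff] using hn)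
  obtain ⟨s1, hs1, hs11, hs12⟩ := Gn.GQ_dir hq1 hq2
  obtain ⟨s2, hs2, hs21, hs22⟩ := Gn.GQ_dir hq3 hq4
  obtain ⟨p₀, hp0, h01, h02⟩ := Gn.GQ_dir hs1 hs2
  refine F.core (fun q f h => ∃ (hf : Measurable f) (hh : Measurable h), Rel r q (⟨f, hf⟩, ⟨h, hh⟩))
    p₀ ?_ ?_ ?_ ?_ ?_ ?_
  · rintro q s f h hs ⟨hf, hh, h1⟩
    exact ⟨hf, hh, h1.mono hs⟩
  · intro q f h hq h1
    obtain ⟨s, -, hf, hh, -⟩ := h1 q le_rfl
    exact ⟨hf, hh, Rel.of_dense fun q' hq' => by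
      obtain ⟨s, hs, _, _, h2⟩ := h1 q' hq'
      exact ⟨s, hs, h2⟩⟩
  · rintro q f f' h hq hf hf' hh h1 ⟨_, _, h2⟩
    refine ⟨hf', hh, Rel.of_dense fun q' hq' => ?_⟩
    by_contra hno
    push Not at hno
    exact hv1 q' ((hq'.trans hq).trans (h01.trans hs11)) ((⟨f, hf⟩, ⟨f', hf'⟩), ⟨h, hh⟩)
      ⟨F.mono hq' h1, h2.mono hq', hno⟩
  · rintro q f h h' hq hf hh hh' h1 ⟨_, _, h2⟩
    refine ⟨hf, hh', Rel.of_dense fun q' hq' => ?_⟩
    by_contra hno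
    push Not at hno
    exact hv2 q' ((hq'.trans hq).trans (h01.trans hs12)) (⟨f, hf⟩, (⟨h, hh⟩, ⟨h', hh'⟩))
      ⟨F.mono hq' h1, h2.mono hq', hno⟩
  · intro q h hq hh
    have h1 := hv3 q (hq.trans (h02.trans hs21)) ⟨h, hh⟩
    unfold V3 at h1
    push Not at h1
    obtain ⟨s, hs, c, h2⟩ := h1
    refine ⟨s, hs, c.1, c.2.1, c.2.2, fun t ht f hf => ?_⟩
    rintro ⟨hf', _, h3⟩
    exact h2 t ht ⟨f, hf⟩ h3
  · intro q hq c hc hc'
    have h1 := hv4 q (hq.trans (h02.trans hs22)) ⟨c, hc, hc'⟩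
    unfold V4 at h1
    push Not at h1
    obtain ⟨s, hs, a, h2, h3⟩ := h1
    exact ⟨s, hs, a.1.1, a.2.1, a.1.2, a.2.2, ⟨a.1.2, a.2.2, h2⟩, h3⟩

end

end Pool.Agent.GPA
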