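import Pool.Agent.GPA.MAbs

/-!
# Block M, part 9: the clause failures for a forcing relation
-/

set_option linter.unusedSectionVars false

namespace Pool.Agent.GPA

open Pool.Agent.SigB Pool.Agent.Frc Pool.Agent.Forc

/-- Candidates for the forcing relation `q ⊩ (f, h) ∈ A`. -/
abbrev RT (F : Frame) : Type := Set (F.Q × (NB F × NF F))

variable (F : Frame) (R : RT F)

/-- Downward closed. -/
def DownC : Prop := ∀ q r a, r ≤ q → (q, a) ∈ R → (r, a) ∈ R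

/-- Local. -/
def LocC : Prop := ∀ q a, (∀ r ≤ q, ∃ s ≤ r, (s, a) ∈ R) → (q, a) ∈ R

/-- Failure of extensionality at `q`. -/
def Vio3 (q : F.Q) : Prop :=
  ∃ f f' h, F.Forces q {z | f.1 z = f'.1 z} ∧ (q, (f, h)) ∈ R ∧ ∀ s ≤ q, (s, (f', h)) ∉ R

/-- Failure of monotonicity at `q`. -/
def Vio4 (q : F.Q) : Prop :=
  ∃ f h h', F.Forces q (leE F h h') ∧ (q, (f, h)) ∈ R ∧ ∀ s ≤ q, (s, (f, h')) ∉ R

/-- Some section is not null. -/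
def Vio5 (q : F.Q) : Prop :=
  ∃ h : NF F, ∀ c : NC F, ∀ r ≤ q, ∃ s ≤ r, ∃ f, (s, (f, h)) ∈ R ∧ F.Forces s (nuE F f c)ᶜ

/-- The union is null. -/
def Vio6 (q : F.Q) : Prop :=
  ∃ c : NC F, ∀ r ≤ q, ∀ f h, (r, (f, h)) ∈ R → ¬ F.Forces r (nuE F f c)ᶜ

/-- Some clause fails at `q`. -/
def Vio (q : F.Q) : Prop := Vio3 F R q ∨ Vio4 F R q ∨ Vio5 F R q ∨ Vio6 F R q

variable {F R}

/-- The clause failures are dense. -/
theorem Frame.core_vio (hd : DownC F R) (hl : LocC F R) (p₀ : F.Q) : ∃ q ≤ p₀, Vio F R q := by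
  by_contra hno
  push Not at hno
  refine F.core (fun q f h => q ≤ p₀ ∧ ∃ (hf : Measurable f) (hh : Measurable h),
    (q, ((⟨f, hf⟩ : NB F), (⟨h, hh⟩ : NF F))) ∈ R) p₀ ?_ ?_ ?_ ?_ ?_ ?_
  · rintro q r f h hrq ⟨hq, hf, hh, hR⟩
    exact ⟨hrq.trans hq, hf, hh, hd _ _ _ hrq hR⟩
  · intro q f h hq hD
    obtain ⟨s, -, -, hf, hh, -⟩ := hD q le_rfl
    refine ⟨hq, hf, hh, hl _ _ fun r hr => ?_⟩
    obtain ⟨s, hs, -, _, _, hR⟩ := hD r hr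
    exact ⟨s, hs, hR⟩
  · rintro q f f' h hq hf hf' hh hff ⟨-, _, _, hR⟩
    refine ⟨hq, hf', hh, hl _ _ fun r hr => ?_⟩
    by_contra hc
    push Not at hc
    exact hno r (hr.trans hq) (Or.inl ⟨⟨f, hf⟩, ⟨f', hf'⟩, ⟨h, hh⟩, F.mono hr hff,
      hd _ _ _ hr hR, hc⟩)
  · rintro q f h h' hq hf hh hh' hle ⟨-, _, _, hR⟩
    refine ⟨hq, hf, hh', hl _ _ fun r hr => ?_⟩
    by_contra hc
    push Not at hc
    exact hno r (hr.trans hq) (Or.inr (Or.inl ⟨⟨f, hf⟩, ⟨h, hh⟩, ⟨h', hh'⟩, F.mono hr hle,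
      hd _ _ _ hr hR, hc⟩))
  · intro q h hq hh
    have h5 : ¬ Vio5 F R q := fun h5 => hno q hq (Or.inr (Or.inr (Or.inl h5)))
    unfold Vio5 at h5
    push Not at h5
    obtain ⟨c, r, hr, hcr⟩ := h5 ⟨h, hh⟩
    refine ⟨r, hr, c.1, c.2.1, c.2.2, ?_⟩
    rintro s hs f hf ⟨-, _, _, hR⟩
    refine F.dense fun s' hs' => ?_
    obtain ⟨s'', hs'', h1 | h1⟩ := F.dec (measurableSet_nuE F ⟨f, hf⟩ c) s'
    · exact ⟨s'', hs'', h1⟩
    · exact absurd h1 (hcr s'' (hs''.trans (hs'.trans hs)) ⟨f, hf⟩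
        (hd _ _ _ (hs''.trans hs') hR))
  · intro q hq c hc hcn
    have h6 : ¬ Vio6 F R q := fun h6 => hno q hq (Or.inr (Or.inr (Or.inr h6)))
    unfold Vio6 at h6
    push Not at h6
    obtain ⟨r, hr, f, h, hR, hF⟩ := h6 ⟨c, hc, hcn⟩
    exact ⟨r, hr, f.1, h.1, f.2, h.2, ⟨hr.trans hq, f.2, h.2, hR⟩, hF⟩

end Pool.Agent.GPA
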