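import Pool.Agent.GPA.MGPA

/-!
# Block M, part 10: the forcing relation of a definable relation between reals
-/

set_option linter.unusedSectionVars false

namespace Pool.Agent.GPA

open Pool.Agent.SigB Pool.Agent.Frc Pool.Agent.Forc

section

variable {F : Frame} {M N : Type 1} [Membership M M] [IsZFC M] [Membership N N] [IsZFC N]
  {g : Gn F M N}

theorem Gn.exists_of_mem_P {m : M} (h : m ∈ g.P) : ∃ q : F.Q, g.j m = cd q := by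
  rw [← g.sub.mem, g.jP, mem_cd_set] at h
  obtain ⟨q, -, hq⟩ := h
  exact ⟨q, hq⟩

theorem Gn.mem_P {q : F.Q} {m : M} (hm : g.j m = cd q) : m ∈ g.P := by
  rw [← g.sub.mem, g.jP, hm, cd_mem_cd]
  trivial

theorem Gn.pre_eq {α : Type} [Cod α] {a : α} {m : M} (h : g.j m = cd a) : g.pre (cd a) = m :=
  g.sub.inj ((Gn.pre_spec ⟨m, h⟩).trans h.symm)

theorem Gn.el_eq {α : Type} [Cod α] {a : α} {m : M} (h : g.j m = cd a) : g.el a = g.cp m := by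
  rw [Gn.el, g.pre_eq h]

variable (F) in
/-- The parameters of this file (the writer adds what is needed). -/
noncomputable def parRel : List V :=
  [cd (Set.univ : Set (F.Q × (NB F × NF F))),
    cd {w : RT F × ((F.Q × F.Q) × (NB F × NF F)) | w.2.1.2 ≤ w.2.1.1 ∧
      (w.2.1.1, w.2.2) ∈ w.1 ∧ (w.2.1.2, w.2.2) ∉ w.1},
    cd {w : RT F × (F.Q × (NB F × NF F)) | (∀ r ≤ w.2.1, ∃ s ≤ r, (s, w.2.2) ∈ w.1) ∧
      w.2 ∉ w.1},
    cd {w : (RT F × (F.Q × (NB F × NF F))) × F.Q | w.2 ≤ w.1.2.1 ∧ (w.2, w.1.2.2) ∈ w.1.1}]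

/-- The forcing relation. (`Ext.forcing2` for the relation `S (tm EB x) (tm EF y)`; the set `R` is
given by `exists_inM_of_dfn`; a failure of `DownC` or `LocC` would have a witness in `M`.) -/
theorem Gn.exists_rel (hp : g.Has (parRel F)) {S : N → N → Prop}
    (hS : Dfn fun w : Fin 2 → N => S (w 0) (w 1)) :
    ∃ R : RT F, InM g.j R ∧ DownC F R ∧ LocC F R ∧ ∀ f h, InM g.j f → InM g.j h →
      (S (g.xB f) (g.yF h) ↔ ∃ q, g.GQ q ∧ (q, (f, h)) ∈ R) := by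
  have h0 : InM g.j (Set.univ : Set (F.Q × (NB F × NF F))) := hp _ (by simp [parRel])
  have h1 : InM g.j {w : RT F × ((F.Q × F.Q) × (NB F × NF F)) | w.2.1.2 ≤ w.2.1.1 ∧
      (w.2.1.1, w.2.2) ∈ w.1 ∧ (w.2.1.2, w.2.2) ∉ w.1} := hp _ (by simp [parRel])
  have h2 : InM g.j {w : RT F × (F.Q × (NB F × NF F)) | (∀ r ≤ w.2.1, ∃ s ≤ r, (s, w.2.2) ∈ w.1) ∧
      w.2 ∉ w.1} := hp _ (by simp [parRel])
  have h3 : InM g.j {w : (RT F × (F.Q × (NB F × NF F))) × F.Q | w.2 ≤ w.1.2.1 ∧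
      (w.2, w.1.2.2) ∈ w.1.1} := hp _ (by simp [parRel])
  obtain ⟨Φ, hΦ, -, hmono, hdense, htr⟩ := g.ex.forcing2
    (R := fun x y => S (g.tm (EB F) x) (g.tm (EF F) y)) (dfn2 hS (by simp) (by simp))
  have hΦ' : ∀ {n : ℕ} {s t r : (Fin n → M) → M}, DT s → DT t → DT r →
      Dfn fun v => Φ (s v) (t v) (r v) := fun hs ht hr => dfn3 hΦ hs ht hr
  obtain ⟨R, hR, -, hRm⟩ := exists_inM_of_dfn g.sub h0
    (Q := fun m => ∃ p a b, m = SigB.op p (SigB.op a b) ∧ Φ p (ck g.one a) (ck g.one b))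
    (by simp (maxDischargeDepth := 50) [hΦ'])
  have key : ∀ {m a b : M} {q : F.Q} {f : NB F} {h : NF F}, g.j m = cd q → g.j a = cd f →
      g.j b = cd h → ((q, (f, h)) ∈ R ↔ Φ m (ck g.one a) (ck g.one b)) := by
    intro m a b q f h hm ha hb
    have hj : g.j (SigB.op m (SigB.op a b)) = cd (q, (f, h)) := by
      rw [g.sub.op, g.sub.op, hm, ha, hb]; rfl
    rw [hRm _ _ hj]
    constructor
    · rintro ⟨-, p, a', b', he, hF⟩
      obtain ⟨e1, e2⟩ := SigB.op_inj.1 he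
      obtain ⟨e3, e4⟩ := SigB.op_inj.1 e2
      rwa [e1, e3, e4]
    · exact fun hF => ⟨trivial, m, a, b, rfl, hF⟩
  have hD : DownC F R := by
    by_contra hno
    unfold DownC at hno
    push Not at hno
    obtain ⟨q, r, a, hrq, hq, hr⟩ := hno
    obtain ⟨⟨⟨q', r'⟩, ⟨f, h⟩⟩, hw, hw1, hw2, hw3⟩ := inM_wit g.sub h1 hR
      ⟨((q, r), a), hrq, hq, hr⟩
    obtain ⟨hw4, hw5⟩ := (inM_pair g.sub).1 hw
    obtain ⟨⟨m, hm⟩, ⟨n, hn⟩⟩ := (inM_pair g.sub).1 hw4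
    obtain ⟨⟨a', ha'⟩, ⟨b', hb'⟩⟩ := (inM_pair g.sub).1 hw5
    exact hw3 ((key hn ha' hb').2 (hmono _ _ _ _ ((key hm ha' hb').1 hw2)
      ((g.op_mem_le hn hm).2 hw1)))
  refine ⟨R, hR, hD, ?_, ?_⟩
  · by_contra hno
    unfold LocC at hno
    push Not at hno
    obtain ⟨q, a, hq, ha⟩ := hno
    obtain ⟨⟨q', ⟨f, h⟩⟩, hw, hw1, hw2⟩ := inM_wit g.sub h2 hR ⟨(q, a), hq, ha⟩
    obtain ⟨⟨m, hm⟩, hw5⟩ := (inM_pair g.sub).1 hw
    obtain ⟨⟨a', ha'⟩, ⟨b', hb'⟩⟩ := (inM_pair g.sub).1 hw5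
    refine hw2 ((key hm ha' hb').2 (hdense _ _ _ (g.mem_P hm) fun n hn => ?_))
    obtain ⟨r, hr⟩ := g.exists_of_mem_P (g.ex.po.sub _ _ hn).1
    obtain ⟨s, hs, hs1, hs2⟩ := inM_wit g.sub h3 (a := (R, (r, (f, h))))
      ((inM_pair g.sub).2 ⟨hR, (inM_pair g.sub).2 ⟨⟨n, hr⟩, hw5⟩⟩)
      (hw1 r ((g.op_mem_le hr hm).1 hn))
    obtain ⟨m', hm'⟩ := hs
    exact ⟨m', (g.op_mem_le hm' hr).2 hs1, (key hm' ha' hb').1 hs2⟩
  · rintro f h ⟨a, ha⟩ ⟨b, hb⟩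
    have h4 : S (g.xB f) (g.yF h) ↔ ∃ p, g.G p ∧ Φ p (ck g.one a) (ck g.one b) := by
      rw [← htr]
      change S (g.tm (EB F) (g.el f)) (g.tm (EF F) (g.el h)) ↔ _
      rw [g.el_eq ha, g.el_eq hb]
      rfl
    rw [h4]
    constructor
    · rintro ⟨p, hp1, hp2⟩
      obtain ⟨q, hq, hq'⟩ := Gn.exists_of_G hp1
      exact ⟨q, hq', (key hq ha hb).2 hp2⟩
    · rintro ⟨q, ⟨p, hp1, hp2⟩, hq⟩
      exact ⟨p, hp2, (key hp1 ha hb).1 hq⟩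

end

end Pool.Agent.GPA
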