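import Pool.Agent.GPA.MCod
import Pool.Agent.Frc.Zfc
import Pool.Agent.Frc.CH

/-!
# Block M, part 5: the generic extension of a countable elementary submodel by a frame

`g : Gn F M N` consists of a countable elementary submodel `M` of the universe which contains the
poset of `F`, a generic filter and the generic extension `N`. `g.Tr E` means that some condition of
the filter forces that the generic point of `Z` belongs to `E`.
-/

set_option linter.unusedSectionVars false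

namespace Pool.Agent.GPA

open Pool.Agent.SigB Pool.Agent.Frc Pool.Agent.Forc

instance (F : Frame) : PartialOrder F.Q := F.pQ
instance (F : Frame) : OrderTop F.Q := F.tQ
instance (F : Frame) : MeasurableSpace F.Z := F.mZ
noncomputable instance (F : Frame) : Cod F.Q := Cod.any _

/-- The order of `F` as a set of pairs. -/
def leS (F : Frame) : Set (F.Q × F.Q) := {w | w.1 ≤ w.2}

/-- A countable elementary submodel `M` (with inclusion `j`), a generic filter `G` and the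
extension `N`. -/
structure Gn (F : Frame) (M N : Type 1) [Membership M M] [IsZFC M] [Membership N N] [IsZFC N] where
  j : M → V
  P : M
  le : M
  one : M
  G : M → Prop
  val : M → N
  sub : ElSub M j
  jP : j P = cd (Set.univ : Set F.Q)
  jle : j le = cd (leS F)
  jone : j one = cd (⊤ : F.Q)
  ex : Ext P le one G val

/-- The extension exists, with a given countable set of parameters in `M`. -/
theorem exists_gn (F : Frame) {A : Set V} (hA : A.Countable) :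
    ∃ (M N : Type 1) (_ : Membership M M) (_ : IsZFC M) (_ : Membership N N) (_ : IsZFC N)
      (g : Gn F M N), ∀ a ∈ A, ∃ m, g.j m = a := by
  obtain ⟨M, mM, j, hj, hA'⟩ := exists_sub
    (A := A ∪ {cd (Set.univ : Set F.Q), cd (leS F), cd (⊤ : F.Q)})
    (hA.union (Set.toFinite _).countable)
  have : IsZFC M := hj.zfc
  have : Countable M := hj.cnt
  obtain ⟨P, hP⟩ := hA' (cd (Set.univ : Set F.Q)) (Or.inr (by simp))
  obtain ⟨le, hle⟩ := hA' (cd (leS F)) (Or.inr (by simp))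
  obtain ⟨one, hone⟩ := hA' (cd (⊤ : F.Q)) (Or.inr (by simp))
  have hPm : ∀ {p : M}, p ∈ P ↔ ∃ q : F.Q, j p = cd q := by
    intro p
    rw [← hj.mem, hP, mem_cd_set]
    simp
  have hlem : ∀ {p q : M}, SigB.op p q ∈ le ↔ ∃ a b : F.Q, a ≤ b ∧ j p = cd a ∧ j q = cd b := by
    intro p q
    rw [← hj.mem, hj.op, hle, mem_cd_set]
    constructor
    · rintro ⟨w, hw, h⟩
      obtain ⟨h1, h2⟩ := SigB.op_inj.1 h
      exact ⟨w.1, w.2, hw, h1, h2⟩
    · rintro ⟨a, b, hab, h1, h2⟩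
      exact ⟨(a, b), hab, by rw [h1, h2]; rfl⟩
  have hPO : PO P le one := by
    refine ⟨?_, ?_, ?_, ?_, ?_⟩
    · intro p q h
      obtain ⟨a, b, -, h1, h2⟩ := hlem.1 h
      exact ⟨hPm.2 ⟨a, h1⟩, hPm.2 ⟨b, h2⟩⟩
    · intro p h
      obtain ⟨a, h1⟩ := hPm.1 h
      exact hlem.2 ⟨a, a, le_rfl, h1, h1⟩
    · intro p q r h h'
      obtain ⟨a, b, hab, h1, h2⟩ := hlem.1 h
      obtain ⟨b', c, hbc, h3, h4⟩ := hlem.1 h'
      have h5 : b = b' := Cod.inj (h2.symm.trans h3)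
      subst h5
      exact hlem.2 ⟨a, c, hab.trans hbc, h1, h4⟩
    · exact hPm.2 ⟨⊤, hone⟩
    · intro p h
      obtain ⟨a, h1⟩ := hPm.1 h
      exact hlem.2 ⟨a, ⊤, le_top, h1, hone⟩
  obtain ⟨G, hG, -⟩ := exists_gen hPO hPO.one_mem
  obtain ⟨N, mN, val, hE⟩ := exists_ext hPO hG
  have : IsZFC N := hE.isZFC
  exact ⟨M, N, mM, inferInstance, mN, hE.isZFC,
    ⟨j, P, le, one, G, val, hj, hP, hle, hone, hE⟩, fun a ha => hA' a (Or.inl ha)⟩

section

variable {F : Frame} {M N : Type 1} [Membership M M] [IsZFC M] [Membership N N] [IsZFC N]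
  (g : Gn F M N)

/-- The elements of the list belong to `M`. -/
def Gn.Has (l : List V) : Prop := ∀ a ∈ l, ∃ m, g.j m = a

/-- The copy of an element of `M`. -/
noncomputable def Gn.cp (m : M) : N := g.val (ck g.one m)

theorem Gn.finHom : FinHom g.cp := ⟨g.ex.cv_em, g.ex.cv_pr, g.ex.cv_un⟩

include g in
theorem Gn.om_N : Om N := by
  intro x hx
  rw [← g.ex.cv_om] at hx
  obtain ⟨y, hy, rfl⟩ := g.ex.mem_cv.1 hx
  obtain ⟨n, rfl⟩ := g.sub.om_M y hy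
  exact ⟨n, g.finHom.nt n⟩

/-- The condition `q` belongs to the generic filter. -/
def Gn.GQ (q : F.Q) : Prop := ∃ m, g.j m = cd q ∧ g.G m

variable {g}

theorem Gn.inM_of_GQ {q : F.Q} (h : g.GQ q) : InM g.j q := by
  obtain ⟨m, hm, -⟩ := h
  exact ⟨m, hm⟩

theorem Gn.GQ_iff {q : F.Q} {m : M} (h : g.j m = cd q) : g.GQ q ↔ g.G m := by
  constructor
  · rintro ⟨m', hm', h'⟩
    rwa [← g.sub.inj (hm'.trans h.symm)]
  · intro h'
    exact ⟨m, h, h'⟩

/-- Elements of the filter are conditions. -/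
theorem Gn.exists_of_G {m : M} (h : g.G m) : ∃ q : F.Q, g.j m = cd q ∧ g.GQ q := by
  have h1 : g.j m ∈ g.j g.P := g.sub.mem.2 (g.ex.gen.mem m h)
  rw [g.jP] at h1
  obtain ⟨q, -, hq⟩ := mem_cd_set.1 h1
  exact ⟨q, hq, m, hq, h⟩

theorem Gn.op_mem_le {m m' : M} {q r : F.Q} (h : g.j m = cd q) (h' : g.j m' = cd r) :
    SigB.op m m' ∈ g.le ↔ q ≤ r := by
  rw [← g.sub.mem, g.sub.op, g.jle, h, h', ← cd_pair, cd_mem_cd]
  rfl

theorem Gn.top_GQ : g.GQ ⊤ := ⟨g.one, g.jone, g.ex.gen.one⟩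

theorem Gn.GQ_up {q r : F.Q} (h : g.GQ q) (hr : InM g.j r) (hqr : q ≤ r) : g.GQ r := by
  obtain ⟨m, hm, hG⟩ := h
  obtain ⟨m', hm'⟩ := hr
  exact ⟨m', hm', g.ex.gen.up m m' hG ((g.op_mem_le hm hm').2 hqr)⟩

theorem Gn.GQ_dir {q r : F.Q} (hq : g.GQ q) (hr : g.GQ r) : ∃ s, g.GQ s ∧ s ≤ q ∧ s ≤ r := by
  obtain ⟨m, hm, hG⟩ := hq
  obtain ⟨m', hm', hG'⟩ := hr
  obtain ⟨k, hk, h1, h2⟩ := g.ex.gen.dir m m' hG hG'
  obtain ⟨s, hs, hs'⟩ := g.exists_of_G hk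
  exact ⟨s, hs', (g.op_mem_le hs hm).1 h1, (g.op_mem_le hs hm').1 h2⟩

/-- A dense set of `M` has elements in `M`. -/
theorem Gn.inM_below {D : Set F.Q} (hD : InM g.j D) {q : F.Q} (hq : InM g.j q)
    (h : ∃ r ≤ q, r ∈ D) : ∃ r ≤ q, InM g.j r ∧ r ∈ D := by
  obtain ⟨r, hr, hrD⟩ := h
  obtain ⟨s, hs, hs'⟩ := inM_wit1 g.sub (inM_inter g.sub
    (inM_sec g.sub (r := leS F) ⟨g.le, g.jle⟩ hq) hD) ⟨r, hr, hrD⟩
  exact ⟨s, hs'.1, hs, hs'.2⟩

/-- Genericity. -/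
theorem Gn.gen {D : Set F.Q} (hD : InM g.j D) {q₀ : F.Q} (h0 : g.GQ q₀)
    (hd : ∀ q ≤ q₀, ∃ r ≤ q, r ∈ D) : ∃ q ≤ q₀, g.GQ q ∧ q ∈ D := by
  obtain ⟨m₀, hm₀, hG₀⟩ := h0
  obtain ⟨d, hd'⟩ := inM_inter g.sub
    (inM_sec g.sub (r := leS F) ⟨g.le, g.jle⟩ ⟨m₀, hm₀⟩) hD
  have hm : ∀ {m : M} {q : F.Q}, g.j m = cd q → (m ∈ d ↔ q ≤ q₀ ∧ q ∈ D) := by
    intro m q h
    rw [← g.sub.mem, hd', h, cd_mem_cd]
    rfl
  obtain ⟨s, hs, hs'⟩ := g.ex.gen.below g.ex.po (Q := fun s => s ∈ d)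
    (by simp (maxDischargeDepth := 50)) hG₀ (by
      intro m hmm
      obtain ⟨q, -, hq⟩ := mem_cd_set.1 (by
        have := g.sub.mem.2 (g.ex.po.sub _ _ hmm).1
        rwa [g.jP] at this : g.j m ∈ cd (Set.univ : Set F.Q))
      have hqq := (g.op_mem_le hq hm₀).1 hmm
      obtain ⟨r, hr, ⟨k, hk⟩, hrD⟩ := g.inM_below hD ⟨m, hq⟩ (hd q hqq)
      exact ⟨k, (g.op_mem_le hk hq).2 hr, (hm hk).2 ⟨hr.trans hqq, hrD⟩⟩)
  obtain ⟨q, hq, hq'⟩ := g.exists_of_G hs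
  obtain ⟨h1, h2⟩ := (hm hq).1 hs'
  exact ⟨q, h1, hq', h2⟩

variable (g) in
/-- The generic point belongs to `E`. -/
def Gn.Tr (E : Set F.Z) : Prop := ∃ q, g.GQ q ∧ F.Forces q E

theorem Gn.Tr.mono {E E' : Set F.Z} (h : g.Tr E) (hE : E ⊆ E') : g.Tr E' := by
  obtain ⟨q, hq, h⟩ := h
  exact ⟨q, hq, F.mono' hE h⟩

theorem Frame.inter2 (F : Frame) {q : F.Q} {E E' : Set F.Z} (h : F.Forces q E)
    (h' : F.Forces q E') : F.Forces q (E ∩ E') := by
  have h1 := F.inter (q := q) (E := fun n => if n = 0 then E else E') fun n => by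
    by_cases hn : n = 0
    · rw [if_pos hn]; exact h
    · rw [if_neg hn]; exact h'
  refine F.mono' (fun z hz => ?_) h1
  rw [Set.mem_iInter] at hz
  exact ⟨by simpa using hz 0, by simpa using hz 1⟩

theorem Gn.Tr.inter {E E' : Set F.Z} (h : g.Tr E) (h' : g.Tr E') : g.Tr (E ∩ E') := by
  obtain ⟨q, hq, h⟩ := h
  obtain ⟨r, hr, h'⟩ := h'
  obtain ⟨s, hs, h1, h2⟩ := g.GQ_dir hq hr
  exact ⟨s, hs, F.inter2 (F.mono h1 h) (F.mono h2 h')⟩

theorem Gn.tr_univ : g.Tr Set.univ := ⟨⊤, g.top_GQ, F.univ _⟩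

/-- Finite intersections. -/
theorem Gn.tr_fin {ι : Type} [Finite ι] {E : ι → Set F.Z} (h : ∀ i, g.Tr (E i)) :
    g.Tr (⋂ i, E i) := by
  classical
  have : Fintype ι := Fintype.ofFinite ι
  have h1 : ∀ s : Finset ι, g.Tr (⋂ i ∈ s, E i) := by
    intro s
    induction s using Finset.induction_on with
    | empty => exact g.tr_univ.mono (by simp)
    | insert a s ha ih => exact ((h a).inter ih).mono (by rw [Finset.set_biInter_insert])
  exact (h1 Finset.univ).mono (by simp)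

theorem Gn.Tr.nonempty {E : Set F.Z} (h : g.Tr E) : E.Nonempty := by
  obtain ⟨q, hq, h⟩ := h
  rcases E.eq_empty_or_nonempty with rfl | h1
  · exact (F.empty q h).elim
  · exact h1

/-- The set of conditions which decide `E`. -/
def decS (F : Frame) (E : Set F.Z) : Set F.Q := {q | F.Forces q E ∨ F.Forces q Eᶜ}

theorem Gn.tr_dec {E : Set F.Z} (hE : MeasurableSet E) (h : InM g.j (decS F E)) :
    g.Tr E ∨ g.Tr Eᶜ := by
  obtain ⟨q, -, hq, h1 | h1⟩ := g.gen h g.top_GQ fun q _ => F.dec hE q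
  · exact Or.inl ⟨q, hq, h1⟩
  · exact Or.inr ⟨q, hq, h1⟩

theorem Gn.not_tr_both {E : Set F.Z} (h : g.Tr E) (h' : g.Tr Eᶜ) : False := by
  obtain ⟨z, hz⟩ := (h.inter h').nonempty
  exact hz.2 hz.1

theorem Gn.tr_compl {E : Set F.Z} (hE : MeasurableSet E) (h : InM g.j (decS F E)) :
    g.Tr Eᶜ ↔ ¬ g.Tr E :=
  ⟨fun h1 h2 => g.not_tr_both h2 h1, fun h1 => (g.tr_dec hE h).resolve_left h1⟩

/-- Countable unions. -/
theorem Gn.tr_iUnion {I : Type} [Countable I] [Nonempty I] {E : I → Set F.Z}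
    (hE : ∀ i, MeasurableSet (E i)) (h : InM g.j {q : F.Q | ∃ i, F.Forces q (E i)})
    (ht : g.Tr (⋃ i, E i)) : ∃ i, g.Tr (E i) := by
  obtain ⟨q₀, h0, ht⟩ := ht
  obtain ⟨e, he⟩ := exists_surjective_nat I
  obtain ⟨q, -, hq, i, hi⟩ := g.gen h h0 fun q hq => by
    have h1 : F.Forces q (⋃ n, E (e n)) := F.mono' (by
      intro z hz
      obtain ⟨i, hi⟩ := Set.mem_iUnion.1 hz
      obtain ⟨n, rfl⟩ := he i
      exact Set.mem_iUnion.2 ⟨n, hi⟩) (F.mono hq ht)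
    obtain ⟨r, hr, n, hn⟩ := F.union (fun n => hE (e n)) h1
    exact ⟨r, hr, e n, hn⟩
  exact ⟨i, q, hq, hi⟩

/-- Countable intersections. -/
theorem Gn.tr_iInter {I : Type} [Countable I] [Nonempty I] {E : I → Set F.Z}
    (hE : ∀ i, MeasurableSet (E i)) (h : InM g.j {q : F.Q | ∃ i, F.Forces q (E i)ᶜ})
    (h' : InM g.j (decS F (⋂ i, E i))) : g.Tr (⋂ i, E i) ↔ ∀ i, g.Tr (E i) := by
  constructor
  · intro h1 i
    exact h1.mono (Set.iInter_subset _ i)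
  · intro h1
    by_contra h2
    have h3 := (g.tr_dec (MeasurableSet.iInter hE) h').resolve_left h2
    rw [Set.compl_iInter] at h3
    obtain ⟨i, hi⟩ := g.tr_iUnion (fun i => (hE i).compl) h h3
    exact g.not_tr_both (h1 i) hi

end

/-! ### Evaluation of names -/

section

variable {K : Type 1} [Membership K K] [IsZFC K]

/-- The subset of `A` of the elements `a` for which `(q, (x, a))` belongs to `W` for some `q` in
`Γ`. -/
noncomputable def ev (Γ W A x : K) : K := sp A fun a => ∃ q, q ∈ Γ ∧ SigB.op q (SigB.op x a) ∈ W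

theorem mem_ev {Γ W A x z : K} :
    z ∈ ev Γ W A x ↔ z ∈ A ∧ ∃ q, q ∈ Γ ∧ SigB.op q (SigB.op x z) ∈ W :=
  mem_sp (by simp (maxDischargeDepth := 50))

@[simp] theorem ev_dt {n : ℕ} {s t r u : (Fin n → K) → K} (hs : DT s) (ht : DT t) (hr : DT r)
    (hu : DT u) : DT fun v => ev (s v) (t v) (r v) (u v) := by
  have h1 : DT (fun w : Fin 4 → K => ev (w 0) (w 1) (w 2) (w 3)) := by
    unfold ev
    simp (maxDischargeDepth := 50)
  exact dt4 h1 hs ht hr hu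

end

/-- The relation `q ⊩ the generic point is in E a i` as a set. -/
def WS (F : Frame) {A I : Type} (E : A → I → Set F.Z) : Set (F.Q × (A × I)) :=
  {w | F.Forces w.1 (E w.2.1 w.2.2)}

section

variable {F : Frame} {M N : Type 1} [Membership M M] [IsZFC M] [Membership N N] [IsZFC N]
  {g : Gn F M N}

/-- The generic filter as a set of `N`. -/
noncomputable def Gn.Γ (g : Gn F M N) : N := g.val (gnm g.one g.P)

/-- The value of the name given by `Φ`. -/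
theorem Gn.mem_ev {A I : Type} [Cod A] [Cod I] [HC I] {E : A → I → Set F.Z} {w a x : M} {Φ : A}
    (hw : g.j w = cd (WS F E)) (ha : g.j a = cd (Set.univ : Set I)) (hx : g.j x = cd Φ) {z : N} :
    z ∈ ev g.Γ (g.cp w) (g.cp a) (g.cp x) ↔ ∃ i : I, z = HC.c N i ∧ g.Tr (E Φ i) := by
  have hM : ∀ i : I, g.j (HC.c M i) = cd i := fun i => by
    rw [HC.hom g.sub.finHom, HC.cV]
  have hN : ∀ i : I, g.cp (HC.c M i) = HC.c N i := fun i => HC.hom g.finHom i
  have hW : ∀ {p : M} {q : F.Q} {i : I}, g.j p = cd q →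
      (SigB.op p (SigB.op x (HC.c M i)) ∈ w ↔ F.Forces q (E Φ i)) := by
    intro p q i hp
    rw [← g.sub.mem, g.sub.op, g.sub.op, hw, hp, hx, hM, ← cd_pair, ← cd_pair, cd_mem_cd]
    rfl
  have hC : ∀ {p : M} {i : I}, (SigB.op (g.cp p) (SigB.op (g.cp x) (HC.c N i)) ∈ g.cp w ↔
      SigB.op p (SigB.op x (HC.c M i)) ∈ w) := by
    intro p i
    rw [← hN i]
    unfold Gn.cp
    rw [← g.ex.cv_op, ← g.ex.cv_op, g.ex.cv_mem]
  rw [GPA.mem_ev]
  constructor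
  · rintro ⟨hz, q, hq, h1⟩
    obtain ⟨y, hy, rfl⟩ := g.ex.mem_cv.1 hz
    obtain ⟨p, hp, rfl⟩ := g.ex.mem_gnm.1 hq
    have hy' : g.j y ∈ cd (Set.univ : Set I) := by
      rw [← ha]
      exact g.sub.mem.2 hy
    obtain ⟨i, -, hi⟩ := mem_cd_set.1 hy'
    have hyi : y = HC.c M i := g.sub.inj (hi.trans (hM i).symm)
    subst hyi
    obtain ⟨q, hq1, hq2⟩ := g.exists_of_G hp
    refine ⟨i, hN i, q, hq2, (hW hq1).1 (hC.1 ?_)⟩
    rw [← hN i]
    exact h1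
  · rintro ⟨i, rfl, q, ⟨p, hp, hG⟩, h1⟩
    refine ⟨?_, g.cp p, g.ex.mem_gnm.2 ⟨p, hG, rfl⟩, hC.2 ((hW hp).2 h1)⟩
    rw [← hN i]
    refine g.ex.cv_mem.2 (g.sub.mem.1 ?_)
    rw [hM, ha]
    exact cd_mem_cd.2 trivial

end

end Pool.Agent.GPA
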