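import Pool.Agent.GPA.MNat
import Pool.Agent.Frc.Col

/-!
# Block M, part 3: null sets of the Cantor space in a model with standard natural numbers
-/

set_option linter.unusedSectionVars false

namespace Pool.Agent.GPA

open Pool.Agent.SigB Pool.Agent.Frc Pool.Agent.Forc

variable {K : Type 1} [Membership K K] [IsZFC K]

variable (K) in
/-- The set of finite sequences of zeros and ones. -/
noncomputable def str : K := colP (nt K 2)

theorem mem_str (h : Om K) {x : K} : x ∈ str K ↔ ∃ s : List Bool, x = st K s := by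
  unfold str
  rw [mem_colP]
  constructor
  · rintro ⟨n, hn, hx⟩
    obtain ⟨m, rfl⟩ := h n hn
    obtain ⟨s, -, hs⟩ := mem_fs_nt.1 hx
    exact ⟨s, hs⟩
  · rintro ⟨s, rfl⟩
    exact ⟨nt K s.length, nt_mem_om _, mem_fs_nt.2 ⟨s, rfl, rfl⟩⟩

theorem isStrings_iff (h : Om K) {U : K} :
    IsStrings U (om : K) ↔ ∀ x, x ∈ U → ∃ s : List Bool, x = st K s := by
  unfold IsStrings
  refine forall_congr' fun x => imp_congr_right fun _ => ?_
  constructor
  · rintro ⟨k, c, hk, hc, hx⟩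
    obtain ⟨m, rfl⟩ := h k hk
    rw [isCantor_iff.1 hc] at hx
    obtain ⟨s, -, hs⟩ := mem_fs_nt.1 hx
    exact ⟨s, hs⟩
  · rintro ⟨s, rfl⟩
    exact ⟨nt K s.length, _, nt_mem_om _, isCantor_iff.2 rfl, mem_fs_nt.2 ⟨s, rfl, rfl⟩⟩

/-- A finite set of `K` injects into a second one if it has at most as many elements. -/
theorem injects_iff_ncard (h : Om K) {a b : K} {ι κ : Type} [Finite ι] [Finite κ] {f : ι → K}
    {g : κ → K} (hf : Function.Injective f) (hg : Function.Injective g)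
    (ha : ∀ x, x ∈ a ↔ ∃ i, x = f i) (hb : ∀ x, x ∈ b ↔ ∃ i, x = g i) :
    Injects a b ↔ Nat.card ι ≤ Nat.card κ := by
  rw [injects_iff]
  constructor
  · rintro ⟨F, hF, hFi⟩
    obtain ⟨hF1, hF2⟩ := mem_fs.1 hF
    have h1 : ∀ i, ∃ k, ap F (f i) = g k := fun i => (hb _).1 (hF2 _ ((ha _).2 ⟨i, rfl⟩))
    choose φ hφ using h1
    refine Nat.card_le_card_of_injective φ fun i j hij => hf ?_
    refine hFi _ _ ((ha _).2 ⟨i, rfl⟩) ((ha _).2 ⟨j, rfl⟩) ?_
    rw [hφ, hφ, hij]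
  · intro hcard
    have := Fintype.ofFinite ι
    have := Fintype.ofFinite κ
    obtain ⟨φ⟩ : Nonempty (ι ↪ κ) := by
      rw [Function.Embedding.nonempty_iff_card_le]
      simpa [Nat.card_eq_fintype_card] using hcard
    let l : List K := (Finset.univ : Finset ι).toList.map fun i => op (f i) (g (φ i))
    have hl : ∀ x, x ∈ fin l ↔ ∃ i, x = op (f i) (g (φ i)) := by
      intro x
      rw [mem_fin]
      simp only [l, List.mem_map, Finset.mem_toList, Finset.mem_univ, true_and]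
      exact exists_congr fun i => eq_comm
    have hop : ∀ x y, op x y ∈ fin l ↔ ∃ i, x = f i ∧ y = g (φ i) := by
      intro x y
      rw [hl]
      exact exists_congr fun i => op_inj
    have hfn : Fn (fin l) a := by
      refine ⟨fun z hz => ?_, fun x hx => ?_⟩
      · obtain ⟨i, rfl⟩ := (hl z).1 hz
        exact ⟨f i, (ha _).2 ⟨i, rfl⟩, g (φ i), rfl⟩
      · obtain ⟨i, rfl⟩ := (ha x).1 hx
        refine ⟨g (φ i), (hop _ _).2 ⟨i, rfl, rfl⟩, fun y' hy' => ?_⟩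
        obtain ⟨j, hj, rfl⟩ := (hop _ _).1 hy'
        rw [hf hj]
    have hap : ∀ i, ap (fin l) (f i) = g (φ i) := fun i =>
      (hfn.op_mem_iff ((ha _).2 ⟨i, rfl⟩)).1 ((hop _ _).2 ⟨i, rfl, rfl⟩)
    refine ⟨fin l, mem_fs.2 ⟨hfn, fun x hx => ?_⟩, ?_⟩
    · obtain ⟨i, rfl⟩ := (ha x).1 hx
      rw [hap]
      exact (hb _).2 ⟨_, rfl⟩
    · intro x y hx hy hxy
      obtain ⟨i, rfl⟩ := (ha x).1 hx
      obtain ⟨j, rfl⟩ := (ha y).1 hy
      rw [hap, hap] at hxy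
      rw [φ.injective (hg hxy)]

theorem measLe_iff (h : Om K) {U : K} {n : ℕ} (hU : IsStrings U (om : K)) :
    MeasLe U (nt K n) (om : K) ↔ ∀ m : ℕ,
      {t : List.Vector Bool m | ∃ s : List Bool, st K s ∈ U ∧ s <+: t.1}.ncard * 2 ^ n ≤
        2 ^ m := by
  have hU' := (isStrings_iff h).1 hU
  have hc : ∀ m : ℕ, ∀ x, x ∈ fs (nt K m) (nt K 2) ↔ ∃ i : List.Vector Bool m, x = st K i.1 := by
    intro m x
    rw [mem_fs_nt]
    constructor
    · rintro ⟨s, hs, rfl⟩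
      exact ⟨⟨s, hs⟩, rfl⟩
    · rintro ⟨i, rfl⟩
      exact ⟨i.1, i.2, rfl⟩
  have hinj : ∀ m : ℕ, Function.Injective fun i : List.Vector Bool m => st K i.1 :=
    fun m i j hij => Subtype.ext (st_inj hij)
  -- the set of pairs
  have he : ∀ (m : ℕ) (e : K), (∀ z, z ∈ e ↔ ∃ t v, t ∈ fs (nt K m) (nt K 2) ∧
      v ∈ fs (nt K n) (nt K 2) ∧ (∃ s, s ∈ U ∧ IsSub s t) ∧ IsOrdPair z t v) →
      ∀ x, x ∈ e ↔ ∃ i : {t : List.Vector Bool m // ∃ s : List Bool, st K s ∈ U ∧ s <+: t.1} ×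
        List.Vector Bool n, x = op (st K i.1.1.1) (st K i.2.1) := by
    intro m e he x
    rw [he]
    constructor
    · rintro ⟨t, v, ht, hv, ⟨s, hs, hst⟩, hx⟩
      obtain ⟨t', rfl⟩ := (hc m t).1 ht
      obtain ⟨v', rfl⟩ := (hc n v).1 hv
      obtain ⟨s', rfl⟩ := hU' s hs
      exact ⟨(⟨t', s', hs, sb_st.1 hst⟩, v'), isOrdPair_iff.1 hx⟩
    · rintro ⟨⟨⟨t', s', hs, hst⟩, v'⟩, rfl⟩
      exact ⟨_, _, (hc m _).2 ⟨t', rfl⟩, (hc n _).2 ⟨v', rfl⟩, ⟨_, hs, sb_st.2 hst⟩,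
        isOrdPair_iff.2 rfl⟩
  have hcard : ∀ (m : ℕ) (e : K), (∀ z, z ∈ e ↔ ∃ t v, t ∈ fs (nt K m) (nt K 2) ∧
      v ∈ fs (nt K n) (nt K 2) ∧ (∃ s, s ∈ U ∧ IsSub s t) ∧ IsOrdPair z t v) →
      (Injects e (fs (nt K m) (nt K 2)) ↔
        {t : List.Vector Bool m | ∃ s : List Bool, st K s ∈ U ∧ s <+: t.1}.ncard * 2 ^ n ≤
          2 ^ m) := by
    intro m e hme
    rw [injects_iff_ncard h ?_ (hinj m) (he m e hme) (hc m)]
    · rw [Nat.card_prod]
      have h1 : ∀ k : ℕ, Nat.card (List.Vector Bool k) = 2 ^ k := by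
        intro k
        rw [Nat.card_eq_fintype_card, card_vector, Fintype.card_bool]
      rw [h1, h1]
      exact Iff.rfl
    · rintro ⟨⟨t, ht⟩, v⟩ ⟨⟨t', ht'⟩, v'⟩ hij
      obtain ⟨h1, h2⟩ := op_inj.1 hij
      have h3 : t = t' := Subtype.ext (st_inj h1)
      have h4 : v = v' := Subtype.ext (st_inj h2)
      subst h3 h4
      rfl
  unfold MeasLe
  constructor
  · intro hM m
    let e : K := sp (pd (fs (nt K m) (nt K 2)) (fs (nt K n) (nt K 2))) fun z =>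
      ∃ t v, (∃ s, s ∈ U ∧ Sb s t) ∧ z = op t v
    have hme : ∀ z, z ∈ e ↔ ∃ t v, t ∈ fs (nt K m) (nt K 2) ∧
      v ∈ fs (nt K n) (nt K 2) ∧ (∃ s, s ∈ U ∧ IsSub s t) ∧ IsOrdPair z t v := by
      intro z
      show z ∈ sp (pd (fs (nt K m) (nt K 2)) (fs (nt K n) (nt K 2))) (fun z =>
        ∃ t v, (∃ s, s ∈ U ∧ Sb s t) ∧ z = op t v) ↔ _
      rw [mem_sp (by simp (maxDischargeDepth := 50))]
      constructor
      · rintro ⟨hz, t, v, hs, rfl⟩
        rw [op_mem_pd] at hz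
        exact ⟨t, v, hz.1, hz.2, hs, isOrdPair_iff.2 rfl⟩
      · rintro ⟨t, v, ht, hv, hs, hz⟩
        rw [isOrdPair_iff] at hz
        subst hz
        exact ⟨op_mem_pd.2 ⟨ht, hv⟩, t, v, hs, rfl⟩
    exact (hcard m e hme).1 (hM (nt K m) _ _ e (nt_mem_om m) (isCantor_iff.2 rfl)
      (isCantor_iff.2 rfl) hme)
  · intro hm m c d e hm' hc' hd' he'
    obtain ⟨m', rfl⟩ := h m hm'
    rw [isCantor_iff] at hc' hd'
    subst hc' hd'
    exact (hcard m' e he').2 (hm m')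

open Classical in
/-- The sequence of sets of strings coded by `u`. -/
noncomputable def exC (u : K) (n : ℕ) (s : List Bool) : Bool := decide (op (nt K n) (st K s) ∈ u)

/-- A definable null set has a null code. -/
theorem exists_ncode (h : Om K) {S : K → Prop} (hS : Dfn fun w : Fin 1 → K => S (w 0))
    (hn : IsNull S) : ∃ u : K, (∀ z, z ∈ u → ∃ (n : ℕ) (s : List Bool), z = op (nt K n) (st K s)) ∧
      IsNullCode (exC u) ∧ ∀ y, y ∈ fs (om : K) (nt K 2) → S y → ext2 y ∈ NullOf (exC u) := by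
  have hS' : ∀ {n : ℕ} {s : (Fin n → K) → K}, DT s → Dfn fun v => S (s v) := fun hs => dfn1 hS hs
  let P : K → K → Prop := fun n U => IsStrings U (om : K) ∧ MeasLe U n (om : K) ∧
    ∀ z, S z → ∃ s, s ∈ U ∧ IsSub s z
  have hP : Dfn (fun w : Fin 2 → K => P (w 0) (w 1)) := by
    simp only [P, IsStrings, MeasLe, isCantor_iff, IsSub, isOrdPair_iff, injects_iff]
    simp (maxDischargeDepth := 50) [hS']
  obtain ⟨W, hW, hWP⟩ := choice' (a := om) (b := pw (str K)) (P := P) hP (by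
    intro n hn'
    obtain ⟨U, h1, h2, h3⟩ := hn om n (isOmega_iff.2 rfl) hn'
    exact ⟨U, mem_pw.2 fun x hx => (mem_str h).2 ((isStrings_iff h).1 h1 x hx), h1, h2, h3⟩)
  obtain ⟨hW1, hW2⟩ := mem_fs.1 hW
  let u : K := sp (pd (om : K) (str K)) fun z => ∃ n s, z = op n s ∧ s ∈ ap W n
  have hu : ∀ z, z ∈ u ↔ z ∈ pd (om : K) (str K) ∧ ∃ n s, z = op n s ∧ s ∈ ap W n := by
    intro z
    exact mem_sp (by simp (maxDischargeDepth := 50))
  have hus : ∀ (n : ℕ) (s : List Bool), op (nt K n) (st K s) ∈ u ↔ st K s ∈ ap W (nt K n) := by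
    intro n s
    rw [hu, op_mem_pd]
    constructor
    · rintro ⟨-, n', s', h1, h2⟩
      obtain ⟨rfl, rfl⟩ := op_inj.1 h1
      exact h2
    · intro h1
      exact ⟨⟨nt_mem_om n, (mem_str h).2 ⟨s, rfl⟩⟩, _, _, rfl, h1⟩
  refine ⟨u, fun z hz => ?_, fun n m => ?_, fun y hy hSy n => ?_⟩
  · obtain ⟨hz1, n, s, rfl, -⟩ := (hu z).1 hz
    rw [op_mem_pd] at hz1
    obtain ⟨n', rfl⟩ := h n hz1.1
    obtain ⟨s', rfl⟩ := (mem_str h).1 hz1.2
    exact ⟨n', s', rfl⟩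
  · obtain ⟨h1, h2, -⟩ := hWP (nt K n) (nt_mem_om n)
    have h3 := (measLe_iff h h1).1 h2 m
    simpa only [exC, decide_eq_true_eq, hus] using h3
  · obtain ⟨h1, -, h3⟩ := hWP (nt K n) (nt_mem_om n)
    obtain ⟨s, hs, hsy⟩ := h3 y hSy
    obtain ⟨s', rfl⟩ := (isStrings_iff h).1 h1 s hs
    have h4 := (sb_st_iff h hy).1 hsy
    refine ⟨s'.length, ?_⟩
    rw [← h4]
    simp only [exC, decide_eq_true_eq]
    exact (hus n s').2 hs

/-- A set with a null code is null. -/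
theorem isNull_of_code (h : Om K) {S : K → Prop} (u : K) (hu : IsNullCode (exC u))
    (hS : ∀ y, S y → y ∈ fs (om : K) (nt K 2) ∧ ext2 y ∈ NullOf (exC u)) : IsNull S := by
  intro o n ho hn
  rw [isOmega_iff] at ho
  subst ho
  obtain ⟨n', rfl⟩ := h n hn
  let U : K := sp (str K) fun s => op (nt K n') s ∈ u
  have hU : ∀ s, s ∈ U ↔ s ∈ str K ∧ op (nt K n') s ∈ u := by
    intro s
    exact mem_sp (by simp (maxDischargeDepth := 50))
  have hUs : ∀ s : List Bool, st K s ∈ U ↔ op (nt K n') (st K s) ∈ u := by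
    intro s
    rw [hU]
    exact ⟨fun h1 => h1.2, fun h1 => ⟨(mem_str h).2 ⟨s, rfl⟩, h1⟩⟩
  have hUS : IsStrings U (om : K) := (isStrings_iff h).2 fun x hx => (mem_str h).1 ((hU x).1 hx).1
  refine ⟨U, hUS, (measLe_iff h hUS).2 fun m => ?_, fun z hz => ?_⟩
  · have h3 := hu n' m
    simpa only [exC, decide_eq_true_eq, ← hUs] using h3
  · obtain ⟨h1, h2⟩ := hS z hz
    obtain ⟨m, hm⟩ := h2 n'
    simp only [exC, decide_eq_true_eq] at hm
    refine ⟨_, (hUs _).2 hm, ?_⟩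
    refine (sb_st_iff h h1).2 ?_
    unfold ini
    simp

end Pool.Agent.GPA
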