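import Pool.Agent.GPA.MGen
import Pool.Agent.GPA.MNull

/-!
# Block M, part 6: names of reals and of null codes
-/

set_option linter.unusedSectionVars false

namespace Pool.Agent.GPA

open Pool.Agent.SigB Pool.Agent.Frc Pool.Agent.Forc

/-- Names of subsets of `I`. -/
def NI (F : Frame) (I : Type) : Type := {f : F.Z → I → Bool // Measurable f}

/-- Names of elements of `2^ω`. -/
def NB (F : Frame) : Type := {f : F.Z → ℕ → Bool // Measurable f}

/-- Names of elements of `ω^ω`. -/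
def NF (F : Frame) : Type := {f : F.Z → ℕ → ℕ // Measurable f}

/-- Names of null codes. -/
def NC (F : Frame) : Type :=
  {c : F.Z → ℕ → List Bool → Bool // Measurable c ∧ ∀ z, IsNullCode (c z)}

noncomputable instance (F : Frame) (I : Type) : Cod (NI F I) := Cod.any _
noncomputable instance (F : Frame) : Cod (NB F) := Cod.any _
noncomputable instance (F : Frame) : Cod (NF F) := Cod.any _
noncomputable instance (F : Frame) : Cod (NC F) := Cod.any _

/-- The coordinates of the names. -/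
def EB (F : Frame) (f : NB F) (i : ℕ × ℕ) : Set F.Z := {z | (f.1 z i.1).toNat = i.2}

def EF (F : Frame) (f : NF F) (i : ℕ × ℕ) : Set F.Z := {z | f.1 z i.1 = i.2}

def EC (F : Frame) (c : NC F) (i : ℕ × List Bool) : Set F.Z := {z | c.1 z i.1 i.2 = true}

section

variable {F : Frame} {M N : Type 1} [Membership M M] [IsZFC M] [Membership N N] [IsZFC N]

open Classical in
/-- The element of `M` with the code `s`. -/
noncomputable def Gn.pre (g : Gn F M N) (s : V) : M := if h : ∃ m, g.j m = s then h.choose else g.P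

theorem Gn.pre_spec {g : Gn F M N} {α : Type} [Cod α] {a : α} (h : InM g.j a) :
    g.j (g.pre (cd a)) = cd a := by
  have h' : ∃ m, g.j m = cd a := h
  unfold Gn.pre
  rw [dif_pos h']
  exact h'.choose_spec

/-- The copy in `N` of the code of `a`. -/
noncomputable def Gn.el (g : Gn F M N) {α : Type} [Cod α] (a : α) : N := g.cp (g.pre (cd a))

theorem Gn.el_inj {g : Gn F M N} {α : Type} [Cod α] {a b : α} (ha : InM g.j a) (hb : InM g.j b) :
    g.el a = g.el b ↔ a = b := by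
  constructor
  · intro h
    have h1 := g.ex.cv_inj.1 h
    refine Cod.inj ?_
    rw [← Gn.pre_spec ha, ← Gn.pre_spec hb, h1]
  · rintro rfl
    rfl

/-- Elements of the copy of a set. -/
theorem Gn.mem_el {g : Gn F M N} {α : Type} [Cod α] {s : Set α} (hs : InM g.j s) {z : N} :
    z ∈ g.el s ↔ ∃ a, InM g.j a ∧ a ∈ s ∧ z = g.el a := by
  constructor
  · intro h
    obtain ⟨y, hy, rfl⟩ := g.ex.mem_cv.1 h
    have h1 : g.j y ∈ cd s := by
      rw [← Gn.pre_spec hs]
      exact g.sub.mem.2 hy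
    obtain ⟨a, ha, hya⟩ := mem_cd_set.1 h1
    have hb : InM g.j a := ⟨y, hya⟩
    refine ⟨a, hb, ha, ?_⟩
    have h2 : g.pre (cd a) = y := g.sub.inj ((Gn.pre_spec hb).trans hya.symm)
    rw [Gn.el, h2]
    rfl
  · rintro ⟨a, ha, has, rfl⟩
    refine g.ex.cv_mem.2 (g.sub.mem.1 ?_)
    rw [Gn.pre_spec hs, Gn.pre_spec ha]
    exact cd_mem_cd.2 has

/-- The function `Φ ↦ {i : the generic point belongs to E Φ i}` in `N`. -/
noncomputable def Gn.tm (g : Gn F M N) {A I : Type} [Cod A] [Cod I] (E : A → I → Set F.Z)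
    (y : N) : N := ev g.Γ (g.el (WS F E)) (g.el (Set.univ : Set I)) y

@[simp] theorem Gn.tm_dt (g : Gn F M N) {A I : Type} [Cod A] [Cod I] (E : A → I → Set F.Z) {n : ℕ}
    {s : (Fin n → N) → N} (hs : DT s) : DT fun v => g.tm E (s v) := by
  unfold Gn.tm
  simp (maxDischargeDepth := 50) [hs]

/-- The value of the name given by `Φ`. -/
noncomputable def Gn.nv (g : Gn F M N) {A I : Type} [Cod A] [Cod I] (E : A → I → Set F.Z)
    (Φ : A) : N := g.tm E (g.el Φ)

variable {g : Gn F M N}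

theorem Gn.mem_nv {A I : Type} [Cod A] [Cod I] [HC I] {E : A → I → Set F.Z} {Φ : A}
    (hE : InM g.j (WS F E)) (hI : InM g.j (Set.univ : Set I)) (hΦ : InM g.j Φ) {z : N} :
    z ∈ g.nv E Φ ↔ ∃ i : I, z = HC.c N i ∧ g.Tr (E Φ i) := by
  exact g.mem_ev (Gn.pre_spec hE) (Gn.pre_spec hI) (Gn.pre_spec hΦ)

/-- A function on `ω` given by its values at the natural numbers. -/
theorem mem_fs_om_of {K : Type 1} [Membership K K] [IsZFC K] (h : Om K) {x b : K}
    {T : ℕ → ℕ → Prop} (hx : ∀ z, z ∈ x ↔ ∃ n i : ℕ, z = SigB.op (nt K n) (nt K i) ∧ T n i)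
    (he : ∀ n, ∃ i, T n i ∧ nt K i ∈ b ∧ ∀ i', T n i' → i' = i) : x ∈ fs (om : K) b := by
  have hop : ∀ n i, SigB.op (nt K n) (nt K i) ∈ x ↔ T n i := by
    intro n i
    rw [hx]
    constructor
    · rintro ⟨n', i', h1, h2⟩
      obtain ⟨h3, h4⟩ := SigB.op_inj.1 h1
      rwa [nt_inj h3, nt_inj h4]
    · exact fun h1 => ⟨n, i, rfl, h1⟩
  have hFn : Fn x (om : K) := by
    refine ⟨fun z hz => ?_, fun y hy => ?_⟩
    · obtain ⟨n, i, rfl, -⟩ := (hx z).1 hz
      exact ⟨_, nt_mem_om n, _, rfl⟩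
    · obtain ⟨n, rfl⟩ := h y hy
      obtain ⟨i, hi, -, hi'⟩ := he n
      refine ⟨nt K i, (hop n i).2 hi, fun y' hy' => ?_⟩
      obtain ⟨n', i', h1, h2⟩ := (hx _).1 hy'
      obtain ⟨h3, h4⟩ := SigB.op_inj.1 h1
      rw [h4, hi' i' (by rwa [nt_inj h3])]
  refine mem_fs.2 ⟨hFn, fun y hy => ?_⟩
  obtain ⟨n, rfl⟩ := h y hy
  obtain ⟨i, hi, hib, -⟩ := he n
  rwa [(hFn.op_mem_iff (nt_mem_om n)).1 ((hop n i).2 hi)]

/-! ### Reals and null codes -/

variable (F) in
/-- The parameters of this file. -/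
noncomputable def parName : List V :=
  [cd (WS F (EB F)), cd (WS F (EF F)), cd (WS F (EC F)),
    cd {w : F.Q × (NB F × (ℕ × ℕ)) | w.1 ∈ decS F (EB F w.2.1 w.2.2)},
    cd {w : F.Q × (NF F × (ℕ × ℕ)) | w.1 ∈ decS F (EF F w.2.1 w.2.2)},
    cd {w : F.Q × (NC F × (ℕ × List Bool)) | w.1 ∈ decS F (EC F w.2.1 w.2.2)},
    cd {w : F.Q × (NF F × ℕ) | ∃ i, F.Forces w.1 (EF F w.2.1 (w.2.2, i))}]

/-- The real with the name `f`. -/
noncomputable def Gn.xB (g : Gn F M N) (f : NB F) : N := g.nv (EB F) f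

/-- The element of `ω^ω` with the name `f`. -/
noncomputable def Gn.yF (g : Gn F M N) (f : NF F) : N := g.nv (EF F) f

/-- The null code with the name `c`. -/
noncomputable def Gn.uC (g : Gn F M N) (c : NC F) : N := g.nv (EC F) c

variable (hp : g.Has (parName F))

include hp

theorem Gn.inM_nn : InM g.j (Set.univ : Set (ℕ × ℕ)) :=
  inM_univ_prod g.sub (inM_univ_nat g.sub) (inM_univ_nat g.sub)

theorem Gn.inM_ns : InM g.j (Set.univ : Set (ℕ × List Bool)) :=
  inM_univ_prod g.sub (inM_univ_nat g.sub) (inM_univ_str g.sub)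

theorem Gn.mem_xB {f : NB F} (hf : InM g.j f) {z : N} :
    z ∈ g.xB f ↔ ∃ n i : ℕ, z = SigB.op (nt N n) (nt N i) ∧ g.Tr {z | (f.1 z n).toNat = i} := by
  have h1 : InM g.j (WS F (EB F)) := hp _ (by simp [parName])
  rw [Gn.xB, Gn.mem_nv h1 (g.inM_nn hp) hf]
  constructor
  · rintro ⟨⟨n, i⟩, h, h'⟩
    exact ⟨n, i, h, h'⟩
  · rintro ⟨n, i, h, h'⟩
    exact ⟨⟨n, i⟩, h, h'⟩

theorem Gn.mem_yF {f : NF F} (hf : InM g.j f) {z : N} :
    z ∈ g.yF f ↔ ∃ n i : ℕ, z = SigB.op (nt N n) (nt N i) ∧ g.Tr {z | f.1 z n = i} := by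
  have h1 : InM g.j (WS F (EF F)) := hp _ (by simp [parName])
  rw [Gn.yF, Gn.mem_nv h1 (g.inM_nn hp) hf]
  constructor
  · rintro ⟨⟨n, i⟩, h, h'⟩
    exact ⟨n, i, h, h'⟩
  · rintro ⟨n, i, h, h'⟩
    exact ⟨⟨n, i⟩, h, h'⟩

theorem Gn.mem_uC {c : NC F} (hc : InM g.j c) {z : N} :
    z ∈ g.uC c ↔ ∃ (n : ℕ) (s : List Bool), z = SigB.op (nt N n) (st N s) ∧
      g.Tr {z | c.1 z n s = true} := by
  have h1 : InM g.j (WS F (EC F)) := hp _ (by simp [parName])
  rw [Gn.uC, Gn.mem_nv h1 (g.inM_ns hp) hc]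
  constructor
  · rintro ⟨⟨n, i⟩, h, h'⟩
    exact ⟨n, i, h, h'⟩
  · rintro ⟨n, i, h, h'⟩
    exact ⟨⟨n, i⟩, h, h'⟩

theorem Gn.exists_valB {f : NB F} (hf : InM g.j f) (n : ℕ) : ∃ b, g.Tr {z | f.1 z n = b} := by
  have h1 : InM g.j {w : F.Q × (NB F × (ℕ × ℕ)) | w.1 ∈ decS F (EB F w.2.1 w.2.2)} :=
    hp _ (by simp [parName])
  have h2 : InM g.j (decS F (EB F f (n, 1))) :=
    inM_sec g.sub h1 ((inM_pair g.sub).2 ⟨hf, (inM_pair g.sub).2
      ⟨inM_nat g.sub n, inM_nat g.sub 1⟩⟩)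
  have hm : MeasurableSet (EB F f (n, 1)) := by
    have h3 : EB F f (n, 1) = (fun z => f.1 z n) ⁻¹' {b | b.toNat = 1} := rfl
    rw [h3]
    exact (measurable_pi_iff.1 f.2 n) trivial
  rcases g.tr_dec hm h2 with h3 | h3
  · refine ⟨true, h3.mono fun z hz => ?_⟩
    have h4 : (f.1 z n).toNat = 1 := hz
    change f.1 z n = true
    cases h5 : f.1 z n
    · rw [h5] at h4; exact absurd h4 (by decide)
    · rfl
  · refine ⟨false, h3.mono fun z hz => ?_⟩
    have h4 : ¬ (f.1 z n).toNat = 1 := hz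
    change f.1 z n = false
    cases h5 : f.1 z n
    · rfl
    · rw [h5] at h4; exact absurd rfl h4

theorem Gn.exists_valC {c : NC F} (hc : InM g.j c) (n : ℕ) (s : List Bool) :
    ∃ b, g.Tr {z | c.1 z n s = b} := by
  have h1 : InM g.j {w : F.Q × (NC F × (ℕ × List Bool)) | w.1 ∈ decS F (EC F w.2.1 w.2.2)} :=
    hp _ (by simp [parName])
  have h2 : InM g.j (decS F (EC F c (n, s))) :=
    inM_sec g.sub h1 ((inM_pair g.sub).2 ⟨hc, (inM_pair g.sub).2
      ⟨inM_nat g.sub n, inM_str g.sub s⟩⟩)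
  have hm : MeasurableSet (EC F c (n, s)) := by
    have h3 : EC F c (n, s) = (fun z => c.1 z n s) ⁻¹' {b | b = true} := rfl
    rw [h3]
    exact (measurable_pi_iff.1 (measurable_pi_iff.1 c.2.1 n) s) trivial
  rcases g.tr_dec hm h2 with h3 | h3
  · exact ⟨true, h3⟩
  · exact ⟨false, h3.mono fun z hz => Bool.eq_false_iff.2 hz⟩

theorem Gn.exists_valF {f : NF F} (hf : InM g.j f) (n : ℕ) : ∃ i, g.Tr {z | f.1 z n = i} := by
  have h1 : InM g.j {w : F.Q × (NF F × ℕ) | ∃ i, F.Forces w.1 (EF F w.2.1 (w.2.2, i))} :=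
    hp _ (by simp [parName])
  refine g.tr_iUnion (E := fun i => {z | f.1 z n = i}) (fun i => ?_)
    (inM_sec g.sub h1 ((inM_pair g.sub).2 ⟨hf, inM_nat g.sub n⟩)) ?_
  · have h3 : {z | f.1 z n = i} = (fun z => f.1 z n) ⁻¹' {i} := rfl
    rw [h3]
    exact (measurable_pi_iff.1 f.2 n) (MeasurableSet.singleton i)
  · refine g.tr_univ.mono fun z _ => Set.mem_iUnion.2 ⟨f.1 z n, rfl⟩

omit hp in
/-- The value is unique. -/
theorem Gn.tr_unique {α : Type} {φ : F.Z → α} {a b : α} (ha : g.Tr {z | φ z = a})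
    (hb : g.Tr {z | φ z = b}) : a = b := by
  obtain ⟨z, h1, h2⟩ := (ha.inter hb).nonempty
  exact h1.symm.trans h2

theorem Gn.xB_mem {f : NB F} (hf : InM g.j f) : g.xB f ∈ fs (om : N) (nt N 2) := by
  refine mem_fs_om_of g.om_N (fun z => g.mem_xB hp hf) fun n => ?_
  obtain ⟨b, hb⟩ := g.exists_valB hp hf n
  refine ⟨b.toNat, hb.mono fun z hz => congrArg Bool.toNat hz, ?_, fun i' hi' => ?_⟩
  · rw [mem_two]
    cases b
    · exact Or.inl rfl
    · exact Or.inr rfl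
  · exact g.tr_unique hi' (hb.mono fun z hz => congrArg Bool.toNat hz)

theorem Gn.yF_mem {f : NF F} (hf : InM g.j f) : g.yF f ∈ fs (om : N) om := by
  refine mem_fs_om_of g.om_N (fun z => g.mem_yF hp hf) fun n => ?_
  obtain ⟨i, hi⟩ := g.exists_valF hp hf n
  exact ⟨i, hi, nt_mem_om i, fun i' hi' => g.tr_unique hi' hi⟩

theorem Gn.ext2_xB {f : NB F} (hf : InM g.j f) {n : ℕ} {b : Bool} :
    ext2 (g.xB f) n = b ↔ g.Tr {z | f.1 z n = b} := by
  obtain ⟨b', hb'⟩ := g.exists_valB hp hf n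
  have h1 : ext2 (g.xB f) n = b' := by
    have h2 : SigB.op (nt N n) (nt N 1) ∈ g.xB f ↔ b' = true := by
      rw [g.mem_xB hp hf]
      constructor
      · rintro ⟨n', i', h3, h4⟩
        obtain ⟨h5, h6⟩ := SigB.op_inj.1 h3
        rw [← nt_inj h5, ← nt_inj h6] at h4
        have h7 := g.tr_unique h4 (hb'.mono fun z hz => congrArg Bool.toNat hz)
        cases b'
        · exact absurd h7 (by decide)
        · rfl
      · rintro rfl
        exact ⟨n, 1, rfl, hb'.mono fun z hz => congrArg Bool.toNat hz⟩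
    classical
    unfold ext2
    cases b'
    · exact (decide_eq_false_iff_not).2 fun h => Bool.false_ne_true (h2.1 h)
    · exact decide_eq_true_iff.2 (h2.2 rfl)
  rw [h1]
  constructor
  · rintro rfl
    exact hb'
  · exact fun h => g.tr_unique hb' h

theorem Gn.ext_yF {f : NF F} (hf : InM g.j f) {n i : ℕ} :
    ext (g.yF f) n = i ↔ g.Tr {z | f.1 z n = i} := by
  rw [ext_eq g.om_N (g.yF_mem hp hf), g.mem_yF hp hf]
  constructor
  · rintro ⟨n', i', h3, h4⟩
    obtain ⟨h5, h6⟩ := SigB.op_inj.1 h3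
    rwa [← nt_inj h5, ← nt_inj h6] at h4
  · exact fun h => ⟨n, i, rfl, h⟩

theorem Gn.exC_uC {c : NC F} (hc : InM g.j c) {n : ℕ} {s : List Bool} {b : Bool} :
    exC (g.uC c) n s = b ↔ g.Tr {z | c.1 z n s = b} := by
  obtain ⟨b', hb'⟩ := g.exists_valC hp hc n s
  have h1 : exC (g.uC c) n s = b' := by
    have h2 : SigB.op (nt N n) (st N s) ∈ g.uC c ↔ b' = true := by
      rw [g.mem_uC hp hc]
      constructor
      · rintro ⟨n', i', h3, h4⟩
        obtain ⟨h5, h6⟩ := SigB.op_inj.1 h3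
        rw [← nt_inj h5, ← st_inj h6] at h4
        exact g.tr_unique hb' h4
      · rintro rfl
        exact ⟨n, s, rfl, hb'⟩
    classical
    unfold exC
    cases b'
    · exact (decide_eq_false_iff_not).2 fun h => Bool.false_ne_true (h2.1 h)
    · exact decide_eq_true_iff.2 (h2.2 rfl)
  rw [h1]
  constructor
  · rintro rfl
    exact hb'
  · exact fun h => g.tr_unique hb' h

theorem Gn.ini_xB {f : NB F} (hf : InM g.j f) {s : List Bool} {m : ℕ} :
    ini (ext2 (g.xB f)) m = s ↔ g.Tr {z | ini (f.1 z) m = s} := by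
  have h1 : g.Tr {z | ini (f.1 z) m = ini (ext2 (g.xB f)) m} := by
    refine (g.tr_fin (E := fun i : Fin m => {z | f.1 z i = ext2 (g.xB f) i})
      fun i => (g.ext2_xB hp hf).1 rfl).mono fun z hz => ?_
    have h2 := Set.mem_iInter.1 hz
    exact congrArg List.ofFn (funext fun i => h2 i)
  constructor
  · rintro rfl
    exact h1
  · exact fun h => g.tr_unique h1 h

theorem Gn.isNullCode_uC {c : NC F} (hc : InM g.j c) : IsNullCode (exC (g.uC c)) := by
  intro n m
  have hfin : Finite {s : List Bool // s.length ≤ m} := (List.finite_length_le Bool m).to_subtype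
  have h1 := g.tr_fin (E := fun s : {s : List Bool // s.length ≤ m} =>
    {z | c.1 z n s.1 = exC (g.uC c) n s.1}) fun s => (g.exC_uC hp hc).1 rfl
  obtain ⟨z, hz⟩ := h1.nonempty
  have h2 := c.2.2 z n m
  have h3 : {t : List.Vector Bool m | ∃ s : List Bool, exC (g.uC c) n s = true ∧ s <+: t.1} =
      {t : List.Vector Bool m | ∃ s : List Bool, c.1 z n s = true ∧ s <+: t.1} := by
    ext t
    refine exists_congr fun s => ?_
    constructor
    · rintro ⟨h4, h5⟩
      have h6 : s.length ≤ m := h5.length_le.trans t.2.le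
      exact ⟨(Set.mem_iInter.1 hz ⟨s, h6⟩).trans h4, h5⟩
    · rintro ⟨h4, h5⟩
      have h6 : s.length ≤ m := h5.length_le.trans t.2.le
      exact ⟨(Set.mem_iInter.1 hz ⟨s, h6⟩).symm.trans h4, h5⟩
  rw [h3]
  exact h2

end

end Pool.Agent.GPA
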