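import Pool.Agent.GPA.MElem
import Pool.Agent.GPA.Defs
import Pool.Agent.GPA.Frame

/-!
# Block M, part 2: natural numbers, finite sequences and reals in a model
-/

set_option linter.unusedSectionVars false

namespace Pool.Agent.GPA

open Pool.Agent.SigB Pool.Agent.Frc Pool.Agent.Forc

/-! ### Natural numbers and finite sequences -/

section

variable {K : Type 1} [Membership K K] [IsZFC K]

variable (K) in
/-- The natural number `n` in the model `K`. -/
noncomputable def nt : ℕ → K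
  | 0 => SigB.em
  | n + 1 => sc (nt n)

theorem nt_mem_om (n : ℕ) : nt K n ∈ (om : K) := by
  induction n with
  | zero => exact em_mem_om
  | succ n ih => exact sc_mem_om ih

theorem mem_nt {n : ℕ} {x : K} : x ∈ nt K n ↔ ∃ m < n, x = nt K m := by
  induction n with
  | zero =>
    constructor
    · intro h
      exact (not_mem_em _ h).elim
    · rintro ⟨m, hm, -⟩
      exact (Nat.not_lt_zero m hm).elim
  | succ n ih =>
    have h1 : x ∈ nt K (n + 1) ↔ x ∈ nt K n ∨ x = nt K n := mem_sc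
    rw [h1, ih]
    constructor
    · rintro (⟨m, hm, rfl⟩ | rfl)
      · exact ⟨m, hm.trans (Nat.lt_succ_self n), rfl⟩
      · exact ⟨n, Nat.lt_succ_self n, rfl⟩
    · rintro ⟨m, hm, rfl⟩
      rcases Nat.lt_succ_iff_lt_or_eq.1 hm with h | rfl
      · exact Or.inl ⟨m, h, rfl⟩
      · exact Or.inr rfl

theorem nt_inj {m n : ℕ} (h : nt K m = nt K n) : m = n := by
  rcases lt_trichotomy m n with h1 | h1 | h1
  · have h2 : nt K m ∈ nt K n := mem_nt.2 ⟨m, h1, rfl⟩
    rw [h] at h2
    exact (not_mem_self _ h2).elim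
  · exact h1
  · have h2 : nt K n ∈ nt K m := mem_nt.2 ⟨n, h1, rfl⟩
    rw [h] at h2
    exact (not_mem_self _ h2).elim

theorem nt_mem_nt {m n : ℕ} : nt K m ∈ nt K n ↔ m < n := by
  rw [mem_nt]
  constructor
  · rintro ⟨k, hk, h⟩
    rwa [nt_inj h]
  · intro h
    exact ⟨m, h, rfl⟩

theorem sb_nt {m n : ℕ} : Sb (nt K m) (nt K n) ↔ m ≤ n := by
  constructor
  · intro h
    by_contra hn
    push Not at hn
    have h1 := h _ (nt_mem_nt.2 hn)
    exact not_mem_self _ h1
  · intro h x hx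
    obtain ⟨k, hk, rfl⟩ := mem_nt.1 hx
    exact nt_mem_nt.2 (lt_of_lt_of_le hk h)

variable (K) in
/-- Every natural number of `K` is standard. -/
def Om : Prop := ∀ x : K, x ∈ (om : K) → ∃ n, x = nt K n

/-- The finite set with the elements of a list. -/
noncomputable def fin (l : List K) : K := l.foldr (fun x s => un (pr x x) s) SigB.em

theorem mem_fin {l : List K} {x : K} : x ∈ fin l ↔ x ∈ l := by
  induction l with
  | nil =>
    constructor
    · intro h
      exact (not_mem_em _ h).elim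
    · intro h
      exact (List.not_mem_nil h).elim
  | cons a l ih =>
    have h1 : x ∈ fin (a :: l) ↔ x ∈ pr a a ∨ x ∈ fin l := mem_un
    rw [h1, ih, mem_pr, List.mem_cons, or_self]

variable (K) in
/-- The finite sequence `s` of zeros and ones as an element of `K`: a function from `nt n` to `2`,
where `n` is the length of `s`. -/
noncomputable def st (s : List Bool) : K :=
  fin (s.zipIdx.map fun a => op (nt K a.2) (nt K a.1.toNat))

theorem mem_st {s : List Bool} {x : K} :
    x ∈ st K s ↔ ∃ (i : ℕ) (h : i < s.length), x = op (nt K i) (nt K s[i].toNat) := by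
  unfold st
  rw [mem_fin, List.mem_map]
  constructor
  · rintro ⟨⟨b, i⟩, hb, rfl⟩
    rw [List.mem_zipIdx_iff_getElem?] at hb
    obtain ⟨hi, hb⟩ := List.getElem?_eq_some_iff.1 hb
    exact ⟨i, hi, by rw [← hb]⟩
  · rintro ⟨i, hi, rfl⟩
    refine ⟨(s[i], i), ?_, rfl⟩
    rw [List.mem_zipIdx_iff_getElem?]
    exact List.getElem?_eq_some_iff.2 ⟨hi, rfl⟩

theorem toNat_inj {a b : Bool} (h : a.toNat = b.toNat) : a = b := by
  revert h
  cases a <;> cases b <;> simp

theorem op_mem_st {s : List Bool} {i k : ℕ} :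
    op (nt K i) (nt K k) ∈ st K s ↔ ∃ h : i < s.length, k = s[i].toNat := by
  rw [mem_st]
  constructor
  · rintro ⟨i', hi, h⟩
    obtain ⟨h1, h2⟩ := op_inj.1 h
    obtain rfl := nt_inj h1
    exact ⟨hi, nt_inj h2⟩
  · rintro ⟨hi, rfl⟩
    exact ⟨i, hi, rfl⟩

theorem sb_st {s t : List Bool} : Sb (st K s) (st K t) ↔ s <+: t := by
  constructor
  · intro h
    have h1 : ∀ i (hi : i < s.length), ∃ h' : i < t.length, s[i] = t[i] := by
      intro i hi
      obtain ⟨h2, h3⟩ := op_mem_st.1 (h _ (op_mem_st.2 ⟨hi, rfl⟩))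
      exact ⟨h2, toNat_inj h3⟩
    rw [List.prefix_iff_getElem?]
    intro i hi
    obtain ⟨h2, h3⟩ := h1 i hi
    rw [List.getElem?_eq_some_iff]
    exact ⟨h2, h3.symm⟩
  · intro h x hx
    obtain ⟨i, hi, rfl⟩ := mem_st.1 hx
    refine op_mem_st.2 ⟨lt_of_lt_of_le hi h.length_le, ?_⟩
    rw [h.getElem hi]

theorem st_inj {s t : List Bool} (h : st K s = st K t) : s = t := by
  have h1 : s <+: t := (sb_st (K := K)).1 (by rw [h]; exact Sb.refl _)
  have h2 : t <+: s := (sb_st (K := K)).1 (by rw [h]; exact Sb.refl _)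
  exact h1.eq_of_length_le h2.length_le

theorem mem_two {x : K} : x ∈ nt K 2 ↔ x = nt K 0 ∨ x = nt K 1 := by
  rw [mem_nt]
  constructor
  · rintro ⟨m, hm, rfl⟩
    rcases Nat.lt_succ_iff_lt_or_eq.1 hm with h | rfl
    · have : m = 0 := by omega
      exact Or.inl (by rw [this])
    · exact Or.inr rfl
  · rintro (rfl | rfl)
    · exact ⟨0, by omega, rfl⟩
    · exact ⟨1, by omega, rfl⟩

theorem isTwo_iff {t : K} : IsTwo t ↔ t = nt K 2 := by
  constructor
  · rintro ⟨z, e, hz, he, ht⟩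
    have h0 : z = nt K 0 := ext' fun w =>
      ⟨fun h => (hz w h).elim, fun h => (not_mem_em w h).elim⟩
    have h1 : e = nt K 1 := by
      refine ext' fun w => ?_
      rw [he, h0, mem_nt]
      constructor
      · rintro rfl
        exact ⟨0, by omega, rfl⟩
      · rintro ⟨m, hm, rfl⟩
        have : m = 0 := by omega
        rw [this]
    refine ext' fun w => ?_
    rw [ht, h0, h1, mem_two]
  · rintro rfl
    refine ⟨nt K 0, nt K 1, not_mem_em, fun w => ?_, fun w => mem_two⟩
    rw [mem_nt]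
    constructor
    · rintro ⟨m, hm, rfl⟩
      have : m = 0 := by omega
      rw [this]
    · rintro rfl
      exact ⟨0, by omega, rfl⟩

theorem isCantor_iff {c κ : K} : IsCantor c κ ↔ c = fs κ (nt K 2) := by
  constructor
  · rintro ⟨t, ht, h⟩
    rw [isTwo_iff] at ht
    subst ht
    exact ext' fun f => by rw [h f, isMap_iff]
  · rintro rfl
    exact ⟨nt K 2, isTwo_iff.2 rfl, fun f => isMap_iff.symm⟩

/-- The values of a function on a set of natural numbers. -/
theorem fs_val {a b x : K} (hx : x ∈ fs a b) {n i : K} (hn : n ∈ a) : op n i ∈ x ↔ ap x n = i :=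
  (mem_fs.1 hx).1.op_mem_iff hn

theorem fs_dom {a b x : K} (hx : x ∈ fs a b) {n i : K} (h : op n i ∈ x) : n ∈ a ∧ i ∈ b := by
  obtain ⟨n', hn, y, h1⟩ := (mem_fs.1 hx).1.1 _ h
  obtain ⟨rfl, rfl⟩ := op_inj.1 h1
  refine ⟨hn, ?_⟩
  rw [fs_val hx hn] at h
  rw [← h]
  exact (mem_fs.1 hx).2 _ hn

/-- The elements of `2^m`. -/
theorem mem_fs_nt {m : ℕ} {x : K} :
    x ∈ fs (nt K m) (nt K 2) ↔ ∃ s : List Bool, s.length = m ∧ x = st K s := by
  classical
  constructor
  · intro hx
    refine ⟨List.ofFn fun i : Fin m => decide (ap x (nt K i) = nt K 1), List.length_ofFn, ?_⟩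
    have hval : ∀ i < m, ap x (nt K i) = nt K (decide (ap x (nt K i) = nt K 1)).toNat := by
      intro i hi
      rcases mem_two.1 ((mem_fs.1 hx).2 _ (nt_mem_nt.2 hi)) with h | h
      · have h1 : ¬ ap x (nt K i) = nt K 1 := by
          rw [h]
          intro h2
          exact absurd (nt_inj h2) (by omega)
        rw [decide_eq_false h1]
        exact h
      · rw [decide_eq_true h]
        exact h
    refine ext' fun z => ?_
    rw [(mem_fs.1 hx).1.mem_iff, mem_st]
    constructor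
    · rintro ⟨y, hy, rfl⟩
      obtain ⟨i, hi, rfl⟩ := mem_nt.1 hy
      refine ⟨i, by rwa [List.length_ofFn], ?_⟩
      rw [List.getElem_ofFn]
      rw [← hval i hi]
    · rintro ⟨i, hi, rfl⟩
      have hi' : i < m := by rwa [List.length_ofFn] at hi
      refine ⟨nt K i, nt_mem_nt.2 hi', ?_⟩
      rw [List.getElem_ofFn]
      rw [← hval i hi']
  · rintro ⟨s, rfl, rfl⟩
    have hfn : Fn (st K s) (nt K s.length) := by
      constructor
      · intro z hz
        obtain ⟨i, hi, rfl⟩ := mem_st.1 hz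
        exact ⟨nt K i, nt_mem_nt.2 hi, _, rfl⟩
      · intro x hx
        obtain ⟨i, hi, rfl⟩ := mem_nt.1 hx
        refine ⟨nt K s[i].toNat, mem_st.2 ⟨i, hi, rfl⟩, fun y hy => ?_⟩
        obtain ⟨i', hi', h⟩ := mem_st.1 hy
        obtain ⟨h1, rfl⟩ := op_inj.1 h
        obtain rfl := nt_inj h1
        rfl
    refine mem_fs.2 ⟨hfn, fun x hx => ?_⟩
    obtain ⟨i, hi, rfl⟩ := mem_nt.1 hx
    rw [(hfn.op_mem_iff hx).1 (mem_st.2 ⟨i, hi, rfl⟩)]
    refine nt_mem_nt.2 ?_
    cases s[i] <;> simp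

end

/-! ### Functions which commute with the finite operations -/

/-- `f` commutes with the finite operations: this holds for `j` and for `x ↦ val (ck one x)`. -/
structure FinHom {K K' : Type 1} [Membership K K] [IsZFC K] [Membership K' K'] [IsZFC K']
    (f : K → K') : Prop where
  em : f SigB.em = SigB.em
  pr : ∀ x y, f (SigB.pr x y) = SigB.pr (f x) (f y)
  un : ∀ x y, f (SigB.un x y) = SigB.un (f x) (f y)

section

variable {K K' : Type 1} [Membership K K] [IsZFC K] [Membership K' K'] [IsZFC K'] {f : K → K'}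

theorem FinHom.op (h : FinHom f) (x y : K) : f (SigB.op x y) = SigB.op (f x) (f y) := by
  unfold SigB.op
  rw [h.pr, h.pr, h.pr]

theorem FinHom.nt (h : FinHom f) (n : ℕ) : f (GPA.nt K n) = GPA.nt K' n := by
  induction n with
  | zero => exact h.em
  | succ n ih =>
    have h1 : GPA.nt K (n + 1) = SigB.un (GPA.nt K n) (SigB.pr (GPA.nt K n) (GPA.nt K n)) := rfl
    have h2 : GPA.nt K' (n + 1) =
        SigB.un (GPA.nt K' n) (SigB.pr (GPA.nt K' n) (GPA.nt K' n)) := rfl
    rw [h1, h2, h.un, h.pr, ih]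

theorem FinHom.fin (h : FinHom f) (l : List K) : f (GPA.fin l) = GPA.fin (l.map f) := by
  induction l with
  | nil => exact h.em
  | cons a l ih =>
    have h1 : GPA.fin (a :: l) = SigB.un (SigB.pr a a) (GPA.fin l) := rfl
    have h2 : GPA.fin ((a :: l).map f) = SigB.un (SigB.pr (f a) (f a)) (GPA.fin (l.map f)) := rfl
    rw [h1, h2, h.un, h.pr, ih]

theorem FinHom.st (h : FinHom f) (s : List Bool) : f (GPA.st K s) = GPA.st K' s := by
  unfold GPA.st
  rw [h.fin, List.map_map]
  congr 1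
  refine List.map_congr_left fun a _ => ?_
  rw [Function.comp_apply, h.op, h.nt, h.nt]

end

theorem ElSub.finHom {M : Type 1} [Membership M M] [IsZFC M] {j : M → V} (h : ElSub M j) :
    FinHom j := ⟨h.em, h.pr, h.un⟩

theorem om_V : Om V := by
  intro x hx
  have h1 : x ∈ ZFSet.sep (fun x => ∃ n, x = nt V n) (om : V) := by
    refine mem_om.1 hx _ ⟨ZFSet.mem_sep.2 ⟨em_mem_om, 0, rfl⟩, fun y hy => ?_⟩
    obtain ⟨h1, n, rfl⟩ := ZFSet.mem_sep.1 hy
    exact ZFSet.mem_sep.2 ⟨sc_mem_om h1, n + 1, rfl⟩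
  exact (ZFSet.mem_sep.1 h1).2

theorem ElSub.om_M {M : Type 1} [Membership M M] [IsZFC M] {j : M → V} (h : ElSub M j) : Om M := by
  intro x hx
  have h1 : j x ∈ (SigB.om : V) := by
    rw [← h.om]
    exact h.mem.2 hx
  obtain ⟨n, hn⟩ := om_V _ h1
  exact ⟨n, h.inj (by rw [hn, h.finHom.nt])⟩

/-! ### Reals of a model with standard natural numbers -/

section

variable {K : Type 1} [Membership K K] [IsZFC K]

open Classical in
/-- The element `x` of `ω^ω` as a function; `0` where the value is not a number. -/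
noncomputable def ext (x : K) (n : ℕ) : ℕ :=
  if h : ∃ i, op (nt K n) (nt K i) ∈ x then h.choose else 0

theorem ext_eq (h : Om K) {x : K} (hx : x ∈ fs (om : K) om) {n i : ℕ} :
    ext x n = i ↔ op (nt K n) (nt K i) ∈ x := by
  obtain ⟨k, hk⟩ := h _ ((mem_fs.1 hx).2 _ (nt_mem_om n))
  have h1 : ∃ i, op (nt K n) (nt K i) ∈ x := ⟨k, (fs_val hx (nt_mem_om n)).2 hk⟩
  have h2 : ext x n = h1.choose := by
    unfold ext
    rw [dif_pos h1]
  rw [h2]
  constructor
  · rintro rfl
    exact h1.choose_spec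
  · intro h3
    have h4 := h1.choose_spec
    rw [fs_val hx (nt_mem_om n)] at h3 h4
    exact nt_inj (h4.symm.trans h3)

/-- The values of an element of `ω^ω`. -/
theorem ap_ext (h : Om K) {x : K} (hx : x ∈ fs (om : K) om) (n : ℕ) :
    ap x (nt K n) = nt K (ext x n) :=
  (fs_val hx (nt_mem_om n)).1 ((ext_eq h hx).1 rfl)

theorem fs_ext (h : Om K) {x y : K} (hx : x ∈ fs (om : K) om) (hy : y ∈ fs (om : K) om)
    (hxy : ∀ n, ext x n = ext y n) : x = y := by
  refine (mem_fs.1 hx).1.ext (mem_fs.1 hy).1 fun z hz => ?_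
  obtain ⟨n, rfl⟩ := h z hz
  rw [ap_ext h hx, ap_ext h hy, hxy]

theorem fs_two_sb : Sb (fs (om : K) (nt K 2)) (fs (om : K) om) := by
  intro x hx
  rw [mem_fs] at hx ⊢
  exact ⟨hx.1, fun z hz => om_ord.trans (hx.2 z hz) (nt_mem_om 2)⟩

open Classical in
/-- The element `x` of `2^ω` as a function. -/
noncomputable def ext2 (x : K) (n : ℕ) : Bool := decide (op (nt K n) (nt K 1) ∈ x)

/-- The values of an element of `2^ω`. -/
theorem ap_ext2 {x : K} (hx : x ∈ fs (om : K) (nt K 2)) (n : ℕ) :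
    ap x (nt K n) = nt K (ext2 x n).toNat := by
  classical
  unfold ext2
  rcases mem_two.1 ((mem_fs.1 hx).2 _ (nt_mem_om n)) with h | h
  · have h1 : ¬ op (nt K n) (nt K 1) ∈ x := by
      rw [fs_val hx (nt_mem_om n), h]
      intro h2
      exact absurd (nt_inj h2) (by omega)
    rw [decide_eq_false h1]
    exact h
  · rw [decide_eq_true ((fs_val hx (nt_mem_om n)).2 h)]
    exact h

theorem fs_ext2 (h : Om K) {x y : K} (hx : x ∈ fs (om : K) (nt K 2)) (hy : y ∈ fs (om : K) (nt K 2))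
    (hxy : ∀ n, ext2 x n = ext2 y n) : x = y := by
  refine (mem_fs.1 hx).1.ext (mem_fs.1 hy).1 fun z hz => ?_
  obtain ⟨n, rfl⟩ := h z hz
  rw [ap_ext2 hx, ap_ext2 hy, hxy]

theorem lePt_iff (h : Om K) {x y : K} (hx : x ∈ fs (om : K) om) (hy : y ∈ fs (om : K) om) :
    LePt x y ↔ ∀ n, ext x n ≤ ext y n := by
  unfold LePt
  constructor
  · intro h1 n
    have h2 := h1 (nt K n) (nt K (ext x n)) (nt K (ext y n)) (val_iff.2 ((ext_eq h hx).1 rfl))
      (val_iff.2 ((ext_eq h hy).1 rfl))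
    exact sb_nt.1 h2
  · intro h1 n i i' hi hi'
    rw [val_iff] at hi hi'
    obtain ⟨n, rfl⟩ := h n (fs_dom hx hi).1
    rw [fs_val hx (nt_mem_om n), ap_ext h hx] at hi
    rw [fs_val hy (nt_mem_om n), ap_ext h hy] at hi'
    rw [← hi, ← hi']
    exact sb_nt.2 (h1 n)

theorem sb_st_iff (h : Om K) {s : List Bool} {y : K} (hy : y ∈ fs (om : K) (nt K 2)) :
    Sb (st K s) y ↔ s = ini (ext2 y) s.length := by
  have h1 : ∀ i (hi : i < s.length), op (nt K i) (nt K s[i].toNat) ∈ y ↔ s[i] = ext2 y i := by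
    intro i hi
    rw [fs_val hy (nt_mem_om i), ap_ext2 hy]
    constructor
    · intro h2
      exact (toNat_inj (nt_inj h2)).symm
    · intro h2
      rw [h2]
  have h2 : s = ini (ext2 y) s.length ↔ ∀ i (hi : i < s.length), s[i] = ext2 y i := by
    unfold ini
    constructor
    · intro h2 i hi
      have h3 : s[i] = (List.ofFn fun i : Fin s.length => ext2 y i)[i]'(by
          rw [List.length_ofFn]; exact hi) := by
        congr 1
      rw [h3, List.getElem_ofFn]
    · intro h2
      refine List.ext_getElem (by rw [List.length_ofFn]) fun i hi hi' => ?_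
      rw [List.getElem_ofFn, h2 i hi]
  rw [h2]
  constructor
  · intro h3 i hi
    exact (h1 i hi).1 (h3 _ (mem_st.2 ⟨i, hi, rfl⟩))
  · intro h3 x hx
    obtain ⟨i, hi, rfl⟩ := mem_st.1 hx
    exact (h1 i hi).2 (h3 i hi)

end

end Pool.Agent.GPA
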