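import Pool.Agent.GPA.MName

/-!
# Block M, part 7: every real of the extension has a measurable name
-/

set_option linter.unusedSectionVars false

namespace Pool.Agent.GPA

open Pool.Agent.SigB Pool.Agent.Frc Pool.Agent.Forc

/-- Reading of a subset of a countable set: `T` is a name for the set of all `i` with
`(i, t) ∈ T` for some `t` in the generic filter. -/
theorem Frame.read_sub (F : Frame) {I : Type} [Countable I] (T : Set (I × F.Q)) (q₀ : F.Q) :
    ∃ r ≤ q₀, ∃ f : NI F I, ∀ s ≤ r, ∀ i,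
      ((∃ t, s ≤ t ∧ (i, t) ∈ T) → F.Forces s {z | f.1 z i = true}) ∧
      ((∀ r' ≤ s, ∀ t, r' ≤ t → (i, t) ∉ T) → F.Forces s {z | f.1 z i = false}) := by
  classical
  rcases isEmpty_or_nonempty I with hI | hI
  · exact ⟨q₀, le_rfl, ⟨fun _ i => (hI.false i).elim, measurable_pi_iff.2 fun i => (hI.false i).elim⟩,
      fun s _ i => (hI.false i).elim⟩
  obtain ⟨e, he⟩ := exists_surjective_nat I
  let g : I → ℕ := Function.surjInv he
  have hg : ∀ i, e (g i) = i := Function.surjInv_eq he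
  let S : ℕ → ℕ → Set F.Q := fun n k =>
    {s | (k = 1 ∧ ∃ t, s ≤ t ∧ (e n, t) ∈ T) ∨ (k = 0 ∧ ∀ r' ≤ s, ∀ t, r' ≤ t → (e n, t) ∉ T)}
  obtain ⟨r, hr, f, hf, hfS⟩ := F.read S q₀ (by
    intro n k s s' hs' hs
    rcases hs with ⟨hk, t, ht, htT⟩ | ⟨hk, h⟩
    · exact Or.inl ⟨hk, t, le_trans hs' ht, htT⟩
    · exact Or.inr ⟨hk, fun r' hr' => h r' (le_trans hr' hs')⟩) (by
    intro n i j hij s hs t ht r hrs hrt
    rcases hs with ⟨hi, t', ht', htT⟩ | ⟨hi, h⟩
    · rcases ht with ⟨hj, -⟩ | ⟨hj, h'⟩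
      · exact hij (hi.trans hj.symm)
      · exact h' r hrt t' (le_trans hrs ht') htT
    · rcases ht with ⟨hj, t', ht', htT⟩ | ⟨hj, -⟩
      · exact h r hrs t' (le_trans hrt ht') htT
      · exact hij (hi.trans hj.symm)) (by
    intro n q _
    by_cases h : ∀ r' ≤ q, ∀ t, r' ≤ t → (e n, t) ∉ T
    · exact ⟨q, le_rfl, 0, Or.inr ⟨rfl, h⟩⟩
    · push Not at h
      obtain ⟨r', hr', t, ht, htT⟩ := h
      exact ⟨r', hr', 1, Or.inl ⟨rfl, t, ht, htT⟩⟩) q₀ le_rfl
  have hfi : ∀ n, Measurable fun z => f z n := fun n => measurable_pi_iff.1 hf n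
  refine ⟨r, hr, ⟨fun z i => decide (f z (g i) = 1), measurable_pi_iff.2 fun i =>
    (Measurable.of_discrete (f := fun k : ℕ => decide (k = 1))).comp (hfi (g i))⟩,
    fun s hs i => ⟨fun h => ?_, fun h => ?_⟩⟩
  · refine F.mono' (fun z hz => ?_) (hfS s hs (g i) 1 (Or.inl ⟨rfl, ?_⟩))
    · simpa using hz
    · rw [hg]
      exact h
  · refine F.mono' (fun z hz => ?_) (hfS s hs (g i) 0 (Or.inr ⟨rfl, ?_⟩))
    · have hz' : f z (g i) = 0 := hz
      simp [hz']
    · rw [hg]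
      exact h

/-- `f` is a reading of `T` below `r`. -/
def IsRd (F : Frame) {I : Type} (T : Set (I × F.Q)) (r : F.Q) (f : NI F I) : Prop :=
  ∀ s ≤ r, ∀ i,
      ((∃ t, s ≤ t ∧ (i, t) ∈ T) → F.Forces s {z | f.1 z i = true}) ∧
      ((∀ r' ≤ s, ∀ t, r' ≤ t → (i, t) ∉ T) → F.Forces s {z | f.1 z i = false})

section

variable {F : Frame} {M N : Type 1} [Membership M M] [IsZFC M] [Membership N N] [IsZFC N]
  {g : Gn F M N}

variable (F) in
/-- The parameters for reading subsets of `I` (the writer adds what is needed). -/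
noncomputable def parRd (I : Type) [Cod I] : List V :=
  [cd (Set.univ : Set I),
    cd {w : (Set (I × F.Q) × F.Q) × NI F I | IsRd F w.1.1 w.1.2 w.2},
    cd {w : Set (I × F.Q) × F.Q | ∃ f, IsRd F w.1 w.2 f},
    cd {w : (Set (I × F.Q) × I) × F.Q | (∃ t, w.2 ≤ t ∧ (w.1.2, t) ∈ w.1.1) ∨
      ∀ r' ≤ w.2, ∀ t, r' ≤ t → (w.1.2, t) ∉ w.1.1},
    cd {w : ((Set (I × F.Q) × I) × F.Q) × F.Q | w.1.2 ≤ w.2 ∧ (w.1.1.2, w.2) ∈ w.1.1.1}]

theorem Gn.inM_HC {I : Type} [Cod I] [HC I] (i : I) :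
    g.j (HC.c M i) = cd i ∧ g.cp (HC.c M i) = HC.c N i :=
  ⟨(HC.hom g.sub.finHom i).trans (HC.cV i), HC.hom g.finHom i⟩

/-- Subsets of `I` in the extension have measurable names. -/
theorem Gn.read_nice {I : Type} [Cod I] [HC I] [Countable I] (hp : g.Has (parRd F I)) (y : N) :
    ∃ f : NI F I, InM g.j f ∧ ∀ i, (HC.c N i ∈ y ↔ g.Tr {z | f.1 z i = true}) ∧
      (HC.c N i ∉ y ↔ g.Tr {z | f.1 z i = false}) := by
  obtain ⟨a, ha⟩ : InM g.j (Set.univ : Set I) := hp _ (by simp [parRd])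
  have hp2 : InM g.j {w : (Set (I × F.Q) × F.Q) × NI F I | IsRd F w.1.1 w.1.2 w.2} :=
    hp _ (by simp [parRd])
  have hp3 : InM g.j {w : Set (I × F.Q) × F.Q | ∃ f, IsRd F w.1 w.2 f} := hp _ (by simp [parRd])
  have hp4 : InM g.j {w : (Set (I × F.Q) × I) × F.Q | (∃ t, w.2 ≤ t ∧ (w.1.2, t) ∈ w.1.1) ∨
      ∀ r' ≤ w.2, ∀ t, r' ≤ t → (w.1.2, t) ∉ w.1.1} := hp _ (by simp [parRd])
  have hp5 : InM g.j {w : ((Set (I × F.Q) × I) × F.Q) × F.Q | w.1.2 ≤ w.2 ∧
      (w.1.1.2, w.2) ∈ w.1.1.1} := hp _ (by simp [parRd])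
  obtain ⟨S, hS, hSy⟩ := g.ex.nice a y
  -- the name as a set of pairs
  have hSsub : ∀ x, x ∈ g.j S → ∃ w : I × F.Q, x = cd w := by
    intro x hx
    have h1 : ∀ x, x ∈ g.j S → ∃ u v, u ∈ g.j a ∧ v ∈ g.j g.P ∧ IsOrdPair x u v := by
      refine (g.sub.el3 (P₀ := fun S a P => ∀ x, x ∈ S → ∃ u v, u ∈ a ∧ v ∈ P ∧ IsOrdPair x u v)
        (P := fun S a P => ∀ x, x ∈ S → ∃ u v, u ∈ a ∧ v ∈ P ∧ IsOrdPair x u v)
        (by simp (maxDischargeDepth := 50)) S a g.P).1 fun x hx => ?_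
      obtain ⟨u, hu, v, hv, rfl⟩ := mem_pd.1 (hS x hx)
      exact ⟨u, v, hu, hv, isOrdPair_iff.2 rfl⟩
    obtain ⟨u, v, hu, hv, hxuv⟩ := h1 x hx
    rw [ha] at hu
    rw [g.jP] at hv
    obtain ⟨i, -, rfl⟩ := mem_cd_set.1 hu
    obtain ⟨q, -, rfl⟩ := mem_cd_set.1 hv
    exact ⟨(i, q), isOrdPair_iff.1 hxuv⟩
  let T : Set (I × F.Q) := {w | cd w ∈ g.j S}
  have hT : InM g.j T := inM_of_mem g.sub hSsub
  -- a reading of the name
  have hD : InM g.j {r : F.Q | ∃ f, IsRd F T r f} := inM_sec' g.sub hp3 hT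
  obtain ⟨r, -, hr, hrD⟩ := Gn.gen hD Gn.top_GQ fun q _ => by
    obtain ⟨r, hr, f, hf⟩ := F.read_sub T q
    exact ⟨r, hr, f, hf⟩
  obtain ⟨f, hf, hfr⟩ := inM_wit g.sub hp2 ((inM_pair g.sub).2 ⟨hT, Gn.inM_of_GQ hr⟩) hrD
  have hfr' : IsRd F T r f := hfr
  -- membership
  have hmem : ∀ i : I, HC.c N i ∈ y ↔ ∃ q : F.Q, g.GQ q ∧ (i, q) ∈ T := by
    intro i
    obtain ⟨h1, h2⟩ := Gn.inM_HC (g := g) i
    have h3 : HC.c M i ∈ a := by
      rw [← g.sub.mem, h1, ha]
      exact cd_mem_cd.2 trivial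
    have h4 := hSy _ h3
    have h5 : g.val (ck g.one (HC.c M i)) = HC.c N i := h2
    rw [h5] at h4
    rw [h4]
    have h6 : ∀ (p : M) (q : F.Q), g.j p = cd q → (SigB.op (HC.c M i) p ∈ S ↔ (i, q) ∈ T) := by
      intro p q hpq
      rw [← g.sub.mem, g.sub.op, h1, hpq]
      exact Iff.rfl
    constructor
    · rintro ⟨p, hp, hpS⟩
      obtain ⟨q, hq, hqG⟩ := Gn.exists_of_G hp
      exact ⟨q, hqG, (h6 p q hq).1 hpS⟩
    · rintro ⟨q, ⟨p, hpq, hp⟩, hqT⟩
      exact ⟨p, hp, (h6 p q hpq).2 hqT⟩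
  -- the two implications
  have h1 : ∀ i : I, HC.c N i ∈ y → g.Tr {z | f.1 z i = true} := by
    intro i hi
    obtain ⟨q, hq, hqT⟩ := (hmem i).1 hi
    obtain ⟨s, hs, hsr, hsq⟩ := Gn.GQ_dir hr hq
    exact ⟨s, hs, (hfr' s hsr i).1 ⟨q, hsq, hqT⟩⟩
  have h2 : ∀ i : I, HC.c N i ∉ y → g.Tr {z | f.1 z i = false} := by
    intro i hi
    have hi' : InM g.j i := ⟨_, (Gn.inM_HC (g := g) i).1⟩
    have hD' := inM_sec' g.sub hp4 ((inM_pair g.sub).2 ⟨hT, hi'⟩)
    obtain ⟨s, hsr, hs, hsD⟩ := Gn.gen hD' hr fun q _ => by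
      by_cases h : ∀ r' ≤ q, ∀ t, r' ≤ t → (i, t) ∉ T
      · exact ⟨q, le_rfl, Or.inr h⟩
      · push Not at h
        obtain ⟨r', hr', t, ht, htT⟩ := h
        exact ⟨r', hr', Or.inl ⟨t, ht, htT⟩⟩
    rcases hsD with h | h
    · exfalso
      obtain ⟨t, ht, htr⟩ := inM_wit g.sub hp5
        ((inM_pair g.sub).2 ⟨(inM_pair g.sub).2 ⟨hT, hi'⟩, Gn.inM_of_GQ hs⟩) h
      have htr' : s ≤ t ∧ (i, t) ∈ T := htr
      exact hi ((hmem i).2 ⟨t, Gn.GQ_up hs ht htr'.1, htr'.2⟩)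
    · exact ⟨s, hs, (hfr' s hsr i).2 h⟩
  have h3 : ∀ i : I, g.Tr {z | f.1 z i = true} → g.Tr {z | f.1 z i = false} → False := by
    intro i ht hf'
    obtain ⟨z, hz1, hz2⟩ := (ht.inter hf').nonempty
    have hz1' : f.1 z i = true := hz1
    have hz2' : f.1 z i = false := hz2
    rw [hz1'] at hz2'
    exact Bool.noConfusion hz2'
  refine ⟨f, hf, fun i => ⟨⟨h1 i, fun h => ?_⟩, ⟨h2 i, fun h hi => h3 i (h1 i hi) h⟩⟩⟩
  by_contra hi
  exact h3 i h (h2 i hi)

open Classical in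
/-- The function given by a name of a subset of `ω × ω`: the least `i` with `(n, i)` in the set. -/
noncomputable def toNF {F : Frame} (f : NI F (ℕ × ℕ)) (z : F.Z) (n : ℕ) : ℕ :=
  if h : ∃ i, f.1 z (n, i) = true then Nat.find h else 0

theorem measurable_toNF (f : NI F (ℕ × ℕ)) : Measurable (toNF f) := by
  classical
  have hc : ∀ n i, MeasurableSet {z | f.1 z (n, i) = true} := fun n i =>
    (measurable_pi_iff.1 f.2 (n, i)) (MeasurableSet.singleton true)
  refine measurable_pi_iff.2 fun n => measurable_to_countable' fun k => ?_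
  have hset : (fun z => toNF f z n) ⁻¹' {k} =
      ({z | f.1 z (n, k) = true} ∩ ⋂ i ∈ Finset.range k, {z | f.1 z (n, i) = true}ᶜ) ∪
        (if k = 0 then (⋂ i, {z | f.1 z (n, i) = true}ᶜ) else ∅) := by
    ext z
    simp only [Set.mem_preimage, Set.mem_singleton_iff, Set.mem_union, Set.mem_inter_iff,
      Set.mem_setOf_eq, Set.mem_iInter, Finset.mem_range, Set.mem_compl_iff]
    unfold toNF
    by_cases h : ∃ i, f.1 z (n, i) = true
    · rw [dif_pos h, Nat.find_eq_iff]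
      constructor
      · intro h1
        exact Or.inl ⟨h1.1, fun i hi => h1.2 i hi⟩
      · rintro (h1 | h1)
        · exact ⟨h1.1, fun i hi => h1.2 i hi⟩
        · exfalso
          obtain ⟨i, hi⟩ := h
          split_ifs at h1 with hk
          · exact (Set.mem_iInter.1 h1 i) hi
          · exact h1
    · rw [dif_neg h]
      push Not at h
      constructor
      · intro h1
        refine Or.inr ?_
        rw [if_pos h1.symm]
        exact Set.mem_iInter.2 fun i => h i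
      · rintro (h1 | h1)
        · exact absurd h1.1 (h k)
        · split_ifs at h1 with hk
          · exact hk.symm
          · exact h1.elim
  rw [hset]
  refine MeasurableSet.union ((hc n k).inter (Finset.measurableSet_biInter _ fun i _ =>
    (hc n i).compl)) ?_
  split_ifs
  · exact MeasurableSet.iInter fun i => (hc n i).compl
  · exact MeasurableSet.empty

/-- the set where the name gives a null code -/
def ncE (F : Frame) (f : NI F (ℕ × List Bool)) (i : ℕ × ℕ) : Set F.Z :=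
  {z | {t : List.Vector Bool i.2 | ∃ s : List Bool, f.1 z (i.1, s) = true ∧ s <+: t.1}.ncard *
    2 ^ i.1 ≤ 2 ^ i.2}

theorem measurableSet_ncE (f : NI F (ℕ × List Bool)) (i : ℕ × ℕ) : MeasurableSet (ncE F f i) := by
  classical
  have hc : ∀ s, MeasurableSet {z | f.1 z (i.1, s) = true} := fun s =>
    (measurable_pi_iff.1 f.2 (i.1, s)) (MeasurableSet.singleton true)
  have h1 : ∀ t : List.Vector Bool i.2,
      MeasurableSet {z | ∃ s : List Bool, f.1 z (i.1, s) = true ∧ s <+: t.1} := by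
    intro t
    have h2 : {z | ∃ s : List Bool, f.1 z (i.1, s) = true ∧ s <+: t.1} =
        ⋃ s : List Bool, {z | f.1 z (i.1, s) = true} ∩ {_z | s <+: t.1} := by
      ext z
      simp
    rw [h2]
    exact MeasurableSet.iUnion fun s => (hc s).inter (MeasurableSet.const _)
  have h2 : ncE F f i = ⋃ A : {A : Set (List.Vector Bool i.2) // A.ncard * 2 ^ i.1 ≤ 2 ^ i.2},
      ⋂ t : List.Vector Bool i.2, {z | (∃ s : List Bool, f.1 z (i.1, s) = true ∧ s <+: t.1) ↔
        t ∈ A.1} := by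
    ext z
    simp only [ncE, Set.mem_setOf_eq, Set.mem_iUnion, Set.mem_iInter]
    constructor
    · intro h
      exact ⟨⟨_, h⟩, fun t => Iff.rfl⟩
    · rintro ⟨A, hA⟩
      have h3 : {t : List.Vector Bool i.2 | ∃ s : List Bool, f.1 z (i.1, s) = true ∧ s <+: t.1} =
          A.1 := Set.ext hA
      rw [h3]
      exact A.2
  rw [h2]
  refine MeasurableSet.iUnion fun A => MeasurableSet.iInter fun t => ?_
  by_cases ht : t ∈ A.1
  · simp only [ht, iff_true]
    exact h1 t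
  · simp only [ht, iff_false]
    exact (h1 t).compl

theorem iInter_ncE (f : NI F (ℕ × List Bool)) :
    ⋂ i, ncE F f i = {z | IsNullCode fun n s => f.1 z (n, s)} := by
  ext z
  simp only [ncE, IsNullCode, Set.mem_iInter, Set.mem_setOf_eq, Prod.forall]

variable (F) in
/-- The parameters of this file (the writer adds what is needed). -/
noncomputable def parRead : List V :=
  parName F ++ parRd F (ℕ × ℕ) ++ parRd F (ℕ × List Bool) ++
    [cd {w : NI F (ℕ × ℕ) × NF F | w.2.1 = toNF w.1},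
    cd {w : NI F (ℕ × ℕ) × NB F | ∀ z n, w.2.1 z n = w.1.1 z (n, 1)},
    cd {w : NI F (ℕ × List Bool) × NC F | ∀ z, IsNullCode (fun n s => w.1.1 z (n, s)) →
      ∀ n s, w.2.1 z n s = w.1.1 z (n, s)},
    cd {w : NI F (ℕ × List Bool) × F.Q | ∃ i, F.Forces w.2 (ncE F w.1 i)ᶜ},
    cd {w : NI F (ℕ × List Bool) × F.Q | w.2 ∈ decS F (⋂ i, ncE F w.1 i)}]

variable (hp : g.Has (parRead F))

include hp

theorem Gn.read_NF {y : N} (hy : y ∈ fs (om : N) om) : ∃ f : NF F, InM g.j f ∧ y = g.yF f := by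
  have hpN : g.Has (parName F) := fun a ha => hp a (by simp [parRead, ha])
  have hpR : g.Has (parRd F (ℕ × ℕ)) := fun a ha => hp a (by simp [parRead, ha])
  have hpF : InM g.j {w : NI F (ℕ × ℕ) × NF F | w.2.1 = toNF w.1} := hp _ (by simp [parRead])
  obtain ⟨f₀, hf₀, hf⟩ := Gn.read_nice hpR y
  obtain ⟨f, hfM, hfe⟩ := inM_wit g.sub hpF hf₀ ⟨⟨toNF f₀, measurable_toNF f₀⟩, rfl⟩
  have hfe' : f.1 = toNF f₀ := hfe
  refine ⟨f, hfM, fs_ext g.om_N hy (Gn.yF_mem hpN hfM) fun n => ?_⟩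
  symm
  rw [Gn.ext_yF hpN hfM]
  have hc : ∀ i, HC.c N (n, i) = SigB.op (nt N n) (nt N i) := fun i => rfl
  have h1 : g.Tr {z | f₀.1 z (n, ext y n) = true} :=
    (hf (n, ext y n)).1.1 (by rw [hc]; exact (ext_eq g.om_N hy).1 rfl)
  have h2 : g.Tr (⋂ i : Fin (ext y n), {z | f₀.1 z (n, i.1) = false}) := by
    refine Gn.tr_fin fun i => (hf (n, i.1)).2.1 ?_
    rw [hc]
    intro h3
    have h4 := (ext_eq g.om_N hy).2 h3
    have h5 := i.2
    omega
  refine (h1.inter h2).mono fun z hz => ?_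
  show f.1 z n = ext y n
  rw [hfe']
  unfold toNF
  have hz1 : f₀.1 z (n, ext y n) = true := hz.1
  have hz2 : ∀ i < ext y n, f₀.1 z (n, i) = false := fun i hi =>
    Set.mem_iInter.1 hz.2 ⟨i, hi⟩
  rw [dif_pos ⟨_, hz1⟩, Nat.find_eq_iff]
  exact ⟨hz1, fun i hi h => by rw [hz2 i hi] at h; exact Bool.noConfusion h⟩

theorem Gn.read_NB {y : N} (hy : y ∈ fs (om : N) (nt N 2)) :
    ∃ f : NB F, InM g.j f ∧ y = g.xB f := by
  have hpN : g.Has (parName F) := fun a ha => hp a (by simp [parRead, ha])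
  have hpR : g.Has (parRd F (ℕ × ℕ)) := fun a ha => hp a (by simp [parRead, ha])
  have hpF : InM g.j {w : NI F (ℕ × ℕ) × NB F | ∀ z n, w.2.1 z n = w.1.1 z (n, 1)} :=
    hp _ (by simp [parRead])
  obtain ⟨f₀, hf₀, hf⟩ := Gn.read_nice hpR y
  obtain ⟨f, hfM, hfe⟩ := inM_wit g.sub hpF hf₀ ⟨⟨fun z n => f₀.1 z (n, 1),
    measurable_pi_iff.2 fun n => measurable_pi_iff.1 f₀.2 (n, 1)⟩, fun _ _ => rfl⟩
  have hfe' : ∀ z n, f.1 z n = f₀.1 z (n, 1) := hfe
  refine ⟨f, hfM, fs_ext2 g.om_N hy (Gn.xB_mem hpN hfM) fun n => ?_⟩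
  symm
  rw [Gn.ext2_xB hpN hfM]
  have hc : HC.c N (n, 1) = SigB.op (nt N n) (nt N 1) := rfl
  simp only [hfe']
  by_cases h : SigB.op (nt N n) (nt N 1) ∈ y
  · have h1 : ext2 y n = true := by simp [ext2, h]
    rw [h1]
    exact (hf (n, 1)).1.1 (by rw [hc]; exact h)
  · have h1 : ext2 y n = false := by simp [ext2, h]
    rw [h1]
    exact (hf (n, 1)).2.1 (by rw [hc]; exact h)

theorem Gn.read_NC {u : N} (hu : IsNullCode (exC u)) :
    ∃ c : NC F, InM g.j c ∧ ∀ n s, exC (g.uC c) n s = exC u n s := by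
  classical
  have hpN : g.Has (parName F) := fun a ha => hp a (by simp [parRead, ha])
  have hpR : g.Has (parRd F (ℕ × List Bool)) := fun a ha => hp a (by simp [parRead, ha])
  have hpF : InM g.j {w : NI F (ℕ × List Bool) × NC F | ∀ z,
      IsNullCode (fun n s => w.1.1 z (n, s)) → ∀ n s, w.2.1 z n s = w.1.1 z (n, s)} :=
    hp _ (by simp [parRead])
  have hp4 : InM g.j {w : NI F (ℕ × List Bool) × F.Q | ∃ i, F.Forces w.2 (ncE F w.1 i)ᶜ} :=
    hp _ (by simp [parRead])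
  have hp5 : InM g.j {w : NI F (ℕ × List Bool) × F.Q | w.2 ∈ decS F (⋂ i, ncE F w.1 i)} :=
    hp _ (by simp [parRead])
  obtain ⟨f₀, hf₀, hf⟩ := Gn.read_nice hpR u
  have hmeas : MeasurableSet {z | IsNullCode fun n s => f₀.1 z (n, s)} := by
    rw [← iInter_ncE]
    exact MeasurableSet.iInter fun i => measurableSet_ncE f₀ i
  have hnull : IsNullCode fun (_ : ℕ) (_ : List Bool) => false := by
    intro n m
    simp
  obtain ⟨c, hcM, hce⟩ := inM_wit g.sub hpF hf₀ ⟨⟨fun z n s =>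
      if IsNullCode (fun n s => f₀.1 z (n, s)) then f₀.1 z (n, s) else false, by
        constructor
        · refine measurable_pi_iff.2 fun n => measurable_pi_iff.2 fun s => ?_
          exact Measurable.ite hmeas (measurable_pi_iff.1 f₀.2 (n, s)) measurable_const
        · intro z
          by_cases h : IsNullCode fun n s => f₀.1 z (n, s)
          · simp only [h, if_true]
          · simp only [h, if_false]
            exact hnull⟩, by
      intro z hz n s
      simp only [hz, if_true]⟩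
  have hce' : ∀ z, IsNullCode (fun n s => f₀.1 z (n, s)) → ∀ n s, c.1 z n s = f₀.1 z (n, s) := hce
  -- the reading agrees with the code
  have hread : ∀ n s, g.Tr {z | f₀.1 z (n, s) = exC u n s} := by
    intro n s
    have hc : HC.c N (n, s) = SigB.op (nt N n) (st N s) := rfl
    by_cases h : SigB.op (nt N n) (st N s) ∈ u
    · have h1 : exC u n s = true := by simp [exC, h]
      rw [h1]
      exact (hf (n, s)).1.1 (by rw [hc]; exact h)
    · have h1 : exC u n s = false := by simp [exC, h]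
      rw [h1]
      exact (hf (n, s)).2.1 (by rw [hc]; exact h)
  -- the generic point gives a null code
  have hE : g.Tr (⋂ i, ncE F f₀ i) := by
    refine (Gn.tr_iInter (fun i => measurableSet_ncE f₀ i) (inM_sec' g.sub hp4 hf₀)
      (inM_sec' g.sub hp5 hf₀)).2 fun i => ?_
    have h1 : g.Tr (⋂ s : {s : List Bool // s.length ≤ i.2}, {z | f₀.1 z (i.1, s.1) =
        exC u i.1 s.1}) := by
      have hfin : Finite {s : List Bool // s.length ≤ i.2} := by
        refine Finite.of_injective (β := Σ k : Fin (i.2 + 1), List.Vector Bool k.1)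
          (fun s => ⟨⟨s.1.length, Nat.lt_succ_of_le s.2⟩, ⟨s.1, rfl⟩⟩) ?_
        intro s t hst
        have h2 := congrArg (fun x : Σ k : Fin (i.2 + 1), List.Vector Bool k.1 => x.2.1) hst
        exact Subtype.ext h2
      exact Gn.tr_fin fun s => hread i.1 s.1
    refine h1.mono fun z hz => ?_
    have hz' : ∀ s : List Bool, s.length ≤ i.2 → f₀.1 z (i.1, s) = exC u i.1 s := fun s hs =>
      Set.mem_iInter.1 hz ⟨s, hs⟩
    have h2 : {t : List.Vector Bool i.2 | ∃ s : List Bool, f₀.1 z (i.1, s) = true ∧ s <+: t.1} =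
        {t : List.Vector Bool i.2 | ∃ s : List Bool, exC u i.1 s = true ∧ s <+: t.1} := by
      ext t
      refine exists_congr fun s => ?_
      constructor
      · rintro ⟨h3, h4⟩
        have h5 : s.length ≤ i.2 := h4.length_le.trans t.2.le
        exact ⟨by rw [← hz' s h5]; exact h3, h4⟩
      · rintro ⟨h3, h4⟩
        have h5 : s.length ≤ i.2 := h4.length_le.trans t.2.le
        exact ⟨by rw [hz' s h5]; exact h3, h4⟩
    show {t : List.Vector Bool i.2 | ∃ s : List Bool, f₀.1 z (i.1, s) = true ∧ s <+: t.1}.ncard *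
      2 ^ i.1 ≤ 2 ^ i.2
    rw [h2]
    exact hu i.1 i.2
  rw [iInter_ncE] at hE
  refine ⟨c, hcM, fun n s => ?_⟩
  rw [Gn.exC_uC hpN hcM]
  refine (hE.inter (hread n s)).mono fun z hz => ?_
  show c.1 z n s = exC u n s
  rw [hce' z hz.1]
  exact hz.2

end

end Pool.Agent.GPA
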