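import Pool.Agent.GPA.MNull

/-!
# Block G: infinite branches and lengths inside the model
-/

set_option linter.unusedSectionVars false

namespace Pool.Agent.GPA

open Pool.Agent.SigB Pool.Agent.Frc Pool.Agent.Forc

variable {N : Type 1} [Membership N N] [IsZFC N]

namespace PK

theorem op_mem_snoc {s : List Bool} {b : Bool} {x : N} :
    x ∈ st N (s ++ [b]) ↔ x ∈ st N s ∨ x = op (nt N s.length) (nt N b.toNat) := by
  rw [mem_st, mem_st]
  constructor
  · rintro ⟨i, hi, rfl⟩
    rw [List.length_append, List.length_singleton] at hi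
    rcases Nat.lt_succ_iff_lt_or_eq.1 hi with h1 | rfl
    · left
      exact ⟨i, h1, by rw [List.getElem_append_left h1]⟩
    · right
      rw [List.getElem_append_right (le_refl _)]
      simp
  · rintro (⟨i, hi, rfl⟩ | rfl)
    · exact ⟨i, by simp; omega, by rw [List.getElem_append_left hi]⟩
    · exact ⟨s.length, by simp, by rw [List.getElem_append_right (le_refl _)]; simp⟩

/-- A string with exactly one element more -/
theorem snoc_of {s t : List Bool} {i : N} (hi : i ∉ st N s) (h : st N t = un (st N s) (pr i i)) :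
    ∃ b, t = s ++ [b] := by
  have h1 : s <+: t := sb_st.1 fun x hx => by
    rw [h]; exact mem_un.2 (Or.inl hx)
  obtain ⟨l, rfl⟩ := h1
  have h2 : ∀ k (hk : k < l.length), op (nt N (s.length + k)) (nt N l[k].toNat) = i := by
    intro k hk
    have h3 : op (nt N (s.length + k)) (nt N l[k].toNat) ∈ st N (s ++ l) := by
      refine op_mem_st.2 ⟨by simp; omega, ?_⟩
      rw [List.getElem_append_right (by omega)]
      simp
    rw [h, mem_un, mem_pr, or_self] at h3
    rcases h3 with h3 | h3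
    · obtain ⟨h4, -⟩ := op_mem_st.1 h3
      omega
    · exact h3
  rcases l with _ | ⟨b, _ | ⟨b', l⟩⟩
  · exfalso
    apply hi
    have : i ∈ st N (s ++ []) := by rw [h]; exact mem_un.2 (Or.inr (mem_pr.2 (Or.inl rfl)))
    rwa [List.append_nil] at this
  · exact ⟨b, rfl⟩
  · exfalso
    have h3 := h2 0 (by simp)
    have h4 := h2 1 (by simp)
    rw [← h4] at h3
    have h5 := nt_inj (op_inj.1 h3).1
    omega

end PK

/-- A tree of strings which belongs to the model and has no end nodes has a branch in the model.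
(`om_recursion` with `G t = t ∪ {(dom t, 0)}` if this belongs to `T`, and `t ∪ {(dom t, 1)}`
otherwise; the branch is the union of the values.) -/
theorem exists_branch (hO : Om N) {T : N} (h0 : st N [] ∈ T)
    (hs : ∀ t : List Bool, st N t ∈ T → ∃ b, st N (t ++ [b]) ∈ T) :
    ∃ z, z ∈ fs (om : N) (nt N 2) ∧ ∀ k, st N (ini (ext2 z) k) ∈ T := by
  obtain ⟨c, hc, hcr⟩ := choice' (a := SigB.it T (str N)) (b := SigB.it T (str N))
    (P := fun x y => ∃ i, i ∉ x ∧ y = un x (pr i i))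
    (by simp (maxDischargeDepth := 50)) (fun x hx => by
      obtain ⟨hxT, hxs⟩ := mem_it.1 hx
      obtain ⟨s, rfl⟩ := (mem_str hO).1 hxs
      obtain ⟨b, hb⟩ := hs s hxT
      refine ⟨st N (s ++ [b]), mem_it.2 ⟨hb, (mem_str hO).2 ⟨_, rfl⟩⟩,
        op (nt N s.length) (nt N b.toNat), fun h1 => ?_, ext' fun y => ?_⟩
      · obtain ⟨h2, -⟩ := op_mem_st.1 h1
        exact lt_irrefl _ h2
      · rw [PK.op_mem_snoc, mem_un, mem_pr, or_self])
  obtain ⟨f, hf, hf0, hf1⟩ := om_recursion (st N []) (G := ap c) (by simp (maxDischargeDepth := 50))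
  have hmem : ∀ n : ℕ, ∃ s : List Bool, s.length = n ∧ ap f (nt N n) = st N s ∧ st N s ∈ T := by
    intro n
    induction n with
    | zero => exact ⟨[], rfl, hf0, h0⟩
    | succ n ih =>
      obtain ⟨s, hsn, hfs, hsT⟩ := ih
      have hS : st N s ∈ SigB.it T (str N) := mem_it.2 ⟨hsT, (mem_str hO).2 ⟨_, rfl⟩⟩
      obtain ⟨h1, h2⟩ := mem_it.1 ((mem_fs.1 hc).2 _ hS)
      obtain ⟨t, ht⟩ := (mem_str hO).1 h2
      obtain ⟨i, hi, hti⟩ := hcr _ hS
      rw [ht] at hti
      obtain ⟨b, rfl⟩ := PK.snoc_of hi hti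
      refine ⟨s ++ [b], by simp [hsn], ?_, by rw [← ht]; exact h1⟩
      show ap f (sc (nt N n)) = _
      rw [hf1 _ (nt_mem_om n), hfs, ht]
  choose s hsn hfs hsT using hmem
  have hpre : ∀ n, s n <+: s (n + 1) := by
    intro n
    have hS : st N (s n) ∈ SigB.it T (str N) := mem_it.2 ⟨hsT n, (mem_str hO).2 ⟨_, rfl⟩⟩
    obtain ⟨i, hi, hti⟩ := hcr _ hS
    have h1 : ap f (sc (nt N n)) = _ := hf1 _ (nt_mem_om n)
    rw [hfs n] at h1
    have h2 : ap f (sc (nt N n)) = st N (s (n + 1)) := hfs (n + 1)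
    rw [← h1, h2] at hti
    obtain ⟨b, hb⟩ := PK.snoc_of hi hti
    exact ⟨[b], hb.symm⟩
  have hpre' : ∀ n k, s n <+: s (n + k) := by
    intro n k
    induction k with
    | zero => exact List.prefix_rfl
    | succ k ih => exact ih.trans (hpre (n + k))
  have hval : ∀ n : ℕ, ap (ap f (sc (nt N n))) (nt N n) =
      nt N ((s (n + 1))[n]'(by rw [hsn]; omega)).toNat := by
    intro n
    have h2 : ap f (sc (nt N n)) = st N (s (n + 1)) := hfs (n + 1)
    rw [h2]
    have h3 : st N (s (n + 1)) ∈ fs (nt N (n + 1)) (nt N 2) := mem_fs_nt.2 ⟨_, hsn _, rfl⟩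
    refine (fs_val h3 (nt_mem_nt.2 (Nat.lt_succ_self n))).1 ?_
    exact op_mem_st.2 ⟨by rw [hsn]; omega, rfl⟩
  have hdt : DT (fun w : Fin 1 → N => ap (ap f (sc (w 0))) (w 0)) := by
    simp (maxDischargeDepth := 50)
  let z : N := lam (om : N) fun n => ap (ap f (sc n)) n
  have hz : z ∈ fs (om : N) (nt N 2) := lam_mem_fs hdt fun x hx => by
    obtain ⟨n, rfl⟩ := hO x hx
    rw [hval n]
    exact nt_mem_nt.2 (Bool.toNat_lt _)
  refine ⟨z, hz, fun k => ?_⟩
  have h1 : ∀ n, ext2 z n = (s (n + 1))[n]'(by rw [hsn]; omega) := by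
    intro n
    have h2 : ap z (nt N n) = _ := ap_ext2 hz n
    have h3 : ap z (nt N n) = ap (ap f (sc (nt N n))) (nt N n) := ap_lam hdt (nt_mem_om n)
    rw [h3, hval n] at h2
    exact (toNat_inj (nt_inj h2)).symm
  have h2 : ini (ext2 z) k = s k := by
    have h3 : (ini (ext2 z) k).length = k := by simp [ini]
    refine List.ext_getElem (by rw [h3, hsn]) fun i hi hi' => ?_
    have h4 : (ini (ext2 z) k)[i] = ext2 z i := by simp [ini]
    rw [h4, h1 i]
    rw [h3] at hi
    obtain ⟨j, hj⟩ : ∃ j, k = (i + 1) + j := ⟨k - (i + 1), by omega⟩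
    subst hj
    exact (hpre' (i + 1) j).getElem _
  rw [h2]
  exact hsT k

/-- The relation `|t| = 2|s| + c` between strings belongs to the model. -/
theorem exists_len (hO : Om N) (c : ℕ) :
    ∃ L : N, ∀ s t : List Bool, op (st N s) (st N t) ∈ L ↔ t.length = 2 * s.length + c := by
  obtain ⟨f, hf, hf0, hf1⟩ := om_recursion (nt N c) (G := fun x => sc (sc x))
    (by simp (maxDischargeDepth := 50))
  have hfn : ∀ n : ℕ, ap f (nt N n) = nt N (2 * n + c) := by
    intro n
    induction n with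
    | zero => rw [Nat.mul_zero, Nat.zero_add]; exact hf0
    | succ n ih =>
      show ap f (sc (nt N n)) = _
      rw [hf1 _ (nt_mem_om n), ih]
      have h1 : 2 * (n + 1) + c = (2 * n + c) + 1 + 1 := by ring
      rw [h1]
      rfl
  have hlen : ∀ (s : List Bool) (n : ℕ), st N s ∈ fs (nt N n) (nt N 2) ↔ s.length = n := by
    intro s n
    rw [mem_fs_nt]
    constructor
    · rintro ⟨t, ht, h1⟩
      rw [st_inj h1, ht]
    · exact fun h => ⟨s, h, rfl⟩
  refine ⟨sp (pd (str N) (str N)) fun w => ∃ s t, w = op s t ∧ ∃ n, n ∈ (om : N) ∧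
    s ∈ fs n (nt N 2) ∧ t ∈ fs (ap f n) (nt N 2), fun s t => ?_⟩
  rw [mem_sp (by simp (maxDischargeDepth := 50))]
  constructor
  · rintro ⟨-, s', t', he, n, hn, h1, h2⟩
    obtain ⟨rfl, rfl⟩ := op_inj.1 he
    obtain ⟨n, rfl⟩ := hO n hn
    rw [hlen] at h1
    rw [hfn, hlen] at h2
    rw [h1, h2]
  · intro h
    refine ⟨op_mem_pd.2 ⟨(mem_str hO).2 ⟨_, rfl⟩, (mem_str hO).2 ⟨_, rfl⟩⟩, _, _, rfl,
      nt N s.length, nt_mem_om _, (hlen _ _).2 rfl, ?_⟩
    rw [hfn, hlen]
    exact h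

end Pool.Agent.GPA
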