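import Pool.Agent.GPA.PolBase

/-!
# Block G: binary digits inside the model
-/

set_option linter.unusedSectionVars false

namespace Pool.Agent.GPA

open Pool.Agent.SigB Pool.Agent.Frc Pool.Agent.Forc

variable {N : Type 1} [Membership N N] [IsZFC N] {r : RealData N} {Y d m u : N} {v : N → ℝ}

/-- the left end point of the odd dyadic interval -/
noncomputable def PB.ll (r : RealData N) (c g p i j : N) : N :=
  ap r.mul (op (ap r.add (op (ap r.mul (op c (ap g j))) r.one)) (ap p (sc i)))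

/-- the right end point of the odd dyadic interval -/
noncomputable def PB.rr (r : RealData N) (c g p i j : N) : N :=
  ap r.mul (op (ap r.add (op (ap r.mul (op c (ap g j))) c)) (ap p (sc i)))

theorem PB.ll_spec (hv : RV r v) {c g p : N} (hc : c ∈ r.F) (hcv : v c = 2)
    (hg : g ∈ fs om r.F) (hgv : ∀ n : ℕ, v (ap g (nt N n)) = n)
    (hp : p ∈ fs om r.F) (hpv : ∀ n : ℕ, v (ap p (nt N n)) = (1 / 2) ^ n) (i j : ℕ) :
    PB.ll r c g p (nt N i) (nt N j) ∈ r.F ∧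
      v (PB.ll r c g p (nt N i) (nt N j)) = ((2 * j + 1 : ℕ) : ℝ) * (1 / 2) ^ (i + 1) := by
  have h1 : ap g (nt N j) ∈ r.F := ap_mem hg (nt_mem_om j)
  have h2 : ap p (sc (nt N i)) ∈ r.F := ap_mem hp (nt_mem_om (i + 1))
  have h2' : v (ap p (sc (nt N i))) = (1 / 2) ^ (i + 1) := hpv (i + 1)
  have h3 := hv.mul_mem hc h1
  have h4 := hv.add_mem h3 hv.oneM
  refine ⟨hv.mul_mem h4 h2, ?_⟩
  rw [PB.ll, hv.mul h4 h2, hv.add h3 hv.oneM, hv.mul hc h1, hcv, hgv, hv.one, h2']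
  push_cast
  ring

theorem PB.rr_spec (hv : RV r v) {c g p : N} (hc : c ∈ r.F) (hcv : v c = 2)
    (hg : g ∈ fs om r.F) (hgv : ∀ n : ℕ, v (ap g (nt N n)) = n)
    (hp : p ∈ fs om r.F) (hpv : ∀ n : ℕ, v (ap p (nt N n)) = (1 / 2) ^ n) (i j : ℕ) :
    PB.rr r c g p (nt N i) (nt N j) ∈ r.F ∧
      v (PB.rr r c g p (nt N i) (nt N j)) = ((2 * j + 2 : ℕ) : ℝ) * (1 / 2) ^ (i + 1) := by
  have h1 : ap g (nt N j) ∈ r.F := ap_mem hg (nt_mem_om j)
  have h2 : ap p (sc (nt N i)) ∈ r.F := ap_mem hp (nt_mem_om (i + 1))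
  have h2' : v (ap p (sc (nt N i))) = (1 / 2) ^ (i + 1) := hpv (i + 1)
  have h3 := hv.mul_mem hc h1
  have h4 := hv.add_mem h3 hc
  refine ⟨hv.mul_mem h4 h2, ?_⟩
  rw [PB.rr, hv.mul h4 h2, hv.add h3 hc, hv.mul hc h1, hcv, hgv, h2']
  push_cast
  ring

/-- The relation `0 ≤ x < 1` and `t` consists of the first binary digits of `x`, for strings `t`
and `x ∈ r.F`, belongs to the model (`digits`, `exists_nat`, `exists_pow`). -/
theorem exists_digits (hO : Om N) (hv : RV r v) :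
    ∃ D : N, ∀ (t : List Bool) (x : N), x ∈ r.F →
      (op (st N t) x ∈ D ↔ lo cm t ≤ v x ∧ v x < hi cm t) := by
  obtain ⟨c, hc, hcv⟩ := hv.rat 2
  have hcv' : v c = 2 := by rw [hcv]; norm_num
  obtain ⟨g, hg, hgv⟩ := hv.exists_nat hO
  obtain ⟨p, hp, hpv⟩ := hv.exists_pow hO
  have hD : Dfn (fun w : Fin 2 → N => op r.zero (w 1) ∈ r.le ∧
      (op (w 1) r.one ∈ r.le ∧ w 1 ≠ r.one) ∧ ∀ i, i ∈ (om : N) →
        (op i (nt N 0) ∈ w 0 ∨ op i (nt N 1) ∈ w 0) → (op i (nt N 1) ∈ w 0 ↔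
          ∃ j, j ∈ (om : N) ∧ op (PB.ll r c g p i j) (w 1) ∈ r.le ∧
            (op (w 1) (PB.rr r c g p i j) ∈ r.le ∧ w 1 ≠ PB.rr r c g p i j))) := by
    unfold PB.ll PB.rr
    simp (maxDischargeDepth := 50)
  set P : N → N → Prop := fun t x => op r.zero x ∈ r.le ∧
      (op x r.one ∈ r.le ∧ x ≠ r.one) ∧ ∀ i, i ∈ (om : N) →
        (op i (nt N 0) ∈ t ∨ op i (nt N 1) ∈ t) → (op i (nt N 1) ∈ t ↔
          ∃ j, j ∈ (om : N) ∧ op (PB.ll r c g p i j) x ∈ r.le ∧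
            (op x (PB.rr r c g p i j) ∈ r.le ∧ x ≠ PB.rr r c g p i j)) with hP
  have hlt : ∀ {a b : N}, a ∈ r.F → b ∈ r.F → (op a b ∈ r.le ∧ a ≠ b ↔ v a < v b) := by
    intro a b ha hb
    rw [← hv.lt_iff ha hb, RealData.Lt, val_iff]
  have hPt : ∀ (t : List Bool) (x : N), x ∈ r.F →
      (P (st N t) x ↔ lo cm t ≤ v x ∧ v x < hi cm t) := by
    intro t x hx
    rw [hP]
    dsimp only
    rw [hlt hx hv.oneM, hv.le hv.zeroM hx, hv.zero, hv.one]
    have h1 : ∀ i : ℕ, (op (nt N i) (nt N 0) ∈ st N t ∨ op (nt N i) (nt N 1) ∈ st N t) ↔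
        i < t.length := by
      intro i
      rw [op_mem_st, op_mem_st]
      constructor
      · rintro (⟨h, -⟩ | ⟨h, -⟩) <;> exact h
      · intro h
        cases hb : t[i]
        · exact Or.inl ⟨h, by rw [hb]; rfl⟩
        · exact Or.inr ⟨h, by rw [hb]; rfl⟩
    have h2 : ∀ i : ℕ, op (nt N i) (nt N 1) ∈ st N t ↔ t[i]? = some true := by
      intro i
      rw [op_mem_st, List.getElem?_eq_some_iff]
      refine exists_congr fun h => ?_
      cases hb : t[i]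
      · simp
      · simp
    have h3 : (∀ i, i ∈ (om : N) →
        (op i (nt N 0) ∈ st N t ∨ op i (nt N 1) ∈ st N t) → (op i (nt N 1) ∈ st N t ↔
          ∃ j, j ∈ (om : N) ∧ op (PB.ll r c g p i j) x ∈ r.le ∧
            (op x (PB.rr r c g p i j) ∈ r.le ∧ x ≠ PB.rr r c g p i j))) ↔
        ∀ i < t.length, (t[i]? = some true ↔ ∃ j : ℕ,
          ((2 * j + 1 : ℕ) : ℝ) * (1 / 2) ^ (i + 1) ≤ v x ∧
            v x < ((2 * j + 2 : ℕ) : ℝ) * (1 / 2) ^ (i + 1)) := by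
      have h4 : ∀ i : ℕ, (∃ j, j ∈ (om : N) ∧ op (PB.ll r c g p (nt N i) j) x ∈ r.le ∧
            (op x (PB.rr r c g p (nt N i) j) ∈ r.le ∧ x ≠ PB.rr r c g p (nt N i) j)) ↔
          ∃ j : ℕ, ((2 * j + 1 : ℕ) : ℝ) * (1 / 2) ^ (i + 1) ≤ v x ∧
            v x < ((2 * j + 2 : ℕ) : ℝ) * (1 / 2) ^ (i + 1) := by
        intro i
        have h5 : ∀ j : ℕ, (op (PB.ll r c g p (nt N i) (nt N j)) x ∈ r.le ∧
            (op x (PB.rr r c g p (nt N i) (nt N j)) ∈ r.le ∧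
              x ≠ PB.rr r c g p (nt N i) (nt N j))) ↔
            ((2 * j + 1 : ℕ) : ℝ) * (1 / 2) ^ (i + 1) ≤ v x ∧
              v x < ((2 * j + 2 : ℕ) : ℝ) * (1 / 2) ^ (i + 1) := by
          intro j
          obtain ⟨h6, h7⟩ := PB.ll_spec hv hc hcv' hg hgv hp hpv i j
          obtain ⟨h8, h9⟩ := PB.rr_spec hv hc hcv' hg hgv hp hpv i j
          rw [hlt hx h8, hv.le h6 hx, h7, h9]
        constructor
        · rintro ⟨j, hj, h6⟩
          obtain ⟨j, rfl⟩ := hO j hj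
          exact ⟨j, (h5 j).1 h6⟩
        · rintro ⟨j, h6⟩
          exact ⟨nt N j, nt_mem_om j, (h5 j).2 h6⟩
      constructor
      · intro h5 i hi
        rw [← h2 i, ← h4 i]
        exact h5 _ (nt_mem_om i) ((h1 i).2 hi)
      · intro h5 i hi hit
        obtain ⟨i, rfl⟩ := hO i hi
        rw [h2 i, h4 i]
        exact h5 i ((h1 i).1 hit)
    rw [h3]
    constructor
    · rintro ⟨h4, h5, h6⟩
      exact (digits h4 h5 t).1 h6
    · rintro ⟨h4, h5⟩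
      have h6 : v x ∈ PN.J cm t := ⟨h4, h5⟩
      have h7 := PN.J_sub_unit tm_cm t h6
      exact ⟨h7.1, h7.2, (digits h7.1 h7.2 t).2 ⟨h4, h5⟩⟩
  refine ⟨sp (pd (str N) r.F) fun z => ∃ t x, z = op t x ∧ P t x, fun t x hx => ?_⟩
  have hPD : ∀ {n : ℕ} {s q : (Fin n → N) → N}, DT s → DT q → Dfn (fun w => P (s w) (q w)) :=
    fun hs hq => dfn2 (R := P) hD hs hq
  have hD2 : Dfn (fun w : Fin 1 → N => ∃ t x, w 0 = op t x ∧ P t x) := by
    clear_value P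
    simp (maxDischargeDepth := 50) [hPD]
  rw [mem_sp hD2, ← hPt t x hx]
  constructor
  · rintro ⟨-, t', x', h1, h2⟩
    obtain ⟨rfl, rfl⟩ := op_inj.1 h1
    exact h2
  · intro h1
    exact ⟨op_mem_pd.2 ⟨(mem_str hO).2 ⟨t, rfl⟩, hx⟩, _, _, rfl, h1⟩

end Pool.Agent.GPA
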