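import Pool.Agent.GPA.PolLow
import Pool.Agent.GPA.PolDig

/-!
# Block G: the relation `Meet` inside the model
-/

set_option linter.unusedSectionVars false

namespace Pool.Agent.GPA

open Pool.Agent.SigB Pool.Agent.Frc Pool.Agent.Forc

variable {N : Type 1} [Membership N N] [IsZFC N] {r : RealData N} {Y d m u : N} {v : N → ℝ}

theorem MR.dt_low {n : ℕ} {s t q : (Fin n → N) → N} (hs : DT s) (ht : DT t) (hq : DT q) :
    DT (fun w => low (s w) (t w) (q w)) := by
  have h : DT (fun w : Fin 3 → N => low (w 0) (w 1) (w 2)) := by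
    unfold low
    simp (maxDischargeDepth := 50)
  exact dt3 h hs ht hq

/-- The relation `Meet` belongs to the model: `R` is the set of all pairs `(t, s)` of strings such
that some `x` with `(t, x) ∈ D` satisfies `x ≤ m (low s ∪ pcyl s)`, and for all `c < m (low s)`
there is `x > c` with `(t, x) ∈ D`, where `D` is as in `exists_digits`. -/
theorem exists_meet (h : PM r v Y d m) (hu : IsBase r Y d u) :
    ∃ R : N, ∀ t s : List Bool, op (st N t) (st N s) ∈ R ↔ Meet (tm v Y m u) t s := by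
  obtain ⟨D, hD⟩ := exists_digits h.om h.rv
  have hlow := fun {n : ℕ} {s t q : (Fin n → N) → N} (hs : DT s) (ht : DT t) (hq : DT q) =>
    MR.dt_low hs ht hq
  let P : N → Prop := fun w => ∃ t s, w = op t s ∧
    (∃ x, x ∈ r.F ∧ op t x ∈ D ∧ op x (ap m (un (low Y u s) (pcyl Y u s))) ∈ r.le) ∧
    ∀ c, op c (ap m (low Y u s)) ∈ r.le → c ≠ ap m (low Y u s) →
      ∃ x, x ∈ r.F ∧ op t x ∈ D ∧ op c x ∈ r.le ∧ c ≠ x
  have hP : Dfn (fun w : Fin 1 → N => P (w 0)) := by
    simp (maxDischargeDepth := 50) [P, hlow]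
  have hpos : ∀ t, 0 < cm t := fun t => by unfold cm; positivity
  refine ⟨sp (pd (str N) (str N)) P, fun t s => ?_⟩
  have hst : ∀ s : List Bool, st N s ∈ str N := fun s => (mem_str h.om).2 ⟨s, rfl⟩
  have hl := low_bor h hu s
  have hlc : un (low Y u (st N s)) (pcyl Y u (st N s)) ∈ bor r Y d := bor_un hl (cyl_bor h hu s)
  have h1 : op (st N t) (st N s) ∈ sp (pd (str N) (str N)) P ↔
      (∃ x, x ∈ r.F ∧ op (st N t) x ∈ D ∧
        op x (ap m (un (low Y u (st N s)) (pcyl Y u (st N s)))) ∈ r.le) ∧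
      ∀ c, op c (ap m (low Y u (st N s))) ∈ r.le → c ≠ ap m (low Y u (st N s)) →
        ∃ x, x ∈ r.F ∧ op (st N t) x ∈ D ∧ op c x ∈ r.le ∧ c ≠ x := by
    rw [mem_sp hP]
    constructor
    · rintro ⟨-, t', s', he, h2⟩
      obtain ⟨rfl, rfl⟩ := op_inj.1 he
      exact h2
    · exact fun h2 => ⟨op_mem_pd.2 ⟨hst t, hst s⟩, _, _, rfl, h2⟩
  rw [h1]
  refine and_congr ?_ ?_
  · constructor
    · rintro ⟨x, hx, hx1, hx2⟩
      rw [h.rv.le hx (mu_mem h hlc), mu_low_cyl h hu] at hx2
      exact ((hD t x hx).1 hx1).1.trans hx2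
    · intro h2
      obtain ⟨n, hn⟩ := PN.lo_cm t
      obtain ⟨x, hx, hx1⟩ := h.rv.rat ((n : ℚ) * (1 / 2) ^ t.length)
      have hx2 : v x = lo cm t := by rw [hx1, hn]; push_cast; rfl
      refine ⟨x, hx, (hD t x hx).2 ⟨hx2.ge, ?_⟩, ?_⟩
      · rw [hx2]
        have := hpos t
        unfold hi
        linarith
      · rw [h.rv.le hx (mu_mem h hlc), mu_low_cyl h hu, hx2]
        exact h2
  · constructor
    · intro h2
      by_contra h3
      push Not at h3
      obtain ⟨c, hc, hc1, hc2⟩ := h.rv.exists_btw h3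
      have h4 : v c < v (ap m (low Y u (st N s))) := by rw [mu_low h hu]; exact hc2
      obtain ⟨x, hx, hx1, hx2, hx3⟩ := h2 c ((h.rv.le hc (mu_mem h hl)).2 h4.le) (by
        intro e
        rw [← e] at h4
        exact lt_irrefl _ h4)
      have h5 := (h.rv.le hc hx).1 hx2
      have h6 := ((hD t x hx).1 hx1).2
      linarith
    · intro h2 c hc1 hc2
      have hc := (h.rv.leM hc1).1
      have h3 : v c < v (ap m (low Y u (st N s))) :=
        lt_of_le_of_ne ((h.rv.le hc (mu_mem h hl)).1 hc1) fun e => hc2 (h.rv.inj hc (mu_mem h hl) e)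
      rw [mu_low h hu] at h3
      have h4 : max (v c) (lo cm t) < hi cm t := by
        refine max_lt (h3.trans_le h2) ?_
        have := hpos t
        unfold hi
        linarith
      obtain ⟨x, hx, hx1, hx2⟩ := h.rv.exists_btw h4
      have h5 := (le_max_left (v c) (lo cm t)).trans_lt hx1
      have h6 := (le_max_right (v c) (lo cm t)).trans_lt hx1
      refine ⟨x, hx, (hD t x hx).2 ⟨h6.le, hx2⟩, (h.rv.le hc hx).2 h5.le, fun e => ?_⟩
      rw [e] at h5
      exact lt_irrefl _ h5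

end Pool.Agent.GPA
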