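import Pool.Agent.GPA.PolNull
import Pool.Agent.GPA.PolRel
import Pool.Agent.GPA.PolKon

/-!
# Block G, last part: from the Cantor space to all Polish probability spaces
-/

set_option linter.unusedSectionVars false

namespace Pool.Agent.GPA

open Pool.Agent.SigB Pool.Agent.Frc Pool.Agent.Forc

variable {N : Type 1} [Membership N N] [IsZFC N] {r : RealData N} {Y d m u : N} {v : N → ℝ}

namespace PT

theorem length_ini (x : ℕ → Bool) (n : ℕ) : (ini x n).length = n := by simp [ini]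

theorem ini_mem (hO : Om N) {z : N} (hz : z ∈ fs (om : N) (nt N 2)) (k : ℕ) :
    Sb (st N (ini (ext2 z) k)) z := by
  rw [sb_st_iff hO hz, length_ini]

theorem exists_ini (hO : Om N) {z s : N} (hz : z ∈ fs (om : N) (nt N 2)) (hs : s ∈ str N)
    (h : Sb s z) : ∃ k, s = st N (ini (ext2 z) k) := by
  obtain ⟨w, rfl⟩ := (mem_str hO).1 hs
  rw [sb_st_iff hO hz] at h
  exact ⟨w.length, by rw [← h]⟩

/-- The set `A'` for the Cantor space. -/
noncomputable def tr (A Y u R : N) : N :=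
  sp (pd (fs om om) (fs om (nt N 2))) fun p => ∃ x z y, p = op x z ∧ y ∈ Y ∧ op x y ∈ A ∧
    ∀ t, t ∈ str N → Sb t z → ∀ s, s ∈ str N → Sb s (cde u y) → op t s ∈ R

theorem mem_tr (hO : Om N) {A Y u R x z : N} {μ : List Bool → ℝ}
    (hR : ∀ t s : List Bool, op (st N t) (st N s) ∈ R ↔ Meet μ t s) :
    op x z ∈ tr A Y u R ↔ x ∈ fs (om : N) om ∧ z ∈ fs (om : N) (nt N 2) ∧ ∃ y, y ∈ Y ∧
      op x y ∈ A ∧ ∀ k n, Meet μ (ini (ext2 z) k) (ini (ext2 (cde u y)) n) := by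
  rw [tr, mem_sp (by simp (maxDischargeDepth := 50)), op_mem_pd, and_assoc]
  refine and_congr_right fun _ => and_congr_right fun hz => ?_
  constructor
  · rintro ⟨x', z', y, h, hy, hxy, hm⟩
    obtain ⟨rfl, rfl⟩ := op_inj.1 h
    refine ⟨y, hy, hxy, fun k n => ?_⟩
    rw [← hR]
    exact hm _ ((mem_str hO).2 ⟨_, rfl⟩) (ini_mem hO hz k) _ ((mem_str hO).2 ⟨_, rfl⟩)
      (ini_mem hO cde_mem n)
  · rintro ⟨y, hy, hxy, hm⟩
    refine ⟨x, z, y, rfl, hy, hxy, fun t ht htz s hs hsy => ?_⟩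
    obtain ⟨k, rfl⟩ := exists_ini hO hz ht htz
    obtain ⟨n, rfl⟩ := exists_ini hO cde_mem hs hsy
    rw [hR]
    exact hm k n

/-- The cover of the section of `A'`. -/
noncomputable def cov (W L R : N) : N :=
  sp (str N) fun t => ∃ s, s ∈ W ∧ (∀ w, w ∈ W → Sb w s → w = s) ∧ op s t ∈ L ∧ op t s ∈ R

theorem mem_cov (hO : Om N) {W L R : N} {μ : List Bool → ℝ} {c : ℕ}
    (hW : Sb W (str N))
    (hL : ∀ s t : List Bool, op (st N s) (st N t) ∈ L ↔ t.length = 2 * s.length + c)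
    (hR : ∀ t s : List Bool, op (st N t) (st N s) ∈ R ↔ Meet μ t s) (t : List Bool) :
    st N t ∈ cov W L R ↔ ∃ s ∈ {s | st N s ∈ W}, (∀ w ∈ {s | st N s ∈ W}, w <+: s → w = s) ∧
      t.length = 2 * s.length + c ∧ Meet μ t s := by
  rw [cov, mem_sp (by simp (maxDischargeDepth := 50))]
  constructor
  · rintro ⟨-, s, hs, hmin, hL', hR'⟩
    obtain ⟨s, rfl⟩ := (mem_str hO).1 (hW _ hs)
    exact ⟨s, hs, fun w hw hws => st_inj (hmin _ hw (sb_st.2 hws)), (hL _ _).1 hL', (hR _ _).1 hR'⟩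
  · rintro ⟨s, hs, hmin, hL', hR'⟩
    refine ⟨(mem_str hO).2 ⟨_, rfl⟩, st N s, hs, fun w hw hws => ?_, (hL _ _).2 hL', (hR _ _).2 hR'⟩
    obtain ⟨w, rfl⟩ := (mem_str hO).1 (hW _ hw)
    rw [hmin w hw (sb_st.1 hws)]

/-- The cover of the union of the sections of `A`. -/
noncomputable def cov' (U R : N) : N :=
  sp (str N) fun s => ∃ k, k ∈ (om : N) ∧ ∀ t, t ∈ fs k (nt N 2) → op t s ∈ R →
    ∃ w, w ∈ U ∧ Sb w t

theorem mem_cov' (hO : Om N) {U R : N} {μ : List Bool → ℝ} (hU : Sb U (str N))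
    (hR : ∀ t s : List Bool, op (st N t) (st N s) ∈ R ↔ Meet μ t s) (s : List Bool) :
    st N s ∈ cov' U R ↔ ∃ k, ∀ t : List Bool, t.length = k → Meet μ t s →
      Pre {s | st N s ∈ U} t := by
  rw [cov', mem_sp (by simp (maxDischargeDepth := 50))]
  constructor
  · rintro ⟨-, k, hk, h⟩
    obtain ⟨k, rfl⟩ := hO k hk
    refine ⟨k, fun t ht hm => ?_⟩
    obtain ⟨w, hw, hwt⟩ := h (st N t) (mem_fs_nt.2 ⟨t, ht, rfl⟩) ((hR _ _).2 hm)
    obtain ⟨w, rfl⟩ := (mem_str hO).1 (hU _ hw)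
    exact ⟨w, hw, sb_st.1 hwt⟩
  · rintro ⟨k, h⟩
    refine ⟨(mem_str hO).2 ⟨_, rfl⟩, nt N k, nt_mem_om k, fun t ht hm => ?_⟩
    obtain ⟨t, htk, rfl⟩ := mem_fs_nt.1 ht
    obtain ⟨w, hw, hwt⟩ := h t htk ((hR _ _).1 hm)
    exact ⟨st N w, hw, sb_st.2 hwt⟩

/-- The tree for the compactness argument. -/
noncomputable def tre (U R e : N) : N :=
  sp (str N) fun t => ∀ k, k ∈ (om : N) → (∃ q, q ∈ fs k (nt N 2) ∧ Sb t q) →
    ∃ q, q ∈ fs k (nt N 2) ∧ Sb t q ∧ (∀ w, w ∈ U → ¬ Sb w q) ∧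
      ∀ s, s ∈ str N → Sb s e → op q s ∈ R

theorem mem_tre (hO : Om N) {U R e : N} {μ : List Bool → ℝ} (hU : Sb U (str N))
    (he : e ∈ fs (om : N) (nt N 2))
    (hR : ∀ t s : List Bool, op (st N t) (st N s) ∈ R ↔ Meet μ t s) (t : List Bool) :
    st N t ∈ tre U R e ↔ t ∈ Kt μ {s | st N s ∈ U} (ext2 e) := by
  rw [tre, mem_sp (by simp (maxDischargeDepth := 50))]
  constructor
  · rintro ⟨-, h⟩ k hk
    obtain ⟨q, hq, htq, hw, hs⟩ := h (nt N k) (nt_mem_om k)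
      ⟨st N (t ++ List.replicate (k - t.length) false), mem_fs_nt.2 ⟨_, by simp; omega, rfl⟩,
        sb_st.2 (List.prefix_append _ _)⟩
    obtain ⟨q, hqk, rfl⟩ := mem_fs_nt.1 hq
    refine ⟨q, hqk, sb_st.1 htq, ?_, fun n => ?_⟩
    · rintro ⟨w, hw', hwq⟩
      exact hw _ hw' (sb_st.2 hwq)
    · rw [← hR]
      exact hs _ ((mem_str hO).2 ⟨_, rfl⟩) (ini_mem hO he n)
  · intro h
    refine ⟨(mem_str hO).2 ⟨_, rfl⟩, fun k hk hq => ?_⟩
    obtain ⟨k, rfl⟩ := hO k hk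
    obtain ⟨q, hq, htq⟩ := hq
    obtain ⟨q, hqk, rfl⟩ := mem_fs_nt.1 hq
    have hle : t.length ≤ k := by
      rw [← hqk]
      exact (sb_st.1 htq).length_le
    obtain ⟨p, hp, htp, hpw, hpn⟩ := h k hle
    refine ⟨st N p, mem_fs_nt.2 ⟨p, hp, rfl⟩, sb_st.2 htp, fun w hw hwp => ?_, fun s hs hse => ?_⟩
    · obtain ⟨w, rfl⟩ := (mem_str hO).1 (hU _ hw)
      exact hpw ⟨w, hw, sb_st.1 hwp⟩
    · obtain ⟨n, rfl⟩ := exists_ini hO he hs hse
      rw [hR]
      exact hpn n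

end PT

open PT

/-- Goldstern's principle for all Polish probability spaces follows from the principle for the
Cantor space with the coin tossing measure. -/
theorem gpAll_of_gpCantor (hO : Om N) (hGP : GPCantor N) : GPAll N := by
  intro r o b Y d m A hr ho hb hpol hprob hA hsec hmono
  obtain rfl := isOmega_iff.1 ho
  obtain rfl : b = fs om om := ext' fun f => by rw [hb f, isMap_iff]
  obtain ⟨v, hv⟩ := exists_rv hO hr
  have h : PM r v Y d m := ⟨hO, hv, hpol, hprob⟩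
  obtain ⟨u, hu⟩ := exists_base h
  obtain ⟨R, hR⟩ := exists_meet h hu
  have htm := tm_tm h hu
  have hAY : ∀ {x y : N}, op x y ∈ A → x ∈ fs (om : N) om ∧ y ∈ Y := by
    intro x y hxy
    obtain ⟨x', y', hx', hy', h'⟩ := hA _ hxy
    obtain ⟨rfl, rfl⟩ := op_inj.1 (isOrdPair_iff.1 h')
    exact ⟨hx', hy'⟩
  have hnull := hGP om (fs om om) (fs om (nt N 2)) (tr A Y u R) ho hb (isCantor_iff.2 rfl) ?_ ?_ ?_
  rotate_left
  · -- `A'` is a relation
    intro z hz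
    obtain ⟨⟨x, hx, y, hy, rfl⟩, -⟩ := (mem_sp (by simp (maxDischargeDepth := 50))).1 hz |>.imp
      mem_pd.1 id
    exact ⟨x, y, hx, hy, isOrdPair_iff.2 rfl⟩
  · -- the sections are null
    intro x hx o' n ho' hn
    obtain rfl := isOmega_iff.1 ho'
    obtain ⟨n, rfl⟩ := hO n hn
    have hZ : Sb (sp Y fun y => op x y ∈ A) Y := fun y hy =>
      ((mem_sp (by simp (maxDischargeDepth := 50))).1 hy).1
    have hZ0 : IsMeasureZero r m fun y => y ∈ sp Y fun y => op x y ∈ A := by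
      obtain ⟨B, hB, hB'⟩ := hsec x hx
      exact ⟨B, hB, fun y hy =>
        hB' y (val_iff.2 ((mem_sp (by simp (maxDischargeDepth := 50))).1 hy).2)⟩
    obtain ⟨W, hW, hZW, hWm⟩ := (measureZero_iff h hu hZ).1 hZ0 (n + 1)
    obtain ⟨L, hL⟩ := exists_len hO (N := N) (n + 5)
    have hcov := mem_cov hO hW hL hR
    have hstr : IsStrings (cov W L R) (om : N) := (isStrings_iff hO).2 fun t ht =>
      (mem_str hO).1 ((mem_sp (by simp (maxDischargeDepth := 50))).1 ht).1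
    refine ⟨cov W L R, hstr, (measLe_iff hO hstr).2 ?_, fun z hz => ?_⟩
    · have := mass_cmass htm hWm
      have hset : {t : List Bool | ∃ s ∈ {s | st N s ∈ W},
          (∀ w ∈ {s | st N s ∈ W}, w <+: s → w = s) ∧ t.length = 2 * s.length + (n + 5) ∧
            Meet (tm v Y m u) t s} = {t | st N t ∈ cov W L R} := by
        ext t
        exact (hcov t).symm
      rw [hset] at this
      exact this
    · obtain ⟨-, hz2, y, hy, hxy, hm⟩ := (mem_tr hO hR).1 (val_iff.1 hz)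
      have hyW : y ∈ popn Y u W := hZW y ((mem_sp (by simp (maxDischargeDepth := 50))).2 ⟨hy, hxy⟩)
      obtain ⟨-, k, hk⟩ := (mem_opn' hO hW).1 hyW
      obtain ⟨k, hk⟩ := cover htm (W := {s | st N s ∈ W}) (n := n) ⟨k, hk⟩ fun n k => hm k n
      exact ⟨st N (ini (ext2 z) k), (hcov _).2 hk, ini_mem hO hz2 k⟩
  · -- monotone
    intro x x' z hx hx' hxx' hz
    obtain ⟨-, hz2, y, hy, hxy, hm⟩ := (mem_tr hO hR).1 (val_iff.1 hz)
    exact val_iff.2 ((mem_tr hO hR).2 ⟨hx', hz2, y, hy,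
      val_iff.1 (hmono x x' y hx hx' hxx' (val_iff.2 hxy)), hm⟩)
  -- the union of the sections of `A`
  have hZd : Dfn (fun w : Fin 1 → N => ∃ x, op x (w 0) ∈ A) := by
    simp (maxDischargeDepth := 50)
  have hZ : Sb (sp Y fun y => ∃ x, op x y ∈ A) Y := fun y hy => ((mem_sp hZd).1 hy).1
  have hZe : (fun y => ∃ x, Val A x y) = fun y => y ∈ sp Y fun y => ∃ x, op x y ∈ A := by
    funext y
    refine propext ?_
    rw [mem_sp hZd]
    constructor
    · rintro ⟨x, hx⟩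
      rw [val_iff] at hx
      exact ⟨(hAY hx).2, x, hx⟩
    · rintro ⟨-, x, hx⟩
      exact ⟨x, val_iff.2 hx⟩
  rw [hZe, measureZero_iff h hu hZ]
  intro n
  obtain ⟨U, hU, hUm, hUc⟩ := hnull om (nt N n) ho (nt_mem_om n)
  have hU' : Sb U (str N) := fun s hs => (mem_str hO).2 ((isStrings_iff hO).1 hU s hs)
  have hUc' : CMass {s | st N s ∈ U} n := (measLe_iff hO hU).1 hUm
  have hcov := mem_cov' hO hU' hR
  refine ⟨cov' U R, fun t ht => ((mem_sp (by simp (maxDischargeDepth := 50))).1 ht).1, ?_, ?_⟩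
  · intro y hy
    obtain ⟨hyY, x, hxy⟩ := (mem_sp hZd).1 hy
    by_contra hn
    have hno : ∀ n k, ∃ t : List Bool, t.length = k ∧
        Meet (tm v Y m u) t (ini (ext2 (cde u y)) n) ∧ ¬ Pre {s | st N s ∈ U} t := by
      intro n k
      by_contra hc
      push Not at hc
      refine hn ((mem_opn' hO ?_).2 ⟨hyY, n, (hcov _).2 ⟨k, hc⟩⟩)
      exact fun t ht => ((mem_sp (by simp (maxDischargeDepth := 50))).1 ht).1
    have hT := mem_tre hO hU' (e := cde u y) cde_mem hR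
    obtain ⟨z, hz, hzT⟩ := exists_branch hO (T := tre U R (cde u y))
      ((hT _).2 (kt_nil htm hno)) fun t ht => by
        obtain ⟨b, hb⟩ := kt_snoc ((hT _).1 ht)
        exact ⟨b, (hT _).2 hb⟩
    have hk : ∀ k, ¬ Pre {s | st N s ∈ U} (ini (ext2 z) k) ∧
        ∀ n, Meet (tm v Y m u) (ini (ext2 z) k) (ini (ext2 (cde u y)) n) := by
      intro k
      obtain ⟨t, htk, hzt, htU, htn⟩ := (hT _).1 (hzT k) k (by rw [length_ini])
      have : ini (ext2 z) k = t := hzt.eq_of_length (by rw [length_ini, htk])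
      rw [this]
      exact ⟨htU, htn⟩
    have hxz : Val (tr A Y u R) x z := val_iff.2 ((mem_tr hO hR).2
      ⟨(hAY hxy).1, hz, y, hyY, hxy, fun k n => (hk k).2 n⟩)
    obtain ⟨s, hs, hsz⟩ := hUc z ⟨x, hxz⟩
    obtain ⟨k, rfl⟩ := exists_ini hO hz (hU' s hs) hsz
    exact (hk k).1 ⟨_, hs, List.prefix_refl _⟩
  · have := cmass_mass htm hUc'
    have hset : {s : List Bool | ∃ k, ∀ t : List Bool, t.length = k → Meet (tm v Y m u) t s →
        Pre {s | st N s ∈ U} t} = {s | st N s ∈ cov' U R} := by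
      ext s
      exact (hcov s).symm
    rw [hset] at this
    exact this

end Pool.Agent.GPA
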