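import Pool.Agent.GPA.MFinal
import Pool.Agent.GPA.FrameAll
import Pool.Agent.GPA.PolTrans

/-!
# The model of ZFC, Goldstern's principle for all sets and a large continuum
-/

namespace Pool.Agent.GPA

open Pool.Agent.SigB

/-- There is a model of ZFC in which Goldstern's principle holds for all sets and all Polish
probability spaces, and the continuum is greater than `ℵ₂`. -/
theorem exists_model : ∃ (N : Type 1) (_ : Membership N N),
    IsZFC N ∧ GPAll N ∧ ContinuumGtAlephTwo N := by
  obtain ⟨F⟩ := frame_all
  obtain ⟨N, i, h1, h2, h3, h4⟩ := F.model'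
  exact ⟨N, i, h1, gpAll_of_gpCantor h2 h3, h4⟩

end Pool.Agent.GPA
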