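import Pool.Agent.GPA.FusP
import Pool.Agent.GPA.FrontS

/-!
# Potentials of one Laver step

`i` is a coordinate and `j` is the next level. Countably many measurable real valued functions
`f r` of the points of the level `j` have potentials on a pure extension: at every node `t` of the
tree of `x` the number `w r t x` is the limit of the values of `f r` above the immediate successors
of `t`, and the values of `f r` above the node `t` are close to `w r t x` if `t` is long.
-/

open Set Filter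

namespace Pool.Agent.GPA

variable {K : Type} [LinearOrder K]

/-- Potentials of real valued functions. -/
def PotF (i : K) (j : WithTop K) : Prop :=
  ∀ f : ℕ → Pt K → ℝ, (∀ r, Measurable (f r)) → (∀ r, Det j (f r)) →
    (∀ r y, 0 ≤ f r y ∧ f r y ≤ 1) →
    ∀ c p : Cond K, pt p (i : WithTop K) ⊆ pt c (i : WithTop K) →
    ∃ e, pt e (i : WithTop K) ⊆ pt p (i : WithTop K) ∧ Pure i e c ∧
      ∃ w : ℕ → List ℕ → Pt K → ℝ, (∀ r t, Measurable (w r t)) ∧
        (∀ r t, Det (i : WithTop K) (w r t)) ∧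
        ∀ x ∈ pt e (i : WithTop K), ∀ t, (e.T i).nd x t → ∀ r, ∀ ε > 0, ∃ M, ∀ m ≥ M,
          m ∈ (e.T i).W x t → ∀ y ∈ pt e j, Agr (i : WithTop K) y x →
            pre (y i) (t.length + 1) = m :: t → |f r y - w r t x| ≤ ε

namespace PotM

omit [LinearOrder K] in
theorem measurable_of_CM {β : Type*} [MeasurableSpace β] {f : Pt K → β} (hf : CM f) :
    Measurable f := fun s _ => hf.rel (R := fun c _ => c ∈ s) fun _ => MeasurableSet.const _

theorem pure_trans {i : K} {e' e c : Cond K} (h : pt e' (i : WithTop K) ⊆ pt e (i : WithTop K))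
    (h1 : Pure i e' e) (h2 : Pure i e c) : Pure i e' c := fun x hx =>
  ⟨(h1 x hx).1.trans (h2 x (h hx)).1, (h1 x hx).2.trans (h2 x (h hx)).2⟩

theorem covS_anti {i : K} {j : WithTop K} {D : Set (Cond K)} {e' e : Cond K}
    (h : pt e' j ⊆ pt e j) (hc : CovS i j D e) : CovS i j D e' := by
  obtain ⟨C, h1, h2, h3⟩ := hc
  refine ⟨C, h1, h2, fun y hy => ?_⟩
  obtain ⟨k, d, hd, h4⟩ := h3 y (h hy)
  exact ⟨k, d, hd, fun z hz => h4 z (h hz)⟩

/-- A measurable function with countably many values is decided densely. -/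
theorem dense_const {j : WithTop K} (hsig : SigL (K := K) j) {α : Type*} [Countable α]
    (g : Pt K → α) (hg : ∀ c, MeasurableSet {x | g x = c}) (hd : Det j g) :
    DenseL j {d : Cond K | ∃ c, ∀ x ∈ pt d j, g x = c} := by
  intro p
  obtain ⟨ι, hι⟩ := exists_injective_nat α
  obtain ⟨n, e, h1, h2⟩ := hsig (fun n => {x | ι (g x) = n}) (fun n => by
      have : {x | ι (g x) = n} = ⋃ c ∈ {c | ι c = n}, {x | g x = c} := by
        ext x
        simp only [mem_ofPred_eq, mem_iUnion, exists_prop]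
        exact ⟨fun h => ⟨g x, h, rfl⟩, fun ⟨c, h, h'⟩ => by rw [h']; exact h⟩
      rw [this]
      exact MeasurableSet.biUnion (Set.to_countable _) fun c _ => hg c)
    (fun n => hd.map fun c => ι c = n) p (fun x _ => mem_iUnion.2 ⟨ι (g x), rfl⟩)
  by_cases he : (pt e j).Nonempty
  · obtain ⟨y, hy⟩ := he
    exact ⟨e, ⟨g y, fun x hx => hι ((h2 hx).trans (h2 hy).symm)⟩, h1⟩
  · refine ⟨e, ⟨g fun _ _ => 0, fun x hx => ?_⟩, h1⟩
    exact (he ⟨x, hx⟩).elim

theorem pt_sub_of_pure {i : K} {j : WithTop K}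
    (hj : ∀ b : K, (b : WithTop K) < j ↔ b ≤ i) {e' e : Cond K}
    (h : pt e' (i : WithTop K) ⊆ pt e (i : WithTop K)) (hp : Pure i e' e) : pt e' j ⊆ pt e j := by
  intro y hy
  rw [mem_pt_succ hj] at hy ⊢
  exact ⟨h hy.1, (MT.sub_iff _ _ _).1 (hp y hy.1).2 hy.2⟩

/-- The numbers `v k`, `k ≤ n`, approximate the functions `f k` on `e`. -/
def Val (j : WithTop K) (f : ℕ → Pt K → ℝ) (n : ℕ) (e : Cond K) (v : ℕ → ℝ) : Prop :=
  ∀ k ≤ n, ∀ y ∈ pt e j, |f k y - v k| ≤ 1 / ((n : ℝ) + 1)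

/-- The property of the labels of index `n`. -/
def Lb (i : K) (j : WithTop K) (f : ℕ → Pt K → ℝ) (D : ℕ → Set (Cond K)) (n : ℕ) (e : Cond K) :
    Prop := (∃ v, Val j f n e v) ∧ ∀ k ≤ n, CovS i j (D k) e

section one

variable [WellFoundedLT K] {i : K} {j : WithTop K} (hj : ∀ b : K, (b : WithTop K) < j ↔ b ≤ i)
  (hdec : DecL (K := K) (i : WithTop K)) (hsig : SigL (K := K) (i : WithTop K))
  (hcov : CovL (K := K) (i : WithTop K)) (hsigj : SigL (K := K) j)
  {f : ℕ → Pt K → ℝ} (hf : ∀ r, Measurable (f r)) (hfd : ∀ r, Det j (f r))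
  (hf01 : ∀ r y, 0 ≤ f r y ∧ f r y ≤ 1)

include hj hdec hsig hcov hsigj hf hfd hf01

theorem exists_val (n : ℕ) (c p : Cond K) : ∃ e, pt e (i : WithTop K) ⊆ pt p (i : WithTop K) ∧
    Pure i e c ∧ ∃ v, Val j f n e v := by
  classical
  have hn : (0 : ℝ) < (n : ℝ) + 1 := by positivity
  have hle : ∀ k y, ⌊f k y * ((n : ℝ) + 1)⌋₊ < n + 2 := by
    intro k y
    rw [Nat.floor_lt (mul_nonneg (hf01 k y).1 hn.le)]
    push_cast
    nlinarith [(hf01 k y).2]
  let G : Pt K → Fin (n + 1) → Fin (n + 2) := fun y k => ⟨⌊f k y * ((n : ℝ) + 1)⌋₊, hle k y⟩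
  have hG : ∀ c, MeasurableSet {x | G x = c} := by
    intro c
    have : {x | G x = c} = ⋂ k : Fin (n + 1), {x | ⌊f k x * ((n : ℝ) + 1)⌋₊ = c k} := by
      ext x
      simp only [mem_ofPred_eq, mem_iInter]
      constructor
      · intro h k
        rw [← h]
      · intro h
        funext k
        exact Fin.ext (h k)
    rw [this]
    refine MeasurableSet.iInter fun k => ?_
    have h1 : Measurable fun x => ⌊f k x * ((n : ℝ) + 1)⌋₊ :=
      Nat.measurable_floor.comp ((hf k).mul_const _)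
    exact h1 (measurableSet_singleton (c k : ℕ))
  have hGd : Det j G := by
    intro x y h
    funext k
    refine Fin.ext ?_
    show ⌊f k x * ((n : ℝ) + 1)⌋₊ = ⌊f k y * ((n : ℝ) + 1)⌋₊
    rw [hfd k x y h]
  let E := Fintype.equivFin (Fin (n + 1) → Fin (n + 2))
  have hg : ∀ c, MeasurableSet {x | E (G x) = c} := by
    intro c
    have : {x | E (G x) = c} = {x | G x = E.symm c} := by
      ext x
      exact E.eq_symm_apply.symm
    rw [this]
    exact hG _
  obtain ⟨e, h1, h2, a, h3⟩ := frontG_const hj hdec hsig hcov (fun x => E (G x))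
    (dense_const hsigj _ hg (hGd.map E)) c p
  refine ⟨e, h1, h2, fun k => if h : k < n + 1 then
    ((E.symm a ⟨k, h⟩ : ℕ) : ℝ) / ((n : ℝ) + 1) else 0, fun k hk y hy => ?_⟩
  have hk' : k < n + 1 := Nat.lt_succ_of_le hk
  have h4 : G y = E.symm a := E.eq_symm_apply.2 (h3 y hy)
  have h5 : ⌊f k y * ((n : ℝ) + 1)⌋₊ = (E.symm a ⟨k, hk'⟩ : ℕ) := by
    rw [← h4]
  simp only [hk', dif_pos]
  have h6 := Nat.floor_le (mul_nonneg (hf01 k y).1 hn.le)
  have h7 := Nat.lt_floor_add_one (f k y * ((n : ℝ) + 1))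
  rw [h5] at h6 h7
  have h8 : f k y - ((E.symm a ⟨k, hk'⟩ : ℕ) : ℝ) / ((n : ℝ) + 1) =
      (f k y * ((n : ℝ) + 1) - ((E.symm a ⟨k, hk'⟩ : ℕ) : ℝ)) / ((n : ℝ) + 1) := by
    field_simp
  rw [h8, abs_of_nonneg (div_nonneg (by linarith) hn.le)]
  exact div_le_div_of_nonneg_right (by linarith) hn.le

theorem exists_lb {D : ℕ → Set (Cond K)} (hD : ∀ k, DenseL j (D k)) (n : ℕ) (c p : Cond K) :
    ∃ e, pt e (i : WithTop K) ⊆ pt p (i : WithTop K) ∧ Pure i e c ∧ Lb i j f D n e := by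
  have key : ∀ m : ℕ, ∃ e, pt e (i : WithTop K) ⊆ pt p (i : WithTop K) ∧ Pure i e c ∧
      (∃ v, Val j f n e v) ∧ ∀ k < m, CovS i j (D k) e := by
    intro m
    induction m with
    | zero =>
      obtain ⟨e, h1, h2, h3⟩ := exists_val hj hdec hsig hcov hsigj hf hfd hf01 n c p
      exact ⟨e, h1, h2, h3, fun k hk => absurd hk (Nat.not_lt_zero k)⟩
    | succ m ih =>
      obtain ⟨e, h1, h2, ⟨v, hv⟩, h4⟩ := ih
      obtain ⟨e', g1, g2, g3⟩ := frontS hj hdec hsig hcov (D m) (hD m) e e subset_rfl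
      have g4 := pt_sub_of_pure hj g1 g2
      refine ⟨e', g1.trans h1, pure_trans g1 g2 h2, ⟨v, fun k hk y hy => hv k hk y (g4 hy)⟩,
        fun k hk => ?_⟩
      rcases Nat.lt_succ_iff_lt_or_eq.1 hk with hk | rfl
      · exact covS_anti g4 (h4 k hk)
      · exact g3
  obtain ⟨e, h1, h2, h3, h4⟩ := key (n + 1)
  exact ⟨e, h1, h2, h3, fun k hk => h4 k (Nat.lt_succ_of_le hk)⟩

end one

/-- The chosen values. -/
noncomputable def V (j : WithTop K) (f : ℕ → Pt K → ℝ) (n : ℕ) (d : Cond K) : ℕ → ℝ := by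
  classical
  exact if h : ∃ v, Val j f n d v then h.choose else 0

theorem V_spec {j : WithTop K} {f : ℕ → Pt K → ℝ} {n : ℕ} {d : Cond K}
    (h : ∃ v, Val j f n d v) : Val j f n d (V j f n d) := by
  classical
  unfold V
  rw [dif_pos h]
  exact h.choose_spec

/-- The chosen covers. -/
noncomputable def cv (i : K) (j : WithTop K) (D : Set (Cond K)) (d : Cond K) : Set (Cond K) := by
  classical
  exact if h : CovS i j D d then h.choose else ∅

theorem cv_countable (i : K) (j : WithTop K) (D : Set (Cond K)) (d : Cond K) :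
    (cv i j D d).Countable := by
  classical
  unfold cv
  split_ifs with h
  · exact h.choose_spec.1
  · exact countable_empty

theorem cv_subset (i : K) (j : WithTop K) (D : Set (Cond K)) (d : Cond K) : cv i j D d ⊆ D := by
  classical
  unfold cv
  split_ifs with h
  · exact h.choose_spec.2.1
  · exact empty_subset _

theorem cv_spec {i : K} {j : WithTop K} {D : Set (Cond K)} {d : Cond K} (h : CovS i j D d) :
    ∀ y ∈ pt d j, ∃ k, ∃ c ∈ cv i j D d, ∀ z ∈ pt d j,
      Agr (i : WithTop K) z y → pre (z i) k = pre (y i) k → z ∈ pt c j := by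
  classical
  unfold cv
  rw [dif_pos h]
  exact h.choose_spec.2.2

theorem br_of_pre {s t : List ℕ} {W : List ℕ → Set ℕ} {z : ℕ → ℕ} (hz : z ∈ br s W)
    (ht : pre z t.length = t) (hl : s.length ≤ t.length) : z ∈ br t W :=
  ⟨ht, fun k hk => hz.2 k (hl.trans hk)⟩

section main

variable {i : K} {j : WithTop K} (hj : ∀ b : K, (b : WithTop K) < j ↔ b ≤ i)

include hj

/-- The points of `e` through the node `u` are points of `d` if the tree of `e` above `u` is
included in the tree of `d`. -/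
theorem mem_label {e d : Cond K} {x y : Pt K} {t u : List ℕ} (hxd : x ∈ pt d (i : WithTop K))
    (hs : (d.T i).s x = t) (hsub : GPA.Sub u ((e.T i).W x) t ((d.T i).W x))
    (hl : ((e.T i).s x).length ≤ u.length) (hy : y ∈ pt e j) (hyx : Agr (i : WithTop K) y x)
    (hyu : pre (y i) u.length = u) : y ∈ pt d j := by
  obtain ⟨-, hy2⟩ := (mem_pt_succ hj).1 hy
  refine (mem_pt_succ hj).2 ⟨(mem_pt_congr d hyx).2 hxd, ?_⟩
  rw [e.br_congr hyx] at hy2
  rw [d.br_congr hyx]
  have h1 := (sub_iff_br ((e.T i).inf x)).1 hsub (br_of_pre hy2 hyu hl)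
  show y i ∈ GPA.br ((d.T i).s x) ((d.T i).W x)
  rw [hs]
  exact h1

omit hj in
/-- A point of the level `j` over a point of the level `i`. -/
theorem exists_over [WellFoundedLT K] (j : WithTop K) {d : Cond K} {x : Pt K} (hx : x ∈ pt d (i : WithTop K)) :
    ∃ y ∈ pt d j, Agr (i : WithTop K) y x := by
  obtain ⟨y, hy, hyx⟩ := exists_ext_level d hx
  exact ⟨y, pt_anti d le_top hy, hyx⟩

end main

end PotM

open PotM

/-- Generic conditions at the level `i` from the extension of generic points. -/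
theorem gen_cond_of_genExt {i₀ i : WithTop K} (h0 : ∀ a : K, ¬ (a : WithTop K) < i₀)
    (h : ∀ᶠ N in club, GenExt N i₀ i) :
    ∀ᶠ N in club, ∀ p : Cond K, Has N p → ∃ e : Cond K,
      pt e i ⊆ pt p i ∧ ∀ x ∈ pt e i, Gen N i x := by
  filter_upwards [h, club_skolem fun (D : Set (Cond K)) e => e ∈ D] with N hN3 hN4 p hNp
  have huniv : ∀ e : Cond K, pt e i₀ = univ := fun e => by
    ext x
    simp only [mem_univ, iff_true]
    exact fun a ha => (h0 a ha).elim
  obtain ⟨q, hq⟩ := hN3 univ (fun _ => p) MeasurableSet.univ (fun _ _ _ => rfl) (CM.const p)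
    (Det.const i₀ p) (fun _ => hNp) (fun x _ => ⟨fun D' hD' hd' => by
      obtain ⟨e, he, -⟩ := hd' p
      obtain ⟨e', h1, h2⟩ := hN4 D' hD' ⟨e, he⟩
      exact ⟨e', h2, h1, by rw [huniv]; exact mem_univ _⟩, by rw [huniv]; exact mem_univ _⟩)
  exact ⟨q, fun y hy => (hq y (mem_univ _) fun a _ ha => hy a ha).2,
    fun y hy => (hq y (mem_univ _) fun a _ ha => hy a ha).1⟩

variable [WellFoundedLT K]

/-- There is a least level. -/
theorem exists_least_level (K : Type) [LinearOrder K] [WellFoundedLT K] :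
    ∃ i₀ : WithTop K, (∀ i : WithTop K, i₀ ≤ i) ∧ ∀ a : K, ¬ (a : WithTop K) < i₀ := by
  obtain ⟨m, -, hm⟩ := (wellFounded_lt (α := WithTop K)).has_min univ ⟨⊤, mem_univ _⟩
  exact ⟨m, fun i => not_lt.1 (hm i (mem_univ _)), fun a => hm a (mem_univ _)⟩

/-- Generic conditions at all levels. -/
theorem gen_cond (h : ∀ i j : WithTop K, i ≤ j → ∀ᶠ N in club, GenExt (K := K) N i j)
    (i : WithTop K) : ∀ᶠ N in club, ∀ p : Cond K, Has N p → ∃ e : Cond K,
      pt e i ⊆ pt p i ∧ ∀ x ∈ pt e i, Gen N i x := by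
  obtain ⟨i₀, h1, h2⟩ := exists_least_level K
  exact gen_cond_of_genExt h2 (h i₀ i (h1 i))

/-- **Potentials and open covers** in pure extensions. -/
theorem pot_main {i : K} {j : WithTop K} (hj : ∀ b : K, (b : WithTop K) < j ↔ b ≤ i)
    (hdec : DecL (K := K) (i : WithTop K)) (hsig : SigL (K := K) (i : WithTop K))
    (hcov : CovL (K := K) (i : WithTop K)) (hsigj : SigL (K := K) j)
    (hgen : ∀ᶠ N in club, ∀ p : Cond K, Has N p → ∃ e : Cond K,
      pt e (i : WithTop K) ⊆ pt p (i : WithTop K) ∧ ∀ x ∈ pt e (i : WithTop K), Gen N i x)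
    {f : ℕ → Pt K → ℝ} (hf : ∀ r, Measurable (f r)) (hfd : ∀ r, Det j (f r))
    (hf01 : ∀ r y, 0 ≤ f r y ∧ f r y ≤ 1) {D : ℕ → Set (Cond K)} (hD : ∀ k, DenseL j (D k))
    {c p : Cond K} (hpc : pt p (i : WithTop K) ⊆ pt c (i : WithTop K)) :
    ∃ e, pt e (i : WithTop K) ⊆ pt p (i : WithTop K) ∧ Pure i e c ∧ (∀ k, CovS i j (D k) e) ∧
      ∃ w : ℕ → List ℕ → Pt K → ℝ, (∀ r t, Measurable (w r t)) ∧
        (∀ r t, Det (i : WithTop K) (w r t)) ∧
        ∀ x ∈ pt e (i : WithTop K), ∀ t, (e.T i).nd x t → ∀ r,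
          (∀ ε > 0, ∃ M, ∀ m ≥ M, m ∈ (e.T i).W x t → ∀ y ∈ pt e j, Agr (i : WithTop K) y x →
            pre (y i) (t.length + 1) = m :: t → |f r y - w r t x| ≤ ε) ∧
          (r ≤ t.length → ∀ y ∈ pt e j, Agr (i : WithTop K) y x → pre (y i) t.length = t →
            |f r y - w r t x| ≤ 2 / ((t.length : ℝ) + 1)) := by
  classical
  obtain ⟨e, he1, he2, L, hL1, hL2, hL3⟩ := exists_fusion hdec hgen (P := Lb i j f D)
    (fun n c p _ => exists_lb hj hdec hsig hcov hsigj hf hfd hf01 hD n c p) hpc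
  -- the approximations of the potentials
  let u : ℕ → List ℕ → ℕ → Pt K → ℝ := fun r t n x => V j f (n + t.length) (L t n x) r
  let err : List ℕ → ℕ → ℝ := fun t n => 1 / (((n + t.length : ℕ) : ℝ) + 1)
  let w : ℕ → List ℕ → Pt K → ℝ := fun r t x => ⨅ n, (u r t (n + r) x + err t (n + r))
  have hu1 : ∀ r t n, Measurable (u r t n) := fun r t n =>
    measurable_of_CM ((hL1 t n).map fun d => V j f (n + t.length) d r)
  have hw1 : ∀ r t, Measurable (w r t) := fun r t =>
    Measurable.iInf fun n => (hu1 r t (n + r)).add_const _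
  have hw2 : ∀ r t, Det (i : WithTop K) (w r t) := by
    intro r t x y h
    show (⨅ n, (u r t (n + r) x + err t (n + r))) = ⨅ n, (u r t (n + r) y + err t (n + r))
    congr 1
    funext n
    show V j f (n + r + t.length) (L t (n + r) x) r + _ =
      V j f (n + r + t.length) (L t (n + r) y) r + _
    rw [hL2 t (n + r) x y h]
  have hlen : ∀ x t, (e.T i).nd x t → ((e.T i).s x).length ≤ t.length := fun x t ht =>
    nd.length_le ht
  -- the approximations are good on the labels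
  have hval : ∀ x ∈ pt e (i : WithTop K), ∀ t, (e.T i).nd x t → ∀ r n, r ≤ n + t.length →
      ∀ y ∈ pt (L t n x) j, |f r y - u r t n x| ≤ err t n := by
    intro x hx t ht r n hrn y hy
    exact V_spec (((hL3 x hx t ht).1 n).2.2.1) r hrn y hy
  have hlab : ∀ x ∈ pt e (i : WithTop K), ∀ t, (e.T i).nd x t → ∀ n n', n ≤ n' →
      ∀ y ∈ pt (L t n' x) j, Agr (i : WithTop K) y x → y ∈ pt (L t n x) j := by
    intro x hx t ht n n' hn y hy hyx
    have h1 := (hL3 x hx t ht).2.2.1 n n' hn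
    obtain ⟨-, h2⟩ := (mem_pt_succ hj).1 hy
    refine (mem_pt_succ hj).2 ⟨(mem_pt_congr _ hyx).2 ((hL3 x hx t ht).1 n).1, ?_⟩
    rw [Cond.br_congr _ hyx] at h2 ⊢
    exact (MT.sub_iff _ _ _).1 h1 h2
  have hcomp : ∀ x ∈ pt e (i : WithTop K), ∀ t, (e.T i).nd x t → ∀ r n n', r ≤ n + t.length →
      r ≤ n' + t.length → u r t n x - err t n ≤ u r t n' x + err t n' := by
    intro x hx t ht r n n' h1 h2
    obtain ⟨y, hy, hyx⟩ := exists_over j (((hL3 x hx t ht).1 (max n n')).1)
    have h3 := hval x hx t ht r n h1 y (hlab x hx t ht n _ (le_max_left _ _) y hy hyx)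
    have h4 := hval x hx t ht r n' h2 y (hlab x hx t ht n' _ (le_max_right _ _) y hy hyx)
    rw [abs_le] at h3 h4
    linarith [h3.1, h3.2, h4.1, h4.2]
  have hw3 : ∀ x ∈ pt e (i : WithTop K), ∀ t, (e.T i).nd x t → ∀ r n, r ≤ n + t.length →
      |u r t n x - w r t x| ≤ err t n := by
    intro x hx t ht r n hn
    have hbdd : BddBelow (range fun n => u r t (n + r) x + err t (n + r)) := by
      refine ⟨u r t n x - err t n, ?_⟩
      rintro _ ⟨n', rfl⟩
      exact hcomp x hx t ht r n (n' + r) hn (by omega)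
    have h1 : u r t n x - err t n ≤ w r t x := le_ciInf fun n' =>
      hcomp x hx t ht r n (n' + r) hn (by omega)
    have h2 : w r t x ≤ u r t n x + err t n := by
      -- the infimum is at most every later upper bound, and these are at most the earlier ones
      -- up to the error
      refine le_of_forall_pos_le_add fun δ hδ => ?_
      obtain ⟨n', hn'⟩ := exists_nat_one_div_lt (half_pos hδ)
      have h3 : w r t x ≤ u r t (n' + r) x + err t (n' + r) := ciInf_le hbdd n'
      have h4 := hcomp x hx t ht r (n' + r) n (by omega) hn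
      have h5 : err t (n' + r) ≤ 1 / ((n' : ℝ) + 1) := by
        refine one_div_le_one_div_of_le (by positivity) ?_
        push_cast
        have : (0 : ℝ) ≤ (r : ℝ) + (t.length : ℝ) := by positivity
        linarith
      linarith
    rw [abs_le]
    constructor <;> linarith
  have hfin : ∀ x ∈ pt e (i : WithTop K), ∀ t, (e.T i).nd x t → ∀ r n, r ≤ n + t.length →
      ∀ y ∈ pt (L t n x) j, |f r y - w r t x| ≤ 2 * err t n := by
    intro x hx t ht r n hn y hy
    have h1 := hval x hx t ht r n hn y hy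
    have h2 := hw3 x hx t ht r n hn
    have h3 : |f r y - w r t x| ≤ |f r y - u r t n x| + |u r t n x - w r t x| :=
      abs_sub_le _ _ _
    linarith
  refine ⟨e, he1, he2, fun k => ?_, w, hw1, hw2, fun x hx t ht r => ⟨fun ε hε => ?_,
    fun hr y hy hyx hyt => ?_⟩⟩
  · -- the covers
    refine ⟨⋃ t, ⋃ d ∈ range (L t 0), cv i j (D k) d, countable_iUnion fun t =>
      (hL1 t 0).1.biUnion fun d _ => cv_countable _ _ _ _, iUnion_subset fun t =>
      iUnion₂_subset fun d _ => cv_subset _ _ _ _, fun y hy => ?_⟩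
    obtain ⟨hy1, hy2⟩ := (mem_pt_succ hj).1 hy
    have ht : (e.T i).nd y (pre (y i) (max k ((e.T i).s y).length)) :=
      mem_br_iff.1 hy2 _ (le_max_right _ _)
    obtain ⟨h1, h2, -⟩ := hL3 y hy1 _ ht
    obtain ⟨h3, h4, h5⟩ := h1 0
    have h6 : k ≤ 0 + (pre (y i) (max k ((e.T i).s y).length)).length := by
      rw [length_pre, Nat.zero_add]; exact le_max_left _ _
    have h7 : ∀ z ∈ pt e j, Agr (i : WithTop K) z y →
        pre (z i) (max k ((e.T i).s y).length) = pre (y i) (max k ((e.T i).s y).length) →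
        z ∈ pt (L (pre (y i) (max k ((e.T i).s y).length)) 0 y) j := fun z hz hzy hpre =>
      mem_label hj h3 h4 h2 (hlen y _ ht) hz hzy (by rw [length_pre]; exact hpre)
    obtain ⟨k', d, hd, h8⟩ := cv_spec (h5.2 k h6) y (h7 y hy (Agr.refl _ _) rfl)
    refine ⟨max k' (max k ((e.T i).s y).length), d,
      mem_iUnion.2 ⟨_, mem_iUnion₂.2 ⟨_, ⟨y, rfl⟩, hd⟩⟩, fun z hz hzy hpre => ?_⟩
    exact h8 z (h7 z hz hzy (pre_eq_mono (le_max_right _ _) hpre)) hzy
      (pre_eq_mono (le_max_left _ _) hpre)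
  · -- the immediate successors
    obtain ⟨n, hn⟩ := exists_nat_one_div_lt (half_pos hε)
    obtain ⟨M, hM⟩ := (hL3 x hx t ht).2.2.2 (n + r)
    refine ⟨M, fun m hm hmW y hy hyx hyt => ?_⟩
    have h1 : y ∈ pt (L t (n + r) x) j := by
      refine mem_label hj ((hL3 x hx t ht).1 (n + r)).1 ((hL3 x hx t ht).1 (n + r)).2.1
        (hM m hm hmW) ((hlen x t ht).trans (by simp)) hy hyx ?_
      rw [List.length_cons]
      exact hyt
    have h2 := hfin x hx t ht r (n + r) (by omega) y h1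
    have h3 : err t (n + r) ≤ 1 / ((n : ℝ) + 1) := by
      refine one_div_le_one_div_of_le (by positivity) ?_
      push_cast
      have : (0 : ℝ) ≤ (r : ℝ) + (t.length : ℝ) := by positivity
      linarith
    linarith
  · have h1 : y ∈ pt (L t 0 x) j :=
      mem_label hj ((hL3 x hx t ht).1 0).1 ((hL3 x hx t ht).1 0).2.1 (hL3 x hx t ht).2.1
        (hlen x t ht) hy hyx hyt
    have h2 := hfin x hx t ht r 0 (by omega) y h1
    have h3 : 2 * err t 0 = 2 / ((t.length : ℝ) + 1) := by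
      show 2 * (1 / (((0 + t.length : ℕ) : ℝ) + 1)) = _
      rw [Nat.zero_add, mul_one_div]
    rw [h3] at h2
    exact h2

/-- The potentials of real valued functions exist. -/
theorem potF {i : K} {j : WithTop K} (hj : ∀ b : K, (b : WithTop K) < j ↔ b ≤ i)
    (hdec : DecL (K := K) (i : WithTop K)) (hsig : SigL (K := K) (i : WithTop K))
    (hcov : CovL (K := K) (i : WithTop K)) (hsigj : SigL (K := K) j)
    (hgen : ∀ᶠ N in club, ∀ p : Cond K, Has N p → ∃ e : Cond K,
      pt e (i : WithTop K) ⊆ pt p (i : WithTop K) ∧ ∀ x ∈ pt e (i : WithTop K), Gen N i x) :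
    PotF i j := by
  intro f hf hfd hf01 c p hpc
  obtain ⟨e, h1, h2, -, w, h3, h4, h5⟩ := pot_main hj hdec hsig hcov hsigj hgen hf hfd hf01
    (D := fun _ => univ) (fun _ q => ⟨q, mem_univ _, subset_rfl⟩) hpc
  exact ⟨e, h1, h2, w, h3, h4, fun x hx t ht r => (h5 x hx t ht r).1⟩

/-- Potentials and open covers from the theorem of block P. -/
theorem pot_all (hdec : ∀ j : WithTop K, DecL (K := K) j) (hsig : ∀ j : WithTop K, SigL (K := K) j)
    (hcov : ∀ j : WithTop K, CovL (K := K) j)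
    (hgen : ∀ i j : WithTop K, i ≤ j → ∀ᶠ N in club, GenExt (K := K) N i j)
    {i : K} {j : WithTop K} (hj : ∀ b : K, (b : WithTop K) < j ↔ b ≤ i)
    {f : ℕ → Pt K → ℝ} (hf : ∀ r, Measurable (f r)) (hfd : ∀ r, Det j (f r))
    (hf01 : ∀ r y, 0 ≤ f r y ∧ f r y ≤ 1) {D : ℕ → Set (Cond K)} (hD : ∀ k, DenseL j (D k))
    {c p : Cond K} (hpc : pt p (i : WithTop K) ⊆ pt c (i : WithTop K)) :
    ∃ e, pt e (i : WithTop K) ⊆ pt p (i : WithTop K) ∧ Pure i e c ∧ (∀ k, CovS i j (D k) e) ∧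
      ∃ w : ℕ → List ℕ → Pt K → ℝ, (∀ r t, Measurable (w r t)) ∧
        (∀ r t, Det (i : WithTop K) (w r t)) ∧
        ∀ x ∈ pt e (i : WithTop K), ∀ t, (e.T i).nd x t → ∀ r,
          (∀ ε > 0, ∃ M, ∀ m ≥ M, m ∈ (e.T i).W x t → ∀ y ∈ pt e j, Agr (i : WithTop K) y x →
            pre (y i) (t.length + 1) = m :: t → |f r y - w r t x| ≤ ε) ∧
          (r ≤ t.length → ∀ y ∈ pt e j, Agr (i : WithTop K) y x → pre (y i) t.length = t →
            |f r y - w r t x| ≤ 2 / ((t.length : ℝ) + 1)) :=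
  pot_main hj (hdec i) (hsig i) (hcov i) (hsig j) (gen_cond hgen i) hf hfd hf01 hD hpc

theorem potF_all (hdec : ∀ j : WithTop K, DecL (K := K) j) (hsig : ∀ j : WithTop K, SigL (K := K) j)
    (hcov : ∀ j : WithTop K, CovL (K := K) j)
    (hgen : ∀ i j : WithTop K, i ≤ j → ∀ᶠ N in club, GenExt (K := K) N i j)
    {i : K} {j : WithTop K} (hj : ∀ b : K, (b : WithTop K) < j ↔ b ≤ i) : PotF i j :=
  potF hj (hdec i) (hsig i) (hcov i) (hsig j) (gen_cond hgen i)

end Pool.Agent.GPA
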