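import Pool.Agent.GPA.XDefs
import Pool.Agent.GPA.Pot
import Pool.Agent.GPA.PAll

/-!
# The one step theorem: potentials of open names, definitions and first properties

A name is a family `c y n` of open sets, `ON c y` is the union of the `c y n`. `PotN i j e (c, w)`:
at the point `x` of the level `i` and the node `t` of the tree of `e` over `x`, the number `w x t r`
is the limit of the measures of the part of `ON c y` inside the cylinder of `r`, for the points `y`
of `e` above `x` through `m :: t`, as `m → ∞`. `den (w x t)` is the density and `tot L ν t x` is the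
sum of the integrals of the densities of the list `L` with respect to `ν`.
-/

open MeasureTheory Set Filter Topology
open scoped ENNReal

namespace Pool.Agent.GPA

variable {K : Type} [LinearOrder K]

/-- The cylinder. -/
abbrev cyl (r : List Bool) : Set (YS ℕ) := cylS (fun z : YS ℕ => z) r

/-- The measure of the cylinder. -/
noncomputable abbrev mcyl (r : List Bool) : ℝ := (coin ℕ).real (cyl r)

/-- The union of the pieces. -/
def ON (c : Pt K → ℕ → Set (YS ℕ)) (y : Pt K) : Set (YS ℕ) := ⋃ n, c y n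

/-- A name and a family of potentials. -/
abbrev NW (K : Type) : Type := (Pt K → ℕ → Set (YS ℕ)) × (Pt K → List ℕ → List Bool → ℝ)

/-- `cw.2` is the family of the potentials of the open name `cw.1` in the trees of `e` at the
coordinate `i`. -/
structure PotN (i : K) (j : WithTop K) (e : Cond K) (cw : NW K) : Prop where
  meas : ∀ t r, Measurable fun x => cw.2 x t r
  det : Det (i : WithTop K) cw.2
  lim : ∀ x ∈ pt e (i : WithTop K), ∀ t, (e.T i).nd x t → ∀ r, ∀ ε > 0, ∃ M, ∀ m ≥ M,
    m ∈ (e.T i).W x t → ∀ y ∈ pt e j, Agr (i : WithTop K) y x →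
      pre (y i) (t.length + 1) = m :: t → |(coin ℕ).real (ON cw.1 y ∩ cyl r) - cw.2 x t r| ≤ ε

/-- The density. -/
noncomputable def den (v : List Bool → ℝ) (z : YS ℕ) : ℝ := dens mcyl v z

/-- The total. -/
noncomputable def tot (L : List (NW K)) (ν : Measure (YS ℕ)) (t : List ℕ) (x : Pt K) : ℝ :=
  (L.map fun cw => ∫ z, den (cw.2 x t) z ∂ν).sum

omit [LinearOrder K] in
theorem tot_append (L L' : List (NW K)) (ν : Measure (YS ℕ)) (t : List ℕ) (x : Pt K) :
    tot (L ++ L') ν t x = tot L ν t x + tot L' ν t x := by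
  simp [tot]

omit [LinearOrder K] in
theorem tot_replicate (n : ℕ) (cw : NW K) (ν : Measure (YS ℕ)) (t : List ℕ) (x : Pt K) :
    tot (List.replicate n cw) ν t x = n * ∫ z, den (cw.2 x t) z ∂ν := by
  simp [tot]

/-! ### The next level -/

/-- Inclusion at the level `j` from inclusion at the level `i` and of the trees. -/
theorem pt_subset_next {i : K} {j : WithTop K} (hj : ∀ b : K, (b : WithTop K) < j ↔ b ≤ i)
    {e c : Cond K} (h : pt e (i : WithTop K) ⊆ pt c (i : WithTop K))
    (h' : ∀ x ∈ pt e (i : WithTop K), (e.T i).Sub (c.T i) x) : pt e j ⊆ pt c j := by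
  intro y hy
  rw [mem_pt_next hj] at hy ⊢
  exact ⟨h hy.1, (sub_iff_br ((e.T i).inf y)).1 (h' y hy.1) hy.2⟩

/-- There is a point of `e` above `x` through every node. -/
theorem exists_above [WellFoundedLT K] {i : K} {j : WithTop K} {e : Cond K} {x : Pt K}
    (hx : x ∈ pt e (i : WithTop K)) {t : List ℕ} (ht : (e.T i).nd x t) :
    ∃ y ∈ pt e j, Agr (i : WithTop K) y x ∧ pre (y i) t.length = t := by
  obtain ⟨z, hz, hzt⟩ := exists_br ((e.T i).inf x) ht
  obtain ⟨y, hy, hyx, hyi⟩ := exists_ext_coord e hx hz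
  exact ⟨y, pt_anti e le_top hy, hyx, by rw [hyi]; exact hzt⟩

namespace PotN

variable {i : K} {j : WithTop K} {e : Cond K} {cw : NW K}

/-- Potentials are inherited by subtrees. -/
theorem mono (hj : ∀ b : K, (b : WithTop K) < j ↔ b ≤ i) (h : PotN i j e cw) {e' : Cond K}
    (h1 : pt e' (i : WithTop K) ⊆ pt e (i : WithTop K))
    (h2 : ∀ x ∈ pt e' (i : WithTop K), (e'.T i).Sub (e.T i) x) : PotN i j e' cw := by
  refine ⟨h.meas, h.det, fun x hx t ht σ ε hε => ?_⟩
  obtain ⟨M, hM⟩ := h.lim x (h1 hx) t (h2 x hx t ht) σ ε hε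
  refine ⟨M, fun m hm hmW y hy hyx hyt => hM m hm ((h2 x hx).subset ht hmW) y
    (pt_subset_next hj h1 h2 hy) hyx hyt⟩

variable [WellFoundedLT K]

/-- The potential is a limit of values at points above `x` through `t`. -/
theorem exists_seq (h : PotN i j e cw) {x : Pt K} (hx : x ∈ pt e (i : WithTop K)) {t : List ℕ}
    (ht : (e.T i).nd x t) : ∃ y : ℕ → Pt K, (∀ n, y n ∈ pt e j ∧ Agr (i : WithTop K) (y n) x ∧
      pre (y n i) t.length = t) ∧
      ∀ r, Tendsto (fun n => (coin ℕ).real (ON cw.1 (y n) ∩ cyl r)) atTop (𝓝 (cw.2 x t r)) := by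
  have h1 : ∀ n : ℕ, ∃ m, n ≤ m ∧ m ∈ (e.T i).W x t := fun n => by
    obtain ⟨m, hm, hn⟩ := ((e.T i).inf x t).exists_gt n
    exact ⟨m, hn.le, hm⟩
  choose m hm hmW using h1
  have h2 : ∀ n : ℕ, ∃ y ∈ pt e j, Agr (i : WithTop K) y x ∧
      pre (y i) (t.length + 1) = m n :: t := fun n => by
    obtain ⟨y, h1, h2, h3⟩ := exists_above (j := j) hx (nd_cons ht (hmW n))
    exact ⟨y, h1, h2, h3⟩
  choose y hy hyx hyt using h2
  refine ⟨y, fun n => ⟨hy n, hyx n, ?_⟩, fun r => ?_⟩
  · have := hyt n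
    rw [pre_succ] at this
    exact (List.cons.inj this).2
  · refine Metric.tendsto_atTop.2 fun ε hε => ?_
    obtain ⟨M, hM⟩ := h.lim x hx t ht r (ε / 2) (by positivity)
    refine ⟨M, fun n hn => ?_⟩
    have := hM (m n) (hn.trans (hm n)) (hmW n) (y n) (hy n) (hyx n) (hyt n)
    rw [Real.dist_eq]
    linarith

theorem nonneg (h : PotN i j e cw) {x : Pt K} (hx : x ∈ pt e (i : WithTop K)) {t : List ℕ}
    (ht : (e.T i).nd x t) (r : List Bool) : 0 ≤ cw.2 x t r := by
  obtain ⟨y, -, hy⟩ := h.exists_seq hx ht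
  exact ge_of_tendsto' (hy r) fun n => measureReal_nonneg

theorem le_mcyl (h : PotN i j e cw) {x : Pt K} (hx : x ∈ pt e (i : WithTop K)) {t : List ℕ}
    (ht : (e.T i).nd x t) (r : List Bool) : cw.2 x t r ≤ mcyl r := by
  obtain ⟨y, -, hy⟩ := h.exists_seq hx ht
  exact le_of_tendsto' (hy r) fun n => measureReal_mono inter_subset_right

theorem split (h : PotN i j e cw) {x : Pt K} (hx : x ∈ pt e (i : WithTop K)) {t : List ℕ}
    (ht : (e.T i).nd x t) (r : List Bool) :
    cw.2 x t r = cw.2 x t (r ++ [false]) + cw.2 x t (r ++ [true]) := by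
  obtain ⟨y, -, hy⟩ := h.exists_seq hx ht
  refine tendsto_nhds_unique (hy r) (((hy _).add (hy _)).congr fun n => ?_)
  have hm : MeasurableSet (cyl (r ++ [true])) := measurableSet_cylS measurable_id _
  have h1 := measureReal_inter_add_sdiff (μ := coin ℕ) (s := ON cw.1 (y n) ∩ cyl r) hm
  have h2 : cyl r = cyl (r ++ [false]) ∪ cyl (r ++ [true]) := cylS_split r
  have h3 : Disjoint (cyl (r ++ [false])) (cyl (r ++ [true])) := cylS_disj r
  have h4 : ON cw.1 (y n) ∩ cyl r ∩ cyl (r ++ [true]) = ON cw.1 (y n) ∩ cyl (r ++ [true]) := by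
    rw [inter_assoc, h2, inter_eq_self_of_subset_right (s := cyl (r ++ [false]) ∪ cyl (r ++ [true]))
      (t := cyl (r ++ [true])) subset_union_right]
  have h5 : (ON cw.1 (y n) ∩ cyl r) \ cyl (r ++ [true]) = ON cw.1 (y n) ∩ cyl (r ++ [false]) := by
    rw [inter_sdiff_assoc, h2, union_sdiff_right, h3.sdiff_eq_left]
  rw [h4, h5] at h1
  rw [← h1, add_comm]

/-- A bound for the measures is a bound for the potentials. -/
theorem le_of_bound (h : PotN i j e cw) {b : ℝ} (hb : ∀ y, (coin ℕ).real (ON cw.1 y) ≤ b) {x : Pt K}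
    (hx : x ∈ pt e (i : WithTop K)) {t : List ℕ} (ht : (e.T i).nd x t) : cw.2 x t [] ≤ b := by
  obtain ⟨y, -, hy⟩ := h.exists_seq hx ht
  exact le_of_tendsto' (hy []) fun n => (measureReal_mono inter_subset_left).trans (hb _)

/-- The potentials of the successors converge to the potential of the node. -/
theorem tendsto_succ (h : PotN i j e cw) {x : Pt K} (hx : x ∈ pt e (i : WithTop K)) {t : List ℕ}
    (ht : (e.T i).nd x t) (r : List Bool) : Tendsto (fun m => cw.2 x (m :: t) r)
      (atTop ⊓ 𝓟 ((e.T i).W x t)) (𝓝 (cw.2 x t r)) := by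
  refine Metric.tendsto_nhds.2 fun ε hε => ?_
  obtain ⟨M, hM⟩ := h.lim x hx t ht r (ε / 2) (by positivity)
  rw [eventually_inf_principal]
  filter_upwards [eventually_ge_atTop M] with m hm hmW
  obtain ⟨y, hy1, hy2⟩ := h.exists_seq hx (nd_cons ht hmW)
  have h1 : |cw.2 x (m :: t) r - cw.2 x t r| ≤ ε / 2 :=
    le_of_tendsto' ((hy2 r).sub_const (cw.2 x t r)).abs fun n =>
      hM m hm hmW (y n) (hy1 n).1 (hy1 n).2.1 (hy1 n).2.2
  rw [Real.dist_eq]
  linarith

/-- The potential of a cylinder which is included in the open set for all points above `x`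
through `t`. -/
theorem eq_mcyl (h : PotN i j e cw) {x : Pt K} (hx : x ∈ pt e (i : WithTop K)) {t : List ℕ}
    (ht : (e.T i).nd x t) {r : List Bool} (hr : ∀ y ∈ pt e j, Agr (i : WithTop K) y x →
      pre (y i) t.length = t → cyl r ⊆ ON cw.1 y) : cw.2 x t r = mcyl r := by
  obtain ⟨y, hy1, hy2⟩ := h.exists_seq hx ht
  refine tendsto_nhds_unique (hy2 r) (tendsto_const_nhds.congr fun n => ?_)
  rw [inter_eq_self_of_subset_right (hr (y n) (hy1 n).1 (hy1 n).2.1 (hy1 n).2.2)]

theorem den_mem (h : PotN i j e cw) {x : Pt K} (hx : x ∈ pt e (i : WithTop K)) {t : List ℕ}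
    (ht : (e.T i).nd x t) (z : YS ℕ) : 0 ≤ den (cw.2 x t) z ∧ den (cw.2 x t) z ≤ 1 :=
  ⟨dens_nonneg (h.nonneg hx ht) (h.le_mcyl hx ht), dens_le_one (h.nonneg hx ht) (h.le_mcyl hx ht)⟩

theorem integral_den (h : PotN i j e cw) {x : Pt K} (hx : x ∈ pt e (i : WithTop K)) {t : List ℕ}
    (ht : (e.T i).nd x t) (r : List Bool) :
    ∫ z in cyl r, den (cw.2 x t) z ∂coin ℕ = cw.2 x t r :=
  setIntegral_dens (c := fun z : YS ℕ => z) (μ := coin ℕ) (w := cw.2 x t) measurable_id
    (h.nonneg hx ht) (h.le_mcyl hx ht) (h.split hx ht) r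

end PotN

theorem measurable_den_right (v : List Bool → ℝ) : Measurable (den v) := measurable_dens' v

omit [LinearOrder K] in
theorem measurable_den {w : Pt K → List ℕ → List Bool → ℝ} (hw : ∀ t r, Measurable fun x => w x t r)
    (t : List ℕ) : Measurable fun p : Pt K × YS ℕ => den (w p.1 t) p.2 := by
  unfold den
  exact measurable_dens (X := Pt K) (m := mcyl) (w := fun x r => w x t r) fun r => hw t r

end Pool.Agent.GPA
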