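import Pool.Agent.GPA.OneDefs

/-!
# The one step theorem: the limit along a branch
-/

open MeasureTheory Set Filter Topology
open scoped ENNReal

namespace Pool.Agent.GPA

theorem ini_eq_ini {z z' : ℕ → Bool} {k : ℕ} : ini z' k = ini z k ↔ ∀ a < k, z' a = z a := by
  unfold ini
  rw [List.ofFn_inj]
  constructor
  · intro h a ha
    exact congrFun h ⟨a, ha⟩
  · intro h
    funext a
    exact h a a.2

theorem mem_cyl_ini {z z' : YS ℕ} {k : ℕ} : z' ∈ cyl (ini z k) ↔ ∀ a < k, z' a = z a := by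
  show ini z' (ini z k).length = ini z k ↔ _
  rw [length_ini]
  exact ini_eq_ini

/-- A neighbourhood of a point includes the small cylinders of the point. -/
theorem exists_cyl_subset {U : Set (YS ℕ)} (hU : IsOpen U) {z : YS ℕ} (hz : z ∈ U) :
    ∃ k₀, ∀ k ≥ k₀, cyl (ini z k) ⊆ U := by
  obtain ⟨I, u, h1, h2⟩ := isOpen_pi_iff.1 hU z hz
  refine ⟨I.sup id + 1, fun k hk z' hz' => h2 fun a ha => ?_⟩
  have h3 : a < k := lt_of_lt_of_le (Nat.lt_succ_of_le (Finset.le_sup (f := id) ha)) hk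
  rw [mem_cyl_ini.1 hz' a h3]
  exact (h1 a ha).2

theorem mcyl_ini_ne_zero (z : YS ℕ) (k : ℕ) : mcyl (ini z k) ≠ 0 := by
  have h : cyl (ini z k) = {x : YS ℕ | ∀ a ∈ Finset.range k, x a = z a} := by
    ext z'
    rw [mem_cyl_ini]
    simp
  unfold mcyl
  rw [h]
  unfold Measure.real
  have h2 := coin_cyl (I := ℕ) (Finset.range k) z
  rw [h2, ENNReal.toReal_pow]
  exact pow_ne_zero _ (by simp)

/-- The total of a list of names is monotone in the list. -/
theorem le_tot_append {K : Type} {A L : List (NW K)} {ν : Measure (YS ℕ)} {t : List ℕ} {y : Pt K}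
    (h : ∀ cw ∈ A, ∀ z, 0 ≤ den (cw.2 y t) z) : tot L ν t y ≤ tot (A ++ L) ν t y := by
  rw [tot_append]
  have : 0 ≤ tot A ν t y := by
    unfold tot
    refine List.sum_nonneg fun a ha => ?_
    obtain ⟨cw, hcw, rfl⟩ := List.mem_map.1 ha
    exact integral_nonneg fun z => h cw hcw z
  linarith

variable {K : Type} [LinearOrder K] [WellFoundedLT K] {i : K} {j : WithTop K}

theorem tendsto_one {y : Pt K} (hj : ∀ b : K, (b : WithTop K) < j ↔ b ≤ i) {e : ℕ → Cond K}
    {l₀ : ℕ} {cw : NW K} (he : ∀ n, y ∈ pt (e n) j)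
    (hs : ∀ n, ((e n).T i).s y = pre (y i) (l₀ + n)) {n : ℕ}
    (hpot : ∀ m ≥ n, PotN i j (e m) cw) (hop : ∀ l, IsOpen (cw.1 y l))
    (hfr : ∀ l, ∃ n₁, ∀ n₂ ≥ n₁, ∀ z ∈ pt (e n₂) j, Agr (i : WithTop K) z y →
      cw.1 z l = cw.1 y l) {z : YS ℕ} (hz : z ∈ ON cw.1 y) :
    ∀ᶠ m in atTop, den (cw.2 y (pre (y i) (l₀ + m))) z = 1 := by
  obtain ⟨l, hl⟩ := mem_iUnion.1 hz
  obtain ⟨n₁, hn₁⟩ := hfr l
  obtain ⟨k₀, hk₀⟩ := exists_cyl_subset (hop l) hl
  filter_upwards [eventually_ge_atTop n₁, eventually_ge_atTop n] with m hm1 hm2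
  have hnd : ((e m).T i).nd y (pre (y i) (l₀ + m)) := by
    rw [← hs m]
    exact nd_self _ _
  have hx : y ∈ pt (e m) (i : WithTop K) := ((mem_pt_next hj).1 (he m)).1
  refine dens_eq_one (n₀ := k₀) (fun k hk => ?_) fun k _ => mcyl_ini_ne_zero z k
  refine (hpot m hm2).eq_mcyl hx hnd fun y' hy' hy'y _ => ?_
  refine (hk₀ k hk).trans ?_
  rw [← hn₁ m hm1 y' hy' hy'y]
  exact subset_iUnion (cw.1 y') l

/-- The limit along a branch: the open sets have small measure. -/
theorem lim_branch (hj : ∀ b : K, (b : WithTop K) < j ↔ b ≤ i) {y : Pt K} {ν : Measure (YS ℕ)}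
    [IsFiniteMeasure ν] {e : ℕ → Cond K} {L : ℕ → List (NW K)} {l₀ : ℕ} {δ : ℝ}
    (he : ∀ n, y ∈ pt (e n) j) (hs : ∀ n, ((e n).T i).s y = pre (y i) (l₀ + n))
    (hL : ∀ n, ∃ A, L (n + 1) = A ++ L n) (hpot : ∀ n, ∀ cw ∈ L n, PotN i j (e n) cw)
    (hop : ∀ n, ∀ cw ∈ L n, ∀ l, IsOpen (cw.1 y l))
    (hfr : ∀ n, ∀ cw ∈ L n, ∀ l, ∃ n₁, ∀ n₂ ≥ n₁, ∀ z ∈ pt (e n₂) j, Agr (i : WithTop K) z y →
      cw.1 z l = cw.1 y l)
    (hb : ∀ n, tot (L n) ν (pre (y i) (l₀ + n)) y ≤ δ) :
    ∀ n, ((L n).map fun cw => ν (ON cw.1 y)).sum ≤ ENNReal.ofReal δ := by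
  intro n
  -- the lists increase
  have hL' : ∀ m ≥ n, ∃ A, L m = A ++ L n := by
    intro m hm
    induction m, hm using Nat.le_induction with
    | base => exact ⟨[], rfl⟩
    | succ m _ ih =>
      obtain ⟨A, hA⟩ := ih
      obtain ⟨B, hB⟩ := hL m
      exact ⟨B ++ A, by rw [hB, hA, List.append_assoc]⟩
  have hmem : ∀ m ≥ n, ∀ cw ∈ L n, cw ∈ L m := by
    intro m hm cw hcw
    obtain ⟨A, hA⟩ := hL' m hm
    rw [hA]
    exact List.mem_append_right _ hcw
  have hnd : ∀ m, ((e m).T i).nd y (pre (y i) (l₀ + m)) := by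
    intro m
    rw [← hs m]
    exact nd_self _ _
  have hx : ∀ m, y ∈ pt (e m) (i : WithTop K) := fun m => ((mem_pt_next hj).1 (he m)).1
  have hden : ∀ m, ∀ cw ∈ L m, ∀ z, 0 ≤ den (cw.2 y (pre (y i) (l₀ + m))) z ∧
      den (cw.2 y (pre (y i) (l₀ + m))) z ≤ 1 := fun m cw hcw z =>
    (hpot m cw hcw).den_mem (hx m) (hnd m) z
  have hON : ∀ cw ∈ L n, MeasurableSet (ON cw.1 y) := fun cw hcw =>
    MeasurableSet.iUnion fun l => (hop n cw hcw l).measurableSet
  -- the limits
  have hlim : ∀ cw ∈ L n, Tendsto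
      (fun m => ∫ z in ON cw.1 y, den (cw.2 y (pre (y i) (l₀ + m))) z ∂ν) atTop
      (𝓝 (ν.real (ON cw.1 y))) := by
    intro cw hcw
    have h1 : ν.real (ON cw.1 y) = ∫ z in ON cw.1 y, (1 : ℝ) ∂ν := by
      rw [setIntegral_const, smul_eq_mul, mul_one]
    rw [h1]
    refine tendsto_integral_filter_of_dominated_convergence (fun _ => 1) ?_ ?_
      (integrable_const _) ?_
    · exact Eventually.of_forall fun m => (measurable_den_right _).aestronglyMeasurable
    · filter_upwards [eventually_ge_atTop n] with m hm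
      refine ae_of_all _ fun z => ?_
      have := hden m cw (hmem m hm cw hcw) z
      rw [Real.norm_eq_abs, abs_of_nonneg this.1]
      exact this.2
    · rw [ae_restrict_iff' (hON cw hcw)]
      refine ae_of_all _ fun z hz => tendsto_const_nhds.congr' ?_
      filter_upwards [tendsto_one hj he hs (n := n)
        (fun m hm => hpot m cw (hmem m hm cw hcw)) (hop n cw hcw) (hfr n cw hcw) hz] with m hm
      exact hm.symm
  have hsum : Tendsto (fun m => ((L n).map fun cw =>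
      ∫ z in ON cw.1 y, den (cw.2 y (pre (y i) (l₀ + m))) z ∂ν).sum) atTop
      (𝓝 ((L n).map fun cw => ν.real (ON cw.1 y)).sum) := tendsto_list_sum _ hlim
  have hle : ((L n).map fun cw => ν.real (ON cw.1 y)).sum ≤ δ := by
    refine le_of_tendsto hsum ?_
    filter_upwards [eventually_ge_atTop n] with m hm
    obtain ⟨A, hA⟩ := hL' m hm
    have h1 : tot (L n) ν (pre (y i) (l₀ + m)) y ≤ δ := by
      refine (le_tot_append (A := A) fun cw hcw z => ?_).trans (by rw [← hA]; exact hb m)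
      exact (hden m cw (by rw [hA]; exact List.mem_append_left _ hcw) z).1
    refine le_trans ?_ h1
    unfold tot
    refine List.sum_le_sum fun cw hcw => ?_
    have h2 := hden m cw (hmem m hm cw hcw)
    refine setIntegral_le_integral ?_ (ae_of_all _ fun z => (h2 z).1)
    exact Integrable.of_bound (measurable_den_right _).aestronglyMeasurable 1
      (ae_of_all _ fun z => by rw [Real.norm_eq_abs, abs_of_nonneg (h2 z).1]; exact (h2 z).2)
  have hreal : ∀ M : List (NW K), (M.map fun cw => ν (ON cw.1 y)).sum =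
      ENNReal.ofReal (M.map fun cw => ν.real (ON cw.1 y)).sum := by
    intro M
    induction M with
    | nil => simp
    | cons cw M ih =>
      simp only [List.map_cons, List.sum_cons]
      rw [ih, ENNReal.ofReal_add measureReal_nonneg
        (List.sum_nonneg fun a ha => by
          obtain ⟨cw', -, rfl⟩ := List.mem_map.1 ha
          exact measureReal_nonneg), ofReal_measureReal]
  rw [hreal]
  exact ENNReal.ofReal_le_ofReal hle

end Pool.Agent.GPA
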