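import Pool.Agent.GPA.OneDefs
import Pool.Agent.GPA.Borel
import Pool.Agent.GPA.LavXa

/-!
# The one step theorem: the total of the densities

The total does not increase much at infinitely many successors of a node, the integrals of the
densities of the tails of a code tend to `0`, measurability of the total.
-/

open MeasureTheory Set Filter Topology
open scoped ENNReal

namespace Pool.Agent.GPA

/-! ### Lists of bounded functions -/

section Lists

variable {α Y : Type} [MeasurableSpace Y]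

theorem measurable_list_sum {L : List α} {f : α → Y → ℝ} (hf : ∀ c ∈ L, Measurable (f c)) :
    Measurable fun y => (L.map fun c => f c y).sum := by
  induction L with
  | nil => simp
  | cons c L ih =>
    simp only [List.map_cons, List.sum_cons]
    exact (hf c (by simp)).add (ih fun d hd => hf d (by simp [hd]))

theorem list_sum_mem {L : List α} {f : α → ℝ} (hf : ∀ c ∈ L, 0 ≤ f c ∧ f c ≤ 1) :
    0 ≤ (L.map f).sum ∧ (L.map f).sum ≤ L.length := by
  induction L with
  | nil => simp
  | cons c L ih =>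
    have h1 := ih fun d hd => hf d (by simp [hd])
    have h2 := hf c (by simp)
    simp only [List.map_cons, List.sum_cons, List.length_cons, Nat.cast_add, Nat.cast_one]
    exact ⟨by linarith [h1.1, h2.1], by linarith [h1.2, h2.2]⟩

theorem integral_list_sum {ν : Measure Y} {L : List α} {f : α → Y → ℝ}
    (hf : ∀ c ∈ L, Integrable (f c) ν) :
    Integrable (fun y => (L.map fun c => f c y).sum) ν ∧
      ∫ y, (L.map fun c => f c y).sum ∂ν = (L.map fun c => ∫ y, f c y ∂ν).sum := by
  induction L with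
  | nil => simp
  | cons c L ih =>
    obtain ⟨h1, h2⟩ := ih fun d hd => hf d (by simp [hd])
    simp only [List.map_cons, List.sum_cons]
    exact ⟨(hf c (by simp)).add h1, by rw [integral_add (hf c (by simp)) h1, h2]⟩

theorem tendsto_list_sum {β : Type} {l : Filter β} {L : List α} {f : α → β → ℝ} {g : α → ℝ}
    (hf : ∀ c ∈ L, Tendsto (f c) l (𝓝 (g c))) :
    Tendsto (fun b => (L.map fun c => f c b).sum) l (𝓝 (L.map g).sum) := by
  induction L with
  | nil => simpa using tendsto_const_nhds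
  | cons c L ih =>
    simp only [List.map_cons, List.sum_cons]
    exact (hf c (by simp)).add (ih fun d hd => hf d (by simp [hd]))

end Lists

variable {K : Type} [LinearOrder K] {i : K} {j : WithTop K}

/-- A null set may be made to depend only on the coordinates below `i`. -/
theorem nullName_cut {Z : Set (Pt K × YS ℕ)} (hZ : MeasurableSet Z)
    (hZ0 : ∀ x, coin ℕ (sec Z x) = 0) :
    NullName (i : WithTop K) {p : Pt K × YS ℕ | (cut i p.1, p.2) ∈ Z} := by
  refine ⟨?_, fun x y hxy => ?_, fun x => hZ0 (cut i x)⟩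
  · have h1 : Measurable (cut i : XS K → XS K) := (measurable_cut i).mono (lev_le i) le_rfl
    exact ((h1.comp measurable_fst).prodMk measurable_snd) hZ
  · have h2 : cut i x = cut i y := by
      classical
      funext a
      show (if a < i then x a else _) = (if a < i then y a else _)
      split_ifs with ha
      · exact hxy a (WithTop.coe_lt_coe.2 ha)
      · rfl
    ext z
    show (cut i x, z) ∈ Z ↔ (cut i y, z) ∈ Z
    rw [h2]

theorem integrable_den {v : List Bool → ℝ} (hv : ∀ z, 0 ≤ den v z ∧ den v z ≤ 1)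
    (ν : Measure (YS ℕ)) [IsFiniteMeasure ν] : Integrable (den v) ν :=
  Integrable.of_bound (measurable_den_right v).aestronglyMeasurable 1
    (Eventually.of_forall fun z => by
      rw [Real.norm_eq_abs, abs_of_nonneg (hv z).1]
      exact (hv z).2)

variable [WellFoundedLT K]

theorem tot_eq {L : List (NW K)} {e : Cond K} (hL : ∀ cw ∈ L, PotN i j e cw) {x : Pt K}
    (hx : x ∈ pt e (i : WithTop K)) {t : List ℕ} (ht : (e.T i).nd x t) (ν : Measure (YS ℕ))
    [IsFiniteMeasure ν] : ∫ z, (L.map fun cw => den (cw.2 x t) z).sum ∂ν = tot L ν t x :=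
  (integral_list_sum fun cw h => integrable_den ((hL cw h).den_mem hx ht) ν).2

theorem setIntegral_sum_den {L : List (NW K)} {e : Cond K} (hL : ∀ cw ∈ L, PotN i j e cw)
    {x : Pt K} (hx : x ∈ pt e (i : WithTop K)) {t : List ℕ} (ht : (e.T i).nd x t)
    (r : List Bool) : ∫ z in cyl r, (L.map fun cw => den (cw.2 x t) z).sum ∂coin ℕ =
      (L.map fun cw => cw.2 x t r).sum := by
  rw [(integral_list_sum fun cw h => integrable_den ((hL cw h).den_mem hx ht) _).2]
  congr 1
  exact List.map_congr_left fun cw h => (hL cw h).integral_den hx ht r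

theorem tendsto_sum_den {L : List (NW K)} {e : Cond K} (hL : ∀ cw ∈ L, PotN i j e cw)
    {x : Pt K} (hx : x ∈ pt e (i : WithTop K)) {t : List ℕ} (ht : (e.T i).nd x t)
    (r : List Bool) : Tendsto (fun m => ∫ z in cyl r,
      (L.map fun cw => den (cw.2 x (m :: t)) z).sum ∂coin ℕ) (atTop ⊓ 𝓟 ((e.T i).W x t))
      (𝓝 (∫ z in cyl r, (L.map fun cw => den (cw.2 x t) z).sum ∂coin ℕ)) := by
  rw [setIntegral_sum_den hL hx ht r]
  refine (tendsto_list_sum (f := fun (cw : NW K) m => cw.2 x (m :: t) r)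
    fun cw h => (hL cw h).tendsto_succ hx ht r).congr' ?_
  rw [EventuallyEq, eventually_inf_principal]
  exact Eventually.of_forall fun m hm => (setIntegral_sum_den hL hx (nd_cons ht hm) r).symm

/-- The total does not increase much at infinitely many successors. -/
theorem saks_child (hS : SaksL) {L : List (NW K)} {e : Cond K} (hL : ∀ cw ∈ L, PotN i j e cw)
    (t : List ℕ) : ∃ Z, NullName (i : WithTop K) Z ∧ ∀ x ∈ pt e (i : WithTop K), (e.T i).nd x t →
      ∀ ν : Measure (YS ℕ), IsFiniteMeasure ν → ν (sec Z x) = 0 → ∀ ε : ℝ, 0 < ε →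
        ∀ k : ℕ, ∃ m ∈ (e.T i).W x t, k ≤ m ∧ tot L ν (m :: t) x ≤ tot L ν t x + ε := by
  have hF : ∀ s, Measurable fun p : Pt K × YS ℕ => (L.map fun cw => den (cw.2 p.1 s) p.2).sum :=
    fun s => measurable_list_sum (f := fun (cw : NW K) (p : Pt K × YS ℕ) =>
      den (cw.2 p.1 s) p.2) fun cw hcw => measurable_den (hL cw hcw).meas s
  have h0 := hS (X := Pt K)
    (F := fun m x z => (L.map fun cw => den (cw.2 x (m :: t)) z).sum)
    (G := fun x z => (L.map fun cw => den (cw.2 x t) z).sum)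
    (A := fun x => (e.T i).W x t) (C := (L.length : ℝ))
  have h1 := h0 (by intro m; exact hF (m :: t))
  have h2 := h1 (by exact hF t)
  obtain ⟨Z, hZ, hZ0, hZS⟩ := h2 (by intro m; exact (e.T i).mW t m)
  refine ⟨_, nullName_cut (i := i) hZ hZ0, fun x hx ht ν hν hνZ ε hε k => ?_⟩
  have hagr : Agr (i : WithTop K) (cut i x) x := agr_cut i x
  have hx' : cut i x ∈ pt e (i : WithTop K) := (mem_pt_congr e hagr).2 hx
  have ht' : (e.T i).nd (cut i x) t := (e.nd_congr hagr t).2 ht
  have hW : (e.T i).W (cut i x) = (e.T i).W x := e.dW i _ _ hagr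
  have hcw : ∀ cw ∈ L, cw.2 (cut i x) = cw.2 x := fun cw h => (hL cw h).det _ _ hagr
  have h4 := hZS (cut i x) ((e.T i).inf _ t)
  have h5 := h4 (by
    intro m hm z
    exact list_sum_mem fun cw h => (hL cw h).den_mem hx' (nd_cons ht' hm) z)
  have h6 := h5 (by
    intro z
    exact list_sum_mem fun cw h => (hL cw h).den_mem hx' ht' z)
  have h7 := h6 (by
    intro r
    exact tendsto_sum_den hL hx' ht' r)
  obtain ⟨m, hm, hkm, hle⟩ := h7 ν hν hνZ ε hε k
  refine ⟨m, hW ▸ hm, hkm, ?_⟩
  rw [tot_eq hL hx' (nd_cons ht' hm) ν, tot_eq hL hx' ht' ν] at hle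
  have h3 : ∀ s, tot L ν s x = tot L ν s (cut i x) := by
    intro s
    unfold tot
    congr 1
    exact List.map_congr_left fun cw h => by rw [hcw cw h]
  rw [h3, h3]
  exact hle

omit [WellFoundedLT K] in
/-- The integrals of densities with summable masses tend to `0`. -/
theorem tail_small {w : ℕ → Pt K → List ℕ → List Bool → ℝ}
    (hw : ∀ k t r, Measurable fun x => w k x t r) (hd : ∀ k, Det (i : WithTop K) (w k))
    {τ : ℕ → Pt K → List ℕ} (hτ : ∀ k t, MeasurableSet {x | τ k x = t})
    (hτd : ∀ k, Det (i : WithTop K) (τ k)) :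
    ∃ Z, NullName (i : WithTop K) Z ∧ ∀ x,
      (∀ k z, 0 ≤ den (w k x (τ k x)) z ∧ den (w k x (τ k x)) z ≤ 1) →
      (∃ a : ℝ, ∀ k, ∫ z, den (w k x (τ k x)) z ∂coin ℕ ≤ a * 4⁻¹ ^ k) →
      ∀ ν : Measure (YS ℕ), IsFiniteMeasure ν → ν (sec Z x) = 0 →
        Tendsto (fun k => ∫ z, den (w k x (τ k x)) z ∂ν) atTop (𝓝 0) := by
  have hm : ∀ k, Measurable fun p : Pt K × YS ℕ =>
      ENNReal.ofReal (den (w k p.1 (τ k p.1)) p.2) := by
    intro k
    refine Measurable.ennreal_ofReal fun s hs => ?_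
    have h1 : (fun p : Pt K × YS ℕ => den (w k p.1 (τ k p.1)) p.2) ⁻¹' s =
        ⋃ t : List ℕ, (Prod.fst ⁻¹' {x | τ k x = t}) ∩
          (fun p : Pt K × YS ℕ => den (w k p.1 t) p.2) ⁻¹' s := by
      ext p
      simp only [mem_preimage, mem_iUnion, mem_inter_iff, mem_ofPred_eq]
      exact ⟨fun h => ⟨_, rfl, h⟩, fun ⟨t, ht, h⟩ => by rw [ht]; exact h⟩
    rw [h1]
    exact MeasurableSet.iUnion fun t => (measurable_fst (hτ k t)).inter
      (measurable_den (hw k) t hs)
  obtain ⟨Z, hZ, hZS⟩ := borel_cantelli (j := (i : WithTop K))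
    (f := fun k x z => ENNReal.ofReal (den (w k x (τ k x)) z)) hm (fun k x y hxy => by
      funext z
      show ENNReal.ofReal (den (w k x (τ k x)) z) = ENNReal.ofReal (den (w k y (τ k y)) z)
      rw [hd k x y hxy, hτd k x y hxy])
  refine ⟨Z, hZ, fun x h1 ⟨a, ha⟩ ν hν hνZ => ?_⟩
  have h2 : ∀ k, ∫⁻ z, ENNReal.ofReal (den (w k x (τ k x)) z) ∂coin ℕ ≤
      ENNReal.ofReal (a * 4⁻¹ ^ k) := by
    intro k
    rw [← ofReal_integral_eq_lintegral_ofReal (integrable_den (h1 k) _)
      (Eventually.of_forall fun z => (h1 k z).1)]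
    exact ENNReal.ofReal_le_ofReal (ha k)
  have h3 : (∑' k, ∫⁻ z, ENNReal.ofReal (den (w k x (τ k x)) z) ∂coin ℕ) ≠ ⊤ := by
    have ha0 : 0 ≤ a := by
      have h4 : 0 ≤ ∫ z, den (w 0 x (τ 0 x)) z ∂coin ℕ := integral_nonneg fun z => (h1 0 z).1
      simpa using h4.trans (ha 0)
    have h5 : Summable fun k : ℕ => a * (4⁻¹ : ℝ) ^ k :=
      (summable_geometric_of_lt_one (by norm_num) (by norm_num)).mul_left a
    refine ne_top_of_le_ne_top ?_ (ENNReal.tsum_le_tsum h2)
    rw [← ENNReal.ofReal_tsum_of_nonneg (fun k => by positivity) h5]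
    exact ENNReal.ofReal_ne_top
  have h4 : ∀ᵐ z ∂ν, Tendsto (fun k => den (w k x (τ k x)) z) atTop (𝓝 0) := by
    have h5 : ∀ᵐ z ∂ν, z ∉ sec Z x := by
      rw [ae_iff]
      have h6 : {z | ¬ z ∉ sec Z x} = sec Z x := by
        ext z
        exact not_not
      rw [h6]
      exact hνZ
    filter_upwards [h5] with z hz
    have h6 := (ENNReal.tendsto_toReal ENNReal.zero_ne_top).comp (hZS x h3 z hz)
    rw [ENNReal.toReal_zero] at h6
    refine h6.congr fun k => ?_
    exact ENNReal.toReal_ofReal (h1 k z).1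
  have h5 := tendsto_integral_of_dominated_convergence (μ := ν) (F := fun k z => den (w k x (τ k x)) z)
    (f := fun _ => 0) (fun _ => (1 : ℝ)) (fun k => (measurable_den_right _).aestronglyMeasurable)
    (integrable_const 1) (fun k => Eventually.of_forall fun z => by
      rw [Real.norm_eq_abs, abs_of_nonneg (h1 k z).1]
      exact (h1 k z).2) h4
  simpa using h5

omit [WellFoundedLT K] in
theorem measurable_tot {π : Pt K → Measure (YS ℕ)} (hπ : Ker (i : WithTop K) π)
    {L : List (NW K)} (hL : ∀ cw ∈ L, ∀ t r, Measurable fun x => cw.2 x t r) (t : List ℕ) :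
    Measurable fun x => tot L (π x) t x := by
  have hfin : ∀ x, IsFiniteMeasure (π x) := fun x => ⟨(hπ.le x).trans_lt ENNReal.one_lt_top⟩
  let κ : ProbabilityTheory.Kernel (Pt K) (YS ℕ) :=
    ⟨π, Measure.measurable_of_measurable_coe _ hπ.meas⟩
  have hκ : ProbabilityTheory.IsFiniteKernel κ := ⟨⟨1, ENNReal.one_lt_top, fun x => hπ.le x⟩⟩
  unfold tot
  refine measurable_list_sum (f := fun (cw : NW K) (x : Pt K) => ∫ z, den (cw.2 x t) z ∂π x)
    fun cw hcw => ?_
  have h1 : StronglyMeasurable fun p : Pt K × YS ℕ => den (cw.2 p.1 t) p.2 :=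
    (measurable_den (hL cw hcw) t).stronglyMeasurable
  exact (h1.integral_kernel_prod_right' (κ := κ)).measurable

omit [WellFoundedLT K] in
theorem det_tot {π : Pt K → Measure (YS ℕ)} (hπ : Ker (i : WithTop K) π)
    {L : List (NW K)} (hL : ∀ cw ∈ L, Det (i : WithTop K) cw.2) (t : List ℕ) :
    Det (i : WithTop K) fun x => tot L (π x) t x := by
  intro x y hxy
  show tot L (π x) t x = tot L (π y) t y
  unfold tot
  rw [hπ.det x y hxy]
  congr 1
  exact List.map_congr_left fun cw h => by rw [hL cw h x y hxy]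

/-- The mass of the tail of a code. -/
theorem integral_den_le {a k : ℕ} {c : Pt K → ℕ → Set (YS ℕ)} (hc : IsCode j a k c) {e : Cond K}
    {w : Pt K → List ℕ → List Bool → ℝ} (h : PotN i j e (c, w)) {x : Pt K}
    (hx : x ∈ pt e (i : WithTop K)) {t : List ℕ} (ht : (e.T i).nd x t) :
    ∫ z, den (w x t) z ∂coin ℕ ≤ 2 * a * 4⁻¹ ^ k := by
  have h1 := h.integral_den hx ht []
  rw [show cyl [] = (univ : Set (YS ℕ)) from cylS_nil, Measure.restrict_univ] at h1
  rw [show ∫ z, den (w x t) z ∂coin ℕ = w x t [] from h1]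
  refine h.le_of_bound (fun y => ?_) hx ht
  have h2 : coin ℕ (ON c y) ≤ ENNReal.ofReal (2 * a * 4⁻¹ ^ k) := by
    calc coin ℕ (ON c y) ≤ ∑' n, coin ℕ (c y n) := measure_iUnion_le _
      _ ≤ ∑' n, ENNReal.ofReal (a * 4⁻¹ ^ k * 4⁻¹ ^ n) := by
        refine ENNReal.tsum_le_tsum fun n => (hc.le y n).trans (le_of_eq ?_)
        rw [ENNReal.ofReal_mul (by positivity), ENNReal.ofReal_mul (by positivity),
          ENNReal.ofReal_natCast, ENNReal.ofReal_pow (by norm_num), ENNReal.ofReal_pow (by norm_num),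
          ENNReal.ofReal_inv_of_pos (by norm_num), ENNReal.ofReal_ofNat, pow_add, mul_assoc]
      _ = ENNReal.ofReal (∑' n : ℕ, a * 4⁻¹ ^ k * (4⁻¹ : ℝ) ^ n) :=
        (ENNReal.ofReal_tsum_of_nonneg (fun n => by positivity)
          ((summable_geometric_of_lt_one (by norm_num) (by norm_num)).mul_left _)).symm
      _ ≤ ENNReal.ofReal (2 * a * 4⁻¹ ^ k) := by
        refine ENNReal.ofReal_le_ofReal ?_
        rw [tsum_mul_left, tsum_geometric_of_lt_one (by norm_num) (by norm_num)]
        have h3 : (0 : ℝ) ≤ a * 4⁻¹ ^ k := by positivity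
        nlinarith
  exact ENNReal.toReal_le_of_le_ofReal (by positivity) h2

end Pool.Agent.GPA
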