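import Pool.Agent.GPA.XBase
import Pool.Agent.GPA.OneDefs

/-!
# The step to the next level: the facts on the conditions of `N`

`i` is a coordinate and `j` is the level next to `i`.
`pot_codes`: potentials of the open names of countably many codes, in a pure extension.
`one_start`: below a generic point all conditions of a task can be thinned purely so that the codes
of the task have potentials, with one common restriction to the level `i`.
`one_improve`: a condition of `N` through a generic point of the level `i` has a pure extension in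
`N` with potentials for all tails of a code of `N`, covered openly by members of a dense set of `N`.
`one_cov`: a condition of `N` covered openly by members of a set of `N` is covered by the members
which belong to `N`.
-/

open MeasureTheory Set Filter Topology
open scoped ENNReal

namespace Pool.Agent.GPA

variable {K : Type} [LinearOrder K]

theorem IsCode.tail {j : WithTop K} {a k : ℕ} {c : Pt K → ℕ → Set (YS ℕ)} (h : IsCode j a k c)
    (m : ℕ) : IsCode j a (k + m) fun y n => c y (m + n) where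
  cm n := h.cm (m + n)
  det x y hxy := by
    funext n
    show c x (m + n) = c y (m + n)
    rw [h.det x y hxy]
  cyl y n := h.cyl y (m + n)
  le y n := by
    rw [Nat.add_assoc]
    exact h.le y (m + n)

theorem measurable_real_ON {j : WithTop K} {a k : ℕ} {c : Pt K → ℕ → Set (YS ℕ)}
    (h : IsCode j a k c) (r : List Bool) : Measurable fun y => (coin ℕ).real (ON c y ∩ cyl r) := by
  have h1 : ∀ n, MeasurableSet {p : Pt K × YS ℕ | p.2 ∈ c p.1 n} := by
    intro n
    have h2 : {p : Pt K × YS ℕ | p.2 ∈ c p.1 n} =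
        ⋃ v ∈ range (fun y => c y n), {y | c y n = v} ×ˢ v := by
      ext p
      simp only [mem_ofPred_eq, mem_iUnion, mem_prod, exists_prop]
      constructor
      · intro hp
        exact ⟨c p.1 n, ⟨p.1, rfl⟩, rfl, hp⟩
      · rintro ⟨v, -, rfl, hp⟩
        exact hp
    rw [h2]
    refine MeasurableSet.biUnion (h.cm n).1 ?_
    rintro _ ⟨y, rfl⟩
    exact ((h.cm n).2 _).prod (h.cyl y n).measurableSet
  have h3 : MeasurableSet {p : Pt K × YS ℕ | p.2 ∈ ON c p.1 ∩ cyl r} := by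
    have h4 : {p : Pt K × YS ℕ | p.2 ∈ ON c p.1 ∩ cyl r} =
        (⋃ n, {p : Pt K × YS ℕ | p.2 ∈ c p.1 n}) ∩ Prod.snd ⁻¹' cyl r := by
      ext p
      simp [ON]
    rw [h4]
    exact (MeasurableSet.iUnion h1).inter (measurable_snd (measurableSet_cylS measurable_id _))
  exact (measurable_measure_prodMk_left h3).ennreal_toReal

variable [WellFoundedLT K] {i : K} {j : WithTop K}

/-- Potentials for the open names of countably many codes, in a pure extension. -/
theorem pot_codes (hj : ∀ b : K, (b : WithTop K) < j ↔ b ≤ i) {C : ℕ → Pt K → ℕ → Set (YS ℕ)}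
    (hC : ∀ k, ∃ a b, IsCode j a b (C k)) {D : Set (Cond K)} (hD : DenseL j D)
    {c p : Cond K} (hpc : pt p (i : WithTop K) ⊆ pt c (i : WithTop K)) :
    ∃ e, pt e (i : WithTop K) ⊆ pt p (i : WithTop K) ∧ Pure i e c ∧ CovS i j D e ∧
      ∃ w : ℕ → Pt K → List ℕ → List Bool → ℝ, ∀ k, PotN i j e (C k, w k) := by
  obtain ⟨σ, hσ⟩ := exists_surjective_nat (ℕ × List Bool)
  obtain ⟨e, h1, h2, h3, w, h4, h5, h6⟩ := pot_all decL sigL covL (fun _ _ h => genExt_club h) hj
    (f := fun n y => (coin ℕ).real (ON (C (σ n).1) y ∩ cyl (σ n).2))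
    (fun n => by
      obtain ⟨a, b, h⟩ := hC (σ n).1
      exact measurable_real_ON h _)
    (fun n y y' h => by
      obtain ⟨a, b, h'⟩ := hC (σ n).1
      show (coin ℕ).real (ON (C (σ n).1) y ∩ cyl (σ n).2) =
        (coin ℕ).real (ON (C (σ n).1) y' ∩ cyl (σ n).2)
      unfold ON
      rw [h'.det y y' h])
    (fun n y => ⟨measureReal_nonneg, measureReal_le_one⟩) (D := fun _ => D) (fun _ => hD) hpc
  choose g hg using hσ
  refine ⟨e, h1, h2, h3 0, fun k x t r => w (g (k, r)) t x, fun k => ⟨fun t r => h4 _ _,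
    fun x y h => ?_, fun x hx t ht r ε hε => ?_⟩⟩
  · funext t r
    exact h5 _ t x y h
  · obtain ⟨M, hM⟩ := (h6 x hx t ht (g (k, r))).1 ε hε
    refine ⟨M, fun m hm hmW y hy hyx hyt => ?_⟩
    have := hM m hm hmW y hy hyx hyt
    rwa [hg] at this

omit [WellFoundedLT K] in
theorem one_cov : ∀ᶠ N in club, ∀ (e : Cond K) (D : Set (Cond K)), Has N e → Has N D →
    CovS i j D e → ∀ y ∈ pt e j, ∃ k, ∃ d ∈ D, Has N d ∧ ∀ z ∈ pt e j,
      Agr (i : WithTop K) z y → pre (z i) k = pre (y i) k → z ∈ pt d j := by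
  filter_upwards [club_skolem₂ fun (e : Cond K) (D C : Set (Cond K)) => C.Countable ∧ C ⊆ D ∧
    ∀ y ∈ pt e j, ∃ k, ∃ d ∈ C, ∀ z ∈ pt e j, Agr (i : WithTop K) z y →
      pre (z i) k = pre (y i) k → z ∈ pt d j, club_of_mem (Cond K)] with N h1 h2 e D he hD hc y hy
  obtain ⟨C, hC, h3, h4, h5⟩ := h1 e D he hD hc
  obtain ⟨k, d, hd, h6⟩ := h5 y hy
  exact ⟨k, d, h4 hd, h2 C hC h3 d hd, h6⟩

/-- The tree of `f x` at the coordinate `i` over the condition `e`. -/
noncomputable def Cond.updSel (e : Cond K) (i : K) (f : Pt K → Cond K) (hf : CM f)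
    (hd : Det (i : WithTop K) f) : Cond K :=
  e.upd i (MT.sel (fun x => (f x).T i) (hf.map fun c => c.T i))
    (fun x y h => by
      show ((f x).T i).s x = ((f y).T i).s y
      rw [hd x y h]
      exact (f y).ds i x y h)
    (fun x y h => by
      show ((f x).T i).W x = ((f y).T i).W y
      rw [hd x y h]
      exact (f y).dW i x y h)

omit [WellFoundedLT K] in
theorem Cond.updSel_T (e : Cond K) (i : K) (f : Pt K → Cond K) (hf : CM f)
    (hd : Det (i : WithTop K) f) :
    (e.updSel i f hf hd).T i = MT.sel (fun x => (f x).T i) (hf.map fun c => c.T i) :=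
  Function.update_self _ _ _

omit [WellFoundedLT K] in
theorem Cond.pt_updSel (e : Cond K) (i : K) (f : Pt K → Cond K) (hf : CM f)
    (hd : Det (i : WithTop K) f) : pt (e.updSel i f hf hd) (i : WithTop K) = pt e i := by
  ext x
  refine forall₂_congr fun a ha => ?_
  have h : (e.updSel i f hf hd).T a = e.T a :=
    Function.update_of_ne (WithTop.coe_lt_coe.1 ha).ne _ _
  rw [h]

theorem one_improve (hj : ∀ b : K, (b : WithTop K) < j ↔ b ≤ i) :
    ∀ᶠ N in club, ∀ (e : Cond K) (c : Pt K → ℕ → Set (YS ℕ)) (D : Set (Cond K)),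
      Has N e → Has N c → Has N D → IsCode j 1 0 c → DenseL j D →
      ∀ x, Gen N (i : WithTop K) x → x ∈ pt e (i : WithTop K) →
      ∃ (e' : Cond K) (w : ℕ → Pt K → List ℕ → List Bool → ℝ), Has N e' ∧ Has N w ∧
        x ∈ pt e' (i : WithTop K) ∧ pt e' (i : WithTop K) ⊆ pt e (i : WithTop K) ∧ Pure i e' e ∧
        CovS i j D e' ∧ ∀ k, PotN i j e' ((fun y n => c y (k + n)), w k) := by
  filter_upwards [gen_reflect_wit (decL (i : WithTop K))
    (fun (u : Cond K × (Pt K → ℕ → Set (YS ℕ)) × Set (Cond K)) e'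
      (w : ℕ → Pt K → List ℕ → List Bool → ℝ) => Pure i e' u.1 ∧ CovS i j u.2.2 e' ∧
        ∀ k, PotN i j e' ((fun y n => u.2.1 y (k + n)), w k)), club_pair]
    with N h1 h2 e c D he hc hD hcode hDd x hx hxe
  obtain ⟨e', w, h3, h4, h5, h6, h7, h8, h9⟩ := h1 (e, c, D) e
    (h2 _ _ e (c, D) he (h2 _ _ c D hc hD)) he (fun r hr => by
      obtain ⟨e', g1, g2, g3, w, g4⟩ := pot_codes hj (C := fun k y n => c y (k + n)) (D := D)
        (fun k => ⟨1, 0 + k, hcode.tail k⟩) hDd hr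
      exact ⟨e', g1, w, g2, g3, g4⟩) x hx hxe
  exact ⟨e', w, h3, h4, h5, h6, h7, h8, h9⟩

theorem one_start (hj : ∀ b : K, (b : WithTop K) < j ↔ b ≤ i) :
    ∀ᶠ N in club, ∀ u : Task K, Has N u → IsTask j u → ∀ x, Gen N (i : WithTop K) x →
      (∀ m, x ∈ pt (u.1 m) (i : WithTop K)) →
      ∃ (e : Cond K) (E : ℕ → Cond K) (w : ℕ → Pt K → List ℕ → List Bool → ℝ),
        Has N e ∧ Has N E ∧ Has N w ∧ x ∈ pt e (i : WithTop K) ∧
        (∀ m, pt e (i : WithTop K) ⊆ pt (E m) (i : WithTop K)) ∧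
        (∀ m, pt (E m) j ⊆ pt (u.1 m) j) ∧ ∀ m, PotN i j (E m) (u.2.1 m, w m) := by
  filter_upwards [gen_inf (decL (i : WithTop K)) (sigL (i : WithTop K)),
    club_map (fun u : Task K => u.1), club_map (Prod.fst : (ℕ → Cond K) ×
      (ℕ → Pt K → List ℕ → List Bool → ℝ) → _), club_map (Prod.snd : (ℕ → Cond K) ×
      (ℕ → Pt K → List ℕ → List Bool → ℝ) → _), gen_reflect_wit (decL (i : WithTop K))
    (fun (u : Task K) e (v : (ℕ → Cond K) × (ℕ → Pt K → List ℕ → List Bool → ℝ)) =>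
      (∀ m, pt e (i : WithTop K) ⊆ pt (v.1 m) (i : WithTop K)) ∧
        (∀ m, pt (v.1 m) j ⊆ pt (u.1 m) j) ∧ ∀ m, PotN i j (v.1 m) (u.2.1 m, v.2 m))]
    with N h1 h2 hf hs h3 u hu hut x hx hxu
  obtain ⟨p₀, hp₀, hxp, hpu⟩ := h1 u.1 (h2 u hu) x hx hxu
  obtain ⟨e, v, h4, h5, h6, -, h7, h8, h9⟩ := h3 u p₀ hu hp₀ (fun r hr => by
    classical
    let U := Cond K × {w : Pt K → List ℕ → List Bool → ℝ //
      (∀ t r, Measurable fun x => w x t r) ∧ Det (i : WithTop K) w}
    have hU : Nonempty U := ⟨(Cond.full, ⟨fun _ _ _ => 0, fun _ _ => measurable_const,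
      Det.const _ _⟩)⟩
    obtain ⟨e, he, g, hg1, hg2, hg3⟩ := select blockP_all (U := U) (fun m (u' : U) x =>
      x ∈ pt u'.1 (i : WithTop K) ∧ (u'.1.T i).Sub ((u.1 m).T i) x ∧
        ∀ t, (u'.1.T i).nd x t → ∀ r, ∀ ε > 0, ∃ M, ∀ m' ≥ M, m' ∈ (u'.1.T i).W x t →
          ∀ y ∈ pt u'.1 j, Agr (i : WithTop K) y x → pre (y i) (t.length + 1) = m' :: t →
            |(coin ℕ).real (ON (u.2.1 m) y ∩ cyl r) - u'.2.1 x t r| ≤ ε) r
      (fun m e he => by
        obtain ⟨e', g1, g2, -, w, g4⟩ := pot_codes hj (C := fun _ => u.2.1 m) (D := Set.univ)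
          (fun _ => ⟨_, _, hut m⟩) (fun p => ⟨p, mem_univ _, subset_rfl⟩)
          (he.trans (hr.trans (hpu m)))
        exact ⟨e', (e', ⟨w 0, (g4 0).meas, (g4 0).det⟩), g1,
          fun x hx => ⟨hx, (g2 x hx).2, (g4 0).lim x hx⟩⟩)
    refine ⟨e, he, (fun m => e.updSel i (fun x => (g m x).1) ((hg1 m).map Prod.fst)
      ((hg2 m).map Prod.fst), fun m x => (g m x).2.1 x), fun m => ?_, fun m y hy => ?_,
      fun m => ⟨fun t r => ?_, ?_, fun x hx t ht r' ε hε => ?_⟩⟩
    · rw [Cond.pt_updSel]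
    · obtain ⟨hy1, hy2⟩ := (mem_pt_next hj).1 hy
      rw [Cond.pt_updSel] at hy1
      rw [Cond.updSel_T] at hy2
      obtain ⟨-, g2, -⟩ := hg3 m y hy1
      refine (mem_pt_next hj).2 ⟨hpu m (hr (he hy1)), ?_⟩
      exact (sub_iff_br (((g m y).1.T i).inf y)).1 g2 hy2
    · intro S hS
      exact (hg1 m).rel (R := fun (u' : U) x => u'.2.1 x t r ∈ S) fun u' => u'.2.2.1 t r hS
    · exact Det.bind (hg2 m) (G := fun (u' : U) x => u'.2.1 x) fun u' => u'.2.2.2
    · rw [Cond.pt_updSel] at hx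
      rw [Cond.updSel_T] at ht ⊢
      obtain ⟨g1, -, g3⟩ := hg3 m x hx
      obtain ⟨M, hM⟩ := g3 t ht r' ε hε
      refine ⟨M, fun m' hm hmW y hy hyx hyt => hM m' hm hmW y ?_ hyx hyt⟩
      obtain ⟨-, hy2⟩ := (mem_pt_next hj).1 hy
      rw [Cond.updSel_T] at hy2
      have h10 : g m y = g m x := hg2 m y x hyx
      refine (mem_pt_next hj).2 ⟨(mem_pt_congr _ hyx).2 g1, ?_⟩
      have h11 : y i ∈ ((g m y).1.T i).br y := hy2
      rwa [h10] at h11) x hx hxp
  exact ⟨e, v.1, v.2, h4, hf v h5, hs v h5, h6, h7, h8, h9⟩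

end Pool.Agent.GPA
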