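import Pool.Agent.GPA.OneM
import Pool.Agent.GPA.OneN
import Pool.Agent.GPA.OneLim
import Pool.Agent.GPA.Codes
import Pool.Agent.GPA.Read

/-!
# The one step theorem: the closure properties of `N`
-/

open MeasureTheory Set Filter Topology
open scoped ENNReal

namespace Pool.Agent.GPA

variable {K : Type} [LinearOrder K] [WellFoundedLT K] {i : K} {j : WithTop K}

namespace OneF

/-- The families of potentials. -/
abbrev Wt (K : Type) : Type := Pt K → List ℕ → List Bool → ℝ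

/-- The closure properties used in the one step theorem. -/
structure Ok (i : K) (j : WithTop K) (N : Set Obj) : Prop where
  cnt : N.Countable
  start : ∀ u : Task K, Has N u → IsTask j u → ∀ x, Gen N (i : WithTop K) x →
    (∀ m, x ∈ pt (u.1 m) (i : WithTop K)) → ∃ (e : Cond K) (E : ℕ → Cond K) (w : ℕ → Wt K),
      Has N e ∧ Has N E ∧ Has N w ∧ x ∈ pt e (i : WithTop K) ∧
      (∀ m, pt e (i : WithTop K) ⊆ pt (E m) (i : WithTop K)) ∧
      (∀ m, pt (E m) j ⊆ pt (u.1 m) j) ∧ ∀ m, PotN i j (E m) (u.2.1 m, w m)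
  improve : ∀ (e : Cond K) (c : Pt K → ℕ → Set (YS ℕ)) (D : Set (Cond K)),
    Has N e → Has N c → Has N D → IsCode j 1 0 c → DenseL j D →
    ∀ x, Gen N (i : WithTop K) x → x ∈ pt e (i : WithTop K) →
    ∃ (e' : Cond K) (w : ℕ → Wt K), Has N e' ∧ Has N w ∧
      x ∈ pt e' (i : WithTop K) ∧ pt e' (i : WithTop K) ⊆ pt e (i : WithTop K) ∧ Pure i e' e ∧
      CovS i j D e' ∧ ∀ k, PotN i j e' ((fun y n => c y (k + n)), w k)
  cov : ∀ (e : Cond K) (D : Set (Cond K)), Has N e → Has N D →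
    CovS i j D e → ∀ y ∈ pt e j, ∃ k, ∃ d ∈ D, Has N d ∧ ∀ z ∈ pt e j,
      Agr (i : WithTop K) z y → pre (z i) k = pre (y i) k → z ∈ pt d j
  saks : ∀ (e : Cond K) (L : List (NW K)) (t : List ℕ), Has N e → Has N L → Has N t →
    (∀ cw ∈ L, PotN i j e cw) → ∃ Z : Set (Pt K × YS ℕ), Has N Z ∧ NullName (i : WithTop K) Z ∧
      ∀ x ∈ pt e (i : WithTop K), (e.T i).nd x t →
      ∀ ν : Measure (YS ℕ), IsFiniteMeasure ν → ν (sec Z x) = 0 → ∀ ε : ℝ, 0 < ε →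
        ∀ k : ℕ, ∃ m ∈ (e.T i).W x t, k ≤ m ∧ tot L ν (m :: t) x ≤ tot L ν t x + ε
  tail : ∀ (w : ℕ → Wt K) (τ : ℕ → Pt K → List ℕ), Has N w → Has N τ →
    (∀ k t r, Measurable fun x => w k x t r) → (∀ k, Det (i : WithTop K) (w k)) →
    (∀ k t, MeasurableSet {x | τ k x = t}) → (∀ k, Det (i : WithTop K) (τ k)) →
    ∃ Z : Set (Pt K × YS ℕ), Has N Z ∧ NullName (i : WithTop K) Z ∧ ∀ x,
      (∀ k z, 0 ≤ den (w k x (τ k x)) z ∧ den (w k x (τ k x)) z ≤ 1) →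
      (∃ a : ℝ, ∀ k, ∫ z, den (w k x (τ k x)) z ∂coin ℕ ≤ a * 4⁻¹ ^ k) →
      ∀ ν : Measure (YS ℕ), IsFiniteMeasure ν → ν (sec Z x) = 0 →
        Tendsto (fun k => ∫ z, den (w k x (τ k x)) z ∂ν) atTop (𝓝 0)
  nat : ∀ n : ℕ, Has N n
  lst : ∀ t : List ℕ, Has N t
  rst : ∀ (e : Cond K) (t : List ℕ), Has N e → Has N (Fus.rst i e t)
  cons : ∀ (L : List (NW K)) (c : Pt K → ℕ → Set (YS ℕ)) (w : ℕ → Wt K) (k n : ℕ),
    Has N L → Has N c → Has N w →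
    Has N (List.replicate n (((fun y m => c y (k + m)), w k) : NW K) ++ L)
  tl : ∀ (c : Pt K → ℕ → Set (YS ℕ)) (k : ℕ), Has N c → Has N fun y m => c y (k + m)
  ini : ∀ (u : Task K) (w : ℕ → Wt K) (k : ℕ), Has N u → Has N w →
    Has N [((u.2.1 k, w k) : NW K)]
  ucode : ∀ (u : Task K) (k : ℕ), Has N u → Has N (u.2.1 k)
  seqE : ∀ (E : ℕ → Cond K) (k : ℕ), Has N E → Has N (E k)
  stems : ∀ E : ℕ → Cond K, Has N E → Has N fun (k : ℕ) (x : Pt K) => ((E k).T i).s x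
  const : ∀ t : List ℕ, Has N fun (_ : ℕ) (_ : Pt K) => t
  dd : ∀ (c : Pt K → ℕ → Set (YS ℕ)) (l : ℕ), Has N c →
    Has N {d : Cond K | ∃ v, ∀ y ∈ pt d j, c y l = v}
  code : ∀ W : Set (Pt K × YS ℕ), Has N W → NullName j W →
    ∃ c, Has N c ∧ IsCode j 1 0 c ∧ ∀ y k, sec W y ⊆ ⋃ n, c y (k + n)
  univ : Has N (Set.univ : Set (Cond K))
  triv : Has N fun (_ : Pt K) (_ : ℕ) => (∅ : Set (YS ℕ))

theorem club_saks (hS : SaksL) : ∀ᶠ N in club, ∀ (e : Cond K) (L : List (NW K)) (t : List ℕ),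
    Has N e → Has N L → Has N t → (∀ cw ∈ L, PotN i j e cw) →
    ∃ Z : Set (Pt K × YS ℕ), Has N Z ∧ NullName (i : WithTop K) Z ∧
      ∀ x ∈ pt e (i : WithTop K), (e.T i).nd x t →
      ∀ ν : Measure (YS ℕ), IsFiniteMeasure ν → ν (sec Z x) = 0 → ∀ ε : ℝ, 0 < ε →
        ∀ k : ℕ, ∃ m ∈ (e.T i).W x t, k ≤ m ∧ tot L ν (m :: t) x ≤ tot L ν t x + ε := by
  filter_upwards [club_pair, club_skolem (fun (q : Cond K × List (NW K) × List ℕ)
    (Z : Set (Pt K × YS ℕ)) => NullName (i : WithTop K) Z ∧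
      ∀ x ∈ pt q.1 (i : WithTop K), (q.1.T i).nd x q.2.2 →
      ∀ ν : Measure (YS ℕ), IsFiniteMeasure ν → ν (sec Z x) = 0 → ∀ ε : ℝ, 0 < ε →
        ∀ k : ℕ, ∃ m ∈ (q.1.T i).W x q.2.2, k ≤ m ∧
          tot q.2.1 ν (m :: q.2.2) x ≤ tot q.2.1 ν q.2.2 x + ε)] with N h1 h2 e L t he hL ht hp
  obtain ⟨Z, h3, h4⟩ := saks_child hS hp t
  obtain ⟨Z', h5, h6⟩ := h2 (e, L, t) (h1 _ _ _ _ he (h1 _ _ _ _ hL ht)) ⟨Z, h3, h4⟩
  exact ⟨Z', h5, h6⟩

theorem club_tail : ∀ᶠ N in club, ∀ (w : ℕ → Wt K) (τ : ℕ → Pt K → List ℕ), Has N w → Has N τ →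
    (∀ k t r, Measurable fun x => w k x t r) → (∀ k, Det (i : WithTop K) (w k)) →
    (∀ k t, MeasurableSet {x | τ k x = t}) → (∀ k, Det (i : WithTop K) (τ k)) →
    ∃ Z : Set (Pt K × YS ℕ), Has N Z ∧ NullName (i : WithTop K) Z ∧ ∀ x,
      (∀ k z, 0 ≤ den (w k x (τ k x)) z ∧ den (w k x (τ k x)) z ≤ 1) →
      (∃ a : ℝ, ∀ k, ∫ z, den (w k x (τ k x)) z ∂coin ℕ ≤ a * 4⁻¹ ^ k) →
      ∀ ν : Measure (YS ℕ), IsFiniteMeasure ν → ν (sec Z x) = 0 →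
        Tendsto (fun k => ∫ z, den (w k x (τ k x)) z ∂ν) atTop (𝓝 0) := by
  filter_upwards [club_pair, club_skolem (fun (q : (ℕ → Wt K) × (ℕ → Pt K → List ℕ))
    (Z : Set (Pt K × YS ℕ)) => NullName (i : WithTop K) Z ∧ ∀ x,
      (∀ k z, 0 ≤ den (q.1 k x (q.2 k x)) z ∧ den (q.1 k x (q.2 k x)) z ≤ 1) →
      (∃ a : ℝ, ∀ k, ∫ z, den (q.1 k x (q.2 k x)) z ∂coin ℕ ≤ a * 4⁻¹ ^ k) →
      ∀ ν : Measure (YS ℕ), IsFiniteMeasure ν → ν (sec Z x) = 0 →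
        Tendsto (fun k => ∫ z, den (q.1 k x (q.2 k x)) z ∂ν) atTop (𝓝 0))]
    with N h1 h2 w τ hw hτ hwm hwd hτm hτd
  obtain ⟨Z, h3, h4⟩ := tail_small hwm hwd hτm hτd
  obtain ⟨Z', h5, h6⟩ := h2 (w, τ) (h1 _ _ _ _ hw hτ) ⟨Z, h3, h4⟩
  exact ⟨Z', h5, h6⟩

theorem club_ok (hj : ∀ b : K, (b : WithTop K) < j ↔ b ≤ i) (hS : SaksL) :
    ∀ᶠ N in club, Ok i j N := by
  filter_upwards [club_countable, one_start hj, one_improve hj, one_cov (i := i) (j := j),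
    club_saks (i := i) (j := j) hS, club_tail (i := i), club_type ℕ, club_type (List ℕ),
    club_map₂ (fun (e : Cond K) (t : List ℕ) => Fus.rst i e t),
    club_map₃ (fun (c : Pt K → ℕ → Set (YS ℕ)) (w : ℕ → Wt K) (k : ℕ) =>
      (((fun y m => c y (k + m)), w k) : NW K)),
    club_map₃ (fun (n : ℕ) (cw : NW K) (L : List (NW K)) => List.replicate n cw ++ L),
    club_map₂ (fun (c : Pt K → ℕ → Set (YS ℕ)) (k : ℕ) => fun (y : Pt K) (m : ℕ) => c y (k + m)),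
    club_map₃ (fun (u : Task K) (w : ℕ → Wt K) (k : ℕ) => [((u.2.1 k, w k) : NW K)]),
    club_map₂ (fun (u : Task K) (k : ℕ) => u.2.1 k),
    club_seq (Cond K), club_map (fun (E : ℕ → Cond K) => fun (k : ℕ) (x : Pt K) => ((E k).T i).s x),
    club_map (fun (t : List ℕ) => fun (_ : ℕ) (_ : Pt K) => t),
    club_map₂ (fun (c : Pt K → ℕ → Set (YS ℕ)) (l : ℕ) =>
      {d : Cond K | ∃ v, ∀ y ∈ pt d j, c y l = v}),
    club_skolem (fun (W : Set (Pt K × YS ℕ)) (c : Pt K → ℕ → Set (YS ℕ)) =>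
      IsCode j 1 0 c ∧ ∀ y k, sec W y ⊆ ⋃ n, c y (k + n)),
    club_const (Set.univ : Set (Cond K)),
    club_const (fun (_ : Pt K) (_ : ℕ) => (∅ : Set (YS ℕ)))] with
    N h1 h2 h3 h4 h5 h6 h7 h8 h9 h10 h11 h12 h13 h14 h15 h16 h17 h18 h19 h20 h21
  exact
    { cnt := h1
      start := h2
      improve := h3
      cov := h4
      saks := h5
      tail := h6
      nat := h7
      lst := h8
      rst := fun e t he => h9 e t he (h8 t)
      cons := fun L c w k n hL hc hw => h11 n _ L (h7 n) (h10 c w k hc hw (h7 k)) hL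
      tl := fun c k hc => h12 c k hc (h7 k)
      ini := fun u w k hu hw => h13 u w k hu hw (h7 k)
      ucode := fun u k hu => h14 u k hu (h7 k)
      seqE := fun E k hE => h15 E hE k
      stems := fun E hE => h16 E hE
      const := fun t => h17 t (h8 t)
      dd := fun c l hc => h18 c l hc (h7 l)
      code := fun W hW hn => h19 W hW (exists_code_of_null hn)
      univ := h20
      triv := h21 }

end OneF

end Pool.Agent.GPA
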