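import Pool.Agent.GPA.OneDefs

/-!
# The one step theorem: statements (task list, not part of the proof)
-/

open MeasureTheory Set Filter Topology
open scoped ENNReal

namespace Pool.Agent.GPA

namespace OneTasks

variable {K : Type} [LinearOrder K] [WellFoundedLT K] {i : K} {j : WithTop K}

/-! ### OneN.lean (helper48): from `pot_all` of Pot.lean, with `decL`, `sigL`, `covL`, `genExt_club` -/

theorem one_start (hj : ∀ b : K, (b : WithTop K) < j ↔ b ≤ i) :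
    ∀ᶠ N in club, ∀ u : Task K, Has N u → IsTask j u → ∀ x, Gen N (i : WithTop K) x →
      (∀ m, x ∈ pt (u.1 m) (i : WithTop K)) →
      ∃ (e : Cond K) (E : ℕ → Cond K) (w : ℕ → Pt K → List ℕ → List Bool → ℝ),
        Has N e ∧ Has N E ∧ Has N w ∧ x ∈ pt e (i : WithTop K) ∧
        (∀ m, pt e (i : WithTop K) ⊆ pt (E m) (i : WithTop K)) ∧
        (∀ m, pt (E m) j ⊆ pt (u.1 m) j) ∧ ∀ m, PotN i j (E m) (u.2.1 m, w m) := by
  sorry

theorem one_improve (hj : ∀ b : K, (b : WithTop K) < j ↔ b ≤ i) :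
    ∀ᶠ N in club, ∀ (e : Cond K) (c : Pt K → ℕ → Set (YS ℕ)) (D : Set (Cond K)),
      Has N e → Has N c → Has N D → IsCode j 1 0 c → DenseL j D →
      ∀ x, Gen N (i : WithTop K) x → x ∈ pt e (i : WithTop K) →
      ∃ (e' : Cond K) (w : ℕ → Pt K → List ℕ → List Bool → ℝ), Has N e' ∧ Has N w ∧
        x ∈ pt e' (i : WithTop K) ∧ pt e' (i : WithTop K) ⊆ pt e (i : WithTop K) ∧ Pure i e' e ∧
        CovS i j D e' ∧ ∀ k, PotN i j e' ((fun y n => c y (k + n)), w k) := by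
  sorry

/-- Every point of `e'` of a dense set of `N`, openly. -/
theorem one_cov : ∀ᶠ N in club, ∀ (e : Cond K) (D : Set (Cond K)), Has N e → Has N D →
    CovS i j D e → ∀ y ∈ pt e j, ∃ k, ∃ d ∈ D, Has N d ∧ ∀ z ∈ pt e j,
      Agr (i : WithTop K) z y → pre (z i) k = pre (y i) k → z ∈ pt d j := by
  sorry

/-! ### OneM.lean (helper56) -/

/-- The total does not increase much at infinitely many successors. -/
theorem saks_child (hS : SaksL) {L : List (NW K)} {e : Cond K} (hL : ∀ cw ∈ L, PotN i j e cw)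
    (t : List ℕ) : ∃ Z, NullName (i : WithTop K) Z ∧ ∀ x ∈ pt e (i : WithTop K), (e.T i).nd x t →
      ∀ ν : Measure (YS ℕ), IsFiniteMeasure ν → ν (sec Z x) = 0 → ∀ ε : ℝ, 0 < ε →
        ∀ k : ℕ, ∃ m ∈ (e.T i).W x t, k ≤ m ∧ tot L ν (m :: t) x ≤ tot L ν t x + ε := by
  sorry

/-- The integrals of densities with summable masses tend to `0`. -/
theorem tail_small {w : ℕ → Pt K → List ℕ → List Bool → ℝ}
    (hw : ∀ k t r, Measurable fun x => w k x t r) (hd : ∀ k, Det (i : WithTop K) (w k))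
    {τ : ℕ → Pt K → List ℕ} (hτ : ∀ k t, MeasurableSet {x | τ k x = t})
    (hτd : ∀ k, Det (i : WithTop K) (τ k)) :
    ∃ Z, NullName (i : WithTop K) Z ∧ ∀ x,
      (∀ k z, 0 ≤ den (w k x (τ k x)) z ∧ den (w k x (τ k x)) z ≤ 1) →
      (∃ a : ℝ, ∀ k, ∫ z, den (w k x (τ k x)) z ∂coin ℕ ≤ a * 4⁻¹ ^ k) →
      ∀ ν : Measure (YS ℕ), IsFiniteMeasure ν → ν (sec Z x) = 0 →
        Tendsto (fun k => ∫ z, den (w k x (τ k x)) z ∂ν) atTop (𝓝 0) := by
  sorry

theorem measurable_tot {π : Pt K → Measure (YS ℕ)} (hπ : Ker (i : WithTop K) π)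
    {L : List (NW K)} (hL : ∀ cw ∈ L, ∀ t r, Measurable fun x => cw.2 x t r) (t : List ℕ) :
    Measurable fun x => tot L (π x) t x := by
  sorry

theorem det_tot {π : Pt K → Measure (YS ℕ)} (hπ : Ker (i : WithTop K) π)
    {L : List (NW K)} (hL : ∀ cw ∈ L, Det (i : WithTop K) cw.2) (t : List ℕ) :
    Det (i : WithTop K) fun x => tot L (π x) t x := by
  sorry

/-- The mass of the tail of a code. -/
theorem integral_den_le {a k : ℕ} {c : Pt K → ℕ → Set (YS ℕ)} (hc : IsCode j a k c) {e : Cond K}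
    {w : Pt K → List ℕ → List Bool → ℝ} (h : PotN i j e (c, w)) {x : Pt K}
    (hx : x ∈ pt e (i : WithTop K)) {t : List ℕ} (ht : (e.T i).nd x t) :
    ∫ z, den (w x t) z ∂coin ℕ ≤ 2 * a * 4⁻¹ ^ k := by
  sorry

/-! ### OneLim.lean (helper31) -/

/-- The limit along a branch: the open sets have small measure. -/
theorem lim_branch (hj : ∀ b : K, (b : WithTop K) < j ↔ b ≤ i) {y : Pt K} {ν : Measure (YS ℕ)}
    [IsFiniteMeasure ν] {e : ℕ → Cond K} {L : ℕ → List (NW K)} {l₀ : ℕ} {δ : ℝ}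
    (he : ∀ n, y ∈ pt (e n) j) (hs : ∀ n, ((e n).T i).s y = pre (y i) (l₀ + n))
    (hL : ∀ n, ∃ A, L (n + 1) = A ++ L n) (hpot : ∀ n, ∀ cw ∈ L n, PotN i j (e n) cw)
    (hop : ∀ n, ∀ cw ∈ L n, ∀ l, IsOpen (cw.1 y l))
    (hfr : ∀ n, ∀ cw ∈ L n, ∀ l, ∃ n₁, ∀ n₂ ≥ n₁, ∀ z ∈ pt (e n₂) j, Agr (i : WithTop K) z y →
      cw.1 z l = cw.1 y l)
    (hb : ∀ n, tot (L n) ν (pre (y i) (l₀ + n)) y ≤ δ) :
    ∀ n, ((L n).map fun cw => ν (ON cw.1 y)).sum ≤ ENNReal.ofReal δ := by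
  sorry

end OneTasks

end Pool.Agent.GPA
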