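import Pool.Agent.GPA.PolMeas

/-!
# Block G, part 4: a countable base and the codes of the points
-/

set_option linter.unusedSectionVars false

namespace Pool.Agent.GPA

open Pool.Agent.SigB Pool.Agent.Frc Pool.Agent.Forc

variable {N : Type 1} [Membership N N] [IsZFC N] {r : RealData N} {Y d m u : N} {v : N → ℝ}

namespace PB

/-! ### The metric -/

theorem dist_map (h : PM r v Y d m) : d ∈ fs (pd Y Y) r.F := isMap2_iff.1 h.pol.map

/-- the distance as a real number -/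
noncomputable def D (v : N → ℝ) (d x y : N) : ℝ := v (ap d (op x y))

theorem dist_mem (h : PM r v Y d m) {x y : N} (hx : x ∈ Y) (hy : y ∈ Y) : ap d (op x y) ∈ r.F :=
  ap_mem (dist_map h) (op_mem_pd.2 ⟨hx, hy⟩)

theorem val2_dist (h : PM r v Y d m) {x y a : N} :
    Val2 d x y a ↔ x ∈ Y ∧ y ∈ Y ∧ ap d (op x y) = a := by
  rw [val2_iff, op_mem_fs (dist_map h), op_mem_pd, and_assoc]

theorem near_iff' (h : PM r v Y d m) {x y t : N} (ht : t ∈ r.F) :
    Near r d x y t ↔ x ∈ Y ∧ y ∈ Y ∧ D v d x y < v t := by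
  unfold Near
  constructor
  · rintro ⟨a, ha, hat⟩
    obtain ⟨hx, hy, rfl⟩ := (val2_dist h).1 ha
    exact ⟨hx, hy, (h.rv.lt_iff (dist_mem h hx hy) ht).1 hat⟩
  · rintro ⟨hx, hy, hlt⟩
    exact ⟨_, (val2_dist h).2 ⟨hx, hy, rfl⟩, (h.rv.lt_iff (dist_mem h hx hy) ht).2 hlt⟩

theorem D_symm (h : PM r v Y d m) {x y : N} (hx : x ∈ Y) (hy : y ∈ Y) : D v d x y = D v d y x := by
  have h1 := h.pol.symm x y _ ((val2_dist h).2 ⟨hx, hy, rfl⟩)
  unfold D
  rw [((val2_dist h).1 h1).2.2]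

theorem D_triangle (h : PM r v Y d m) {x y w : N} (hx : x ∈ Y) (hy : y ∈ Y) (hw : w ∈ Y) :
    D v d x w ≤ D v d x y + D v d y w := by
  have h1 := h.pol.triangle x y w _ _ _ (ap r.add (op (ap d (op x y)) (ap d (op y w))))
    ((val2_dist h).2 ⟨hx, hw, rfl⟩) ((val2_dist h).2 ⟨hx, hy, rfl⟩)
    ((val2_dist h).2 ⟨hy, hw, rfl⟩) (val2_iff.2 ((op_mem_fs h.rv.addM).2
      ⟨op_mem_pd.2 ⟨dist_mem h hx hy, dist_mem h hy hw⟩, rfl⟩))
  rw [Pool.Agent.SigB.val_iff, h.rv.le (dist_mem h hx hw)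
    (h.rv.add_mem (dist_mem h hx hy) (dist_mem h hy hw)),
    h.rv.add (dist_mem h hx hy) (dist_mem h hy hw)] at h1
  exact h1

theorem isOpenSet_iff' (h : PM r v Y d m) {U : N} : IsOpenSet r Y d U ↔ Sb U Y ∧
    ∀ y, y ∈ U → ∃ ε : ℝ, 0 < ε ∧ ∀ x, x ∈ Y → D v d y x < ε → x ∈ U := by
  unfold IsOpenSet
  refine and_congr_right fun hU => forall₂_congr fun y hy => ?_
  constructor
  · rintro ⟨t, ht, hx⟩
    have htF : t ∈ r.F := ((Pool.Agent.SigB.val_iff.1 ht.1) |> h.rv.leM).2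
    refine ⟨v t, ?_, fun x hxY hlt => hx x hxY ((near_iff' h htF).2 ⟨hU y hy, hxY, hlt⟩)⟩
    have := (h.rv.lt_iff h.rv.zeroM htF).1 ht
    rwa [h.rv.zero] at this
  · rintro ⟨ε, hε, hx⟩
    obtain ⟨t, htF, h1, h2⟩ := h.rv.exists_btw hε
    refine ⟨t, (h.rv.lt_iff h.rv.zeroM htF).2 (by rw [h.rv.zero]; exact h1), fun x hxY hn => ?_⟩
    exact hx x hxY (((near_iff' h htF).1 hn).2.2.trans h2)

end PB

/-- There is a countable base. The balls with centre in the dense sequence and radius `2⁻ⁿ` are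
indexed by an injection of `ω × ω` in `ω` (`hess`). -/
theorem exists_base (h : PM r v Y d m) : ∃ u, IsBase r Y d u := by
  obtain ⟨o, s, ho, hs, hd⟩ := h.pol.separable
  obtain rfl := isOmega_iff.1 ho
  have hs' := isMap_iff.1 hs
  obtain ⟨g, hg, hgv⟩ := h.rv.exists_pow h.om
  obtain ⟨F, hF, hFi⟩ := hess (om_ord (M := N)) (Sb.refl _)
  have hsp : ∀ i y : N, y ∈ (sp Y fun y => ∃ k, ∃ n, k ∈ (om : N) ∧ n ∈ (om : N) ∧
      ap F (op k n) = i ∧ ∃ a, op (op (ap s k) y) a ∈ d ∧ op a (ap g n) ∈ r.le ∧ a ≠ ap g n) ↔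
      y ∈ Y ∧ ∃ k n, k ∈ (om : N) ∧ n ∈ (om : N) ∧ ap F (op k n) = i ∧
        Near r d (ap s k) y (ap g n) := by
    intro i y
    rw [mem_sp (by simp (maxDischargeDepth := 50))]
    simp only [PB.near_iff]
  have hDT : DT (fun w : Fin 1 → N => sp Y fun y => ∃ k, ∃ n, k ∈ (om : N) ∧ n ∈ (om : N) ∧
      ap F (op k n) = w 0 ∧ ∃ a, op (op (ap s k) y) a ∈ d ∧ op a (ap g n) ∈ r.le ∧
        a ≠ ap g n) := by
    simp (maxDischargeDepth := 50)
  set u : N := lam om fun i => sp Y fun y => ∃ k, ∃ n, k ∈ (om : N) ∧ n ∈ (om : N) ∧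
      ap F (op k n) = i ∧ ∃ a, op (op (ap s k) y) a ∈ d ∧ op a (ap g n) ∈ r.le ∧
        a ≠ ap g n with hu
  have hmem : ∀ i y, i ∈ (om : N) → (y ∈ ap u i ↔ y ∈ Y ∧ ∃ k n : ℕ,
      ap F (op (nt N k) (nt N n)) = i ∧ PB.D v d (ap s (nt N k)) y < (1 / 2) ^ n) := by
    intro i y hi
    rw [hu, ap_lam hDT hi, hsp]
    refine and_congr_right fun hy => ?_
    constructor
    · rintro ⟨k, n, hk, hn, hkn, hnr⟩
      obtain ⟨k, rfl⟩ := h.om k hk
      obtain ⟨n, rfl⟩ := h.om n hn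
      refine ⟨k, n, hkn, ?_⟩
      rw [← hgv]
      exact ((PB.near_iff' h (ap_mem hg hn)).1 hnr).2.2
    · rintro ⟨k, n, hkn, hlt⟩
      rw [← hgv] at hlt
      exact ⟨nt N k, nt N n, nt_mem_om _, nt_mem_om _, hkn, (PB.near_iff' h
        (ap_mem hg (nt_mem_om _))).2 ⟨ap_mem hs' (nt_mem_om _), hy, hlt⟩⟩
  refine ⟨u, ⟨lam_mem_fs hDT fun i hi => ?_, fun i hi => ?_, fun U y hU hy => ?_⟩⟩
  · rw [mem_pw]
    intro y hy
    have h1 := (hmem i y hi).1 (by rw [hu, ap_lam hDT hi]; exact hy)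
    exact h1.1
  · rw [PB.isOpenSet_iff' h]
    refine ⟨fun y hy => ((hmem i y hi).1 hy).1, fun y hy => ?_⟩
    obtain ⟨hyY, k, n, hkn, hlt⟩ := (hmem i y hi).1 hy
    refine ⟨(1 / 2) ^ n - PB.D v d (ap s (nt N k)) y, by linarith, fun x hx hxy => ?_⟩
    refine (hmem i x hi).2 ⟨hx, k, n, hkn, ?_⟩
    have := PB.D_triangle h (ap_mem hs' (nt_mem_om k)) hyY hx
    linarith
  · obtain ⟨hUY, hU2⟩ := (PB.isOpenSet_iff' h).1 hU
    obtain ⟨ε, hε, hball⟩ := hU2 y hy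
    obtain ⟨n, hn⟩ := exists_pow_lt_of_lt_one (half_pos hε) (by norm_num : (1 / 2 : ℝ) < 1)
    have hyY := hUY y hy
    have hgn : ap g (nt N n) ∈ r.F := ap_mem hg (nt_mem_om n)
    obtain ⟨k, x, hkx, hnr⟩ := hd y (ap g (nt N n)) hyY
      ((h.rv.lt_iff h.rv.zeroM hgn).2 (by rw [h.rv.zero, hgv]; positivity))
    obtain ⟨hk, rfl⟩ := (op_mem_fs hs').1 (Pool.Agent.SigB.val_iff.1 hkx)
    obtain ⟨k, rfl⟩ := h.om k hk
    have h1 := ((PB.near_iff' h hgn).1 hnr).2.2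
    rw [hgv] at h1
    have hsk := ap_mem hs' hk
    have hi : ap F (op (nt N k) (nt N n)) ∈ (om : N) :=
      ap_mem hF (op_mem_pd.2 ⟨nt_mem_om k, nt_mem_om n⟩)
    refine ⟨ap F (op (nt N k) (nt N n)), hi, ?_, fun z hz => ?_⟩
    · exact (hmem _ _ hi).2 ⟨hyY, k, n, rfl, h1⟩
    · obtain ⟨hzY, k', n', hkn, hlt⟩ := (hmem _ _ hi).1 hz
      have h2 := hFi _ _ (op_mem_pd.2 ⟨nt_mem_om k', nt_mem_om n'⟩)
        (op_mem_pd.2 ⟨nt_mem_om k, nt_mem_om n⟩) hkn
      obtain ⟨h3, h4⟩ := op_inj.1 h2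
      rw [nt_inj h3, nt_inj h4] at hlt
      refine hball z hzY ?_
      have := PB.D_triangle h hyY hsk hzY
      rw [PB.D_symm h hyY hsk] at this
      linarith

theorem op_mem_cde {y n i : N} : op n i ∈ cde u y ↔
    n ∈ (om : N) ∧ ((y ∈ ap u n ∧ i = nt N 1) ∨ (y ∉ ap u n ∧ i = nt N 0)) := by
  rw [cde, mem_sp (by simp (maxDischargeDepth := 50))]
  constructor
  · rintro ⟨-, n', hn', h1 | h1⟩
    · obtain ⟨rfl, rfl⟩ := op_inj.1 h1.2
      exact ⟨hn', Or.inl ⟨h1.1, rfl⟩⟩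
    · obtain ⟨rfl, rfl⟩ := op_inj.1 h1.2
      exact ⟨hn', Or.inr ⟨h1.1, rfl⟩⟩
  · rintro ⟨hn, h1 | h1⟩
    · refine ⟨op_mem_pd.2 ⟨hn, ?_⟩, n, hn, Or.inl ⟨h1.1, by rw [h1.2]⟩⟩
      rw [h1.2]
      exact nt_mem_nt.2 (by norm_num)
    · refine ⟨op_mem_pd.2 ⟨hn, ?_⟩, n, hn, Or.inr ⟨h1.1, by rw [h1.2]⟩⟩
      rw [h1.2]
      exact nt_mem_nt.2 (by norm_num)

theorem cde_mem {y : N} : cde u y ∈ fs (om : N) (nt N 2) := by
  have hFn : Fn (cde u y) (om : N) := by
    refine ⟨fun z hz => ?_, fun n hn => ?_⟩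
    · have h1 := hz
      rw [cde, mem_sp (by simp (maxDischargeDepth := 50))] at h1
      obtain ⟨-, n, hn, h1 | h1⟩ := h1
      · exact ⟨n, hn, _, h1.2⟩
      · exact ⟨n, hn, _, h1.2⟩
    · by_cases hy : y ∈ ap u n
      · refine ⟨nt N 1, op_mem_cde.2 ⟨hn, Or.inl ⟨hy, rfl⟩⟩, fun i hi => ?_⟩
        rcases (op_mem_cde.1 hi).2 with h1 | h1
        · exact h1.2
        · exact (h1.1 hy).elim
      · refine ⟨nt N 0, op_mem_cde.2 ⟨hn, Or.inr ⟨hy, rfl⟩⟩, fun i hi => ?_⟩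
        rcases (op_mem_cde.1 hi).2 with h1 | h1
        · exact (hy h1.1).elim
        · exact h1.2
  refine mem_fs.2 ⟨hFn, fun n hn => ?_⟩
  have h1 := (hFn.op_mem_iff hn).2 rfl
  rcases (op_mem_cde.1 h1).2 with h2 | h2
  · rw [h2.2]
    exact nt_mem_nt.2 (by norm_num)
  · rw [h2.2]
    exact nt_mem_nt.2 (by norm_num)

@[simp] theorem dt_cde {n : ℕ} {s t : (Fin n → N) → N} (hs : DT s) (ht : DT t) :
    DT (fun w => cde (s w) (t w)) := by
  have h : DT (fun w : Fin 2 → N => cde (w 0) (w 1)) := by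
    unfold cde
    simp (maxDischargeDepth := 50)
  exact dt2 h hs ht

@[simp] theorem dt_cyl {n : ℕ} {s t q : (Fin n → N) → N} (hs : DT s) (ht : DT t) (hq : DT q) :
    DT (fun w => pcyl (s w) (t w) (q w)) := by
  have h : DT (fun w : Fin 3 → N => pcyl (w 0) (w 1) (w 2)) := by
    unfold pcyl
    simp (maxDischargeDepth := 50)
  exact dt3 h hs ht hq

@[simp] theorem dt_opn {n : ℕ} {s t q : (Fin n → N) → N} (hs : DT s) (ht : DT t) (hq : DT q) :
    DT (fun w => popn (s w) (t w) (q w)) := by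
  have h : DT (fun w : Fin 3 → N => popn (w 0) (w 1) (w 2)) := by
    unfold popn
    simp (maxDischargeDepth := 50)
  exact dt3 h hs ht hq

@[simp] theorem dt_iU {n : ℕ} {s t : (Fin n → N) → N} (hs : DT s) (ht : DT t) :
    DT (fun w => iU (s w) (t w)) := by
  have h : DT (fun w : Fin 2 → N => iU (w 0) (w 1)) := by
    unfold iU
    simp (maxDischargeDepth := 50)
  exact dt2 h hs ht

@[simp] theorem dt_iI {n : ℕ} {s t : (Fin n → N) → N} (hs : DT s) (ht : DT t) :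
    DT (fun w => iI (s w) (t w)) := by
  have h : DT (fun w : Fin 2 → N => iI (w 0) (w 1)) := by
    unfold iI
    simp (maxDischargeDepth := 50)
  exact dt2 h hs ht

open Classical in
theorem ext2_cde (hO : Om N) {y : N} (k : ℕ) : ext2 (cde u y) k = decide (y ∈ ap u (nt N k)) := by
  unfold ext2
  refine decide_eq_decide.2 ?_
  rw [op_mem_cde]
  constructor
  · rintro ⟨-, h1 | h1⟩
    · exact h1.1
    · exact absurd (nt_inj h1.2) (by norm_num)
  · intro h1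
    exact ⟨nt_mem_om k, Or.inl ⟨h1, rfl⟩⟩

theorem mem_cyl {y s : N} : y ∈ pcyl Y u s ↔ y ∈ Y ∧ Sb s (cde u y) := by
  rw [pcyl, mem_sp (by simp (maxDischargeDepth := 50))]

theorem mem_cyl' (hO : Om N) {y : N} {s : List Bool} :
    y ∈ pcyl Y u (st N s) ↔ y ∈ Y ∧ s = ini (ext2 (cde u y)) s.length := by
  rw [mem_cyl, sb_st_iff hO cde_mem]

theorem mem_opn {y W : N} : y ∈ popn Y u W ↔ y ∈ Y ∧ ∃ s, s ∈ W ∧ Sb s (cde u y) := by
  rw [popn, mem_sp (by simp (maxDischargeDepth := 50))]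

theorem mem_opn' (hO : Om N) {y W : N} (hW : Sb W (str N)) :
    y ∈ popn Y u W ↔ y ∈ Y ∧ ∃ k, st N (ini (ext2 (cde u y)) k) ∈ W := by
  rw [mem_opn]
  refine and_congr_right fun _ => ?_
  constructor
  · rintro ⟨s, hs, hsy⟩
    obtain ⟨s, rfl⟩ := (mem_str hO).1 (hW s hs)
    rw [sb_st_iff hO cde_mem] at hsy
    exact ⟨s.length, by rw [← hsy]; exact hs⟩
  · rintro ⟨k, hk⟩
    refine ⟨_, hk, ?_⟩
    rw [sb_st_iff hO cde_mem, PN.length_ini]

namespace PB

theorem ini_succ (y : ℕ → Bool) (n : ℕ) : ini y (n + 1) = ini y n ++ [y n] := by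
  unfold ini
  rw [List.ofFn_succ', List.concat_eq_append]
  rfl

theorem snoc_eq_ini {y : ℕ → Bool} {s : List Bool} {b : Bool} :
    s ++ [b] = ini y (s ++ [b]).length ↔ s = ini y s.length ∧ b = y s.length := by
  rw [List.length_append, List.length_singleton, ini_succ]
  constructor
  · intro h
    obtain ⟨h1, h2⟩ := List.append_inj h (by rw [PN.length_ini])
    exact ⟨h1, by simpa using h2⟩
  · rintro ⟨h1, h2⟩
    rw [← h1, ← h2]

theorem cyl_nil (hO : Om N) : pcyl Y u (st N []) = Y := by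
  refine ext' fun y => ?_
  rw [mem_cyl' hO]
  refine ⟨fun h => h.1, fun h => ⟨h, ?_⟩⟩
  simp [ini]

end PB

open Classical in
theorem cyl_bor (h : PM r v Y d m) (hu : IsBase r Y d u) (s : List Bool) :
    pcyl Y u (st N s) ∈ bor r Y d := by
  induction s using List.reverseRecOn with
  | nil =>
    rw [PB.cyl_nil h.om]
    exact bor_univ h
  | append_singleton s b ih =>
    have hopen : ap u (nt N s.length) ∈ bor r Y d := bor_open (hu.popn _ (nt_mem_om _))
    have h1 : pcyl Y u (st N (s ++ [b])) = it (pcyl Y u (st N s))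
        (if b = true then ap u (nt N s.length) else df Y (ap u (nt N s.length))) := by
      refine ext' fun y => ?_
      rw [mem_it, mem_cyl' h.om, mem_cyl' h.om, PB.snoc_eq_ini, ext2_cde h.om]
      cases b
      · simp only [Bool.false_eq_true, if_false, mem_df]
        constructor
        · rintro ⟨hy, h1, h2⟩
          exact ⟨⟨hy, h1⟩, hy, by simpa using h2.symm⟩
        · rintro ⟨⟨hy, h1⟩, -, h2⟩
          exact ⟨hy, h1, by simpa using h2⟩
      · simp only [if_true]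
        constructor
        · rintro ⟨hy, h1, h2⟩
          exact ⟨⟨hy, h1⟩, by simpa using h2.symm⟩
        · rintro ⟨⟨hy, h1⟩, h2⟩
          exact ⟨hy, h1, by simpa using h2⟩
    rw [h1]
    refine bor_it ih ?_
    split_ifs
    · exact hopen
    · exact bor_df hopen

namespace PB

/-- finite unions of cylinders -/
theorem fin_union (h : PM r v Y d m) (hu : IsBase r Y d u) (k : ℕ)
    (T : Finset (List.Vector Bool k)) : ∃ A, A ∈ bor r Y d ∧
      (∀ y, y ∈ A ↔ y ∈ Y ∧ ∃ t ∈ T, PN.vl k t = ini (ext2 (cde u y)) k) ∧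
      v (ap m A) = ∑ t ∈ T, tm v Y m u (PN.vl k t) := by
  classical
  induction T using Finset.induction_on with
  | empty =>
    refine ⟨SigB.em, bor_em h, fun y => ⟨fun hy => (not_mem_em _ hy).elim, ?_⟩, ?_⟩
    · rintro ⟨-, t, ht, -⟩
      exact absurd ht (Finset.notMem_empty t)
    · rw [mu_em h, Finset.sum_empty]
  | insert a T ha ih =>
    obtain ⟨A, hA, hmem, hv⟩ := ih
    have hc := cyl_bor h hu (PN.vl k a)
    have hmc : ∀ y, y ∈ pcyl Y u (st N (PN.vl k a)) ↔ y ∈ Y ∧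
        PN.vl k a = ini (ext2 (cde u y)) k := by
      intro y
      rw [mem_cyl' h.om, PN.length_vl]
    refine ⟨un A (pcyl Y u (st N (PN.vl k a))), bor_un hA hc, fun y => ?_, ?_⟩
    · rw [mem_un, hmem, hmc]
      constructor
      · rintro (⟨hy, t, ht, h1⟩ | ⟨hy, h1⟩)
        · exact ⟨hy, t, Finset.mem_insert_of_mem ht, h1⟩
        · exact ⟨hy, a, Finset.mem_insert_self _ _, h1⟩
      · rintro ⟨hy, t, ht, h1⟩
        rcases Finset.mem_insert.1 ht with rfl | ht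
        · exact Or.inr ⟨hy, h1⟩
        · exact Or.inl ⟨hy, t, ht, h1⟩
    · rw [mu_add h hA hc, hv, Finset.sum_insert ha, add_comm]
      · rfl
      · intro y hy hy'
        obtain ⟨-, t, ht, h1⟩ := (hmem y).1 hy
        have h2 := ((hmc y).1 hy').2
        rw [← h1] at h2
        exact ha (PN.vl_inj h2 ▸ ht)

/-- the initial segment as a vector -/
def mkv (y : ℕ → Bool) (k : ℕ) : List.Vector Bool k := ⟨ini y k, PN.length_ini _ _⟩

theorem vl_mkv (y : ℕ → Bool) (k : ℕ) : PN.vl k (mkv y k) = ini y k := rfl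

/-- the sequence of the finite stages of the open set of `W` -/
noncomputable def stg (Y u W : N) : N := lam om fun k =>
  sp Y fun y => ∃ s, s ∈ W ∧ (∃ j, j ∈ sc k ∧ s ∈ fs j (nt N 2)) ∧ Sb s (cde u y)

theorem mem_stg (hO : Om N) {W y : N} (hW : Sb W (str N)) (k : ℕ) :
    y ∈ ap (stg Y u W) (nt N k) ↔ y ∈ Y ∧ Pre {s | st N s ∈ W} (ini (ext2 (cde u y)) k) := by
  rw [stg, ap_lam (by simp (maxDischargeDepth := 50)) (nt_mem_om k),
    mem_sp (by simp (maxDischargeDepth := 50))]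
  refine and_congr_right fun _ => ?_
  constructor
  · rintro ⟨s, hs, ⟨j, hj, hsj⟩, hsy⟩
    obtain ⟨s, rfl⟩ := (mem_str hO).1 (hW s hs)
    rw [sb_st_iff hO cde_mem] at hsy
    have hj' : j ∈ nt N (k + 1) := hj
    obtain ⟨l, hl, rfl⟩ := mem_nt.1 hj'
    obtain ⟨s', hs', h1⟩ := mem_fs_nt.1 hsj
    have h2 : s.length = l := by rw [st_inj h1]; exact hs'
    refine ⟨s, hs, ?_⟩
    rw [hsy]
    exact PN.ini_prefix _ (by omega)
  · rintro ⟨s, hs, hsk⟩
    have h1 := PN.eq_ini hsk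
    have h2 : s.length ≤ k := by
      have := hsk.length_le
      rwa [PN.length_ini] at this
    refine ⟨st N s, hs, ⟨nt N s.length, ?_, mem_fs_nt.2 ⟨s, rfl, rfl⟩⟩, ?_⟩
    · have : nt N s.length ∈ nt N (k + 1) := nt_mem_nt.2 (by omega)
      exact this
    · rw [sb_st_iff hO cde_mem]
      exact h1

open Classical in
theorem stg_spec (h : PM r v Y d m) (hu : IsBase r Y d u) {W : N} (hW : Sb W (str N)) (k : ℕ) :
    ap (stg Y u W) (nt N k) ∈ bor r Y d ∧ v (ap m (ap (stg Y u W) (nt N k))) =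
      ∑ t : List.Vector Bool k, if Pre {s | st N s ∈ W} t.1 then tm v Y m u t.1 else 0 := by
  obtain ⟨A, hA, hmem, hv⟩ := fin_union h hu k
    (Finset.univ.filter fun t => Pre {s | st N s ∈ W} (PN.vl k t))
  have h1 : ap (stg Y u W) (nt N k) = A := by
    refine ext' fun y => ?_
    rw [mem_stg h.om hW, hmem]
    refine and_congr_right fun _ => ?_
    constructor
    · intro h1
      refine ⟨mkv (ext2 (cde u y)) k, ?_, rfl⟩
      rw [Finset.mem_filter]
      exact ⟨Finset.mem_univ _, h1⟩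
    · rintro ⟨t, ht, h1⟩
      rw [Finset.mem_filter] at ht
      rw [← h1]
      exact ht.2
  rw [h1]
  refine ⟨hA, ?_⟩
  rw [hv, Finset.sum_filter]
  rfl

theorem stg_mem (h : PM r v Y d m) (hu : IsBase r Y d u) {W : N} (hW : Sb W (str N)) :
    stg Y u W ∈ fs om (bor r Y d) := by
  have hF : DT (fun w : Fin 1 → N => sp Y fun y => ∃ s, s ∈ W ∧
      (∃ j, j ∈ sc (w 0) ∧ s ∈ fs j (nt N 2)) ∧ Sb s (cde u y)) := by
    simp (maxDischargeDepth := 50)
  refine lam_mem_fs hF fun n hn => ?_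
  obtain ⟨k, rfl⟩ := h.om n hn
  have := (stg_spec h hu hW k).1
  rwa [stg, ap_lam hF hn] at this

theorem iU_stg (hO : Om N) {W : N} (hW : Sb W (str N)) : iU Y (stg Y u W) = popn Y u W := by
  refine ext' fun y => ?_
  rw [mem_iU hO, mem_opn' hO hW]
  refine and_congr_right fun hy => ?_
  constructor
  · rintro ⟨k, hk⟩
    obtain ⟨-, s, hs, hsk⟩ := (mem_stg hO hW k).1 hk
    have h1 := PN.eq_ini hsk
    exact ⟨s.length, by rw [← h1]; exact hs⟩
  · rintro ⟨k, hk⟩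
    exact ⟨k, (mem_stg hO hW k).2 ⟨hy, _, hk, List.prefix_rfl⟩⟩

end PB

theorem opn_bor (h : PM r v Y d m) (hu : IsBase r Y d u) {W : N} (hW : Sb W (str N)) :
    popn Y u W ∈ bor r Y d := by
  rw [← PB.iU_stg h.om hW]
  exact bor_iU (PB.stg_mem h hu hW)

theorem tm_tm (h : PM r v Y d m) (hu : IsBase r Y d u) : TM (tm v Y m u) where
  nonneg s := mu_nonneg h (cyl_bor h hu s)
  add s := by
    unfold tm
    rw [← mu_add h (cyl_bor h hu _) (cyl_bor h hu _)]
    · congr 2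
      refine ext' fun y => ?_
      rw [mem_un, mem_cyl' h.om, mem_cyl' h.om, mem_cyl' h.om, PB.snoc_eq_ini, PB.snoc_eq_ini]
      constructor
      · rintro (h1 | h1)
        · exact ⟨h1.1, h1.2.1⟩
        · exact ⟨h1.1, h1.2.1⟩
      · rintro ⟨h1, h2⟩
        cases hb : ext2 (cde u y) s.length
        · exact Or.inl ⟨h1, h2, rfl⟩
        · exact Or.inr ⟨h1, h2, rfl⟩
    · intro y hy hy'
      rw [mem_cyl' h.om, PB.snoc_eq_ini] at hy hy'
      have := hy.2.2.trans hy'.2.2.symm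
      exact absurd this (by simp)
  one := by
    unfold tm
    rw [PB.cyl_nil h.om, mu_univ h]

/-- The measure of the open set given by `W` in terms of the measures of the cylinders: the sets
of the `y` such that `code y ↾ k` has an initial segment in `W` increase to `popn Y u W`. -/
theorem mass_iff (h : PM r v Y d m) (hu : IsBase r Y d u) {W : N} (hW : Sb W (str N)) {δ : ℝ} :
    Mass (tm v Y m u) {s | st N s ∈ W} δ ↔ v (ap m (popn Y u W)) ≤ δ := by
  classical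
  have h1 : Mass (tm v Y m u) {s | st N s ∈ W} δ ↔
      ∀ k, v (ap m (ap (PB.stg Y u W) (nt N k))) ≤ δ := by
    unfold Mass
    refine forall_congr' fun k => ?_
    rw [(PB.stg_spec h hu hW k).2]
  rw [h1, ← PB.iU_stg h.om hW]
  constructor
  · intro h2
    refine mu_iU_mono h (PB.stg_mem h hu hW) (fun k y hy => ?_) h2
    rw [PB.mem_stg h.om hW] at hy ⊢
    exact ⟨hy.1, PN.pre_mono hy.2 (PN.ini_prefix _ (Nat.le_succ k))⟩
  · intro h2 k
    refine (mu_mono h (PB.stg_spec h hu hW k).1 (bor_iU (PB.stg_mem h hu hW)) fun y hy => ?_).trans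
      h2
    rw [mem_iU h.om]
    exact ⟨((PB.mem_stg h.om hW k).1 hy).1, k, hy⟩

end Pool.Agent.GPA
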