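import Pool.Agent.GPA.Defs

/-!
# Goldstern's principle for all sets and all Polish probability spaces, in a structure `(M, ∈)`

The files `Pool.Agent.SigB.Defs` and `Pool.Agent.Forc.Defs` have: `IsSub`, `IsOrdPair`, `Val`,
`IsMap`, `IsOmega`, `IsSigmaAlgebra`; the file `Pool.Agent.GPA.Defs` has `LePt`.
-/

universe u

namespace Pool.Agent.GPA

open Pool.Agent.SigB Pool.Agent.Forc

variable {M : Type u} [Membership M M]

/-- `q = a × b`. -/
def IsProd (q a b : M) : Prop := ∀ p, p ∈ q ↔ ∃ x y, x ∈ a ∧ y ∈ b ∧ IsOrdPair p x y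

/-- `g` is a function from `a × b` to `c`. -/
def IsMap2 (g a b c : M) : Prop := ∃ q, IsProd q a b ∧ IsMap g q c

/-- `g (x, y) = w`. -/
def Val2 (g x y w : M) : Prop := ∃ p, IsOrdPair p x y ∧ Val g p w

/-- A set `F` with an addition, a multiplication, an order (the set of pairs `(x, y)` with
`x ≤ y`), a zero and a one. -/
structure RealData (M : Type u) where
  (F add mul le zero one : M)

/-- `r` is a complete ordered field, that is, a copy of the field of real numbers. -/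
structure RealData.Is (r : RealData M) : Prop where
  add : IsMap2 r.add r.F r.F r.F
  mul : IsMap2 r.mul r.F r.F r.F
  add_comm : ∀ a b c, Val2 r.add a b c → Val2 r.add b a c
  add_assoc : ∀ a b c x y w, Val2 r.add a b x → Val2 r.add b c y → Val2 r.add x c w →
    Val2 r.add a y w
  zero : r.zero ∈ r.F
  zero_add : ∀ a, a ∈ r.F → Val2 r.add r.zero a a
  neg : ∀ a, a ∈ r.F → ∃ b, Val2 r.add a b r.zero
  mul_comm : ∀ a b c, Val2 r.mul a b c → Val2 r.mul b a c
  mul_assoc : ∀ a b c x y w, Val2 r.mul a b x → Val2 r.mul b c y → Val2 r.mul x c w →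
    Val2 r.mul a y w
  one : r.one ∈ r.F
  one_mul : ∀ a, a ∈ r.F → Val2 r.mul r.one a a
  inv : ∀ a, a ∈ r.F → a ≠ r.zero → ∃ b, Val2 r.mul a b r.one
  zero_ne_one : r.zero ≠ r.one
  distrib : ∀ a b c s x y w, Val2 r.add a b s → Val2 r.mul s c w → Val2 r.mul a c x →
    Val2 r.mul b c y → Val2 r.add x y w
  le_mem : ∀ a b, Val r.le a b → a ∈ r.F ∧ b ∈ r.F
  le_total : ∀ a b, a ∈ r.F → b ∈ r.F → Val r.le a b ∨ Val r.le b a
  le_antisymm : ∀ a b, Val r.le a b → Val r.le b a → a = b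
  le_trans : ∀ a b c, Val r.le a b → Val r.le b c → Val r.le a c
  add_le : ∀ a b c x y, Val r.le a b → Val2 r.add a c x → Val2 r.add b c y → Val r.le x y
  mul_nonneg : ∀ a b c, Val r.le r.zero a → Val r.le r.zero b → Val2 r.mul a b c →
    Val r.le r.zero c
  complete : ∀ S, IsSub S r.F → (∃ x, x ∈ S) → (∃ v, v ∈ r.F ∧ ∀ x, x ∈ S → Val r.le x v) →
    ∃ v, v ∈ r.F ∧ (∀ x, x ∈ S → Val r.le x v) ∧
      ∀ w, w ∈ r.F → (∀ x, x ∈ S → Val r.le x w) → Val r.le v w

/-- `a < b`. -/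
def RealData.Lt (r : RealData M) (a b : M) : Prop := Val r.le a b ∧ a ≠ b

/-- `d x y < t`. -/
def Near (r : RealData M) (d x y t : M) : Prop := ∃ a, Val2 d x y a ∧ r.Lt a t

/-- `d` is a complete separable metric on `Y`. -/
structure IsPolish (r : RealData M) (Y d : M) : Prop where
  map : IsMap2 d Y Y r.F
  zero : ∀ x y, x ∈ Y → y ∈ Y → (Val2 d x y r.zero ↔ x = y)
  symm : ∀ x y a, Val2 d x y a → Val2 d y x a
  triangle : ∀ x y w a b c s, Val2 d x w a → Val2 d x y b → Val2 d y w c → Val2 r.add b c s →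
    Val r.le a s
  complete : ∀ o s, IsOmega o → IsMap s o Y →
    (∀ t, r.Lt r.zero t → ∃ k, k ∈ o ∧ ∀ m n x y, IsSub k m → IsSub k n → Val s m x →
      Val s n y → Near r d x y t) →
    ∃ y, y ∈ Y ∧ ∀ t, r.Lt r.zero t → ∃ k, k ∈ o ∧ ∀ m x, IsSub k m → Val s m x → Near r d x y t
  separable : ∃ o s, IsOmega o ∧ IsMap s o Y ∧
    ∀ y t, y ∈ Y → r.Lt r.zero t → ∃ n x, Val s n x ∧ Near r d x y t

/-- `U` is an open subset of `Y`. -/
def IsOpenSet (r : RealData M) (Y d U : M) : Prop :=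
  IsSub U Y ∧ ∀ y, y ∈ U → ∃ t, r.Lt r.zero t ∧ ∀ x, x ∈ Y → Near r d y x t → x ∈ U

/-- `B` is a Borel subset of `Y`. -/
def IsBorelSet (r : RealData M) (Y d B : M) : Prop :=
  ∀ S, IsSigmaAlgebra S Y → (∀ U, IsOpenSet r Y d U → U ∈ S) → B ∈ S

/-- `m` is a probability measure on the Borel subsets of `Y`: it is finitely additive, and the
measure of the union of an increasing sequence of Borel sets is the supremum of their measures. -/
structure IsProbMeasure (r : RealData M) (Y d m : M) : Prop where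
  map : ∃ S, (∀ B, B ∈ S ↔ IsBorelSet r Y d B) ∧ IsMap m S r.F
  nonneg : ∀ B a, Val m B a → Val r.le r.zero a
  total : Val m Y r.one
  add : ∀ B C D a b s, Val m B a → Val m C b → (∀ y, y ∈ B → y ∉ C) →
    (∀ y, y ∈ D ↔ y ∈ B ∨ y ∈ C) → Val2 r.add a b s → Val m D s
  sup : ∀ o S g B a v, IsOmega o → (∀ C, C ∈ S ↔ IsBorelSet r Y d C) → IsMap g o S →
    (∀ i j C D, IsSub i j → Val g i C → Val g j D → IsSub C D) →
    (∀ y, y ∈ B ↔ ∃ i C, Val g i C ∧ y ∈ C) → Val m B a → v ∈ r.F →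
    (∀ i C b, Val g i C → Val m C b → Val r.le b v) → Val r.le a v

/-- The set of all `y` with `Z y` has measure zero: it is included in a Borel set of measure
zero. -/
def IsMeasureZero (r : RealData M) (m : M) (Z : M → Prop) : Prop :=
  ∃ B, Val m B r.zero ∧ ∀ y, Z y → y ∈ B

variable (M) in
/-- Goldstern's principle for all sets: for all Polish spaces `Y`, all probability measures `m` on
the Borel subsets of `Y` and all `A ⊆ ω^ω × Y`, if all sections `A_x` have measure zero and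
`x ≤ x'` implies `A_x ⊆ A_x'`, then the union of all `A_x` has measure zero. -/
def GPAll : Prop :=
  ∀ (r : RealData M) (o b Y d m A : M), r.Is → IsOmega o → (∀ f, f ∈ b ↔ IsMap f o o) →
    IsPolish r Y d → IsProbMeasure r Y d m →
    (∀ z, z ∈ A → ∃ x y, x ∈ b ∧ y ∈ Y ∧ IsOrdPair z x y) →
    (∀ x, x ∈ b → IsMeasureZero r m fun y => Val A x y) →
    (∀ x x' y, x ∈ b → x' ∈ b → LePt x x' → Val A x y → Val A x' y) →
    IsMeasureZero r m fun y => ∃ x, Val A x y

end Pool.Agent.GPA
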