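import Pool.Agent.GPA.PolDefs
import Pool.Agent.GPA.MNull
import Pool.Agent.Forc.Hess

/-!
# Block G: the internal complete ordered field
-/

set_option linter.unusedSectionVars false

namespace Pool.Agent.GPA

open Pool.Agent.SigB Pool.Agent.Frc Pool.Agent.Forc

variable {N : Type 1} [Membership N N] [IsZFC N]

theorem isProd_iff {q a b : N} : IsProd q a b ↔ q = pd a b := by
  constructor
  · intro h
    refine ext' fun z => ?_
    rw [h z, mem_pd]
    constructor
    · rintro ⟨x, y, hx, hy, hz⟩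
      exact ⟨x, hx, y, hy, isOrdPair_iff.1 hz⟩
    · rintro ⟨x, hx, y, hy, hz⟩
      exact ⟨x, y, hx, hy, isOrdPair_iff.2 hz⟩
  · rintro rfl z
    rw [mem_pd]
    constructor
    · rintro ⟨x, hx, y, hy, hz⟩
      exact ⟨x, y, hx, hy, isOrdPair_iff.2 hz⟩
    · rintro ⟨x, y, hx, hy, hz⟩
      exact ⟨x, hx, y, hy, isOrdPair_iff.1 hz⟩

theorem isMap2_iff {g a b c : N} : IsMap2 g a b c ↔ g ∈ fs (pd a b) c := by
  constructor
  · rintro ⟨q, hq, hg⟩
    rw [isProd_iff.1 hq] at hg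
    exact isMap_iff.1 hg
  · intro h
    exact ⟨pd a b, isProd_iff.2 rfl, isMap_iff.2 h⟩

theorem val2_iff {g x y w : N} : Val2 g x y w ↔ op (op x y) w ∈ g := by
  constructor
  · rintro ⟨p, hp, hg⟩
    rw [isOrdPair_iff.1 hp] at hg
    exact val_iff.1 hg
  · intro h
    exact ⟨op x y, isOrdPair_iff.2 rfl, val_iff.2 h⟩

/-- The elements of a function. -/
theorem op_mem_fs {g a b x y : N} (hg : g ∈ fs a b) : op x y ∈ g ↔ x ∈ a ∧ ap g x = y := by
  rw [mem_fs] at hg
  constructor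
  · intro h
    have hx : x ∈ a := by
      obtain ⟨x', hx', y', h'⟩ := hg.1.1 _ h
      rw [(op_inj.1 h').1]
      exact hx'
    exact ⟨hx, (hg.1.op_mem_iff hx).1 h⟩
  · rintro ⟨hx, h⟩
    exact (hg.1.op_mem_iff hx).2 h

theorem ap_mem {g a b x : N} (hg : g ∈ fs a b) (hx : x ∈ a) : ap g x ∈ b := (mem_fs.1 hg).2 x hx

theorem val2_fs {g a b c x y w : N} (hg : g ∈ fs (pd a b) c) :
    Val2 g x y w ↔ x ∈ a ∧ y ∈ b ∧ ap g (op x y) = w := by
  rw [val2_iff, op_mem_fs hg, op_mem_pd, and_assoc]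

/-- The elements of the internal field. -/
abbrev Elt (r : RealData N) : Type 1 := {x : N // x ∈ r.F}

namespace Elt

variable {r : RealData N} [hr : Fact r.Is]

theorem hA : r.add ∈ fs (pd r.F r.F) r.F := isMap2_iff.1 hr.out.add
theorem hM : r.mul ∈ fs (pd r.F r.F) r.F := isMap2_iff.1 hr.out.mul

noncomputable instance : Add (Elt r) :=
  ⟨fun a b => ⟨ap r.add (op a.1 b.1), ap_mem hA (op_mem_pd.2 ⟨a.2, b.2⟩)⟩⟩

noncomputable instance : Mul (Elt r) :=
  ⟨fun a b => ⟨ap r.mul (op a.1 b.1), ap_mem hM (op_mem_pd.2 ⟨a.2, b.2⟩)⟩⟩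

instance : Zero (Elt r) := ⟨⟨r.zero, hr.out.zero⟩⟩

instance : One (Elt r) := ⟨⟨r.one, hr.out.one⟩⟩

theorem add_iff {a b c : Elt r} : Val2 r.add a.1 b.1 c.1 ↔ a + b = c := by
  rw [val2_fs hA]
  constructor
  · rintro ⟨-, -, h⟩
    exact Subtype.ext h
  · rintro rfl
    exact ⟨a.2, b.2, rfl⟩

theorem mul_iff {a b c : Elt r} : Val2 r.mul a.1 b.1 c.1 ↔ a * b = c := by
  rw [val2_fs hM]
  constructor
  · rintro ⟨-, -, h⟩
    exact Subtype.ext h
  · rintro rfl
    exact ⟨a.2, b.2, rfl⟩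

theorem exists_neg (a : Elt r) : ∃ b : Elt r, a + b = 0 := by
  obtain ⟨b, hb⟩ := hr.out.neg a.1 a.2
  have h := (val2_fs hA).1 hb
  exact ⟨⟨b, h.2.1⟩, Subtype.ext h.2.2⟩

theorem exists_inv (a : Elt r) (ha : a ≠ 0) : ∃ b : Elt r, a * b = 1 := by
  obtain ⟨b, hb⟩ := hr.out.inv a.1 a.2 fun h => ha (Subtype.ext h)
  have h := (val2_fs hM).1 hb
  exact ⟨⟨b, h.2.1⟩, Subtype.ext h.2.2⟩

noncomputable instance : Neg (Elt r) := ⟨fun a => (exists_neg a).choose⟩

open Classical in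
noncomputable instance : Inv (Elt r) :=
  ⟨fun a => if h : a = 0 then 0 else (exists_inv a h).choose⟩

theorem add_comm' (a b : Elt r) : a + b = b + a :=
  (add_iff.1 (hr.out.add_comm _ _ _ (add_iff.2 rfl))).symm

theorem mul_comm' (a b : Elt r) : a * b = b * a :=
  (mul_iff.1 (hr.out.mul_comm _ _ _ (mul_iff.2 rfl))).symm

open Classical in
noncomputable instance : Field (Elt r) :=
  Field.ofMinimalAxioms (Elt r)
    (fun a b c => (add_iff.1 (hr.out.add_assoc a.1 b.1 c.1 _ _ _ (add_iff.2 rfl)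
      (add_iff.2 rfl) (add_iff.2 rfl))).symm)
    (fun a => add_iff.1 (hr.out.zero_add a.1 a.2))
    (fun a => by rw [add_comm']; exact (exists_neg a).choose_spec)
    (fun a b c => (mul_iff.1 (hr.out.mul_assoc a.1 b.1 c.1 _ _ _ (mul_iff.2 rfl)
      (mul_iff.2 rfl) (mul_iff.2 rfl))).symm)
    mul_comm'
    (fun a => mul_iff.1 (hr.out.one_mul a.1 a.2))
    (fun a ha => by
      show a * (if h : a = 0 then 0 else (exists_inv a h).choose) = 1
      rw [dif_neg ha]
      exact (exists_inv a ha).choose_spec)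
    (by
      show (if h : (0 : Elt r) = 0 then 0 else (exists_inv 0 h).choose) = (0 : Elt r)
      rw [dif_pos rfl])
    (fun a b c => by
      rw [mul_comm' a (b + c), mul_comm' a b, mul_comm' a c]
      exact (add_iff.1 (hr.out.distrib b.1 c.1 a.1 _ _ _ _ (add_iff.2 rfl) (mul_iff.2 rfl)
        (mul_iff.2 rfl) (mul_iff.2 rfl))).symm)
    ⟨0, 1, fun h => hr.out.zero_ne_one (congrArg Subtype.val h)⟩

theorem coe_add (a b : Elt r) : (a + b).1 = ap r.add (op a.1 b.1) := rfl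

theorem coe_mul (a b : Elt r) : (a * b).1 = ap r.mul (op a.1 b.1) := rfl

theorem coe_zero : (0 : Elt r).1 = r.zero := rfl

theorem coe_one : (1 : Elt r).1 = r.one := rfl

noncomputable instance : LinearOrder (Elt r) where
  le a b := Val r.le a.1 b.1
  le_refl a := by
    rcases hr.out.le_total a.1 a.1 a.2 a.2 with h | h <;> exact h
  le_trans a b c h h' := hr.out.le_trans _ _ _ h h'
  le_antisymm a b h h' := Subtype.ext (hr.out.le_antisymm _ _ h h')
  le_total a b := hr.out.le_total _ _ a.2 b.2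
  toDecidableLE := Classical.decRel _

theorem le_def {a b : Elt r} : a ≤ b ↔ Val r.le a.1 b.1 := Iff.rfl

theorem add_le' {a b : Elt r} (h : a ≤ b) (c : Elt r) : a + c ≤ b + c :=
  hr.out.add_le a.1 b.1 c.1 _ _ h (add_iff.2 rfl) (add_iff.2 rfl)

instance : IsOrderedAddMonoid (Elt r) where
  add_le_add_left a b h c := by
    exact add_le' h c

theorem mul_nonneg' {a b : Elt r} (ha : 0 ≤ a) (hb : 0 ≤ b) : 0 ≤ a * b :=
  hr.out.mul_nonneg a.1 b.1 _ ha hb (mul_iff.2 rfl)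

instance : ZeroLEOneClass (Elt r) := ⟨by
  rcases le_total (0 : Elt r) 1 with h | h
  · exact h
  · have h1 : (0 : Elt r) ≤ -1 := by
      rw [← neg_zero]
      exact neg_le_neg h
    have := mul_nonneg' h1 h1
    simpa using this⟩

instance : IsStrictOrderedRing (Elt r) :=
  IsStrictOrderedRing.of_mul_pos fun _ _ ha hb =>
    (mul_nonneg' ha.le hb.le).lt_of_ne' (mul_ne_zero ha.ne' hb.ne')

/-- The internal sequence of the natural numbers. -/
theorem exists_nat' (hO : Om N) :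
    ∃ g : N, g ∈ fs om r.F ∧ ∀ n : ℕ, ap g (nt N n) = (n : Elt r).1 := by
  obtain ⟨f, hf, h0, hs⟩ := om_recursion r.zero (G := fun x : N => ap r.add (op x r.one))
    (by simp (maxDischargeDepth := 50))
  have h : ∀ n : ℕ, ap f (nt N n) = (n : Elt r).1 := by
    intro n
    induction n with
    | zero =>
      have : ap f (nt N 0) = r.zero := h0
      rw [this, Nat.cast_zero]
      rfl
    | succ n ih =>
      have : ap f (nt N (n + 1)) = ap r.add (op (ap f (nt N n)) r.one) := hs _ (nt_mem_om n)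
      rw [this, ih, Nat.cast_add, Nat.cast_one]
      rfl
  refine ⟨f, mem_fs.2 ⟨hf, fun x hx => ?_⟩, h⟩
  obtain ⟨n, rfl⟩ := hO x hx
  rw [h]
  exact (n : Elt r).2

theorem arch (hO : Om N) : Archimedean (Elt r) := by
  rw [archimedean_iff_nat_le]
  intro x
  by_contra hx
  push Not at hx
  obtain ⟨g, hg, hgn⟩ := exists_nat' (r := r) hO
  obtain ⟨s, hs, hs1, hs2⟩ := hr.out.complete (im om fun n => ap g n) (by
    intro z hz
    obtain ⟨n, hn, rfl⟩ := (mem_im (by simp (maxDischargeDepth := 50))).1 hz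
    exact ap_mem hg hn) ⟨ap g (nt N 0), (mem_im (by simp (maxDischargeDepth := 50))).2
      ⟨_, nt_mem_om 0, rfl⟩⟩ ⟨x.1, x.2, by
    intro z hz
    obtain ⟨n, hn, rfl⟩ := (mem_im (by simp (maxDischargeDepth := 50))).1 hz
    obtain ⟨k, rfl⟩ := hO n hn
    rw [hgn]
    exact (hx k).le⟩
  have h1 : ∀ n : ℕ, (n : Elt r) ≤ ⟨s, hs⟩ := by
    intro n
    rw [le_def, ← hgn]
    exact hs1 _ ((mem_im (by simp (maxDischargeDepth := 50))).2 ⟨_, nt_mem_om n, rfl⟩)
  have h2 : (⟨s, hs⟩ : Elt r) ≤ ⟨s, hs⟩ - 1 := by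
    refine hs2 _ (⟨s, hs⟩ - 1 : Elt r).2 fun z hz => ?_
    obtain ⟨n, hn, rfl⟩ := (mem_im (by simp (maxDischargeDepth := 50))).1 hz
    obtain ⟨k, rfl⟩ := hO n hn
    rw [hgn]
    have h3 := h1 (k + 1)
    have h4 : (k : Elt r) ≤ ⟨s, hs⟩ - 1 := by
      rw [le_sub_iff_add_le]
      have : ((k + 1 : ℕ) : Elt r) = (k : Elt r) + 1 := by push_cast; rfl
      rw [← this]
      exact h3
    exact h4
  have h5 : (0 : Elt r) < 1 := zero_lt_one
  have h6 := sub_lt_self (⟨s, hs⟩ : Elt r) h5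
  exact absurd h2 (not_le.2 h6)

end Elt

end Pool.Agent.GPA
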