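import Pool.Agent.GPA.PolBase

/-!
# Block G: the measure of the lexicographically smaller points
-/

set_option linter.unusedSectionVars false

namespace Pool.Agent.GPA

open Pool.Agent.SigB Pool.Agent.Frc Pool.Agent.Forc

variable {N : Type 1} [Membership N N] [IsZFC N] {r : RealData N} {Y d m u : N} {v : N → ℝ}

/-- The set of all `y` whose code is smaller than `s` in the lexicographic order: it agrees with
`s` below some `n`, where it is `0` and `s` is `1`. -/
noncomputable def low (Y u s : N) : N :=
  sp Y fun y => ∃ n, n ∈ (om : N) ∧ op n (nt N 1) ∈ s ∧ op n (nt N 0) ∈ cde u y ∧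
    ∀ i, i ∈ n → ∀ j, op i j ∈ s → op i j ∈ cde u y

namespace PL

theorem op_zero_mem_cde (hO : Om N) {y : N} {k : ℕ} :
    op (nt N k) (nt N 0) ∈ cde u y ↔ ext2 (cde u y) k = false := by
  classical
  rw [ext2_cde hO, op_mem_cde, decide_eq_false_iff_not]
  constructor
  · rintro ⟨-, h1 | h1⟩
    · exact absurd (nt_inj h1.2) (by norm_num)
    · exact h1.1
  · exact fun h => ⟨nt_mem_om k, Or.inr ⟨h, rfl⟩⟩

theorem op_one_mem_cde (hO : Om N) {y : N} {k : ℕ} :
    op (nt N k) (nt N 1) ∈ cde u y ↔ ext2 (cde u y) k = true := by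
  classical
  rw [ext2_cde hO, op_mem_cde, decide_eq_true_iff]
  constructor
  · rintro ⟨-, h1 | h1⟩
    · exact h1.1
    · exact absurd (nt_inj h1.2) (by norm_num)
  · exact fun h => ⟨nt_mem_om k, Or.inl ⟨h, rfl⟩⟩

theorem op_mem_cde' (hO : Om N) {y : N} {k : ℕ} {b : Bool} :
    op (nt N k) (nt N b.toNat) ∈ cde u y ↔ b = ext2 (cde u y) k := by
  cases b
  · rw [Bool.toNat_false, op_zero_mem_cde hO, eq_comm]
  · rw [Bool.toNat_true, op_one_mem_cde hO, eq_comm]

theorem take_eq_ini {x : ℕ → Bool} {s : List Bool} {k : ℕ} (hk : k ≤ s.length) :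
    s.take k = ini x k ↔ ∀ i, ∀ h : i < s.length, i < k → s[i] = x i := by
  constructor
  · intro h i hi hik
    have h1 : (s.take k)[i]? = (ini x k)[i]? := by rw [h]
    rw [List.getElem?_take_of_lt hik, List.getElem?_eq_getElem hi] at h1
    unfold ini at h1
    rw [List.getElem?_ofFn, dif_pos hik] at h1
    exact Option.some.inj h1
  · intro h
    refine List.ext_getElem ?_ fun i h1 h2 => ?_
    · rw [List.length_take, PN.length_ini]
      exact min_eq_left hk
    · rw [List.length_take] at h1
      have h3 : i < s.length := lt_of_lt_of_le h1 (min_le_right _ _)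
      have h4 : i < k := lt_of_lt_of_le h1 (min_le_left _ _)
      rw [List.getElem_take, h i h3 h4]
      unfold ini
      rw [List.getElem_ofFn]

theorem mem_low (hO : Om N) {y : N} {s : List Bool} : y ∈ low Y u (st N s) ↔ y ∈ Y ∧
    ∃ k, s[k]? = some true ∧ ext2 (cde u y) k = false ∧ s.take k = ini (ext2 (cde u y)) k := by
  rw [low, mem_sp (by simp (maxDischargeDepth := 50))]
  refine and_congr_right fun _ => ?_
  constructor
  · rintro ⟨n, hn, h1, h2, h3⟩
    obtain ⟨k, rfl⟩ := hO n hn
    obtain ⟨hk, h4⟩ := op_mem_st.1 h1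
    have h5 : s[k] = true := by
      cases hb : s[k]
      · rw [hb] at h4
        exact absurd h4 (by norm_num)
      · rfl
    refine ⟨k, by rw [List.getElem?_eq_getElem hk, h5], (op_zero_mem_cde hO).1 h2, ?_⟩
    rw [take_eq_ini hk.le]
    intro i hi hik
    exact (op_mem_cde' hO).1 (h3 _ (nt_mem_nt.2 hik) _ (op_mem_st.2 ⟨hi, rfl⟩))
  · rintro ⟨k, h1, h2, h3⟩
    obtain ⟨hk, h4⟩ := List.getElem?_eq_some_iff.1 h1
    refine ⟨nt N k, nt_mem_om k, op_mem_st.2 ⟨hk, by rw [h4]; rfl⟩, (op_zero_mem_cde hO).2 h2, ?_⟩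
    intro i hi j hj
    obtain ⟨i', hi', rfl⟩ := mem_nt.1 hi
    obtain ⟨i'', h5, h6⟩ := mem_st.1 hj
    obtain ⟨h7, rfl⟩ := op_inj.1 h6
    obtain rfl := nt_inj h7
    exact (op_mem_cde' hO).2 ((take_eq_ini hk.le).1 h3 _ h5 hi')

theorem low_nil (hO : Om N) : low Y u (st N []) = SigB.em := by
  refine ext' fun y => ?_
  rw [mem_low hO]
  constructor
  · rintro ⟨-, k, h1, -⟩
    simp at h1
  · exact fun h => (not_mem_em _ h).elim

theorem low_snoc_false (hO : Om N) (s : List Bool) :
    low Y u (st N (s ++ [false])) = low Y u (st N s) := by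
  refine ext' fun y => ?_
  rw [mem_low hO, mem_low hO]
  refine and_congr_right fun _ => ⟨?_, ?_⟩
  · rintro ⟨k, h1, h2, h3⟩
    have hk : k < s.length := by
      obtain ⟨h4, h5⟩ := List.getElem?_eq_some_iff.1 h1
      by_contra h6
      have h7 : k = s.length := by
        simp only [List.length_append, List.length_singleton] at h4
        omega
      subst h7
      simp at h5
    rw [List.getElem?_append_left hk] at h1
    rw [List.take_append_of_le_length hk.le] at h3
    exact ⟨k, h1, h2, h3⟩
  · rintro ⟨k, h1, h2, h3⟩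
    have hk : k < s.length := (List.getElem?_eq_some_iff.1 h1).1
    refine ⟨k, ?_, h2, ?_⟩
    · rw [List.getElem?_append_left hk, h1]
    · rw [List.take_append_of_le_length hk.le, h3]

theorem low_snoc_true (hO : Om N) (s : List Bool) :
    low Y u (st N (s ++ [true])) = un (low Y u (st N s)) (pcyl Y u (st N (s ++ [false]))) := by
  refine ext' fun y => ?_
  rw [mem_un, mem_low hO, mem_low hO, mem_cyl' hO, PB.snoc_eq_ini]
  constructor
  · rintro ⟨hy, k, h1, h2, h3⟩
    by_cases hk : k < s.length
    · rw [List.getElem?_append_left hk] at h1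
      rw [List.take_append_of_le_length hk.le] at h3
      exact Or.inl ⟨hy, k, h1, h2, h3⟩
    · have h7 : k = s.length := by
        obtain ⟨h4, -⟩ := List.getElem?_eq_some_iff.1 h1
        simp only [List.length_append, List.length_singleton] at h4
        omega
      subst h7
      refine Or.inr ⟨hy, ?_, h2.symm⟩
      rw [List.take_append_of_le_length le_rfl, List.take_length] at h3
      exact h3
  · rintro (⟨hy, k, h1, h2, h3⟩ | ⟨hy, h1, h2⟩)
    · have hk : k < s.length := (List.getElem?_eq_some_iff.1 h1).1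
      refine ⟨hy, k, ?_, h2, ?_⟩
      · rw [List.getElem?_append_left hk, h1]
      · rw [List.take_append_of_le_length hk.le, h3]
    · refine ⟨hy, s.length, by simp, h2.symm, ?_⟩
      rw [List.take_append_of_le_length le_rfl, List.take_length]
      exact h1

theorem low_disj (hO : Om N) {y : N} {s : List Bool} (h : y ∈ low Y u (st N s))
    (h' : s = ini (ext2 (cde u y)) s.length) : False := by
  obtain ⟨-, k, h1, h2, -⟩ := (mem_low hO).1 h
  obtain ⟨hk, h3⟩ := List.getElem?_eq_some_iff.1 h1
  have h4 : s.take s.length = ini (ext2 (cde u y)) s.length := by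
    rw [List.take_length]
    exact h'
  have h5 := (take_eq_ini le_rfl).1 h4 k hk hk
  rw [h3, h2] at h5
  exact absurd h5 (by simp)

end PL

theorem low_bor (h : PM r v Y d m) (hu : IsBase r Y d u) (s : List Bool) :
    low Y u (st N s) ∈ bor r Y d := by
  induction s using List.reverseRecOn with
  | nil =>
    rw [PL.low_nil h.om]
    exact bor_em h
  | append_singleton s b ih =>
    cases b
    · rw [PL.low_snoc_false h.om]
      exact ih
    · rw [PL.low_snoc_true h.om]
      exact bor_un ih (cyl_bor h hu _)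

/-- By induction on `s` (`lo_nil`, `lo_snoc`): `low (s ++ [true]) = low s ∪ pcyl (s ++ [false])` and
`low (s ++ [false]) = low s`. -/
theorem mu_low (h : PM r v Y d m) (hu : IsBase r Y d u) (s : List Bool) :
    v (ap m (low Y u (st N s))) = lo (tm v Y m u) s := by
  induction s using List.reverseRecOn with
  | nil => rw [PL.low_nil h.om, mu_em h, lo_nil]
  | append_singleton s b ih =>
    rw [lo_snoc]
    cases b
    · rw [PL.low_snoc_false h.om, ih]
      simp
    · rw [PL.low_snoc_true h.om, mu_add h (low_bor h hu s) (cyl_bor h hu _) fun y hy hy' => ?_, ih]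
      · simp [tm]
      · rw [mem_cyl' h.om, PB.snoc_eq_ini] at hy'
        exact PL.low_disj h.om hy hy'.2.1

theorem mu_low_cyl (h : PM r v Y d m) (hu : IsBase r Y d u) (s : List Bool) :
    v (ap m (un (low Y u (st N s)) (pcyl Y u (st N s)))) = hi (tm v Y m u) s := by
  rw [mu_add h (low_bor h hu s) (cyl_bor h hu s) fun y hy hy' => ?_, mu_low h hu]
  · rfl
  · rw [mem_cyl' h.om] at hy'
    exact PL.low_disj h.om hy hy'.2

end Pool.Agent.GPA
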