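import Pool.Agent.GPA.PolRV
import Pool.Agent.Forc.CohenDef

/-!
# Block G, part 3: Borel sets and the measure inside the model
-/

set_option linter.unusedSectionVars false

namespace Pool.Agent.GPA

open Pool.Agent.SigB Pool.Agent.Frc Pool.Agent.Forc

variable {N : Type 1} [Membership N N] [IsZFC N] {r : RealData N} {Y d m : N} {v : N → ℝ}

/-! ### The notions in the internal language -/

namespace PB

theorem near_iff {x y t : N} : Near r d x y t ↔ ∃ a, op (op x y) a ∈ d ∧ op a t ∈ r.le ∧ a ≠ t := by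
  unfold Near RealData.Lt
  refine exists_congr fun a => ?_
  rw [val2_iff, val_iff]

theorem isOpenSet_iff {U : N} : IsOpenSet r Y d U ↔ Sb U Y ∧ ∀ y, y ∈ U →
    ∃ t, (op r.zero t ∈ r.le ∧ r.zero ≠ t) ∧ ∀ x, x ∈ Y →
      (∃ a, op (op y x) a ∈ d ∧ op a t ∈ r.le ∧ a ≠ t) → x ∈ U := by
  unfold IsOpenSet RealData.Lt
  refine and_congr Iff.rfl (forall₂_congr fun y _ => exists_congr fun t => ?_)
  rw [val_iff]
  refine and_congr Iff.rfl (forall₂_congr fun x _ => ?_)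
  rw [near_iff]

@[simp] theorem dfn_isOpenSet (r : RealData N) {n : ℕ} {a b c : (Fin n → N) → N} (ha : DT a)
    (hb : DT b) (hc : DT c) : Dfn (fun w => IsOpenSet r (a w) (b w) (c w)) := by
  have h : Dfn (fun w : Fin 3 → N => IsOpenSet r (w 0) (w 1) (w 2)) := by
    refine Dfn.congr (P := fun w : Fin 3 → N => Sb (w 2) (w 0) ∧ ∀ y, y ∈ w 2 →
      ∃ t, (op r.zero t ∈ r.le ∧ r.zero ≠ t) ∧ ∀ x, x ∈ w 0 →
        (∃ e, op (op y x) e ∈ w 1 ∧ op e t ∈ r.le ∧ e ≠ t) → x ∈ w 2) ?_ fun w =>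
      (isOpenSet_iff (r := r) (Y := w 0) (d := w 1) (U := w 2)).symm
    simp (maxDischargeDepth := 50)
  exact dfn3 h ha hb hc

theorem isCompl_iff {Z X Y : N} : Forc.IsCompl Z X Y ↔ Z = df Y X := by
  unfold Forc.IsCompl
  constructor
  · intro h
    refine ext' fun z => ?_
    rw [h z, mem_df]
  · rintro rfl z
    rw [mem_df]

theorem isSigmaAlgebra_iff {S : N} : IsSigmaAlgebra S Y ↔ (∀ B, B ∈ S → Sb B Y) ∧
    (∀ B, B ∈ S → df Y B ∈ S) ∧ ∀ g, g ∈ fs (om : N) S → cun g ∈ S := by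
  constructor
  · intro h
    refine ⟨h.sub, fun B hB => h.compl B _ hB (isCompl_iff.2 rfl), fun g hg => ?_⟩
    refine h.union om g _ (isOmega_iff.2 rfl) (isMap_iff.2 hg) fun z => ?_
    rw [mem_cun]
    constructor
    · rintro ⟨n, hn, hz⟩
      exact ⟨n, ap g n, val_iff.2 ((op_mem_fs hg).2 ⟨hn, rfl⟩), hz⟩
    · rintro ⟨n, X, hX, hz⟩
      obtain ⟨hn, rfl⟩ := (op_mem_fs hg).1 (val_iff.1 hX)
      exact ⟨n, hn, hz⟩
  · rintro ⟨h1, h2, h3⟩
    refine ⟨h1, fun X Z hX hZ => ?_, fun o g Z ho hg hZ => ?_⟩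
    · rw [isCompl_iff.1 hZ]
      exact h2 X hX
    · obtain rfl := isOmega_iff.1 ho
      have hg' := isMap_iff.1 hg
      have : Z = cun g := by
        refine ext' fun z => ?_
        rw [hZ z, mem_cun]
        constructor
        · rintro ⟨n, X, hX, hz⟩
          obtain ⟨hn, rfl⟩ := (op_mem_fs hg').1 (val_iff.1 hX)
          exact ⟨n, hn, hz⟩
        · rintro ⟨n, hn, hz⟩
          exact ⟨n, ap g n, val_iff.2 ((op_mem_fs hg').2 ⟨hn, rfl⟩), hz⟩
      rw [this]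
      exact h3 g hg'

@[simp] theorem dfn_isBorelSet (r : RealData N) {n : ℕ} {a b c : (Fin n → N) → N} (ha : DT a)
    (hb : DT b) (hc : DT c) : Dfn (fun w => IsBorelSet r (a w) (b w) (c w)) := by
  have h : Dfn (fun w : Fin 3 → N => IsBorelSet r (w 0) (w 1) (w 2)) := by
    refine Dfn.congr (P := fun w : Fin 3 → N => ∀ S, ((∀ B, B ∈ S → Sb B (w 0)) ∧
      (∀ B, B ∈ S → df (w 0) B ∈ S) ∧ ∀ g, g ∈ fs (om : N) S → cun g ∈ S) →
      (∀ U, IsOpenSet r (w 0) (w 1) U → U ∈ S) → w 2 ∈ S) ?_ fun w => ?_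
    · simp (maxDischargeDepth := 50)
    · unfold IsBorelSet
      refine forall_congr' fun S => ?_
      rw [isSigmaAlgebra_iff]
  exact dfn3 h ha hb hc

theorem isSigmaAlgebra_pw : IsSigmaAlgebra (pw Y) Y := by
  rw [isSigmaAlgebra_iff]
  refine ⟨fun B hB => mem_pw.1 hB, fun B _ => mem_pw.2 fun z hz => (mem_df.1 hz).1,
    fun g hg => mem_pw.2 fun z hz => ?_⟩
  obtain ⟨n, hn, hz⟩ := mem_cun.1 hz
  exact mem_pw.1 (ap_mem hg hn) z hz

end PB

/-! ### Borel sets -/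

theorem mem_bor {B : N} : B ∈ bor r Y d ↔ IsBorelSet r Y d B := by
  rw [bor, mem_sp (by simp (maxDischargeDepth := 50))]
  refine ⟨fun h => h.2, fun h => ⟨h _ PB.isSigmaAlgebra_pw fun U hU => mem_pw.2 hU.1, h⟩⟩

/-- The Borel sets belong to every `σ`-algebra which contains the open sets. -/
theorem bor_sb {S : N} (hS : IsSigmaAlgebra S Y) (hU : ∀ U, IsOpenSet r Y d U → U ∈ S) :
    Sb (bor r Y d) S := fun _ hB => mem_bor.1 hB S hS hU

theorem bor_sub {B : N} (hB : B ∈ bor r Y d) : Sb B Y :=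
  mem_pw.1 (bor_sb PB.isSigmaAlgebra_pw (fun _ hU => mem_pw.2 hU.1) _ hB)

theorem bor_open {U : N} (hU : IsOpenSet r Y d U) : U ∈ bor r Y d :=
  mem_bor.2 fun _ _ h => h U hU

theorem bor_df {B : N} (hB : B ∈ bor r Y d) : df Y B ∈ bor r Y d :=
  mem_bor.2 fun S hS hU => (PB.isSigmaAlgebra_iff.1 hS).2.1 _ (mem_bor.1 hB S hS hU)

theorem bor_univ (h : PM r v Y d m) : Y ∈ bor r Y d := by
  refine bor_open ⟨fun _ hz => hz, fun y _ => ⟨r.one, ?_, fun x hx _ => hx⟩⟩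
  rw [h.rv.lt_iff h.rv.zeroM h.rv.oneM, h.rv.zero, h.rv.one]
  exact one_pos

theorem bor_em (h : PM r v Y d m) : (SigB.em : N) ∈ bor r Y d := by
  have h1 : (SigB.em : N) = df Y Y := by
    refine ext' fun z => ?_
    rw [mem_df]
    exact ⟨fun hz => (not_mem_em _ hz).elim, fun hz => (hz.2 hz.1).elim⟩
  rw [h1]
  exact bor_df (bor_univ h)

theorem PB.iU_eq {g : N} (hg : g ∈ fs om (bor r Y d)) : iU Y g = cun g := by
  refine ext' fun y => ?_
  rw [iU, mem_sp (by simp (maxDischargeDepth := 50)), mem_cun]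
  refine ⟨fun h => h.2, fun h => ⟨?_, h⟩⟩
  obtain ⟨n, hn, hy⟩ := h
  exact bor_sub (ap_mem hg hn) y hy

theorem bor_iU {g : N} (hg : g ∈ fs om (bor r Y d)) : iU Y g ∈ bor r Y d := by
  rw [PB.iU_eq hg]
  refine mem_bor.2 fun S hS hU => (PB.isSigmaAlgebra_iff.1 hS).2.2 _ ?_
  obtain ⟨h1, h2⟩ := mem_fs.1 hg
  exact mem_fs.2 ⟨h1, fun x hx => mem_bor.1 (h2 x hx) S hS hU⟩

theorem PB.mem_iU' {g y : N} : y ∈ iU Y g ↔ y ∈ Y ∧ ∃ n, n ∈ (om : N) ∧ y ∈ ap g n := by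
  rw [iU, mem_sp (by simp (maxDischargeDepth := 50))]

theorem PB.mem_iI' {g y : N} : y ∈ iI Y g ↔ y ∈ Y ∧ ∀ n, n ∈ (om : N) → y ∈ ap g n := by
  rw [iI, mem_sp (by simp (maxDischargeDepth := 50))]

/-- the sequence of the complements -/
noncomputable def PB.cs (Y g : N) : N := lam om fun n => df Y (ap g n)

theorem PB.ap_cs {g n : N} (hn : n ∈ (om : N)) : ap (PB.cs Y g) n = df Y (ap g n) :=
  ap_lam (by simp (maxDischargeDepth := 50)) hn

theorem PB.cs_mem {g : N} (hg : g ∈ fs om (bor r Y d)) : PB.cs Y g ∈ fs om (bor r Y d) :=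
  lam_mem_fs (by simp (maxDischargeDepth := 50)) fun _ hn => bor_df (ap_mem hg hn)

theorem PB.iI_eq {g : N} : iI Y g = df Y (iU Y (PB.cs Y g)) := by
  refine ext' fun y => ?_
  rw [PB.mem_iI', mem_df, PB.mem_iU']
  constructor
  · rintro ⟨hy, h1⟩
    refine ⟨hy, fun h2 => ?_⟩
    obtain ⟨-, n, hn, h3⟩ := h2
    rw [PB.ap_cs hn, mem_df] at h3
    exact h3.2 (h1 n hn)
  · rintro ⟨hy, h1⟩
    refine ⟨hy, fun n hn => ?_⟩
    by_contra h2
    exact h1 ⟨hy, n, hn, by rw [PB.ap_cs hn, mem_df]; exact ⟨hy, h2⟩⟩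

theorem bor_iI {g : N} (hg : g ∈ fs om (bor r Y d)) : iI Y g ∈ bor r Y d := by
  rw [PB.iI_eq]
  exact bor_df (bor_iU (PB.cs_mem hg))

theorem bor_un {B C : N} (hB : B ∈ bor r Y d) (hC : C ∈ bor r Y d) : un B C ∈ bor r Y d := by
  have hF : DT (fun w : Fin 1 → N => sp Y fun y => (w 0 = SigB.em ∧ y ∈ B) ∨ (w 0 ≠ SigB.em ∧ y ∈ C)) := by
    simp (maxDischargeDepth := 50)
  have hsp : ∀ n y : N, y ∈ (sp Y fun y => (n = SigB.em ∧ y ∈ B) ∨ (n ≠ SigB.em ∧ y ∈ C)) ↔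
      y ∈ Y ∧ ((n = SigB.em ∧ y ∈ B) ∨ (n ≠ SigB.em ∧ y ∈ C)) := fun n y =>
    mem_sp (by simp (maxDischargeDepth := 50))
  have h0 : (sp Y fun y => ((SigB.em : N) = SigB.em ∧ y ∈ B) ∨ ((SigB.em : N) ≠ SigB.em ∧ y ∈ C)) = B := by
    refine ext' fun y => ?_
    rw [hsp]
    simp only [true_and, ne_eq, not_true_eq_false, false_and, or_false]
    exact ⟨fun h => h.2, fun h => ⟨bor_sub hB y h, h⟩⟩
  have h1 : ∀ n : N, n ≠ SigB.em → (sp Y fun y => (n = SigB.em ∧ y ∈ B) ∨ (n ≠ SigB.em ∧ y ∈ C)) = C := by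
    intro n hn
    refine ext' fun y => ?_
    rw [hsp]
    simp only [hn, false_and, ne_eq, not_false_eq_true, true_and, false_or]
    exact ⟨fun h => h.2, fun h => ⟨bor_sub hC y h, h⟩⟩
  have hg : (lam om fun n => sp Y fun y => (n = SigB.em ∧ y ∈ B) ∨ (n ≠ SigB.em ∧ y ∈ C)) ∈
      fs om (bor r Y d) := by
    refine lam_mem_fs hF fun n _ => ?_
    by_cases hn : n = SigB.em
    · subst hn
      rw [h0]
      exact hB
    · rw [h1 n hn]
      exact hC
  have h2 : un B C = iU Y (lam om fun n => sp Y fun y => (n = SigB.em ∧ y ∈ B) ∨ (n ≠ SigB.em ∧ y ∈ C)) := by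
    refine ext' fun y => ?_
    rw [mem_un, PB.mem_iU']
    constructor
    · rintro (hy | hy)
      · refine ⟨bor_sub hB y hy, SigB.em, em_mem_om, ?_⟩
        rw [ap_lam hF em_mem_om, h0]
        exact hy
      · refine ⟨bor_sub hC y hy, sc SigB.em, sc_mem_om em_mem_om, ?_⟩
        rw [ap_lam hF (sc_mem_om em_mem_om), h1 _ (sc_ne_em _)]
        exact hy
    · rintro ⟨-, n, hn, hy⟩
      rw [ap_lam hF hn] at hy
      by_cases hn0 : n = SigB.em
      · subst hn0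
        rw [h0] at hy
        exact Or.inl hy
      · rw [h1 n hn0] at hy
        exact Or.inr hy
  rw [h2]
  exact bor_iU hg

theorem bor_it {B C : N} (hB : B ∈ bor r Y d) (hC : C ∈ bor r Y d) : it B C ∈ bor r Y d := by
  have h1 : it B C = df Y (un (df Y B) (df Y C)) := by
    refine ext' fun y => ?_
    rw [mem_it, mem_df, mem_un, mem_df, mem_df]
    constructor
    · rintro ⟨h1, h2⟩
      exact ⟨bor_sub hB y h1, fun h3 => h3.elim (fun h => h.2 h1) fun h => h.2 h2⟩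
    · rintro ⟨h1, h2⟩
      refine ⟨?_, ?_⟩
      · by_contra h3
        exact h2 (Or.inl ⟨h1, h3⟩)
      · by_contra h3
        exact h2 (Or.inr ⟨h1, h3⟩)
  rw [h1]
  exact bor_df (bor_un (bor_df hB) (bor_df hC))

/-! ### The measure -/

theorem mu_map (h : PM r v Y d m) : m ∈ fs (bor r Y d) r.F := by
  obtain ⟨S, hS, hm⟩ := h.prob.map
  have h1 : S = bor r Y d := ext' fun B => by rw [hS, mem_bor]
  rw [← h1]
  exact isMap_iff.1 hm

theorem mu_mem (h : PM r v Y d m) {B : N} (hB : B ∈ bor r Y d) : ap m B ∈ r.F :=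
  ap_mem (mu_map h) hB

theorem PB.val (h : PM r v Y d m) {B : N} (hB : B ∈ bor r Y d) : Val m B (ap m B) :=
  val_iff.2 ((op_mem_fs (mu_map h)).2 ⟨hB, rfl⟩)

theorem PB.val_iff' (h : PM r v Y d m) {B a : N} : Val m B a ↔ B ∈ bor r Y d ∧ ap m B = a := by
  rw [val_iff, op_mem_fs (mu_map h)]

theorem mu_nonneg (h : PM r v Y d m) {B : N} (hB : B ∈ bor r Y d) : 0 ≤ v (ap m B) := by
  have h1 := h.prob.nonneg B _ (PB.val h hB)
  rw [Pool.Agent.SigB.val_iff, h.rv.le h.rv.zeroM (mu_mem h hB), h.rv.zero] at h1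
  exact h1

theorem mu_univ (h : PM r v Y d m) : v (ap m Y) = 1 := by
  rw [((PB.val_iff' h).1 h.prob.total).2, h.rv.one]

theorem mu_add (h : PM r v Y d m) {B C : N} (hB : B ∈ bor r Y d) (hC : C ∈ bor r Y d)
    (hd : ∀ y, y ∈ B → y ∉ C) : v (ap m (un B C)) = v (ap m B) + v (ap m C) := by
  have h1 := h.prob.add B C (un B C) _ _ (ap r.add (op (ap m B) (ap m C))) (PB.val h hB)
    (PB.val h hC) hd (fun y => mem_un) (val2_iff.2 ((op_mem_fs h.rv.addM).2
      ⟨op_mem_pd.2 ⟨mu_mem h hB, mu_mem h hC⟩, rfl⟩))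
  rw [((PB.val_iff' h).1 h1).2, h.rv.add (mu_mem h hB) (mu_mem h hC)]

theorem mu_em (h : PM r v Y d m) : v (ap m em) = 0 := by
  have h1 := mu_add h (bor_univ h) (bor_em h) fun y _ => not_mem_em y
  have h2 : un Y em = Y := by
    refine ext' fun y => ?_
    rw [mem_un]
    exact ⟨fun h => h.elim id fun h => (not_mem_em _ h).elim, Or.inl⟩
  rw [h2] at h1
  linarith

theorem PB.split (h : PM r v Y d m) {B C : N} (hB : B ∈ bor r Y d) (hC : C ∈ bor r Y d) :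
    it C (df Y B) ∈ bor r Y d ∧
      v (ap m (un B C)) = v (ap m B) + v (ap m (it C (df Y B))) := by
  have h1 := bor_it hC (bor_df hB)
  refine ⟨h1, ?_⟩
  rw [← mu_add h hB h1 fun y hy hy' => (mem_df.1 (mem_it.1 hy').2).2 hy]
  congr 2
  refine ext' fun y => ?_
  rw [mem_un, mem_un, mem_it, mem_df]
  constructor
  · rintro (hy | hy)
    · exact Or.inl hy
    · by_cases hyB : y ∈ B
      · exact Or.inl hyB
      · exact Or.inr ⟨hy, bor_sub hC y hy, hyB⟩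
  · rintro (hy | hy)
    · exact Or.inl hy
    · exact Or.inr hy.1

theorem mu_mono (h : PM r v Y d m) {B C : N} (hB : B ∈ bor r Y d) (hC : C ∈ bor r Y d)
    (hs : Sb B C) : v (ap m B) ≤ v (ap m C) := by
  obtain ⟨h1, h2⟩ := PB.split h hB hC
  have h3 : un B C = C := by
    refine ext' fun y => ?_
    rw [mem_un]
    exact ⟨fun h => h.elim (hs y) id, Or.inr⟩
  rw [h3] at h2
  have := mu_nonneg h h1
  linarith

theorem mu_df (h : PM r v Y d m) {B : N} (hB : B ∈ bor r Y d) :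
    v (ap m (df Y B)) = 1 - v (ap m B) := by
  have h1 := mu_add h hB (bor_df hB) fun y hy hy' => (mem_df.1 hy').2 hy
  have h2 : un B (df Y B) = Y := by
    refine ext' fun y => ?_
    rw [mem_un, mem_df]
    constructor
    · rintro (hy | hy)
      · exact bor_sub hB y hy
      · exact hy.1
    · intro hy
      by_cases hyB : y ∈ B
      · exact Or.inl hyB
      · exact Or.inr ⟨hy, hyB⟩
  rw [h2, mu_univ h] at h1
  linarith

theorem mu_un_le (h : PM r v Y d m) {B C : N} (hB : B ∈ bor r Y d) (hC : C ∈ bor r Y d) :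
    v (ap m (un B C)) ≤ v (ap m B) + v (ap m C) := by
  obtain ⟨h1, h2⟩ := PB.split h hB hC
  rw [h2]
  have := mu_mono h h1 hC fun y hy => (mem_it.1 hy).1
  linarith

/-- Continuity along increasing sequences. -/
theorem mu_iU_mono (h : PM r v Y d m) {g : N} (hg : g ∈ fs om (bor r Y d))
    (hm : ∀ k, Sb (ap g (nt N k)) (ap g (nt N (k + 1)))) {c : ℝ}
    (hc : ∀ k, v (ap m (ap g (nt N k))) ≤ c) : v (ap m (iU Y g)) ≤ c := by
  have hm' : ∀ k l, k ≤ l → Sb (ap g (nt N k)) (ap g (nt N l)) := by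
    intro k l hkl
    induction hkl with
    | refl => exact Sb.refl _
    | step _ ih => exact ih.trans (hm _)
  refine le_of_forall_gt_imp_ge_of_dense fun c' hc' => ?_
  obtain ⟨w, hw, h1, h2⟩ := h.rv.exists_btw hc'
  have h3 := h.prob.sup om (bor r Y d) g (iU Y g) (ap m (iU Y g)) w (isOmega_iff.2 rfl)
    (fun C => mem_bor) (isMap_iff.2 hg) (fun i j C D hij hC hD => by
      obtain ⟨hi, rfl⟩ := (op_mem_fs hg).1 (Pool.Agent.SigB.val_iff.1 hC)
      obtain ⟨hj, rfl⟩ := (op_mem_fs hg).1 (Pool.Agent.SigB.val_iff.1 hD)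
      obtain ⟨k, rfl⟩ := h.om i hi
      obtain ⟨l, rfl⟩ := h.om j hj
      exact hm' k l (sb_nt.1 hij)) (fun y => by
      rw [PB.iU_eq hg, mem_cun]
      constructor
      · rintro ⟨n, hn, hy⟩
        exact ⟨n, ap g n, Pool.Agent.SigB.val_iff.2 ((op_mem_fs hg).2 ⟨hn, rfl⟩), hy⟩
      · rintro ⟨n, X, hX, hy⟩
        obtain ⟨hn, rfl⟩ := (op_mem_fs hg).1 (Pool.Agent.SigB.val_iff.1 hX)
        exact ⟨n, hn, hy⟩) (PB.val h (bor_iU hg)) hw (fun i C b hC hb => by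
      obtain ⟨hi, rfl⟩ := (op_mem_fs hg).1 (Pool.Agent.SigB.val_iff.1 hC)
      obtain ⟨k, rfl⟩ := h.om i hi
      obtain ⟨hB, rfl⟩ := (PB.val_iff' h).1 hb
      rw [Pool.Agent.SigB.val_iff, h.rv.le (mu_mem h hB) hw]
      exact (hc k).trans h1.le)
  rw [Pool.Agent.SigB.val_iff, h.rv.le (mu_mem h (bor_iU hg)) hw] at h3
  exact h3.trans h2.le

/-- Continuity along decreasing sequences. -/
theorem mu_iI_anti (h : PM r v Y d m) {g : N} (hg : g ∈ fs om (bor r Y d))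
    (hm : ∀ k, Sb (ap g (nt N (k + 1))) (ap g (nt N k))) {c : ℝ}
    (hc : ∀ k, c ≤ v (ap m (ap g (nt N k)))) : c ≤ v (ap m (iI Y g)) := by
  rw [PB.iI_eq, mu_df h (bor_iU (PB.cs_mem hg))]
  have h1 := mu_iU_mono h (PB.cs_mem hg) (c := 1 - c) (fun k y hy => by
    rw [PB.ap_cs (nt_mem_om _), mem_df] at hy ⊢
    exact ⟨hy.1, fun h2 => hy.2 (hm k y h2)⟩) fun k => by
    rw [PB.ap_cs (nt_mem_om _), mu_df h (ap_mem hg (nt_mem_om _))]
    have := hc k
    linarith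
  linarith

/-- Countable subadditivity. -/
theorem mu_iU_le (h : PM r v Y d m) {g : N} (hg : g ∈ fs om (bor r Y d)) {c : ℝ}
    (hc : ∀ n, ∑ k ∈ Finset.range n, v (ap m (ap g (nt N k))) ≤ c) :
    v (ap m (iU Y g)) ≤ c := by
  have hF : DT (fun w : Fin 1 → N => sp Y fun y => ∃ k, k ∈ sc (w 0) ∧ y ∈ ap g k) := by
    simp (maxDischargeDepth := 50)
  have hsp : ∀ n y : N, y ∈ (sp Y fun y => ∃ k, k ∈ sc n ∧ y ∈ ap g k) ↔
      y ∈ Y ∧ ∃ k, k ∈ sc n ∧ y ∈ ap g k := fun n y => mem_sp (by simp (maxDischargeDepth := 50))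
  set G : N := lam om fun n => sp Y fun y => ∃ k, k ∈ sc n ∧ y ∈ ap g k with hG
  have hap : ∀ n y, n ∈ (om : N) → (y ∈ ap G n ↔ y ∈ Y ∧ ∃ k, k ∈ sc n ∧ y ∈ ap g k) := by
    intro n y hn
    rw [hG, ap_lam hF hn, hsp]
  have hap' : ∀ (n : ℕ) (y : N), y ∈ ap G (nt N n) ↔ y ∈ Y ∧ ∃ k ≤ n, y ∈ ap g (nt N k) := by
    intro n y
    rw [hap _ _ (nt_mem_om n)]
    refine and_congr_right fun _ => ?_
    constructor
    · rintro ⟨k, hk, hy⟩
      have hk' : k ∈ nt N (n + 1) := hk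
      obtain ⟨l, hl, rfl⟩ := mem_nt.1 hk'
      exact ⟨l, Nat.lt_succ_iff.1 hl, hy⟩
    · rintro ⟨k, hk, hy⟩
      refine ⟨nt N k, ?_, hy⟩
      have : nt N k ∈ nt N (n + 1) := nt_mem_nt.2 (Nat.lt_succ_iff.2 hk)
      exact this
  have h0 : ap G (nt N 0) = ap g (nt N 0) := by
    refine ext' fun y => ?_
    rw [hap']
    constructor
    · rintro ⟨-, k, hk, hy⟩
      rwa [Nat.le_zero.1 hk] at hy
    · intro hy
      exact ⟨bor_sub (ap_mem hg (nt_mem_om 0)) y hy, 0, le_rfl, hy⟩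
  have h1 : ∀ n, ap G (nt N (n + 1)) = un (ap G (nt N n)) (ap g (nt N (n + 1))) := by
    intro n
    refine ext' fun y => ?_
    rw [mem_un, hap', hap']
    constructor
    · rintro ⟨hy, k, hk, hyk⟩
      rcases Nat.le_succ_iff.1 hk with hk | hk
      · exact Or.inl ⟨hy, k, hk, hyk⟩
      · rw [hk] at hyk
        exact Or.inr hyk
    · rintro (⟨hy, k, hk, hyk⟩ | hy)
      · exact ⟨hy, k, hk.trans (Nat.le_succ n), hyk⟩
      · exact ⟨bor_sub (ap_mem hg (nt_mem_om _)) y hy, n + 1, le_rfl, hy⟩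
  have h2 : ∀ n, ap G (nt N n) ∈ bor r Y d ∧
      v (ap m (ap G (nt N n))) ≤ ∑ k ∈ Finset.range (n + 1), v (ap m (ap g (nt N k))) := by
    intro n
    induction n with
    | zero =>
      rw [h0]
      exact ⟨ap_mem hg (nt_mem_om _), by simp⟩
    | succ n ih =>
      rw [h1, Finset.sum_range_succ]
      have h3 := ap_mem hg (nt_mem_om (K := N) (n + 1))
      refine ⟨bor_un ih.1 h3, (mu_un_le h ih.1 h3).trans ?_⟩
      linarith [ih.2]
  have hGm : G ∈ fs om (bor r Y d) := by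
    refine lam_mem_fs hF fun n hn => ?_
    obtain ⟨k, rfl⟩ := h.om n hn
    have := (h2 k).1
    rwa [hG, ap_lam hF hn] at this
  have h3 : iU Y g = iU Y G := by
    refine ext' fun y => ?_
    rw [mem_iU h.om, mem_iU h.om]
    refine and_congr_right fun hy => ?_
    constructor
    · rintro ⟨k, hk⟩
      exact ⟨k, (hap' k y).2 ⟨hy, k, le_rfl, hk⟩⟩
    · rintro ⟨k, hk⟩
      obtain ⟨-, l, -, hl⟩ := (hap' k y).1 hk
      exact ⟨l, hl⟩
  rw [h3]
  refine mu_iU_mono h hGm (fun k y hy => ?_) fun k => (h2 k).2.trans (hc _)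
  rw [hap'] at hy ⊢
  obtain ⟨hy, l, hl, hyl⟩ := hy
  exact ⟨hy, l, hl.trans (Nat.le_succ k), hyl⟩

/-- The null sets in terms of the valuation. -/
theorem isMeasureZero_iff (h : PM r v Y d m) {Z : N → Prop} :
    IsMeasureZero r m Z ↔ ∃ B, B ∈ bor r Y d ∧ v (ap m B) = 0 ∧ ∀ y, Z y → y ∈ B := by
  unfold IsMeasureZero
  refine exists_congr fun B => ?_
  rw [PB.val_iff' h, and_assoc]
  refine and_congr_right fun hB => and_congr_left fun _ => ?_
  constructor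
  · intro h1
    rw [h1, h.rv.zero]
  · intro h1
    exact h.rv.inj (mu_mem h hB) h.rv.zeroM (by rw [h1, h.rv.zero])

end Pool.Agent.GPA
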