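import Pool.Agent.GPA.Frame

/-!
# Block G, part 1: intervals attached to finite sequences of zeros and ones

Pure combinatorics of reals: a measure on `2^ω` is given by its values `μ s` on the cylinders; the
cylinder of `s` corresponds to the closed interval `[lo μ s, hi μ s]` of length `μ s`.
-/

open Finset

namespace Pool.Agent.GPA

/-- `μ` gives the measures of the cylinders for a probability measure on `2^ω`. -/
structure TM (μ : List Bool → ℝ) : Prop where
  nonneg : ∀ s, 0 ≤ μ s
  add : ∀ s, μ (s ++ [false]) + μ (s ++ [true]) = μ s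
  one : μ [] = 1

/-- The left end point of the interval of `s`. -/
noncomputable def lo (μ : List Bool → ℝ) (s : List Bool) : ℝ :=
  ∑ i ∈ range s.length, if s[i]? = some true then μ (s.take i ++ [false]) else 0

/-- The right end point of the interval of `s`. -/
noncomputable def hi (μ : List Bool → ℝ) (s : List Bool) : ℝ := lo μ s + μ s

/-- The coin tossing measure. -/
noncomputable def cm (t : List Bool) : ℝ := (1 / 2 : ℝ) ^ t.length

/-- The closed dyadic interval of `t` meets the closed interval of `s` for the measure `μ`. -/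
def Meet (μ : List Bool → ℝ) (t s : List Bool) : Prop := lo cm t ≤ hi μ s ∧ lo μ s ≤ hi cm t

/-- Some initial segment of `s` belongs to `W`. -/
def Pre (W : Set (List Bool)) (s : List Bool) : Prop := ∃ w ∈ W, w <+: s

open Classical in
/-- The open subset of `2^ω` given by `W` has measure at most `δ` for `μ`. -/
def Mass (μ : List Bool → ℝ) (W : Set (List Bool)) (δ : ℝ) : Prop :=
  ∀ k, ∑ s : List.Vector Bool k, (if Pre W s.1 then μ s.1 else 0) ≤ δ

/-- The open subset of `2^ω` given by `W` has measure at most `2⁻ⁿ` for the coin tossing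
measure. -/
def CMass (W : Set (List Bool)) (n : ℕ) : Prop :=
  ∀ m : ℕ, {t : List.Vector Bool m | Pre W t.1}.ncard * 2 ^ n ≤ 2 ^ m

theorem tm_cm : TM cm where
  nonneg s := by unfold cm; positivity
  add s := by
    simp only [cm, List.length_append, List.length_singleton, pow_succ]
    ring
  one := by simp [cm]

theorem lo_nil (μ : List Bool → ℝ) : lo μ [] = 0 := by
  simp [lo]

theorem lo_snoc (μ : List Bool → ℝ) (s : List Bool) (b : Bool) :
    lo μ (s ++ [b]) = lo μ s + if b = true then μ (s ++ [false]) else 0 := by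
  unfold lo
  rw [List.length_append, List.length_singleton, sum_range_succ]
  congr 1
  · refine sum_congr rfl fun i hi => ?_
    rw [mem_range] at hi
    rw [List.getElem?_append_left hi, List.take_append_of_le_length hi.le]
  · simp

namespace PN

variable {μ : List Bool → ℝ}

theorem hi_snoc (hμ : TM μ) (s : List Bool) (b : Bool) :
    hi μ (s ++ [b]) = if b = true then hi μ s else lo μ s + μ (s ++ [false]) := by
  have h := hμ.add s
  unfold hi
  rw [lo_snoc]
  cases b
  · simp
  · simp only [if_true]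
    linarith

theorem lo_le_snoc (hμ : TM μ) (s : List Bool) (b : Bool) : lo μ s ≤ lo μ (s ++ [b]) := by
  rw [lo_snoc]
  have := hμ.nonneg (s ++ [false])
  split_ifs <;> linarith

theorem hi_snoc_le (hμ : TM μ) (s : List Bool) (b : Bool) : hi μ (s ++ [b]) ≤ hi μ s := by
  rw [hi_snoc hμ]
  have := hμ.nonneg (s ++ [true])
  have h := hμ.add s
  split_ifs
  · exact le_rfl
  · unfold hi
    linarith

theorem lo_mono (hμ : TM μ) {s s' : List Bool} (h : s <+: s') : lo μ s ≤ lo μ s' := by
  obtain ⟨r, rfl⟩ := h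
  induction r using List.reverseRecOn with
  | nil => simp
  | append_singleton r b ih =>
    rw [← List.append_assoc]
    exact ih.trans (lo_le_snoc hμ _ _)

theorem hi_anti (hμ : TM μ) {s s' : List Bool} (h : s <+: s') : hi μ s' ≤ hi μ s := by
  obtain ⟨r, rfl⟩ := h
  induction r using List.reverseRecOn with
  | nil => simp
  | append_singleton r b ih =>
    rw [← List.append_assoc]
    exact (hi_snoc_le hμ _ _).trans ih

/-- the half-open interval of `s` -/
def J (μ : List Bool → ℝ) (s : List Bool) : Set ℝ := Set.Ico (lo μ s) (hi μ s)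

theorem J_anti (hμ : TM μ) {s s' : List Bool} (h : s <+: s') : J μ s' ⊆ J μ s := fun _ hx =>
  ⟨(lo_mono hμ h).trans hx.1, hx.2.trans_le (hi_anti hμ h)⟩

theorem J_disj (hμ : TM μ) : ∀ {s s' : List Bool}, s.length = s'.length → s ≠ s' →
    Disjoint (J μ s) (J μ s') := by
  intro s
  induction s using List.reverseRecOn with
  | nil =>
    intro s' h h'
    exact absurd (List.length_eq_zero_iff.1 h.symm).symm h'
  | append_singleton s b ih =>
    intro s' h h'
    rcases List.eq_nil_or_concat s' with rfl | ⟨t, c, rfl⟩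
    · simp at h
    · rw [List.concat_eq_append] at h h' ⊢
      have hl : s.length = t.length := by simpa using h
      by_cases hst : s = t
      · subst hst
        have hbc : b ≠ c := fun h0 => h' (by rw [h0])
        rw [Set.disjoint_left]
        rintro x ⟨h1, h2⟩ ⟨h3, h4⟩
        rw [lo_snoc] at h1 h3
        rw [hi_snoc hμ] at h2 h4
        cases b <;> cases c
        · exact hbc rfl
        · simp at h2 h3
          linarith
        · simp at h1 h4
          linarith
        · exact hbc rfl
      · exact (ih hl hst).mono (J_anti hμ ⟨[b], rfl⟩) (J_anti hμ ⟨[c], rfl⟩)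

theorem J_snoc (hμ : TM μ) {s : List Bool} {x : ℝ} (hx : x ∈ J μ s) : ∃ b, x ∈ J μ (s ++ [b]) := by
  by_cases h : x < lo μ s + μ (s ++ [false])
  · refine ⟨false, ?_, ?_⟩
    · rw [lo_snoc]
      simpa using hx.1
    · rw [hi_snoc hμ]
      simpa using h
  · refine ⟨true, ?_, ?_⟩
    · rw [lo_snoc]
      simpa using h
    · rw [hi_snoc hμ]
      simpa using hx.2

theorem J_ext (hμ : TM μ) {s : List Bool} {x : ℝ} (hx : x ∈ J μ s) (k : ℕ) :
    ∃ s', s <+: s' ∧ s'.length = s.length + k ∧ x ∈ J μ s' := by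
  induction k with
  | zero => exact ⟨s, List.prefix_rfl, rfl, hx⟩
  | succ k ih =>
    obtain ⟨s', h1, h2, h3⟩ := ih
    obtain ⟨b, hb⟩ := J_snoc hμ h3
    exact ⟨s' ++ [b], h1.trans ⟨[b], rfl⟩, by simp [h2]; ring, hb⟩

theorem J_nil (hμ : TM μ) : J μ [] = Set.Ico 0 1 := by
  unfold J hi
  rw [lo_nil, hμ.one, zero_add]

theorem J_sub_unit (hμ : TM μ) (s : List Bool) : J μ s ⊆ Set.Ico 0 1 := by
  rw [← J_nil hμ]
  exact J_anti hμ (List.nil_prefix)

theorem pre_mono {W : Set (List Bool)} {s s' : List Bool} (h : Pre W s) (hs : s <+: s') :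
    Pre W s' := by
  obtain ⟨w, hw, hws⟩ := h
  exact ⟨w, hw, hws.trans hs⟩

/-- incomparable sequences have disjoint intervals -/
theorem prefix_of_mem (hμ : TM μ) {s s' : List Bool} {x : ℝ} (hx : x ∈ J μ s) (hx' : x ∈ J μ s')
    (hl : s.length ≤ s'.length) : s <+: s' := by
  have h1 : (s'.take s.length).length = s.length := by
    rw [List.length_take]
    exact min_eq_left hl
  have h2 : x ∈ J μ (s'.take s.length) := J_anti hμ (List.take_prefix _ _) hx'
  by_contra h
  have h3 : s'.take s.length ≠ s := by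
    intro h0
    exact h (h0 ▸ List.take_prefix _ _)
  exact Set.disjoint_left.1 (J_disj hμ h1 h3) h2 hx

theorem measurableSet_J (s : List Bool) : MeasurableSet (J μ s) := measurableSet_Ico

open MeasureTheory

theorem vol_J (hμ : TM μ) (s : List Bool) : volume.real (J μ s) = μ s := by
  unfold J hi
  rw [Measure.real, Real.volume_Ico, add_sub_cancel_left, ENNReal.toReal_ofReal (hμ.nonneg s)]

theorem vol_J_ne (s : List Bool) : volume (J μ s) ≠ ⊤ := by
  unfold J
  rw [Real.volume_Ico]
  exact ENNReal.ofReal_ne_top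

open Classical in
theorem vol_U (hμ : TM μ) (m : ℕ) (P : List Bool → Prop) :
    volume.real {x | ∃ t : List.Vector Bool m, P t.1 ∧ x ∈ J μ t.1} =
      ∑ t : List.Vector Bool m, if P t.1 then μ t.1 else 0 := by
  have h1 : {x | ∃ t : List.Vector Bool m, P t.1 ∧ x ∈ J μ t.1} =
      ⋃ t ∈ (univ.filter fun t : List.Vector Bool m => P t.1), J μ t.1 := by
    ext x
    simp
  have h2 := measureReal_biUnion_finset (μ := volume) (f := fun t : List.Vector Bool m => J μ t.1)
    (s := univ.filter fun t : List.Vector Bool m => P t.1)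
    (fun t _ t' _ htt => J_disj hμ (by rw [t.2, t'.2]) fun h => htt (Subtype.ext h))
    (fun t _ => measurableSet_J _) (fun t _ => vol_J_ne _)
  rw [h1]
  refine h2.trans ?_
  rw [sum_filter]
  exact sum_congr rfl fun t _ => by rw [vol_J hμ]

theorem U_bdd (hμ : TM μ) (m : ℕ) (P : List Bool → Prop) :
    volume {x | ∃ t : List.Vector Bool m, P t.1 ∧ x ∈ J μ t.1} ≠ ⊤ := by
  refine ne_top_of_le_ne_top ?_ (measure_mono (t := Set.Ico (0 : ℝ) 1) ?_)
  · rw [Real.volume_Ico]
    exact ENNReal.ofReal_ne_top
  · rintro x ⟨t, -, hx⟩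
    exact J_sub_unit hμ _ hx

/-- the sequence of a vector -/
def vl (k : ℕ) (v : List.Vector Bool k) : List Bool := v.1

theorem length_vl {k : ℕ} (v : List.Vector Bool k) : (vl k v).length = k := v.2

theorem vl_inj {k : ℕ} {v v' : List.Vector Bool k} (h : vl k v = vl k v') : v = v' :=
  Subtype.ext h

theorem length_ini (y : ℕ → Bool) (m : ℕ) : (ini y m).length = m := by simp [ini]

theorem ini_prefix (y : ℕ → Bool) {m m' : ℕ} (h : m ≤ m') : ini y m <+: ini y m' := by
  rw [List.prefix_iff_eq_take, length_ini]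
  refine List.ext_getElem (by simp [ini, h]) fun i h1 h2 => ?_
  simp [ini]

theorem eq_ini {y : ℕ → Bool} {m : ℕ} {w : List Bool} (h : w <+: ini y m) :
    w = ini y w.length := by
  have h1 : w.length ≤ m := by simpa [length_ini] using h.length_le
  have h2 := ini_prefix y h1
  rw [List.prefix_iff_eq_take] at h h2
  rw [length_ini] at h2
  rw [h2]
  exact h

theorem lo_cm (t : List Bool) : ∃ N : ℕ, lo cm t = N * (1 / 2) ^ t.length := by
  induction t using List.reverseRecOn with
  | nil => exact ⟨0, by simp [lo_nil]⟩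
  | append_singleton t b ih =>
    obtain ⟨N, hN⟩ := ih
    rw [lo_snoc, hN]
    have h1 : cm (t ++ [false]) = (1 / 2) ^ (t.length + 1) := by simp [cm]
    rw [h1, List.length_append, List.length_singleton]
    cases b
    · refine ⟨2 * N, ?_⟩
      simp only [Bool.false_eq_true, if_false, pow_succ]
      push_cast
      ring
    · refine ⟨2 * N + 1, ?_⟩
      simp only [if_true, pow_succ]
      push_cast
      ring

theorem mass_iff (hμ : TM μ) {W : Set (List Bool)} {δ : ℝ} : Mass μ W δ ↔
    ∀ k, volume.real {x | ∃ t : List.Vector Bool k, Pre W t.1 ∧ x ∈ J μ t.1} ≤ δ := by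
  classical
  unfold Mass
  refine forall_congr' fun k => ?_
  rw [vol_U hμ k (Pre W)]

theorem cmass_iff {W : Set (List Bool)} {n : ℕ} : CMass W n ↔
    ∀ k, volume.real {x | ∃ t : List.Vector Bool k, Pre W t.1 ∧ x ∈ J cm t.1} ≤ (1 / 2) ^ n := by
  classical
  unfold CMass
  refine forall_congr' fun k => ?_
  rw [vol_U tm_cm k (Pre W)]
  have h1 : {t : List.Vector Bool k | Pre W t.1}.ncard =
      (univ.filter fun t : List.Vector Bool k => Pre W t.1).card := by
    rw [← Set.ncard_coe_finset]
    congr 1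
    ext t
    simp
  have h2 : (∑ t : List.Vector Bool k, if Pre W t.1 then cm t.1 else 0) =
      (univ.filter fun t : List.Vector Bool k => Pre W t.1).card * (1 / 2) ^ k := by
    rw [← sum_filter, ← nsmul_eq_mul, ← sum_const]
    exact sum_congr rfl fun t _ => by rw [cm, t.2]
  rw [h1, h2]
  rw [one_div, inv_pow, inv_pow, ← div_eq_mul_inv, div_le_iff₀ (by positivity), inv_mul_eq_div,
    le_div_iff₀ (by positivity)]
  exact_mod_cast Iff.rfl

end PN

theorem Meet.mono {μ : List Bool → ℝ} (hμ : TM μ) {t t' s s' : List Bool} (h : Meet μ t' s')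
    (ht : t <+: t') (hs : s <+: s') : Meet μ t s :=
  ⟨(PN.lo_mono tm_cm ht).trans (h.1.trans (PN.hi_anti hμ hs)),
    (PN.lo_mono hμ hs).trans (h.2.trans (PN.hi_anti tm_cm ht))⟩

/-- Binary digits. -/
theorem digits {x : ℝ} (h0 : 0 ≤ x) (h1 : x < 1) (t : List Bool) :
    (∀ i < t.length, (t[i]? = some true ↔ ∃ j : ℕ, ((2 * j + 1 : ℕ) : ℝ) * (1 / 2) ^ (i + 1) ≤ x ∧
      x < ((2 * j + 2 : ℕ) : ℝ) * (1 / 2) ^ (i + 1))) ↔ lo cm t ≤ x ∧ x < hi cm t := by
  induction t using List.reverseRecOn with
  | nil =>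
    simp only [List.length_nil, Nat.not_lt_zero, false_implies, implies_true, true_iff, hi, lo_nil,
      tm_cm.one]
    exact ⟨h0, by linarith⟩
  | append_singleton t b ih =>
    obtain ⟨N, hN⟩ := PN.lo_cm t
    have hc : cm t = (1 / 2) ^ t.length := rfl
    have hc1 : cm (t ++ [false]) = (1 / 2) ^ (t.length + 1) := by simp [cm]
    have hp : (0 : ℝ) < (1 / 2) ^ (t.length + 1) := by positivity
    have hpp : (1 / 2 : ℝ) ^ t.length = 2 * (1 / 2) ^ (t.length + 1) := by
      rw [pow_succ]; ring
    set u : ℝ := (1 / 2) ^ (t.length + 1) with hu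
    have hlo : lo cm t = 2 * N * u := by
      rw [hN, hpp]; ring
    have hhi : hi cm t = (2 * N + 2) * u := by
      unfold hi
      rw [hlo, hc, hpp]; ring
    constructor
    · intro h
      have h2 : lo cm t ≤ x ∧ x < hi cm t := by
        refine ih.1 fun i hi => ?_
        have h3 := h i (by rw [List.length_append]; exact Nat.lt_add_right _ hi)
        rwa [List.getElem?_append_left hi] at h3
      have h4 := h t.length (by simp)
      rw [List.getElem?_append_right le_rfl, Nat.sub_self] at h4
      rw [lo_snoc, PN.hi_snoc tm_cm, hc1]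
      rw [hlo, hhi] at h2
      cases b
      · simp only [List.getElem?_cons_zero, Option.some.injEq, Bool.false_eq_true, false_iff,
          not_exists, not_and, not_lt] at h4
        simp only [Bool.false_eq_true, if_false, add_zero, hlo]
        refine ⟨h2.1, ?_⟩
        by_contra h5
        push Not at h5
        have h6 := h4 N (by push_cast; linarith)
        push_cast at h6
        linarith
      · simp only [List.getElem?_cons_zero, true_iff] at h4
        obtain ⟨j, h5, h6⟩ := h4
        simp only [if_true, hlo, hhi]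
        refine ⟨?_, h2.2⟩
        have h7 : N ≤ j := by
          by_contra h8
          push Not at h8
          have h9 : (j : ℝ) + 1 ≤ N := by exact_mod_cast h8
          push_cast at h6
          nlinarith
        have h7' : (N : ℝ) ≤ j := by exact_mod_cast h7
        push_cast at h5
        nlinarith
    · rintro ⟨h2, h3⟩
      have h4 : lo cm t ≤ x ∧ x < hi cm t :=
        ⟨(PN.lo_le_snoc tm_cm t b).trans h2, h3.trans_le (PN.hi_snoc_le tm_cm t b)⟩
      have h5 := ih.2 h4
      intro i hi
      rw [List.length_append, List.length_singleton, Nat.lt_succ_iff] at hi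
      rcases hi.lt_or_eq with hi | rfl
      · rw [List.getElem?_append_left hi]
        exact h5 i hi
      · rw [List.getElem?_append_right le_rfl, Nat.sub_self, List.getElem?_cons_zero,
          Option.some.injEq]
        rw [lo_snoc, hc1, hlo] at h2
        rw [PN.hi_snoc tm_cm, hc1, hlo, hhi] at h3
        rw [hlo, hhi] at h4
        cases b
        · simp only [Bool.false_eq_true, false_iff, not_exists, not_and, not_lt]
          simp only [Bool.false_eq_true, if_false] at h3
          intro j h6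
          push_cast at h6 ⊢
          by_contra h7
          push Not at h7
          have h8 : (j : ℝ) < N := by
            by_contra h9
            push Not at h9
            nlinarith
          have h9 : (j : ℝ) + 1 ≤ N := by exact_mod_cast h8
          nlinarith
        · simp only [if_true] at h2 h3
          simp only [true_iff]
          refine ⟨N, ?_, ?_⟩
          · push_cast; linarith
          · push_cast; linarith

/-- From the measure `μ` to the coin tossing measure. -/
theorem mass_cmass {μ : List Bool → ℝ} (hμ : TM μ) {W : Set (List Bool)} {n : ℕ}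
    (hW : Mass μ W ((1 / 2) ^ (n + 1))) :
    CMass {t | ∃ s ∈ W, (∀ w ∈ W, w <+: s → w = s) ∧ t.length = 2 * s.length + (n + 5) ∧
      Meet μ t s} n := by
  classical
  rw [PN.cmass_iff]
  rw [PN.mass_iff hμ] at hW
  intro m
  set A₀ : Finset (List Bool) :=
    (range (m + 1)).biUnion fun k => (univ : Finset (List.Vector Bool k)).image (PN.vl k) with hA₀
  set A : Finset (List Bool) := A₀.filter fun s => s ∈ W ∧ ∀ w ∈ W, w <+: s → w = s with hA
  have hmem : ∀ s, s ∈ A ↔ s.length ≤ m ∧ s ∈ W ∧ ∀ w ∈ W, w <+: s → w = s := by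
    intro s
    rw [hA, mem_filter, hA₀, mem_biUnion]
    refine and_congr_left fun _ => ?_
    constructor
    · rintro ⟨k, hk, h⟩
      obtain ⟨v, -, rfl⟩ := mem_image.1 h
      rw [mem_range] at hk
      have := PN.length_vl v
      omega
    · intro h
      exact ⟨s.length, mem_range.2 (by omega), mem_image.2
        ⟨(⟨s, rfl⟩ : List.Vector Bool s.length), mem_univ _, rfl⟩⟩
  set h : List Bool → ℝ := fun s => (1 / 2) ^ (2 * s.length + (n + 5)) with hh
  have step1 : {x | ∃ t : List.Vector Bool m, Pre {t | ∃ s ∈ W, (∀ w ∈ W, w <+: s → w = s) ∧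
      t.length = 2 * s.length + (n + 5) ∧ Meet μ t s} t.1 ∧ x ∈ PN.J cm t.1} ⊆
      ⋃ s ∈ A, Set.Icc (lo μ s - h s) (hi μ s + h s) := by
    rintro x ⟨t, ⟨v, ⟨s, hs, hmin, hl, hm⟩, hvt⟩, hx⟩
    have h1 : v.length ≤ m := by
      have := hvt.length_le
      rwa [t.2] at this
    have hx' := PN.J_anti tm_cm hvt hx
    refine Set.mem_iUnion₂.2 ⟨s, (hmem s).2 ⟨by omega, hs, hmin⟩, ?_⟩
    have h2 : hi cm v = lo cm v + h s := by
      rw [hh]
      simp only [hi, cm, hl]
    obtain ⟨h3, h4⟩ := hx'
    obtain ⟨h5, h6⟩ := hm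
    rw [h2] at h4 h6
    constructor <;> linarith
  have hfin : MeasureTheory.volume (⋃ s ∈ A, Set.Icc (lo μ s - h s) (hi μ s + h s)) ≠ ⊤ := by
    refine ne_of_lt ((MeasureTheory.measure_biUnion_finset_le _ _).trans_lt ?_)
    refine ENNReal.sum_lt_top.2 fun s _ => ?_
    rw [Real.volume_Icc]
    exact ENNReal.ofReal_lt_top
  refine (MeasureTheory.measureReal_mono step1 hfin).trans ?_
  refine (MeasureTheory.measureReal_biUnion_finset_le _ _).trans ?_
  have hterm : ∀ s ∈ A, MeasureTheory.volume.real (Set.Icc (lo μ s - h s) (hi μ s + h s)) =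
      μ s + 2 * h s := by
    intro s _
    have h0 : 0 ≤ h s := by
      rw [hh]
      positivity
    have h1 := hμ.nonneg s
    rw [MeasureTheory.Measure.real, Real.volume_Icc, ENNReal.toReal_ofReal]
    · unfold hi; ring
    · unfold hi; linarith
  rw [sum_congr rfl hterm, sum_add_distrib]
  have step3 : ∑ s ∈ A, μ s ≤ (1 / 2) ^ (n + 1) := by
    refine le_trans ?_ (hW m)
    have h1 := MeasureTheory.measureReal_biUnion_finset (μ := MeasureTheory.volume)
      (f := fun s : List Bool => PN.J μ s) (s := A)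
      (fun s hs s' hs' hss => by
        rw [Function.onFun, Set.disjoint_left]
        intro x hx hx'
        have hs1 := (hmem s).1 hs
        have hs2 := (hmem s').1 hs'
        rcases le_total s.length s'.length with hle | hle
        · exact hss (hs2.2.2 s hs1.2.1 (PN.prefix_of_mem hμ hx hx' hle))
        · exact hss (hs1.2.2 s' hs2.2.1 (PN.prefix_of_mem hμ hx' hx hle)).symm)
      (fun s _ => PN.measurableSet_J _) (fun s _ => PN.vol_J_ne _)
    have h2 : ∑ s ∈ A, MeasureTheory.volume.real (PN.J μ s) = ∑ s ∈ A, μ s :=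
      sum_congr rfl fun s _ => PN.vol_J hμ s
    rw [← h2, ← h1]
    refine MeasureTheory.measureReal_mono ?_ (PN.U_bdd hμ m _)
    intro x hx
    obtain ⟨s, hs, hxs⟩ := Set.mem_iUnion₂.1 hx
    have hs1 := (hmem s).1 hs
    obtain ⟨s', h3, h4, h5⟩ := PN.J_ext hμ hxs (m - s.length)
    exact ⟨⟨s', by omega⟩, ⟨s, hs1.2.1, h3⟩, h5⟩
  have step4 : ∑ s ∈ A, 2 * h s ≤ (1 / 2) ^ (n + 3) := by
    have h0 : ∀ s, 0 ≤ 2 * h s := fun s => by
      rw [hh]
      positivity
    calc ∑ s ∈ A, 2 * h s ≤ ∑ s ∈ A₀, 2 * h s :=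
          sum_le_sum_of_subset_of_nonneg (filter_subset _ _) fun s _ _ => h0 s
      _ = ∑ k ∈ range (m + 1), ∑ s ∈ (univ : Finset (List.Vector Bool k)).image (PN.vl k),
            2 * h s := by
          rw [hA₀]
          refine sum_biUnion fun k _ k' _ hkk => ?_
          rw [Function.onFun, disjoint_left]
          intro s hs hs'
          obtain ⟨v, -, rfl⟩ := mem_image.1 hs
          obtain ⟨v', -, h1⟩ := mem_image.1 hs'
          apply hkk
          rw [← PN.length_vl v, ← PN.length_vl v', h1]
      _ = ∑ k ∈ range (m + 1), (1 / 2) ^ (n + 4) * (1 / 2 : ℝ) ^ k := by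
          refine sum_congr rfl fun k _ => ?_
          rw [sum_image (fun v _ v' _ h => PN.vl_inj h)]
          have h1 : ∀ v : List.Vector Bool k, 2 * h (PN.vl k v) =
              2 * (1 / 2) ^ (2 * k + (n + 5)) := by
            intro v
            rw [hh]
            simp only [PN.length_vl]
          rw [sum_congr rfl fun v _ => h1 v, sum_const, card_univ, card_vector,
            Fintype.card_bool, nsmul_eq_mul]
          push_cast
          have h2 : (2 : ℝ) ^ k * (1 / 2) ^ k = 1 := by
            rw [← mul_pow]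
            norm_num
          have h3 : (1 / 2 : ℝ) ^ (2 * k + (n + 5)) =
              (1 / 2) ^ k * (1 / 2) ^ k * ((1 / 2) ^ (n + 4) * (1 / 2)) := by
            rw [← pow_succ, ← pow_add, ← pow_add]
            congr 1
            ring
          rw [h3]
          linear_combination (1 / 2) ^ (n + 4) * (1 / 2) ^ k * h2
      _ = (1 / 2) ^ (n + 4) * ∑ k ∈ range (m + 1), (1 / 2 : ℝ) ^ k := by rw [mul_sum]
      _ ≤ (1 / 2) ^ (n + 4) * 2 := by
          refine mul_le_mul_of_nonneg_left ?_ (by positivity)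
          have h1 : ∀ k : ℕ, ∑ k ∈ range k, (1 / 2 : ℝ) ^ k = 2 - 2 * (1 / 2) ^ k := by
            intro k
            induction k with
            | zero => simp
            | succ k ih => rw [sum_range_succ, ih, pow_succ]; ring
          rw [h1]
          have : (0 : ℝ) ≤ 2 * (1 / 2) ^ (m + 1) := by positivity
          linarith
      _ = (1 / 2) ^ (n + 3) := by rw [pow_succ (1 / 2 : ℝ) (n + 3)]; ring
  have h5 : (1 / 2 : ℝ) ^ (n + 1) = (1 / 2) ^ n * (1 / 2) := pow_succ _ _
  have h6 : (1 / 2 : ℝ) ^ (n + 3) = (1 / 2) ^ n * (1 / 8) := by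
    rw [pow_add]
    norm_num
  have h7 : (0 : ℝ) < (1 / 2) ^ n := by positivity
  rw [h5] at step3
  rw [h6] at step4
  linarith

/-- From the coin tossing measure to the measure `μ`. -/
theorem cmass_mass {μ : List Bool → ℝ} (hμ : TM μ) {W : Set (List Bool)} {n : ℕ}
    (hW : CMass W n) :
    Mass μ {s | ∃ k, ∀ t : List Bool, t.length = k → Meet μ t s → Pre W t} ((1 / 2) ^ n) := by
  classical
  rw [PN.mass_iff hμ]
  rw [PN.cmass_iff] at hW
  intro m
  have h1 : ∀ s : List.Vector Bool m, ∃ k : ℕ,
      Pre {s | ∃ k, ∀ t : List Bool, t.length = k → Meet μ t s → Pre W t} s.1 →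
      ∃ w, w <+: s.1 ∧ ∀ t : List Bool, t.length = k → Meet μ t w → Pre W t := by
    intro s
    by_cases h : Pre {s | ∃ k, ∀ t : List Bool, t.length = k → Meet μ t s → Pre W t} s.1
    · obtain ⟨w, ⟨k, hk⟩, hw⟩ := h
      exact ⟨k, fun _ => ⟨w, hw, hk⟩⟩
    · exact ⟨0, fun h' => absurd h' h⟩
  choose k hk using h1
  set K : ℕ := ∑ s, k s with hK
  have hkK : ∀ s, k s ≤ K := fun s => single_le_sum (fun _ _ => Nat.zero_le _) (mem_univ s)
  refine (MeasureTheory.measureReal_mono ?_ (PN.U_bdd tm_cm K (Pre W))).trans (hW K)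
  rintro x ⟨s, hs, hx⟩
  obtain ⟨w, hw, hkw⟩ := hk s hs
  have hx1 : x ∈ PN.J cm [] := by
    rw [PN.J_nil tm_cm]
    exact PN.J_sub_unit hμ _ hx
  obtain ⟨t, -, ht, hxt⟩ := PN.J_ext tm_cm hx1 K
  have ht' : t.length = K := by simpa using ht
  have hx2 : x ∈ PN.J cm (t.take (k s)) := PN.J_anti tm_cm (List.take_prefix _ _) hxt
  have hx3 : x ∈ PN.J μ w := PN.J_anti hμ hw hx
  have hl : (t.take (k s)).length = k s := by
    rw [List.length_take, ht']
    exact min_eq_left (hkK s)
  have hP := hkw _ hl ⟨hx2.1.trans hx3.2.le, hx3.1.trans hx2.2.le⟩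
  exact ⟨⟨t, ht'⟩, PN.pre_mono hP (List.take_prefix _ _), hxt⟩

/-- The tree of the finite sequences `t` which have extensions `t'` of all lengths without initial
segments in `W` whose intervals meet those of all initial segments of `x`. -/
def Kt (μ : List Bool → ℝ) (W : Set (List Bool)) (x : ℕ → Bool) : Set (List Bool) :=
  {t | ∀ k, t.length ≤ k → ∃ t' : List Bool, t'.length = k ∧ t <+: t' ∧ ¬ Pre W t' ∧
    ∀ n, Meet μ t' (ini x n)}

theorem kt_nil {μ : List Bool → ℝ} (hμ : TM μ) {W : Set (List Bool)} {x : ℕ → Bool}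
    (hx : ∀ n k, ∃ t : List Bool, t.length = k ∧ Meet μ t (ini x n) ∧ ¬ Pre W t) :
    [] ∈ Kt μ W x := by
  intro k _
  choose t ht using fun n => hx n k
  -- one of the finitely many sequences of length `k` occurs infinitely often
  have h1 : ∃ v : List.Vector Bool k, ∀ n, ∃ n' ≥ n, t n' = v.1 := by
    by_contra hcon
    push Not at hcon
    choose N hN using hcon
    set K := ∑ v, N v with hK
    have hle : N ⟨t K, (ht K).1⟩ ≤ K :=
      single_le_sum (f := N) (fun _ _ => Nat.zero_le _) (mem_univ _)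
    exact hN ⟨t K, (ht K).1⟩ K hle rfl
  obtain ⟨v, hv⟩ := h1
  refine ⟨v.1, v.2, List.nil_prefix, ?_, fun n => ?_⟩
  · obtain ⟨n', -, h2⟩ := hv 0
    rw [← h2]
    exact (ht n').2.2
  · obtain ⟨n', h3, h2⟩ := hv n
    rw [← h2]
    exact (ht n').2.1.mono hμ List.prefix_rfl (PN.ini_prefix x h3)

theorem kt_snoc {μ : List Bool → ℝ} {W : Set (List Bool)} {x : ℕ → Bool} {t : List Bool}
    (ht : t ∈ Kt μ W x) : ∃ b, t ++ [b] ∈ Kt μ W x := by
  by_contra hcon
  push Not at hcon
  have h1 : ∀ b, ∃ k, (t ++ [b]).length ≤ k ∧ ¬ ∃ t' : List Bool, t'.length = k ∧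
      t ++ [b] <+: t' ∧ ¬ Pre W t' ∧ ∀ n, Meet μ t' (ini x n) := by
    intro b
    have := hcon b
    unfold Kt at this
    simp only [Set.mem_ofPred_eq, not_forall] at this
    obtain ⟨k, h1, h2⟩ := this
    exact ⟨k, h1, h2⟩
  choose k hk hk' using h1
  set K := max (k false) (k true) with hK
  have hkK : ∀ b, k b ≤ K := by
    intro b
    cases b
    · exact le_max_left _ _
    · exact le_max_right _ _
  have hlen : t.length + 1 ≤ K := by
    have := hk false
    simp only [List.length_append, List.length_singleton] at this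
    exact this.trans (hkK false)
  obtain ⟨t', h2, h3, h4, h5⟩ := ht K (by omega)
  obtain ⟨r, hr⟩ := h3
  rcases r with _ | ⟨b, r⟩
  · rw [List.append_nil] at hr
    rw [← hr] at h2
    omega
  · refine hk' b ⟨t'.take (k b), ?_, ?_, ?_, fun n => ?_⟩
    · rw [List.length_take, h2]
      exact min_eq_left (hkK b)
    · have h6 : t ++ [b] <+: t' := ⟨r, by rw [← hr]; simp⟩
      exact List.prefix_take_iff.2 ⟨h6, hk b⟩
    · exact fun h => h4 (PN.pre_mono h (List.take_prefix _ _))
    · have h6 := h5 n
      exact ⟨(PN.lo_mono tm_cm (List.take_prefix _ _)).trans h6.1,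
        h6.2.trans (PN.hi_anti tm_cm (List.take_prefix _ _))⟩

/-- The minimal elements of `W` give disjoint cylinders. -/
theorem exists_min_pre {W : Set (List Bool)} {s : List Bool} (h : Pre W s) :
    ∃ w ∈ W, w <+: s ∧ ∀ v ∈ W, v <+: w → v = w := by
  classical
  have h1 : ∃ k, ∃ w ∈ W, w <+: s ∧ w.length = k := by
    obtain ⟨w, hw, hws⟩ := h
    exact ⟨_, w, hw, hws, rfl⟩
  obtain ⟨w, hw, hws, hl⟩ := Nat.find_spec h1
  refine ⟨w, hw, hws, fun v hv hvw => ?_⟩
  have h2 : Nat.find h1 ≤ v.length := Nat.find_min' h1 ⟨v, hv, hvw.trans hws, rfl⟩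
  rw [← hl] at h2
  exact hvw.eq_of_length (le_antisymm hvw.length_le h2)

/-- Every point `x` of the open set given by `W` whose interval contains the point `z` belongs to
the cover of `mass_cmass`. -/
theorem cover {μ : List Bool → ℝ} (hμ : TM μ) {W : Set (List Bool)} {n : ℕ} {x z : ℕ → Bool}
    (hx : ∃ k, ini x k ∈ W) (hz : ∀ n k, Meet μ (ini z k) (ini x n)) :
    ∃ k, ini z k ∈ {t : List Bool | ∃ s ∈ W, (∀ w ∈ W, w <+: s → w = s) ∧
      t.length = 2 * s.length + (n + 5) ∧ Meet μ t s} := by
  obtain ⟨k, hk⟩ := hx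
  obtain ⟨w, hw, hwx, hmin⟩ := exists_min_pre (W := W) (s := ini x k) ⟨_, hk, List.prefix_rfl⟩
  have h1 : w = ini x w.length := PN.eq_ini hwx
  refine ⟨2 * w.length + (n + 5), w, hw, hmin, PN.length_ini _ _, ?_⟩
  rw [h1]
  exact hz _ _

end Pool.Agent.GPA
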