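import Pool.Agent.GPA.PolReg

/-!
# Block G: null sets in terms of the measures of the cylinders
-/

set_option linter.unusedSectionVars false

namespace Pool.Agent.GPA

open Pool.Agent.SigB Pool.Agent.Frc Pool.Agent.Forc

variable {N : Type 1} [Membership N N] [IsZFC N] {r : RealData N} {Y d m u : N} {v : N → ℝ}

/-- Null sets in terms of the measures of the cylinders. -/
theorem measureZero_iff (h : PM r v Y d m) (hu : IsBase r Y d u) {Z : N} (hZ : Sb Z Y) :
    IsMeasureZero r m (fun y => y ∈ Z) ↔ ∀ n : ℕ, ∃ W, Sb W (str N) ∧ Sb Z (popn Y u W) ∧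
      Mass (tm v Y m u) {s | st N s ∈ W} ((1 / 2) ^ n) := by
  rw [isMeasureZero_iff h]
  constructor
  · rintro ⟨B, hB, hB0, hZB⟩ n
    obtain ⟨W, hW, hBW, hm⟩ := (PB.or_all h hu hB).1 ((1 / 2) ^ n) (by positivity)
    have hoW := opn_bor h hu hW
    refine ⟨W, hW, fun y hy => hBW y (hZB y hy), ?_⟩
    rw [mass_iff h hu hW]
    refine (mu_mono h hoW (bor_un hB (PB.out_bor hoW hB)) fun y hy => ?_).trans
      ((mu_un_le h hB (PB.out_bor hoW hB)).trans (by rw [hB0, zero_add]; exact hm))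
    rw [mem_un, PB.mem_out]
    by_cases hyB : y ∈ B
    · exact Or.inl hyB
    · exact Or.inr ⟨hy, bor_sub hoW y hy, hyB⟩
  · intro h1
    obtain ⟨p, hp, hpv⟩ := h.rv.exists_pow h.om
    obtain ⟨Wf, hWf, hWf'⟩ := choice' (a := (om : N)) (b := pw (str N))
      (P := fun n W => Sb Z (popn Y u W) ∧ op (ap m (popn Y u W)) (ap p n) ∈ r.le)
      (by simp (maxDischargeDepth := 50)) (fun n hn => by
        obtain ⟨k, rfl⟩ := h.om n hn
        obtain ⟨W, hW, hZW, hm⟩ := h1 k
        rw [mass_iff h hu hW, ← hpv] at hm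
        exact ⟨W, mem_pw.2 hW, hZW,
          (h.rv.le (mu_mem h (opn_bor h hu hW)) (ap_mem hp (nt_mem_om k))).2 hm⟩)
    have hF : DT (fun w : Fin 1 → N => popn Y u (ap Wf (w 0))) := by
      simp (maxDischargeDepth := 50)
    have hb : ∀ k, popn Y u (ap Wf (nt N k)) ∈ bor r Y d := fun k =>
      opn_bor h hu (mem_pw.1 (ap_mem hWf (nt_mem_om k)))
    have hG : (lam om fun n => popn Y u (ap Wf n)) ∈ fs om (bor r Y d) := by
      refine lam_mem_fs hF fun n hn => ?_
      obtain ⟨k, rfl⟩ := h.om n hn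
      exact hb k
    refine ⟨iI Y (lam om fun n => popn Y u (ap Wf n)), bor_iI hG, ?_, fun y hy => ?_⟩
    · refine le_antisymm (le_of_forall_pos_le_add fun ε hε => ?_) (mu_nonneg h (bor_iI hG))
      obtain ⟨k, hk⟩ := exists_pow_lt_of_lt_one hε (by norm_num : (1 / 2 : ℝ) < 1)
      rw [zero_add]
      refine (mu_mono h (bor_iI hG) (hb k) fun y hy => ?_).trans (le_trans ?_ hk.le)
      · have := ((mem_iI h.om).1 hy).2 k
        rwa [ap_lam hF (nt_mem_om k)] at this
      · rw [← hpv]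
        exact (h.rv.le (mu_mem h (hb k)) (ap_mem hp (nt_mem_om k))).1
          (hWf' _ (nt_mem_om k)).2
    · rw [mem_iI h.om]
      refine ⟨hZ y hy, fun k => ?_⟩
      rw [ap_lam hF (nt_mem_om k)]
      exact (hWf' _ (nt_mem_om k)).1 y hy

end Pool.Agent.GPA
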