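import Pool.Agent.GPA.PolFld
import Pool.Agent.GPA.PolNat

/-!
# Block G, part 2: the internal field, its valuation in the reals, and the notions of block G in
terms of the internal toolkit

Interface of block G: after this file all numbers are real numbers `v a` for `a ∈ r.F`.
-/

set_option linter.unusedSectionVars false

namespace Pool.Agent.GPA

open Pool.Agent.SigB Pool.Agent.Frc Pool.Agent.Forc

variable {N : Type 1} [Membership N N] [IsZFC N]

/-- `v` is a valuation in the real numbers of the internal complete ordered field `r`. -/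
structure RV (r : RealData N) (v : N → ℝ) : Prop where
  addM : r.add ∈ fs (pd r.F r.F) r.F
  mulM : r.mul ∈ fs (pd r.F r.F) r.F
  zeroM : r.zero ∈ r.F
  oneM : r.one ∈ r.F
  leM : ∀ {a b}, op a b ∈ r.le → a ∈ r.F ∧ b ∈ r.F
  zero : v r.zero = 0
  one : v r.one = 1
  add : ∀ {a b}, a ∈ r.F → b ∈ r.F → v (ap r.add (op a b)) = v a + v b
  mul : ∀ {a b}, a ∈ r.F → b ∈ r.F → v (ap r.mul (op a b)) = v a * v b
  le : ∀ {a b}, a ∈ r.F → b ∈ r.F → (op a b ∈ r.le ↔ v a ≤ v b)
  inj : ∀ {a b}, a ∈ r.F → b ∈ r.F → v a = v b → a = b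
  rat : ∀ q : ℚ, ∃ a, a ∈ r.F ∧ v a = q
  sub : ∀ {a b}, a ∈ r.F → b ∈ r.F → ∃ c, c ∈ r.F ∧ v c = v a - v b

theorem exists_rv (hO : Om N) {r : RealData N} (hr : r.Is) : ∃ v, RV r v := by
  classical
  have : Fact r.Is := ⟨hr⟩
  have := Elt.arch (r := r) hO
  let φ : Elt r →+*o ℝ :=
    ConditionallyCompleteLinearOrderedField.inducedOrderRingHom (Elt r) ℝ
  have hinj : Function.Injective φ := (φ : Elt r →+* ℝ).injective
  have hφ : StrictMono φ := (OrderHomClass.mono φ).strictMono_of_injective hinj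
  let v : N → ℝ := fun x => if h : x ∈ r.F then φ ⟨x, h⟩ else 0
  have hv : ∀ x (h : x ∈ r.F), v x = φ ⟨x, h⟩ := fun x h => dif_pos h
  have hv' : ∀ x : Elt r, v x.1 = φ x := fun x => hv x.1 x.2
  refine ⟨v, Elt.hA, Elt.hM, hr.zero, hr.one, fun h => hr.le_mem _ _ (val_iff.2 h), ?_, ?_, ?_, ?_,
    ?_, ?_, ?_, ?_⟩
  · rw [hv _ hr.zero]
    exact map_zero φ
  · rw [hv _ hr.one]
    exact map_one φ
  · intro a b ha hb
    rw [hv _ ha, hv _ hb, hv _ (ap_mem Elt.hA (op_mem_pd.2 ⟨ha, hb⟩)), ← map_add]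
    rfl
  · intro a b ha hb
    rw [hv _ ha, hv _ hb, hv _ (ap_mem Elt.hM (op_mem_pd.2 ⟨ha, hb⟩)), ← map_mul]
    rfl
  · intro a b ha hb
    rw [hv _ ha, hv _ hb, hφ.le_iff_le, Elt.le_def, val_iff]
  · intro a b ha hb h
    rw [hv _ ha, hv _ hb] at h
    exact congrArg Subtype.val (hinj h)
  · intro q
    exact ⟨(q : Elt r).1, (q : Elt r).2, (hv' q).trans (map_ratCast φ q)⟩
  · intro a b ha hb
    have key : ∀ x y : Elt r, ∃ c, c ∈ r.F ∧ v c = v x.1 - v y.1 := by
      intro x y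
      refine ⟨(x - y).1, (x - y).2, ?_⟩
      rw [hv' x, hv' y]
      exact (hv' (x - y)).trans (map_sub φ x y)
    exact key ⟨a, ha⟩ ⟨b, hb⟩

namespace RV

variable {r : RealData N} {v : N → ℝ} (h : RV r v)
include h

theorem le' {a b : N} : op a b ∈ r.le ↔ a ∈ r.F ∧ b ∈ r.F ∧ v a ≤ v b := by
  constructor
  · intro hab
    obtain ⟨ha, hb⟩ := h.leM hab
    exact ⟨ha, hb, (h.le ha hb).1 hab⟩
  · rintro ⟨ha, hb, hab⟩
    exact (h.le ha hb).2 hab

/-- `a < b` in terms of the valuation. -/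
theorem lt_iff {a b : N} (ha : a ∈ r.F) (hb : b ∈ r.F) : r.Lt a b ↔ v a < v b := by
  rw [RealData.Lt, val_iff, h.le ha hb, lt_iff_le_and_ne]
  exact and_congr_right fun _ => not_congr ⟨fun e => by rw [e], h.inj ha hb⟩

theorem add_mem {a b : N} (ha : a ∈ r.F) (hb : b ∈ r.F) : ap r.add (op a b) ∈ r.F :=
  ap_mem h.addM (op_mem_pd.2 ⟨ha, hb⟩)

theorem mul_mem {a b : N} (ha : a ∈ r.F) (hb : b ∈ r.F) : ap r.mul (op a b) ∈ r.F :=
  ap_mem h.mulM (op_mem_pd.2 ⟨ha, hb⟩)

/-- The internal sequence of the natural numbers. -/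
theorem exists_nat (hO : Om N) : ∃ g, g ∈ fs om r.F ∧ ∀ n : ℕ, v (ap g (nt N n)) = n := by
  obtain ⟨f, hf, h0, hs⟩ := om_recursion r.zero (G := fun x : N => ap r.add (op x r.one))
    (by simp (maxDischargeDepth := 50))
  have hh : ∀ n : ℕ, ap f (nt N n) ∈ r.F ∧ v (ap f (nt N n)) = n := by
    intro n
    induction n with
    | zero =>
      have : ap f (nt N 0) = r.zero := h0
      rw [this, Nat.cast_zero]
      exact ⟨h.zeroM, h.zero⟩
    | succ n ih =>
      have : ap f (nt N (n + 1)) = ap r.add (op (ap f (nt N n)) r.one) := hs _ (nt_mem_om n)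
      rw [this, h.add ih.1 h.oneM, ih.2, h.one]
      exact ⟨h.add_mem ih.1 h.oneM, by push_cast; rfl⟩
  refine ⟨f, mem_fs.2 ⟨hf, fun x hx => ?_⟩, fun n => (hh n).2⟩
  obtain ⟨n, rfl⟩ := hO x hx
  exact (hh n).1

/-- The internal sequence of the powers of one half. -/
theorem exists_pow (hO : Om N) :
    ∃ g, g ∈ fs om r.F ∧ ∀ n : ℕ, v (ap g (nt N n)) = (1 / 2) ^ n := by
  obtain ⟨c, hc, hcv⟩ := h.rat (1 / 2)
  obtain ⟨f, hf, h0, hs⟩ := om_recursion r.one (G := fun x : N => ap r.mul (op x c))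
    (by simp (maxDischargeDepth := 50))
  have hh : ∀ n : ℕ, ap f (nt N n) ∈ r.F ∧ v (ap f (nt N n)) = (1 / 2) ^ n := by
    intro n
    induction n with
    | zero =>
      have : ap f (nt N 0) = r.one := h0
      rw [this, pow_zero]
      exact ⟨h.oneM, h.one⟩
    | succ n ih =>
      have : ap f (nt N (n + 1)) = ap r.mul (op (ap f (nt N n)) c) := hs _ (nt_mem_om n)
      rw [this, h.mul ih.1 hc, ih.2, hcv, pow_succ]
      exact ⟨h.mul_mem ih.1 hc, by push_cast; rfl⟩
  refine ⟨f, mem_fs.2 ⟨hf, fun x hx => ?_⟩, fun n => (hh n).2⟩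
  obtain ⟨n, rfl⟩ := hO x hx
  exact (hh n).1

end RV

/-- The real numbers `ap g (nt N n)` in terms of `v`: between two reals there is a value. -/
theorem RV.exists_btw {r : RealData N} {v : N → ℝ} (h : RV r v) {x y : ℝ} (hxy : x < y) :
    ∃ a, a ∈ r.F ∧ x < v a ∧ v a < y := by
  obtain ⟨q, h1, h2⟩ := exists_rat_btwn hxy
  obtain ⟨a, ha, hq⟩ := h.rat q
  exact ⟨a, ha, by rw [hq]; exact h1, by rw [hq]; exact h2⟩

/-! ### The internal sets of block G -/

/-- The union of the sequence `g` of subsets of `Y`. -/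
noncomputable def iU (Y g : N) : N := sp Y fun y => ∃ n, n ∈ (om : N) ∧ y ∈ ap g n

/-- The intersection of the sequence `g` of subsets of `Y`. -/
noncomputable def iI (Y g : N) : N := sp Y fun y => ∀ n, n ∈ (om : N) → y ∈ ap g n

theorem mem_iU (hO : Om N) {Y g y : N} : y ∈ iU Y g ↔ y ∈ Y ∧ ∃ k, y ∈ ap g (nt N k) := by
  rw [iU, mem_sp (by simp (maxDischargeDepth := 50))]
  refine and_congr_right fun _ => ⟨?_, fun ⟨k, hk⟩ => ⟨nt N k, nt_mem_om k, hk⟩⟩
  rintro ⟨n, hn, hy⟩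
  obtain ⟨k, rfl⟩ := hO n hn
  exact ⟨k, hy⟩

theorem mem_iI (hO : Om N) {Y g y : N} : y ∈ iI Y g ↔ y ∈ Y ∧ ∀ k, y ∈ ap g (nt N k) := by
  rw [iI, mem_sp (by simp (maxDischargeDepth := 50))]
  refine and_congr_right fun _ => ⟨fun h k => h _ (nt_mem_om k), fun h n hn => ?_⟩
  obtain ⟨k, rfl⟩ := hO n hn
  exact h k

/-- The set of Borel subsets of `Y`. -/
noncomputable def bor (r : RealData N) (Y d : N) : N := sp (pw Y) fun B => IsBorelSet r Y d B

/-- The code of `y` for the sequence `u` of subsets: the element of `2^ω` which is `1` at `n` iff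
`y` belongs to the `n`-th set. -/
noncomputable def cde (u y : N) : N :=
  sp (pd om (nt N 2)) fun z => ∃ n, n ∈ (om : N) ∧
    ((y ∈ ap u n ∧ z = op n (nt N 1)) ∨ (y ∉ ap u n ∧ z = op n (nt N 0)))

/-- The set of all `y ∈ Y` whose code extends `s`. -/
noncomputable def pcyl (Y u s : N) : N := sp Y fun y => Sb s (cde u y)

/-- The set of all `y ∈ Y` whose code extends an element of `W`. -/
noncomputable def popn (Y u W : N) : N := sp Y fun y => ∃ s, s ∈ W ∧ Sb s (cde u y)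

/-- The assumptions of block G: a Polish space `Y` with metric `d` and a probability measure `m`. -/
structure PM (r : RealData N) (v : N → ℝ) (Y d m : N) : Prop where
  om : Om N
  rv : RV r v
  pol : IsPolish r Y d
  prob : IsProbMeasure r Y d m

/-- `u` is a base consisting of a sequence of open sets. -/
structure IsBase (r : RealData N) (Y d u : N) : Prop where
  mem : u ∈ fs om (pw Y)
  popn : ∀ n, n ∈ (om : N) → IsOpenSet r Y d (ap u n)
  base : ∀ U y, IsOpenSet r Y d U → y ∈ U → ∃ n, n ∈ (om : N) ∧ y ∈ ap u n ∧ Sb (ap u n) U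

/-- The measures of the cylinders. -/
noncomputable def tm (v : N → ℝ) (Y m u : N) (s : List Bool) : ℝ := v (ap m (pcyl Y u (st N s)))

end Pool.Agent.GPA
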