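import Pool.Agent.GPA.PolBase

/-!
# Block G, part 5: regularity of the measure and null sets
-/

set_option linter.unusedSectionVars false

namespace Pool.Agent.GPA

open Pool.Agent.SigB Pool.Agent.Frc Pool.Agent.Forc

variable {N : Type 1} [Membership N N] [IsZFC N] {r : RealData N} {Y d m u : N} {v : N → ℝ}

namespace PB

/-- `A` without `B` -/
theorem mem_out {A B y : N} : y ∈ it A (df Y B) ↔ y ∈ A ∧ y ∈ Y ∧ y ∉ B := by
  rw [mem_it, mem_df]

theorem out_bor {A B : N} (hA : A ∈ bor r Y d) (hB : B ∈ bor r Y d) :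
    it A (df Y B) ∈ bor r Y d := bor_it hA (bor_df hB)

/-- `B` is approximated by open sets from outside. -/
def OR (v : N → ℝ) (Y m u B : N) : Prop := ∀ ε : ℝ, 0 < ε → ∃ W, Sb W (str N) ∧
  Sb B (popn Y u W) ∧ v (ap m (it (popn Y u W) (df Y B))) ≤ ε

/-- The internal form of the approximation. -/
def OI (r : RealData N) (Y m u B : N) : Prop := ∀ c, op r.zero c ∈ r.le → r.zero ≠ c →
  ∃ W, Sb W (str N) ∧ Sb B (popn Y u W) ∧ op (ap m (it (popn Y u W) (df Y B))) c ∈ r.le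

theorem oi_iff (h : PM r v Y d m) (hu : IsBase r Y d u) {B : N} (hB : B ∈ bor r Y d) :
    OI r Y m u B ↔ OR v Y m u B := by
  constructor
  · intro hI ε hε
    obtain ⟨c, hc, h1, h2⟩ := h.rv.exists_btw hε
    have hlt := (h.rv.lt_iff h.rv.zeroM hc).2 (by rw [h.rv.zero]; exact h1)
    obtain ⟨W, hW, hBW, hm⟩ := hI c (Pool.Agent.SigB.val_iff.1 hlt.1) hlt.2
    refine ⟨W, hW, hBW, ?_⟩
    rw [h.rv.le (mu_mem h (out_bor (opn_bor h hu hW) hB)) hc] at hm
    exact hm.trans h2.le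
  · intro hR c hc hne
    have hcF := (h.rv.leM hc).2
    have hpos : 0 < v c := by
      have := (h.rv.lt_iff h.rv.zeroM hcF).1 ⟨Pool.Agent.SigB.val_iff.2 hc, hne⟩
      rwa [h.rv.zero] at this
    obtain ⟨W, hW, hBW, hm⟩ := hR _ hpos
    exact ⟨W, hW, hBW, (h.rv.le (mu_mem h (out_bor (opn_bor h hu hW) hB)) hcF).2 hm⟩

theorem dfn_OI {n : ℕ} {a : (Fin n → N) → N} (ha : DT a) :
    Dfn (fun w => OI r Y m u (a w)) := by
  have h1 : Dfn (fun w : Fin 1 → N => OI r Y m u (w 0)) := by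
    unfold OI
    simp (maxDischargeDepth := 50)
  exact dfn1 h1 ha

/-- Intersections of two approximated sets. -/
theorem OR.it (h : PM r v Y d m) (hu : IsBase r Y d u) {B C : N} (hB : B ∈ bor r Y d)
    (hC : C ∈ bor r Y d) (h1 : OR v Y m u B) (h2 : OR v Y m u C) : OR v Y m u (SigB.it B C) := by
  intro ε hε
  obtain ⟨W, hW, hBW, hm⟩ := h1 (ε / 2) (half_pos hε)
  obtain ⟨W', hW', hCW', hm'⟩ := h2 (ε / 2) (half_pos hε)
  set V : N := sp (str N) fun s => (∃ t, t ∈ W ∧ Sb t s) ∧ ∃ t, t ∈ W' ∧ Sb t s with hV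
  have hmV : ∀ s, s ∈ V ↔ s ∈ str N ∧ (∃ t, t ∈ W ∧ Sb t s) ∧ ∃ t, t ∈ W' ∧ Sb t s := fun s => by
    rw [hV, mem_sp (by simp (maxDischargeDepth := 50))]
  have hVs : Sb V (str N) := fun s hs => ((hmV s).1 hs).1
  have hop : ∀ y, y ∈ popn Y u V ↔ y ∈ popn Y u W ∧ y ∈ popn Y u W' := by
    intro y
    rw [mem_opn, mem_opn, mem_opn]
    constructor
    · rintro ⟨hy, s, hs, hsy⟩
      obtain ⟨-, ⟨t, ht, hts⟩, t', ht', hts'⟩ := (hmV s).1 hs
      exact ⟨⟨hy, t, ht, hts.trans hsy⟩, hy, t', ht', hts'.trans hsy⟩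
    · rintro ⟨⟨hy, t, ht, hty⟩, -, t', ht', hty'⟩
      obtain ⟨t, rfl⟩ := (mem_str h.om).1 (hW t ht)
      obtain ⟨t', rfl⟩ := (mem_str h.om).1 (hW' t' ht')
      rw [sb_st_iff h.om cde_mem] at hty hty'
      set x := ext2 (cde u y) with hx
      set k := max t.length t'.length with hk
      refine ⟨hy, st N (ini x k), (hmV _).2 ⟨(mem_str h.om).2 ⟨_, rfl⟩, ⟨_, ht, ?_⟩, _, ht', ?_⟩, ?_⟩
      · rw [sb_st, hty]
        exact PN.ini_prefix _ (le_max_left _ _)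
      · rw [sb_st, hty']
        exact PN.ini_prefix _ (le_max_right _ _)
      · rw [sb_st_iff h.om cde_mem, PN.length_ini]
  have hoW := opn_bor h hu hW
  have hoW' := opn_bor h hu hW'
  have hoV := opn_bor h hu hVs
  refine ⟨V, hVs, fun y hy => ?_, ?_⟩
  · rw [mem_it] at hy
    exact (hop y).2 ⟨hBW y hy.1, hCW' y hy.2⟩
  · refine (mu_mono h (out_bor hoV (bor_it hB hC)) (bor_un (out_bor hoW hB) (out_bor hoW' hC))
      fun y hy => ?_).trans ?_
    · rw [mem_out] at hy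
      obtain ⟨hyV, hyY, hyn⟩ := hy
      obtain ⟨h3, h4⟩ := (hop y).1 hyV
      rw [mem_un, mem_out, mem_out]
      by_cases hyB : y ∈ B
      · exact Or.inr ⟨h4, hyY, fun hyC => hyn (mem_it.2 ⟨hyB, hyC⟩)⟩
      · exact Or.inl ⟨h3, hyY, hyB⟩
    · refine (mu_un_le h (out_bor hoW hB) (out_bor hoW' hC)).trans ?_
      linarith

theorem df_df {B : N} (hB : Sb B Y) : df Y (df Y B) = B := by
  refine ext' fun y => ?_
  rw [mem_df, mem_df]
  constructor
  · rintro ⟨h1, h2⟩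
    by_contra h3
    exact h2 ⟨h1, h3⟩
  · intro h1
    exact ⟨hB y h1, fun h2 => h2.2 h1⟩

/-- A decreasing sequence with empty intersection has members of small measure. -/
theorem exists_small (h : PM r v Y d m) {g : N} (hg : g ∈ fs om (bor r Y d))
    (hm : ∀ k, Sb (ap g (nt N (k + 1))) (ap g (nt N k)))
    (h0 : ∀ y, y ∈ Y → ∃ k, y ∉ ap g (nt N k)) {ε : ℝ} (hε : 0 < ε) :
    ∃ k, v (ap m (ap g (nt N k))) < ε := by
  by_contra hcon
  push Not at hcon
  have h1 := mu_iI_anti h hg hm hcon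
  have h2 : iI Y g = SigB.em := by
    refine ext' fun y => ?_
    rw [mem_iI h.om]
    refine ⟨fun hy => ?_, fun hy => (not_mem_em _ hy).elim⟩
    obtain ⟨k, hk⟩ := h0 y hy.1
    exact (hk (hy.2 k)).elim
  rw [h2, mu_em h] at h1
  linarith

/-- Open sets. -/
theorem or_open (h : PM r v Y d m) (hu : IsBase r Y d u) {U : N} (hU : IsOpenSet r Y d U) :
    OR v Y m u U := by
  intro ε hε
  set W : N := sp (str N) fun s => ∃ i, i ∈ (om : N) ∧ Sb (ap u i) U ∧ op i (nt N 1) ∈ s with hW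
  have hmW : ∀ s, s ∈ W ↔ s ∈ str N ∧ ∃ i, i ∈ (om : N) ∧ Sb (ap u i) U ∧ op i (nt N 1) ∈ s :=
    fun s => by rw [hW, mem_sp (by simp (maxDischargeDepth := 50))]
  have hWs : Sb W (str N) := fun s hs => ((hmW s).1 hs).1
  refine ⟨W, hWs, fun y hy => ?_, ?_⟩
  · obtain ⟨n, hn, hyn, hnU⟩ := hu.base U y hU hy
    have hyY := hU.1 y hy
    obtain ⟨k, rfl⟩ := h.om n hn
    rw [mem_opn]
    refine ⟨hyY, st N (ini (ext2 (cde u y)) (k + 1)), (hmW _).2 ⟨(mem_str h.om).2 ⟨_, rfl⟩, nt N k,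
      nt_mem_om k, hnU, ?_⟩, ?_⟩
    · classical
      have h1 : op (nt N k) (nt N 1) ∈ st N (ini (ext2 (cde u y)) (k + 1)) := by
        refine op_mem_st.2 ⟨by rw [PN.length_ini]; omega, ?_⟩
        simp only [ini, List.getElem_ofFn]
        rw [ext2_cde h.om, decide_eq_true hyn]
        rfl
      exact h1
    · rw [sb_st_iff h.om cde_mem, PN.length_ini]
  · have h1 : SigB.it (popn Y u W) (df Y U) = SigB.em := by
      refine ext' fun y => ?_
      rw [mem_out]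
      refine ⟨?_, fun hy => (not_mem_em _ hy).elim⟩
      rintro ⟨hy, hyY, hyU⟩
      obtain ⟨-, s, hs, hsy⟩ := mem_opn.1 hy
      obtain ⟨-, i, hi, hiU, his⟩ := (hmW s).1 hs
      have h2 := op_mem_cde.1 (hsy _ his)
      rcases h2.2 with h3 | h3
      · exact (hyU (hiU y h3.1)).elim
      · exact absurd (nt_inj h3.2) (by norm_num)
    rw [h1, mu_em h]
    exact hε.le

/-- Complements of open sets. -/
theorem or_closed (h : PM r v Y d m) (hu : IsBase r Y d u) {U : N} (hU : IsOpenSet r Y d U) :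
    OR v Y m u (df Y U) := by
  intro ε hε
  have hVm : ∀ k s : N, s ∈ (sp (str N) fun s => ∀ i, i ∈ k → Sb (ap u i) U →
      op i (nt N 0) ∈ s) ↔ s ∈ str N ∧ ∀ i, i ∈ k → Sb (ap u i) U → op i (nt N 0) ∈ s :=
    fun k s => mem_sp (by simp (maxDischargeDepth := 50))
  have hVs : ∀ k : N, Sb (sp (str N) fun s => ∀ i, i ∈ k → Sb (ap u i) U →
      op i (nt N 0) ∈ s) (str N) := fun k s hs => ((hVm k s).1 hs).1
  have hop : ∀ (k : ℕ) (y : N), y ∈ popn Y u (sp (str N) fun s => ∀ i, i ∈ nt N k →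
      Sb (ap u i) U → op i (nt N 0) ∈ s) ↔ y ∈ Y ∧ ∀ i < k, Sb (ap u (nt N i)) U →
        y ∉ ap u (nt N i) := by
    intro k y
    rw [mem_opn]
    refine and_congr_right fun hy => ?_
    constructor
    · rintro ⟨s, hs, hsy⟩ i hi hiU hyi
      have h1 := ((hVm _ s).1 hs).2 (nt N i) (nt_mem_nt.2 hi) hiU
      rcases (op_mem_cde.1 (hsy _ h1)).2 with h2 | h2
      · exact absurd (nt_inj h2.2) (by norm_num)
      · exact h2.1 hyi
    · intro h1
      refine ⟨st N (ini (ext2 (cde u y)) k), (hVm _ _).2 ⟨(mem_str h.om).2 ⟨_, rfl⟩,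
        fun i hi hiU => ?_⟩, ?_⟩
      · obtain ⟨l, hl, rfl⟩ := mem_nt.1 hi
        classical
        have h2 : op (nt N l) (nt N 0) ∈ st N (ini (ext2 (cde u y)) k) := by
          refine op_mem_st.2 ⟨by rw [PN.length_ini]; exact hl, ?_⟩
          simp only [ini, List.getElem_ofFn]
          rw [ext2_cde h.om, decide_eq_false (h1 l hl hiU)]
          rfl
        exact h2
      · rw [sb_st_iff h.om cde_mem, PN.length_ini]
  have hUb := bor_open hU
  have hF : DT (fun w : Fin 1 → N => SigB.it (popn Y u (sp (str N) fun s => ∀ i, i ∈ w 0 →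
      Sb (ap u i) U → op i (nt N 0) ∈ s)) U) := by
    simp (maxDischargeDepth := 50)
  have hmem : ∀ k : ℕ, ∀ y, y ∈ ap (lam om fun k => SigB.it (popn Y u (sp (str N) fun s => ∀ i,
      i ∈ k → Sb (ap u i) U → op i (nt N 0) ∈ s)) U) (nt N k) ↔ y ∈ U ∧ y ∈ Y ∧ ∀ i < k,
        Sb (ap u (nt N i)) U → y ∉ ap u (nt N i) := by
    intro k y
    rw [ap_lam hF (nt_mem_om k), mem_it, hop, and_comm]
  obtain ⟨k, hk⟩ := exists_small h (g := lam om fun k => SigB.it (popn Y u (sp (str N) fun s =>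
      ∀ i, i ∈ k → Sb (ap u i) U → op i (nt N 0) ∈ s)) U)
    (lam_mem_fs hF fun n _ => bor_it (opn_bor h hu (hVs n)) hUb)
    (fun k y hy => by
      rw [hmem] at hy ⊢
      exact ⟨hy.1, hy.2.1, fun i hi => hy.2.2 i (hi.trans (Nat.lt_succ_self k))⟩)
    (fun y hy => by
      by_cases hyU : y ∈ U
      · obtain ⟨n, hn, hyn, hnU⟩ := hu.base U y hU hyU
        obtain ⟨l, rfl⟩ := h.om n hn
        refine ⟨l + 1, fun h1 => ?_⟩
        exact ((hmem _ _).1 h1).2.2 l (Nat.lt_succ_self l) hnU hyn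
      · exact ⟨0, fun h1 => hyU ((hmem _ _).1 h1).1⟩) hε
  rw [ap_lam hF (nt_mem_om k)] at hk
  refine ⟨_, hVs (nt N k), fun y hy => ?_, ?_⟩
  · rw [mem_df] at hy
    rw [hop]
    exact ⟨hy.1, fun i _ hiU hyi => hy.2 (hiU y hyi)⟩
  · rw [df_df hU.1]
    exact hk.le

/-- Countable unions. -/
theorem or_iU (h : PM r v Y d m) (hu : IsBase r Y d u) {g : N} (hg : g ∈ fs om (bor r Y d))
    (hO : ∀ k, OR v Y m u (ap g (nt N k))) : OR v Y m u (iU Y g) := by
  intro ε hε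
  obtain ⟨p, hp, hpv⟩ := h.rv.exists_pow h.om
  obtain ⟨c, hc, hc1, hc2⟩ := h.rv.exists_btw hε
  have hI : ∀ k, OI r Y m u (ap g (nt N k)) := fun k =>
    (oi_iff h hu (ap_mem hg (nt_mem_om k))).2 (hO k)
  obtain ⟨Wf, hWf, hWf'⟩ := choice' (a := (om : N)) (b := pw (str N))
    (P := fun n W => Sb (ap g n) (popn Y u W) ∧ op (ap m (SigB.it (popn Y u W) (df Y (ap g n))))
      (ap r.mul (op c (ap p (sc n)))) ∈ r.le) (by simp (maxDischargeDepth := 50)) (fun n hn => by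
      obtain ⟨k, rfl⟩ := h.om n hn
      have hpk : ap p (nt N (k + 1)) ∈ r.F := ap_mem hp (nt_mem_om _)
      have hck : ap r.mul (op c (ap p (nt N (k + 1)))) ∈ r.F := h.rv.mul_mem hc hpk
      have hlt : r.Lt r.zero (ap r.mul (op c (ap p (nt N (k + 1))))) := by
        rw [h.rv.lt_iff h.rv.zeroM hck, h.rv.zero, h.rv.mul hc hpk, hpv]
        positivity
      obtain ⟨W, hW, h1, h2⟩ := hI k _ (Pool.Agent.SigB.val_iff.1 hlt.1) hlt.2
      exact ⟨W, mem_pw.2 hW, h1, h2⟩)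
  have hWs : ∀ k, Sb (ap Wf (nt N k)) (str N) := fun k => mem_pw.1 (ap_mem hWf (nt_mem_om k))
  have hW : Sb (cun Wf) (str N) := by
    intro s hs
    obtain ⟨n, hn, hs⟩ := mem_cun.1 hs
    exact mem_pw.1 (ap_mem hWf hn) s hs
  refine ⟨cun Wf, hW, fun y hy => ?_, ?_⟩
  · obtain ⟨hyY, k, hk⟩ := (mem_iU h.om).1 hy
    have h1 := (hWf' _ (nt_mem_om k)).1 y hk
    obtain ⟨-, s, hs, hsy⟩ := mem_opn.1 h1
    exact mem_opn.2 ⟨hyY, s, mem_cun.2 ⟨_, nt_mem_om k, hs⟩, hsy⟩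
  · have hF : DT (fun w : Fin 1 → N =>
        SigB.it (popn Y u (ap Wf (w 0))) (df Y (ap g (w 0)))) := by
      simp (maxDischargeDepth := 50)
    set G : N := lam om fun n => SigB.it (popn Y u (ap Wf n)) (df Y (ap g n)) with hG
    have hapG : ∀ k, ap G (nt N k) =
        SigB.it (popn Y u (ap Wf (nt N k))) (df Y (ap g (nt N k))) := fun k =>
      ap_lam hF (nt_mem_om k)
    have hGm : G ∈ fs om (bor r Y d) := by
      refine lam_mem_fs hF fun n hn => ?_
      obtain ⟨k, rfl⟩ := h.om n hn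
      exact out_bor (opn_bor h hu (hWs k)) (ap_mem hg hn)
    have hGv : ∀ k, v (ap m (ap G (nt N k))) ≤ v c * (1 / 2) ^ (k + 1) := by
      intro k
      have h1 := (hWf' _ (nt_mem_om k)).2
      have hpk : ap p (nt N (k + 1)) ∈ r.F := ap_mem hp (nt_mem_om _)
      have h2 : op (ap m (ap G (nt N k))) (ap r.mul (op c (ap p (nt N (k + 1))))) ∈ r.le := by
        rw [hapG]
        exact h1
      rw [h.rv.le (mu_mem h (ap_mem hGm (nt_mem_om k))) (h.rv.mul_mem hc hpk),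
        h.rv.mul hc hpk, hpv] at h2
      exact h2
    refine (mu_mono h (out_bor (opn_bor h hu hW) (bor_iU hg)) (bor_iU hGm) fun y hy => ?_).trans
      ((mu_iU_le h hGm (c := v c) fun n => ?_).trans hc2.le)
    · obtain ⟨hy1, hyY, hyn⟩ := mem_out.1 hy
      obtain ⟨-, s, hs, hsy⟩ := mem_opn.1 hy1
      obtain ⟨n, hn, hs⟩ := mem_cun.1 hs
      obtain ⟨k, rfl⟩ := h.om n hn
      refine (mem_iU h.om).2 ⟨hyY, k, ?_⟩
      rw [hapG, mem_out]
      exact ⟨mem_opn.2 ⟨hyY, s, hs, hsy⟩, hyY, fun h3 => hyn ((mem_iU h.om).2 ⟨hyY, k, h3⟩)⟩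
    · have h1 : ∀ n : ℕ, ∑ k ∈ Finset.range n, (1 / 2 : ℝ) ^ (k + 1) = 1 - (1 / 2) ^ n := by
        intro n
        induction n with
        | zero => simp
        | succ n ih => rw [Finset.sum_range_succ, ih, pow_succ]; ring
      refine (Finset.sum_le_sum fun k _ => hGv k).trans ?_
      rw [← Finset.mul_sum, h1]
      have h2 : (0 : ℝ) < (1 / 2) ^ n := by positivity
      nlinarith

/-- the unions of the finite parts of the sequence `g` -/
noncomputable def fun_ (Y g : N) : N := lam om fun n => sp Y fun y => ∃ k, k ∈ sc n ∧ y ∈ ap g k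

theorem mem_fun {g y : N} (n : ℕ) : y ∈ ap (fun_ Y g) (nt N n) ↔
    y ∈ Y ∧ ∃ k ≤ n, y ∈ ap g (nt N k) := by
  rw [fun_, ap_lam (by simp (maxDischargeDepth := 50)) (nt_mem_om n),
    mem_sp (by simp (maxDischargeDepth := 50))]
  refine and_congr_right fun _ => ?_
  constructor
  · rintro ⟨k, hk, hy⟩
    have hk' : k ∈ nt N (n + 1) := hk
    obtain ⟨l, hl, rfl⟩ := mem_nt.1 hk'
    exact ⟨l, Nat.lt_succ_iff.1 hl, hy⟩
  · rintro ⟨k, hk, hy⟩
    refine ⟨nt N k, ?_, hy⟩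
    have : nt N k ∈ nt N (n + 1) := nt_mem_nt.2 (Nat.lt_succ_iff.2 hk)
    exact this

theorem fun_succ {g : N} (hg : g ∈ fs om (bor r Y d)) (n : ℕ) :
    ap (fun_ Y g) (nt N (n + 1)) = un (ap (fun_ Y g) (nt N n)) (ap g (nt N (n + 1))) := by
  refine ext' fun y => ?_
  rw [mem_un, mem_fun, mem_fun]
  constructor
  · rintro ⟨hy, k, hk, hyk⟩
    rcases Nat.le_succ_iff.1 hk with hk | hk
    · exact Or.inl ⟨hy, k, hk, hyk⟩
    · rw [hk] at hyk
      exact Or.inr hyk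
  · rintro (⟨hy, k, hk, hyk⟩ | hy)
    · exact ⟨hy, k, hk.trans (Nat.le_succ n), hyk⟩
    · exact ⟨bor_sub (ap_mem hg (nt_mem_om _)) y hy, n + 1, le_rfl, hy⟩

theorem fun_zero {g : N} (hg : g ∈ fs om (bor r Y d)) :
    ap (fun_ Y g) (nt N 0) = ap g (nt N 0) := by
  refine ext' fun y => ?_
  rw [mem_fun]
  constructor
  · rintro ⟨-, k, hk, hy⟩
    rwa [Nat.le_zero.1 hk] at hy
  · intro hy
    exact ⟨bor_sub (ap_mem hg (nt_mem_om 0)) y hy, 0, le_rfl, hy⟩

theorem df_un {B C : N} : df Y (un B C) = SigB.it (df Y B) (df Y C) := by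
  refine ext' fun y => ?_
  rw [mem_df, mem_un, mem_it, mem_df, mem_df]
  tauto

/-- Complements of countable unions. -/
theorem or_iI (h : PM r v Y d m) (hu : IsBase r Y d u) {g : N} (hg : g ∈ fs om (bor r Y d))
    (hO : ∀ k, OR v Y m u (df Y (ap g (nt N k)))) : OR v Y m u (df Y (iU Y g)) := by
  intro ε hε
  have h1 : ∀ n, ap (fun_ Y g) (nt N n) ∈ bor r Y d ∧
      OR v Y m u (df Y (ap (fun_ Y g) (nt N n))) := by
    intro n
    induction n with
    | zero =>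
      rw [fun_zero hg]
      exact ⟨ap_mem hg (nt_mem_om 0), hO 0⟩
    | succ n ih =>
      have hgn := ap_mem hg (nt_mem_om (K := N) (n + 1))
      rw [fun_succ hg, df_un]
      exact ⟨bor_un ih.1 hgn, ih.2.it h hu (bor_df ih.1) (bor_df hgn) (hO _)⟩
  have hB := bor_iU hg
  have hF : DT (fun w : Fin 1 → N => SigB.it (iU Y g) (df Y (ap (fun_ Y g) (w 0)))) := by
    simp (maxDischargeDepth := 50)
  have hap : ∀ k, ap (lam om fun n => SigB.it (iU Y g) (df Y (ap (fun_ Y g) n))) (nt N k) =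
      SigB.it (iU Y g) (df Y (ap (fun_ Y g) (nt N k))) := fun k => ap_lam hF (nt_mem_om k)
  obtain ⟨j, hj⟩ := exists_small h (g := lam om fun n => SigB.it (iU Y g)
      (df Y (ap (fun_ Y g) n)))
    (lam_mem_fs hF fun n hn => by
      obtain ⟨k, rfl⟩ := h.om n hn
      exact out_bor hB (h1 k).1)
    (fun k y hy => by
      rw [hap, mem_out] at hy ⊢
      refine ⟨hy.1, hy.2.1, fun h2 => hy.2.2 ?_⟩
      rw [mem_fun] at h2 ⊢
      obtain ⟨hyY, l, hl, hyl⟩ := h2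
      exact ⟨hyY, l, hl.trans (Nat.le_succ k), hyl⟩)
    (fun y hy => by
      by_cases hyB : y ∈ iU Y g
      · obtain ⟨-, k, hk⟩ := (mem_iU h.om).1 hyB
        refine ⟨k, fun h2 => ?_⟩
        rw [hap, mem_out] at h2
        exact h2.2.2 ((mem_fun k).2 ⟨hy, k, le_rfl, hk⟩)
      · refine ⟨0, fun h2 => ?_⟩
        rw [hap, mem_out] at h2
        exact hyB h2.1) (half_pos hε)
  rw [hap] at hj
  obtain ⟨hGj, hORj⟩ := h1 j
  obtain ⟨V, hV, hVs, hVm⟩ := hORj (ε / 2) (half_pos hε)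
  have hoV := opn_bor h hu hV
  refine ⟨V, hV, fun y hy => hVs y ?_, ?_⟩
  · rw [mem_df] at hy ⊢
    refine ⟨hy.1, fun h2 => hy.2 ?_⟩
    obtain ⟨-, k, -, hk⟩ := (mem_fun j).1 h2
    exact (mem_iU h.om).2 ⟨hy.1, k, hk⟩
  · refine (mu_mono h (out_bor hoV (bor_df hB)) (bor_un (out_bor hoV (bor_df hGj))
      (out_bor hB hGj)) fun y hy => ?_).trans
      ((mu_un_le h (out_bor hoV (bor_df hGj)) (out_bor hB hGj)).trans (by linarith))
    rw [mem_out] at hy
    obtain ⟨hyV, hyY, hyn⟩ := hy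
    have hyB : y ∈ iU Y g := by
      by_contra h2
      exact hyn (mem_df.2 ⟨hyY, h2⟩)
    rw [mem_un, mem_out, mem_out]
    by_cases h2 : y ∈ ap (fun_ Y g) (nt N j)
    · exact Or.inl ⟨hyV, hyY, fun h3 => (mem_df.1 h3).2 h2⟩
    · exact Or.inr ⟨hyB, hyY, h2⟩

/-- The measure is regular. -/
theorem or_all (h : PM r v Y d m) (hu : IsBase r Y d u) {B : N} (hB : B ∈ bor r Y d) :
    OR v Y m u B ∧ OR v Y m u (df Y B) := by
  set S : N := sp (bor r Y d) fun B => OI r Y m u B ∧ OI r Y m u (df Y B) with hS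
  have hmS : ∀ B, B ∈ S ↔ B ∈ bor r Y d ∧ OR v Y m u B ∧ OR v Y m u (df Y B) := by
    intro B
    have hd : DT (fun w : Fin 1 → N => df Y (w 0)) := by simp (maxDischargeDepth := 50)
    have hd2 : Dfn (fun w : Fin 1 → N => OI r Y m u (w 0) ∧ OI r Y m u (df Y (w 0))) :=
      Dfn.and (dfn_OI (DT.var 0)) (dfn_OI hd)
    rw [hS, mem_sp (P := fun B => OI r Y m u B ∧ OI r Y m u (df Y B)) hd2]
    refine and_congr_right fun hB => ?_
    rw [oi_iff h hu hB, oi_iff h hu (bor_df hB)]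
  refine ((hmS B).1 (bor_sb (isSigmaAlgebra_iff.2 ⟨fun B hB => bor_sub ((hmS B).1 hB).1,
    fun B hB => ?_, fun g hg => ?_⟩) (fun U hU => ?_) B hB)).2
  · obtain ⟨h1, h2, h3⟩ := (hmS B).1 hB
    refine (hmS _).2 ⟨bor_df h1, h3, ?_⟩
    rw [df_df (bor_sub h1)]
    exact h2
  · have hg' : g ∈ fs om (bor r Y d) := by
      obtain ⟨h1, h2⟩ := mem_fs.1 hg
      exact mem_fs.2 ⟨h1, fun x hx => ((hmS _).1 (h2 x hx)).1⟩
    have h1 : ∀ k, OR v Y m u (ap g (nt N k)) ∧ OR v Y m u (df Y (ap g (nt N k))) := fun k =>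
      ((hmS _).1 (ap_mem hg (nt_mem_om k))).2
    rw [← iU_eq hg']
    exact (hmS _).2 ⟨bor_iU hg', or_iU h hu hg' fun k => (h1 k).1,
      or_iI h hu hg' fun k => (h1 k).2⟩
  · exact (hmS U).2 ⟨bor_open hU, or_open h hu hU, or_closed h hu hU⟩

end PB

/-- Regularity: a Borel set and its complement are covered by open sets (for the codes) such that
the intersection has small measure. The class of the sets with this property is an internal
`σ`-algebra which contains the open sets. -/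
theorem polReg (h : PM r v Y d m) (hu : IsBase r Y d u) {B : N} (hB : B ∈ bor r Y d) (n : ℕ) :
    ∃ W V, Sb W (str N) ∧ Sb V (str N) ∧ Sb B (popn Y u W) ∧ Sb (df Y B) (popn Y u V) ∧
      v (ap m (it (popn Y u W) (popn Y u V))) < (1 / 2) ^ n := by
  obtain ⟨h1, h2⟩ := PB.or_all h hu hB
  have hp : (0 : ℝ) < (1 / 2) ^ n := by positivity
  obtain ⟨W, hW, hBW, hm⟩ := h1 ((1 / 2) ^ n / 4) (by positivity)
  obtain ⟨V, hV, hBV, hm'⟩ := h2 ((1 / 2) ^ n / 4) (by positivity)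
  have hoW := opn_bor h hu hW
  have hoV := opn_bor h hu hV
  refine ⟨W, V, hW, hV, hBW, hBV, ?_⟩
  have h3 := (mu_mono h (bor_it hoW hoV) (bor_un (PB.out_bor hoW hB)
    (PB.out_bor hoV (bor_df hB))) fun y hy => by
      rw [mem_it] at hy
      have hyY := bor_sub hoW y hy.1
      rw [mem_un, PB.mem_out, PB.mem_out]
      by_cases hyB : y ∈ B
      · exact Or.inr ⟨hy.2, hyY, fun h4 => (mem_df.1 h4).2 hyB⟩
      · exact Or.inl ⟨hy.1, hyY, hyB⟩).trans
    (mu_un_le h (PB.out_bor hoW hB) (PB.out_bor hoV (bor_df hB)))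
  linarith

end Pool.Agent.GPA
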