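import Pool.Agent.GPA.Pot
import Pool.Agent.GPA.XDefs

/-!
# Existence of potentials for codes

The statement `PotL` of block X from `pot_all`: the functions are the measures of the parts of the
open sets inside the cylinders, the dense sets are the given ones and the sets of the conditions
which decide one piece of one code.
-/

open MeasureTheory Set Filter Topology
open scoped ENNReal

namespace Pool.Agent.GPA

variable {K : Type} [LinearOrder K]

namespace PotM

/-- A function with countably many values and measurable fibres is decided densely. -/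
theorem dense_const_CM {j : WithTop K} (hsig : SigL (K := K) j) {α : Type*} {g : Pt K → α}
    (hg : CM g) (hd : Det j g) : DenseL j {d : Cond K | ∃ c, ∀ x ∈ pt d j, g x = c} := by
  have : Countable (range g) := hg.1
  intro p
  obtain ⟨e, ⟨c, hc⟩, he⟩ := dense_const hsig (fun x => (⟨g x, x, rfl⟩ : range g))
    (fun c => by
      have : {x | (⟨g x, x, rfl⟩ : range g) = c} = {x | g x = c} := by
        ext x
        exact Subtype.ext_iff
      rw [this]
      exact hg.2 _)
    (fun x y h => Subtype.ext (hd x y h)) p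
  exact ⟨e, ⟨c, fun x hx => congrArg Subtype.val (hc x hx)⟩, he⟩

/-- The finite unions of the pieces. -/
def fu (C : Pt K → ℕ → Set (YS ℕ)) : ℕ → Pt K → Set (YS ℕ)
  | 0, _ => ∅
  | n + 1, y => fu C n y ∪ C y n

omit [LinearOrder K] in
theorem fu_CM {C : Pt K → ℕ → Set (YS ℕ)} (hC : ∀ n, CM fun y => C y n) (n : ℕ) :
    CM (fu C n) := by
  induction n with
  | zero => exact CM.const _
  | succ n ih => exact ih.map₂ (hC n) fun a b => a ∪ b

omit [LinearOrder K] in
theorem fu_mono (C : Pt K → ℕ → Set (YS ℕ)) (y : Pt K) : Monotone fun n => fu C n y :=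
  monotone_nat_of_le_succ fun _ => subset_union_left

omit [LinearOrder K] in
theorem iUnion_fu (C : Pt K → ℕ → Set (YS ℕ)) (y : Pt K) : ⋃ n, fu C n y = ⋃ l, C y l := by
  refine subset_antisymm (iUnion_subset fun n => ?_) (iUnion_subset fun l => ?_)
  · induction n with
    | zero => exact empty_subset _
    | succ n ih => exact union_subset ih (subset_iUnion _ n)
  · exact (subset_union_right (s := fu C l y)).trans (subset_iUnion (fun n => fu C n y) (l + 1))

omit [LinearOrder K] in
theorem measurable_open {C : Pt K → ℕ → Set (YS ℕ)} (hC : ∀ n, CM fun y => C y n)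
    (A : Set (YS ℕ)) : Measurable fun y => (coin ℕ).real ((⋃ l, C y l) ∩ A) := by
  refine measurable_of_tendsto_metrizable (f := fun n y => (coin ℕ).real (fu C n y ∩ A))
    (fun n => measurable_of_CM ((fu_CM hC n).map fun B => (coin ℕ).real (B ∩ A))) ?_
  refine tendsto_pi_nhds.2 fun y => ?_
  have h1 : Monotone fun n => fu C n y ∩ A := fun n m h => inter_subset_inter_left _ (fu_mono C y h)
  have h2 := tendsto_measure_iUnion_atTop (μ := coin ℕ) h1
  rw [← iUnion_inter, iUnion_fu] at h2
  exact (ENNReal.tendsto_toReal (measure_ne_top _ _)).comp h2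

theorem exists_through [WellFoundedLT K] {i : K} (j : WithTop K) {e : Cond K} {x : Pt K}
    (hx : x ∈ pt e (i : WithTop K)) {t : List ℕ} (ht : (e.T i).nd x t) :
    ∃ y ∈ pt e j, Agr (i : WithTop K) y x ∧ pre (y i) t.length = t := by
  obtain ⟨z, hz, hzt⟩ := exists_br ((e.T i).inf x) ht
  obtain ⟨y, hy, hyx, hyz⟩ := exists_ext_coord e hx hz
  exact ⟨y, pt_anti e le_top hy, hyx, by rw [hyz]; exact hzt⟩

end PotM

open PotM

variable [WellFoundedLT K]

/-- **Existence of potentials.** -/
theorem potL (H : BlockP K) {i : K} {j : WithTop K} (hj : ∀ b : K, (b : WithTop K) < j ↔ b ≤ i) :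
    PotL i j := by
  classical
  intro C D hC hD c₀ p hpc
  obtain ⟨g, hg⟩ := exists_surjective_nat (ℕ × List Bool)
  obtain ⟨g', hg'⟩ := exists_surjective_nat (ℕ ⊕ ℕ × ℕ)
  choose idx hidx using hg
  have hcm : ∀ k n, CM fun y => C k y n := fun k n => by
    obtain ⟨a, b, h⟩ := hC k
    exact h.cm n
  have hdet : ∀ k, Det j (C k) := fun k => by
    obtain ⟨a, b, h⟩ := hC k
    exact h.det
  let f : ℕ → Pt K → ℝ := fun n y =>
    (coin ℕ).real ((⋃ l, C (g n).1 y l) ∩ cylS (fun z : ℕ → Bool => z) (g n).2)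
  let D' : ℕ → Set (Cond K) := fun n => match g' n with
    | Sum.inl k => D k
    | Sum.inr q => {d | ∃ B, ∀ y ∈ pt d j, C q.1 y q.2 = B}
  have hD' : ∀ n, DenseL j (D' n) := by
    intro n
    show DenseL j (match g' n with
      | Sum.inl k => D k
      | Sum.inr q => {d | ∃ B, ∀ y ∈ pt d j, C q.1 y q.2 = B})
    rcases g' n with k | q
    · exact hD k
    · exact dense_const_CM (H.sig j) (hcm q.1 q.2) ((hdet q.1).map fun c => c q.2)
  obtain ⟨e, h1, h2, h3, w, h4, h5, h6⟩ := pot_all H.dec H.sig H.cov H.gen hj (f := f)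
    (fun n => measurable_open (hcm (g n).1) _)
    (fun n => (hdet (g n).1).map fun c =>
      (coin ℕ).real ((⋃ l, c l) ∩ cylS (fun z : ℕ → Bool => z) (g n).2))
    (fun n y => ⟨measureReal_nonneg, measureReal_le_one⟩) hD' hpc
  have hDk : ∀ k, CovS i j (D k) e := by
    intro k
    obtain ⟨n, hn⟩ := hg' (Sum.inl k)
    have h := h3 n
    have : D' n = D k := by
      show (match g' n with
        | Sum.inl k => D k
        | Sum.inr q => {d | ∃ B, ∀ y ∈ pt d j, C q.1 y q.2 = B}) = _
      rw [hn]
    rwa [this] at h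
  have hDc : ∀ k l, CovS i j {d | ∃ B, ∀ y ∈ pt d j, C k y l = B} e := by
    intro k l
    obtain ⟨n, hn⟩ := hg' (Sum.inr (k, l))
    have h := h3 n
    have : D' n = {d | ∃ B, ∀ y ∈ pt d j, C k y l = B} := by
      show (match g' n with
        | Sum.inl k => D k
        | Sum.inr q => {d | ∃ B, ∀ y ∈ pt d j, C q.1 y q.2 = B}) = _
      rw [hn]
    rwa [this] at h
  have hf : ∀ k r y, f (idx (k, r)) y =
      (coin ℕ).real ((⋃ l, C k y l) ∩ cylS (fun z : ℕ → Bool => z) r) := by
    intro k r y
    show (coin ℕ).real ((⋃ l, C (g (idx (k, r))).1 y l) ∩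
      cylS (fun z : ℕ → Bool => z) (g (idx (k, r))).2) = _
    rw [hidx]
  refine ⟨e, h1, h2, fun k => (hDk k).covD, fun k x t r => w (idx (k, r)) t x,
    fun k t r => h4 _ _, fun k x y hxy => ?_, fun x hx k => ⟨fun t ht r => ?_, fun β hβ r => ?_,
    fun β hβ l => ?_⟩⟩
  · funext t r
    exact h5 _ _ x y hxy
  · -- along the immediate successors
    rw [Metric.tendsto_nhds]
    intro ε hε
    obtain ⟨M, hM⟩ := (h6 x hx t ht (idx (k, r))).1 (ε / 3) (by positivity)
    rw [Filter.eventually_inf_principal]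
    filter_upwards [eventually_ge_atTop M] with m hm hmW
    have ht' : (e.T i).nd x (m :: t) := nd_cons ht hmW
    obtain ⟨M', hM'⟩ := (h6 x hx (m :: t) ht' (idx (k, r))).1 (ε / 3) (by positivity)
    obtain ⟨m', hm', hm''⟩ := ((e.T i).inf x (m :: t)).exists_gt M'
    have ht'' : (e.T i).nd x (m' :: m :: t) := nd_cons ht' hm'
    obtain ⟨y, hy, hyx, hyt⟩ := exists_through j hx ht''
    have g1 := hM' m' hm''.le hm' y hy hyx hyt
    have g2 : pre (y i) (t.length + 1) = m :: t := by
      have : pre (y i) (t.length + 1 + 1) = m' :: m :: t := hyt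
      rw [pre_succ] at this
      exact (List.cons.inj this).2
    have g3 := hM m hm hmW y hy hyx g2
    rw [Real.dist_eq]
    rw [abs_lt]
    rw [abs_le] at g1 g3
    constructor <;> linarith [g1.1, g1.2, g3.1, g3.2]
  · -- along the branches
    have hy : upd i x β ∈ pt e j := (upd_mem_pt_next hj).2 ⟨hx, hβ⟩
    have hlim : Tendsto (fun n : ℕ => 2 * (1 / ((n : ℝ) + 1))) atTop (𝓝 0) := by
      have := (tendsto_one_div_add_atTop_nhds_zero_nat (𝕜 := ℝ)).const_mul 2
      rwa [mul_zero] at this
    rw [tendsto_iff_dist_tendsto_zero]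
    refine squeeze_zero' (Eventually.of_forall fun n => dist_nonneg) ?_ hlim
    filter_upwards [eventually_ge_atTop (max (idx (k, r)) ((e.T i).s x).length)] with n hn
    have ht : (e.T i).nd x (pre β n) := mem_br_iff.1 hβ n ((le_max_right _ _).trans hn)
    have g1 := (h6 x hx (pre β n) ht (idx (k, r))).2
      (by rw [length_pre]; exact (le_max_left _ _).trans hn) (upd i x β) hy (agr_upd i x β)
      (by rw [length_pre, upd_self])
    rw [length_pre, hf] at g1
    rw [Real.dist_eq, abs_sub_comm, mul_one_div]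
    exact g1
  · -- the fronts
    have hy : upd i x β ∈ pt e j := (upd_mem_pt_next hj).2 ⟨hx, hβ⟩
    obtain ⟨Cc, -, h7, h8⟩ := hDc k l
    obtain ⟨n, d, hd, h9⟩ := h8 _ hy
    obtain ⟨B, hB⟩ := h7 hd
    refine ⟨max n ((e.T i).s x).length, le_max_right _ _, fun β' hβ' hpre => ?_⟩
    have hy' : upd i x β' ∈ pt e j := (upd_mem_pt_next hj).2 ⟨hx, hβ'⟩
    show C k (upd i x β') l = C k (upd i x β) l
    rw [hB _ (h9 _ hy (Agr.refl _ _) rfl), hB _ (h9 _ hy' ((agr_upd i x β').trans
      (agr_upd i x β).symm) ?_)]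
    rw [upd_self, upd_self]
    exact pre_eq_mono (le_max_left _ _) hpre

end Pool.Agent.GPA
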