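import Pool.Agent.GPA.PotC
import Pool.Agent.GPA.OneDefs

/-!
# Potentials of open names, in the form of the one step theorem
-/

open MeasureTheory Set Filter Topology
open scoped ENNReal

namespace Pool.Agent.GPA

variable {K : Type} [LinearOrder K] [WellFoundedLT K]

open PotM

/-- **Potentials of countably many open names, and open covers by countably many dense sets**, in
one pure extension. -/
theorem potN_cov (H : BlockP K) {i : K} {j : WithTop K}
    (hj : ∀ b : K, (b : WithTop K) < j ↔ b ≤ i) {C : ℕ → Pt K → ℕ → Set (YS ℕ)}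
    (hcm : ∀ k n, CM fun y => C k y n) (hdet : ∀ k, Det j (C k)) {D : ℕ → Set (Cond K)}
    (hD : ∀ k, DenseL j (D k)) {c p : Cond K} (hpc : pt p (i : WithTop K) ⊆ pt c (i : WithTop K)) :
    ∃ e, pt e (i : WithTop K) ⊆ pt p (i : WithTop K) ∧ Pure i e c ∧ (∀ k, CovS i j (D k) e) ∧
      ∃ w : ℕ → Pt K → List ℕ → List Bool → ℝ, ∀ k, PotN i j e (C k, w k) := by
  classical
  obtain ⟨g, hg⟩ := exists_surjective_nat (ℕ × List Bool)
  choose idx hidx using hg
  let f : ℕ → Pt K → ℝ := fun n y => (coin ℕ).real (ON (C (g n).1) y ∩ cyl (g n).2)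
  obtain ⟨e, h1, h2, h3, w, h4, h5, h6⟩ := pot_all H.dec H.sig H.cov H.gen hj (f := f)
    (fun n => measurable_open (hcm (g n).1) _)
    (fun n => (hdet (g n).1).map fun c => (coin ℕ).real ((⋃ l, c l) ∩ cyl (g n).2))
    (fun n y => ⟨measureReal_nonneg, measureReal_le_one⟩) hD hpc
  have hf : ∀ k r y, f (idx (k, r)) y = (coin ℕ).real (ON (C k) y ∩ cyl r) := by
    intro k r y
    show (coin ℕ).real (ON (C (g (idx (k, r))).1) y ∩ cyl (g (idx (k, r))).2) = _
    rw [hidx]
  refine ⟨e, h1, h2, h3, fun k x t r => w (idx (k, r)) t x, fun k => ⟨fun t r => h4 _ _,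
    fun x y hxy => ?_, fun x hx t ht r ε hε => ?_⟩⟩
  · funext t r
    exact h5 _ _ x y hxy
  · obtain ⟨M, hM⟩ := (h6 x hx t ht (idx (k, r))).1 ε hε
    refine ⟨M, fun m hm hmW y hy hyx hyt => ?_⟩
    have := hM m hm hmW y hy hyx hyt
    rwa [hf] at this

end Pool.Agent.GPA
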