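import Pool.Agent.GPA.LavSys

/-!
# Forcing with measurable sets of points

Consequences of the covering property and the decision property of a family `P` of nonempty
measurable sets: all the fields of `Frame` which do not mention cardinals, for `Fo P`.
-/

open Set

namespace Pool.Agent.GPA

section

variable {Z : Type} {P : Set (Set Z)}

theorem Fo.mono {A B E : Set Z} (h : Fo P A E) (hB : B ⊆ A) : Fo P B E :=
  fun C hC hCB => h C hC (hCB.trans hB)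

theorem Fo.mono' {A E E' : Set Z} (h : Fo P A E) (hE : E ⊆ E') : Fo P A E' := fun B hB hBA =>
  let ⟨C, hC, hCB, hCE⟩ := h B hB hBA
  ⟨C, hC, hCB, hCE.trans hE⟩

theorem Fo.univ (A : Set Z) : Fo P A Set.univ := fun B hB _ => ⟨B, hB, subset_rfl, subset_univ _⟩

theorem Fo.of_subset {A E : Set Z} (h : A ⊆ E) : Fo P A E :=
  fun B hB hBA => ⟨B, hB, subset_rfl, hBA.trans h⟩

theorem Fo.dense {A E : Set Z} (h : ∀ B ∈ P, B ⊆ A → ∃ C ∈ P, C ⊆ B ∧ Fo P C E) : Fo P A E := by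
  intro B hB hBA
  obtain ⟨C, hC, hCB, hCE⟩ := h B hB hBA
  obtain ⟨D, hD, hDC, hDE⟩ := hCE C hC subset_rfl
  exact ⟨D, hD, hDC.trans hCB, hDE⟩

/-- A condition which forces `E` can be shrunk to a subset of `E`. -/
theorem Fo.exists_subset {A E : Set Z} (h : Fo P A E) (hA : A ∈ P) : ∃ B ∈ P, B ⊆ A ∧ B ⊆ E :=
  h A hA subset_rfl

end

namespace PPos

variable {Z : Type} [MeasurableSpace Z] {P : Set (Set Z)}

theorem fo_empty (h : PPos P) {A : Set Z} (hA : A ∈ P) : ¬ Fo P A ∅ := by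
  intro hE
  obtain ⟨B, hB, -, hBE⟩ := hE A hA subset_rfl
  obtain ⟨z, hz⟩ := h.ne B hB
  exact hBE hz

/-- The decision property for a countable index type. -/
theorem dec' (h : PPos P) {ι : Type*} [Countable ι] (E : ι → Set Z)
    (hE : ∀ i, MeasurableSet (E i)) {A : Set Z} (hA : A ∈ P) (hAE : A ⊆ ⋃ i, E i) :
    ∃ i, ∃ B ∈ P, B ⊆ A ∧ B ⊆ E i := by
  obtain ⟨z, hz⟩ := h.ne A hA
  obtain ⟨i₀, -⟩ := mem_iUnion.1 (hAE hz)
  have : Nonempty ι := ⟨i₀⟩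
  obtain ⟨f, hf⟩ := exists_surjective_nat ι
  obtain ⟨n, B, hB, hBA, hn⟩ := h.dec A hA (fun n => E (f n)) (fun n => hE _) (by
    intro z hz
    obtain ⟨i, hi⟩ := mem_iUnion.1 (hAE hz)
    obtain ⟨n, rfl⟩ := hf i
    exact mem_iUnion.2 ⟨n, hi⟩)
  exact ⟨f n, B, hB, hBA, hn⟩

/-- The decision property for a countable set of sets. -/
theorem dec_sUnion (h : PPos P) {C : Set (Set Z)} (hC : C.Countable)
    (hCm : ∀ c ∈ C, MeasurableSet c) {A : Set Z} (hA : A ∈ P) (hAC : A ⊆ ⋃₀ C) :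
    ∃ c ∈ C, ∃ B ∈ P, B ⊆ A ∧ B ⊆ c := by
  have := hC.to_subtype
  obtain ⟨c, B, hB, hBA, hc⟩ := h.dec' (fun c : C => c.1) (fun c => hCm _ c.2) hA
    (by rwa [← sUnion_eq_iUnion])
  exact ⟨c.1, c.2, B, hB, hBA, hc⟩

/-- Every measurable set is decided. -/
theorem dec_compl (h : PPos P) {E : Set Z} (hE : MeasurableSet E) {A : Set Z} (hA : A ∈ P) :
    ∃ B ∈ P, B ⊆ A ∧ (B ⊆ E ∨ B ⊆ Eᶜ) := by
  obtain ⟨b, B, hB, hBA, hb⟩ := h.dec' (fun b : Bool => bif b then E else Eᶜ)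
    (by rintro (_ | _) <;> simpa using hE) hA (by
      intro z _
      by_cases hz : z ∈ E
      · exact mem_iUnion.2 ⟨true, hz⟩
      · exact mem_iUnion.2 ⟨false, hz⟩)
  exact ⟨B, hB, hBA, by cases b; exacts [Or.inr hb, Or.inl hb]⟩

/-- The value of a measurable function to a countable discrete space is decided. -/
theorem dec_fun (h : PPos P) {ι : Type*} [Countable ι] [MeasurableSpace ι]
    [MeasurableSingletonClass ι] {f : Z → ι} (hf : Measurable f) {A : Set Z} (hA : A ∈ P) :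
    ∃ i, ∃ B ∈ P, B ⊆ A ∧ ∀ z ∈ B, f z = i := by
  obtain ⟨i, B, hB, hBA, hi⟩ := h.dec' (fun i => f ⁻¹' {i}) (fun i => hf (measurableSet_singleton i))
    hA (fun z _ => mem_iUnion.2 ⟨f z, rfl⟩)
  exact ⟨i, B, hB, hBA, fun z hz => hi hz⟩

/-- Countably many measurable sets which include no condition below `A` can be avoided. -/
theorem avoid (h : PPos P) {ι : Type*} [Countable ι] (E : ι → Set Z)
    (hE : ∀ i, MeasurableSet (E i)) {A : Set Z} (hA : A ∈ P)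
    (hno : ∀ i, ∀ B ∈ P, B ⊆ A → ¬ B ⊆ E i) : ∃ B ∈ P, B ⊆ A ∧ ∀ i, Disjoint B (E i) := by
  obtain ⟨B, hB, hBA, hBE⟩ := h.dec_compl (MeasurableSet.iUnion hE) hA
  rcases hBE with hBE | hBE
  · obtain ⟨i, C, hC, hCB, hi⟩ := h.dec' E hE hB hBE
    exact absurd hi (hno i C hC (hCB.trans hBA))
  · refine ⟨B, hB, hBA, fun i => ?_⟩
    rw [disjoint_left]
    intro z hz hzE
    exact hBE hz (mem_iUnion.2 ⟨i, hzE⟩)

/-- The covering property for a countable family of sets which are dense below `A₀`. -/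
theorem cover' (h : PPos P) {ι : Type*} [Countable ι] {A₀ : Set Z} (D : ι → Set (Set Z))
    (hD : ∀ i, ∀ A ∈ P, A ⊆ A₀ → ∃ B ∈ P, B ⊆ A ∧ B ∈ D i) {A : Set Z} (hA : A ∈ P)
    (hAA : A ⊆ A₀) : ∃ B ∈ P, B ⊆ A ∧ ∃ C : ι → Set (Set Z),
      ∀ i, (C i).Countable ∧ C i ⊆ D i ∧ C i ⊆ P ∧ B ⊆ ⋃₀ C i := by
  rcases isEmpty_or_nonempty ι with hι | hι
  · exact ⟨A, hA, subset_rfl, fun _ => ∅, fun i => isEmptyElim i⟩
  obtain ⟨f, hf⟩ := exists_surjective_nat ι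
  obtain ⟨B, hB, hBA, C, hC⟩ := h.cover
    (fun n => {s | s ∈ P ∧ (s ∈ D (f n) ∨ ∀ t ∈ P, t ⊆ s → ¬ t ⊆ A₀)}) (fun n s hs => hs.1) (by
      intro n A hA
      by_cases hc : ∃ t ∈ P, t ⊆ A ∧ t ⊆ A₀
      · obtain ⟨t, ht, htA, htA₀⟩ := hc
        obtain ⟨r, hr, hrt, hrD⟩ := hD (f n) t ht htA₀
        exact ⟨r, ⟨hr, Or.inl hrD⟩, hrt.trans htA⟩
      · push Not at hc
        exact ⟨A, ⟨hA, Or.inr hc⟩, subset_rfl⟩) A hA
  have : ∀ n, Countable ↥(C n) := fun n => (hC n).1.to_subtype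
  obtain ⟨s, hs, hsB, hsd⟩ := h.avoid (ι := Σ n, {c : C n // c.1 ∉ D (f n)}) (fun i => i.2.1.1)
    (fun i => h.meas _ ((hC i.1).2.1 i.2.1.2).1) hB (by
      rintro ⟨n, ⟨c, hc⟩, hcD⟩ t ht htB htc
      rcases ((hC n).2.1 hc).2 with h1 | h1
      · exact hcD h1
      · exact h1 t ht htc (htB.trans (hBA.trans hAA)))
  choose g hg using hf
  refine ⟨s, hs, hsB.trans hBA, fun i => {c ∈ C (g i) | c ∈ D i}, fun i => ⟨(hC (g i)).1.mono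
    (sep_subset _ _), fun c hc => hc.2, fun c hc => ((hC (g i)).2.1 hc.1).1, fun z hz => ?_⟩⟩
  obtain ⟨c, hc, hzc⟩ := (hC (g i)).2.2 (hsB hz)
  by_cases hcD : c ∈ D (f (g i))
  · exact ⟨c, ⟨hc, by rwa [hg] at hcD⟩, hzc⟩
  · exact absurd hzc (disjoint_left.1 (hsd ⟨g i, ⟨c, hc⟩, hcD⟩) hz)

/-- The strong form of forcing countably many sets. -/
theorem inter_subset (h : PPos P) {ι : Type*} [Countable ι] {A : Set Z} (hA : A ∈ P)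
    {E : ι → Set Z} (hE : ∀ i, Fo P A (E i)) : ∃ B ∈ P, B ⊆ A ∧ ∀ i, B ⊆ E i := by
  obtain ⟨B, hB, hBA, C, hC⟩ := h.cover' (A₀ := A) (fun i => {s | s ⊆ E i}) (fun i r hr hrA => by
    obtain ⟨s, hs, hsr, hsE⟩ := hE i r hr hrA
    exact ⟨s, hs, hsr, hsE⟩) hA subset_rfl
  refine ⟨B, hB, hBA, fun i z hz => ?_⟩
  obtain ⟨c, hc, hzc⟩ := (hC i).2.2.2 hz
  exact (hC i).2.1 hc hzc

theorem fo_inter (h : PPos P) {ι : Type*} [Countable ι] {A : Set Z} {E : ι → Set Z}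
    (hE : ∀ i, Fo P A (E i)) : Fo P A (⋂ i, E i) := by
  intro B hB hBA
  obtain ⟨C, hC, hCB, hCE⟩ := h.inter_subset hB (fun i => (hE i).mono hBA)
  exact ⟨C, hC, hCB, subset_iInter hCE⟩

theorem fo_dec (h : PPos P) {E : Set Z} (hE : MeasurableSet E) {A : Set Z} (hA : A ∈ P) :
    ∃ B ∈ P, B ⊆ A ∧ (Fo P B E ∨ Fo P B Eᶜ) := by
  obtain ⟨B, hB, hBA, h1 | h1⟩ := h.dec_compl hE hA
  · exact ⟨B, hB, hBA, Or.inl (Fo.of_subset h1)⟩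
  · exact ⟨B, hB, hBA, Or.inr (Fo.of_subset h1)⟩

theorem fo_union (h : PPos P) {A : Set Z} (hA : A ∈ P) {ι : Type*} [Countable ι] {E : ι → Set Z}
    (hEm : ∀ i, MeasurableSet (E i)) (hE : Fo P A (⋃ i, E i)) :
    ∃ B ∈ P, B ⊆ A ∧ ∃ i, B ⊆ E i := by
  obtain ⟨s, hs, hsA, hsE⟩ := hE A hA subset_rfl
  obtain ⟨i, r, hr, hrs, hn⟩ := h.dec' E hEm hs hsE
  exact ⟨r, hr, hrs.trans hsA, i, hn⟩

/-- A measurable set is forced if and only if no condition is contained in the complement. -/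
theorem fo_iff (h : PPos P) {A E : Set Z} (hE : MeasurableSet E) :
    Fo P A E ↔ ∀ B ∈ P, B ⊆ A → ¬ B ⊆ Eᶜ := by
  constructor
  · intro hF r hr hrA hrE
    obtain ⟨s, hs, hsr, hsE⟩ := hF r hr hrA
    obtain ⟨z, hz⟩ := h.ne s hs
    exact hrE (hsr hz) (hsE hz)
  · intro hF r hr hrA
    obtain ⟨s, hs, hsr, h1 | h1⟩ := h.dec_compl hE hr
    · exact ⟨s, hs, hsr, h1⟩
    · exact absurd h1 (hF s hs (hsr.trans hrA))

/-- Reading of reals. -/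
theorem read (h : PPos P) (S : ℕ → ℕ → Set (Set Z)) (A₀ : Set Z)
    (hSi : ∀ n i j, i ≠ j → ∀ s ∈ S n i, ∀ t ∈ S n j, ∀ r ∈ P, r ⊆ s → ¬ r ⊆ t)
    (hSd : ∀ n, ∀ A ∈ P, A ⊆ A₀ → ∃ B ∈ P, B ⊆ A ∧ ∃ i, B ∈ S n i) {A : Set Z} (hA : A ∈ P)
    (hAA : A ⊆ A₀) : ∃ B ∈ P, B ⊆ A ∧ ∃ F : Z → ℕ → ℕ, Measurable F ∧
      ∀ s ∈ P, s ⊆ B → ∀ n i, s ∈ S n i → Fo P s {z | F z n = i} := by
  obtain ⟨r, hr, hrA, C, hC⟩ := h.cover' (A₀ := A₀) (fun n => {s | ∃ i, s ∈ S n i}) hSd hA hAA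
  set U : ℕ → ℕ → Set Z := fun n i => ⋃₀ (C n ∩ S n i) with hU
  have hUm : ∀ n i, MeasurableSet (U n i) := fun n i =>
    MeasurableSet.sUnion ((hC n).1.mono inter_subset_left)
      fun c hc => h.meas c ((hC n).2.2.1 hc.1)
  classical
  have hex : ∀ n z, ∃ i, z ∈ U n i ∨ ∀ j, z ∉ U n j := by
    intro n z
    by_cases hz : ∃ i, z ∈ U n i
    · exact hz.imp fun i hi => Or.inl hi
    · push Not at hz
      exact ⟨0, Or.inr hz⟩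
  have hmf : ∀ n, Measurable fun z => Nat.find (hex n z) := by
    intro n
    refine measurable_find (hex n) fun k => ?_
    have : {x | x ∈ U n k ∨ ∀ j, x ∉ U n j} = U n k ∪ ⋂ j, (U n j)ᶜ := by
      ext x
      simp
    rw [this]
    exact (hUm n k).union (MeasurableSet.iInter fun j => (hUm n j).compl)
  refine ⟨r, hr, hrA, fun z n => Nat.find (hex n z), measurable_pi_iff.2 hmf, ?_⟩
  intro s hs hsr n i hsS t ht hts
  have hcov : t ⊆ ⋃₀ C n := hts.trans (hsr.trans (hC n).2.2.2)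
  have hsub : t ⊆ ⋃ j, U n j ∩ {z | Nat.find (hex n z) = j} := by
    intro z hz
    obtain ⟨c, hc, hzc⟩ := hcov hz
    obtain ⟨j, hj⟩ := (hC n).2.1 hc
    have hzU : z ∈ U n j := ⟨c, ⟨hc, hj⟩, hzc⟩
    rcases Nat.find_spec (hex n z) with h1 | h1
    · exact mem_iUnion.2 ⟨_, h1, rfl⟩
    · exact absurd hzU (h1 j)
  obtain ⟨j, t₁, ht₁, ht₁t, hj⟩ := h.dec' (fun j => U n j ∩ {z | Nat.find (hex n z) = j})
    (fun j => (hUm n j).inter (hmf n (measurableSet_singleton j))) ht hsub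
  obtain ⟨c, hc, t₂, ht₂, ht₂t, htc⟩ := h.dec_sUnion
    ((hC n).1.mono (inter_subset_left (t := S n j))) (fun c hc => h.meas c ((hC n).2.2.1 hc.1))
    ht₁ (fun z hz => (hj hz).1)
  have hij : j = i := by
    by_contra hne
    exact hSi n j i hne c hc.2 s hsS t₂ ht₂ htc (ht₂t.trans (ht₁t.trans hts))
  subst hij
  exact ⟨t₂, ht₂, ht₂t.trans ht₁t, fun z hz => (hj (ht₂t hz)).2⟩

/-- Covering of countable sequences of dense sets. -/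
theorem predense (h : PPos P) (D : ℕ → Set (Set Z)) (hD : ∀ n, ∀ A ∈ P, ∃ B ∈ P, B ⊆ A ∧ B ∈ D n)
    {A : Set Z} (hA : A ∈ P) : ∃ B ∈ P, B ⊆ A ∧ ∃ C : ℕ → Set (Set Z),
      (∀ n, C n ⊆ D n ∧ C n ⊆ P ∧ (C n).Countable) ∧
        ∀ n, ∀ s ∈ P, s ⊆ B → ∃ d ∈ C n, ∃ t ∈ P, t ⊆ s ∧ t ⊆ d := by
  obtain ⟨B, hB, hBA, C, hC⟩ := h.cover' (A₀ := Set.univ) D (fun n A hA _ => hD n A hA) hA
    (subset_univ _)
  refine ⟨B, hB, hBA, C, fun n => ⟨(hC n).2.1, (hC n).2.2.1, (hC n).1⟩, fun n s hs hsB => ?_⟩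
  obtain ⟨c, hc, t, ht, hts, htc⟩ := h.dec_sUnion (hC n).1
    (fun c hc => h.meas c ((hC n).2.2.1 hc)) hs (hsB.trans (hC n).2.2.2)
  exact ⟨c, hc, t, ht, hts, htc⟩

end PPos

section

variable {Z : Type} {P : Set (Set Z)}

theorem fo_mono {A B E : Set Z} (h : B ⊆ A) (hA : Fo P A E) : Fo P B E := hA.mono h

theorem fo_mono' {A E E' : Set Z} (h : E ⊆ E') (hA : Fo P A E) : Fo P A E' := hA.mono' h

theorem fo_self {A E : Set Z} (h : A ⊆ E) : Fo P A E := Fo.of_subset h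

theorem fo_dense {A E : Set Z} (h : ∀ B ∈ P, B ⊆ A → ∃ C ∈ P, C ⊆ B ∧ Fo P C E) : Fo P A E :=
  Fo.dense h

variable [MeasurableSpace Z]

theorem fo_inter (hP : PPos P) {A : Set Z} {E : ℕ → Set Z} (h : ∀ n, Fo P A (E n)) :
    Fo P A (⋂ n, E n) := hP.fo_inter h

theorem fo_dec (hP : PPos P) {E : Set Z} (hE : MeasurableSet E) {A : Set Z} (hA : A ∈ P) :
    ∃ B ∈ P, B ⊆ A ∧ (B ⊆ E ∨ B ⊆ Eᶜ) := hP.dec_compl hE hA

theorem fo_union (hP : PPos P) {A : Set Z} (hA : A ∈ P) {E : ℕ → Set Z}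
    (hE : ∀ n, MeasurableSet (E n)) (h : Fo P A (⋃ n, E n)) :
    ∃ n, ∃ B ∈ P, B ⊆ A ∧ B ⊆ E n :=
  let ⟨B, hB, hBA, n, hn⟩ := hP.fo_union hA hE h
  ⟨n, B, hB, hBA, hn⟩

theorem fo_read (hP : PPos P) (S : ℕ → ℕ → Set (Set Z)) (A₀ : Set Z)
    (_hlow : ∀ n i, ∀ A ∈ S n i, ∀ B ∈ P, B ⊆ A → B ∈ S n i) (_hS : ∀ n i, S n i ⊆ P)
    (hinc : ∀ n i j, i ≠ j → ∀ A ∈ S n i, ∀ B ∈ S n j, ∀ C ∈ P, C ⊆ A → ¬ C ⊆ B)
    (hd : ∀ n, ∀ A ∈ P, A ⊆ A₀ → ∃ B ∈ P, B ⊆ A ∧ ∃ i, B ∈ S n i) :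
    ∀ A ∈ P, A ⊆ A₀ → ∃ B ∈ P, B ⊆ A ∧ ∃ F : Z → ℕ → ℕ, Measurable F ∧
      ∀ C ∈ P, C ⊆ B → ∀ n i, C ∈ S n i → Fo P C {z | F z n = i} :=
  fun _ hA hAA => hP.read S A₀ hinc hd hA hAA

theorem fo_cover (hP : PPos P) (D : ℕ → Set (Set Z)) (hDP : ∀ n, D n ⊆ P)
    (hD : ∀ n, ∀ A ∈ P, ∃ B ∈ D n, B ⊆ A) : ∀ A ∈ P, ∃ B ∈ P, B ⊆ A ∧ ∃ C : ℕ → Set (Set Z),
      (∀ n, C n ⊆ D n ∧ (C n).Countable) ∧
      ∀ n, ∀ S ∈ P, S ⊆ B → ∃ d ∈ C n, ∃ T ∈ P, T ⊆ S ∧ T ⊆ d := by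
  intro A hA
  obtain ⟨B, hB, hBA, C, hC, h⟩ := hP.predense D (fun n A hA => by
    obtain ⟨B, hB, hBA⟩ := hD n A hA
    exact ⟨B, hDP n hB, hBA, hB⟩) hA
  exact ⟨B, hB, hBA, C, fun n => ⟨(hC n).1, (hC n).2.2⟩, h⟩

end

end Pool.Agent.GPA
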