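import Pool.Agent.GPA.LavSys

/-!
# Block R: from `LavSys` to `Frame` — statements (reference file, not imported by the proofs)
-/

open MeasureTheory Cardinal Set
open scoped ENNReal

namespace Pool.Agent.GPA.RTasks

/-! ### PtForce (helper48): `PPos` gives the first fields of `Frame` -/

section
variable {Z : Type} [MeasurableSpace Z] {P : Set (Set Z)}

theorem fo_mono {A B E : Set Z} (h : B ⊆ A) (hA : Fo P A E) : Fo P B E := sorry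

theorem fo_mono' {A E E' : Set Z} (h : E ⊆ E') (hA : Fo P A E) : Fo P A E' := sorry

theorem fo_self {A E : Set Z} (h : A ⊆ E) : Fo P A E := sorry

theorem fo_inter (hP : PPos P) {A : Set Z} {E : ℕ → Set Z} (h : ∀ n, Fo P A (E n)) :
    Fo P A (⋂ n, E n) := sorry

theorem fo_dense {A E : Set Z} (h : ∀ B ∈ P, B ⊆ A → ∃ C ∈ P, C ⊆ B ∧ Fo P C E) : Fo P A E := sorry

theorem fo_dec (hP : PPos P) {E : Set Z} (hE : MeasurableSet E) {A : Set Z} (hA : A ∈ P) :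
    ∃ B ∈ P, B ⊆ A ∧ (B ⊆ E ∨ B ⊆ Eᶜ) := sorry

theorem fo_union (hP : PPos P) {A : Set Z} (hA : A ∈ P) {E : ℕ → Set Z}
    (hE : ∀ n, MeasurableSet (E n)) (h : Fo P A (⋃ n, E n)) : ∃ n, ∃ B ∈ P, B ⊆ A ∧ B ⊆ E n := sorry

theorem fo_read (hP : PPos P) (S : ℕ → ℕ → Set (Set Z)) (A₀ : Set Z)
    (hlow : ∀ n i, ∀ A ∈ S n i, ∀ B ∈ P, B ⊆ A → B ∈ S n i) (hS : ∀ n i, S n i ⊆ P)
    (hinc : ∀ n i j, i ≠ j → ∀ A ∈ S n i, ∀ B ∈ S n j, ∀ C ∈ P, C ⊆ A → ¬ C ⊆ B)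
    (hd : ∀ n, ∀ A ∈ P, A ⊆ A₀ → ∃ B ∈ P, B ⊆ A ∧ ∃ i, B ∈ S n i) :
    ∀ A ∈ P, A ⊆ A₀ → ∃ B ∈ P, B ⊆ A ∧ ∃ F : Z → ℕ → ℕ, Measurable F ∧
      ∀ C ∈ P, C ⊆ B → ∀ n i, C ∈ S n i → Fo P C {z | F z n = i} := sorry

theorem fo_cover (hP : PPos P) (D : ℕ → Set (Set Z)) (hDP : ∀ n, D n ⊆ P)
    (hD : ∀ n, ∀ A ∈ P, ∃ B ∈ D n, B ⊆ A) : ∀ A ∈ P, ∃ B ∈ P, B ⊆ A ∧ ∃ C : ℕ → Set (Set Z),
      (∀ n, C n ⊆ D n ∧ (C n).Countable) ∧
      ∀ n, ∀ S ∈ P, S ⊆ B → ∃ d ∈ C n, ∃ T ∈ P, T ⊆ S ∧ T ⊆ d := sorry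
end

/-! ### RandomPart (helper48): `QQ P ν` is a `PPos` -/

section
variable {X Y : Type} [MeasurableSpace X] [MeasurableSpace Y] {P : Set (Set X)} {ν : Measure Y}

theorem ppos_qq [IsProbabilityMeasure ν] (hP : PPos P) : PPos (QQ P ν) := sorry

/-- Members of dense sets cover, after shrinking the first coordinate only. -/
theorem full_cover [IsProbabilityMeasure ν] (hP : PPos P) (D : ℕ → Set (Set (X × Y)))
    (hDQ : ∀ n, D n ⊆ QQ P ν) {E : Set (X × Y)} (hE : E ∈ QQ P ν)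
    (hD : ∀ n, ∀ A ∈ QQ P ν, A ⊆ E → ∃ B ∈ D n, B ⊆ A) {A : Set X}
    (hA : A ∈ P) (hAE : ∀ x ∈ A, ν (sec E x) ≠ 0) :
    ∃ B ∈ P, B ⊆ A ∧ ∃ C : ℕ → Set (Set (X × Y)), ∀ n, (C n).Countable ∧ C n ⊆ D n ∧
      ∀ x ∈ B, ν (sec E x \ sec (⋃₀ C n) x) = 0 := sorry

/-- Restriction to a smaller first coordinate. -/
theorem qq_restrict [IsProbabilityMeasure ν] (hP : PPos P) {E : Set (X × Y)}
    (hE : E ∈ QQ P ν) {A : Set X} (hA : A ∈ P) (hAE : ∀ x ∈ A, ν (sec E x) ≠ 0) :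
    E ∩ (Prod.fst ⁻¹' A) ∈ QQ P ν := sorry

/-- Removing null sections. -/
theorem qq_diff [IsProbabilityMeasure ν] (hP : PPos P) {E N : Set (X × Y)} (hE : E ∈ QQ P ν)
    (hN : MeasurableSet N) (h0 : ∀ x, ν (sec (E ∩ N) x) = 0) : E \ N ∈ QQ P ν := sorry
end

/-! ### Reg, null codes (helper26) -/

theorem coin_null {u : ℕ → List Bool → Bool} (hu : IsNullCode u) : coin ℕ (NullOf u) = 0 := sorry

theorem measurableSet_null {Z : Type} [MeasurableSpace Z] {c : Z → ℕ → List Bool → Bool}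
    (hc : Measurable c) : MeasurableSet {p : Z × YS ℕ | p.2 ∈ NullOf (c p.1)} := sorry

theorem union_code : ∃ f : (ℕ → ℕ → List Bool → Bool) → ℕ → List Bool → Bool, Measurable f ∧
    (∀ u, (∀ m, IsNullCode (u m)) → IsNullCode (f u)) ∧ ∀ u m, NullOf (u m) ⊆ NullOf (f u) := sorry

theorem reg {Z : Type} [MeasurableSpace Z] (W : Set (Z × YS ℕ)) (hW : MeasurableSet W) :
    ∃ c : Z → ℕ → List Bool → Bool, Measurable c ∧ (∀ z, IsNullCode (c z)) ∧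
      ∀ z, coin ℕ (sec W z) = 0 → sec W z ⊆ NullOf (c z) := sorry

/-- The Fubini trick. -/
theorem fub {K I : Type} [Preorder K] (d : K) (L : Set I) (V : Set (XS K × YS (I ⊕ ℕ)))
    (hV : MeasurableSet[(lev d).prod inferInstance] V) (h0 : ∀ x, coin (I ⊕ ℕ) (sec V x) = 0) :
    ∃ c : XS K × YS I → ℕ → List Bool → Bool, Measurable[bd d L] c ∧ (∀ z, IsNullCode (c z)) ∧
      ∀ (D : Set (XS K × YS I)) (F : XS K × YS I → ℕ → Bool), MeasurableSet[bd d L] D →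
        Measurable[bd d L] F → (∀ z ∈ D, F z ∉ NullOf (c z)) →
        ∀ x, coin I {y | (x, y) ∈ D ∧ (x, Sum.elim y (F (x, y))) ∈ V} = 0 := sorry

/-- The code of a null set as a set with null sections in the sum. -/
theorem code_sum {K I : Type} (c : XS K × YS I → ℕ → List Bool → Bool) (hc : Measurable c)
    (h : ∀ z, IsNullCode (c z)) :
    MeasurableSet {p : XS K × YS (I ⊕ ℕ) | (fun n => p.2 (.inr n)) ∈
      NullOf (c (p.1, fun i => p.2 (.inl i)))} ∧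
    ∀ x, coin (I ⊕ ℕ) {w | (fun n => w (.inr n)) ∈ NullOf (c (x, fun i => w (.inl i)))} = 0 := sorry

/-! ### RSup (helper56): supports, counting, closing off -/

section
variable {K I : Type} [LinearOrder K] [WellFoundedLT K]

theorem exists_ub (hK : #K = Order.succ 𝔠) (hI : ∀ d : K, #(Set.Iio d) ≤ 𝔠) (s : Set K)
    (hs : #s ≤ 𝔠) : ∃ d : K, ∀ b ∈ s, b < d := sorry

theorem exists_bd (hK : #K = Order.succ 𝔠) (hI : ∀ d : K, #(Set.Iio d) ≤ 𝔠)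
    (E : ℕ → Set (XS K × YS I)) (hE : ∀ n, MeasurableSet (E n)) :
    ∃ (d : K) (L : Set I), L.Countable ∧ ∀ n, MeasurableSet[bd d L] (E n) := sorry

/-- Functions into a countable power of `Bool`. -/
theorem mk_fun (hI : ∀ d : K, #(Set.Iio d) ≤ 𝔠) (ι : Type) [Countable ι] (d : K) (L : Set I)
    (hL : #L ≤ 𝔠) : #{F : XS K × YS I → ι → Bool // Measurable[bd d L] F} ≤ 𝔠 := sorry

/-- Closing off. The pairs `(d, L)` with `#L ≤ 𝔠` are ordered coordinatewise. -/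
theorem closing (hK : #K = Order.succ 𝔠) (hI : ∀ d : K, #(Set.Iio d) ≤ 𝔠)
    (h : K × Set I → K × Set I) (hh : ∀ t, #t.2 ≤ 𝔠 → #(h t).2 ≤ 𝔠) (t₀ : K × Set I)
    (ht₀ : #t₀.2 ≤ 𝔠) :
    ∃ (W : Type) (g : W → K × Set I) (d : K) (L : Set I), #L ≤ 𝔠 ∧ (∀ w, #(g w).2 ≤ 𝔠) ∧
      (∀ w, (g w).1 < d ∧ (g w).2 ⊆ L) ∧ (∃ w, t₀.1 ≤ (g w).1 ∧ t₀.2 ⊆ (g w).2) ∧
      (∀ w, ∃ w', (h (g w)).1 ≤ (g w').1 ∧ (h (g w)).2 ⊆ (g w').2) ∧
      (∀ w w', ∃ v, (g w).1 ≤ (g v).1 ∧ (g w).2 ⊆ (g v).2 ∧ (g w').1 ≤ (g v).1 ∧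
        (g w').2 ⊆ (g v).2) ∧
      ∀ E : ℕ → Set (XS K × YS I), (∀ n, MeasurableSet[bd d L] (E n)) →
        ∃ w, ∀ n, MeasurableSet[bd (g w).1 (g w).2] (E n) := sorry
end

/-! ### RDom, RCc (helper48), RReal: domination, chain condition, reals -/

section
variable {K : Type} [LinearOrder K] [WellFoundedLT K] (S : LavSys K) (I : Type)

theorem dom_forced (d : K) (G : XS K × YS I → ℕ → ℕ) (hG : Measurable[bd d Set.univ] G) :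
    Fo (QQ S.P (coin I)) Set.univ {z | ∃ n₀, ∀ n ≥ n₀, G z n ≤ z.1 d n} := sorry

theorem cc (𝒜 : Set (Set (XS K × YS I))) (h𝒜 : 𝒜 ⊆ QQ S.P (coin I))
    (h : ∀ p ∈ 𝒜, ∀ q ∈ 𝒜, p ≠ q → ∀ r ∈ QQ S.P (coin I), r ⊆ p → ¬ r ⊆ q) :
    #𝒜 < Order.succ 𝔠 := sorry

theorem reals (hI : ℵ₀ ≤ #I) : ∃ real : I → XS K × YS I → ℕ → Bool, (∀ i, Measurable (real i)) ∧
    ∀ i j, i ≠ j → Fo (QQ S.P (coin I)) Set.univ {z | real i z ≠ real j z} := sorry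

/-! ### Core (helper56) -/

theorem core (R : Set (XS K × YS I) → (XS K × YS I → ℕ → Bool) → (XS K × YS I → ℕ → ℕ) → Prop)
    (p₀ : Set (XS K × YS I)) (hp₀ : p₀ ∈ QQ S.P (coin I))
    (down : ∀ q ∈ QQ S.P (coin I), ∀ r ∈ QQ S.P (coin I), ∀ F G, r ⊆ q → R q F G → R r F G)
    (loc : ∀ q ∈ QQ S.P (coin I), ∀ F G, q ⊆ p₀ →
      (∀ r ∈ QQ S.P (coin I), r ⊆ q → ∃ s ∈ QQ S.P (coin I), s ⊆ r ∧ R s F G) → R q F G)
    (mono : ∀ q ∈ QQ S.P (coin I), ∀ (F : XS K × YS I → ℕ → Bool) (G G' : XS K × YS I → ℕ → ℕ),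
      q ⊆ p₀ → Measurable F → Measurable G →
      Measurable G' → Fo (QQ S.P (coin I)) q {z | ∀ n, G z n ≤ G' z n} → R q F G → R q F G')
    (null : ∀ q ∈ QQ S.P (coin I), ∀ G, q ⊆ p₀ → Measurable G → ∃ r ∈ QQ S.P (coin I), r ⊆ q ∧
      ∃ c : XS K × YS I → ℕ → List Bool → Bool, Measurable c ∧ (∀ z, IsNullCode (c z)) ∧
        ∀ s ∈ QQ S.P (coin I), s ⊆ r → ∀ F, Measurable F → R s F G →
          Fo (QQ S.P (coin I)) s {z | F z ∈ NullOf (c z)})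
    (big : ∀ q ∈ QQ S.P (coin I), q ⊆ p₀ → ∀ c : XS K × YS I → ℕ → List Bool → Bool,
      Measurable c → (∀ z, IsNullCode (c z)) → ∃ r ∈ QQ S.P (coin I), r ⊆ q ∧ ∃ F G,
        Measurable F ∧ Measurable G ∧ R r F G ∧
          Fo (QQ S.P (coin I)) r {z | F z ∉ NullOf (c z)}) : False := sorry

theorem exists_frame : Nonempty Frame := sorry
end

end Pool.Agent.GPA.RTasks
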