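import Pool.Agent.GPA.XDefs

/-!
# Banach-Saks with parameters

If `u k → v` weakly in `L¹`, suitable averages of the `u k` converge almost everywhere. Hence for
a measure `ν` which vanishes on one null set, the integrals of infinitely many `u k` are at most
`∫ v dν + δ`. Everything depends measurably on a parameter.
-/

open MeasureTheory Filter Set Topology
open scoped ENNReal

namespace Pool.Agent.GPA

namespace Saks

variable {Y : Type*} [MeasurableSpace Y] {m : Measure Y} [IsProbabilityMeasure m]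

/-! ### Weak convergence -/

theorem integrable_bd {f : Y → ℝ} (hf : Measurable f) {B : ℝ} (hB : ∀ y, |f y| ≤ B)
    (μ : Measure Y) [IsFiniteMeasure μ] : Integrable f μ :=
  Integrable.of_bound hf.aestronglyMeasurable B (Eventually.of_forall fun y => by
    rw [Real.norm_eq_abs]
    exact hB y)

theorem tendsto_set {C : Set (Set Y)} (hgen : ‹MeasurableSpace Y› = MeasurableSpace.generateFrom C)
    (hpi : IsPiSystem C) (huniv : univ ∈ C) {d : ℕ → Y → ℝ} (hd : ∀ k, Measurable (d k)) {B : ℝ}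
    (hB : ∀ k y, |d k y| ≤ B)
    (h : ∀ A ∈ C, Tendsto (fun k => ∫ y in A, d k y ∂m) atTop (𝓝 0)) :
    ∀ A, MeasurableSet A → Tendsto (fun k => ∫ y in A, d k y ∂m) atTop (𝓝 0) := by
  have hi : ∀ k, Integrable (d k) m := fun k => integrable_bd (hd k) (hB k) m
  refine fun A hA => MeasurableSpace.induction_on_inter hgen hpi (C := fun A _ =>
    Tendsto (fun k => ∫ y in A, d k y ∂m) atTop (𝓝 0)) ?_ ?_ ?_ ?_ A hA
  · simp
  · exact fun A hA => h A hA
  · intro A hA hT
    have h1 := (h univ huniv).sub hT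
    rw [sub_zero] at h1
    refine h1.congr fun k => ?_
    rw [setIntegral_univ, ← integral_add_compl hA (hi k)]
    ring
  · intro A hdis hA hT
    have h1 : ∀ k, ∫ y in ⋃ n, A n, d k y ∂m = ∑' n, ∫ y in A n, d k y ∂m := fun k =>
      integral_iUnion hA hdis (hi k).integrableOn
    simp only [h1]
    have h2 : Summable fun n => B * m.real (A n) := by
      refine Summable.mul_left B ?_
      have h3 := measure_iUnion (μ := m) hdis hA
      have h4 : ∑' n, m (A n) ≠ ∞ := by
        rw [← h3]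
        exact measure_ne_top _ _
      exact ENNReal.summable_toReal h4
    have h3 := tendsto_tsum_of_dominated_convergence (𝓕 := atTop)
      (f := fun k n => ∫ y in A n, d k y ∂m) (g := fun _ => 0) h2 (fun n => hT n)
      (Eventually.of_forall fun k n => ?_)
    · simpa using h3
    · have h5 : ∀ y ∈ A n, ‖d k y‖ ≤ B := fun y _ => by
        rw [Real.norm_eq_abs]
        exact hB k y
      exact norm_setIntegral_le_of_norm_le_const (measure_lt_top _ _) h5

theorem tendsto_fun {d : ℕ → Y → ℝ} (hd : ∀ k, Measurable (d k)) {B : ℝ}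
    (hB : ∀ k y, |d k y| ≤ B)
    (h : ∀ A, MeasurableSet A → Tendsto (fun k => ∫ y in A, d k y ∂m) atTop (𝓝 0)) {f : Y → ℝ}
    (hf : Integrable f m) : Tendsto (fun k => ∫ y, f y * d k y ∂m) atTop (𝓝 0) := by
  have hmul : ∀ {f : Y → ℝ}, Integrable f m → ∀ k, Integrable (fun y => f y * d k y) m :=
    fun hf k => hf.mul_bdd (hd k).aestronglyMeasurable
      (Eventually.of_forall fun y => by rw [Real.norm_eq_abs]; exact hB k y)
  refine Integrable.induction (P := fun f => Tendsto (fun k => ∫ y, f y * d k y ∂m) atTop (𝓝 0))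
    ?_ ?_ ?_ ?_ hf
  · intro c A hA _
    have h1 := (h A hA).const_mul c
    rw [mul_zero] at h1
    refine h1.congr fun k => ?_
    rw [← integral_indicator hA, ← integral_const_mul]
    refine integral_congr_ae (Eventually.of_forall fun y => ?_)
    by_cases hy : y ∈ A
    · simp [hy]
    · simp [hy]
  · intro f g _ hf hg hTf hTg
    have h1 := hTf.add hTg
    rw [add_zero] at h1
    refine h1.congr fun k => ?_
    rw [← integral_add (hmul hf k) (hmul hg k)]
    refine integral_congr_ae (Eventually.of_forall fun y => ?_)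
    simp only [Pi.add_apply]
    ring
  · refine isClosed_of_closure_subset fun f hf => ?_
    rw [mem_setOf_eq, Metric.tendsto_atTop]
    intro ε hε
    have hB0 : 0 ≤ |B| + 1 := by positivity
    obtain ⟨g, hg, hfg⟩ := Metric.mem_closure_iff.1 hf (ε / 2 / (|B| + 1)) (by positivity)
    obtain ⟨N, hN⟩ := (Metric.tendsto_atTop.1 hg) (ε / 2) (by positivity)
    refine ⟨N, fun k hk => ?_⟩
    have h1 := hN k hk
    rw [Real.dist_eq, sub_zero] at h1 ⊢
    have hfi := L1.integrable_coeFn f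
    have hgi := L1.integrable_coeFn g
    have hfg' : Integrable (fun y => f y - g y) m := hfi.sub hgi
    have h2 : ∫ y, f y * d k y ∂m = ∫ y, g y * d k y ∂m + ∫ y, (f y - g y) * d k y ∂m := by
      have h6 := integral_add (hmul hgi k) (hmul hfg' k)
      rw [← h6]
      refine integral_congr_ae (Eventually.of_forall fun y => ?_)
      ring
    have h3 : |∫ y, (f y - g y) * d k y ∂m| ≤ (|B| + 1) * dist f g := by
      have h6 : dist f g = ∫ y, |f y - g y| ∂m := by
        rw [dist_eq_norm, L1.norm_eq_integral_norm]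
        refine integral_congr_ae ?_
        filter_upwards [Lp.coeFn_sub f g] with y hy
        rw [hy, Pi.sub_apply, Real.norm_eq_abs]
      rw [h6, ← integral_const_mul]
      refine (norm_integral_le_integral_norm _).trans (integral_mono_ae
        (hmul hfg' k).norm (hfg'.abs.const_mul _) (Eventually.of_forall fun y => ?_))
      simp only [norm_mul, Real.norm_eq_abs]
      rw [mul_comm]
      refine mul_le_mul_of_nonneg_right ?_ (abs_nonneg _)
      have := hB k y
      have := le_abs_self B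
      linarith
    have h4 : (|B| + 1) * dist f g < ε / 2 := by
      have : 0 < |B| + 1 := by positivity
      rw [lt_div_iff₀ this] at hfg
      linarith
    rw [h2]
    calc |_ + _| ≤ _ := abs_add_le _ _
      _ < ε := by linarith
  · intro f g hfg _ hT
    refine hT.congr fun k => integral_congr_ae ?_
    filter_upwards [hfg] with y hy
    rw [hy]

/-! ### Greedy choice -/

theorem exists_card {d : ℕ → Y → ℝ} (hd : ∀ k, Measurable (d k)) {B : ℝ}
    (hB : ∀ k y, |d k y| ≤ B)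
    (h : ∀ A, MeasurableSet A → Tendsto (fun k => ∫ y in A, d k y ∂m) atTop (𝓝 0)) (i n : ℕ) :
    ∃ K : Finset ℕ, K.card = n ∧ (∀ k ∈ K, i ≤ k) ∧
      ∫ y, (∑ k ∈ K, d k y) ^ 2 ∂m ≤ n * (B ^ 2 + 1) := by
  induction n with
  | zero => exact ⟨∅, by simp⟩
  | succ n ih =>
    obtain ⟨K, hK, hKi, hle⟩ := ih
    set S : Y → ℝ := fun y => ∑ k ∈ K, d k y with hS
    have hSm : Measurable S := Finset.measurable_fun_sum K fun k _ => hd k
    have hSB : ∀ y, |S y| ≤ n * B := fun y => by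
      refine (Finset.abs_sum_le_sum_abs _ _).trans ?_
      rw [← hK, ← nsmul_eq_mul]
      exact Finset.sum_le_card_nsmul _ _ _ fun k _ => hB k y
    have hSi : Integrable S m := integrable_bd hSm hSB m
    have h1 := tendsto_fun hd hB h hSi
    obtain ⟨N, hN⟩ := Metric.tendsto_atTop.1 h1 (1 / 2) (by norm_num)
    obtain ⟨k, hk⟩ : ∃ k, i ≤ k ∧ N ≤ k ∧ ∀ l ∈ K, l < k :=
      ⟨max (max i N) (K.sup id + 1), by simp, by simp, fun l hl => by
        have : l ≤ K.sup id := Finset.le_sup (f := id) hl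
        have h2 := le_max_right (max i N) (K.sup id + 1)
        omega⟩
    obtain ⟨hik, hNk, hlk⟩ := hk
    have hkK : k ∉ K := fun h2 => lt_irrefl _ (hlk k h2)
    refine ⟨insert k K, by rw [Finset.card_insert_of_notMem hkK, hK], fun l hl => ?_, ?_⟩
    · rcases Finset.mem_insert.1 hl with rfl | hl
      · exact hik
      · exact hKi l hl
    have h2 := hN k hNk
    rw [Real.dist_eq, sub_zero] at h2
    have hdB : ∀ y, d k y ^ 2 ≤ B ^ 2 := fun y => by
      rw [← sq_abs]
      exact pow_le_pow_left₀ (abs_nonneg _) (hB k y) 2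
    have hi1 : Integrable (fun y => S y ^ 2) m := by
      refine integrable_bd (hSm.pow_const 2) (B := (n * B) ^ 2) (fun y => ?_) m
      rw [abs_pow]
      exact pow_le_pow_left₀ (abs_nonneg _) (hSB y) 2
    have hi2 : Integrable (fun y => S y * d k y) m :=
      hSi.mul_bdd (hd k).aestronglyMeasurable
        (Eventually.of_forall fun y => by rw [Real.norm_eq_abs]; exact hB k y)
    have hi3 : Integrable (fun y => d k y ^ 2) m := by
      refine integrable_bd ((hd k).pow_const 2) (B := B ^ 2) (fun y => ?_) m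
      rw [abs_of_nonneg (sq_nonneg _)]
      exact hdB y
    have h3 : ∫ y, (∑ l ∈ insert k K, d l y) ^ 2 ∂m =
        ∫ y, S y ^ 2 ∂m + 2 * ∫ y, S y * d k y ∂m + ∫ y, d k y ^ 2 ∂m := by
      have h6 := integral_add hi1 (hi2.const_mul 2)
      have h7 := integral_add (hi1.add (hi2.const_mul 2)) hi3
      rw [integral_const_mul] at h6
      simp only [Pi.add_apply] at h7
      rw [← h6, ← h7]
      refine integral_congr_ae (Eventually.of_forall fun y => ?_)
      simp only [Finset.sum_insert hkK, hS]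
      ring
    have h4 : ∫ y, d k y ^ 2 ∂m ≤ B ^ 2 := by
      have := integral_mono_ae (μ := m) hi3 (integrable_const (B ^ 2))
        (Eventually.of_forall fun y => hdB y)
      simpa using this
    rw [h3]
    have h5 := (abs_lt.1 h2).2
    push_cast
    nlinarith

theorem exists_avg {u : ℕ → Y → ℝ} {v : Y → ℝ} (hu : ∀ k, Measurable (u k)) (hv : Measurable v)
    {B : ℝ} (hB : ∀ k y, |u k y - v y| ≤ B)
    (h : ∀ A, MeasurableSet A → Tendsto (fun k => ∫ y in A, (u k y - v y) ∂m) atTop (𝓝 0))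
    (i : ℕ) {ε : ℝ} (hε : 0 < ε) :
    ∃ K : Finset ℕ, K.Nonempty ∧ (∀ k ∈ K, i ≤ k) ∧
      ∫ y, |∑ k ∈ K, (u k y - v y)| ∂m ≤ ε * K.card := by
  obtain ⟨n, hn⟩ := exists_nat_gt ((B ^ 2 + 1) / ε ^ 2)
  have hn0 : (0 : ℝ) < n := lt_of_le_of_lt (by positivity) hn
  have hn1 : n ≠ 0 := by
    rintro rfl
    simp at hn0
  obtain ⟨K, hK, hKi, hle⟩ := exists_card (d := fun k y => u k y - v y)
    (fun k => (hu k).sub hv) hB h i n
  refine ⟨K, Finset.card_ne_zero.1 (by rw [hK]; exact hn1), hKi, ?_⟩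
  rw [hK]
  set S : Y → ℝ := fun y => ∑ k ∈ K, (u k y - v y) with hS
  have hSm : Measurable S := Finset.measurable_fun_sum K fun k _ => (hu k).sub hv
  have hSB : ∀ y, |S y| ≤ n * B := fun y => by
    refine (Finset.abs_sum_le_sum_abs _ _).trans ?_
    rw [← hK, ← nsmul_eq_mul]
    exact Finset.sum_le_card_nsmul _ _ _ fun k _ => hB k y
  have hi1 : Integrable (fun y => S y ^ 2) m := by
    refine integrable_bd (hSm.pow_const 2) (B := (n * B) ^ 2) (fun y => ?_) m
    rw [abs_pow]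
    exact pow_le_pow_left₀ (abs_nonneg _) (hSB y) 2
  have hi2 : Integrable (fun y => |S y|) m := (integrable_bd hSm hSB m).abs
  have ht : 0 < ε * n := by positivity
  have h1 : ∀ y, |S y| ≤ S y ^ 2 / (2 * (ε * n)) + ε * n / 2 := fun y => by
    have h2 : 0 ≤ (|S y| - ε * n) ^ 2 := sq_nonneg _
    rw [← sq_abs (S y)]
    have h3 : |S y| ^ 2 / (2 * (ε * n)) + ε * n / 2 - |S y| =
        (|S y| - ε * n) ^ 2 / (2 * (ε * n)) := by
      field_simp
      ring
    have h4 : 0 ≤ (|S y| - ε * n) ^ 2 / (2 * (ε * n)) := by positivity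
    linarith
  have h2 : ∫ y, |S y| ∂m ≤ ∫ y, (S y ^ 2 / (2 * (ε * n)) + ε * n / 2) ∂m :=
    integral_mono_ae hi2 ((hi1.div_const _).add (integrable_const _))
      (Eventually.of_forall h1)
  rw [integral_add (hi1.div_const _) (integrable_const _), integral_div] at h2
  simp only [integral_const, probReal_univ, smul_eq_mul, one_mul] at h2
  have h3 : (∫ y, S y ^ 2 ∂m) / (2 * (ε * n)) ≤ ε * n / 2 := by
    rw [div_le_iff₀ (by positivity)]
    refine hle.trans ?_
    rw [div_lt_iff₀ (by positivity)] at hn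
    nlinarith
  linarith

theorem exists_avg_on {S : Set (Set Y)}
    (hgen : ‹MeasurableSpace Y› = MeasurableSpace.generateFrom S) (hpi : IsPiSystem S)
    (huniv : univ ∈ S) {A : Set ℕ} (hA : A.Infinite) {u : ℕ → Y → ℝ} {v : Y → ℝ}
    (hu : ∀ k, Measurable (u k)) (hv : Measurable v) {B : ℝ}
    (hu0 : ∀ k ∈ A, ∀ y, 0 ≤ u k y ∧ u k y ≤ B) (hv0 : ∀ y, 0 ≤ v y ∧ v y ≤ B)
    (h : ∀ E ∈ S, Tendsto (fun k => ∫ y in E, u k y ∂m) (atTop ⊓ 𝓟 A) (𝓝 (∫ y in E, v y ∂m)))
    (i : ℕ) {ε : ℝ} (hε : 0 < ε) :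
    ∃ K : Finset ℕ, K.Nonempty ∧ (∀ k ∈ K, k ∈ A ∧ i ≤ k) ∧
      ∫ y, |∑ k ∈ K, (u k y - v y)| ∂m ≤ ε * K.card := by
  let f : ℕ → ℕ := Nat.nth (· ∈ A)
  have hf : StrictMono f := Nat.nth_strictMono hA
  have hfA : ∀ k, f k ∈ A := fun k => Nat.nth_mem_of_infinite hA k
  have hft : Tendsto f atTop (atTop ⊓ 𝓟 A) :=
    tendsto_inf.2 ⟨hf.tendsto_atTop, tendsto_principal.2 (Eventually.of_forall hfA)⟩
  have hB : ∀ k y, |u (f k) y - v y| ≤ B := fun k y => by
    have h1 := hu0 (f k) (hfA k) y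
    have h2 := hv0 y
    rw [abs_le]
    constructor <;> linarith
  have hui : ∀ k, Integrable (u (f k)) m := fun k => integrable_bd (hu _) (fun y => by
    rw [abs_of_nonneg (hu0 (f k) (hfA k) y).1]
    exact (hu0 (f k) (hfA k) y).2) m
  have hvi : Integrable v m := integrable_bd hv (fun y => by
    rw [abs_of_nonneg (hv0 y).1]
    exact (hv0 y).2) m
  obtain ⟨K, hK, hKi, hle⟩ := exists_avg (m := m) (u := fun k => u (f k)) (fun k => hu (f k)) hv
    hB (tendsto_set hgen hpi huniv (fun k => (hu _).sub hv) hB fun E hE => by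
      have h1 := ((h E hE).comp hft).sub_const (∫ y in E, v y ∂m)
      rw [sub_self] at h1
      refine h1.congr fun k => ?_
      rw [Function.comp_apply, ← integral_sub (hui k).integrableOn hvi.integrableOn]) i hε
  refine ⟨K.map ⟨f, hf.injective⟩, by simpa using hK, ?_, ?_⟩
  · intro k hk
    obtain ⟨l, hl, rfl⟩ := Finset.mem_map.1 hk
    exact ⟨hfA l, (hKi l hl).trans (hf.id_le l)⟩
  · simpa [Finset.sum_map, Finset.card_map] using hle

theorem exists_find {X : Type*} [MeasurableSpace X] {P : X → ℕ → Prop}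
    (hP : ∀ n, MeasurableSet {x | P x n}) :
    ∃ N : X → ℕ, Measurable N ∧ (MeasurableSet {x | P x (N x)}) ∧
      ∀ x, (∃ n, P x n) → P x (N x) := by
  classical
  have hG : MeasurableSet {x | ∃ n, P x n} := by
    have : {x | ∃ n, P x n} = ⋃ n, {x | P x n} := by
      ext x
      simp
    rw [this]
    exact MeasurableSet.iUnion hP
  have hex : ∀ x, ∃ n, P x n ∨ ¬ ∃ n, P x n := fun x => by
    by_cases hx : ∃ n, P x n
    · obtain ⟨n, hn⟩ := hx
      exact ⟨n, Or.inl hn⟩
    · exact ⟨0, Or.inr hx⟩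
  have hN : Measurable fun x => Nat.find (hex x) :=
    measurable_find hex fun n => (hP n).union hG.compl
  refine ⟨fun x => Nat.find (hex x), hN, ?_, fun x hx =>
    (Nat.find_spec (hex x)).resolve_right (by simpa using hx)⟩
  have : {x | P x (Nat.find (hex x))} =
      ⋃ n, ((fun x => Nat.find (hex x)) ⁻¹' {n} ∩ {x | P x n}) := by
    ext x
    simp
  rw [this]
  exact MeasurableSet.iUnion fun n => (hN (measurableSet_singleton n)).inter (hP n)

variable {X : Type*} [MeasurableSpace X]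

/-- the difference of the sum and the multiple of `G` -/
def df (F : ℕ → X → Y → ℝ) (G : X → Y → ℝ) (K : Finset ℕ) (z : X × Y) : ℝ :=
  ∑ k ∈ K, (F k z.1 z.2 - G z.1 z.2)

/-- the error -/
noncomputable def er (F : ℕ → X → Y → ℝ) (G : X → Y → ℝ) (K : Finset ℕ) (z : X × Y) : ℝ≥0∞ :=
  (K.card : ℝ≥0∞)⁻¹ * ENNReal.ofReal |df F G K z|

/-- the property of the finite set -/
def Ok (m : Measure Y) (F : ℕ → X → Y → ℝ) (G : X → Y → ℝ) (A : X → Set ℕ) (j : ℕ) (x : X)
    (K : Finset ℕ) : Prop :=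
  K.Nonempty ∧ (∀ k ∈ K, k ∈ A x ∧ j ≤ k) ∧
    ∫⁻ y, ENNReal.ofReal |df F G K (x, y)| ∂m ≤ ENNReal.ofReal (2⁻¹ ^ j * K.card)

variable {F : ℕ → X → Y → ℝ} {G : X → Y → ℝ} {A : X → Set ℕ}

theorem measurable_df (hF : ∀ m, Measurable fun z : X × Y => F m z.1 z.2)
    (hG : Measurable fun z : X × Y => G z.1 z.2) (K : Finset ℕ) : Measurable (df F G K) :=
  Finset.measurable_fun_sum _ fun k _ => (hF k).sub hG

theorem measurable_er (hF : ∀ m, Measurable fun z : X × Y => F m z.1 z.2)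
    (hG : Measurable fun z : X × Y => G z.1 z.2) (K : Finset ℕ) : Measurable (er F G K) :=
  ((measurable_df hF hG K).abs.ennreal_ofReal).const_mul _

theorem measurableSet_ok (hF : ∀ m, Measurable fun z : X × Y => F m z.1 z.2)
    (hG : Measurable fun z : X × Y => G z.1 z.2) (hA : ∀ m, MeasurableSet {x | m ∈ A x})
    (j : ℕ) (K : Finset ℕ) : MeasurableSet {x | Ok m F G A j x K} := by
  have h2 : Measurable fun x => ∫⁻ y, ENNReal.ofReal |df F G K (x, y)| ∂m :=
    (measurable_df hF hG K).abs.ennreal_ofReal.lintegral_prod_right'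
  have h3 : {x | ∀ k ∈ K, k ∈ A x ∧ j ≤ k} =
      ⋂ k ∈ K, ({x | k ∈ A x} ∩ {_x : X | j ≤ k}) := by
    ext x
    simp
  have h4 : MeasurableSet {x | ∀ k ∈ K, k ∈ A x ∧ j ≤ k} := by
    rw [h3]
    exact MeasurableSet.biInter (Set.to_countable _) fun k _ =>
      (hA k).inter (MeasurableSet.const _)
  exact (MeasurableSet.const _).inter (h4.inter (measurableSet_le h2 measurable_const))

theorem card_ne {K : Finset ℕ} (hK : K.Nonempty) : (K.card : ℝ≥0∞) ≠ 0 := by
  simpa using hK.ne_empty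

theorem lintegral_er_le (hF : ∀ m, Measurable fun z : X × Y => F m z.1 z.2)
    (hG : Measurable fun z : X × Y => G z.1 z.2) {j : ℕ} {x : X} {K : Finset ℕ}
    (h : Ok m F G A j x K) : ∫⁻ y, er F G K (x, y) ∂m ≤ ENNReal.ofReal (2⁻¹ ^ j) := by
  have h4 : Measurable fun y => ENNReal.ofReal |df F G K (x, y)| :=
    ((measurable_df hF hG K).comp measurable_prodMk_left).abs.ennreal_ofReal
  simp only [er]
  rw [lintegral_const_mul _ h4]
  refine (mul_le_mul' le_rfl h.2.2).trans ?_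
  rw [ENNReal.ofReal_mul (by positivity), ENNReal.ofReal_natCast, mul_comm, mul_assoc,
    ENNReal.mul_inv_cancel (card_ne h.1) (ENNReal.natCast_ne_top _), mul_one]

theorem df_le {C : ℝ} {x : X} (hFx : ∀ m ∈ A x, ∀ y, 0 ≤ F m x y ∧ F m x y ≤ C)
    (hGx : ∀ y, 0 ≤ G x y ∧ G x y ≤ C) {K : Finset ℕ} (hK : ∀ k ∈ K, k ∈ A x) (y : Y) :
    |df F G K (x, y)| ≤ K.card * C := by
  refine (Finset.abs_sum_le_sum_abs _ _).trans ?_
  rw [← nsmul_eq_mul]
  refine Finset.sum_le_card_nsmul _ _ _ fun l hl => ?_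
  have h1 := hFx l (hK l hl) y
  have h2 := hGx y
  rw [abs_le]
  constructor <;> linarith

theorem er_le {C : ℝ} {x : X} (hFx : ∀ m ∈ A x, ∀ y, 0 ≤ F m x y ∧ F m x y ≤ C)
    (hGx : ∀ y, 0 ≤ G x y ∧ G x y ≤ C) {K : Finset ℕ} (hK0 : K.Nonempty)
    (hK : ∀ k ∈ K, k ∈ A x) (y : Y) : er F G K (x, y) ≤ ENNReal.ofReal C := by
  refine (mul_le_mul' le_rfl (ENNReal.ofReal_le_ofReal (df_le hFx hGx hK y))).trans ?_
  rw [ENNReal.ofReal_mul (by positivity), ENNReal.ofReal_natCast, ← mul_assoc,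
    ENNReal.inv_mul_cancel (card_ne hK0) (ENNReal.natCast_ne_top _), one_mul]

theorem exists_ok {S : Set (Set Y)}
    (hgen : ‹MeasurableSpace Y› = MeasurableSpace.generateFrom S) (hpi : IsPiSystem S)
    (huniv : univ ∈ S) (hF : ∀ m, Measurable fun z : X × Y => F m z.1 z.2)
    (hG : Measurable fun z : X × Y => G z.1 z.2) {C : ℝ} {x : X} (hAx : (A x).Infinite)
    (hFx : ∀ m ∈ A x, ∀ y, 0 ≤ F m x y ∧ F m x y ≤ C) (hGx : ∀ y, 0 ≤ G x y ∧ G x y ≤ C)
    (h : ∀ E ∈ S, Tendsto (fun k => ∫ y in E, F k x y ∂m) (atTop ⊓ 𝓟 (A x))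
      (𝓝 (∫ y in E, G x y ∂m))) (j : ℕ) : ∃ K, Ok m F G A j x K := by
  have hFm : ∀ k, Measurable (F k x) := fun k => (hF k).comp measurable_prodMk_left
  have hGm' : Measurable (G x) := hG.comp measurable_prodMk_left
  obtain ⟨K, hK, hKj, hle⟩ := exists_avg_on (m := m) hgen hpi huniv hAx hFm hGm' hFx hGx h j
    (ε := 2⁻¹ ^ j) (by positivity)
  refine ⟨K, hK, hKj, ?_⟩
  have hi : Integrable (fun y => |df F G K (x, y)|) m :=
    integrable_bd ((measurable_df hF hG K).comp measurable_prodMk_left).abs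
      (B := K.card * C) (fun y => by
        rw [abs_abs]
        exact df_le hFx hGx (fun k hk => (hKj k hk).1) y) m
  rw [← ofReal_integral_eq_lintegral_ofReal hi (Eventually.of_forall fun y => abs_nonneg _)]
  exact ENNReal.ofReal_le_ofReal hle

/-- one of the members of `K` satisfies the inequality -/
theorem exists_mem {C : ℝ} {x : X} (hF : ∀ m, Measurable fun z : X × Y => F m z.1 z.2)
    (hG : Measurable fun z : X × Y => G z.1 z.2)
    (hFx : ∀ m ∈ A x, ∀ y, 0 ≤ F m x y ∧ F m x y ≤ C)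
    (hGx : ∀ y, 0 ≤ G x y ∧ G x y ≤ C) {K : Finset ℕ} (hK0 : K.Nonempty)
    (hK : ∀ k ∈ K, k ∈ A x) {ν : Measure Y} [IsFiniteMeasure ν] {ε : ℝ} (hε : 0 < ε)
    (h : ∫⁻ y, er F G K (x, y) ∂ν ≤ ENNReal.ofReal ε) :
    ∃ k ∈ K, ∫ y, F k x y ∂ν ≤ ∫ y, G x y ∂ν + ε := by
  have hFm : ∀ k, Measurable (F k x) := fun k => (hF k).comp measurable_prodMk_left
  have hGm : Measurable (G x) := hG.comp measurable_prodMk_left
  by_contra hcon
  push Not at hcon
  have hFi : ∀ l ∈ K, Integrable (F l x) ν := fun l hl =>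
    integrable_bd (hFm l) (fun y => by
      rw [abs_of_nonneg (hFx l (hK l hl) y).1]
      exact (hFx l (hK l hl) y).2) ν
  have hGi : Integrable (G x) ν := integrable_bd hGm (fun y => by
    rw [abs_of_nonneg (hGx y).1]
    exact (hGx y).2) ν
  have h1 : K.card * ε < ∑ l ∈ K, (∫ y, F l x y ∂ν - ∫ y, G x y ∂ν) := by
    rw [← nsmul_eq_mul, ← Finset.sum_const]
    refine Finset.sum_lt_sum_of_nonempty hK0 fun l hl => ?_
    have := hcon l hl
    linarith
  have hd : ∀ l ∈ K, Integrable (fun y => F l x y - G x y) ν := fun l hl =>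
    (hFi l hl).sub hGi
  have h2 : ∑ l ∈ K, (∫ y, F l x y ∂ν - ∫ y, G x y ∂ν) = ∫ y, df F G K (x, y) ∂ν := by
    simp only [df]
    rw [integral_finsetSum _ hd]
    exact Finset.sum_congr rfl fun l hl => (integral_sub (hFi l hl) hGi).symm
  have hDi : Integrable (fun y => df F G K (x, y)) ν := by
    simp only [df]
    exact integrable_finsetSum _ hd
  have h4 : Measurable fun y => er F G K (x, y) :=
    (measurable_er hF hG K).comp measurable_prodMk_left
  have h3 : ∫ y, df F G K (x, y) ∂ν ≤ K.card * ε := by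
    refine (integral_mono hDi hDi.abs fun y => le_abs_self _).trans ?_
    rw [← ENNReal.ofReal_le_ofReal_iff (by positivity),
      ofReal_integral_eq_lintegral_ofReal hDi.abs (Eventually.of_forall fun y => abs_nonneg _),
      ENNReal.ofReal_mul (by positivity), ENNReal.ofReal_natCast]
    refine le_trans ?_ (mul_le_mul' le_rfl h)
    rw [← lintegral_const_mul _ h4]
    refine lintegral_mono fun y => ?_
    simp only [er]
    rw [← mul_assoc, ENNReal.mul_inv_cancel (card_ne hK0) (ENNReal.natCast_ne_top _), one_mul]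
  rw [h2] at h1
  exact absurd h3 (not_le.2 h1)

theorem measurable_index {f : ℕ → X × Y → ℝ≥0∞} (hf : ∀ n, Measurable (f n)) {N : X → ℕ}
    (hN : Measurable N) : Measurable fun z : X × Y => f (N z.1) z := by
  intro T hT
  have h1 : (fun z : X × Y => f (N z.1) z) ⁻¹' T =
      ⋃ n, ({z : X × Y | N z.1 = n} ∩ f n ⁻¹' T) := by
    ext z
    simp
  rw [h1]
  exact MeasurableSet.iUnion fun n =>
    ((hN.comp measurable_fst) (measurableSet_singleton n)).inter (hf n hT)

theorem exists_err (m : Measure Y) [IsProbabilityMeasure m] {en : ℕ → Finset ℕ}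
    (en_surj : Function.Surjective en)
    (hF : ∀ m, Measurable fun z : X × Y => F m z.1 z.2)
    (hG : Measurable fun z : X × Y => G z.1 z.2) (hA : ∀ m, MeasurableSet {x | m ∈ A x}) :
    ∃ (N : ℕ → X → ℕ) (E : ℕ → X × Y → ℝ≥0∞), (∀ j, Measurable (E j)) ∧
      (∀ j x, ∫⁻ y, E j (x, y) ∂m ≤ ENNReal.ofReal (2⁻¹ ^ j)) ∧
      ∀ j x, (∃ K, Ok m F G A j x K) → Ok m F G A j x (en (N j x)) ∧
        ∀ y, E j (x, y) = er F G (en (N j x)) (x, y) := by
  have h0 := fun j : ℕ => exists_find (P := fun x n => Ok m F G A j x (en n)) fun n =>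
    measurableSet_ok hF hG hA j (en n)
  choose N hNm hNs hNP using h0
  refine ⟨N, fun j => {z : X × Y | Ok m F G A j z.1 (en (N j z.1))}.indicator
    fun z => er F G (en (N j z.1)) z, fun j => ?_, fun j x => ?_, fun j x hx => ?_⟩
  · have h2 : Measurable fun z : X × Y => er F G (en (N j z.1)) z :=
      measurable_index (fun n => measurable_er hF hG (en n)) (hNm j)
    exact h2.indicator (measurable_fst (hNs j))
  · by_cases hx : Ok m F G A j x (en (N j x))
    · refine le_trans (lintegral_mono fun y => ?_) (lintegral_er_le hF hG hx)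
      exact indicator_le_self _ _ (x, y)
    · refine le_trans (le_of_eq ?_) zero_le
      refine lintegral_eq_zero_of_ae_eq_zero (Eventually.of_forall fun y => ?_)
      exact indicator_of_notMem (by simpa using hx) _
  · have h1 : Ok m F G A j x (en (N j x)) := by
      refine hNP j x ?_
      obtain ⟨K, hK⟩ := hx
      obtain ⟨n, hn⟩ := en_surj K
      exact ⟨n, by rw [hn]; exact hK⟩
    exact ⟨h1, fun y => indicator_of_mem (show (x, y) ∈ {z : X × Y |
      Ok m F G A j z.1 (en (N j z.1))} from h1) _⟩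

omit [IsProbabilityMeasure m] in
theorem null_of_err {E : ℕ → X × Y → ℝ≥0∞} (hE : ∀ j, Measurable (E j))
    (hEi : ∀ j x, ∫⁻ y, E j (x, y) ∂m ≤ ENNReal.ofReal (2⁻¹ ^ j)) (x : X) :
    m {y | ∑' j, E j (x, y) = ∞} = 0 := by
  have hEx : ∀ j, Measurable fun y => E j (x, y) := fun j => (hE j).comp measurable_prodMk_left
  have h1 : ∫⁻ y, ∑' j, E j (x, y) ∂m ≠ ∞ := by
    rw [lintegral_tsum fun j => (hEx j).aemeasurable]
    refine ne_top_of_le_ne_top ?_ (ENNReal.tsum_le_tsum fun j => hEi j x)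
    rw [← ENNReal.ofReal_tsum_of_nonneg (fun j => by positivity)
      (summable_geometric_of_lt_one (by norm_num) (by norm_num))]
    exact ENNReal.ofReal_ne_top
  have h2 := ae_lt_top' (Measurable.tsum fun j => hEx j).aemeasurable h1
  have h3 : {y | ∑' j, E j (x, y) = ∞} = {y | ¬ ∑' j, E j (x, y) < ∞} := by
    ext y
    simp
  rw [h3]
  exact h2

theorem lim_of_err {E : ℕ → X × Y → ℝ≥0∞} (hE : ∀ j, Measurable (E j)) {x : X} {C : ℝ}
    (hEb : ∀ j y, E j (x, y) ≤ ENNReal.ofReal C) {ν : Measure Y} [IsFiniteMeasure ν]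
    (hν : ν {y | ∑' j, E j (x, y) = ∞} = 0) :
    Tendsto (fun j => ∫⁻ y, E j (x, y) ∂ν) atTop (𝓝 0) := by
  have hae : ∀ᵐ y ∂ν, Tendsto (fun j => E j (x, y)) atTop (𝓝 0) := by
    have h1 : ∀ᵐ y ∂ν, y ∉ {y | ∑' j, E j (x, y) = ∞} := measure_eq_zero_iff_ae_notMem.1 hν
    filter_upwards [h1] with y hy
    exact ENNReal.tendsto_atTop_zero_of_tsum_ne_top hy
  have h1 := tendsto_lintegral_of_dominated_convergence (μ := ν)
    (F := fun j y => E j (x, y)) (f := fun _ => 0) (fun _ => ENNReal.ofReal C)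
    (fun j => (hE j).comp measurable_prodMk_left)
    (fun j => Eventually.of_forall fun y => hEb j y)
    (by
      rw [lintegral_const]
      exact ENNReal.mul_ne_top ENNReal.ofReal_ne_top (measure_ne_top _ _)) hae
  simpa using h1

theorem saks_gen (m : Measure Y) [IsProbabilityMeasure m] {S : Set (Set Y)}
    (hgen : ‹MeasurableSpace Y› = MeasurableSpace.generateFrom S) (hpi : IsPiSystem S)
    (huniv : univ ∈ S) {C : ℝ} (hF : ∀ m, Measurable fun z : X × Y => F m z.1 z.2)
    (hG : Measurable fun z : X × Y => G z.1 z.2) (hA : ∀ m, MeasurableSet {x | m ∈ A x}) :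
    ∃ Z : Set (X × Y), MeasurableSet Z ∧ (∀ x, m {y | (x, y) ∈ Z} = 0) ∧
      ∀ x, (A x).Infinite → (∀ m ∈ A x, ∀ y, 0 ≤ F m x y ∧ F m x y ≤ C) →
        (∀ y, 0 ≤ G x y ∧ G x y ≤ C) →
        (∀ E ∈ S, Tendsto (fun k => ∫ y in E, F k x y ∂m) (atTop ⊓ 𝓟 (A x))
          (𝓝 (∫ y in E, G x y ∂m))) →
        ∀ ν : Measure Y, IsFiniteMeasure ν → ν {y | (x, y) ∈ Z} = 0 → ∀ ε : ℝ, 0 < ε →
          ∀ k : ℕ, ∃ m ∈ A x, k ≤ m ∧ ∫ y, F m x y ∂ν ≤ ∫ y, G x y ∂ν + ε := by
  obtain ⟨en, hen⟩ := exists_surjective_nat (Finset ℕ)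
  obtain ⟨N, E, hE, hEi, hN⟩ := exists_err m hen hF hG hA
  refine ⟨{z | ∑' j, E j z = ∞}, (Measurable.tsum hE) (measurableSet_singleton _),
    fun x => null_of_err hE hEi x, fun x hAx hFx hGx hw ν hν hνZ ε hε k => ?_⟩
  have hok := fun j => hN j x (exists_ok hgen hpi huniv hF hG hAx hFx hGx hw j)
  have hlim := lim_of_err hE (x := x) (C := C) (fun j y => by
    rw [(hok j).2 y]
    exact er_le hFx hGx (hok j).1.1 (fun k hk => ((hok j).1.2.1 k hk).1) y) hνZ
  obtain ⟨j, hj1, hj2⟩ := ((hlim.eventually_le_const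
    (ENNReal.ofReal_pos.2 hε)).and (eventually_ge_atTop k)).exists
  simp only [(hok j).2] at hj1
  obtain ⟨l, hl, hle⟩ := exists_mem hF hG hFx hGx (hok j).1.1
    (fun k hk => ((hok j).1.2.1 k hk).1) hε hj1
  exact ⟨l, ((hok j).1.2.1 l hl).1, hj2.trans ((hok j).1.2.1 l hl).2, hle⟩

end Saks

open Saks in
/-- Weak convergence along an infinite set of indices, and the exceptional null set for the
inequality of the integrals. -/
theorem saks {X : Type} [MeasurableSpace X] {F : ℕ → X → YS ℕ → ℝ} {G : X → YS ℕ → ℝ}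
    {A : X → Set ℕ} {C : ℝ} (hF : ∀ m, Measurable fun z : X × YS ℕ => F m z.1 z.2)
    (hG : Measurable fun z : X × YS ℕ => G z.1 z.2) (hA : ∀ m, MeasurableSet {x | m ∈ A x}) :
    ∃ Z : Set (X × YS ℕ), MeasurableSet Z ∧ (∀ x, coin ℕ (sec Z x) = 0) ∧
      ∀ x, (A x).Infinite → (∀ m ∈ A x, ∀ y, 0 ≤ F m x y ∧ F m x y ≤ C) →
        (∀ y, 0 ≤ G x y ∧ G x y ≤ C) →
        (∀ r : List Bool, Tendsto (fun m => ∫ y in cylS (fun z : ℕ → Bool => z) r, F m x y ∂coin ℕ)
          (atTop ⊓ 𝓟 (A x)) (𝓝 (∫ y in cylS (fun z : ℕ → Bool => z) r, G x y ∂coin ℕ))) →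
        ∀ ν : Measure (YS ℕ), IsFiniteMeasure ν → ν (sec Z x) = 0 → ∀ ε : ℝ, 0 < ε →
          ∀ k : ℕ, ∃ m ∈ A x, k ≤ m ∧ ∫ y, F m x y ∂ν ≤ ∫ y, G x y ∂ν + ε := by
  obtain ⟨Z, hZ, hZ0, h⟩ := saks_gen (coin ℕ) generateFrom_cyl isPiSystem_cyl
    (Or.inr ⟨[], cylS_nil⟩) (C := C) hF hG hA
  refine ⟨Z, hZ, hZ0, fun x hAx hFx hGx hw ν hν hνZ => h x hAx hFx hGx (fun S hS => ?_) ν hν hνZ⟩
  rcases hS with rfl | ⟨r, rfl⟩
  · simp only [Measure.restrict_empty, integral_zero_measure]
    exact tendsto_const_nhds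
  · exact hw r

end Pool.Agent.GPA
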