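import Pool.Agent.GPA.Gen

/-!
# Tools for generic points
-/

open Set Filter

namespace Pool.Agent.GPA

variable {K : Type} [LinearOrder K]

theorem det_pt (p : Cond K) (j : WithTop K) : Det j (fun x => x ∈ pt p j) :=
  fun _ _ h => propext (mem_pt_congr p h)

theorem Det.and {j : WithTop K} {P Q : Pt K → Prop} (hP : Det j P) (hQ : Det j Q) :
    Det j (fun x => P x ∧ Q x) := fun x y h => by
  show (P x ∧ Q x) = (P y ∧ Q y)
  rw [hP x y h, hQ x y h]

theorem Det.not {j : WithTop K} {P : Pt K → Prop} (hP : Det j P) :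
    Det j (fun x => ¬ P x) := fun x y h => by
  show (¬ P x) = (¬ P y)
  rw [hP x y h]

theorem gen_congr {N : Set Obj} {j : WithTop K} {x y : Pt K} (h : Agr j x y) :
    Gen N j x ↔ Gen N j y := by
  refine forall₃_congr fun D _ _ => exists_congr fun e => and_congr_right fun _ =>
    and_congr_right fun _ => mem_pt_congr e h

/-- The set of the generic points is measurable. -/
theorem measurableSet_gen {N : Set Obj} (hN : N.Countable) (j : WithTop K) :
    MeasurableSet {x : Pt K | Gen N j x} := by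
  have h1 : {D : Set (Cond K) | Has N D}.Countable := by
    refine (hN.preimage (f := fun D : Set (Cond K) => (⟨_, D⟩ : Obj)) ?_)
    intro D D' h
    exact eq_of_heq (Sigma.mk.inj h).2
  have h2 : {e : Cond K | Has N e}.Countable := by
    refine (hN.preimage (f := fun D : Cond K => (⟨_, D⟩ : Obj)) ?_)
    intro D D' h
    exact eq_of_heq (Sigma.mk.inj h).2
  have : {x : Pt K | Gen N j x} = ⋂ D ∈ {D : Set (Cond K) | Has N D},
      {x | DenseL j D → ∃ e ∈ D, Has N e ∧ x ∈ pt e j} := by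
    ext x
    simp only [mem_iInter]
    rfl
  rw [this]
  refine MeasurableSet.biInter h1 fun D _ => MeasurableSet.imp (MeasurableSet.const _) ?_
  have : {x | ∃ e ∈ D, Has N e ∧ x ∈ pt e j} = ⋃ e ∈ {e : Cond K | Has N e} ∩ D, pt e j := by
    ext x
    simp only [mem_iUnion, exists_prop]
    exact ⟨fun ⟨e, h1, h2, h3⟩ => ⟨e, ⟨h2, h1⟩, h3⟩, fun ⟨e, ⟨h2, h1⟩, h3⟩ => ⟨e, h1, h2, h3⟩⟩
  rw [this]
  exact MeasurableSet.biUnion (h2.mono inter_subset_left) fun e _ => measurableSet_pt e j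

/-- The conditions which decide a given condition are dense. -/
theorem dense_dec {j : WithTop K} (hj : DecL (K := K) j) (p : Cond K) :
    DenseL j {e : Cond K | pt e j ⊆ pt p j ∨ Disjoint (pt e j) (pt p j)} := by
  intro r
  obtain ⟨e, h1, h2⟩ := hj (pt p j) (measurableSet_pt p j) (det_pt p j) r
  exact ⟨e, h2, h1⟩

/-- If `p` belongs to `N` and `Q u` holds densely below `p` then every generic point of `p` belongs
to an extension of `p` in `N` with the property `Q u`. -/
theorem gen_reflect {j : WithTop K} (hj : DecL (K := K) j) {α : Type} (Q : α → Cond K → Prop) :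
    ∀ᶠ N in club, ∀ (u : α) (p : Cond K), Has N u → Has N p →
      (∀ r, pt r j ⊆ pt p j → ∃ e, pt e j ⊆ pt r j ∧ Q u e) →
      ∀ x, Gen N j x → x ∈ pt p j → ∃ e, Has N e ∧ x ∈ pt e j ∧ pt e j ⊆ pt p j ∧ Q u e := by
  filter_upwards [club_map₂ (fun (u : α) (p : Cond K) =>
    {e : Cond K | (pt e j ⊆ pt p j ∧ Q u e) ∨ Disjoint (pt e j) (pt p j)})] with N h1 u p hu hp hd
    x hx hxp
  obtain ⟨e, he, heN, hxe⟩ := hx _ (h1 u p hu hp) (by
    intro r
    obtain ⟨e, he, he'⟩ := hj (pt p j) (measurableSet_pt p j) (det_pt p j) r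
    rcases he' with he' | he'
    · obtain ⟨e', h2, h3⟩ := hd e he'
      exact ⟨e', Or.inl ⟨h2.trans he', h3⟩, h2.trans he⟩
    · exact ⟨e, Or.inr he', he⟩)
  rcases he with he | he
  · exact ⟨e, heN, hxe, he.1, he.2⟩
  · exact (Set.disjoint_left.1 he hxe hxp).elim

/-- The version with a witness. -/
theorem gen_reflect_wit {j : WithTop K} (hj : DecL (K := K) j) {α β : Type}
    (Q : α → Cond K → β → Prop) :
    ∀ᶠ N in club, ∀ (u : α) (p : Cond K), Has N u → Has N p →
      (∀ r, pt r j ⊆ pt p j → ∃ e, pt e j ⊆ pt r j ∧ ∃ v, Q u e v) →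
      ∀ x, Gen N j x → x ∈ pt p j →
        ∃ e v, Has N e ∧ Has N v ∧ x ∈ pt e j ∧ pt e j ⊆ pt p j ∧ Q u e v := by
  filter_upwards [gen_reflect hj (fun (u : α) e => ∃ v, Q u e v), club_skolem₂ Q] with N h1 h2
    u p hu hp hd x hx hxp
  obtain ⟨e, he, hxe, hep, hQ⟩ := h1 u p hu hp hd x hx hxp
  obtain ⟨v, hv, hQv⟩ := h2 u e hu he hQ
  exact ⟨e, v, he, hv, hxe, hep, hQv⟩

/-- The conditions of `N` through a generic point are directed. -/
theorem gen_directed {j : WithTop K} (hj : DecL (K := K) j) :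
    ∀ᶠ N in club, ∀ (p q : Cond K), Has N p → Has N q → ∀ x, Gen N j x → x ∈ pt p j → x ∈ pt q j →
      ∃ e, Has N e ∧ x ∈ pt e j ∧ pt e j ⊆ pt p j ∧ pt e j ⊆ pt q j := by
  filter_upwards [gen_reflect hj (fun (q : Cond K) e =>
    pt e j ⊆ pt q j ∨ Disjoint (pt e j) (pt q j))] with N h1 p q hp hq x hx hxp hxq
  obtain ⟨e, h2, h3, h4, h5⟩ := h1 q p hq hp (fun r _ => by
    obtain ⟨e, he, he'⟩ := dense_dec hj q r
    exact ⟨e, he', he⟩) x hx hxp
  rcases h5 with h5 | h5
  · exact ⟨e, h2, h3, h4, h5⟩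
  · exact (Set.disjoint_left.1 h5 h3 hxq).elim

/-- Finitely many conditions of `N` through a generic point have a common extension in `N` through
the point. -/
theorem gen_directed_list {j : WithTop K} (hj : DecL (K := K) j) :
    ∀ᶠ N in club, ∀ (l : List (Cond K)), (∀ p ∈ l, Has N p) → ∀ p, Has N p → ∀ x, Gen N j x →
      x ∈ pt p j → (∀ q ∈ l, x ∈ pt q j) →
      ∃ e, Has N e ∧ x ∈ pt e j ∧ pt e j ⊆ pt p j ∧ ∀ q ∈ l, pt e j ⊆ pt q j := by
  filter_upwards [gen_directed hj] with N h1 l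
  induction l with
  | nil => exact fun _ p hp x _ hxp _ => ⟨p, hp, hxp, subset_rfl, by simp⟩
  | cons q l ih =>
    intro hl p hp x hx hxp hxl
    obtain ⟨e, h2, h3, h4, h5⟩ := ih (fun p hp => hl p (by simp [hp])) p hp x hx hxp
      (fun q hq => hxl q (by simp [hq]))
    obtain ⟨e', h6, h7, h8, h9⟩ := h1 e q h2 (hl q (by simp)) x hx h3 (hxl q (by simp))
    refine ⟨e', h6, h7, h8.trans h4, fun r hr => ?_⟩
    rcases List.mem_cons.1 hr with rfl | hr
    · exact h9
    · exact h8.trans (h5 r hr)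

variable [WellFoundedLT K]

/-- Extend a condition of `N` at a generic point `x` into a dense set: at the level `i` of `x` a
condition `p` of `N` with `x ∈ pt p i` has an extension `d` of the level `j ≥ i` in the set `D`,
dense at the level `j`, with `x ∈ pt d i`. -/
theorem gen_enter {i j : WithTop K} (hij : i ≤ j) (hi : DecL (K := K) i) :
    ∀ᶠ N in club, ∀ (D : Set (Cond K)) (p : Cond K), Has N D → Has N p → DenseL j D →
      ∀ x, Gen N i x → x ∈ pt p i → ∃ d ∈ D, Has N d ∧ x ∈ pt d i ∧ pt d j ⊆ pt p j := by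
  filter_upwards [gen_reflect_wit hi (fun (u : Set (Cond K) × Cond K) e (d : Cond K) =>
    d ∈ u.1 ∧ pt d j ⊆ pt u.2 j ∧ pt e i ⊆ pt d i), club_pair] with N h1 h2 D p hD hp hd x hx hxp
  obtain ⟨e, d, -, hdN, hxe, -, h4, h5, h6⟩ := h1 (D, p) p (h2 _ _ D p hD hp) hp (fun r hr => by
    obtain ⟨d, hd1, hd2⟩ := hd (Cond.glue i r p)
    refine ⟨d, ?_, d, hd1, ?_, subset_rfl⟩
    · intro y hy
      obtain ⟨z, hz, hzy⟩ := exists_ext_level d hy
      have h7 := (mem_pt_glue hij).1 (hd2 (pt_anti d le_top hz))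
      exact (mem_pt_congr r hzy).1 h7.1
    · intro y hy
      exact glue_subset_right hij hr (hd2 hy)) x hx hxp
  exact ⟨d, h4, hdN, h6 hxe, h5⟩

end Pool.Agent.GPA
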