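import Mathlib

/-!
# Laver trees

A node is a list of natural numbers in reversed order: `m :: t` is the node `t` followed by `m`.
A Laver tree is a pair `(s, W)` of a stem `s` and a function `W` giving for every node `t` the
infinite set `W t` of its successors. Only the values `W t` at the nodes of the tree matter.
-/

namespace Pool.Agent.GPA

/-- The initial segment of `z` of length `k`, as a node. -/
def pre (z : ℕ → ℕ) : ℕ → List ℕ
  | 0 => []
  | k + 1 => z k :: pre z k

@[simp] theorem pre_zero (z : ℕ → ℕ) : pre z 0 = [] := rfl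

theorem pre_succ (z : ℕ → ℕ) (k : ℕ) : pre z (k + 1) = z k :: pre z k := rfl

@[simp] theorem length_pre (z : ℕ → ℕ) (k : ℕ) : (pre z k).length = k := by
  induction k with
  | zero => rfl
  | succ k ih => simp [pre_succ, ih]

/-- `t` is a node of the tree `(s, W)` which extends the stem `s`. -/
def nd (s : List ℕ) (W : List ℕ → Set ℕ) : List ℕ → Prop
  | [] => s = []
  | m :: t => s = m :: t ∨ (nd s W t ∧ m ∈ W t)

/-- `z` is a branch of the tree `(s, W)`. -/
def br (s : List ℕ) (W : List ℕ → Set ℕ) : Set (ℕ → ℕ) :=
  {z | pre z s.length = s ∧ ∀ k, s.length ≤ k → z k ∈ W (pre z k)}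

theorem nd_self (s : List ℕ) (W : List ℕ → Set ℕ) : nd s W s := by
  cases s with
  | nil => rfl
  | cons m t => exact Or.inl rfl

theorem nd_cons {s : List ℕ} {W : List ℕ → Set ℕ} {t : List ℕ} {m : ℕ} (h : nd s W t)
    (hm : m ∈ W t) : nd s W (m :: t) := Or.inr ⟨h, hm⟩

theorem nd.length_le {s : List ℕ} {W : List ℕ → Set ℕ} : ∀ {t : List ℕ}, nd s W t →
    s.length ≤ t.length
  | [], h => by
    have h' : s = [] := h
    simp [h']
  | m :: t, h => by
    rcases h with h | h
    · rw [h]
    · exact (h.1.length_le).trans (by simp)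

theorem nd.suffix {s : List ℕ} {W : List ℕ → Set ℕ} : ∀ {t : List ℕ}, nd s W t → s <:+ t
  | [], h => by
    have h' : s = [] := h
    simp [h']
  | m :: t, h => by
    rcases h with h | h
    · rw [h]
    · exact h.1.suffix.trans (List.suffix_cons m t)

theorem nd.eq_of_length {s : List ℕ} {W : List ℕ → Set ℕ} {t : List ℕ} (h : nd s W t)
    (hl : t.length ≤ s.length) : s = t := h.suffix.eq_of_length_le hl

theorem nd_cons_iff {s : List ℕ} {W : List ℕ → Set ℕ} {t : List ℕ} {m : ℕ}
    (h : s.length ≤ t.length) : nd s W (m :: t) ↔ nd s W t ∧ m ∈ W t := by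
  constructor
  · rintro (h1 | h1)
    · rw [h1] at h
      simp at h
    · exact h1
  · exact fun h1 => Or.inr h1

/-- The nodes of the tree `(t, W)` are nodes of the tree `(s, W)` if `t` is one. -/
theorem nd.trans {s t : List ℕ} {W : List ℕ → Set ℕ} (h : nd s W t) : ∀ {u : List ℕ},
    nd t W u → nd s W u
  | [], h' => by
    have h1 : t = [] := h'
    rw [h1] at h
    exact h
  | m :: u, h' => by
    rcases h' with h1 | h1
    · rw [← h1]; exact h
    · exact nd_cons (h.trans h1.1) h1.2

/-- The branches of the tree are the sequences all of whose long initial segments are nodes. -/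
theorem mem_br_iff {s : List ℕ} {W : List ℕ → Set ℕ} {z : ℕ → ℕ} :
    z ∈ br s W ↔ ∀ k, s.length ≤ k → nd s W (pre z k) := by
  constructor
  · rintro ⟨h1, h2⟩ k hk
    induction k, hk using Nat.le_induction with
    | base => rw [h1]; exact nd_self s W
    | succ k hk ih => exact nd_cons ih (h2 k hk)
  · intro h
    refine ⟨?_, fun k hk => ?_⟩
    · have h1 := h s.length le_rfl
      exact (h1.eq_of_length (by simp)).symm
    · have h1 := h (k + 1) (by omega)
      rw [pre_succ, nd_cons_iff (by simpa using hk)] at h1
      exact h1.2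

/-! ### A branch through a given node -/

/-- The chain of nodes above `t` which takes the least successor at every step. -/
noncomputable def chain (W : List ℕ → Set ℕ) (t : List ℕ) : ℕ → List ℕ
  | 0 => t
  | n + 1 => sInf (W (chain W t n)) :: chain W t n

/-- The digit of index `k` of the node `t`. -/
def dig (t : List ℕ) (k : ℕ) : ℕ := t.reverse.getD k 0

theorem dig_cons_lt {m : ℕ} {t : List ℕ} {k : ℕ} (h : k < t.length) :
    dig (m :: t) k = dig t k := by
  unfold dig
  rw [List.reverse_cons, List.getD_append _ _ _ _ (by simpa using h)]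

theorem dig_cons_length {m : ℕ} {t : List ℕ} : dig (m :: t) t.length = m := by
  unfold dig
  rw [List.reverse_cons, List.getD_append_right _ _ _ _ (by simp)]
  simp

theorem pre_of_dig {z : ℕ → ℕ} : ∀ {t : List ℕ}, (∀ k, k < t.length → z k = dig t k) →
    pre z t.length = t
  | [], _ => rfl
  | m :: t, h => by
    have h1 : pre z t.length = t := pre_of_dig fun k hk => by
      rw [h k (by simp; omega), dig_cons_lt hk]
    have h2 : z t.length = m := by rw [h t.length (by simp), dig_cons_length]
    rw [List.length_cons, pre_succ, h1, h2]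

theorem dig_pre {z : ℕ → ℕ} {n k : ℕ} (h : k < n) : dig (pre z n) k = z k := by
  induction n with
  | zero => omega
  | succ n ih =>
    rw [pre_succ]
    rcases Nat.lt_succ_iff_lt_or_eq.1 h with h | rfl
    · rw [dig_cons_lt (by simpa using h), ih h]
    · have := @dig_cons_length (z k) (pre z k)
      rwa [length_pre] at this

/-- The leftmost branch above `t`. -/
noncomputable def lb (W : List ℕ → Set ℕ) (t : List ℕ) (k : ℕ) : ℕ := dig (chain W t (k + 1)) k

theorem length_chain (W : List ℕ → Set ℕ) (t : List ℕ) (n : ℕ) :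
    (chain W t n).length = t.length + n := by
  induction n with
  | zero => rfl
  | succ n ih => simp [chain, ih]; omega

theorem dig_chain (W : List ℕ → Set ℕ) (t : List ℕ) {k n n' : ℕ} (h : k < t.length + n)
    (h' : n ≤ n') : dig (chain W t n') k = dig (chain W t n) k := by
  induction n', h' using Nat.le_induction with
  | base => rfl
  | succ m hm ih =>
    show dig (_ :: chain W t m) k = _
    rw [dig_cons_lt (by rw [length_chain]; omega), ih]

theorem pre_lb (W : List ℕ → Set ℕ) (t : List ℕ) (n : ℕ) :
    pre (lb W t) (t.length + n) = chain W t n := by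
  rw [← length_chain W t n]
  refine pre_of_dig fun k hk => ?_
  rw [length_chain] at hk
  unfold lb
  rcases le_total (k + 1) n with h | h
  · rw [dig_chain W t (by omega) h]
  · rw [dig_chain W t hk h]

theorem lb_mem_br {W : List ℕ → Set ℕ} (hW : ∀ t, (W t).Infinite) (t : List ℕ) :
    lb W t ∈ br t W := by
  refine ⟨?_, fun k hk => ?_⟩
  · have := pre_lb W t 0
    rwa [Nat.add_zero] at this
  · obtain ⟨n, rfl⟩ := Nat.exists_eq_add_of_le hk
    have h1 := pre_lb W t n
    have h2 := pre_lb W t (n + 1)
    rw [← Nat.add_assoc, pre_succ, h1] at h2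
    have h3 : lb W t (t.length + n) = sInf (W (chain W t n)) := (List.cons.inj h2).1
    rw [h1, h3]
    exact Nat.sInf_mem (hW _).nonempty

theorem br_subset_of_nd {s t : List ℕ} {W : List ℕ → Set ℕ} (h : nd s W t) : br t W ⊆ br s W := by
  intro z hz
  rw [mem_br_iff] at hz ⊢
  have h0 : pre z t.length = t := ((hz t.length le_rfl).eq_of_length (by simp)).symm
  have key : ∀ d n, n + d = t.length → s.length ≤ n → nd s W (pre z n) := by
    intro d
    induction d with
    | zero =>
      intro n hn _
      rw [Nat.add_zero] at hn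
      rw [hn, h0]
      exact h
    | succ d ih =>
      intro n hn hs
      have h1 := ih (n + 1) (by omega) (by omega)
      rw [pre_succ, nd_cons_iff (by simpa using hs)] at h1
      exact h1.1
  intro k hk
  rcases le_total k t.length with h1 | h1
  · exact key (t.length - k) k (by omega) hk
  · exact h.trans (hz k h1)

/-- There is a branch through every node. -/
theorem exists_br {s t : List ℕ} {W : List ℕ → Set ℕ} (hW : ∀ t, (W t).Infinite) (h : nd s W t) :
    ∃ z ∈ br s W, pre z t.length = t :=
  ⟨lb W t, br_subset_of_nd h (lb_mem_br hW t), (lb_mem_br hW t).1⟩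

/-- Inclusion of the node sets. -/
def Sub (s : List ℕ) (W : List ℕ → Set ℕ) (s' : List ℕ) (W' : List ℕ → Set ℕ) : Prop :=
  ∀ t, nd s W t → nd s' W' t

theorem Sub.refl (s : List ℕ) (W : List ℕ → Set ℕ) : Sub s W s W := fun _ h => h

theorem Sub.trans {s : List ℕ} {W : List ℕ → Set ℕ} {s' : List ℕ} {W' : List ℕ → Set ℕ}
    {s'' : List ℕ} {W'' : List ℕ → Set ℕ} (h : Sub s W s' W') (h' : Sub s' W' s'' W'') :
    Sub s W s'' W'' := fun t ht => h' t (h t ht)

theorem sub_of_nd {s t : List ℕ} {W : List ℕ → Set ℕ} (h : nd s W t) : Sub t W s W :=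
  fun _ hu => h.trans hu

/-- A simple sufficient condition. -/
theorem sub_of_subset {s : List ℕ} {W W' : List ℕ → Set ℕ} (h : ∀ t, nd s W t → W t ⊆ W' t) :
    Sub s W s W' := by
  intro t
  induction t with
  | nil => exact fun h' => h'
  | cons m t ih =>
    rintro (h1 | h1)
    · exact Or.inl h1
    · exact Or.inr ⟨ih h1.1, h t h1.1 h1.2⟩

theorem Sub.subset {s : List ℕ} {W : List ℕ → Set ℕ} {s' : List ℕ} {W' : List ℕ → Set ℕ}
    (h : Sub s W s' W') {t : List ℕ} (ht : nd s W t) : W t ⊆ W' t := by
  intro m hm
  have h1 := h (m :: t) (nd_cons ht hm)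
  have h2 := (h t ht).length_le
  exact ((nd_cons_iff h2).1 h1).2

/-- The order of the trees in terms of the branches. -/
theorem sub_iff_br {s : List ℕ} {W : List ℕ → Set ℕ} {s' : List ℕ} {W' : List ℕ → Set ℕ}
    (hW : ∀ t, (W t).Infinite) : Sub s W s' W' ↔ br s W ⊆ br s' W' := by
  constructor
  · intro h z hz
    have hz' := mem_br_iff.1 hz
    have hs : nd s' W' s := h s (nd_self s W)
    refine br_subset_of_nd hs ?_
    refine ⟨hz.1, fun k hk => ?_⟩
    exact h.subset (hz' k hk) (hz.2 k hk)
  · intro h t ht
    obtain ⟨z, hz, hzt⟩ := exists_br hW ht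
    have hl : s'.length ≤ t.length := by
      by_contra hl
      push Not at hl
      obtain ⟨m, hm⟩ := (hW t).nonempty
      obtain ⟨m', hm', hmm⟩ := (hW t).exists_gt m
      obtain ⟨z, hz, hz1⟩ := exists_br hW (nd_cons ht hm)
      obtain ⟨z', hz', hz1'⟩ := exists_br hW (nd_cons ht hm')
      have e1 : z t.length = m := by
        rw [List.length_cons, pre_succ] at hz1
        exact (List.cons.inj hz1).1
      have e2 : z' t.length = m' := by
        rw [List.length_cons, pre_succ] at hz1'
        exact (List.cons.inj hz1').1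
      have e3 : z t.length = z' t.length := by
        rw [← dig_pre (z := z) hl, ← dig_pre (z := z') hl, (h hz).1, (h hz').1]
      omega
    have h1 := mem_br_iff.1 (h hz) t.length hl
    rwa [hzt] at h1

end Pool.Agent.GPA
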