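import Pool.Agent.GPA.XDefs

/-!
# Block X: the statements (task list, not part of the proof)

Every statement is proved in the file named before it, under the same name, and then deleted here.
A file which uses a statement not yet proved takes it as a hypothesis. Proved and removed:
`blockP`, `select`, `select_tree` (XBase), `intp` (Intp), `extI_nat` (LavX, LavXa).
-/

open MeasureTheory Set Filter Topology
open scoped ENNReal

namespace Pool.Agent.GPA

namespace XTasks

variable {K : Type} [LinearOrder K] [WellFoundedLT K]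

/-! ### Codes.lean -/

/-- A null name has a code. Proof: `exists_openFam` with `ε = 4 ^ (-2 k - 2)`, cut the `k`-th open
set into clopen pieces of measures at most `4 ^ (- 2 (k + r) - 2)`, and let `w y n` be the union of
the pieces with `k + r = n`; replace `w` by `w ∘ rho j`. -/
theorem exists_code_of_null {j : WithTop K} {W : Set (Pt K × YS ℕ)} (hW : NullName j W) :
    ∃ w, IsCode j 1 0 w ∧ ∀ y k, sec W y ⊆ ⋃ n, w y (k + n) := by
  sorry

/-- The first Borel-Cantelli lemma in `N`: a sequence of functions with summable integrals tends to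
`0` outside of a null name. -/
theorem borel_cantelli {j : WithTop K} {f : ℕ → Pt K → YS ℕ → ℝ≥0∞}
    (hf : ∀ k, Measurable fun z : Pt K × YS ℕ => f k z.1 z.2) (hd : ∀ k, Det j (f k)) :
    ∃ Z, NullName j Z ∧ ∀ x, (∑' k, ∫⁻ z, f k x z ∂coin ℕ) ≠ ⊤ →
      ∀ z, z ∉ sec Z x → Tendsto (fun k => f k x z) atTop (𝓝 0) := by
  sorry

/-- The case `i = j` of the extension theorem. -/
theorem ext_refl {i : WithTop K} : ∀ᶠ N in club, EXT (K := K) N i i := by
  sorry

/-! ### Front.lean -/

/-- The front lemma for dense sets, with open sets: every branch of the pure extension has a node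
above which it is included in one member of the countable set `C ⊆ D`. -/
theorem front_open (H : BlockP K) {i : K} {j : WithTop K}
    (hj : ∀ b : K, (b : WithTop K) < j ↔ b ≤ i) {D : Set (Cond K)} (hD : DenseL j D)
    (c p : Cond K) (hp : pt p (i : WithTop K) ⊆ pt c (i : WithTop K)) :
    ∃ e, pt e (i : WithTop K) ⊆ pt p (i : WithTop K) ∧ Pure i e c ∧
      ∃ C : Set (Cond K), C.Countable ∧ C ⊆ D ∧ ∀ x ∈ pt e (i : WithTop K), ∀ β ∈ (e.T i).br x,
        ∃ n, ((e.T i).s x).length ≤ n ∧ ∃ d ∈ C, ∀ β' ∈ (e.T i).br x, pre β' n = pre β n →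
          upd i x β' ∈ pt d j := by
  sorry

/-- Pure decision of a finite partition. -/
theorem pure_dec (H : BlockP K) {i : K} {j : WithTop K}
    (hj : ∀ b : K, (b : WithTop K) < j ↔ b ≤ i) {n : ℕ} (g : Pt K → Fin n)
    (hg : ∀ v, MeasurableSet {y | g y = v}) (hd : Det j g)
    (c p : Cond K) (hp : pt p (i : WithTop K) ⊆ pt c (i : WithTop K)) :
    ∃ e, pt e (i : WithTop K) ⊆ pt p (i : WithTop K) ∧ Pure i e c ∧
      ∃ v, ∀ y ∈ pt e j, g y = v := by
  sorry

/-! ### Pot.lean -/

/-- Existence of potentials. Proof: at one node, decide purely the functions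
`⌊2 ^ r * measure of (⋃ l, C k y l) ∩ cyl⌋`, the `r`-th decision for the successors after the
`r`-th one, then fuse over the nodes (`select_tree`); the fronts for the pieces `C k y l` and the
dense sets `D k` by `front_open` at the nodes of length `k`. -/
theorem potL (H : BlockP K) {i : K} {j : WithTop K}
    (hj : ∀ b : K, (b : WithTop K) < j ↔ b ≤ i) : PotL i j := by
  sorry

/-! ### PotF.lean: facts on potentials, for one tree -/

theorem Pot.mono {s s' : List ℕ} {W W' : List ℕ → Set ℕ} {C : (ℕ → ℕ) → ℕ → Set (YS ℕ)}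
    {w : List ℕ → List Bool → ℝ} (h : Pot s W C w) (hi : ∀ t, (W' t).Infinite)
    (hs : GPA.Sub s' W' s W) : Pot s' W' C w := by
  sorry

/-- An approximate closed property which holds in the limit along the branches holds at all nodes:
if `φ (w t)` is continuous for the pointwise convergence and tends to values in the closed set `A`
along every branch, then `φ (w t) ∈ A`. -/
theorem Pot.closed {s : List ℕ} {W : List ℕ → Set ℕ} {C : (ℕ → ℕ) → ℕ → Set (YS ℕ)}
    {w : List ℕ → List Bool → ℝ} (h : Pot s W C w) (hi : ∀ t, (W t).Infinite) {t : List ℕ}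
    (ht : nd s W t) {φ : (List Bool → ℝ) → ℝ} (hφ : Continuous φ) {A : Set ℝ} (hA : IsClosed A)
    (hb : ∀ β ∈ GPA.br s W, pre β t.length = t →
      φ (fun r => (coin ℕ).real ((⋃ l, C β l) ∩ cylS (fun z : ℕ → Bool => z) r)) ∈ A) :
    φ (w t) ∈ A := by
  sorry

/-- The density of the potential. -/
noncomputable def den (w : List Bool → ℝ) (z : YS ℕ) : ℝ :=
  dens (fun r => (coin ℕ).real (cylS (fun z : ℕ → Bool => z) r)) w z

theorem Pot.den_mem {s : List ℕ} {W : List ℕ → Set ℕ} {C : (ℕ → ℕ) → ℕ → Set (YS ℕ)}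
    {w : List ℕ → List Bool → ℝ} (h : Pot s W C w) (hi : ∀ t, (W t).Infinite)
    (hm : ∀ β l, MeasurableSet (C β l)) {t : List ℕ} (ht : nd s W t) (z : YS ℕ) :
    0 ≤ den (w t) z ∧ den (w t) z ≤ 1 := by
  sorry

theorem Pot.integral_den {s : List ℕ} {W : List ℕ → Set ℕ} {C : (ℕ → ℕ) → ℕ → Set (YS ℕ)}
    {w : List ℕ → List Bool → ℝ} (h : Pot s W C w) (hi : ∀ t, (W t).Infinite)
    (hm : ∀ β l, MeasurableSet (C β l)) {t : List ℕ} (ht : nd s W t) (r : List Bool) :
    ∫ z in cylS (fun z : ℕ → Bool => z) r, den (w t) z ∂coin ℕ = w t r := by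
  sorry

/-- The mass of the potential is bounded by the measures of the open sets. -/
theorem Pot.integral_le {s : List ℕ} {W : List ℕ → Set ℕ} {C : (ℕ → ℕ) → ℕ → Set (YS ℕ)}
    {w : List ℕ → List Bool → ℝ} (h : Pot s W C w) (hi : ∀ t, (W t).Infinite)
    (hm : ∀ β l, MeasurableSet (C β l)) {t : List ℕ} (ht : nd s W t) {a : ℝ}
    (ha : ∀ β ∈ GPA.br s W, (coin ℕ).real (⋃ l, C β l) ≤ a) :
    ∫ z, den (w t) z ∂coin ℕ ≤ a := by
  sorry

/-- The density is `1` at the points of the pieces, from some node of the branch on. -/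
theorem Pot.den_eq_one {s : List ℕ} {W : List ℕ → Set ℕ} {C : (ℕ → ℕ) → ℕ → Set (YS ℕ)}
    {w : List ℕ → List Bool → ℝ} (h : Pot s W C w) (hi : ∀ t, (W t).Infinite)
    (hm : ∀ β l, IsCyl (C β l)) {β : ℕ → ℕ} (hβ : β ∈ GPA.br s W) {l : ℕ} {z : YS ℕ}
    (hz : z ∈ C β l) : ∃ n₀, ∀ n ≥ n₀, den (w (pre β n)) z = 1 := by
  sorry

/-! ### Saks.lean -/

/-- Weak convergence along an infinite set of indices, and the exceptional null set for the
inequality of the integrals. -/
theorem saks {X : Type} [MeasurableSpace X] {F : ℕ → X → YS ℕ → ℝ} {G : X → YS ℕ → ℝ}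
    {A : X → Set ℕ} {C : ℝ} (hF : ∀ m, Measurable fun z : X × YS ℕ => F m z.1 z.2)
    (hG : Measurable fun z : X × YS ℕ => G z.1 z.2) (hA : ∀ m, MeasurableSet {x | m ∈ A x}) :
    ∃ Z : Set (X × YS ℕ), MeasurableSet Z ∧ (∀ x, coin ℕ (sec Z x) = 0) ∧
      ∀ x, (A x).Infinite → (∀ m ∈ A x, ∀ y, 0 ≤ F m x y ∧ F m x y ≤ C) →
        (∀ y, 0 ≤ G x y ∧ G x y ≤ C) →
        (∀ r : List Bool, Tendsto (fun m => ∫ y in cylS (fun z : ℕ → Bool => z) r, F m x y ∂coin ℕ)
          (atTop ⊓ 𝓟 (A x)) (𝓝 (∫ y in cylS (fun z : ℕ → Bool => z) r, G x y ∂coin ℕ))) →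
        ∀ ν : Measure (YS ℕ), IsFiniteMeasure ν → ν (sec Z x) = 0 → ∀ ε : ℝ, 0 < ε →
          ∀ k : ℕ, ∃ m ∈ A x, k ≤ m ∧ ∫ y, F m x y ∂ν ≤ ∫ y, G x y ∂ν + ε := by
  sorry

/-! ### One.lean -/

/-- The step from `i` to the next level. -/
theorem ext_next (H : BlockP K) {i : K} {j : WithTop K}
    (hj : ∀ b : K, (b : WithTop K) < j ↔ b ≤ i) (hP : PotL i j) :
    ∀ᶠ N in club, EXT N (i : WithTop K) j := by
  sorry

/-! ### IterExt.lean -/

theorem extF_of_ext {N : Set Obj} (hN : N.Countable) {i j : WithTop K} (hij : i ≤ j)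
    (h : EXT (K := K) N i j) : EXTF (K := K) N i j := by
  sorry

theorem ext_comp (H : BlockP K) {i l j : WithTop K} (h : i ≤ l) (h' : l ≤ j)
    (h1 : ∀ᶠ N in club, EXT (K := K) N i l) (h2 : ∀ᶠ N in club, EXT (K := K) N l j) :
    ∀ᶠ N in club, EXT (K := K) N i j := by
  sorry

theorem ext_limit (H : BlockP K) {i j : WithTop K} (hij : i < j)
    (hj : ∀ a : K, (a : WithTop K) < j → ∃ b : K, a < b ∧ (b : WithTop K) < j)
    (ih : ∀ l l' : WithTop K, l ≤ l' → l' < j → ∀ᶠ N in club, EXT (K := K) N l l') :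
    ∀ᶠ N in club, EXT (K := K) N i j := by
  sorry

/-- Theorem B. -/
theorem ext_all (H : BlockP K) (i j : WithTop K) (hij : i ≤ j) :
    ∀ᶠ N in club, EXT (K := K) N i j := by
  sorry

end XTasks

end Pool.Agent.GPA
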